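import Mathlib
set_option autoImplicit false
open Matrix MeasureTheory Set Metric Filter Topology
open scoped ENNReal ContDiff

namespace Pool.Agent.Helper82.OS

/-- Euclidean space -/
abbrev E (D : ℕ) := EuclideanSpace ℝ (Fin D)

/-- matrix of a continuous linear map in the standard basis -/
noncomputable def mat {D : ℕ} (L : E D →L[ℝ] E D) : Matrix (Fin D) (Fin D) ℝ :=
  Matrix.of fun i j => L (EuclideanSpace.single j 1) i

/-- `T_f h = ⟨x,f⟩ B h - ⟨x,h⟩ B f + Π (⟨v,h⟩ f - ⟨v,f⟩ h)` with `Π = 1 - x xᵀ - v vᵀ` -/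
noncomputable def TT {D : ℕ} (x v : Fin D → ℝ) (B : Matrix (Fin D) (Fin D) ℝ) (f : Fin D → ℝ) :
    Matrix (Fin D) (Fin D) ℝ :=
  (x ⬝ᵥ f) • B - vecMulVec (B *ᵥ f) x
    + (1 - vecMulVec x x - vecMulVec v v) * (vecMulVec f v - (v ⬝ᵥ f) • (1 : Matrix (Fin D) (Fin D) ℝ))

/-- `|ι_f β_1 ∧ ... ∧ ι_f β_N|` -/
noncomputable def JJ {D : ℕ} (x v : Fin D → ℝ) (B : Matrix (Fin D) (Fin D) ℝ) (f : Fin D → ℝ) : ℝ :=
  Real.sqrt (TT x v B f * (TT x v B f)ᵀ + vecMulVec x x + vecMulVec v v).det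

/-- normalised surface measure of the sphere (not normalised: total mass `D * vol(ball)`) -/
noncomputable abbrev sg (D : ℕ) : Measure (sphere (0 : E D) 1) := (volume : Measure (E D)).toSphere

/-- the constant `∫_{S^{N+1}} |f_0|^{N-1} √(1-f_1²)` -/
noncomputable def cN (N : ℕ) : ℝ≥0∞ :=
  ∫⁻ f : sphere (0 : E (N + 2)) 1,
    ENNReal.ofReal (|(f : E (N + 2)) 0| ^ (N - 1) * Real.sqrt (1 - ((f : E (N + 2)) 1) ^ 2)) ∂(sg (N + 2))

/-- the pointwise inequality (*) in dimension `N` -/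
def Star (N : ℕ) : Prop :=
  ∀ (x v : Fin (N + 2) → ℝ) (B : Matrix (Fin (N + 2)) (Fin (N + 2)) ℝ),
    x ⬝ᵥ x = 1 → v ⬝ᵥ v = 1 → x ⬝ᵥ v = 0 → B *ᵥ x = 0 → x ᵥ* B = 0 → v ᵥ* B = 0 →
    ∫⁻ f : sphere (0 : E (N + 2)) 1, ENNReal.ofReal (JJ x v B (f : E (N + 2)).ofLp) ∂(sg (N + 2))
      ≤ ENNReal.ofReal (Real.sqrt (1 + B * Bᵀ).det) * cN N

/-- `s_z y = 2⟨z,y⟩z/|z|² - y` -/
noncomputable def sm {D : ℕ} (z y : E D) : E D := (2 * inner ℝ z y / ‖z‖ ^ 2) • z - y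

/-- the transported field `U(z) = - s_z V(s_z c)` -/
noncomputable def UU {D : ℕ} (V : E D → E D) (c z : E D) : E D := - sm z (V (sm z c))

/-- `M(z) = DU(z) + c zᵀ` -/
noncomputable def MM {D : ℕ} (V : E D → E D) (c z : E D) : Matrix (Fin D) (Fin D) ℝ :=
  mat (fderiv ℝ (UU V c) z) + vecMulVec c.ofLp z.ofLp

/-- `ξ(z) = adj(M(z)) U(z)` -/
noncomputable def xi {D : ℕ} (V : E D → E D) (c z : E D) : E D :=
  WithLp.toLp 2 ((MM V c z).adjugate *ᵥ (UU V c z).ofLp)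

/-- `B_x = Π_x DV(x) Π_x` -/
noncomputable def Bm {D : ℕ} (V : E D → E D) (x : E D) : Matrix (Fin D) (Fin D) ℝ :=
  (1 - vecMulVec x.ofLp x.ofLp) * mat (fderiv ℝ V x) * (1 - vecMulVec x.ofLp x.ofLp)

/-- smooth unit tangent fields on the unit sphere -/
structure UT {D : ℕ} (V : E D → E D) : Prop where
  sm : ContDiff ℝ ∞ V
  tan : ∀ x : E D, ‖x‖ = 1 → inner ℝ x (V x) = 0
  unit : ∀ x : E D, ‖x‖ = 1 → ‖V x‖ = 1

/-- the density of the volume -/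
noncomputable def dens {D : ℕ} (V : E D → E D) (x : E D) : ℝ := Real.sqrt (1 + Bm V x * (Bm V x)ᵀ).det

/-- cut-off derivative kernel -/
noncomputable def th (ε s : ℝ) : ℝ := s / Real.sqrt (s ^ 2 + ε ^ 2)
noncomputable def th' (ε s : ℝ) : ℝ := ε ^ 2 / Real.sqrt (s ^ 2 + ε ^ 2) ^ 3
/-- regularised angle -/
noncomputable def uu {D : ℕ} (V : E D → E D) (c : E D) (ε : ℝ) (z : E D) : ℝ :=
  Real.arcsin (inner ℝ z (V (-c) - UU V c z) / (‖z‖ * Real.sqrt (‖V (-c) - UU V c z‖ ^ 2 + ε ^ 2)))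

end Pool.Agent.Helper82.OS
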