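import Mathlib
import Pool.Agent.Helper82.OS.Defs
set_option autoImplicit false
open Matrix MeasureTheory Set Metric Filter Topology
open scoped ENNReal ContDiff

namespace Pool.Agent.Helper82.OS
/-- the parallel transport field -/
noncomputable def PP {D : ℕ} (a v : E D) (y : E D) : E D := v - (inner ℝ v y / (1 + inner ℝ y a)) • (y + a)
/-- its density in terms of the two coordinates -/
noncomputable def fP (N : ℕ) (s t : ℝ) : ℝ :=
  (Real.sqrt ((1 + s) ^ 2 + t ^ 2) / (1 + s)) ^ (N - 1) * Real.sqrt (2 / (1 + s))
end Pool.Agent.Helper82.OS
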