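import Mathlib
import Pool.Agent.Helper82.OS.Defs
set_option autoImplicit false
open Matrix MeasureTheory Set Metric Filter Topology
open scoped ENNReal ContDiff

namespace Pool.Agent.Helper82.OS





theorem amgm_psd_amgmx {N : ℕ} (hN : 1 ≤ N) (A : Matrix (Fin N) (Fin N) ℝ) (hA : A.PosSemidef) :
    A.det ≤ (A.trace / N) ^ N ∧ 0 ≤ A.trace / N := by
  have hN0 : (0:ℝ) < N := by exact_mod_cast hN
  have hdet := hA.isHermitian.det_eq_prod_eigenvalues
  have htr := hA.isHermitian.trace_eq_sum_eigenvalues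
  have hnn := hA.eigenvalues_nonneg
  generalize hA.isHermitian.eigenvalues = l at hdet htr hnn
  simp only [RCLike.ofReal_real_eq_id, id_eq] at hdet htr
  have htr0 : 0 ≤ A.trace / N := by
    rw [htr]
    exact div_nonneg (Finset.sum_nonneg fun i _ => hnn i) hN0.le
  refine ⟨?_, htr0⟩
  have h := Real.geom_mean_le_arith_mean_weighted Finset.univ (fun _ : Fin N => (1:ℝ) / N) l
    (fun _ _ => by positivity) (by simp; field_simp) (fun i _ => hnn i)
  rw [Real.finsetProd_rpow _ _ (fun i _ => hnn i), ← hdet] at h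
  have h2 : ∑ i : Fin N, (1:ℝ) / N * l i = A.trace / N := by
    rw [← Finset.mul_sum, ← htr]
    ring
  rw [h2] at h
  have hd0 : 0 ≤ A.det := by
    rw [hdet]
    exact Finset.prod_nonneg fun i _ => hnn i
  have h3 : (A.det ^ ((1:ℝ) / N)) ^ N = A.det := by
    rw [← Real.rpow_natCast, ← Real.rpow_mul hd0]
    rw [one_div, inv_mul_cancel₀ hN0.ne', Real.rpow_one]
  rw [← h3]
  exact pow_le_pow_left₀ (Real.rpow_nonneg hd0 _) h N

theorem amgm {N : ℕ} (hN : 1 ≤ N) (G : Matrix (Fin N) (Fin N) ℝ) (hG : G.PosSemidef) (n : Fin N → ℝ)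
    (hn : n ⬝ᵥ n = 1) (g1 a g0 : ℝ) (h1 : g1 ≤ n ⬝ᵥ (G *ᵥ n)) (ha : 0 < a) (hag : a ≤ g0) :
    G.det ≤ g0 * a ^ (N - 1) * (((G.trace - g1) / a + g1 / g0) / N) ^ N ∧
    0 ≤ ((G.trace - g1) / a + g1 / g0) / N := by
  have hg0 : 0 < g0 := lt_of_lt_of_le ha hag
  have hN0 : (0:ℝ) < N := by exact_mod_cast hN
  obtain ⟨s1, hs1, hs1p⟩ : ∃ s1 : ℝ, s1 ^ 2 = a⁻¹ ∧ 0 < s1 :=
    ⟨√(a⁻¹), Real.sq_sqrt (by positivity), Real.sqrt_pos.2 (by positivity)⟩
  obtain ⟨s2, hs2, hs2p⟩ : ∃ s2 : ℝ, s2 ^ 2 = g0⁻¹ ∧ 0 < s2 :=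
    ⟨√(g0⁻¹), Real.sq_sqrt (by positivity), Real.sqrt_pos.2 (by positivity)⟩
  set P : Matrix (Fin N) (Fin N) ℝ := vecMulVec n n with hP
  have hPP : P * P = P := by
    rw [hP, vecMulVec_mul_vecMulVec, hn]
    simp
  have hPt : Pᵀ = P := by
    ext i j
    simp [hP, vecMulVec_apply, mul_comm]
  set S : Matrix (Fin N) (Fin N) ℝ := s1 • 1 + (s2 - s1) • P with hS
  have hSt : Sᴴ = S := by
    rw [hS, conjTranspose_eq_transpose_of_trivial, transpose_add, transpose_smul, transpose_smul,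
      transpose_one, hPt]
  have hSS : S * S = s1 ^ 2 • 1 + (s2 ^ 2 - s1 ^ 2) • P := by
    rw [hS, add_mul, mul_add, mul_add]
    simp only [smul_mul_assoc, mul_smul_comm, one_mul, mul_one, hPP, smul_smul]
    rw [add_assoc, ← add_smul, ← add_smul]
    congr 2
    · ring
    · ring
  have hPG : (P * G).trace = n ⬝ᵥ (G *ᵥ n) := by
    rw [hP, vecMulVec_mul, trace_vecMulVec, dotProduct_comm, ← dotProduct_mulVec]
  have hdetS : S.det = s1 ^ (N - 1) * s2 := by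
    have e1 : S = s1 • (1 + vecMulVec (((s2 - s1) / s1) • n) n) := by
      rw [hS, smul_add, smul_vecMulVec, smul_smul, mul_div_cancel₀ _ hs1p.ne']
    rw [e1, det_smul, Fintype.card_fin, vecMulVec_eq Unit,
      det_one_add_replicateCol_mul_replicateRow, dotProduct_smul, hn]
    have : s1 ^ N = s1 ^ (N - 1) * s1 := by
      rw [← pow_succ]
      congr 1
      omega
    rw [this, smul_eq_mul, mul_one]
    field_simp
    ring
  have hA := hG.conjTranspose_mul_mul_same S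
  rw [hSt] at hA
  obtain ⟨k1, k2⟩ := amgm_psd_amgmx hN (S * G * S) hA
  have hdA : (S * G * S).det = (a⁻¹) ^ (N - 1) * g0⁻¹ * G.det := by
    rw [det_mul, det_mul, hdetS, ← hs1, ← hs2]
    ring
  have htA : (S * G * S).trace = G.trace * a⁻¹ + (g0⁻¹ - a⁻¹) * (n ⬝ᵥ (G *ᵥ n)) := by
    rw [trace_mul_cycle, hSS, add_mul, smul_mul_assoc, smul_mul_assoc, one_mul, trace_add,
      trace_smul, trace_smul, hPG, hs1, hs2, smul_eq_mul, smul_eq_mul]
    ring
  have hle : (S * G * S).trace ≤ (G.trace - g1) / a + g1 / g0 := by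
    rw [htA]
    have h3 : g0⁻¹ ≤ a⁻¹ := inv_anti₀ ha hag
    have h4 : (g0⁻¹ - a⁻¹) * (n ⬝ᵥ (G *ᵥ n)) ≤ (g0⁻¹ - a⁻¹) * g1 :=
      mul_le_mul_of_nonpos_left h1 (by linarith)
    have h5 : (G.trace - g1) / a + g1 / g0 = G.trace * a⁻¹ + (g0⁻¹ - a⁻¹) * g1 := by
      rw [div_eq_mul_inv, div_eq_mul_inv]
      ring
    rw [h5]
    linarith
  have hle2 : (S * G * S).trace / N ≤ ((G.trace - g1) / a + g1 / g0) / N :=
    div_le_div_of_nonneg_right hle hN0.le
  refine ⟨?_, k2.trans hle2⟩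
  have hpow := pow_le_pow_left₀ k2 hle2 N
  have h6 := k1.trans hpow
  rw [hdA] at h6
  have h7 : G.det = g0 * a ^ (N - 1) * ((a⁻¹) ^ (N - 1) * g0⁻¹ * G.det) := by
    rw [inv_pow]
    have : a ^ (N - 1) ≠ 0 := (pow_pos ha _).ne'
    field_simp
  rw [h7]
  exact mul_le_mul_of_nonneg_left h6 (by positivity)



end Pool.Agent.Helper82.OS
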