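import Mathlib
set_option autoImplicit false

open MeasureTheory
open scoped ENNReal NNReal

namespace Pool.Agent.Helper82.OS

/-- the normalisation is Lipschitz outside the unit ball -/
theorem B08_normalize {W : Type*} [NormedAddCommGroup W] [NormedSpace ℝ W] (x y : W)
    (hx : 1 ≤ ‖x‖) (hy : 1 ≤ ‖y‖) : ‖‖x‖⁻¹ • x - ‖y‖⁻¹ • y‖ ≤ 2 * ‖x - y‖ := by
  have hx0 : 0 < ‖x‖ := by linarith
  have hy0 : 0 < ‖y‖ := by linarith
  have e : ‖x‖⁻¹ • x - ‖y‖⁻¹ • y = ‖x‖⁻¹ • (x - y) + (‖x‖⁻¹ * (‖y‖ - ‖x‖) * ‖y‖⁻¹) • y := by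
    have h1 : ‖x‖⁻¹ * (‖y‖ - ‖x‖) * ‖y‖⁻¹ = ‖x‖⁻¹ - ‖y‖⁻¹ := by
      field_simp
    rw [h1, smul_sub, sub_smul]
    abel
  rw [e]
  have h2 : ‖x‖⁻¹ ≤ 1 := inv_le_one_of_one_le₀ hx
  have h3 : |‖y‖ - ‖x‖| ≤ ‖x - y‖ := by
    rw [norm_sub_rev]
    exact abs_norm_sub_norm_le y x
  calc ‖‖x‖⁻¹ • (x - y) + (‖x‖⁻¹ * (‖y‖ - ‖x‖) * ‖y‖⁻¹) • y‖
      ≤ ‖‖x‖⁻¹ • (x - y)‖ + ‖(‖x‖⁻¹ * (‖y‖ - ‖x‖) * ‖y‖⁻¹) • y‖ := norm_add_le _ _
    _ = ‖x‖⁻¹ * ‖x - y‖ + ‖x‖⁻¹ * |‖y‖ - ‖x‖| := by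
        rw [norm_smul, norm_smul, Real.norm_eq_abs, Real.norm_eq_abs, abs_mul, abs_mul,
          abs_of_pos (inv_pos.2 hx0), abs_of_pos (inv_pos.2 hy0)]
        field_simp
    _ ≤ 1 * ‖x - y‖ + 1 * ‖x - y‖ := by
        gcongr
    _ = 2 * ‖x - y‖ := by ring

/-- parametrisation of the sphere by the faces of a cube -/
noncomputable def B08_face (m : ℕ) (i : Fin (m + 1)) (ε : ℝ) (y : Fin m → ℝ) :
    EuclideanSpace ℝ (Fin (m + 1)) :=
  ‖(WithLp.toLp 2 (i.insertNth ε y) : EuclideanSpace ℝ (Fin (m + 1)))‖⁻¹ •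
    (WithLp.toLp 2 (i.insertNth ε y) : EuclideanSpace ℝ (Fin (m + 1)))

theorem B08_face_norm (m : ℕ) (i : Fin (m + 1)) (ε : ℝ) (hε : |ε| = 1) (y : Fin m → ℝ) :
    1 ≤ ‖(WithLp.toLp 2 (i.insertNth ε y) : EuclideanSpace ℝ (Fin (m + 1)))‖ := by
  have h1 := PiLp.norm_apply_le (p := 2) (WithLp.toLp 2 (i.insertNth ε y) : EuclideanSpace ℝ (Fin (m + 1))) i
  simp only [Fin.insertNth_apply_same, Real.norm_eq_abs, hε] at h1
  exact h1

theorem B08_face_lip (m : ℕ) (i : Fin (m + 1)) (ε : ℝ) (hε : |ε| = 1) :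
    ∃ K : ℝ≥0, LipschitzWith K (B08_face m i ε) := by
  have h1 : LipschitzWith 1 (fun y : Fin m → ℝ => (i.insertNth ε y : Fin (m + 1) → ℝ)) := by
    apply LipschitzWith.of_dist_le_mul
    intro y y'
    rw [NNReal.coe_one, one_mul, dist_pi_le_iff dist_nonneg]
    intro j
    refine i.succAboveCases ?_ ?_ j
    · simp
    · intro k
      simp only [Fin.insertNth_apply_succAbove]
      exact dist_le_pi_dist y y' k
  have h2 := (PiLp.lipschitzWith_toLp 2 (fun _ : Fin (m + 1) => ℝ)).comp h1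
  refine ⟨2 * (((Fintype.card (Fin (m + 1)) : ℝ≥0) ^ (1 / (2 : ℝ≥0∞)).toReal) * 1), ?_⟩
  apply LipschitzWith.of_dist_le_mul
  intro y y'
  rw [dist_eq_norm]
  unfold B08_face
  refine (B08_normalize _ _ (B08_face_norm m i ε hε y) (B08_face_norm m i ε hε y')).trans ?_
  have h3 := h2.dist_le_mul y y'
  rw [dist_eq_norm] at h3
  rw [NNReal.coe_mul, mul_assoc]
  apply mul_le_mul_of_nonneg_left _ (by norm_num)
  exact h3

theorem B08_face_cover (m : ℕ) (x : EuclideanSpace ℝ (Fin (m + 1))) (hx : ‖x‖ = 1) :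
    ∃ (i : Fin (m + 1)) (b : Bool), x ∈ B08_face m i (if b then 1 else -1) '' Metric.closedBall 0 1 := by
  obtain ⟨i, -, hi⟩ := Finset.exists_max_image (Finset.univ : Finset (Fin (m + 1))) (fun j => |x j|)
    ⟨0, Finset.mem_univ _⟩
  have hxi : x i ≠ 0 := by
    intro h0
    have : x = 0 := by
      ext j
      have := hi j (Finset.mem_univ _)
      rw [h0, abs_zero] at this
      simpa using this
    rw [this] at hx
    simp at hx
  have hpos : 0 < |x i| := abs_pos.2 hxi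
  refine ⟨i, decide (0 < x i), fun j => x (i.succAbove j) / |x i|, ?_, ?_⟩
  · rw [mem_closedBall_zero_iff, pi_norm_le_iff_of_nonneg zero_le_one]
    intro j
    rw [norm_div, Real.norm_eq_abs, Real.norm_eq_abs, abs_abs, div_le_one hpos]
    exact hi _ (Finset.mem_univ _)
  · have e : (WithLp.toLp 2 (i.insertNth (if decide (0 < x i) = true then (1 : ℝ) else -1)
        (fun j => x (i.succAbove j) / |x i|) : Fin (m + 1) → ℝ) : EuclideanSpace ℝ (Fin (m + 1))) =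
        |x i|⁻¹ • x := by
      ext j
      refine i.succAboveCases ?_ ?_ j
      · simp only [Fin.insertNth_apply_same, PiLp.smul_apply, smul_eq_mul]
        rcases lt_or_gt_of_ne hxi with h | h
        · rw [abs_of_neg h]
          have : ¬ 0 < x i := not_lt.2 h.le
          simp only [this, decide_false, Bool.false_eq_true, if_false]
          field_simp
        · rw [abs_of_pos h]
          simp only [h, decide_true, if_true]
          field_simp
      · intro k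
        simp only [Fin.insertNth_apply_succAbove, PiLp.smul_apply, smul_eq_mul]
        field_simp
    unfold B08_face
    rw [e, norm_smul, hx, smul_smul]
    rw [Real.norm_eq_abs, abs_of_pos (inv_pos.2 hpos), mul_one, inv_inv, mul_inv_cancel₀ hpos.ne',
      one_smul]

theorem B08_haus_cube (m : ℕ) (s : Set (Fin m → ℝ)) :
    (Measure.hausdorffMeasure (m : ℝ) : Measure (Fin m → ℝ)) s = volume s := by
  have := hausdorffMeasure_pi_real (ι := Fin m)
  rw [Fintype.card_fin] at this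
  rw [this]

theorem B08_sphere_finite (m : ℕ) :
    (Measure.hausdorffMeasure (m : ℝ) : Measure (EuclideanSpace ℝ (Fin (m + 1))))
      (Metric.sphere 0 1) ≠ ⊤ := by
  have hsub : Metric.sphere (0 : EuclideanSpace ℝ (Fin (m + 1))) 1 ⊆
      ⋃ p : Fin (m + 1) × Bool, B08_face m p.1 (if p.2 then 1 else -1) '' Metric.closedBall 0 1 := by
    intro x hx
    obtain ⟨i, b, h⟩ := B08_face_cover m x (by simpa using hx)
    exact Set.mem_iUnion.2 ⟨(i, b), h⟩
  refine ne_top_of_le_ne_top ?_ ((measure_mono hsub).trans (measure_iUnion_fintype_le _ _))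
  refine (ENNReal.sum_lt_top.2 ?_).ne
  rintro ⟨i, b⟩ -
  obtain ⟨K, hK⟩ := B08_face_lip m i (if b then 1 else -1) (by split_ifs <;> simp)
  refine (hK.hausdorffMeasure_image_le (Nat.cast_nonneg m) _).trans_lt ?_
  rw [B08_haus_cube]
  apply ENNReal.mul_lt_top
  · exact ENNReal.rpow_lt_top_of_nonneg (Nat.cast_nonneg m) ENNReal.coe_ne_top
  · exact measure_closedBall_lt_top

end Pool.Agent.Helper82.OS
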