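import Mathlib
import Pool.Agent.Helper82.OS.Defs
import Pool.Agent.Helper82.OS.HausFin
import Pool.Agent.H248.NL
import Pool.Agent.Helper843.SphB
set_option autoImplicit false
open Matrix MeasureTheory Set Metric Filter Topology
open scoped ENNReal ContDiff

namespace Pool.Agent.Helper82.OS

theorem nl_local {d : ℕ} {O : Set (E d)} (hO : IsOpen O) {f φ : E d → E d}
    (hf : ContDiffOn ℝ ∞ f O) (hφ : ContDiff ℝ ∞ φ)
    (hc : HasCompactSupport φ) (hs : tsupport φ ⊆ O) :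
    Integrable (fun x => ((mat (fderiv ℝ f x)).adjugate * mat (fderiv ℝ φ x)).trace) ∧
    ∫ x, ((mat (fderiv ℝ f x)).adjugate * mat (fderiv ℝ φ x)).trace = 0 :=
  H248.NL.nl_local hO hf hφ hc hs

theorem cone_ratio {F : Type*} [NormedAddCommGroup F] [InnerProductSpace ℝ F] [CompleteSpace F]
  [FiniteDimensional ℝ F] [MeasurableSpace F] [BorelSpace F] {n : ℕ} (hn : Module.finrank ℝ F = n + 1) (d : ℝ) (Sp : Set F)
    (hSp : Sp = {x : F | ‖x‖ = 1}) (hfin : Measure.hausdorffMeasure d Sp < ⊤)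
    (W : Set F) (hW : MeasurableSet W) (hcone : ∀ (r : ℝ) (z : F), 0 < r → (r • z ∈ W ↔ z ∈ W))
    (x0 : F) (hx0 : ‖x0‖ = 1) :
    Measure.hausdorffMeasure d (W ∩ Sp) * volume (Metric.ball (0 : F) 1)
      = volume (W ∩ Metric.ball (0 : F) 1) * Measure.hausdorffMeasure d Sp :=
  Pool.Agent.Helper843.SphB.cone_ratio hn d Sp hSp hfin W hW hcone x0 hx0

end Pool.Agent.Helper82.OS
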