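import Mathlib
import Pool.Agent.Helper82.OS.Defs
set_option autoImplicit false
open Matrix MeasureTheory Set Metric Filter Topology
open scoped ENNReal ContDiff

namespace Pool.Agent.Helper82.OS
theorem sm_inner_z_sm_propsx {D : ℕ} (z y : E D) (hz : z ≠ 0) : inner ℝ z (sm z y) = inner ℝ z y := by
  have h0 : ‖z‖ ^ 2 ≠ 0 := pow_ne_zero 2 (norm_ne_zero_iff.mpr hz)
  unfold sm
  rw [inner_sub_right, real_inner_smul_right, real_inner_self_eq_norm_sq]
  field_simp
  ring

theorem sm_sm'_sm_propsx {D : ℕ} (z y : E D) (hz : z ≠ 0) : sm z (sm z y) = y := by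
  have h1 : sm z (sm z y) = (2 * inner ℝ z (sm z y) / ‖z‖ ^ 2) • z - sm z y := rfl
  rw [h1, sm_inner_z_sm_propsx z y hz]
  unfold sm
  abel

theorem sm_swap'_sm_propsx {D : ℕ} (z y y' : E D) : inner ℝ (sm z y) y' = inner ℝ y (sm z y') := by
  unfold sm
  rw [inner_sub_left, inner_sub_right, real_inner_smul_left, real_inner_smul_right,
    real_inner_comm z y]
  ring

theorem sm_inner'_sm_propsx {D : ℕ} (z y y' : E D) (hz : z ≠ 0) :
    inner ℝ (sm z y) (sm z y') = inner ℝ y y' := by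
  rw [sm_swap'_sm_propsx, sm_sm'_sm_propsx z y' hz]

theorem sm_norm {D : ℕ} (z y : E D) (hz : z ≠ 0) : ‖sm z y‖ = ‖y‖ := by
  have h := sm_inner'_sm_propsx z y y hz
  rw [real_inner_self_eq_norm_sq, real_inner_self_eq_norm_sq] at h
  exact (pow_left_inj₀ (norm_nonneg _) (norm_nonneg _) two_ne_zero).mp h
theorem sm_inner {D : ℕ} (z y y' : E D) (hz : z ≠ 0) : inner ℝ (sm z y) (sm z y') = inner ℝ y y' :=
  sm_inner'_sm_propsx z y y' hz
theorem sm_sm {D : ℕ} (z y : E D) (hz : z ≠ 0) : sm z (sm z y) = y := sm_sm'_sm_propsx z y hz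
theorem sm_swap {D : ℕ} (z y y' : E D) : inner ℝ (sm z y) y' = inner ℝ y (sm z y') :=
  sm_swap'_sm_propsx z y y'
theorem sm_contDiff {D : ℕ} : ContDiffOn ℝ ∞ (fun p : E D × E D => sm p.1 p.2) {p | p.1 ≠ 0} := by
  unfold sm
  have h1 : ContDiff ℝ ∞ (fun p : E D × E D => p.1) := contDiff_fst
  have h2 : ContDiff ℝ ∞ (fun p : E D × E D => p.2) := contDiff_snd
  have h3 : ContDiff ℝ ∞ (fun p : E D × E D => 2 * inner ℝ p.1 p.2) :=
    contDiff_const.mul (h1.inner ℝ h2)
  have h4 : ContDiff ℝ ∞ (fun p : E D × E D => ‖p.1‖ ^ 2) := h1.norm_sq ℝ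
  have h5 : ContDiffOn ℝ ∞ (fun p : E D × E D => 2 * inner ℝ p.1 p.2 / ‖p.1‖ ^ 2)
      {p | p.1 ≠ 0} := by
    apply h3.contDiffOn.div h4.contDiffOn
    intro p hp
    exact pow_ne_zero 2 (norm_ne_zero_iff.mpr hp)
  exact (h5.smul h1.contDiffOn).sub h2.contDiffOn
/-- `s_z` as a linear isometry equivalence -/
theorem sm_isom {D : ℕ} (z : E D) (hz : z ≠ 0) : ∃ R : E D ≃ₗᵢ[ℝ] E D, ∀ y, R y = sm z y := by
  let L : E D →ₗ[ℝ] E D :=
    { toFun := sm z
      map_add' := by
        intro a b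
        unfold sm
        rw [inner_add_right, mul_add, add_div, add_smul]
        abel
      map_smul' := by
        intro c a
        unfold sm
        rw [real_inner_smul_right, RingHom.id_apply, smul_sub, smul_smul]
        congr 2
        ring }
  have hL : Function.Involutive L := fun y => sm_sm'_sm_propsx z y hz
  refine ⟨⟨LinearEquiv.ofInvolutive L hL, fun y => ?_⟩, fun y => rfl⟩
  exact sm_norm z y hz



end Pool.Agent.Helper82.OS
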