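import Mathlib
import Pool.Agent.Helper82.OS.Defs
import Pool.Agent.Helper82.OS.sm_props
set_option autoImplicit false
open Matrix MeasureTheory Set Metric Filter Topology
open scoped ENNReal ContDiff

namespace Pool.Agent.Helper82.OS
theorem UU_norm {D : ℕ} {V : E D → E D} (hV : UT V) {c : E D} (hc : ‖c‖ = 1) {z : E D} (hz : z ≠ 0) :
    ‖UU V c z‖ = 1 := by
  unfold UU
  rw [norm_neg, sm_norm z _ hz]
  exact hV.unit _ (by rw [sm_norm z _ hz]; exact hc)
theorem UU_inner {D : ℕ} {V : E D → E D} (hV : UT V) {c : E D} (hc : ‖c‖ = 1) {z : E D} (hz : z ≠ 0) :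
    inner ℝ c (UU V c z) = 0 := by
  unfold UU
  rw [inner_neg_right]
  have h1 : inner ℝ c (sm z (V (sm z c))) = inner ℝ (sm z (sm z c)) (sm z (V (sm z c))) := by
    rw [sm_sm z c hz]
  rw [h1, sm_inner z _ _ hz, hV.tan _ (by rw [sm_norm z _ hz]; exact hc), neg_zero]
theorem UU_contDiff {D : ℕ} {V : E D → E D} (hV : UT V) (c : E D) :
    ContDiffOn ℝ ∞ (UU V c) {z | z ≠ 0} := by
  have h1 : ContDiffOn ℝ ∞ (fun z : E D => sm z c) {z | z ≠ 0} := by
    have := (sm_contDiff (D := D)).comp (s := {z : E D | z ≠ 0}) (f := fun z : E D => (z, c))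
      (contDiff_id.prodMk contDiff_const).contDiffOn (fun z hz => hz)
    exact this
  have h2 : ContDiffOn ℝ ∞ (fun z : E D => V (sm z c)) {z | z ≠ 0} := hV.sm.comp_contDiffOn h1
  have h3 : ContDiffOn ℝ ∞ (fun z : E D => sm z (V (sm z c))) {z | z ≠ 0} := by
    have := (sm_contDiff (D := D)).comp (s := {z : E D | z ≠ 0})
      (f := fun z : E D => (z, V (sm z c)))
      (contDiffOn_id.prodMk h2) (fun z hz => hz)
    exact this
  exact h3.neg
theorem MM_contDiff {D : ℕ} {V : E D → E D} (hV : UT V) (c : E D) (i j : Fin D) :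
    ContDiffOn ℝ ∞ (fun z => MM V c z i j) {z | z ≠ 0} := by
  have hopen : IsOpen {z : E D | z ≠ 0} := isOpen_ne
  have h1 : ContDiffOn ℝ ∞ (fderiv ℝ (UU V c)) {z | z ≠ 0} :=
    (UU_contDiff hV c).fderiv_of_isOpen hopen (by simp)
  have h2 : ContDiffOn ℝ ∞ (fun z => fderiv ℝ (UU V c) z (EuclideanSpace.single j 1))
      {z | z ≠ 0} := h1.clm_apply contDiffOn_const
  have h3 := (contDiffOn_euclidean.1 h2) i
  have h4 : ContDiffOn ℝ ∞ (fun z : E D => c.ofLp i * z.ofLp j) {z | z ≠ 0} := by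
    have h5 := (contDiffOn_euclidean.1 (contDiffOn_id (𝕜 := ℝ) (n := ∞) (E := E D)
      (s := {z : E D | z ≠ 0}))) j
    exact contDiffOn_const.mul h5
  have h6 := h3.add h4
  refine h6.congr ?_
  intro z _
  simp [MM, mat, Matrix.add_apply, vecMulVec_apply]
theorem xi_contDiff {D : ℕ} {V : E D → E D} (hV : UT V) (c : E D) :
    ContDiffOn ℝ ∞ (xi V c) {z | z ≠ 0} := by
  rw [contDiffOn_euclidean]
  intro i
  have h1 : ∀ j, ContDiffOn ℝ ∞ (fun z => (MM V c z).adjugate i j) {z | z ≠ 0} := by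
    intro j
    have : ∀ z, (MM V c z).adjugate i j = ∑ σ : Equiv.Perm (Fin D), (Equiv.Perm.sign σ : ℝ) *
        ∏ k, ((MM V c z).updateRow j (Pi.single i 1)) (σ k) k := by
      intro z
      rw [adjugate_apply, det_apply']
    simp only [this]
    refine ContDiffOn.sum ?_
    intro σ _
    refine contDiffOn_const.mul ?_
    refine contDiffOn_prod ?_
    intro k _
    by_cases hk : σ k = j
    · simp only [hk, updateRow_self]
      exact contDiffOn_const
    · simp only [updateRow_ne hk]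
      exact MM_contDiff hV c _ _
  have h2 := contDiffOn_euclidean.1 (UU_contDiff hV c)
  have h3 : ContDiffOn ℝ ∞ (fun z => ∑ j, (MM V c z).adjugate i j * (UU V c z).ofLp j)
      {z | z ≠ 0} := ContDiffOn.sum (fun j _ => (h1 j).mul (h2 j))
  refine h3.congr ?_
  intro z _
  simp [xi, mulVec, dotProduct]



end Pool.Agent.Helper82.OS
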