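import Mathlib
import Pool.Agent.Helper82.OS.Defs
import Pool.Agent.Helper82.OS.UU_basic
set_option autoImplicit false
open Matrix MeasureTheory Set Metric Filter Topology
open scoped ENNReal ContDiff

namespace Pool.Agent.Helper82.OS
theorem UU_kc_diff_UU_kernelx {D : ℕ} {V : E D → E D} (hV : UT V) (c : E D) {z : E D} (hz : z ≠ 0) :
    HasFDerivAt (UU V c) (fderiv ℝ (UU V c) z) z := by
  have h1 : DifferentiableAt ℝ (UU V c) z :=
    ((UU_contDiff hV c).differentiableOn (by simp) z hz).differentiableAt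
      (isOpen_ne.mem_nhds hz)
  exact h1.hasFDerivAt

theorem UU_kc_vecMul_UU_kernelx {D : ℕ} (w : E D) (L : E D →L[ℝ] E D)
    (h : ∀ y, inner ℝ w (L y) = 0) : w.ofLp ᵥ* mat L = 0 := by
  funext j
  have h1 := h (EuclideanSpace.single j 1)
  rw [PiLp.inner_apply] at h1
  show ∑ i, w i * mat L i j = 0
  rw [← h1]
  refine Finset.sum_congr rfl fun i _ => ?_
  show w i * (L (EuclideanSpace.single j 1) i) = inner ℝ (w i) (L (EuclideanSpace.single j 1) i)
  rw [real_inner_eq_re_inner]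
  simp [mul_comm]

theorem UU_kz_hom_UU_kernelx {D : ℕ} (V : E D → E D) (c z : E D) {t : ℝ} (ht : t ≠ 0) :
    UU V c (t • z) = UU V c z := by
  have h : ∀ y, sm (t • z) y = sm z y := by
    intro y
    unfold sm
    congr 1
    rw [smul_smul, inner_smul_left, norm_smul, mul_pow, Real.norm_eq_abs, sq_abs]
    congr 1
    simp only [conj_trivial]
    by_cases hz : ‖z‖ = 0
    · rw [hz]
      simp
    · field_simp
  unfold UU
  rw [h, h]



theorem mat_mulVec {D : ℕ} (L : E D →L[ℝ] E D) (h : E D) : mat L *ᵥ h.ofLp = (L h).ofLp := by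
  have hh : h = ∑ j, h.ofLp j • (EuclideanSpace.single j (1 : ℝ) : E D) := by
    ext i
    simp [Pi.single_apply]
  funext i
  conv_rhs => rw [hh, map_sum]
  simp only [map_smul, mulVec, dotProduct, mat, Matrix.of_apply]
  rw [WithLp.ofLp_sum, Finset.sum_apply]
  refine Finset.sum_congr rfl fun j _ => ?_
  simp [mul_comm]
theorem UU_kz {D : ℕ} {V : E D → E D} (hV : UT V) {c : E D} (hc : ‖c‖ = 1) {z : E D} (hz : z ≠ 0) :
    mat (fderiv ℝ (UU V c) z) *ᵥ z.ofLp = 0 := by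
  rw [mat_mulVec]
  have hf := UU_kc_diff_UU_kernelx hV c hz
  have hγ : HasDerivAt (fun t : ℝ => (1 + t) • z) z 0 := by
    have h1 : HasDerivAt (fun t : ℝ => 1 + t) 1 0 := (hasDerivAt_id (0 : ℝ)).const_add 1
    have h2 := h1.smul_const z
    rwa [one_smul] at h2
  have hf' : HasFDerivAt (UU V c) (fderiv ℝ (UU V c) z) ((fun t : ℝ => (1 + t) • z) 0) := by
    simpa using hf
  have hcomp := hf'.comp_hasDerivAt (0 : ℝ) hγ
  have hev : (UU V c ∘ fun t : ℝ => (1 + t) • z) =ᶠ[𝓝 0] fun _ => UU V c z := by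
    have h3 : ∀ᶠ t : ℝ in 𝓝 0, 1 + t ≠ 0 := by
      apply ContinuousAt.eventually_ne (by fun_prop)
      norm_num
    filter_upwards [h3] with t ht
    exact UU_kz_hom_UU_kernelx V c z ht
  have h4 := hcomp.unique ((hasDerivAt_const (0 : ℝ) (UU V c z)).congr_of_eventuallyEq hev)
  rw [h4]
  rfl
theorem UU_kc {D : ℕ} {V : E D → E D} (hV : UT V) {c : E D} (hc : ‖c‖ = 1) {z : E D} (hz : z ≠ 0) :
    c.ofLp ᵥ* mat (fderiv ℝ (UU V c) z) = 0 := by
  apply UU_kc_vecMul_UU_kernelx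
  intro y
  have hf := UU_kc_diff_UU_kernelx hV c hz
  have h1 : HasFDerivAt (fun z => innerSL ℝ c (UU V c z))
      ((innerSL ℝ c).comp (fderiv ℝ (UU V c) z)) z := (innerSL ℝ c).hasFDerivAt.comp z hf
  have hev : (fun z => innerSL ℝ c (UU V c z)) =ᶠ[𝓝 z] fun _ => (0 : ℝ) := by
    filter_upwards [isOpen_ne.mem_nhds hz] with w hw
    exact UU_inner hV hc hw
  have h2 := h1.unique ((hasFDerivAt_const (0 : ℝ) z).congr_of_eventuallyEq hev)
  have h3 := congrArg (fun L : E D →L[ℝ] ℝ => L y) h2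
  exact h3
theorem UU_kU {D : ℕ} {V : E D → E D} (hV : UT V) {c : E D} (hc : ‖c‖ = 1) {z : E D} (hz : z ≠ 0) :
    (UU V c z).ofLp ᵥ* mat (fderiv ℝ (UU V c) z) = 0 := by
  apply UU_kc_vecMul_UU_kernelx
  intro y
  have hf := UU_kc_diff_UU_kernelx hV c hz
  have h1 := hf.norm_sq
  have hev : (fun w => ‖UU V c w‖ ^ 2) =ᶠ[𝓝 z] fun _ => (1 : ℝ) := by
    filter_upwards [isOpen_ne.mem_nhds hz] with w hw
    rw [UU_norm hV hc hw, one_pow]
  have h2 := h1.unique ((hasFDerivAt_const (1 : ℝ) z).congr_of_eventuallyEq hev)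
  have h3 := congrArg (fun L : E D →L[ℝ] ℝ => L y) h2
  simp only [ContinuousLinearMap.smul_apply, ContinuousLinearMap.comp_apply,
    ContinuousLinearMap.zero_apply, innerSL_apply_apply] at h3
  have h4 : (2 : ℝ) * inner ℝ (UU V c z) (fderiv ℝ (UU V c) z y) = 0 := by
    simpa using h3
  linarith



end Pool.Agent.Helper82.OS
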