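import Mathlib
import Pool.Agent.Helper82.OS.Defs
set_option autoImplicit false
open Matrix MeasureTheory Set Metric Filter Topology
open scoped ENNReal ContDiff

namespace Pool.Agent.Helper82.OS





theorem adj_kernel {n : Type} [Fintype n] [DecidableEq n] (M : Matrix n n ℝ) (U y : n → ℝ)
    (h : U ᵥ* M = 0) (hU : U ⬝ᵥ U = 1) (hy : U ⬝ᵥ y = 0) : M.adjugate *ᵥ y = 0 := by
  rw [← Matrix.cramer_eq_adjugate_mulVec]
  funext i
  rw [Matrix.cramer_apply, Pi.zero_apply]
  apply Matrix.exists_vecMul_eq_zero_iff.1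
  refine ⟨U, ?_, ?_⟩
  · rintro rfl
    simp at hU
  · funext j
    by_cases hj : j = i
    · subst hj
      simp only [Matrix.vecMul, dotProduct, Matrix.updateCol_self, Pi.zero_apply] at hy ⊢
      exact hy
    · have hh := congrFun h j
      simp only [Matrix.vecMul, dotProduct, Matrix.updateCol_ne hj, Pi.zero_apply] at hh ⊢
      exact hh



end Pool.Agent.Helper82.OS
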