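import Mathlib
import Pool.Agent.Helper82.OS.Defs
import Pool.Agent.Helper82.OS.adj_kernel
set_option autoImplicit false
open Matrix MeasureTheory Set Metric Filter Topology
open scoped ENNReal ContDiff

namespace Pool.Agent.Helper82.OS
theorem alg_xi {n : Type} [Fintype n] [DecidableEq n] (A : Matrix n n ℝ) (c U z : n → ℝ)
    (hz : A *ᵥ z = 0) (hc : c ᵥ* A = 0) (hU : U ᵥ* A = 0)
    (cc : c ⬝ᵥ c = 1) (uu : U ⬝ᵥ U = 1) (cu : c ⬝ᵥ U = 0) :
    (A + vecMulVec c z).det = 0 ∧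
    z ⬝ᵥ ((A + vecMulVec c z).adjugate *ᵥ U) = 0 ∧
    A *ᵥ ((A + vecMulVec c z).adjugate *ᵥ U) = 0 ∧
    ((A + vecMulVec c z).adjugate * A).trace = 0 := by
  set M := A + vecMulVec c z with hM
  have hUM : U ᵥ* M = 0 := by
    rw [hM, Matrix.vecMul_add, hU, zero_add, Matrix.vecMul_vecMulVec, dotProduct_comm, cu,
      zero_smul]
  have hU0 : U ≠ 0 := by
    rintro rfl
    rw [zero_dotProduct] at uu
    exact zero_ne_one uu
  have hdet : M.det = 0 := Matrix.exists_vecMul_eq_zero_iff.1 ⟨U, hU0, hUM⟩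
  have hMw : M *ᵥ (M.adjugate *ᵥ U) = 0 := by
    rw [Matrix.mulVec_mulVec, Matrix.mul_adjugate, hdet, zero_smul, Matrix.zero_mulVec]
  have hMw2 : A *ᵥ (M.adjugate *ᵥ U) + (z ⬝ᵥ (M.adjugate *ᵥ U)) • c = 0 := by
    have hw : ∀ w : n → ℝ, M *ᵥ w = A *ᵥ w + (z ⬝ᵥ w) • c := by
      intro w
      rw [hM, Matrix.add_mulVec, Matrix.vecMulVec_mulVec]
      congr 1
      funext i
      simp [mul_comm]
    rw [← hw]
    exact hMw
  have h1 : c ⬝ᵥ (A *ᵥ (M.adjugate *ᵥ U)) = 0 := by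
    rw [Matrix.dotProduct_mulVec, hc, zero_dotProduct]
  have h2 : z ⬝ᵥ (M.adjugate *ᵥ U) = 0 := by
    have h3 := congrArg (fun v => c ⬝ᵥ v) hMw2
    simp only [dotProduct_add, h1, dotProduct_smul, cc, dotProduct_zero, smul_eq_mul, mul_one,
      zero_add] at h3
    exact h3
  refine ⟨hdet, h2, ?_, ?_⟩
  · rw [h2, zero_smul, add_zero] at hMw2
    exact hMw2
  · have h4 : M.adjugate *ᵥ c = 0 := adj_kernel M U c hUM uu (by rw [dotProduct_comm]; exact cu)
    have h5 : M.adjugate * A = 0 := by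
      have e : A = M - vecMulVec c z := by rw [hM, add_sub_cancel_right]
      have h6 : M.adjugate * vecMulVec c z = 0 := by
        rw [Matrix.mul_vecMulVec, h4, Matrix.zero_vecMulVec]
      calc M.adjugate * A = M.adjugate * (M - vecMulVec c z) := by rw [← e]
        _ = 0 := by rw [mul_sub, Matrix.adjugate_mul, hdet, zero_smul, h6, sub_zero]
    rw [h5, Matrix.trace_zero]




end Pool.Agent.Helper82.OS
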