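import Mathlib
import Pool.Agent.Helper82.OS.Defs
import Pool.Agent.Helper82.OS.UU_basic
import Pool.Agent.Helper82.OS.UU_kernel
import Pool.Agent.Helper82.OS.alg_xi
set_option autoImplicit false
open Matrix MeasureTheory Set Metric Filter Topology
open scoped ENNReal ContDiff

namespace Pool.Agent.Helper82.OS
theorem h396_inner_xi_propsx {D : ℕ} (x y : E D) : inner ℝ x y = x.ofLp ⬝ᵥ y.ofLp := by
  rw [PiLp.inner_apply]
  unfold dotProduct
  apply Finset.sum_congr rfl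
  intro i _
  simp [mul_comm]

theorem h396_all_xi_propsx {D : ℕ} {V : E D → E D} (hV : UT V) {c : E D} (hc : ‖c‖ = 1) {z : E D}
    (hz : z ≠ 0) :
    (MM V c z).det = 0 ∧
    z.ofLp ⬝ᵥ ((MM V c z).adjugate *ᵥ (UU V c z).ofLp) = 0 ∧
    mat (fderiv ℝ (UU V c) z) *ᵥ ((MM V c z).adjugate *ᵥ (UU V c z).ofLp) = 0 ∧
    ((MM V c z).adjugate * mat (fderiv ℝ (UU V c) z)).trace = 0 := by
  apply alg_xi _ c.ofLp (UU V c z).ofLp z.ofLp (UU_kz hV hc hz) (UU_kc hV hc hz) (UU_kU hV hc hz)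
  · rw [← h396_inner_xi_propsx, real_inner_self_eq_norm_sq, hc]
    norm_num
  · rw [← h396_inner_xi_propsx, real_inner_self_eq_norm_sq, UU_norm hV hc hz]
    norm_num
  · rw [← h396_inner_xi_propsx]
    exact UU_inner hV hc hz

theorem xi_z {D : ℕ} {V : E D → E D} (hV : UT V) {c : E D} (hc : ‖c‖ = 1) {z : E D} (hz : z ≠ 0) :
    inner ℝ z (xi V c z) = 0 := by
  rw [h396_inner_xi_propsx]
  exact (h396_all_xi_propsx hV hc hz).2.1
theorem xi_A {D : ℕ} {V : E D → E D} (hV : UT V) {c : E D} (hc : ‖c‖ = 1) {z : E D} (hz : z ≠ 0) :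
    fderiv ℝ (UU V c) z (xi V c z) = 0 := by
  have h1 := mat_mulVec (fderiv ℝ (UU V c) z) (xi V c z)
  have h2 := (h396_all_xi_propsx hV hc hz).2.2.1
  have h3 : (fderiv ℝ (UU V c) z (xi V c z)).ofLp = 0 := by
    rw [← h1]
    exact h2
  exact (WithLp.ofLp_eq_zero 2).1 h3

theorem MM_tr {D : ℕ} {V : E D → E D} (hV : UT V) {c : E D} (hc : ‖c‖ = 1) {z : E D} (hz : z ≠ 0) :
    ((MM V c z).adjugate * mat (fderiv ℝ (UU V c) z)).trace = 0 :=
  (h396_all_xi_propsx hV hc hz).2.2.2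



end Pool.Agent.Helper82.OS
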