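import Mathlib
import Pool.Agent.Helper82.OS.Defs
import Pool.Agent.Helper82.OS.Ext
import Pool.Agent.Helper82.OS.UU_basic
import Pool.Agent.Helper82.OS.xi_props
set_option autoImplicit false
open Matrix MeasureTheory Set Metric Filter Topology
open scoped ENNReal ContDiff

namespace Pool.Agent.Helper82.OS
theorem C0 {D : ℕ} {V : E D → E D} (hV : UT V) {c : E D} (hc : ‖c‖ = 1) (η : E D → ℝ)
    (hη : ContDiff ℝ ∞ η) (hcs : HasCompactSupport η) (hs : tsupport η ⊆ {z | z ≠ 0}) :
    Integrable (fun z => fderiv ℝ η z (xi V c z)) ∧ ∫ z, fderiv ℝ η z (xi V c z) = 0 := by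
  set f : E D → E D := fun z => UU V c z + (‖z‖ ^ 2 / 2) • c with hfdef
  set φ : E D → E D := fun z => η z • UU V c z with hφdef
  have hO : IsOpen {z : E D | z ≠ 0} := isOpen_ne
  have hf : ContDiffOn ℝ ∞ f {z | z ≠ 0} :=
    (UU_contDiff hV c).add (ContDiffOn.smul (((contDiff_norm_sq ℝ).div_const 2).contDiffOn) contDiffOn_const)
  have hts : tsupport φ ⊆ tsupport η := tsupport_smul_subset_left η _
  have hφ : ContDiff ℝ ∞ φ := by
    rw [contDiff_iff_contDiffAt]
    intro x
    by_cases hx : x ∈ tsupport φ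
    · have hx0 : x ≠ 0 := hs (hts hx)
      exact hη.contDiffAt.smul ((UU_contDiff hV c).contDiffAt (hO.mem_nhds hx0))
    · have h0 : φ =ᶠ[𝓝 x] (fun _ => (0 : E D)) := notMem_tsupport_iff_eventuallyEq.1 hx
      exact contDiffAt_const.congr_of_eventuallyEq h0
  have hcφ : HasCompactSupport φ := hcs.smul_right
  obtain ⟨h1, h2⟩ := nl_local hO hf hφ hcφ (hts.trans hs)
  have key : ∀ z, ((mat (fderiv ℝ f z)).adjugate * mat (fderiv ℝ φ z)).trace = fderiv ℝ η z (xi V c z) := by
    intro z
    by_cases hz : z = 0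
    · have hzn : z ∉ tsupport η := fun h => hs h hz
      have e1 : fderiv ℝ η z = 0 := fderiv_of_notMem_tsupport ℝ hzn
      have e2 : fderiv ℝ φ z = 0 := fderiv_of_notMem_tsupport ℝ (fun h => hzn (hts h))
      have e3 : mat (0 : E D →L[ℝ] E D) = 0 := by
        ext i j; simp [mat]
      rw [e1, e2, e3]; simp
    · have dU : DifferentiableAt ℝ (UU V c) z :=
        ((UU_contDiff hV c).contDiffAt (hO.mem_nhds hz)).differentiableAt (by simp)
      have dη : DifferentiableAt ℝ η z := hη.contDiffAt.differentiableAt (by simp)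
      have hfd : mat (fderiv ℝ f z) = MM V c z := by
        have h3 : HasFDerivAt (fun z : E D => ‖z‖ ^ 2 / 2) (innerSL ℝ z) z := by
          have := ((hasStrictFDerivAt_norm_sq z).hasFDerivAt).mul_const (1/2 : ℝ)
          have h33 : (fun z : E D => ‖z‖ ^ 2 / 2) = fun z => ‖z‖ ^ 2 * (1/2 : ℝ) := by
            funext z; ring
          rw [h33]
          refine this.congr_fderiv ?_
          ext w
          simp
        have h4 : HasFDerivAt f (fderiv ℝ (UU V c) z + (innerSL ℝ z).smulRight c) z :=
          dU.hasFDerivAt.add (h3.smul_const c)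
        rw [h4.fderiv]
        ext i j
        simp [mat, MM, vecMulVec_apply, EuclideanSpace.inner_single_right, mul_comm]
      have hφd : mat (fderiv ℝ φ z) = η z • mat (fderiv ℝ (UU V c) z) +
          vecMulVec (UU V c z).ofLp (fun j => fderiv ℝ η z (EuclideanSpace.single j 1)) := by
        have h4 : HasFDerivAt φ (η z • fderiv ℝ (UU V c) z + (fderiv ℝ η z).smulRight (UU V c z)) z :=
          dη.hasFDerivAt.smul dU.hasFDerivAt
        rw [h4.fderiv]
        ext i j
        simp [mat, vecMulVec_apply, mul_comm]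
      rw [hfd, hφd, Matrix.mul_add, Matrix.trace_add, Matrix.mul_smul, Matrix.trace_smul, MM_tr hV hc hz,
        smul_zero, zero_add, Matrix.mul_vecMulVec, Matrix.trace_vecMulVec]
      have h5 : xi V c z = ∑ j, ((MM V c z).adjugate *ᵥ (UU V c z).ofLp) j • EuclideanSpace.single j (1:ℝ) := by
        ext i
        simp [xi, Finset.sum_apply, Pi.single_apply]
      rw [h5, map_sum]
      simp [dotProduct]
  simp_rw [key] at h1 h2
  exact ⟨h1, h2⟩




end Pool.Agent.Helper82.OS
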