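import Mathlib
import Pool.Agent.Helper82.OS.Defs
import Pool.Agent.Helper82.OS.UU_basic
import Pool.Agent.Helper82.OS.xi_props
set_option autoImplicit false
open Matrix MeasureTheory Set Metric Filter Topology
open scoped ENNReal ContDiff

namespace Pool.Agent.Helper82.OS
theorem uu_aux_R_C1x {D : ℕ} (a : E D) {ε : ℝ} (hε : 0 < ε) :
    0 < Real.sqrt (‖a‖ ^ 2 + ε ^ 2) ∧ ‖a‖ < Real.sqrt (‖a‖ ^ 2 + ε ^ 2) := by
  refine ⟨Real.sqrt_pos.2 (by positivity), ?_⟩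
  rw [Real.lt_sqrt (norm_nonneg _)]
  have : 0 < ε ^ 2 := by positivity
  linarith

theorem uu_aux_lt_C1x {D : ℕ} (z a : E D) (hz : z ≠ 0) {ε : ℝ} (hε : 0 < ε) :
    |inner ℝ z a / (‖z‖ * Real.sqrt (‖a‖ ^ 2 + ε ^ 2))| < 1 := by
  obtain ⟨h1, h2⟩ := uu_aux_R_C1x a hε
  have hz' : 0 < ‖z‖ := norm_pos_iff.2 hz
  have hp : 0 < ‖z‖ * Real.sqrt (‖a‖ ^ 2 + ε ^ 2) := mul_pos hz' h1
  rw [abs_div, abs_of_pos hp, div_lt_one hp]
  exact (abs_real_inner_le_norm z a).trans_lt (mul_lt_mul_of_pos_left h2 hz')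

theorem uu_smooth {D : ℕ} {V : E D → E D} (hV : UT V) (c : E D) {ε : ℝ} (hε : 0 < ε) :
    ContDiffOn ℝ ∞ (uu V c ε) {z | z ≠ 0} := by
  intro z hz
  have hz : z ≠ 0 := hz
  apply ContDiffAt.contDiffWithinAt
  have hU : ContDiffAt ℝ ∞ (UU V c) z :=
    (UU_contDiff hV c).contDiffAt (isOpen_ne.mem_nhds hz)
  have ha : ContDiffAt ℝ ∞ (fun z => V (-c) - UU V c z) z := contDiffAt_const.sub hU
  have hlt := abs_lt.1 (uu_aux_lt_C1x z (V (-c) - UU V c z) hz hε)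
  have hR := (uu_aux_R_C1x (V (-c) - UU V c z) hε).1
  have hs : ContDiffAt ℝ ∞ (fun z => inner ℝ z (V (-c) - UU V c z) /
      (‖z‖ * Real.sqrt (‖V (-c) - UU V c z‖ ^ 2 + ε ^ 2))) z := by
    refine ContDiffAt.div (contDiffAt_id.inner ℝ ha) (ContDiffAt.mul (contDiffAt_norm ℝ hz) ?_) ?_
    · exact ((ha.norm_sq ℝ).add contDiffAt_const).sqrt (by positivity)
    · exact (mul_pos (norm_pos_iff.2 hz) hR).ne'
  exact (Real.contDiffAt_arcsin (by linarith [hlt.1]) (by linarith [hlt.2])).comp z hs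

theorem uu_aux_ineq_C1x {D : ℕ} (z a ξ : E D) (hz : z ≠ 0) (hξ : inner ℝ z ξ = 0) {ε : ℝ} (hε : 0 < ε) :
    |1 / Real.sqrt (1 - (inner ℝ z a / (‖z‖ * Real.sqrt (‖a‖ ^ 2 + ε ^ 2))) ^ 2) *
      (inner ℝ ξ a / (‖z‖ * Real.sqrt (‖a‖ ^ 2 + ε ^ 2)))| ≤ ‖ξ‖ / ‖z‖ := by
  have hz' : 0 < ‖z‖ := norm_pos_iff.2 hz
  obtain ⟨hR, -⟩ := uu_aux_R_C1x a hε
  have hlt := uu_aux_lt_C1x z a hz hε
  set R := Real.sqrt (‖a‖ ^ 2 + ε ^ 2) with hRd
  have hR2 : R ^ 2 = ‖a‖ ^ 2 + ε ^ 2 := Real.sq_sqrt (by positivity)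
  set s := inner ℝ z a / (‖z‖ * R) with hs
  have hs1 : s ^ 2 < 1 := by
    have := sq_lt_one_iff_abs_lt_one s
    exact this.2 hlt
  have hq : 0 < Real.sqrt (1 - s ^ 2) := Real.sqrt_pos.2 (by linarith)
  set b : E D := a - (inner ℝ z a / ‖z‖ ^ 2) • z with hb
  have hb2 : ‖b‖ ^ 2 = ‖a‖ ^ 2 - inner ℝ z a ^ 2 / ‖z‖ ^ 2 := by
    rw [hb, norm_sub_sq_real, norm_smul, real_inner_smul_right, real_inner_comm, mul_pow,
      Real.norm_eq_abs, sq_abs]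
    field_simp
    ring
  have hξb : inner ℝ ξ a = inner ℝ ξ b := by
    rw [hb, inner_sub_right, real_inner_smul_right, real_inner_comm z ξ, hξ]
    ring
  have hkey : ‖b‖ ≤ R * Real.sqrt (1 - s ^ 2) := by
    refine le_of_sq_le_sq ?_ (by positivity)
    have hsq : Real.sqrt (1 - s ^ 2) ^ 2 = 1 - s ^ 2 := Real.sq_sqrt (by linarith)
    rw [mul_pow, hsq, hb2]
    have : R ^ 2 * (1 - s ^ 2) = R ^ 2 - inner ℝ z a ^ 2 / ‖z‖ ^ 2 := by
      rw [hs]; field_simp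
    rw [this, hR2]
    have : 0 < ε ^ 2 := by positivity
    linarith
  have hin : |inner ℝ ξ a| ≤ ‖ξ‖ * (R * Real.sqrt (1 - s ^ 2)) := by
    rw [hξb]
    exact (abs_real_inner_le_norm ξ b).trans (mul_le_mul_of_nonneg_left hkey (norm_nonneg _))
  rw [abs_mul, abs_div, abs_div, abs_one, abs_of_pos hq, abs_of_pos (mul_pos hz' hR),
    div_mul_div_comm, one_mul, div_le_div_iff₀ (by positivity) hz']
  calc |inner ℝ ξ a| * ‖z‖ ≤ ‖ξ‖ * (R * Real.sqrt (1 - s ^ 2)) * ‖z‖ :=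
        mul_le_mul_of_nonneg_right hin hz'.le
    _ = ‖ξ‖ * (Real.sqrt (1 - s ^ 2) * (‖z‖ * R)) := by ring

theorem uu_deriv {D : ℕ} {V : E D → E D} (hV : UT V) {c : E D} (hc : ‖c‖ = 1) {ε : ℝ} (hε : 0 < ε)
    {z : E D} (hz : z ≠ 0) : |fderiv ℝ (uu V c ε) z (xi V c z)| ≤ ‖xi V c z‖ / ‖z‖ := by
  set ξ := xi V c z with hξd
  have hξz : inner ℝ z ξ = 0 := xi_z hV hc hz
  have hξA : fderiv ℝ (UU V c) z ξ = 0 := xi_A hV hc hz
  have hdiff : DifferentiableAt ℝ (uu V c ε) z :=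
    ((uu_smooth hV c hε).contDiffAt (isOpen_ne.mem_nhds hz)).differentiableAt (by simp)
  have hUd : DifferentiableAt ℝ (UU V c) z :=
    ((UU_contDiff hV c).contDiffAt (isOpen_ne.mem_nhds hz)).differentiableAt (by simp)
  have l1 : HasDerivAt (fun t : ℝ => UU V c (z + t • ξ)) 0 0 := by
    have : HasDerivAt (fun t : ℝ => UU V c (z + t • ξ)) (fderiv ℝ (UU V c) z ξ) 0 :=
      hUd.hasFDerivAt.hasLineDerivAt ξ
    rwa [hξA] at this
  have l2 : HasDerivAt (fun t : ℝ => V (-c) - UU V c (z + t • ξ)) 0 0 := by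
    have := l1.const_sub (V (-c))
    rwa [neg_zero] at this
  have l3 : HasDerivAt (fun t : ℝ => z + t • ξ) ξ 0 := by
    have := ((hasDerivAt_id (0 : ℝ)).smul_const ξ).const_add z
    simpa using this
  have hz' : 0 < ‖z‖ := norm_pos_iff.2 hz
  have hR := (uu_aux_R_C1x (V (-c) - UU V c z) hε).1
  have hlt := abs_lt.1 (uu_aux_lt_C1x z (V (-c) - UU V c z) hz hε)
  have l4 : HasDerivAt (fun t : ℝ => inner ℝ (z + t • ξ) (V (-c) - UU V c (z + t • ξ)))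
      (inner ℝ ξ (V (-c) - UU V c z)) 0 := by
    have := l3.inner ℝ l2
    simpa using this
  have l5 : HasDerivAt (fun t : ℝ => ‖z + t • ξ‖) 0 0 := by
    have h1 := l3.norm_sq.sqrt (by
      simp only [zero_smul, add_zero]
      positivity)
    simp only [zero_smul, add_zero, hξz, mul_zero, zero_div] at h1
    have h2 : (fun t : ℝ => ‖z + t • ξ‖) = fun t : ℝ => Real.sqrt (‖z + t • ξ‖ ^ 2) := by
      funext t
      rw [Real.sqrt_sq (norm_nonneg _)]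
    rw [h2]
    exact h1
  have l6 : HasDerivAt (fun t : ℝ => Real.sqrt (‖V (-c) - UU V c (z + t • ξ)‖ ^ 2 + ε ^ 2)) 0 0 := by
    have h1 := (l2.norm_sq.add_const (ε ^ 2)).sqrt (by
      simp only [zero_smul, add_zero]
      positivity)
    simpa using h1
  have l7 : HasDerivAt (fun t : ℝ => inner ℝ (z + t • ξ) (V (-c) - UU V c (z + t • ξ)) /
      (‖z + t • ξ‖ * Real.sqrt (‖V (-c) - UU V c (z + t • ξ)‖ ^ 2 + ε ^ 2)))
      (inner ℝ ξ (V (-c) - UU V c z) /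
        (‖z‖ * Real.sqrt (‖V (-c) - UU V c z‖ ^ 2 + ε ^ 2))) 0 := by
    have h1 := l4.div (l5.mul l6) (by
      simp only [zero_smul, add_zero, Pi.mul_apply]
      exact (mul_pos hz' hR).ne')
    refine h1.congr_deriv ?_
    simp only [zero_smul, add_zero, Pi.mul_apply, zero_mul, mul_zero, sub_zero]
    field_simp
  have l8 : HasDerivAt (fun t : ℝ => uu V c ε (z + t • ξ))
      (1 / Real.sqrt (1 - (inner ℝ z (V (-c) - UU V c z) /
        (‖z‖ * Real.sqrt (‖V (-c) - UU V c z‖ ^ 2 + ε ^ 2))) ^ 2) *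
      (inner ℝ ξ (V (-c) - UU V c z) /
        (‖z‖ * Real.sqrt (‖V (-c) - UU V c z‖ ^ 2 + ε ^ 2)))) 0 := by
    have h0 := Real.hasDerivAt_arcsin (x := inner ℝ z (V (-c) - UU V c z) /
        (‖z‖ * Real.sqrt (‖V (-c) - UU V c z‖ ^ 2 + ε ^ 2)))
        (by linarith [hlt.1]) (by linarith [hlt.2])
    refine HasDerivAt.comp_of_eq (0 : ℝ) h0 l7 ?_
    simp
  have l9 : HasLineDerivAt ℝ (uu V c ε) _ z ξ := l8
  rw [← hdiff.lineDeriv_eq_fderiv, l9.lineDeriv]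
  exact uu_aux_ineq_C1x z _ ξ hz hξz hε

theorem uu_abs {D : ℕ} (V : E D → E D) (c : E D) (ε : ℝ) (z : E D) : |uu V c ε z| ≤ Real.pi / 2 := by
  unfold uu
  exact abs_le.2 ⟨Real.neg_pi_div_two_le_arcsin _, Real.arcsin_le_pi_div_two _⟩



end Pool.Agent.Helper82.OS
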