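import Mathlib
import Pool.Agent.Helper82.OS.Defs
import Pool.Agent.Helper82.OS.C0
import Pool.Agent.Helper82.OS.C1
import Pool.Agent.Helper82.OS.UU_basic
import Pool.Agent.Helper82.OS.xi_props
set_option autoImplicit false
open Matrix MeasureTheory Set Metric Filter Topology
open scoped ENNReal ContDiff

namespace Pool.Agent.Helper82.OS
theorem h940_th_C2x {ε : ℝ} (hε : 0 < ε) (s : ℝ) : HasDerivAt (th ε) (th' ε s) s := by
  have hq : 0 < s ^ 2 + ε ^ 2 := by positivity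
  have hs : 0 < Real.sqrt (s ^ 2 + ε ^ 2) := Real.sqrt_pos.2 hq
  have h1 : HasDerivAt (fun s : ℝ => s ^ 2 + ε ^ 2) (2 * s) s := by
    have := ((hasDerivAt_id s).pow 2).add_const (ε ^ 2)
    simpa using this
  have h2 : HasDerivAt (fun s : ℝ => Real.sqrt (s ^ 2 + ε ^ 2)) (2 * s / (2 * Real.sqrt (s ^ 2 + ε ^ 2))) s :=
    h1.sqrt hq.ne'
  have h3 := (hasDerivAt_id s).div h2 hs.ne'
  have h4 : th ε = fun s : ℝ => s / Real.sqrt (s ^ 2 + ε ^ 2) := rfl
  have h5 : HasDerivAt (th ε) ((1 * Real.sqrt (s ^ 2 + ε ^ 2) - s * (2 * s / (2 * Real.sqrt (s ^ 2 + ε ^ 2)))) / Real.sqrt (s ^ 2 + ε ^ 2) ^ 2) s :=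
    h3.congr_of_eventuallyEq (Filter.Eventually.of_forall fun t => rfl)
  convert h5 using 1
  unfold th'
  have h6 : Real.sqrt (s ^ 2 + ε ^ 2) ^ 2 = s ^ 2 + ε ^ 2 := Real.sq_sqrt hq.le
  field_simp
  rw [h6]
  ring

theorem h940_th_smooth_C2x {ε : ℝ} (hε : 0 < ε) : ContDiff ℝ ∞ (th ε) := by
  have h4 : th ε = fun s : ℝ => s / Real.sqrt (s ^ 2 + ε ^ 2) := rfl
  rw [h4]
  have hq : ∀ s : ℝ, s ^ 2 + ε ^ 2 ≠ 0 := fun s => by positivity
  refine contDiff_id.div ?_ (fun s => by have := hq s; positivity)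
  exact ContDiff.sqrt (by fun_prop) hq

theorem h940_th'_cont_C2x {ε : ℝ} (hε : 0 < ε) : Continuous (th' ε) := by
  unfold th'
  refine Continuous.div (by fun_prop) (by fun_prop) ?_
  intro s
  positivity

theorem h940_th_abs_C2x {ε : ℝ} (hε : 0 < ε) (s : ℝ) : |th ε s| ≤ 1 := by
  unfold th
  have hq : 0 < s ^ 2 + ε ^ 2 := by positivity
  have hs : 0 < Real.sqrt (s ^ 2 + ε ^ 2) := Real.sqrt_pos.2 hq
  rw [abs_div, abs_of_pos hs, div_le_one hs]
  refine Real.abs_le_sqrt ?_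
  nlinarith [sq_nonneg ε]

theorem h940_tsupp_C2x {D : ℕ} (ψ : ℝ → ℝ) (hψs : tsupport ψ ⊆ Ioi 0) :
    tsupport (fun z : E D => ψ (‖z‖ ^ 2)) ⊆ {z | z ≠ 0} := by
  intro z hz
  have h1 : z ∈ (fun z : E D => ‖z‖ ^ 2) ⁻¹' tsupport ψ :=
    tsupport_comp_subset_preimage ψ (f := fun z : E D => ‖z‖ ^ 2) (by fun_prop) hz
  have h2 : (0:ℝ) < ‖z‖ ^ 2 := hψs h1
  rintro rfl
  simp at h2

theorem h940_cs_C2x {D : ℕ} (ψ : ℝ → ℝ) (hψc : HasCompactSupport ψ) :
    HasCompactSupport (fun z : E D => ψ (‖z‖ ^ 2)) := by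
  obtain ⟨B, hB⟩ := hψc.isBounded.subset_closedBall 0
  refine HasCompactSupport.of_support_subset_isCompact (isCompact_closedBall (0 : E D) (B + 1)) ?_
  intro z hz
  have h1 : ‖z‖ ^ 2 ∈ tsupport ψ := subset_tsupport _ hz
  have h2 := hB h1
  rw [mem_closedBall, dist_zero_right, Real.norm_of_nonneg (by positivity)] at h2
  rw [mem_closedBall, dist_zero_right]
  have := norm_nonneg z
  nlinarith [sq_nonneg (‖z‖ - 1)]

theorem h940_int_C2x {D : ℕ} (ψ : ℝ → ℝ) (hψ : ContDiff ℝ ∞ ψ) (hψc : HasCompactSupport ψ)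
    (hψs : tsupport ψ ⊆ Ioi 0) (k : E D → ℝ) (hk : ContinuousOn k {z | z ≠ 0}) :
    Integrable (fun z : E D => ψ (‖z‖ ^ 2) * k z) := by
  have hc : Continuous (fun z : E D => ψ (‖z‖ ^ 2)) := hψ.continuous.comp (by fun_prop)
  refine Continuous.integrable_of_hasCompactSupport ?_ ((h940_cs_C2x ψ hψc).mul_right)
  refine continuous_of_tsupport ?_
  intro z hz
  have h1 : z ∈ tsupport (fun z : E D => ψ (‖z‖ ^ 2)) := tsupport_mul_subset_left hz
  have h2 : z ≠ 0 := h940_tsupp_C2x ψ hψs h1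
  exact hc.continuousAt.mul (hk.continuousAt (isOpen_ne.mem_nhds h2))

theorem C2 {D : ℕ} {V : E D → E D} (hV : UT V) {c : E D} (hc : ‖c‖ = 1) (ψ : ℝ → ℝ)
    (hψ : ContDiff ℝ ∞ ψ) (hψ0 : ∀ t, 0 ≤ ψ t) (hψc : HasCompactSupport ψ) (hψs : tsupport ψ ⊆ Ioi 0)
    {ε : ℝ} (hε : 0 < ε) :
    |∫ z, ψ (‖z‖ ^ 2) * (th' ε (inner ℝ c z) * (uu V c ε z * inner ℝ c (xi V c z)))|
      ≤ ∫ z, ψ (‖z‖ ^ 2) * (‖xi V c z‖ / ‖z‖) := by
  have hop : IsOpen {z : E D | z ≠ 0} := isOpen_ne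
  let η : E D → ℝ := fun z => ψ (‖z‖ ^ 2) * (th ε (inner ℝ c z) * uu V c ε z)
  have hψ2 : ContDiff ℝ ∞ (fun z : E D => ψ (‖z‖ ^ 2)) := hψ.comp (contDiff_norm_sq ℝ)
  have hts : tsupport η ⊆ tsupport (fun z : E D => ψ (‖z‖ ^ 2)) := tsupport_mul_subset_left
  have hts0 : tsupport η ⊆ {z | z ≠ 0} := hts.trans (h940_tsupp_C2x ψ hψs)
  have hη : ContDiff ℝ ∞ η := by
    refine contDiff_iff_contDiffAt.2 fun z => ?_
    by_cases hz : z ∈ tsupport η
    swap
    · exact contDiffAt_const.congr_of_eventuallyEq (notMem_tsupport_iff_eventuallyEq.1 hz)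
    have h2 : z ≠ 0 := hts0 hz
    refine hψ2.contDiffAt.mul (ContDiffAt.mul ?_ ((uu_smooth hV c hε).contDiffAt (hop.mem_nhds h2)))
    exact ((h940_th_smooth_C2x hε).comp (contDiff_const.inner ℝ contDiff_id)).contDiffAt
  have hηc : HasCompactSupport η := (h940_cs_C2x ψ hψc).mul_right
  obtain ⟨hI, hI0⟩ := C0 hV hc η hη hηc hts0
  have hxi : ContinuousOn (xi V c) {z | z ≠ 0} := (xi_contDiff hV c).continuousOn
  have huu : ContinuousOn (uu V c ε) {z | z ≠ 0} := (uu_smooth hV c hε).continuousOn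
  have hF : Integrable (fun z : E D => ψ (‖z‖ ^ 2) * (th' ε (inner ℝ c z) * (uu V c ε z * inner ℝ c (xi V c z)))) := by
    refine h940_int_C2x ψ hψ hψc hψs _ ?_
    refine ContinuousOn.mul ?_ (huu.mul (continuousOn_const.inner hxi))
    exact ((h940_th'_cont_C2x hε).comp (continuous_const.inner continuous_id)).continuousOn
  have hH : Integrable (fun z : E D => ψ (‖z‖ ^ 2) * (‖xi V c z‖ / ‖z‖)) := by
    refine h940_int_C2x ψ hψ hψc hψs _ ?_
    exact hxi.norm.div continuousOn_id.norm (fun z hz => norm_ne_zero_iff.2 hz)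
  have hkey : ∀ z, fderiv ℝ η z (xi V c z)
      = ψ (‖z‖ ^ 2) * (th' ε (inner ℝ c z) * (uu V c ε z * inner ℝ c (xi V c z)))
        + ψ (‖z‖ ^ 2) * (th ε (inner ℝ c z) * fderiv ℝ (uu V c ε) z (xi V c z)) := by
    intro z
    by_cases hz : z ∈ tsupport (fun z : E D => ψ (‖z‖ ^ 2))
    · have h2 : z ≠ 0 := h940_tsupp_C2x ψ hψs hz
      have ha : HasFDerivAt (fun z : E D => ψ (‖z‖ ^ 2)) ((deriv ψ (‖z‖ ^ 2)) • (2 • innerSL ℝ z)) z := by
        have h3 : HasDerivAt ψ (deriv ψ (‖z‖ ^ 2)) (‖z‖ ^ 2) :=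
          ((hψ.differentiable (by simp)) _).hasDerivAt
        exact h3.comp_hasFDerivAt z (hasStrictFDerivAt_norm_sq z).hasFDerivAt
      have hb : HasFDerivAt (fun z : E D => th ε (inner ℝ c z)) ((th' ε (inner ℝ c z)) • (innerSL ℝ c)) z := by
        have h3 := h940_th_C2x hε (inner ℝ c z)
        have h4 : HasFDerivAt (fun z : E D => inner ℝ c z) (innerSL ℝ c) z := (innerSL ℝ c).hasFDerivAt
        exact h3.comp_hasFDerivAt z h4
      have hu : HasFDerivAt (uu V c ε) (fderiv ℝ (uu V c ε) z) z :=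
        (((uu_smooth hV c hε).contDiffAt (hop.mem_nhds h2)).differentiableAt (by simp)).hasFDerivAt
      have hprod := ha.mul (hb.mul hu)
      have h5 : fderiv ℝ η z = _ := hprod.fderiv
      rw [h5]
      have h6 := xi_z hV hc h2
      simp only [ContinuousLinearMap.add_apply, ContinuousLinearMap.smul_apply, smul_eq_mul,
        innerSL_apply_apply, h6, nsmul_eq_mul, ContinuousLinearMap.coe_smul', Pi.smul_apply,
        Pi.mul_apply, mul_zero, add_zero]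
      ring
    · have h1 : z ∉ tsupport η := fun h => hz (hts h)
      have h3 : fderiv ℝ η z = 0 := by
        have h4 : tsupport (fderiv ℝ η) ⊆ tsupport η := tsupport_fderiv_subset ℝ
        exact image_eq_zero_of_notMem_tsupport (fun h => h1 (h4 h))
      have h4 : ψ (‖z‖ ^ 2) = 0 := image_eq_zero_of_notMem_tsupport (f := fun z : E D => ψ (‖z‖ ^ 2)) hz
      rw [h3, h4]
      simp
  have hG : Integrable (fun z : E D => ψ (‖z‖ ^ 2) * (th ε (inner ℝ c z) * fderiv ℝ (uu V c ε) z (xi V c z))) := by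
    have h1 := hI.sub hF
    refine h1.congr (Filter.Eventually.of_forall fun z => ?_)
    simp only [Pi.sub_apply]
    rw [hkey z]
    ring
  have hsum : (∫ z : E D, ψ (‖z‖ ^ 2) * (th' ε (inner ℝ c z) * (uu V c ε z * inner ℝ c (xi V c z))))
      + ∫ z : E D, ψ (‖z‖ ^ 2) * (th ε (inner ℝ c z) * fderiv ℝ (uu V c ε) z (xi V c z)) = 0 := by
    rw [← integral_add hF hG, ← hI0]
    exact integral_congr_ae (Filter.Eventually.of_forall fun z => (hkey z).symm)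
  have hneg : (∫ z : E D, ψ (‖z‖ ^ 2) * (th' ε (inner ℝ c z) * (uu V c ε z * inner ℝ c (xi V c z))))
      = - ∫ z : E D, ψ (‖z‖ ^ 2) * (th ε (inner ℝ c z) * fderiv ℝ (uu V c ε) z (xi V c z)) := by
    linarith
  rw [hneg, abs_neg, ← Real.norm_eq_abs]
  refine norm_integral_le_of_norm_le hH (Filter.Eventually.of_forall fun z => ?_)
  rw [norm_mul, Real.norm_of_nonneg (hψ0 _)]
  by_cases hz : z = 0
  · have h4 : ψ (‖z‖ ^ 2) = 0 := by
      refine image_eq_zero_of_notMem_tsupport (f := fun z : E D => ψ (‖z‖ ^ 2)) ?_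
      intro h
      exact h940_tsupp_C2x ψ hψs h hz
    rw [h4, zero_mul, zero_mul]
  · refine mul_le_mul_of_nonneg_left ?_ (hψ0 _)
    rw [norm_mul, Real.norm_eq_abs, Real.norm_eq_abs]
    have h1 := h940_th_abs_C2x hε (inner ℝ c z)
    have h2 := uu_deriv hV hc hε hz
    calc |th ε (inner ℝ c z)| * |fderiv ℝ (uu V c ε) z (xi V c z)|
        ≤ 1 * (‖xi V c z‖ / ‖z‖) := mul_le_mul h1 h2 (abs_nonneg _) zero_le_one
      _ = _ := one_mul _



end Pool.Agent.Helper82.OS
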