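import Mathlib
import Pool.Agent.Helper82.OS.Defs
set_option autoImplicit false
open Matrix MeasureTheory Set Metric Filter Topology
open scoped ENNReal ContDiff

namespace Pool.Agent.Helper82.OS
theorem D0 {k : ℕ} (c : E (k + 1)) (hc : ‖c‖ = 1) :
    ∃ ι : E k →ₗᵢ[ℝ] E (k + 1), (∀ y, inner ℝ c (ι y) = 0) ∧
      (∀ z, inner ℝ c z = 0 → ∃ y, ι y = z) ∧
      MeasurePreserving (fun p : ℝ × E k => p.1 • c + ι p.2) (volume.prod volume) volume := by
  classical
  have hfr : Module.finrank ℝ (E (k + 1)) = Fintype.card (Fin (k + 1)) := by simp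
  have horth : Orthonormal ℝ ((({(0 : Fin (k + 1))} : Set (Fin (k + 1)))).domRestrict
      (fun _ : Fin (k + 1) => c)) := by
    refine ⟨fun i => hc, ?_⟩
    intro i j hij
    exact absurd (Subsingleton.elim i j) hij
  obtain ⟨b, hb⟩ := horth.exists_orthonormalBasis_extension_of_card_eq hfr
  have hb0 : b 0 = c := hb 0 rfl
  let Φ : E (k + 1) ≃ₗᵢ[ℝ] E (k + 1) := b.repr.symm
  have hΦ : Φ (EuclideanSpace.single 0 1) = c := by
    rw [← hb0]; exact b.repr_symm_single 0
  let J : E k →ₗᵢ[ℝ] E (k + 1) :=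
    { toFun := fun y => WithLp.toLp 2 (Fin.cons 0 (WithLp.ofLp y) : Fin (k + 1) → ℝ)
      map_add' := by
        intro x y
        ext i
        refine Fin.cases ?_ (fun j => ?_) i <;> simp
      map_smul' := by
        intro a x
        ext i
        refine Fin.cases ?_ (fun j => ?_) i <;> simp
      norm_map' := by
        intro y
        simp [EuclideanSpace.norm_eq, Fin.sum_univ_succ] }
  have hJ0 : ∀ y, (J y) 0 = 0 := fun y => rfl
  have hJs : ∀ y (i : Fin k), (J y) i.succ = y i := fun y i => rfl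
  have hin : ∀ w : E (k + 1), inner ℝ (EuclideanSpace.single (0 : Fin (k + 1)) (1 : ℝ)) w = w 0 := by
    intro w
    simp [EuclideanSpace.inner_single_left]
  refine ⟨Φ.toLinearIsometry.comp J, ?_, ?_, ?_⟩
  · intro y
    show inner ℝ c (Φ (J y)) = 0
    rw [← hΦ, LinearIsometryEquiv.inner_map_map, hin, hJ0]
  · intro z hz
    have hz' : (Φ.symm z) 0 = 0 := by
      rw [← hin, ← LinearIsometryEquiv.inner_map_map Φ, hΦ, LinearIsometryEquiv.apply_symm_apply]
      exact hz
    refine ⟨WithLp.toLp 2 (fun i => (Φ.symm z) i.succ), ?_⟩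
    show Φ (J _) = z
    have : J (WithLp.toLp 2 (fun i => (Φ.symm z) i.succ)) = Φ.symm z := by
      ext i
      refine Fin.cases ?_ (fun j => ?_) i
      · rw [hJ0, hz']
      · rw [hJs]
    rw [this, LinearIsometryEquiv.apply_symm_apply]
  · have m1 : MeasurePreserving (Prod.map id WithLp.ofLp : ℝ × E k → ℝ × (Fin k → ℝ))
        (volume.prod volume) (volume.prod volume) :=
      (MeasurePreserving.id volume).prod (PiLp.volume_preserving_ofLp (Fin k))
    have m2 := (volume_preserving_piFinSuccAbove (fun _ : Fin (k + 1) => ℝ) 0).symm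
    have m3 := PiLp.volume_preserving_toLp (Fin (k + 1))
    have m4 := Φ.measurePreserving
    have m5 := m4.comp (m3.comp (m2.comp m1))
    have e : (fun p : ℝ × E k => p.1 • c + (Φ.toLinearIsometry.comp J) p.2) =
        (⇑Φ ∘ (WithLp.toLp 2) ∘ ⇑(MeasurableEquiv.piFinSuccAbove (fun _ : Fin (k + 1) => ℝ) 0).symm ∘
          (Prod.map id WithLp.ofLp : ℝ × E k → ℝ × (Fin k → ℝ))) := by
      funext p
      show p.1 • c + Φ (J p.2) = Φ _
      rw [← hΦ, ← map_smul, ← map_add]
      congr 1
      ext i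
      refine Fin.cases ?_ (fun j => ?_) i
      · have : (J p.2) 0 = 0 := hJ0 _
        simp [this, MeasurableEquiv.piFinSuccAbove, Fin.insertNthEquiv]
      · have : (J p.2) j.succ = p.2 j := hJs _ _
        simp [this, MeasurableEquiv.piFinSuccAbove, Fin.insertNthEquiv]
    rw [e]
    exact m5



end Pool.Agent.Helper82.OS
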