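import Mathlib
import Pool.Agent.Helper82.OS.Defs
set_option autoImplicit false
open Matrix MeasureTheory Set Metric Filter Topology
open scoped ENNReal ContDiff

namespace Pool.Agent.Helper82.OS
theorem gg_cont_D1x : Continuous (fun s : ℝ => 1 / Real.sqrt (s ^ 2 + 1) ^ 3) := by
  refine continuous_const.div (by fun_prop) (fun s => ?_)
  positivity

theorem gg_int_D1x : Integrable (fun s : ℝ => 1 / Real.sqrt (s ^ 2 + 1) ^ 3) := by
  refine Integrable.mono' integrable_inv_one_add_sq gg_cont_D1x.aestronglyMeasurable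
    (Filter.Eventually.of_forall fun s => ?_)
  rw [Real.norm_of_nonneg (by positivity), one_div]
  refine inv_anti₀ (by positivity) ?_
  have h1 : Real.sqrt (s ^ 2 + 1) ^ 2 = s ^ 2 + 1 := Real.sq_sqrt (by positivity)
  have h2 : 1 ≤ Real.sqrt (s ^ 2 + 1) := by
    rw [Real.one_le_sqrt]
    nlinarith [sq_nonneg s]
  calc 1 + s ^ 2 = Real.sqrt (s ^ 2 + 1) ^ 2 * 1 := by rw [h1]; ring
    _ ≤ Real.sqrt (s ^ 2 + 1) ^ 2 * Real.sqrt (s ^ 2 + 1) :=
        mul_le_mul_of_nonneg_left h2 (by positivity)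
    _ = Real.sqrt (s ^ 2 + 1) ^ 3 := by ring

theorem gg_der_D1x (s : ℝ) : HasDerivAt (fun s : ℝ => s / Real.sqrt (s ^ 2 + 1))
    (1 / Real.sqrt (s ^ 2 + 1) ^ 3) s := by
  have hp : 0 < s ^ 2 + 1 := by positivity
  have h1 : HasDerivAt (fun s : ℝ => s ^ 2 + 1) (2 * s) s := by
    simpa using (hasDerivAt_pow 2 s).add_const 1
  have h2 := h1.sqrt hp.ne'
  have h3 := (hasDerivAt_id s).div h2 (Real.sqrt_pos.2 hp).ne'
  have hs : Real.sqrt (s ^ 2 + 1) ^ 2 = s ^ 2 + 1 := Real.sq_sqrt hp.le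
  have hs' := (Real.sqrt_pos.2 hp).ne'
  have h4 : (1 * Real.sqrt (s ^ 2 + 1) - s * (2 * s / (2 * Real.sqrt (s ^ 2 + 1)))) =
      1 / Real.sqrt (s ^ 2 + 1) := by
    rw [eq_div_iff hs', sub_mul, one_mul, ← sq, hs]
    field_simp
    ring
  have h5 : (1 * Real.sqrt (s ^ 2 + 1) - id s * (2 * s / (2 * Real.sqrt (s ^ 2 + 1)))) /
      Real.sqrt (s ^ 2 + 1) ^ 2 = 1 / Real.sqrt (s ^ 2 + 1) ^ 3 := by
    simp only [id]
    rw [h4]
    field_simp
  rw [h5] at h3
  exact h3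

theorem gg_top_D1x : Tendsto (fun s : ℝ => s / Real.sqrt (s ^ 2 + 1)) atTop (𝓝 1) := by
  have h1 : Tendsto (fun s : ℝ => Real.sqrt (1 - (s ^ 2 + 1)⁻¹)) atTop (𝓝 (Real.sqrt (1 - 0))) := by
    refine (Real.continuous_sqrt.tendsto _).comp (tendsto_const_nhds.sub ?_)
    exact tendsto_inv_atTop_zero.comp
      (tendsto_atTop_add_const_right _ _ (tendsto_pow_atTop two_ne_zero))
  rw [sub_zero, Real.sqrt_one] at h1
  refine h1.congr' ?_
  filter_upwards [eventually_gt_atTop 0] with s hs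
  have hp : 0 < s ^ 2 + 1 := by positivity
  have h2 : 1 - (s ^ 2 + 1)⁻¹ = s ^ 2 / (s ^ 2 + 1) := by field_simp; ring
  rw [h2, Real.sqrt_div (by positivity), Real.sqrt_sq hs.le]

theorem gg_bot_D1x : Tendsto (fun s : ℝ => s / Real.sqrt (s ^ 2 + 1)) atBot (𝓝 (-1)) := by
  have h1 := (gg_top_D1x.comp tendsto_neg_atBot_atTop).neg
  refine h1.congr fun s => ?_
  simp only [Function.comp, neg_sq]
  ring

theorem th'_int : ∫ s : ℝ, 1 / Real.sqrt (s ^ 2 + 1) ^ 3 = 2 := by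
  rw [integral_of_hasDerivAt_of_tendsto gg_der_D1x gg_int_D1x gg_bot_D1x gg_top_D1x]
  norm_num

theorem th'_integrable : Integrable (fun s : ℝ => 1 / Real.sqrt (s ^ 2 + 1) ^ 3) := gg_int_D1x

theorem th'_eq_D1x (ε : ℝ) (hε : 0 < ε) (s : ℝ) :
    th' ε s = ε⁻¹ * (1 / Real.sqrt ((ε⁻¹ * s) ^ 2 + 1) ^ 3) := by
  unfold th'
  have h1 : (ε⁻¹ * s) ^ 2 + 1 = (s ^ 2 + ε ^ 2) / ε ^ 2 := by field_simp
  rw [h1, Real.sqrt_div (by positivity), Real.sqrt_sq hε.le]
  have h2 : 0 < Real.sqrt (s ^ 2 + ε ^ 2) := Real.sqrt_pos.2 (by positivity)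
  field_simp

theorem th'_nonneg_D1x (ε : ℝ) (s : ℝ) : 0 ≤ th' ε s := by
  unfold th'; positivity

theorem th'_i_D1x (ε : ℝ) (hε : 0 < ε) : Integrable (fun s => th' ε s) := by
  have h1 : (fun s => th' ε s) = fun s => ε⁻¹ * (1 / Real.sqrt ((ε⁻¹ * s) ^ 2 + 1) ^ 3) :=
    funext fun s => th'_eq_D1x ε hε s
  rw [h1]
  exact (gg_int_D1x.comp_mul_left' (inv_ne_zero hε.ne')).const_mul _

theorem D1_norm_D1x {k : ℕ} (c : E (k + 1)) (ι : E k →ₗᵢ[ℝ] E (k + 1))
    (hι : ∀ y, inner ℝ c (ι y) = 0) (s : ℝ) (y : E k) : ‖y‖ ≤ ‖s • c + ι y‖ := by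
  have h1 : ‖s • c + ι y‖ ^ 2 = ‖s • c‖ ^ 2 + ‖y‖ ^ 2 := by
    rw [norm_add_sq_real, real_inner_smul_left, hι, ι.norm_map]
    ring
  have h2 : ‖y‖ ^ 2 ≤ ‖s • c + ι y‖ ^ 2 := by rw [h1]; nlinarith [sq_nonneg ‖s • c‖]
  exact le_of_sq_le_sq h2 (norm_nonneg _)

theorem D1_in_D1x {k : ℕ} (c : E (k + 1)) (hc : ‖c‖ = 1) (ι : E k →ₗᵢ[ℝ] E (k + 1))
    (hι : ∀ y, inner ℝ c (ι y) = 0) (s : ℝ) (y : E k) : inner ℝ c (s • c + ι y) = s := by
  rw [inner_add_right, real_inner_smul_right, hι, real_inner_self_eq_norm_sq, hc]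
  ring

theorem D1 {k : ℕ} (c : E (k + 1)) (hc : ‖c‖ = 1) (ι : E k →ₗᵢ[ℝ] E (k + 1))
    (hι : ∀ y, inner ℝ c (ι y) = 0)
    (hmp : MeasurePreserving (fun p : ℝ × E k => p.1 • c + ι p.2) (volume.prod volume) volume)
    (H : ℝ → E (k + 1) → ℝ) (H0 : E k → ℝ) (C R : ℝ)
    (hm : ∀ ε > 0, Measurable (H ε)) (hb : ∀ ε > 0, ∀ z, |H ε z| ≤ C) (hR : ∀ ε > 0, ∀ z, R < ‖z‖ → H ε z = 0)
    (hlim : ∀ s : ℝ, ∀ᵐ y : E k, Tendsto (fun ε => H ε ((ε * s) • c + ι y)) (𝓝[>] 0) (𝓝 (H0 y))) :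
    Tendsto (fun ε => ∫ z, th' ε (inner ℝ c z) * H ε z) (𝓝[>] 0) (𝓝 (2 * ∫ y, H0 y)) := by
  have hC : 0 ≤ C := (abs_nonneg _).trans (hb 1 one_pos 0)
  have hBi : Integrable ((closedBall (0 : E k) R).indicator (fun _ => C)) := by
    rw [integrable_indicator_iff measurableSet_closedBall]
    exact continuousOn_const.integrableOn_compact (isCompact_closedBall 0 R)
  have hHB : ∀ ε > 0, ∀ (s : ℝ) (y : E k), |H ε (s • c + ι y)| ≤
      (closedBall (0 : E k) R).indicator (fun _ => C) y := by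
    intro ε hε s y
    by_cases hy : y ∈ closedBall (0 : E k) R
    · rw [indicator_of_mem hy]
      exact hb ε hε _
    · rw [indicator_of_notMem hy]
      rw [mem_closedBall_zero_iff, not_le] at hy
      rw [hR ε hε _ (hy.trans_le (D1_norm_D1x c ι hι s y)), abs_zero]
  have hcont : ∀ ε : ℝ, Continuous (fun p : ℝ × E k => (ε * p.1) • c + ι p.2) := fun ε =>
    ((continuous_const.mul continuous_fst).smul continuous_const).add
      (ι.continuous.comp continuous_snd)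
  have hcont1 : Continuous (fun p : ℝ × E k => p.1 • c + ι p.2) :=
    (continuous_fst.smul continuous_const).add (ι.continuous.comp continuous_snd)
  have hthc : ∀ ε > 0, Continuous (fun s => th' ε s) := by
    intro ε hε
    unfold th'
    refine continuous_const.div (by fun_prop) (fun s => ?_)
    have h2 : 0 < Real.sqrt (s ^ 2 + ε ^ 2) := Real.sqrt_pos.2 (by positivity)
    positivity
  have key : ∀ ε > 0, ∫ z, th' ε (inner ℝ c z) * H ε z =
      ∫ σ : ℝ, (1 / Real.sqrt (σ ^ 2 + 1) ^ 3) * ∫ y, H ε ((ε * σ) • c + ι y) := by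
    intro ε hε
    have hmeasF : Measurable (fun z : E (k + 1) => th' ε (inner ℝ c z) * H ε z) := by
      refine Measurable.mul ?_ (hm ε hε)
      exact ((hthc ε hε).comp (continuous_const.inner continuous_id)).measurable
    have e1 : ∫ z, th' ε (inner ℝ c z) * H ε z =
        ∫ p : ℝ × E k, th' ε p.1 * H ε (p.1 • c + ι p.2) ∂(volume.prod volume) := by
      rw [← hmp.map_eq, integral_map hmp.measurable.aemeasurable hmeasF.aestronglyMeasurable]
      refine integral_congr_ae (Filter.Eventually.of_forall fun p => ?_)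
      simp only [D1_in_D1x c hc ι hι]
    have hint : Integrable (fun p : ℝ × E k => th' ε p.1 * H ε (p.1 • c + ι p.2))
        (volume.prod volume) := by
      refine Integrable.mono' ((th'_i_D1x ε hε).mul_prod hBi) ?_ (Filter.Eventually.of_forall fun p => ?_)
      · exact (((hthc ε hε).comp continuous_fst).measurable.mul
          ((hm ε hε).comp hcont1.measurable)).aestronglyMeasurable
      · rw [Real.norm_eq_abs, abs_mul, abs_of_nonneg (th'_nonneg_D1x ε p.1)]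
        exact mul_le_mul_of_nonneg_left (hHB ε hε p.1 p.2) (th'_nonneg_D1x ε p.1)
    rw [e1, integral_prod _ hint]
    have e2 : ∀ s : ℝ, ∫ y, th' ε s * H ε (s • c + ι y) = th' ε s * ∫ y, H ε (s • c + ι y) :=
      fun s => integral_const_mul _ _
    simp only [e2]
    have e3 := Measure.integral_comp_mul_left (fun s => th' ε s * ∫ y, H ε (s • c + ι y)) ε
    rw [abs_of_pos (inv_pos.2 hε), smul_eq_mul] at e3
    have e4 : ∫ s : ℝ, th' ε s * ∫ y, H ε (s • c + ι y) =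
        ε * ∫ s : ℝ, th' ε (ε * s) * ∫ y, H ε ((ε * s) • c + ι y) := by
      rw [e3, ← mul_assoc, mul_inv_cancel₀ hε.ne', one_mul]
    rw [e4, ← integral_const_mul]
    refine integral_congr_ae (Filter.Eventually.of_forall fun σ => ?_)
    simp only
    rw [th'_eq_D1x ε hε, ← mul_assoc ε⁻¹ ε σ, inv_mul_cancel₀ hε.ne', one_mul, ← mul_assoc, ← mul_assoc,
      mul_inv_cancel₀ hε.ne', one_mul]
  have hfin : 2 * ∫ y, H0 y = ∫ σ : ℝ, (1 / Real.sqrt (σ ^ 2 + 1) ^ 3) * ∫ y, H0 y := by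
    rw [integral_mul_const, th'_int]
  rw [hfin]
  have hev : ∀ᶠ ε : ℝ in 𝓝[>] 0, 0 < ε := self_mem_nhdsWithin
  refine Tendsto.congr' (hev.mono fun ε hε => (key ε hε).symm) ?_
  refine tendsto_integral_filter_of_dominated_convergence
    (fun σ => (1 / Real.sqrt (σ ^ 2 + 1) ^ 3) * ∫ y, (closedBall (0 : E k) R).indicator (fun _ => C) y)
    ?_ ?_ ?_ ?_
  · filter_upwards [hev] with ε hε
    refine gg_cont_D1x.aestronglyMeasurable.mul ?_
    have h5 : StronglyMeasurable (Function.uncurry fun (σ : ℝ) (y : E k) => H ε ((ε * σ) • c + ι y)) :=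
      ((hm ε hε).comp (hcont ε).measurable).stronglyMeasurable
    exact (h5.integral_prod_right).aestronglyMeasurable
  · filter_upwards [hev] with ε hε
    refine Filter.Eventually.of_forall fun σ => ?_
    rw [norm_mul, Real.norm_of_nonneg (by positivity : (0 : ℝ) ≤ 1 / Real.sqrt (σ ^ 2 + 1) ^ 3)]
    refine mul_le_mul_of_nonneg_left ?_ (by positivity)
    exact norm_integral_le_of_norm_le hBi
      (Filter.Eventually.of_forall fun y => hHB ε hε (ε * σ) y)
  · exact gg_int_D1x.mul_const _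
  · refine Filter.Eventually.of_forall fun σ => ?_
    refine Tendsto.const_mul _ ?_
    refine tendsto_integral_filter_of_dominated_convergence
      ((closedBall (0 : E k) R).indicator (fun _ => C)) ?_ ?_ hBi (hlim σ)
    · filter_upwards [hev] with ε hε
      have h6 : Continuous (fun y : E k => (ε * σ) • c + ι y) := continuous_const.add ι.continuous
      exact ((hm ε hε).comp h6.measurable).aestronglyMeasurable
    · filter_upwards [hev] with ε hε
      exact Filter.Eventually.of_forall fun y => hHB ε hε (ε * σ) y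



end Pool.Agent.Helper82.OS
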