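import Mathlib
import Pool.Agent.Helper82.OS.Defs
set_option autoImplicit false
open Matrix MeasureTheory Set Metric Filter Topology
open scoped ENNReal ContDiff

namespace Pool.Agent.Helper82.OS

/-- normal form data of an `N`-plane of 2-forms, in the hyperplane `v^⊥ = E (N+1)` -/
structure Fr (N : ℕ) where
  x : E (N + 1)
  e : E (N + 1)
  q : Fin N → E (N + 1)
  g : Fin N → E (N + 1)
  c : Fin N → ℝ
  s : Fin N → ℝ
  hx : ‖x‖ = 1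
  he : ‖e‖ = 1
  hq : Orthonormal ℝ q
  hg : Orthonormal ℝ g
  hqe : ∀ j, inner ℝ (q j) e = 0
  hgx : ∀ j, inner ℝ (g j) x = 0
  hc : ∀ j, 0 ≤ c j
  hs : ∀ j, 0 ≤ s j
  hcs : ∀ j, c j ^ 2 + s j ^ 2 = 1
  hgam : ∑ j, c j * s j * inner ℝ (q j) (g j) = 0
  hdel : 2 * ∑ j, s j ^ 2 ≤ N

namespace Fr
variable {N : ℕ} (F : Fr N)

noncomputable def lv (w : E (N + 1)) (j : Fin N) : ℝ := F.c j * inner ℝ w (F.q j)
noncomputable def Mv (t : ℝ) (w : E (N + 1)) (j : Fin N) : E (N + 1) :=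
  (t * F.c j) • F.q j + F.s j • (inner ℝ w F.x • F.g j - inner ℝ w (F.g j) • F.x)
noncomputable def Gm (t : ℝ) (w : E (N + 1)) : Matrix (Fin N) (Fin N) ℝ :=
  Matrix.of fun i j => inner ℝ (F.Mv t w i) (F.Mv t w j) + F.lv w i * F.lv w j
/-- the integrand at `f = t v + w` -/
noncomputable def FF (t : ℝ) (w : E (N + 1)) : ℝ := Real.sqrt (F.Gm t w).det
noncomputable def del : ℝ := ∑ j, F.s j ^ 2
noncomputable def u2 (w : E (N + 1)) : ℝ := ∑ j, inner ℝ w (F.q j) ^ 2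
noncomputable def eta (w : E (N + 1)) : ℝ := (∑ j, F.s j ^ 2 * inner ℝ w (F.q j) ^ 2) / F.u2 w
noncomputable def eps (w : E (N + 1)) (j : Fin N) : ℝ :=
  F.s j * (inner ℝ w F.x * inner ℝ (F.g j) F.e - inner ℝ w (F.g j) * inner ℝ F.x F.e)
noncomputable def k2 (w : E (N + 1)) : ℝ := inner ℝ w F.e * (∑ j, F.lv w j * F.eps w j) / F.u2 w
noncomputable def Bq (w : E (N + 1)) : ℝ := ∑ j, F.s j ^ 2 * (inner ℝ w F.x ^ 2 + inner ℝ w (F.g j) ^ 2)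
noncomputable def hh (w : E (N + 1)) : ℝ := ∑ j, F.c j * F.s j * inner ℝ (F.q j) F.x * inner ℝ w (F.g j)
noncomputable def al (w : E (N + 1)) : ℝ := 1 - (F.del - F.eta w) / ((N : ℝ) - 1)
noncomputable def bb (w : E (N + 1)) : ℝ :=
  (F.Bq w + 2 * (F.hh w - F.k2 w) ^ 2 / F.al w + 2 * F.k2 w ^ 2) / ((N : ℝ) - 1)
/-- projection of `w` to `e^⊥` -/
noncomputable def pr (w : E (N + 1)) : E (N + 1) := w - inner ℝ w F.e • F.e
/-- explicit upper bound of `bb` -/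
noncomputable def bh (w : E (N + 1)) : ℝ :=
  (F.Bq w + 8 * F.hh w ^ 2 + 20 * ((∑ j, F.s j ^ 2 * (inner ℝ (F.pr w) F.x ^ 2 + inner ℝ (F.pr w) (F.g j) ^ 2)) / F.u2 w))
    / ((N : ℝ) - 1)
end Fr

/-- the weight -/
noncomputable def K (N : ℕ) (t : ℝ) : ℝ := ((1 + t ^ 2) ^ (N + 1))⁻¹
noncomputable def A0 (N : ℕ) (W : ℝ) : ℝ≥0∞ :=
  ∫⁻ t : ℝ, ENNReal.ofReal (|t| ^ (N - 1) * Real.sqrt (t ^ 2 + (1 - W ^ 2)) * K N t)
noncomputable def m0 (N : ℕ) : ℝ≥0∞ := ∫⁻ t : ℝ, ENNReal.ofReal (|t| ^ N * K N t)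

/-- the core inequality in dimension `N` -/
def Core (N : ℕ) : Prop := ∀ F : Fr N,
  ∫⁻ w : sphere (0 : E (N + 1)) 1, (∫⁻ t : ℝ, ENNReal.ofReal (F.FF t w * K N t)) ∂(sg (N + 1))
    ≤ ∫⁻ w : sphere (0 : E (N + 1)) 1, A0 N (inner ℝ (w : E (N + 1)) F.e) ∂(sg (N + 1))

end Pool.Agent.Helper82.OS
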