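import Mathlib
import Pool.Agent.Helper82.OS.Defs
import Pool.Agent.Helper82.OS.Defs2
set_option autoImplicit false
open Matrix MeasureTheory Set Metric Filter Topology
open scoped ENNReal ContDiff

namespace Pool.Agent.Helper82.OS

/-- Gaussian weight -/
noncomputable def gw {k : ℕ} (w : E k) : ℝ := Real.exp (-(‖w‖ ^ 2 / 2))
noncomputable def gt (t : ℝ) : ℝ := Real.exp (-(t ^ 2 / 2))
/-- `∫ √(t²+u)|t|^{N-1} e^{-t²/2}` -/
noncomputable def Psi (N : ℕ) (u : ℝ) : ℝ≥0∞ :=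
  ∫⁻ t : ℝ, ENNReal.ofReal (Real.sqrt (t ^ 2 + u) * |t| ^ (N - 1) * gt t)
noncomputable def Fr.be {N : ℕ} (F : Fr N) (w : E (N + 1)) : ℝ := F.bb w / F.al w
/-- the core inequality, Gaussian form -/
def GCoreF {N : ℕ} (F : Fr N) : Prop :=
  ∫⁻ w : E (N + 1), (∫⁻ t : ℝ, ENNReal.ofReal (F.FF t w * gt t * gw w))
    ≤ ∫⁻ w : E (N + 1), Psi N (F.u2 w) * ENNReal.ofReal (gw w)

noncomputable def Fr.Sg {N : ℕ} (F : Fr N) (w : E (N + 1)) : ℝ := ∑ j, F.s j ^ 2 * inner ℝ w (F.g j) ^ 2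
noncomputable def Fr.E2 {N : ℕ} (F : Fr N) (p : E (N + 1)) : ℝ :=
  ∑ j, F.s j ^ 2 * (inner ℝ p F.x * inner ℝ (F.g j) F.e - inner ℝ p (F.g j) * inner ℝ F.x F.e) ^ 2

end Pool.Agent.Helper82.OS
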