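import Mathlib
import Pool.Agent.Helper82.OS.Defs3
set_option autoImplicit false
open Matrix MeasureTheory Set Metric Filter Topology
open scoped ENNReal ContDiff

namespace Pool.Agent.Helper82.OS

noncomputable def Fr.b3 {N : ℕ} (F : Fr N) (w : E (N + 1)) : ℝ :=
  (F.Bq w + (1.5 * F.hh w ^ 2 + 3 * F.k2 w ^ 2) / F.al w) / ((N : ℝ) - 1)

noncomputable def Fr.be3 {N : ℕ} (F : Fr N) (w : E (N + 1)) : ℝ := F.b3 w / F.al w

end Pool.Agent.Helper82.OS
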