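import Mathlib
import Pool.Agent.Helper82.OS.Defs
set_option autoImplicit false
open Matrix MeasureTheory Set Metric Filter Topology
open scoped ENNReal ContDiff

namespace Pool.Agent.Helper82.OS





theorem det_scale_aux_det_scalex {N : ℕ} (S : Matrix (Fin (N + 2)) (Fin (N + 2)) ℝ) (x v : Fin (N + 2) → ℝ)
    (l : ℝ) (hl : l ≠ 0)
    (hx : x ⬝ᵥ x = 1) (hv : v ⬝ᵥ v = 1) (hxv : x ⬝ᵥ v = 0)
    (h1 : x ᵥ* S = 0) (h2 : v ᵥ* S = 0) :
    (l • S + vecMulVec x x + vecMulVec v v).det =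
      l ^ N * (S + vecMulVec x x + vecMulVec v v).det := by
  let U : Matrix (Fin (N + 2)) (Fin 2) ℝ := Matrix.of fun i j => if j = 0 then x i else v i
  have hUU : U * Uᵀ = vecMulVec x x + vecMulVec v v := by
    ext i j
    rw [mul_apply, Fin.sum_univ_two]
    simp [U, vecMulVec_apply]
  have hx' : ∑ k, x k * x k = 1 := hx
  have hv' : ∑ k, v k * v k = 1 := hv
  have hxv' : ∑ k, x k * v k = 0 := hxv
  have hvx' : ∑ k, v k * x k = 0 := by
    rw [← hxv']
    exact Finset.sum_congr rfl fun k _ => mul_comm _ _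
  have hU1 : Uᵀ * U = 1 := by
    ext i j
    rw [mul_apply]
    fin_cases i <;> fin_cases j
    · simpa [U] using hx'
    · simpa [U] using hxv'
    · simpa [U] using hvx'
    · simpa [U] using hv'
  have hUS : Uᵀ * S = 0 := by
    ext i j
    rw [mul_apply]
    fin_cases i
    · have := congrFun h1 j
      simpa [U, vecMul, dotProduct] using this
    · have := congrFun h2 j
      simpa [U, vecMul, dotProduct] using this
  have hPS : (U * Uᵀ) * S = 0 := by rw [Matrix.mul_assoc, hUS, Matrix.mul_zero]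
  have hPP : (U * Uᵀ) * (U * Uᵀ) = U * Uᵀ := by
    rw [Matrix.mul_assoc, ← Matrix.mul_assoc Uᵀ U, hU1, Matrix.one_mul]
  have hfac : l • S + U * Uᵀ = (l • (1 : Matrix (Fin (N + 2)) (Fin (N + 2)) ℝ) +
      (1 - l) • (U * Uᵀ)) * (S + U * Uᵀ) := by
    rw [Matrix.add_mul, Matrix.mul_add, Matrix.mul_add, Matrix.smul_mul, Matrix.smul_mul,
      Matrix.smul_mul, Matrix.smul_mul, Matrix.one_mul, Matrix.one_mul, hPS, hPP, smul_zero,
      zero_add, add_assoc, ← add_smul]
    have : l + (1 - l) = 1 := by ring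
    rw [this, one_smul]
  have hdet : (l • (1 : Matrix (Fin (N + 2)) (Fin (N + 2)) ℝ) + (1 - l) • (U * Uᵀ)).det =
      l ^ N := by
    have e1 : l • (1 : Matrix (Fin (N + 2)) (Fin (N + 2)) ℝ) + (1 - l) • (U * Uᵀ) =
        l • (1 + U * (((1 - l) / l) • Uᵀ)) := by
      rw [smul_add, Matrix.mul_smul, smul_smul, mul_div_cancel₀ _ hl]
    have e2 : (1 : Matrix (Fin 2) (Fin 2) ℝ) + (((1 - l) / l) • Uᵀ) * U =
        (1 / l) • (1 : Matrix (Fin 2) (Fin 2) ℝ) := by
      rw [Matrix.smul_mul, hU1]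
      have : (1 / l) = 1 + (1 - l) / l := by field_simp; ring
      rw [this, add_smul, one_smul]
    rw [e1, det_smul, det_one_add_mul_comm, e2, det_smul, det_one, mul_one, Fintype.card_fin,
      Fintype.card_fin, pow_add]
    field_simp
  rw [add_assoc, ← hUU, hfac, det_mul, hdet, hUU, add_assoc]

theorem det_scale {N : ℕ} (S : Matrix (Fin (N + 2)) (Fin (N + 2)) ℝ) (x v : Fin (N + 2) → ℝ) (l : ℝ)
    (hx : x ⬝ᵥ x = 1) (hv : v ⬝ᵥ v = 1) (hxv : x ⬝ᵥ v = 0)
    (h1 : x ᵥ* S = 0) (h2 : v ᵥ* S = 0) :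
    (l • S + vecMulVec x x + vecMulVec v v).det = l ^ N * (S + vecMulVec x x + vecMulVec v v).det := by
  have hf : Continuous fun l : ℝ => (l • S + vecMulVec x x + vecMulVec v v).det := by
    apply Continuous.matrix_det
    fun_prop
  have hg : Continuous fun l : ℝ => l ^ N * (S + vecMulVec x x + vecMulVec v v).det := by
    fun_prop
  have heq : (fun l : ℝ => (l • S + vecMulVec x x + vecMulVec v v).det) =
      fun l : ℝ => l ^ N * (S + vecMulVec x x + vecMulVec v v).det := by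
    refine Continuous.ext_on (dense_compl_singleton (0 : ℝ)) hf hg ?_
    intro l hl
    exact det_scale_aux_det_scalex S x v l hl hx hv hxv h1 h2
  exact congrFun heq l



end Pool.Agent.Helper82.OS
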