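import Mathlib
import Pool.Agent.Helper82.OS.Defs
import Pool.Agent.Helper82.OS.det_scale
set_option autoImplicit false
open Matrix MeasureTheory Set Metric Filter Topology
open scoped ENNReal ContDiff

namespace Pool.Agent.Helper82.OS
theorem TT_smul_JJ_homogx {D : ℕ} (x v : Fin D → ℝ) (B : Matrix (Fin D) (Fin D) ℝ) (f : Fin D → ℝ) (r : ℝ) :
    TT x v B (r • f) = r • TT x v B f := by
  unfold TT
  rw [dotProduct_smul, dotProduct_smul, mulVec_smul, smul_vecMulVec, smul_vecMulVec, smul_eq_mul, smul_eq_mul,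
    mul_smul, mul_smul, ← smul_sub, ← smul_sub, Matrix.mul_smul, smul_add]

theorem TT_ker_JJ_homogx {D : ℕ} (x v : Fin D → ℝ) (B : Matrix (Fin D) (Fin D) ℝ) (f : Fin D → ℝ)
    (u : Fin D → ℝ) (h1 : u ᵥ* B = 0) (h2 : u ᵥ* (1 - vecMulVec x x - vecMulVec v v) = 0) :
    u ᵥ* TT x v B f = 0 := by
  unfold TT
  rw [vecMul_add, vecMul_sub, vecMul_smul, h1, ← vecMul_vecMul, h2, vecMul_vecMulVec]
  have : u ⬝ᵥ (B *ᵥ f) = 0 := by
    rw [dotProduct_mulVec, h1, zero_dotProduct]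
  rw [this]
  simp

theorem JJ_homog {N : ℕ} (x v : Fin (N + 2) → ℝ) (B : Matrix (Fin (N + 2)) (Fin (N + 2)) ℝ) (f : Fin (N + 2) → ℝ)
    (hx : x ⬝ᵥ x = 1) (hv : v ⬝ᵥ v = 1) (hxv : x ⬝ᵥ v = 0) (h1 : x ᵥ* B = 0) (h2 : v ᵥ* B = 0)
    (r : ℝ) (hr : 0 ≤ r) : JJ x v B (r • f) = r ^ N * JJ x v B f := by
  have hvx : v ⬝ᵥ x = 0 := by rw [dotProduct_comm]; exact hxv
  have k1 : x ᵥ* TT x v B f = 0 := by
    refine TT_ker_JJ_homogx x v B f x h1 ?_
    rw [vecMul_sub, vecMul_sub, vecMul_one, vecMul_vecMulVec, vecMul_vecMulVec, hx, hxv]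
    simp
  have k2 : v ᵥ* TT x v B f = 0 := by
    refine TT_ker_JJ_homogx x v B f v h2 ?_
    rw [vecMul_sub, vecMul_sub, vecMul_one, vecMul_vecMulVec, vecMul_vecMulVec, hv, hvx]
    simp
  unfold JJ
  rw [TT_smul_JJ_homogx]
  have e1 : (r • TT x v B f) * (r • TT x v B f)ᵀ = (r ^ 2) • (TT x v B f * (TT x v B f)ᵀ) := by
    rw [transpose_smul, Matrix.mul_smul, Matrix.smul_mul, smul_smul, pow_two]
  rw [e1, det_scale _ x v (r ^ 2) hx hv hxv (by rw [← vecMul_vecMul, k1, zero_vecMul])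
    (by rw [← vecMul_vecMul, k2, zero_vecMul])]
  rw [Real.sqrt_mul (by positivity), ← pow_mul, mul_comm 2 N, pow_mul, Real.sqrt_sq (by positivity)]

theorem tangent_deriv_JJ_homogx {D : ℕ} {V : E D → E D} (hV : UT V) {x w : E D} (hx : ‖x‖ = 1)
    (hw : inner ℝ x w = 0) : inner ℝ (V x) (fderiv ℝ V x w) = 0 := by
  set γ : ℝ → E D := fun t => (Real.sqrt (1 + t ^ 2 * ‖w‖ ^ 2))⁻¹ • (x + t • w) with hγ
  have hpos : ∀ t : ℝ, 0 < 1 + t ^ 2 * ‖w‖ ^ 2 := fun t => by positivity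
  have hnorm : ∀ t, ‖γ t‖ = 1 := by
    intro t
    have e1 : ‖x + t • w‖ ^ 2 = 1 + t ^ 2 * ‖w‖ ^ 2 := by
      rw [norm_add_sq_real, inner_smul_right, hw, norm_smul, hx, mul_pow, Real.norm_eq_abs, sq_abs]
      ring
    have e2 : ‖x + t • w‖ = Real.sqrt (1 + t ^ 2 * ‖w‖ ^ 2) := by
      rw [← e1, Real.sqrt_sq (norm_nonneg _)]
    rw [hγ]
    simp only
    rw [norm_smul, norm_inv, Real.norm_of_nonneg (Real.sqrt_nonneg _), e2,
      inv_mul_cancel₀ (Real.sqrt_pos.2 (hpos t)).ne']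
  have hγ0 : γ 0 = x := by
    rw [hγ]; simp
  have hd : HasDerivAt γ w 0 := by
    have h1 : HasDerivAt (fun t : ℝ => (Real.sqrt (1 + t ^ 2 * ‖w‖ ^ 2))⁻¹) 0 0 := by
      have a1 : HasDerivAt (fun t : ℝ => 1 + t ^ 2 * ‖w‖ ^ 2) 0 0 := by
        have := ((hasDerivAt_pow 2 (0:ℝ)).mul_const (‖w‖ ^ 2)).const_add 1
        simpa using this
      have a2 := a1.sqrt (by simp)
      have a3 := a2.inv (by simp)
      refine HasDerivAt.congr_deriv (f := fun t : ℝ => (Real.sqrt (1 + t ^ 2 * ‖w‖ ^ 2))⁻¹) a3 ?_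
      simp
    have h2 : HasDerivAt (fun t : ℝ => x + t • w) w 0 := by
      have := ((hasDerivAt_id (0:ℝ)).smul_const w).const_add x
      simpa using this
    have h3 := h1.smul h2
    refine HasDerivAt.congr_deriv (f := γ) h3 ?_
    simp
  have hdiff : DifferentiableAt ℝ V (γ 0) := (hV.sm.differentiable (by simp)).differentiableAt
  have hd2 : HasDerivAt (fun t => V (γ t)) (fderiv ℝ V (γ 0) w) 0 :=
    hdiff.hasFDerivAt.comp_hasDerivAt 0 hd
  have hd3 := hd2.inner ℝ hd2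
  have hconst : (fun t => inner ℝ (V (γ t)) (V (γ t))) = fun _ => (1:ℝ) := by
    funext t
    rw [real_inner_self_eq_norm_sq, hV.unit _ (hnorm t)]
    norm_num
  rw [hconst] at hd3
  have h5 := hd3.unique (hasDerivAt_const (0:ℝ) (1:ℝ))
  rw [hγ0] at h5
  rw [real_inner_comm (V x) (fderiv ℝ V x w)] at h5
  linarith

theorem Bm_props {D : ℕ} {V : E D → E D} (hV : UT V) {x : E D} (hx : ‖x‖ = 1) :
    Bm V x *ᵥ x.ofLp = 0 ∧ x.ofLp ᵥ* Bm V x = 0 ∧ (V x).ofLp ᵥ* Bm V x = 0 := by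
  have hxx : x.ofLp ⬝ᵥ x.ofLp = 1 := by
    have := real_inner_self_eq_norm_sq x
    rw [hx, EuclideanSpace.inner_eq_star_dotProduct] at this
    simpa using this
  have hVx : (V x).ofLp ⬝ᵥ x.ofLp = 0 := by
    have := hV.tan x hx
    rw [EuclideanSpace.inner_eq_star_dotProduct] at this
    simpa using this
  have p1 : (1 - vecMulVec x.ofLp x.ofLp) *ᵥ x.ofLp = 0 := by
    rw [sub_mulVec, one_mulVec, vecMulVec_mulVec, hxx]
    simp
  have p2 : x.ofLp ᵥ* (1 - vecMulVec x.ofLp x.ofLp) = 0 := by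
    rw [vecMul_sub, vecMul_one, vecMul_vecMulVec, hxx]
    simp
  have p3 : (V x).ofLp ᵥ* (1 - vecMulVec x.ofLp x.ofLp) = (V x).ofLp := by
    rw [vecMul_sub, vecMul_one, vecMul_vecMulVec, hVx]
    simp
  refine ⟨?_, ?_, ?_⟩
  · unfold Bm
    rw [← mulVec_mulVec, p1, mulVec_zero]
  · unfold Bm
    rw [← vecMul_vecMul, ← vecMul_vecMul, p2, zero_vecMul, zero_vecMul]
  · unfold Bm
    rw [← vecMul_vecMul, ← vecMul_vecMul, p3]
    have q : (V x).ofLp ᵥ* mat (fderiv ℝ V x) = fun j => inner ℝ (V x) (fderiv ℝ V x (EuclideanSpace.single j 1)) := by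
      funext j
      rw [EuclideanSpace.inner_eq_star_dotProduct]
      simp only [vecMul, dotProduct, mat, Matrix.of_apply, star_trivial]
      exact Finset.sum_congr rfl fun i _ => mul_comm _ _
    rw [q]
    funext k
    have hw : inner ℝ x (EuclideanSpace.single k (1:ℝ) - x k • x) = 0 := by
      rw [inner_sub_right, inner_smul_right, real_inner_self_eq_norm_sq, hx, EuclideanSpace.inner_single_right]
      simp
    have h1 := tangent_deriv_JJ_homogx hV hx hw
    rw [map_sub, map_smul, inner_sub_right, inner_smul_right] at h1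
    have hsum : x = ∑ j, x j • EuclideanSpace.single j (1:ℝ) := by
      ext i
      simp [Finset.sum_apply, Pi.single_apply]
    have h2 : inner ℝ (V x) (fderiv ℝ V x x) = ∑ j, x j * inner ℝ (V x) (fderiv ℝ V x (EuclideanSpace.single j 1)) := by
      have h3 : fderiv ℝ V x x = ∑ j, x j • fderiv ℝ V x (EuclideanSpace.single j 1) := by
        have h4 := congrArg (fderiv ℝ V x) hsum
        rw [map_sum] at h4
        rw [h4]
        refine Finset.sum_congr rfl fun j _ => ?_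
        rw [map_smul]
      rw [h3, inner_sum]
      refine Finset.sum_congr rfl fun j _ => ?_
      rw [inner_smul_right]
    rw [vecMul_sub, vecMul_one, vecMul_vecMulVec, Pi.sub_apply, Pi.smul_apply, smul_eq_mul, Pi.zero_apply]
    have h5 : (fun j => inner ℝ (V x) (fderiv ℝ V x (EuclideanSpace.single j 1))) ⬝ᵥ x.ofLp =
        inner ℝ (V x) (fderiv ℝ V x x) := by
      rw [h2]
      simp only [dotProduct]
      exact Finset.sum_congr rfl fun j _ => mul_comm _ _
    rw [h5]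
    linarith

/-- joint continuity of the integrand -/
theorem JJ_cont {D : ℕ} {V : E D → E D} (hV : UT V) :
    Continuous (fun p : E D × E D => JJ p.1.ofLp (V p.1).ofLp (Bm V p.1) p.2.ofLp) := by
  have hVc : Continuous V := hV.sm.continuous
  have hD : Continuous (fun x => fderiv ℝ V x) := hV.sm.continuous_fderiv (by simp)
  have h1 : Continuous (fun p : E D × E D => p.1.ofLp) := by fun_prop
  have h2 : Continuous (fun p : E D × E D => p.2.ofLp) := by fun_prop
  have h3 : Continuous (fun p : E D × E D => (V p.1).ofLp) := by fun_prop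
  have hM : Continuous (fun x : E D => mat (fderiv ℝ V x)) := by
    refine continuous_matrix fun i j => ?_
    simp only [mat, Matrix.of_apply]
    fun_prop
  have h4 : Continuous (fun p : E D × E D => Bm V p.1) := by
    unfold Bm
    have a1 : Continuous (fun p : E D × E D => (1 - vecMulVec p.1.ofLp p.1.ofLp : Matrix (Fin D) (Fin D) ℝ)) :=
      continuous_const.sub (h1.matrix_vecMulVec h1)
    exact (a1.matrix_mul (hM.comp continuous_fst)).matrix_mul a1
  have h5 : Continuous (fun p : E D × E D => TT p.1.ofLp (V p.1).ofLp (Bm V p.1) p.2.ofLp) := by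
    unfold TT
    refine (((h1.dotProduct h2).smul h4).sub ((h4.matrix_mulVec h2).matrix_vecMulVec h1)).add ?_
    refine ((continuous_const.sub (h1.matrix_vecMulVec h1)).sub (h3.matrix_vecMulVec h3)).matrix_mul ?_
    exact (h2.matrix_vecMulVec h3).sub ((h3.dotProduct h2).smul continuous_const)
  unfold JJ
  refine Real.continuous_sqrt.comp (Continuous.matrix_det ?_)
  exact ((h5.matrix_mul h5.matrix_transpose).add (h1.matrix_vecMulVec h1)).add (h3.matrix_vecMulVec h3)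

theorem JJ_nonneg {D : ℕ} (x v : Fin D → ℝ) (B : Matrix (Fin D) (Fin D) ℝ) (f : Fin D → ℝ) : 0 ≤ JJ x v B f :=
  Real.sqrt_nonneg _



end Pool.Agent.Helper82.OS
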