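import Mathlib
import Pool.Agent.Helper82.OS.Defs
set_option autoImplicit false
open Matrix MeasureTheory Set Metric Filter Topology
open scoped ENNReal ContDiff

namespace Pool.Agent.Helper82.OS
theorem polar {k : ℕ} (hk : 1 ≤ k) (ρ : ℝ → ℝ≥0∞) (hρ : Measurable ρ) (g : E k → ℝ≥0∞) (hg : Measurable g)
    (d : ℕ) (hh : ∀ r : ℝ, 0 < r → ∀ z, g (r • z) = ENNReal.ofReal (r ^ d) * g z) :
    ∫⁻ z, ρ ‖z‖ * g z = (∫⁻ r in Ioi (0 : ℝ), ρ r * ENNReal.ofReal (r ^ (d + (k - 1)))) *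
      ∫⁻ f : sphere (0 : E k) 1, g f ∂(sg k) := by
  haveI : Nonempty (Fin k) := ⟨⟨0, by omega⟩⟩
  haveI : Nontrivial (E k) := inferInstance
  have hfr : Module.finrank ℝ (E k) = k := finrank_euclideanSpace_fin
  have hmp := Measure.measurePreserving_homeomorphUnitSphereProd (volume : Measure (E k))
  have h1 : ∫⁻ z, ρ ‖z‖ * g z = ∫⁻ z in ({0}ᶜ : Set (E k)), ρ ‖z‖ * g z := by
    rw [restrict_compl_singleton]
  have h2 : ∫⁻ z in ({0}ᶜ : Set (E k)), ρ ‖z‖ * g z =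
      ∫⁻ z : ({0}ᶜ : Set (E k)), ρ ‖(z : E k)‖ * g z ∂((volume : Measure (E k)).comap Subtype.val) :=
    (lintegral_subtype_comap (measurableSet_singleton _).compl (fun z => ρ ‖z‖ * g z)).symm
  set f : sphere (0 : E k) 1 × Ioi (0 : ℝ) → ℝ≥0∞ := fun p =>
    g p.1 * (ρ p.2 * ENNReal.ofReal ((p.2 : ℝ) ^ d)) with hf
  have hgm : Measurable (fun x : sphere (0 : E k) 1 => g x) := hg.comp measurable_subtype_coe
  have hρm : Measurable (fun r : Ioi (0 : ℝ) => ρ r * ENNReal.ofReal ((r : ℝ) ^ d)) := by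
    have h5 : Measurable (fun r : ℝ => ρ r * ENNReal.ofReal (r ^ d)) := by fun_prop
    exact h5.comp measurable_subtype_coe
  have hfm : Measurable f := (hgm.comp measurable_fst).mul (hρm.comp measurable_snd)
  have h3 : ∫⁻ z : ({0}ᶜ : Set (E k)), ρ ‖(z : E k)‖ * g z ∂((volume : Measure (E k)).comap Subtype.val) =
      ∫⁻ z : ({0}ᶜ : Set (E k)), f (homeomorphUnitSphereProd (E k) z) ∂((volume : Measure (E k)).comap Subtype.val) := by
    refine lintegral_congr fun z => ?_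
    have hz : (z : E k) ≠ 0 := z.2
    have hn : 0 < ‖(z : E k)‖ := norm_pos_iff.mpr hz
    have e1 : ((homeomorphUnitSphereProd (E k) z).2 : ℝ) = ‖(z : E k)‖ := by simp
    have e2 : ((homeomorphUnitSphereProd (E k) z).1 : E k) = ‖(z : E k)‖⁻¹ • (z : E k) := by simp
    simp only [hf]
    rw [e1, e2]
    have e3 : g z = ENNReal.ofReal (‖(z : E k)‖ ^ d) * g (‖(z : E k)‖⁻¹ • (z : E k)) := by
      rw [← hh _ hn, smul_smul, mul_inv_cancel₀ hn.ne', one_smul]
    rw [e3]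
    ring
  have h4 := hmp.lintegral_comp hfm
  rw [h1, h2, h3, h4, hf, lintegral_prod_mul hgm.aemeasurable hρm.aemeasurable, mul_comm]
  congr 1
  rw [hfr, Measure.volumeIoiPow, lintegral_withDensity_eq_lintegral_mul _ (by fun_prop) hρm]
  rw [← lintegral_subtype_comap measurableSet_Ioi]
  refine lintegral_congr fun r => ?_
  simp only [Pi.mul_apply]
  have hr : 0 ≤ (r : ℝ) := le_of_lt r.2
  rw [pow_add, ENNReal.ofReal_mul (by positivity)]
  ring



end Pool.Agent.Helper82.OS
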