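import Mathlib
import Pool.Agent.Helper82.OS.Defs
import Pool.Agent.Helper82.OS.D0
import Pool.Agent.Helper82.OS.polar
set_option autoImplicit false
open Matrix MeasureTheory Set Metric Filter Topology
open scoped ENNReal ContDiff

namespace Pool.Agent.Helper82.OS
/-- half line moments -/
noncomputable def JJ_K0x (a : ℕ) : ℝ≥0∞ :=
  ∫⁻ r in Ioi (0 : ℝ), ENNReal.ofReal (Real.exp (-(1 / 2) * r ^ 2)) * ENNReal.ofReal (r ^ a)

/-- their values -/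
noncomputable def jr_K0x (a : ℕ) : ℝ :=
  (1 / 2 : ℝ) ^ (-((a : ℝ) + 1) / 2) * (1 / 2) * Real.Gamma (((a : ℝ) + 1) / 2)

theorem jr_pos_K0x (a : ℕ) : 0 < jr_K0x a := by
  unfold jr_K0x
  have h : 0 < Real.Gamma (((a : ℝ) + 1) / 2) := Real.Gamma_pos_of_pos (by positivity)
  positivity

theorem JJ_eq_K0x (a : ℕ) : JJ_K0x a = ENNReal.ofReal (jr_K0x a) := by
  have ha : (-1 : ℝ) < (a : ℝ) := by
    have : (0 : ℝ) ≤ a := Nat.cast_nonneg a
    linarith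
  have h1 := integral_rpow_mul_exp_neg_mul_rpow (p := 2) (q := a) (b := 1 / 2) (by norm_num) ha
    (by norm_num)
  have h2 : IntegrableOn (fun x : ℝ => x ^ (a : ℝ) * Real.exp (-(1 / 2) * x ^ (2 : ℝ))) (Ioi 0) :=
    integrableOn_rpow_mul_exp_neg_mul_rpow ha (by norm_num) (by norm_num)
  unfold jr_K0x
  rw [← h1, ofReal_integral_eq_lintegral_ofReal h2]
  · unfold JJ_K0x
    refine setLIntegral_congr_fun measurableSet_Ioi (fun r hr => ?_)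
    have hr' : (0 : ℝ) < r := hr
    rw [← ENNReal.ofReal_mul (Real.exp_pos _).le, mul_comm, Real.rpow_natCast, Real.rpow_two]
  · refine (ae_restrict_iff' measurableSet_Ioi).2 (Filter.Eventually.of_forall fun r hr => ?_)
    have hr' : (0 : ℝ) < r := hr
    simp only [Pi.zero_apply]
    positivity

theorem line_eq_K0x (F : ℝ → ℝ≥0∞) (hF : Measurable F) :
    ∫⁻ s, F |s| = 2 * ∫⁻ r in Ioi (0 : ℝ), F r := by
  have h1 : ∫⁻ s, F |s| = (∫⁻ s in Ioi (0 : ℝ), F |s|) + ∫⁻ s in (Ioi (0 : ℝ))ᶜ, F |s| :=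
    (lintegral_add_compl _ measurableSet_Ioi).symm
  have h2 : ∫⁻ s in Ioi (0 : ℝ), F |s| = ∫⁻ s in Ioi (0 : ℝ), F s :=
    setLIntegral_congr_fun measurableSet_Ioi (fun s hs => by
      rw [abs_of_pos hs])
  have h3 : ∫⁻ s in (Ioi (0 : ℝ))ᶜ, F |s| = ∫⁻ s in Ioi (0 : ℝ), F s := by
    rw [compl_Ioi, ← setLIntegral_congr (Iio_ae_eq_Iic (a := (0 : ℝ)) (μ := volume))]
    have h4 := (Measure.measurePreserving_neg (volume : Measure ℝ)).setLIntegral_comp_preimage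
      (s := Iio 0) measurableSet_Iio (f := fun s => F |s|) (hF.comp measurable_abs)
    rw [← h4]
    have h5 : (Neg.neg : ℝ → ℝ) ⁻¹' Iio 0 = Ioi 0 := by
      ext x; simp
    rw [h5]
    exact setLIntegral_congr_fun measurableSet_Ioi (fun s hs => by
      rw [abs_neg, abs_of_pos hs])
  rw [h1, h2, h3, two_mul]

theorem gauss_eq_K0x {N : ℕ} (w : E (N + 1)) (hw : ‖w‖ = 1) (a : ℕ) :
    ∫⁻ z : E (N + 1), ENNReal.ofReal (Real.exp (-(1 / 2) * ‖z‖ ^ 2)) *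
      ENNReal.ofReal (|inner ℝ w z| ^ a) =
    (2 * JJ_K0x a) * ∫⁻ y : E N, ENNReal.ofReal (Real.exp (-(1 / 2) * ‖y‖ ^ 2)) := by
  obtain ⟨ι, h1, -, h3⟩ := D0 w hw
  have hm : Measurable (fun z : E (N + 1) => ENNReal.ofReal (Real.exp (-(1 / 2) * ‖z‖ ^ 2)) *
      ENNReal.ofReal (|inner ℝ w z| ^ a)) := by
    have c1 : Continuous (fun z : E (N + 1) => Real.exp (-(1 / 2) * ‖z‖ ^ 2)) := by fun_prop
    have c2 : Continuous (fun z : E (N + 1) => |inner ℝ w z| ^ a) := by fun_prop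
    exact c1.measurable.ennreal_ofReal.mul c2.measurable.ennreal_ofReal
  rw [← h3.lintegral_comp hm]
  have e : ∀ p : ℝ × E N, ENNReal.ofReal (Real.exp (-(1 / 2) * ‖p.1 • w + ι p.2‖ ^ 2)) *
      ENNReal.ofReal (|inner ℝ w (p.1 • w + ι p.2)| ^ a) =
      (ENNReal.ofReal (Real.exp (-(1 / 2) * |p.1| ^ 2)) * ENNReal.ofReal (|p.1| ^ a)) *
        ENNReal.ofReal (Real.exp (-(1 / 2) * ‖p.2‖ ^ 2)) := by
    rintro ⟨s, y⟩
    simp only
    have e1 : inner ℝ w (s • w + ι y) = s := by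
      rw [inner_add_right, h1, add_zero, real_inner_smul_right, real_inner_self_eq_norm_sq, hw]
      ring
    have e2 : ‖s • w + ι y‖ ^ 2 = |s| ^ 2 + ‖y‖ ^ 2 := by
      rw [norm_add_sq_real, real_inner_smul_left, h1, norm_smul, hw, ι.norm_map,
        Real.norm_eq_abs]
      ring
    rw [e1, e2, mul_add, Real.exp_add, ENNReal.ofReal_mul (Real.exp_pos _).le]
    ring
  simp_rw [e]
  have c1 : Continuous (fun s : ℝ => Real.exp (-(1 / 2) * s ^ 2)) := by fun_prop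
  have c2 : Continuous (fun s : ℝ => s ^ a) := by fun_prop
  have c3 : Continuous (fun y : E N => Real.exp (-(1 / 2) * ‖y‖ ^ 2)) := by fun_prop
  have hF : Measurable (fun s : ℝ => ENNReal.ofReal (Real.exp (-(1 / 2) * s ^ 2)) *
      ENNReal.ofReal (s ^ a)) := c1.measurable.ennreal_ofReal.mul c2.measurable.ennreal_ofReal
  rw [lintegral_prod_mul (f := fun s : ℝ => ENNReal.ofReal (Real.exp (-(1 / 2) * |s| ^ 2)) *
      ENNReal.ofReal (|s| ^ a)) (g := fun y : E N => ENNReal.ofReal (Real.exp (-(1 / 2) * ‖y‖ ^ 2)))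
      (hF.comp measurable_abs).aemeasurable c3.measurable.ennreal_ofReal.aemeasurable]
  congr 1
  exact line_eq_K0x _ hF

theorem gauss_pos_K0x (N : ℕ) : (∫⁻ y : E N, ENNReal.ofReal (Real.exp (-(1 / 2) * ‖y‖ ^ 2))) ≠ 0 ∧
    (∫⁻ y : E N, ENNReal.ofReal (Real.exp (-(1 / 2) * ‖y‖ ^ 2))) ≠ (⊤ : ℝ≥0∞) := by
  have h1 := GaussianFourier.integral_rexp_neg_mul_sq_norm (V := E N) (b := 1 / 2) (by norm_num)
  have hpos : 0 < ∫ v : E N, Real.exp (-(1 / 2) * ‖v‖ ^ 2) := by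
    rw [h1]; positivity
  have hint : Integrable (fun v : E N => Real.exp (-(1 / 2) * ‖v‖ ^ 2)) := by
    by_contra h
    rw [integral_undef h] at hpos
    exact lt_irrefl _ hpos
  rw [← ofReal_integral_eq_lintegral_ofReal hint
    (Filter.Eventually.of_forall fun _ => (Real.exp_pos _).le)]
  exact ⟨by rw [Ne, ENNReal.ofReal_eq_zero, not_le]; exact hpos, ENNReal.ofReal_ne_top⟩

theorem jr_id_K0x {N : ℕ} (hN : 1 ≤ N) :
    jr_K0x (N - 1) * jr_K0x N = jr_K0x ((N - 1) + N) * jr_K0x 0 * (2 / 2 ^ N) := by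
  have hN1 : ((N - 1 : ℕ) : ℝ) = (N : ℝ) - 1 := by push_cast [Nat.cast_sub hN]; ring
  unfold jr_K0x
  push_cast
  rw [hN1]
  have e1 : ((N : ℝ) - 1 + 1) / 2 = (N : ℝ) / 2 := by ring
  have e2 : ((N : ℝ) + 1) / 2 = (N : ℝ) / 2 + 1 / 2 := by ring
  have e3 : ((N : ℝ) - 1 + N + 1) / 2 = N := by ring
  have e4 : ((0 : ℝ) + 1) / 2 = 1 / 2 := by ring
  have f1 : -((N : ℝ) - 1 + 1) / 2 = -(N : ℝ) / 2 := by ring
  have f2 : -((N : ℝ) + 1) / 2 = -(N : ℝ) / 2 + -(1 / 2) := by ring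
  have f3 : -((N : ℝ) - 1 + N + 1) / 2 = -(N : ℝ) / 2 + -(N : ℝ) / 2 := by ring
  have f4 : -((0 : ℝ) + 1) / 2 = -(1 / 2) := by ring
  rw [e1, e2, e3, e4, f1, f2, f3, f4, Real.rpow_add (by norm_num), Real.rpow_add (by norm_num),
    Real.Gamma_one_half_eq]
  have hG := Real.Gamma_mul_Gamma_add_half ((N : ℝ) / 2)
  have g1 : 2 * ((N : ℝ) / 2) = N := by ring
  rw [g1] at hG
  have g2 : (2 : ℝ) ^ (1 - (N : ℝ)) = 2 / 2 ^ N := by
    rw [Real.rpow_sub (by norm_num), Real.rpow_one, Real.rpow_natCast]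
  rw [g2] at hG
  generalize ((1 / 2 : ℝ) ^ (-(N : ℝ) / 2)) = P
  generalize ((1 / 2 : ℝ) ^ (-(1 / 2 : ℝ))) = R
  calc P * (1 / 2) * Real.Gamma ((N : ℝ) / 2) * (P * R * (1 / 2) * Real.Gamma ((N : ℝ) / 2 + 1 / 2))
      = P * P * R * (1 / 4) * (Real.Gamma ((N : ℝ) / 2) * Real.Gamma ((N : ℝ) / 2 + 1 / 2)) := by
        ring
    _ = P * P * R * (1 / 4) * (Real.Gamma N * (2 / 2 ^ N) * √Real.pi) := by rw [hG]
    _ = _ := by ring

theorem K0 {N : ℕ} (hN : Even N) (hN2 : 2 ≤ N) (w : E (N + 1)) (hw : ‖w‖ = 1) :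
    ∫⁻ f : sphere (0 : E (N + 1)) 1, ENNReal.ofReal (|inner ℝ w (f : E (N + 1))| ^ (N - 1)) ∂(sg (N + 1))
      = ENNReal.ofReal (2 / 2 ^ N) * sg (N + 1) univ := by
  have hN1 : 1 ≤ N := by omega
  set I1 := ∫⁻ f : sphere (0 : E (N + 1)) 1,
    ENNReal.ofReal (|inner ℝ w (f : E (N + 1))| ^ (N - 1)) ∂(sg (N + 1)) with hI1
  set Y := ∫⁻ y : E N, ENNReal.ofReal (Real.exp (-(1 / 2) * ‖y‖ ^ 2)) with hY
  obtain ⟨hY0, hYt⟩ := gauss_pos_K0x N
  have hρ : Measurable (fun r : ℝ => ENNReal.ofReal (Real.exp (-(1 / 2) * r ^ 2))) := by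
    have c1 : Continuous (fun r : ℝ => Real.exp (-(1 / 2) * r ^ 2)) := by fun_prop
    exact c1.measurable.ennreal_ofReal
  have hg : ∀ a : ℕ, Measurable (fun z : E (N + 1) => ENNReal.ofReal (|inner ℝ w z| ^ a)) := by
    intro a
    have c2 : Continuous (fun z : E (N + 1) => |inner ℝ w z| ^ a) := by fun_prop
    exact c2.measurable.ennreal_ofReal
  have hh : ∀ a : ℕ, ∀ r : ℝ, 0 < r → ∀ z : E (N + 1),
      ENNReal.ofReal (|inner ℝ w (r • z)| ^ a) =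
        ENNReal.ofReal (r ^ a) * ENNReal.ofReal (|inner ℝ w z| ^ a) := by
    intro a r hr z
    rw [real_inner_smul_right, abs_mul, abs_of_pos hr, mul_pow, ENNReal.ofReal_mul (by positivity)]
  have q1 := polar (k := N + 1) (by omega) _ hρ _ (hg (N - 1)) (N - 1) (hh (N - 1))
  have q2 := polar (k := N + 1) (by omega) _ hρ _ (hg 0) 0 (hh 0)
  rw [gauss_eq_K0x w hw (N - 1), ← hY, ← hI1, Nat.add_sub_cancel] at q1
  rw [gauss_eq_K0x w hw 0, ← hY, Nat.add_sub_cancel, zero_add] at q2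
  have q3 : ∫⁻ f : sphere (0 : E (N + 1)) 1,
      ENNReal.ofReal (|inner ℝ w (f : E (N + 1))| ^ 0) ∂(sg (N + 1)) = sg (N + 1) univ := by
    simp
  rw [q3] at q2
  have q1' : 2 * JJ_K0x (N - 1) * Y = JJ_K0x ((N - 1) + N) * I1 := q1
  have q2' : 2 * JJ_K0x 0 * Y = JJ_K0x N * sg (N + 1) univ := q2
  have hJ0 : ∀ a, JJ_K0x a ≠ 0 := fun a => by
    rw [JJ_eq_K0x, Ne, ENNReal.ofReal_eq_zero, not_le]; exact jr_pos_K0x a
  have hJt : ∀ a, JJ_K0x a ≠ (⊤ : ℝ≥0∞) := fun a => by rw [JJ_eq_K0x]; exact ENNReal.ofReal_ne_top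
  have hid : JJ_K0x (N - 1) * JJ_K0x N = JJ_K0x ((N - 1) + N) * JJ_K0x 0 * ENNReal.ofReal (2 / 2 ^ N) := by
    rw [JJ_eq_K0x, JJ_eq_K0x, JJ_eq_K0x, JJ_eq_K0x, ← ENNReal.ofReal_mul (jr_pos_K0x _).le,
      ← ENNReal.ofReal_mul (jr_pos_K0x _).le, ← ENNReal.ofReal_mul (by
        have := jr_pos_K0x (N - 1 + N); have := jr_pos_K0x 0; positivity), jr_id_K0x hN1]
  rw [← ENNReal.mul_right_inj (hJ0 ((N - 1) + N)) (hJt _), ← ENNReal.mul_right_inj (hJ0 N) (hJt _)]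
  calc JJ_K0x N * (JJ_K0x ((N - 1) + N) * I1) = JJ_K0x N * (2 * JJ_K0x (N - 1) * Y) := by rw [q1']
    _ = 2 * (JJ_K0x (N - 1) * JJ_K0x N) * Y := by ring
    _ = 2 * (JJ_K0x ((N - 1) + N) * JJ_K0x 0 * ENNReal.ofReal (2 / 2 ^ N)) * Y := by rw [hid]
    _ = JJ_K0x ((N - 1) + N) * ENNReal.ofReal (2 / 2 ^ N) * (2 * JJ_K0x 0 * Y) := by ring
    _ = JJ_K0x ((N - 1) + N) * ENNReal.ofReal (2 / 2 ^ N) * (JJ_K0x N * sg (N + 1) univ) := by rw [q2']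
    _ = _ := by ring



end Pool.Agent.Helper82.OS
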