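import Mathlib
import Pool.Agent.Helper82.OS.Defs
set_option autoImplicit false
open Matrix MeasureTheory Set Metric Filter Topology
open scoped ENNReal ContDiff

namespace Pool.Agent.Helper82.OS





theorem bdry_det_rank_one_bdry_detx {n : ℕ} (M : Matrix (Fin n) (Fin n) ℝ) (U c : Fin n → ℝ) :
    (M + vecMulVec U c).det = M.det + c ⬝ᵥ (M.adjugate *ᵥ U) := by
  have hinv : ∀ B : Matrix (Fin n) (Fin n) ℝ, B.det ≠ 0 →
      (B + vecMulVec U c).det = B.det + c ⬝ᵥ (B.adjugate *ᵥ U) := by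
    intro B hB
    have h1 : B + vecMulVec U c = B * (1 + vecMulVec (B⁻¹ *ᵥ U) c) := by
      rw [Matrix.mul_add, Matrix.mul_one, Matrix.mul_vecMulVec, Matrix.mulVec_mulVec,
        Matrix.mul_nonsing_inv _ (isUnit_iff_ne_zero.mpr hB), Matrix.one_mulVec]
    rw [h1, Matrix.det_mul, vecMulVec_eq Unit, det_one_add_replicateCol_mul_replicateRow,
      Matrix.inv_def, Ring.inverse_eq_inv', Matrix.smul_mulVec, dotProduct_smul, smul_eq_mul]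
    field_simp
  have hc1 : Continuous fun ε : ℝ => ((M + ε • (1 : Matrix (Fin n) (Fin n) ℝ)) +
      vecMulVec U c).det :=
    Continuous.matrix_det (by fun_prop)
  have hc2 : Continuous fun ε : ℝ => (M + ε • (1 : Matrix (Fin n) (Fin n) ℝ)).det +
      c ⬝ᵥ ((M + ε • (1 : Matrix (Fin n) (Fin n) ℝ)).adjugate *ᵥ U) := by
    have h2 : Continuous fun ε : ℝ => (M + ε • (1 : Matrix (Fin n) (Fin n) ℝ)) := by fun_prop
    exact h2.matrix_det.add (continuous_const.dotProduct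
      (h2.matrix_adjugate.matrix_mulVec continuous_const))
  have hdense : Dense {ε : ℝ | (M + ε • (1 : Matrix (Fin n) (Fin n) ℝ)).det ≠ 0} := by
    have h3 : {ε : ℝ | (M + ε • (1 : Matrix (Fin n) (Fin n) ℝ)).det ≠ 0} =
        ({ε : ℝ | ((-M).charpoly).IsRoot ε})ᶜ := by
      ext ε
      simp only [Set.mem_setOf_eq, Set.mem_compl_iff, Polynomial.IsRoot.def, Matrix.eval_charpoly,
        ne_eq]
      rw [show (Matrix.scalar (Fin n) ε - -M) = M + ε • (1 : Matrix (Fin n) (Fin n) ℝ) by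
        rw [sub_neg_eq_add, add_comm, Matrix.scalar_apply, ← Matrix.smul_one_eq_diagonal]]
    rw [h3]
    refine Set.Countable.dense_compl ℝ ?_
    refine Set.Finite.countable ?_
    exact Polynomial.finite_setOf_isRoot (Matrix.charpoly_monic _).ne_zero
  have heq := Continuous.ext_on hdense hc1 hc2 (fun ε hε => hinv _ hε)
  have h4 := congrFun heq 0
  simpa using h4

theorem bdry_det {N : ℕ} (hN : Even N) (hN2 : 2 ≤ N) (A : Matrix (Fin (N + 2)) (Fin (N + 2)) ℝ)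
    (c v U z : Fin (N + 2) → ℝ)
    (cc : c ⬝ᵥ c = 1) (vv : v ⬝ᵥ v = 1) (cv : c ⬝ᵥ v = 0) (cz : c ⬝ᵥ z = 0) (hz0 : z ≠ 0)
    (hUdef : U = v - (2 * (z ⬝ᵥ v) / (z ⬝ᵥ z)) • z)
    (hc : c ᵥ* A = 0) (hU : U ᵥ* A = 0)
    (hA : ∀ h : Fin (N + 2) → ℝ, c ⬝ᵥ h = 0 → A *ᵥ h = -(2 / (z ⬝ᵥ z)) •
      ((h ⬝ᵥ v) • z + (z ⬝ᵥ v) • h - (2 * (z ⬝ᵥ h) * (z ⬝ᵥ v) / (z ⬝ᵥ z)) • z)) :
    c ⬝ᵥ ((A + vecMulVec c z).adjugate *ᵥ U) = 2 ^ N * (z ⬝ᵥ v) ^ (N - 1) / (z ⬝ᵥ z) ^ (N - 1) := by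
  have hs : z ⬝ᵥ z ≠ 0 := fun h => hz0 (dotProduct_self_eq_zero.mp h)
  obtain ⟨s, hsdef⟩ : ∃ s : ℝ, s = z ⬝ᵥ z := ⟨_, rfl⟩
  obtain ⟨τ, hτ⟩ : ∃ τ : ℝ, τ = (z ⬝ᵥ v) / (z ⬝ᵥ z) := ⟨_, rfl⟩
  obtain ⟨w, hw⟩ : ∃ w : Fin (N + 2) → ℝ, w = A *ᵥ c := ⟨_, rfl⟩
  have hs' : s ≠ 0 := by rw [hsdef]; exact hs
  have hzv : z ⬝ᵥ v = τ * s := by rw [hτ, hsdef]; field_simp
  have hvz : v ⬝ᵥ z = τ * s := by rw [dotProduct_comm, hzv]
  have zc : z ⬝ᵥ c = 0 := by rw [dotProduct_comm, cz]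
  have vc : v ⬝ᵥ c = 0 := by rw [dotProduct_comm, cv]
  have hU1 : U = v - (2 * τ) • z := by
    rw [hUdef, hτ, mul_div_assoc]
  have cU : c ⬝ᵥ U = 0 := by
    rw [hU1, dotProduct_sub, dotProduct_smul, cv, cz]
    simp
  have Uc : U ⬝ᵥ c = 0 := by rw [dotProduct_comm, cU]
  have zU : z ⬝ᵥ U = -(τ * s) := by
    rw [hU1, dotProduct_sub, dotProduct_smul, hzv, ← hsdef, smul_eq_mul]
    ring
  have Uz : U ⬝ᵥ z = -(τ * s) := by rw [dotProduct_comm, zU]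
  have UU : U ⬝ᵥ U = 1 := by
    have h1 : v ⬝ᵥ U = 1 - 2 * τ * (τ * s) := by
      rw [hU1, dotProduct_sub, dotProduct_smul, vv, hvz, smul_eq_mul]
    nth_rewrite 1 [hU1]
    rw [sub_dotProduct, smul_dotProduct, h1, zU, smul_eq_mul]
    ring
  have cw : c ⬝ᵥ w = 0 := by
    rw [hw, dotProduct_mulVec, hc, zero_dotProduct]
  have Uw : U ⬝ᵥ w = 0 := by
    rw [hw, dotProduct_mulVec, hU, zero_dotProduct]
  -- det M = 0
  have hUne : U ≠ 0 := by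
    intro h
    rw [h, zero_dotProduct] at UU
    exact zero_ne_one UU
  have hM0 : (A + vecMulVec c z).det = 0 := by
    rw [← Matrix.exists_vecMul_eq_zero_iff]
    refine ⟨U, hUne, ?_⟩
    rw [Matrix.vecMul_add, hU, Matrix.vecMul_vecMulVec, Uc, zero_smul, add_zero]
  have hkey := bdry_det_rank_one_bdry_detx (A + vecMulVec c z) U c
  rw [hM0, zero_add] at hkey
  rw [← hkey]
  -- explicit form of T
  obtain ⟨a, ha⟩ : ∃ a : Fin (N + 2) → ℝ, a = (2 * τ) • c + U + w := ⟨_, rfl⟩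
  obtain ⟨p, hp⟩ : ∃ p : Fin (N + 2) → ℝ, p = (-(2 / s)) • z := ⟨_, rfl⟩
  have hT : A + vecMulVec c z + vecMulVec U c = -((2 * τ) • (1 : Matrix (Fin (N + 2)) (Fin (N + 2)) ℝ)
      - (vecMulVec a c + vecMulVec c z + vecMulVec p U)) := by
    apply Matrix.mulVec_injective
    funext h
    have hdec : h = (c ⬝ᵥ h) • c + (h - (c ⬝ᵥ h) • c) := by abel
    have hperp : c ⬝ᵥ (h - (c ⬝ᵥ h) • c) = 0 := by
      rw [dotProduct_sub, dotProduct_smul, cc, smul_eq_mul, mul_one, sub_self]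
    have hAh : A *ᵥ h = (c ⬝ᵥ h) • w + -(2 / (z ⬝ᵥ z)) •
        ((h ⬝ᵥ v) • z + (z ⬝ᵥ v) • (h - (c ⬝ᵥ h) • c) -
          (2 * (z ⬝ᵥ h) * (z ⬝ᵥ v) / (z ⬝ᵥ z)) • z) := by
      have h1 := hA _ hperp
      have h2 : (h - (c ⬝ᵥ h) • c) ⬝ᵥ v = h ⬝ᵥ v := by
        rw [sub_dotProduct, smul_dotProduct, cv, smul_zero, sub_zero]
      have h3 : z ⬝ᵥ (h - (c ⬝ᵥ h) • c) = z ⬝ᵥ h := by
        rw [dotProduct_sub, dotProduct_smul, zc, smul_zero, sub_zero]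
      rw [h2, h3] at h1
      rw [← h1, hw]
      conv_lhs => rw [hdec]
      rw [Matrix.mulVec_add, Matrix.mulVec_smul]
    have hUh : U ⬝ᵥ h = h ⬝ᵥ v - 2 * τ * (z ⬝ᵥ h) := by
      rw [hU1, sub_dotProduct, smul_dotProduct, smul_eq_mul, dotProduct_comm v h]
    rw [Matrix.add_mulVec, Matrix.add_mulVec, hAh, Matrix.vecMulVec_mulVec,
      Matrix.vecMulVec_mulVec, Matrix.neg_mulVec, Matrix.sub_mulVec, Matrix.smul_mulVec,
      Matrix.one_mulVec, Matrix.add_mulVec, Matrix.add_mulVec, Matrix.vecMulVec_mulVec,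
      Matrix.vecMulVec_mulVec, Matrix.vecMulVec_mulVec, hUh]
    funext i
    simp only [Pi.add_apply, Pi.smul_apply, Pi.sub_apply, Pi.neg_apply, smul_eq_mul, ha, hp,
      MulOpposite.smul_eq_mul_unop, MulOpposite.unop_op]
    rw [hzv, ← hsdef]
    field_simp
    ring
  obtain ⟨P, hP⟩ : ∃ P : Matrix (Fin (N + 2)) (Fin 3) ℝ, P = Matrix.of fun i => ![a i, c i, p i] :=
    ⟨_, rfl⟩
  obtain ⟨R, hR⟩ : ∃ R : Matrix (Fin 3) (Fin (N + 2)) ℝ, R = Matrix.of ![c, z, U] := ⟨_, rfl⟩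
  have hPR : P * R = vecMulVec a c + vecMulVec c z + vecMulVec p U := by
    ext i j
    rw [hP, hR]
    simp [Matrix.mul_apply, Fin.sum_univ_three, vecMulVec_apply]
  have hRP : R * P = !![c ⬝ᵥ a, c ⬝ᵥ c, c ⬝ᵥ p; z ⬝ᵥ a, z ⬝ᵥ c, z ⬝ᵥ p; U ⬝ᵥ a, U ⬝ᵥ c, U ⬝ᵥ p] := by
    ext i j
    rw [hP, hR]
    fin_cases i <;> fin_cases j <;> simp [Matrix.mul_apply, dotProduct]
  rw [hT, Matrix.det_neg, ← hPR]
  have hch := Matrix.charpoly_mul_comm_of_le P R (by simp; omega)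
  have hev := congrArg (Polynomial.eval (2 * τ)) hch
  rw [Polynomial.eval_mul, Matrix.eval_charpoly, Matrix.eval_charpoly, Polynomial.eval_pow,
    Polynomial.eval_X, Matrix.scalar_apply, Matrix.scalar_apply, ← Matrix.smul_one_eq_diagonal,
    ← Matrix.smul_one_eq_diagonal] at hev
  rw [hev, hRP]
  have ca : c ⬝ᵥ a = 2 * τ := by
    rw [ha, dotProduct_add, dotProduct_add, dotProduct_smul, cc, cU, cw, smul_eq_mul]
    ring
  have Ua : U ⬝ᵥ a = 1 := by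
    rw [ha, dotProduct_add, dotProduct_add, dotProduct_smul, Uc, UU, Uw, smul_eq_mul]
    ring
  have cp : c ⬝ᵥ p = 0 := by
    rw [hp, dotProduct_smul, cz, smul_zero]
  have zp : z ⬝ᵥ p = -2 := by
    rw [hp, dotProduct_smul, ← hsdef, smul_eq_mul]
    field_simp
  have Up : U ⬝ᵥ p = 2 * τ := by
    rw [hp, dotProduct_smul, Uz, smul_eq_mul]
    field_simp
  rw [ca, cc, cp, zc, zp, Ua, Uc, Up]
  have hdet3 : ((2 * τ) • (1 : Matrix (Fin 3) (Fin 3) ℝ) -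
      !![2 * τ, 1, 0; z ⬝ᵥ a, 0, -2; 1, 0, 2 * τ]).det = 2 := by
    rw [Matrix.det_fin_three]
    simp
  rw [hdet3]
  simp only [Fintype.card_fin]
  have hN3 : N + 2 - 3 = N - 1 := by omega
  rw [hN3, Even.neg_one_pow (by simpa using hN.add (by norm_num : Even 2)), one_mul, hτ, mul_pow,
    div_pow]
  obtain ⟨k, rfl⟩ : ∃ k, N = k + 1 := ⟨N - 1, by omega⟩
  rw [Nat.add_sub_cancel, pow_succ]
  ring



end Pool.Agent.Helper82.OS
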