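import Mathlib
import Pool.Agent.Helper82.OS.Defs
import Pool.Agent.Helper82.OS.UU_basic
import Pool.Agent.Helper82.OS.UU_kernel
import Pool.Agent.Helper82.OS.bdry_det
set_option autoImplicit false
open Matrix MeasureTheory Set Metric Filter Topology
open scoped ENNReal ContDiff

namespace Pool.Agent.Helper82.OS
theorem bdry_inner_bdry_xix {D : ℕ} (x y : E D) : inner ℝ x y = x.ofLp ⬝ᵥ y.ofLp := by
  rw [PiLp.inner_apply]
  unfold dotProduct
  refine Finset.sum_congr rfl fun i _ => ?_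
  rw [real_inner_eq_re_inner, RCLike.inner_apply]
  simp [mul_comm]

theorem bdry_U {D : ℕ} (V : E D → E D) {c : E D} (hc : ‖c‖ = 1) {z : E D} (hz : z ≠ 0)
    (hcz : inner ℝ c z = 0) :
    UU V c z = V (-c) - (2 * inner ℝ z (V (-c)) / ‖z‖ ^ 2) • z := by
  have h1 : sm z c = -c := by
    unfold sm
    rw [real_inner_comm, hcz, mul_zero, zero_div, zero_smul, zero_sub]
  unfold UU
  rw [h1]
  unfold sm
  rw [neg_sub]

theorem bdry_A {D : ℕ} {V : E D → E D} (hV : UT V) {c : E D} (hc : ‖c‖ = 1) {z : E D} (hz : z ≠ 0)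
    (hcz : inner ℝ c z = 0) (h : E D) (hh : inner ℝ c h = 0) :
    fderiv ℝ (UU V c) z h = -((2 / ‖z‖ ^ 2) • ((inner ℝ h (V (-c))) • z + (inner ℝ z (V (-c))) • h
      - (2 * inner ℝ z h * inner ℝ z (V (-c)) / ‖z‖ ^ 2) • z)) := by
  obtain ⟨w, hw⟩ : ∃ w : E D, w = V (-c) := ⟨_, rfl⟩
  rw [← hw]
  have hzn : ‖z‖ ^ 2 ≠ 0 := pow_ne_zero 2 (norm_ne_zero_iff.2 hz)
  have hopen : IsOpen {z : E D | z ≠ 0} := isOpen_ne
  have hdiff : DifferentiableAt ℝ (UU V c) z :=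
    ((UU_contDiff hV c).contDiffAt (hopen.mem_nhds hz)).differentiableAt (by simp)
  have hγ : HasDerivAt (fun t : ℝ => z + t • h) h 0 := by
    have := ((hasDerivAt_id (0:ℝ)).smul_const h).const_add z
    simpa using this
  have hγ0 : z + (0:ℝ) • h = z := by simp
  have h1 : HasDerivAt (fun t : ℝ => UU V c (z + t • h)) (fderiv ℝ (UU V c) z h) 0 := by
    have hf : HasFDerivAt (UU V c) (fderiv ℝ (UU V c) z) (z + (0:ℝ) • h) := by
      rw [hγ0]
      exact hdiff.hasFDerivAt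
    have h5 := hf.comp_hasDerivAt (0:ℝ) hγ
    exact h5
  have h2 : HasDerivAt (fun t : ℝ => w - (2 * inner ℝ (z + t • h) w / ‖z + t • h‖ ^ 2) • (z + t • h))
      (-(((2 * inner ℝ h w * ‖z‖ ^ 2 - 2 * inner ℝ z w * (2 * inner ℝ z h)) / (‖z‖ ^ 2) ^ 2) • z +
        (2 * inner ℝ z w / ‖z‖ ^ 2) • h)) 0 := by
    have ha : HasDerivAt (fun t : ℝ => 2 * inner ℝ (z + t • h) w) (2 * inner ℝ h w) 0 := by
      have h3 := (hγ.inner ℝ (hasDerivAt_const (0:ℝ) w)).const_mul 2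
      simpa using h3
    have hb : HasDerivAt (fun t : ℝ => ‖z + t • h‖ ^ 2) (2 * inner ℝ z h) 0 := by
      have h3 := hγ.norm_sq
      simpa using h3
    have hq := ha.div hb (by rw [hγ0]; exact hzn)
    have hr := (hq.smul hγ).const_sub w
    rw [hγ0] at hr
    rw [add_comm (((2 * inner ℝ h w * ‖z‖ ^ 2 - 2 * inner ℝ z w * (2 * inner ℝ z h)) /
      (‖z‖ ^ 2) ^ 2) • z)]
    have e0 : ((fun t : ℝ => 2 * inner ℝ (z + t • h) w) / (fun t : ℝ => ‖z + t • h‖ ^ 2)) 0 =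
        2 * inner ℝ z w / ‖z‖ ^ 2 := by
      show 2 * inner ℝ (z + (0:ℝ) • h) w / ‖z + (0:ℝ) • h‖ ^ 2 = _
      rw [hγ0]
    rw [e0] at hr
    exact hr
  have h3 : (fun t : ℝ => UU V c (z + t • h)) =ᶠ[𝓝 0]
      fun t : ℝ => w - (2 * inner ℝ (z + t • h) w / ‖z + t • h‖ ^ 2) • (z + t • h) := by
    have hcont : ContinuousAt (fun t : ℝ => z + t • h) 0 := hγ.continuousAt
    have hev : ∀ᶠ t : ℝ in 𝓝 0, z + t • h ≠ 0 := by
      apply hcont.eventually_ne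
      rw [hγ0]
      exact hz
    filter_upwards [hev] with t ht
    rw [bdry_U V hc ht (by rw [inner_add_right, inner_smul_right, hcz, hh]; simp), ← hw]
  have h4 := (h2.congr_of_eventuallyEq h3).unique h1
  rw [← h4]
  rw [smul_sub, smul_add, smul_smul, smul_smul, smul_smul]
  have e1 : (2 * inner ℝ h w * ‖z‖ ^ 2 - 2 * inner ℝ z w * (2 * inner ℝ z h)) / (‖z‖ ^ 2) ^ 2 =
      2 / ‖z‖ ^ 2 * inner ℝ h w - 2 / ‖z‖ ^ 2 * (2 * inner ℝ z h * inner ℝ z w / ‖z‖ ^ 2) := by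
    field_simp
  have e2 : 2 * inner ℝ z w / ‖z‖ ^ 2 = 2 / ‖z‖ ^ 2 * inner ℝ z w := by ring
  rw [e1, e2, sub_smul]
  abel

theorem bdry_xi {N : ℕ} (hN : Even N) (hN2 : 2 ≤ N) {V : E (N + 2) → E (N + 2)} (hV : UT V)
    {c : E (N + 2)} (hc : ‖c‖ = 1) {z : E (N + 2)} (hz : z ≠ 0) (hcz : inner ℝ c z = 0) :
    inner ℝ c (xi V c z) = 2 ^ N * (inner ℝ z (V (-c))) ^ (N - 1) / (‖z‖ ^ 2) ^ (N - 1) := by
  obtain ⟨w, hw⟩ : ∃ w : E (N + 2), w = V (-c) := ⟨_, rfl⟩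
  have hzz : z.ofLp ⬝ᵥ z.ofLp = ‖z‖ ^ 2 := by
    rw [← bdry_inner_bdry_xix, real_inner_self_eq_norm_sq]
  have hnc : ‖-c‖ = 1 := by rw [norm_neg, hc]
  have hU := bdry_U V hc hz hcz
  have key := bdry_det hN hN2 (mat (fderiv ℝ (UU V c) z)) c.ofLp w.ofLp (UU V c z).ofLp z.ofLp
    (by rw [← bdry_inner_bdry_xix, real_inner_self_eq_norm_sq, hc]; norm_num)
    (by rw [← bdry_inner_bdry_xix, real_inner_self_eq_norm_sq, hw, hV.unit _ hnc]; norm_num)
    (by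
      have h1 := hV.tan (-c) hnc
      rw [inner_neg_left, neg_eq_zero] at h1
      rw [← bdry_inner_bdry_xix, hw, h1])
    (by rw [← bdry_inner_bdry_xix, hcz])
    (by
      intro h0
      apply hz
      ext i
      exact congrFun h0 i)
    (by
      rw [hU, ← hw, ← bdry_inner_bdry_xix, hzz]
      rfl)
    (UU_kc hV hc hz) (UU_kU hV hc hz)
    (by
      intro h hh
      have h1 := mat_mulVec (fderiv ℝ (UU V c) z) (WithLp.toLp 2 h)
      have h2 := bdry_A hV hc hz hcz (WithLp.toLp 2 h) (by rw [bdry_inner_bdry_xix]; exact hh)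
      rw [h2, ← hw] at h1
      rw [bdry_inner_bdry_xix (WithLp.toLp 2 h) w, bdry_inner_bdry_xix z w, bdry_inner_bdry_xix z (WithLp.toLp 2 h)] at h1
      rw [hzz]
      rw [neg_smul]
      exact h1)
  rw [← hw, bdry_inner_bdry_xix z w, ← hzz]
  rw [bdry_inner_bdry_xix]
  exact key



end Pool.Agent.Helper82.OS
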