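import Mathlib
import Pool.Agent.Helper82.OS.Defs
import Pool.Agent.Helper82.OS.C1
import Pool.Agent.Helper82.OS.C2
import Pool.Agent.Helper82.OS.D1
import Pool.Agent.Helper82.OS.UU_basic
import Pool.Agent.Helper82.OS.bdry_xi
set_option autoImplicit false
open Matrix MeasureTheory Set Metric Filter Topology
open scoped ENNReal ContDiff

namespace Pool.Agent.Helper82.OS
/-- the angle converges to a sign at the boundary -/
theorem uu_lim {D : ℕ} {V : E D → E D} (hV : UT V) {c : E D} (hc : ‖c‖ = 1) {z : E D} (hz : z ≠ 0)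
    (hcz : inner ℝ c z = 0) (hzv : inner ℝ z (V (-c)) ≠ 0) (s : ℝ) :
    Tendsto (fun ε => uu V c ε ((ε * s) • c + z)) (𝓝[>] 0)
      (𝓝 (Real.pi / 2 * SignType.sign (inner ℝ z (V (-c))))) := by
  set t : ℝ := inner ℝ z (V (-c)) with ht
  have hzn : 0 < ‖z‖ := norm_pos_iff.mpr hz
  have hε : Tendsto (fun ε : ℝ => ε) (𝓝[>] 0) (𝓝 0) := tendsto_nhdsWithin_of_tendsto_nhds tendsto_id
  have hZ : Tendsto (fun ε : ℝ => (ε * s) • c + z) (𝓝[>] 0) (𝓝 z) := by
    have h1 : Tendsto (fun ε : ℝ => (ε * s) • c + z) (𝓝[>] 0) (𝓝 ((0 * s) • c + z)) :=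
      ((hε.mul_const s).smul_const c).add_const z
    rwa [zero_mul, zero_smul, zero_add] at h1
  have hUc : ContinuousAt (UU V c) z :=
    (UU_contDiff hV c).continuousOn.continuousAt (isOpen_ne.mem_nhds hz)
  have hU0 := bdry_U V hc hz hcz
  rw [← ht] at hU0
  have hU : Tendsto (fun ε : ℝ => V (-c) - UU V c ((ε * s) • c + z)) (𝓝[>] 0)
      (𝓝 ((2 * t / ‖z‖ ^ 2) • z)) := by
    have h1 : Tendsto (fun ε : ℝ => V (-c) - UU V c ((ε * s) • c + z)) (𝓝[>] 0)
      (𝓝 (V (-c) - UU V c z)) := (hUc.tendsto.comp hZ).const_sub _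
    rw [hU0, sub_sub_cancel] at h1
    exact h1
  have hnorm : ‖(2 * t / ‖z‖ ^ 2) • z‖ = 2 * |t| / ‖z‖ := by
    rw [norm_smul, Real.norm_eq_abs, abs_div, abs_mul, abs_two, abs_of_nonneg (sq_nonneg ‖z‖)]
    field_simp
  have ht0 : 0 < |t| := abs_pos.mpr hzv
  have hden : Tendsto (fun ε : ℝ => ‖(ε * s) • c + z‖ *
      Real.sqrt (‖V (-c) - UU V c ((ε * s) • c + z)‖ ^ 2 + ε ^ 2)) (𝓝[>] 0) (𝓝 (2 * |t|)) := by
    have h1 : Tendsto (fun ε : ℝ => ‖(ε * s) • c + z‖ *
      Real.sqrt (‖V (-c) - UU V c ((ε * s) • c + z)‖ ^ 2 + ε ^ 2)) (𝓝[>] 0)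
        (𝓝 (‖z‖ * Real.sqrt (‖(2 * t / ‖z‖ ^ 2) • z‖ ^ 2 + 0 ^ 2))) :=
      hZ.norm.mul (((hU.norm.pow 2).add (hε.pow 2)).sqrt)
    rw [hnorm] at h1
    have h2 : ‖z‖ * Real.sqrt ((2 * |t| / ‖z‖) ^ 2 + 0 ^ 2) = 2 * |t| := by
      have : (2 * |t| / ‖z‖) ^ 2 + 0 ^ 2 = (2 * |t| / ‖z‖) ^ 2 := by ring
      rw [this, Real.sqrt_sq (by positivity)]
      field_simp
    rwa [h2] at h1
  have hnum : Tendsto (fun ε : ℝ => inner ℝ ((ε * s) • c + z)
      (V (-c) - UU V c ((ε * s) • c + z))) (𝓝[>] 0) (𝓝 (2 * t)) := by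
    have h1 := hZ.inner (𝕜 := ℝ) hU
    have h2 : inner ℝ z ((2 * t / ‖z‖ ^ 2) • z) = 2 * t := by
      rw [real_inner_smul_right, real_inner_self_eq_norm_sq]
      field_simp
    rwa [h2] at h1
  have hrat := hnum.div hden (by positivity)
  have harc := (Real.continuous_arcsin.tendsto _).comp hrat
  have hval : Real.arcsin (2 * t / (2 * |t|)) = Real.pi / 2 * SignType.sign t := by
    rcases lt_or_gt_of_ne hzv with h | h
    · rw [abs_of_neg h, sign_neg h]
      have : 2 * t / (2 * -t) = -1 := by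
        field_simp
      rw [this, Real.arcsin_neg_one]
      simp
    · rw [abs_of_pos h, sign_pos h]
      have : 2 * t / (2 * t) = 1 := by
        field_simp
      rw [this, Real.arcsin_one]
      simp
  rw [hval] at harc
  exact harc

theorem Spsi {N : ℕ} (hN : Even N) (hN2 : 2 ≤ N) {V : E (N + 2) → E (N + 2)} (hV : UT V)
    {c : E (N + 2)} (hc : ‖c‖ = 1) (ψ : ℝ → ℝ)
    (hψ : ContDiff ℝ ∞ ψ) (hψ0 : ∀ t, 0 ≤ ψ t) (hψc : HasCompactSupport ψ) (hψs : tsupport ψ ⊆ Ioi 0)
    (ι : E (N + 1) →ₗᵢ[ℝ] E (N + 2)) (hι : ∀ y, inner ℝ c (ι y) = 0)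
    (hmp : MeasurePreserving (fun p : ℝ × E (N + 1) => p.1 • c + ι p.2) (volume.prod volume) volume) :
    Real.pi * ∫ y : E (N + 1), ψ (‖y‖ ^ 2) * (2 ^ N * |inner ℝ (ι y) (V (-c))| ^ (N - 1) / (‖y‖ ^ 2) ^ (N - 1))
      ≤ ∫ z, ψ (‖z‖ ^ 2) * (‖xi V c z‖ / ‖z‖) := by
  -- the function `G`
  set G : E (N + 2) → ℝ := fun z => ψ (‖z‖ ^ 2) * inner ℝ c (xi V c z) with hG
  have hψ00 : ∀ᶠ t in 𝓝 (0 : ℝ), ψ t = 0 := by
    have h1 : (0 : ℝ) ∉ tsupport ψ := fun h => lt_irrefl (0 : ℝ) (mem_Ioi.mp (hψs h))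
    exact notMem_tsupport_iff_eventuallyEq.mp h1
  have hψz : ψ 0 = 0 := hψ00.self_of_nhds
  have hnsq : Continuous (fun z : E (N + 2) => ‖z‖ ^ 2) := by fun_prop
  have hψn : ∀ᶠ z in 𝓝 (0 : E (N + 2)), ψ (‖z‖ ^ 2) = 0 := by
    have h1 : Tendsto (fun z : E (N + 2) => ‖z‖ ^ 2) (𝓝 0) (𝓝 0) := by
      have := hnsq.tendsto 0
      simpa using this
    exact h1.eventually hψ00
  -- continuity of products with functions continuous off zero
  have hcont : ∀ g : E (N + 2) → ℝ, ContinuousOn g {z | z ≠ 0} →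
      Continuous (fun z => ψ (‖z‖ ^ 2) * g z) := by
    intro g hg
    rw [continuous_iff_continuousAt]
    intro z
    by_cases hz : z = 0
    · subst hz
      have h1 : (fun z : E (N + 2) => ψ (‖z‖ ^ 2) * g z) =ᶠ[𝓝 0] fun _ => 0 := by
        filter_upwards [hψn] with z hz
        rw [hz, zero_mul]
      exact (continuousAt_congr h1).mpr continuousAt_const
    · exact ((hψ.continuous.comp hnsq).continuousAt).mul
        (hg.continuousAt (isOpen_ne.mem_nhds hz))
  have hxi : ContinuousOn (fun z => inner ℝ c (xi V c z)) {z : E (N + 2) | z ≠ 0} :=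
    continuousOn_const.inner (xi_contDiff hV c).continuousOn
  have hGc : Continuous G := hcont _ hxi
  -- radius
  obtain ⟨R, hR1, hR⟩ : ∃ R : ℝ, 1 ≤ R ∧ ∀ z : E (N + 2), R < ‖z‖ → ψ (‖z‖ ^ 2) = 0 := by
    obtain ⟨R0, hR0⟩ := hψc.isCompact.isBounded.subset_closedBall (0 : ℝ)
    refine ⟨max 1 R0, le_max_left _ _, fun z hz => ?_⟩
    apply image_eq_zero_of_notMem_tsupport
    intro h
    have h1 := hR0 h
    rw [mem_closedBall, dist_zero_right, Real.norm_eq_abs, abs_of_nonneg (sq_nonneg _)] at h1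
    have h2 : 1 < ‖z‖ := lt_of_le_of_lt (le_max_left _ _) hz
    have h3 : R0 < ‖z‖ := lt_of_le_of_lt (le_max_right _ _) hz
    nlinarith
  obtain ⟨C, hC⟩ := (isCompact_closedBall (0 : E (N + 2)) R).exists_bound_of_continuousOn
    hGc.continuousOn
  have hC' : ∀ z, |G z| ≤ max C 0 := by
    intro z
    by_cases hz : R < ‖z‖
    · have : G z = 0 := by rw [hG]; simp only [hR z hz, zero_mul]
      rw [this, abs_zero]
      exact le_max_right _ _
    · refine (hC z ?_).trans (le_max_left _ _)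
      rw [mem_closedBall, dist_zero_right]
      exact not_lt.mp hz
  -- the functions `H` and `H0`
  have hD := D1 c hc ι hι hmp (fun ε z => uu V c ε z * G z)
    (fun y => (Real.pi / 2 * SignType.sign (inner ℝ (ι y) (V (-c)))) * G (ι y))
    (Real.pi / 2 * max C 0) R ?_ ?_ ?_ ?_
  · -- passage to the limit
    have hbound : ∀ᶠ ε in 𝓝[>] (0 : ℝ), ∫ z, th' ε (inner ℝ c z) * (uu V c ε z * G z) ≤
        ∫ z, ψ (‖z‖ ^ 2) * (‖xi V c z‖ / ‖z‖) := by
      filter_upwards [self_mem_nhdsWithin] with ε hε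
      have h1 := C2 hV hc ψ hψ hψ0 hψc hψs (ε := ε) hε
      have h2 : (fun z => th' ε (inner ℝ c z) * (uu V c ε z * G z)) =
        fun z => ψ (‖z‖ ^ 2) * (th' ε (inner ℝ c z) * (uu V c ε z * inner ℝ c (xi V c z))) := by
        funext z
        rw [hG]
        ring
      rw [h2]
      exact (le_abs_self _).trans h1
    have hlim := le_of_tendsto hD hbound
    refine le_trans (le_of_eq ?_) hlim
    rw [← integral_const_mul, ← integral_const_mul]
    congr 1
    funext y
    by_cases hy : y = 0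
    · subst hy
      simp [hG, hψz]
    · have hιy : ι y ≠ 0 := by
        intro h
        apply hy
        apply ι.injective
        rw [h, map_zero]
      have hb := bdry_xi hN hN2 hV hc hιy (hι y)
      rw [hG]
      simp only
      rw [hb, ι.norm_map]
      set t : ℝ := inner ℝ (ι y) (V (-c)) with ht
      have hsg : (SignType.sign t : ℝ) * t ^ (N - 1) = |t| ^ (N - 1) := by
        have hodd : Odd (N - 1) := by
          obtain ⟨m, hm⟩ := hN
          exact ⟨m - 1, by omega⟩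
        rcases lt_trichotomy t 0 with h | h | h
        · rw [sign_neg h, abs_of_neg h, hodd.neg_pow]
          simp
        · rw [h]
          have : N - 1 ≠ 0 := by omega
          simp [this]
        · rw [sign_pos h, abs_of_pos h]
          simp
      rw [← hsg]
      ring
  · intro ε hε
    have h1 : (fun z => uu V c ε z * G z) =
        fun z => ψ (‖z‖ ^ 2) * (uu V c ε z * inner ℝ c (xi V c z)) := by
      funext z
      rw [hG]
      ring
    show Measurable (fun z => uu V c ε z * G z)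
    rw [h1]
    exact (hcont _ ((uu_smooth hV c hε).continuousOn.mul hxi)).measurable
  · intro ε hε z
    show |uu V c ε z * G z| ≤ _
    rw [abs_mul]
    exact mul_le_mul (uu_abs V c ε z) (hC' z) (abs_nonneg _) (by positivity)
  · intro ε hε z hz
    show uu V c ε z * G z = 0
    rw [hG]
    simp only [hR z hz, zero_mul, mul_zero]
  · intro s
    refine Eventually.of_forall fun y => ?_
    have hε : Tendsto (fun ε : ℝ => ε) (𝓝[>] 0) (𝓝 0) :=
      tendsto_nhdsWithin_of_tendsto_nhds tendsto_id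
    have hZ : Tendsto (fun ε : ℝ => (ε * s) • c + ι y) (𝓝[>] 0) (𝓝 (ι y)) := by
      have h1 : Tendsto (fun ε : ℝ => (ε * s) • c + ι y) (𝓝[>] 0) (𝓝 ((0 * s) • c + ι y)) :=
        ((hε.mul_const s).smul_const c).add_const (ι y)
      rwa [zero_mul, zero_smul, zero_add] at h1
    have hGl : Tendsto (fun ε : ℝ => G ((ε * s) • c + ι y)) (𝓝[>] 0) (𝓝 (G (ι y))) :=
      (hGc.tendsto _).comp hZ
    show Tendsto (fun ε => uu V c ε ((ε * s) • c + ι y) * G ((ε * s) • c + ι y)) _ _
    by_cases hGy : G (ι y) = 0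
    · show Tendsto _ _ (𝓝 ((Real.pi / 2 * SignType.sign (inner ℝ (ι y) (V (-c)))) * G (ι y)))
      rw [hGy, mul_zero]
      rw [hGy] at hGl
      apply squeeze_zero_norm (a := fun ε => Real.pi / 2 * |G ((ε * s) • c + ι y)|)
      · intro ε
        rw [norm_mul, Real.norm_eq_abs, Real.norm_eq_abs]
        exact mul_le_mul_of_nonneg_right (uu_abs V c ε _) (abs_nonneg _)
      · have := (hGl.abs).const_mul (Real.pi / 2)
        simpa using this
    · have hy : y ≠ 0 := by
        rintro rfl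
        apply hGy
        rw [hG]
        simp [hψz]
      have hιy : ι y ≠ 0 := by
        intro h
        apply hy
        apply ι.injective
        rw [h, map_zero]
      have hb := bdry_xi hN hN2 hV hc hιy (hι y)
      have ht : inner ℝ (ι y) (V (-c)) ≠ 0 := by
        intro h
        apply hGy
        rw [hG]
        simp only
        rw [hb, h]
        have : N - 1 ≠ 0 := by omega
        simp [this]
      exact (uu_lim hV hc hιy (hι y) ht s).mul hGl



end Pool.Agent.Helper82.OS
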