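import Mathlib
import Pool.Agent.Helper82.OS.Defs
import Pool.Agent.Helper82.OS.UU_kernel
import Pool.Agent.Helper82.OS.sm_props
set_option autoImplicit false
open Matrix MeasureTheory Set Metric Filter Topology
open scoped ENNReal ContDiff

namespace Pool.Agent.Helper82.OS
theorem os_inner_UU_derivx {D : ℕ} (a b : E D) : inner ℝ a b = a.ofLp ⬝ᵥ b.ofLp := by
  rw [PiLp.inner_apply]
  simp [dotProduct, mul_comm]

theorem os_vmv_UU_derivx {D : ℕ} (a b c : Fin D → ℝ) : vecMulVec a b *ᵥ c = (b ⬝ᵥ c) • a := by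
  funext i
  simp only [mulVec, dotProduct, vecMulVec_apply, Pi.smul_apply, smul_eq_mul, Finset.sum_mul]
  apply Finset.sum_congr rfl
  intro j _
  ring

theorem os_proj_UU_derivx {D : ℕ} (x w : E D) :
    (1 - vecMulVec x.ofLp x.ofLp) *ᵥ w.ofLp = (w - (inner ℝ x w) • x).ofLp := by
  rw [sub_mulVec, one_mulVec, os_vmv_UU_derivx, ← os_inner_UU_derivx]
  rfl

theorem os_B_UU_derivx {D : ℕ} (V : E D → E D) (x w : E D) (hw : inner ℝ x w = 0) :
    Bm V x *ᵥ w.ofLp = (fderiv ℝ V x w - (inner ℝ x (fderiv ℝ V x w)) • x).ofLp := by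
  have e1 := os_proj_UU_derivx x w
  rw [hw, zero_smul, sub_zero] at e1
  unfold Bm
  rw [← mulVec_mulVec, ← mulVec_mulVec, e1, mat_mulVec, os_proj_UU_derivx]

theorem os_TT_UU_derivx {D : ℕ} (V : E D → E D) (x v z h : E D)
    (hxr : inner ℝ x (fderiv ℝ V x ((inner ℝ x z) • h - (inner ℝ x h) • z)) =
      -(inner ℝ v ((inner ℝ x z) • h - (inner ℝ x h) • z))) :
    WithLp.toLp 2 (TT x.ofLp v.ofLp (Bm V x) z.ofLp *ᵥ h.ofLp) =
      fderiv ℝ V x ((inner ℝ x z) • h - (inner ℝ x h) • z) +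
        ((inner ℝ v h) • z - (inner ℝ v z) • h) := by
  have hr : inner ℝ x ((inner ℝ x z) • h - (inner ℝ x h) • z) = 0 := by
    rw [inner_sub_right, inner_smul_right, inner_smul_right]
    ring
  have h1 : TT x.ofLp v.ofLp (Bm V x) z.ofLp *ᵥ h.ofLp =
      Bm V x *ᵥ ((inner ℝ x z) • h - (inner ℝ x h) • z).ofLp +
      (((inner ℝ v h) • z - (inner ℝ v z) • h) -
        (inner ℝ x ((inner ℝ v h) • z - (inner ℝ v z) • h)) • x -
        (inner ℝ v ((inner ℝ v h) • z - (inner ℝ v z) • h)) • v).ofLp := by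
    have a0 : (vecMulVec z.ofLp v.ofLp - (v.ofLp ⬝ᵥ z.ofLp) • (1 : Matrix (Fin D) (Fin D) ℝ)) *ᵥ
        h.ofLp = (inner ℝ v h) • z.ofLp - (inner ℝ v z) • h.ofLp := by
      rw [sub_mulVec, os_vmv_UU_derivx, smul_mulVec, one_mulVec, ← os_inner_UU_derivx, ← os_inner_UU_derivx]
    unfold TT
    rw [add_mulVec, sub_mulVec, smul_mulVec, os_vmv_UU_derivx, ← mulVec_mulVec, a0, ← os_inner_UU_derivx, ← os_inner_UU_derivx]
    have e1 : Bm V x *ᵥ ((inner ℝ x z) • h - (inner ℝ x h) • z).ofLp =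
        (inner ℝ x z) • (Bm V x *ᵥ h.ofLp) - (inner ℝ x h) • (Bm V x *ᵥ z.ofLp) := by
      change Bm V x *ᵥ ((inner ℝ x z) • h.ofLp - (inner ℝ x h) • z.ofLp) = _
      rw [mulVec_sub, mulVec_smul, mulVec_smul]
    rw [e1]
    congr 1
    change (1 - vecMulVec x.ofLp x.ofLp - vecMulVec v.ofLp v.ofLp) *ᵥ
      ((inner ℝ v h) • z - (inner ℝ v z) • h).ofLp = _
    rw [sub_mulVec, sub_mulVec, one_mulVec, os_vmv_UU_derivx, os_vmv_UU_derivx, ← os_inner_UU_derivx, ← os_inner_UU_derivx]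
    rfl
  rw [h1, os_B_UU_derivx V x _ hr, hxr]
  have h2 : inner ℝ x ((inner ℝ v h) • z - (inner ℝ v z) • h) =
      inner ℝ v ((inner ℝ x z) • h - (inner ℝ x h) • z) := by
    rw [inner_sub_right, inner_sub_right, inner_smul_right, inner_smul_right, inner_smul_right,
      inner_smul_right]
    ring
  have h3 : inner ℝ v ((inner ℝ v h) • z - (inner ℝ v z) • h) = (0:ℝ) := by
    rw [inner_sub_right, inner_smul_right, inner_smul_right]
    ring
  rw [h2, h3]
  change (fderiv ℝ V x ((inner ℝ x z) • h - (inner ℝ x h) • z) - (-(inner ℝ v ((inner ℝ x z) • h - (inner ℝ x h) • z))) • x) +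
    (((inner ℝ v h) • z - (inner ℝ v z) • h) -
        (inner ℝ v ((inner ℝ x z) • h - (inner ℝ x h) • z)) • x - (0:ℝ) • v) = _
  module

theorem os_curve_UU_derivx {D : ℕ} (z h : E D) (hz : z ≠ 0) (y : ℝ → E D) (y' : E D)
    (hy : HasDerivAt y y' 0) :
    HasDerivAt (fun t : ℝ => sm (z + t • h) (y t))
      ((2 * (inner ℝ z y' + inner ℝ h (y 0)) / ‖z‖ ^ 2 -
        4 * inner ℝ z (y 0) * inner ℝ z h / (‖z‖ ^ 2) ^ 2) • z +
        (2 * inner ℝ z (y 0) / ‖z‖ ^ 2) • h - y') 0 := by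
  have hN : ‖z‖ ^ 2 ≠ 0 := pow_ne_zero 2 (norm_ne_zero_iff.2 hz)
  have hγ : HasDerivAt (fun t : ℝ => z + t • h) h 0 := by
    have := ((hasDerivAt_id (0:ℝ)).smul_const h).const_add z
    simpa using this
  have h0 : z + (0:ℝ) • h = z := by simp
  have h1 := ((hγ.inner ℝ hy).const_mul 2).div (hγ.norm_sq) (by rw [h0]; exact hN)
  have h2 := (h1.smul hγ).sub hy
  refine h2.congr_deriv ?_
  simp only [h0, Pi.div_apply]
  match_scalars <;> ((try field_simp); (try ring))

theorem UU_deriv {D : ℕ} {V : E D → E D} (hV : UT V) {c : E D} (hc : ‖c‖ = 1) {z : E D} (hz : z ≠ 0)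
    (h : E D) :
    fderiv ℝ (UU V c) z h = -((2 / ‖z‖ ^ 2) •
      sm z (WithLp.toLp 2 (TT (sm z c).ofLp (V (sm z c)).ofLp (Bm V (sm z c)) z.ofLp *ᵥ h.ofLp))) := by
  have hN : ‖z‖ ^ 2 ≠ 0 := pow_ne_zero 2 (norm_ne_zero_iff.2 hz)
  have hVd : ∀ y, DifferentiableAt ℝ V y := fun y => (hV.sm.differentiable (by simp)) y
  have hsm : ∀ y : E D → E D, DifferentiableAt ℝ y z → DifferentiableAt ℝ (fun w => sm w (y w)) z := by
    intro y hy
    have hn : DifferentiableAt ℝ (fun w : E D => ‖w‖ ^ 2) z := differentiableAt_id.norm_sq ℝ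
    have hi : DifferentiableAt ℝ (fun w : E D => inner ℝ w (y w)) z :=
      differentiableAt_id.inner ℝ hy
    have hq : DifferentiableAt ℝ (fun w : E D => 2 * inner ℝ w (y w) / ‖w‖ ^ 2) z := by
      simp only [div_eq_mul_inv]
      exact (hi.const_mul 2).mul (hn.inv hN)
    have hid : DifferentiableAt ℝ (fun w : E D => w) z := differentiableAt_id
    exact (hq.smul hid).sub hy
  have hUd : DifferentiableAt ℝ (UU V c) z := by
    unfold UU
    apply DifferentiableAt.neg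
    apply hsm
    exact (hVd _).comp z (hsm _ (differentiableAt_const c))
  have h0 : z + (0:ℝ) • h = z := by simp
  have hγ : HasDerivAt (fun t : ℝ => z + t • h) h 0 := by
    have := ((hasDerivAt_id (0:ℝ)).smul_const h).const_add z
    simpa using this
  -- derivative of UU along the line
  have hd1 : HasDerivAt (fun t : ℝ => UU V c (z + t • h)) (fderiv ℝ (UU V c) z h) 0 := by
    have h1 : HasFDerivAt (UU V c) (fderiv ℝ (UU V c) z) (z + (0:ℝ) • h) := by
      rw [h0]; exact hUd.hasFDerivAt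
    have h2 : HasDerivAt (UU V c ∘ fun t : ℝ => z + t • h) (fderiv ℝ (UU V c) z h) 0 :=
      HasFDerivAt.comp_hasDerivAt (0:ℝ) h1 hγ
    exact h2
  obtain ⟨x, hx⟩ : ∃ x, x = sm z c := ⟨_, rfl⟩
  have hcx : c = sm z x := by rw [hx, sm_sm z c hz]
  have hzc : inner ℝ z c = inner ℝ x z := by
    rw [hcx]
    unfold sm
    rw [inner_sub_right, inner_smul_right, real_inner_self_eq_norm_sq, real_inner_comm z x]
    field_simp
    ring
  have hhc : inner ℝ h c = 2 * inner ℝ x z * inner ℝ z h / ‖z‖ ^ 2 - inner ℝ x h := by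
    rw [hcx]
    unfold sm
    rw [inner_sub_right, inner_smul_right, real_inner_comm x h, real_inner_comm z h,
      real_inner_comm x z]
    ring
  obtain ⟨r, hr⟩ : ∃ r, r = (inner ℝ x z) • h - (inner ℝ x h) • z := ⟨_, rfl⟩
  have hxd : HasDerivAt (fun t : ℝ => sm (z + t • h) c) ((2 / ‖z‖ ^ 2) • r) 0 := by
    have h1 := os_curve_UU_derivx z h hz (fun _ => c) 0 (hasDerivAt_const _ _)
    refine h1.congr_deriv ?_
    simp only [inner_zero_right, zero_add, hzc, hhc, hr]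
    match_scalars
    · field_simp
      ring
    · field_simp
  have hx0 : sm (z + (0:ℝ) • h) c = x := by rw [h0, hx]
  have hvd : HasDerivAt (fun t : ℝ => V (sm (z + t • h) c)) ((2 / ‖z‖ ^ 2) • fderiv ℝ V x r) 0 := by
    have h1 : HasFDerivAt V (fderiv ℝ V x) (sm (z + (0:ℝ) • h) c) := by
      rw [hx0]; exact (hVd x).hasFDerivAt
    have h2 : HasDerivAt (V ∘ fun t : ℝ => sm (z + t • h) c)
      (fderiv ℝ V x ((2 / ‖z‖ ^ 2) • r)) 0 := HasFDerivAt.comp_hasDerivAt (0:ℝ) h1 hxd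
    rw [map_smul] at h2
    exact h2
  have hxr : inner ℝ x (fderiv ℝ V x r) = -(inner ℝ (V x) r) := by
    have h1 := hxd.inner ℝ hvd
    have h2 : (fun t : ℝ => inner ℝ (sm (z + t • h) c) (V (sm (z + t • h) c))) =ᶠ[𝓝 0]
        fun _ => (0:ℝ) := by
      have h3 : ∀ᶠ t : ℝ in 𝓝 0, z + t • h ≠ 0 := by
        have h4 : ContinuousAt (fun t : ℝ => z + t • h) 0 := hγ.continuousAt
        apply h4.eventually_ne
        rw [h0]
        exact hz
      filter_upwards [h3] with t ht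
      exact hV.tan _ (by rw [sm_norm _ _ ht, hc])
    have h5 := (h1.congr_of_eventuallyEq h2.symm).unique (hasDerivAt_const (0:ℝ) (0:ℝ))
    rw [hx0] at h5
    rw [inner_smul_right, inner_smul_left] at h5
    simp only [conj_trivial] at h5
    have h6 : (2 / ‖z‖ ^ 2) * (inner ℝ x (fderiv ℝ V x r) + inner ℝ r (V x)) = 0 := by
      rw [← h5]; ring
    rcases mul_eq_zero.1 h6 with h7 | h7
    · exfalso
      exact (div_ne_zero two_ne_zero hN) h7
    · rw [real_inner_comm r (V x)]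
      linarith
  have hd2 : HasDerivAt (fun t : ℝ => UU V c (z + t • h))
      (-((2 * (inner ℝ z ((2 / ‖z‖ ^ 2) • fderiv ℝ V x r) + inner ℝ h (V x)) / ‖z‖ ^ 2 -
        4 * inner ℝ z (V x) * inner ℝ z h / (‖z‖ ^ 2) ^ 2) • z +
        (2 * inner ℝ z (V x) / ‖z‖ ^ 2) • h - (2 / ‖z‖ ^ 2) • fderiv ℝ V x r)) 0 := by
    have h1 := (os_curve_UU_derivx z h hz _ _ hvd).fun_neg
    rw [hx0] at h1
    exact h1
  rw [hd1.unique hd2, ← hx]
  rw [os_TT_UU_derivx V x (V x) z h (by rw [← hr]; exact hxr), ← hr]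
  unfold sm
  rw [inner_smul_right, inner_add_right, inner_sub_right, inner_smul_right, inner_smul_right,
    real_inner_self_eq_norm_sq, real_inner_comm (V x) h, real_inner_comm (V x) z]
  match_scalars
  · field_simp
    ring
  · field_simp
  · field_simp



end Pool.Agent.Helper82.OS
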