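import Mathlib
import Pool.Agent.Helper82.OS.Defs
import Pool.Agent.Helper82.OS.Defs2
set_option autoImplicit false
open Matrix MeasureTheory Set Metric Filter Topology
open scoped ENNReal ContDiff

namespace Pool.Agent.Helper82.OS





theorem an_unit_alg_normx {n : Type} [Fintype n] [DecidableEq n] (S : Matrix n n ℝ) (u v : n → ℝ)
    (h : S.det ≠ 0) : (S + vecMulVec u v).det = S.det + v ⬝ᵥ (S.adjugate *ᵥ u) := by
  have h1 := Matrix.det_add_replicateCol_mul_replicateRow (ι := Unit) (A := S)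
    (isUnit_iff_ne_zero.2 h) u v
  have h2 : S + replicateCol Unit u * replicateRow Unit v = S + vecMulVec u v := by
    congr 1
    ext i j
    simp [Matrix.mul_apply, vecMulVec_apply]
  rw [h2] at h1
  have h3 : (1 + replicateRow Unit v * S⁻¹ * replicateCol Unit u).det =
      1 + v ⬝ᵥ (S⁻¹ *ᵥ u) := by
    rw [Matrix.det_unique, Matrix.add_apply, Matrix.mul_assoc]
    simp [Matrix.mul_apply, dotProduct, mulVec]
  rw [h1, h3, Matrix.inv_def, Matrix.smul_mulVec, dotProduct_smul, Ring.inverse_eq_inv', smul_eq_mul]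
  field_simp

theorem an_gen_alg_normx {n : Type} [Fintype n] [DecidableEq n] (S : Matrix n n ℝ) (u v : n → ℝ) :
    (S + vecMulVec u v).det = S.det + v ⬝ᵥ (S.adjugate *ᵥ u) := by
  obtain ⟨F, hF⟩ : ∃ F : ℝ → ℝ, F = fun t => (t • (1 : Matrix n n ℝ) + S + vecMulVec u v).det -
      ((t • (1 : Matrix n n ℝ) + S).det +
        v ⬝ᵥ ((t • (1 : Matrix n n ℝ) + S).adjugate *ᵥ u)) := ⟨_, rfl⟩
  have hFc : Continuous F := by
    rw [hF]
    have hS : Continuous fun t : ℝ => t • (1 : Matrix n n ℝ) + S := by fun_prop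
    have h1 : Continuous fun t : ℝ => (t • (1 : Matrix n n ℝ) + S + vecMulVec u v).det :=
      (hS.add continuous_const).matrix_det
    have h2 : Continuous fun t : ℝ => (t • (1 : Matrix n n ℝ) + S).det := hS.matrix_det
    have h3 : Continuous fun t : ℝ => v ⬝ᵥ ((t • (1 : Matrix n n ℝ) + S).adjugate *ᵥ u) :=
      continuous_const.dotProduct (hS.matrix_adjugate.matrix_mulVec continuous_const)
    exact h1.sub (h2.add h3)
  have hdet : ∀ t : ℝ, (-S).charpoly.eval t = (t • (1 : Matrix n n ℝ) + S).det := by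
    intro t
    rw [Matrix.eval_charpoly]
    congr 1
    rw [sub_neg_eq_add]
    congr 1
    ext i j
    simp [Matrix.scalar_apply, Matrix.diagonal_apply, Matrix.one_apply]
  have hfin : {t : ℝ | (-S).charpoly.eval t = 0 ∧ t ≠ 0}.Finite := by
    refine ((-S).charpoly.roots.toFinset.finite_toSet).subset ?_
    rintro t ⟨ht, _⟩
    have hne : (-S).charpoly ≠ 0 := (Matrix.charpoly_monic _).ne_zero
    simp only [Finset.mem_coe, Multiset.mem_toFinset, Polynomial.mem_roots hne]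
    exact ht
  have hev : ∀ᶠ t : ℝ in 𝓝[≠] 0, F t = 0 := by
    have h1 : ∀ᶠ t : ℝ in 𝓝[≠] 0, t ∈ {t : ℝ | (-S).charpoly.eval t = 0 ∧ t ≠ 0}ᶜ := by
      apply nhdsWithin_le_nhds
      apply hfin.isClosed.isOpen_compl.mem_nhds
      intro h
      exact h.2 rfl
    filter_upwards [h1, self_mem_nhdsWithin] with t ht ht0
    have h2 : (t • (1 : Matrix n n ℝ) + S).det ≠ 0 := by
      rw [← hdet]
      intro h0
      exact ht ⟨h0, ht0⟩
    rw [hF]
    simp only
    rw [an_unit_alg_normx _ u v h2, sub_self]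
  have hlim : Tendsto F (𝓝[≠] 0) (𝓝 (F 0)) := (hFc.tendsto 0).mono_left nhdsWithin_le_nhds
  have hlim0 : Tendsto F (𝓝[≠] 0) (𝓝 0) := by
    refine Tendsto.congr' ?_ tendsto_const_nhds
    filter_upwards [hev] with t ht
    exact ht.symm
  have h0 := tendsto_nhds_unique hlim hlim0
  rw [hF] at h0
  simp only [zero_smul, zero_add] at h0
  linarith

theorem alg_norm {n : Type} [Fintype n] [DecidableEq n] (A : Matrix n n ℝ) (c U z : n → ℝ)
    (hz : A *ᵥ z = 0) (hc : c ᵥ* A = 0) (hU : U ᵥ* A = 0)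
    (cc : c ⬝ᵥ c = 1) (uu : U ⬝ᵥ U = 1) (cu : c ⬝ᵥ U = 0) :
    ((A + vecMulVec c z).adjugate *ᵥ U) ⬝ᵥ ((A + vecMulVec c z).adjugate *ᵥ U)
      = (z ⬝ᵥ z) * (A * Aᵀ + vecMulVec c c + vecMulVec U U).det := by
  obtain ⟨M, hM⟩ : ∃ M : Matrix n n ℝ, M = A + vecMulVec c z := ⟨_, rfl⟩
  rw [← hM]
  have hc0 : c ≠ 0 := by
    rintro rfl
    simp at cc
  have hU0 : U ≠ 0 := by
    rintro rfl
    simp at uu
  -- step 1
  have h1 : (M.adjugate *ᵥ U) ⬝ᵥ (M.adjugate *ᵥ U) = U ⬝ᵥ ((M * Mᵀ).adjugate *ᵥ U) := by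
    rw [Matrix.adjugate_mul_distrib, ← Matrix.mulVec_mulVec, Matrix.dotProduct_mulVec U,
      ← Matrix.adjugate_transpose, Matrix.vecMul_transpose]
  -- step 2
  have h2 : M * Mᵀ = A * Aᵀ + vecMulVec ((z ⬝ᵥ z) • c) c := by
    rw [hM, Matrix.transpose_add, Matrix.mul_add, Matrix.add_mul, Matrix.add_mul,
      Matrix.transpose_vecMulVec]
    have e1 : A * vecMulVec z c = 0 := by
      rw [Matrix.mul_vecMulVec, hz]
      ext i j
      simp [vecMulVec_apply]
    have e2 : vecMulVec c z * Aᵀ = 0 := by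
      rw [Matrix.vecMulVec_mul, Matrix.vecMul_transpose, hz]
      ext i j
      simp [vecMulVec_apply]
    have e3 : vecMulVec c z * vecMulVec z c = vecMulVec ((z ⬝ᵥ z) • c) c := by
      rw [Matrix.vecMulVec_mul_vecMulVec]
      ext i j
      simp [vecMulVec_apply]
      ring
    rw [e1, e2, e3]
    simp
  have hUM : U ᵥ* M = 0 := by
    rw [hM, Matrix.vecMul_add, hU, zero_add, Matrix.vecMul_vecMulVec, dotProduct_comm, cu]
    simp
  have hdM : (M * Mᵀ).det = 0 := by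
    rw [Matrix.det_mul, Matrix.exists_vecMul_eq_zero_iff.1 ⟨U, hU0, hUM⟩, zero_mul]
  have h3 := an_gen_alg_normx (M * Mᵀ) U U
  rw [hdM, zero_add] at h3
  rw [h1, ← h3, h2]
  have h4 : A * Aᵀ + vecMulVec ((z ⬝ᵥ z) • c) c + vecMulVec U U =
      (A * Aᵀ + vecMulVec U U) + vecMulVec ((z ⬝ᵥ z) • c) c := by abel
  have h5 : A * Aᵀ + vecMulVec c c + vecMulVec U U =
      (A * Aᵀ + vecMulVec U U) + vecMulVec c c := by abel
  have hcS : c ᵥ* (A * Aᵀ + vecMulVec U U) = 0 := by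
    rw [Matrix.vecMul_add, ← Matrix.vecMul_vecMul, hc, Matrix.zero_vecMul,
      Matrix.vecMul_vecMulVec, cu]
    simp
  have hdS : (A * Aᵀ + vecMulVec U U).det = 0 :=
    Matrix.exists_vecMul_eq_zero_iff.1 ⟨c, hc0, hcS⟩
  rw [h4, h5, an_gen_alg_normx (A * Aᵀ + vecMulVec U U) ((z ⬝ᵥ z) • c) c,
    an_gen_alg_normx (A * Aᵀ + vecMulVec U U) c c, hdS, zero_add, zero_add, Matrix.mulVec_smul,
    dotProduct_smul, smul_eq_mul]



end Pool.Agent.Helper82.OS
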