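import Mathlib
import Pool.Agent.Helper82.OS.Defs
import Pool.Agent.Helper82.OS.UU_basic
import Pool.Agent.Helper82.OS.UU_deriv
import Pool.Agent.Helper82.OS.UU_kernel
import Pool.Agent.Helper82.OS.alg_norm
import Pool.Agent.Helper82.OS.det_scale
import Pool.Agent.Helper82.OS.sm_props
set_option autoImplicit false
open Matrix MeasureTheory Set Metric Filter Topology
open scoped ENNReal ContDiff

namespace Pool.Agent.Helper82.OS
theorem norm_rel_dot_norm_relx {D : ℕ} (a b : E D) : a.ofLp ⬝ᵥ b.ofLp = inner ℝ a b := by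
  rw [PiLp.inner_apply]
  simp only [dotProduct]
  refine Finset.sum_congr rfl fun i _ => ?_
  simp [mul_comm]

theorem norm_rel_sm_norm_relx {D : ℕ} (z y : E D) :
    (sm z y).ofLp = ((2 / ‖z‖ ^ 2) • vecMulVec z.ofLp z.ofLp - 1) *ᵥ y.ofLp := by
  rw [Matrix.sub_mulVec, Matrix.one_mulVec, Matrix.smul_mulVec, Matrix.vecMulVec_mulVec, norm_rel_dot_norm_relx]
  ext i
  simp [sm]
  ring

theorem norm_rel_RT_norm_relx {D : ℕ} (z : E D) :
    ((2 / ‖z‖ ^ 2) • vecMulVec z.ofLp z.ofLp - 1 : Matrix (Fin D) (Fin D) ℝ)ᵀ =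
      (2 / ‖z‖ ^ 2) • vecMulVec z.ofLp z.ofLp - 1 := by
  rw [Matrix.transpose_sub, Matrix.transpose_smul, Matrix.transpose_vecMulVec, Matrix.transpose_one]

theorem norm_rel_ext_norm_relx {D : ℕ} {A B : Matrix (Fin D) (Fin D) ℝ} (h : ∀ y : E D, A *ᵥ y.ofLp = B *ᵥ y.ofLp) :
    A = B := by
  apply Matrix.mulVec_injective
  ext1 y
  exact h (WithLp.toLp 2 y)

theorem norm_rel_RR_norm_relx {D : ℕ} {z : E D} (hz : z ≠ 0) :
    ((2 / ‖z‖ ^ 2) • vecMulVec z.ofLp z.ofLp - 1 : Matrix (Fin D) (Fin D) ℝ) *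
      ((2 / ‖z‖ ^ 2) • vecMulVec z.ofLp z.ofLp - 1) = 1 := by
  apply norm_rel_ext_norm_relx
  intro y
  rw [← Matrix.mulVec_mulVec, ← norm_rel_sm_norm_relx, ← norm_rel_sm_norm_relx, sm_sm z y hz, Matrix.one_mulVec]

theorem norm_rel {N : ℕ} {V : E (N + 2) → E (N + 2)} (hV : UT V) {c : E (N + 2)} (hc : ‖c‖ = 1)
    {z : E (N + 2)} (hz : z ≠ 0) :
    ‖xi V c z‖ = 2 ^ N * ‖z‖ / (‖z‖ ^ 2) ^ N *
      JJ (sm z c).ofLp (V (sm z c)).ofLp (Bm V (sm z c)) z.ofLp := by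
  have hz0 : 0 < ‖z‖ := norm_pos_iff.2 hz
  have hz2 : 0 < ‖z‖ ^ 2 := by positivity
  obtain ⟨R, hR⟩ : ∃ R : Matrix (Fin (N + 2)) (Fin (N + 2)) ℝ,
    R = (2 / ‖z‖ ^ 2) • vecMulVec z.ofLp z.ofLp - 1 := ⟨_, rfl⟩
  have hRT : Rᵀ = R := by rw [hR]; exact norm_rel_RT_norm_relx z
  have hRR : R * R = 1 := by rw [hR]; exact norm_rel_RR_norm_relx hz
  have hsm : ∀ y : E (N + 2), (sm z y).ofLp = R *ᵥ y.ofLp := fun y => by
    rw [hR]; exact norm_rel_sm_norm_relx z y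
  obtain ⟨x, hx⟩ : ∃ x, x = (sm z c).ofLp := ⟨_, rfl⟩
  obtain ⟨v, hv⟩ : ∃ v, v = (V (sm z c)).ofLp := ⟨_, rfl⟩
  obtain ⟨T, hT⟩ : ∃ T, T = TT (sm z c).ofLp (V (sm z c)).ofLp (Bm V (sm z c)) z.ofLp := ⟨_, rfl⟩
  obtain ⟨A, hA⟩ : ∃ A, A = mat (fderiv ℝ (UU V c) z) := ⟨_, rfl⟩
  obtain ⟨U, hU⟩ : ∃ U, U = (UU V c z).ofLp := ⟨_, rfl⟩
  have hxR : x = R *ᵥ c.ofLp := by rw [hx, hsm]
  have hcR : c.ofLp = R *ᵥ x := by
    rw [hxR, Matrix.mulVec_mulVec, hRR, Matrix.one_mulVec]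
  have hUR : U = - (R *ᵥ v) := by
    rw [hU, hv, ← hsm]
    rfl
  have hvR : R *ᵥ U = - v := by
    rw [hUR, Matrix.mulVec_neg, Matrix.mulVec_mulVec, hRR, Matrix.one_mulVec]
  have hAT : A = -((2 / ‖z‖ ^ 2) • (R * T)) := by
    apply norm_rel_ext_norm_relx
    intro h
    rw [hA, mat_mulVec, UU_deriv hV hc hz h, ← hT, Matrix.neg_mulVec, Matrix.smul_mulVec,
      ← Matrix.mulVec_mulVec, WithLp.ofLp_neg, WithLp.ofLp_smul, hsm]
  have hk : (2 / ‖z‖ ^ 2) ≠ 0 := by positivity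
  have hvm : ∀ y : Fin (N + 2) → ℝ, y ᵥ* R = R *ᵥ y := by
    intro y
    rw [← Matrix.mulVec_transpose, hRT]
  have hxT : x ᵥ* T = 0 := by
    have h1 := UU_kc hV hc hz
    rw [← hA, hAT, Matrix.vecMul_neg, Matrix.vecMul_smul, ← Matrix.vecMul_vecMul, hvm, ← hxR,
      neg_eq_zero, smul_eq_zero] at h1
    exact h1.resolve_left hk
  have hvT : v ᵥ* T = 0 := by
    have h1 := UU_kU hV hc hz
    rw [← hA, ← hU, hAT, Matrix.vecMul_neg, Matrix.vecMul_smul, ← Matrix.vecMul_vecMul, hvm, hvR,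
      neg_eq_zero, smul_eq_zero, Matrix.neg_vecMul, neg_eq_zero] at h1
    exact h1.resolve_left hk
  have hcs : ‖sm z c‖ = 1 := by rw [sm_norm z c hz, hc]
  have hxx : x ⬝ᵥ x = 1 := by
    rw [hx, norm_rel_dot_norm_relx, real_inner_self_eq_norm_sq, hcs, one_pow]
  have hvv : v ⬝ᵥ v = 1 := by
    rw [hv, norm_rel_dot_norm_relx, real_inner_self_eq_norm_sq, hV.unit _ hcs, one_pow]
  have hxv : x ⬝ᵥ v = 0 := by
    rw [hx, hv, norm_rel_dot_norm_relx, hV.tan _ hcs]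
  have hcc : c.ofLp ⬝ᵥ c.ofLp = 1 := by
    rw [norm_rel_dot_norm_relx, real_inner_self_eq_norm_sq, hc, one_pow]
  have hUU : U ⬝ᵥ U = 1 := by
    rw [hU, norm_rel_dot_norm_relx, real_inner_self_eq_norm_sq, UU_norm hV hc hz, one_pow]
  have hcU : c.ofLp ⬝ᵥ U = 0 := by
    rw [hU, norm_rel_dot_norm_relx, UU_inner hV hc hz]
  have hzz : z.ofLp ⬝ᵥ z.ofLp = ‖z‖ ^ 2 := by
    rw [norm_rel_dot_norm_relx, real_inner_self_eq_norm_sq]
  have hconj : A * Aᵀ + vecMulVec c.ofLp c.ofLp + vecMulVec U U =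
      R * ((2 / ‖z‖ ^ 2) ^ 2 • (T * Tᵀ) + vecMulVec x x + vecMulVec v v) * R := by
    have h1 : A * Aᵀ = R * ((2 / ‖z‖ ^ 2) ^ 2 • (T * Tᵀ)) * R := by
      rw [hAT, Matrix.transpose_neg, Matrix.transpose_smul, Matrix.transpose_mul, hRT,
        neg_mul_neg, smul_mul_smul_comm, ← sq, Matrix.mul_smul, Matrix.smul_mul]
      simp only [Matrix.mul_assoc]
    have h2 : vecMulVec c.ofLp c.ofLp = R * vecMulVec x x * R := by
      rw [Matrix.mul_vecMulVec, Matrix.vecMulVec_mul, hvm, ← hcR]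
    have h3 : vecMulVec U U = R * vecMulVec v v * R := by
      rw [Matrix.mul_vecMulVec, Matrix.vecMulVec_mul, hvm, hUR, Matrix.neg_vecMulVec,
        Matrix.vecMulVec_neg, neg_neg]
    rw [h1, h2, h3, Matrix.mul_add, Matrix.mul_add, Matrix.add_mul, Matrix.add_mul]
  have hdet : (A * Aᵀ + vecMulVec c.ofLp c.ofLp + vecMulVec U U).det =
      ((2 / ‖z‖ ^ 2) ^ 2) ^ N * (T * Tᵀ + vecMulVec x x + vecMulVec v v).det := by
    rw [hconj, Matrix.det_mul, Matrix.det_mul, mul_right_comm, ← Matrix.det_mul, hRR,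
      Matrix.det_one, one_mul]
    apply det_scale _ x v _ hxx hvv hxv
    · rw [← Matrix.vecMul_vecMul, hxT, Matrix.zero_vecMul]
    · rw [← Matrix.vecMul_vecMul, hvT, Matrix.zero_vecMul]
  have hpos : 0 ≤ (T * Tᵀ + vecMulVec x x + vecMulVec v v).det := by
    apply Matrix.PosSemidef.det_nonneg
    refine Matrix.PosSemidef.add (Matrix.PosSemidef.add ?_ ?_) ?_
    · have := Matrix.posSemidef_self_mul_conjTranspose T
      rwa [Matrix.conjTranspose_eq_transpose_of_trivial] at this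
    · have := Matrix.posSemidef_vecMulVec_self_star x
      simpa using this
    · have := Matrix.posSemidef_vecMulVec_self_star v
      simpa using this
  have hJ : JJ (sm z c).ofLp (V (sm z c)).ofLp (Bm V (sm z c)) z.ofLp ^ 2 =
      (T * Tᵀ + vecMulVec x x + vecMulVec v v).det := by
    unfold JJ
    rw [← hT, ← hx, ← hv, Real.sq_sqrt hpos]
  have hn : ‖xi V c z‖ ^ 2 = ‖z‖ ^ 2 * (((2 / ‖z‖ ^ 2) ^ 2) ^ N *
      (T * Tᵀ + vecMulVec x x + vecMulVec v v).det) := by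
    have h1 := alg_norm A c.ofLp U z.ofLp (by rw [hA]; exact UU_kz hV hc hz)
      (by rw [hA]; exact UU_kc hV hc hz) (by rw [hA, hU]; exact UU_kU hV hc hz) hcc hUU hcU
    rw [hzz, hdet] at h1
    rw [← h1, ← real_inner_self_eq_norm_sq, ← norm_rel_dot_norm_relx]
    unfold xi MM
    rw [← hA, ← hU]
  have hJ0 : 0 ≤ JJ (sm z c).ofLp (V (sm z c)).ofLp (Bm V (sm z c)) z.ofLp := by
    unfold JJ
    positivity
  have hfin : ‖xi V c z‖ ^ 2 = (2 ^ N * ‖z‖ / (‖z‖ ^ 2) ^ N *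
      JJ (sm z c).ofLp (V (sm z c)).ofLp (Bm V (sm z c)) z.ofLp) ^ 2 := by
    rw [hn, mul_pow (2 ^ N * ‖z‖ / (‖z‖ ^ 2) ^ N), hJ]
    have h5 : ((2 / ‖z‖ ^ 2) ^ 2) ^ N = (2 ^ N / (‖z‖ ^ 2) ^ N) ^ 2 := by
      rw [← div_pow, ← pow_mul, ← pow_mul, mul_comm]
    rw [h5]
    ring
  have hp : 0 ≤ 2 ^ N * ‖z‖ / (‖z‖ ^ 2) ^ N *
      JJ (sm z c).ofLp (V (sm z c)).ofLp (Bm V (sm z c)) z.ofLp := by positivity
  exact (pow_left_inj₀ (norm_nonneg _) hp two_ne_zero).1 hfin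



end Pool.Agent.Helper82.OS
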