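import Mathlib
import Pool.Agent.Helper82.OS.Defs
import Pool.Agent.Helper82.OS.D0
import Pool.Agent.Helper82.OS.JJ_homog
import Pool.Agent.Helper82.OS.K0
import Pool.Agent.Helper82.OS.Spsi
import Pool.Agent.Helper82.OS.norm_rel
import Pool.Agent.Helper82.OS.polar
import Pool.Agent.Helper82.OS.sm_props
set_option autoImplicit false
open Matrix MeasureTheory Set Metric Filter Topology
open scoped ENNReal ContDiff

namespace Pool.Agent.Helper82.OS
theorem sc_conv_Scx {k l : ℕ} (F : E k → ℝ) (G : E l → ℝ) (hF : Measurable F) (hG : Measurable G)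
    (hF0 : ∀ y, 0 ≤ F y) (hG0 : ∀ z, 0 ≤ G z) (hfin : ∫⁻ y, ENNReal.ofReal (F y) < ⊤)
    (h : Real.pi * ∫ y, F y ≤ ∫ z, G z) :
    ENNReal.ofReal Real.pi * ∫⁻ y, ENNReal.ofReal (F y) ≤ ∫⁻ z, ENNReal.ofReal (G z) := by
  by_cases hGt : ∫⁻ z, ENNReal.ofReal (G z) = ⊤
  · rw [hGt]; exact le_top
  have hFi : Integrable F := by
    refine ⟨hF.aestronglyMeasurable, ?_⟩
    rw [hasFiniteIntegral_iff_ofReal (Filter.Eventually.of_forall hF0)]
    exact hfin
  have hGi : Integrable G := by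
    refine ⟨hG.aestronglyMeasurable, ?_⟩
    rw [hasFiniteIntegral_iff_ofReal (Filter.Eventually.of_forall hG0)]
    exact lt_top_iff_ne_top.2 hGt
  rw [← ofReal_integral_eq_lintegral_ofReal hFi (Filter.Eventually.of_forall hF0),
    ← ofReal_integral_eq_lintegral_ofReal hGi (Filter.Eventually.of_forall hG0),
    ← ENNReal.ofReal_mul Real.pi_pos.le]
  exact ENNReal.ofReal_le_ofReal h

theorem sc_bump_Scx : ∃ ψ : ℝ → ℝ, ContDiff ℝ ∞ ψ ∧ (∀ t, 0 ≤ ψ t) ∧ HasCompactSupport ψ ∧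
    tsupport ψ ⊆ Ioi 0 ∧ (∫⁻ r in Ioi (0 : ℝ), ENNReal.ofReal (ψ (r ^ 2) * r)) ≠ 0 ∧
    (∫⁻ r in Ioi (0 : ℝ), ENNReal.ofReal (ψ (r ^ 2) * r)) ≠ ⊤ := by
  let b : ContDiffBump (2 : ℝ) := ⟨1 / 2, 1, by norm_num, by norm_num⟩
  have hts : tsupport b = Metric.closedBall 2 1 := b.tsupport_eq
  refine ⟨b, b.contDiff, fun t => b.nonneg, b.hasCompactSupport, ?_, ?_, ?_⟩
  · rw [hts]
    intro t ht
    rw [Metric.mem_closedBall, Real.dist_eq, abs_le] at ht
    rw [mem_Ioi]
    linarith [ht.1]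
  · have h1 : ∫⁻ _r in Icc (5 / 4 : ℝ) (3 / 2), (1 : ℝ≥0∞) ≤
        ∫⁻ r in Ioi (0 : ℝ), ENNReal.ofReal (b (r ^ 2) * r) := by
      calc ∫⁻ _r in Icc (5 / 4 : ℝ) (3 / 2), (1 : ℝ≥0∞)
          ≤ ∫⁻ r in Icc (5 / 4 : ℝ) (3 / 2), ENNReal.ofReal (b (r ^ 2) * r) := by
            apply setLIntegral_mono' measurableSet_Icc
            intro r hr
            have h2 : b (r ^ 2) = 1 := by
              apply b.one_of_mem_closedBall
              rw [Metric.mem_closedBall, Real.dist_eq, abs_le]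
              change -(1 / 2 : ℝ) ≤ r ^ 2 - 2 ∧ r ^ 2 - 2 ≤ 1 / 2
              constructor <;> nlinarith [hr.1, hr.2]
            rw [h2, one_mul, ENNReal.one_le_ofReal]
            linarith [hr.1]
        _ ≤ _ := by
            apply lintegral_mono_set
            intro r hr
            rw [mem_Ioi]
            linarith [hr.1]
    intro h0
    rw [h0] at h1
    simp only [lintegral_const, Measure.restrict_apply MeasurableSet.univ, univ_inter,
      Real.volume_Icc, one_mul, nonpos_iff_eq_zero, ENNReal.ofReal_eq_zero] at h1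
    norm_num at h1
  · have hc : Continuous fun r : ℝ => b (r ^ 2) * r :=
      (b.continuous.comp (continuous_pow 2)).mul continuous_id
    have hcs : HasCompactSupport fun r : ℝ => b (r ^ 2) * r := by
      refine HasCompactSupport.intro (isCompact_Icc : IsCompact (Icc (-2 : ℝ) 2)) ?_
      intro r hr
      have h0 : b (r ^ 2) = 0 := by
        apply image_eq_zero_of_notMem_tsupport
        rw [hts, Metric.mem_closedBall, Real.dist_eq, abs_le]
        intro h
        apply hr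
        constructor <;> nlinarith [h.1, h.2]
      rw [h0, zero_mul]
    have hi : Integrable (fun r : ℝ => b (r ^ 2) * r) volume :=
      hc.integrable_of_hasCompactSupport hcs
    exact (hi.integrableOn (s := Ioi 0)).lintegral_lt_top.ne

theorem sc_sm_norm_Scx {D : ℕ} {c : E D} (hc : ‖c‖ = 1) (z : E D) : ‖sm z c‖ = 1 := by
  by_cases hz : z = 0
  · subst hz
    unfold sm
    simp [hc]
  · rw [sm_norm z c hz, hc]

theorem sc_sm_smul_Scx {D : ℕ} (c z : E D) (r : ℝ) (hr : 0 < r) : sm (r • z) c = sm z c := by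
  unfold sm
  by_cases hz : z = 0
  · subst hz; simp
  · have hz' : ‖z‖ ≠ 0 := norm_ne_zero_iff.2 hz
    rw [inner_smul_left, norm_smul, smul_smul]
    congr 2
    simp only [conj_trivial, Real.norm_eq_abs, abs_of_pos hr]
    field_simp

theorem sc_sm_meas_Scx {D : ℕ} (c : E D) : Measurable fun z : E D => sm z c := by
  unfold sm
  exact (((measurable_const.mul (measurable_id.inner measurable_const)).div
    (measurable_norm.pow_const 2)).smul measurable_id).sub measurable_const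

theorem sc_JJ_hom_Scx {N : ℕ} {V : E (N + 2) → E (N + 2)} (hV : UT V)
    {c : E (N + 2)} (hc : ‖c‖ = 1) (r : ℝ) (hr : 0 < r) (z : E (N + 2)) :
    JJ (sm (r • z) c).ofLp (V (sm (r • z) c)).ofLp (Bm V (sm (r • z) c)) (r • z).ofLp =
      r ^ N * JJ (sm z c).ofLp (V (sm z c)).ofLp (Bm V (sm z c)) z.ofLp := by
  rw [sc_sm_smul_Scx c z r hr]
  have hn := sc_sm_norm_Scx hc z
  obtain ⟨_, hB2, hB3⟩ := Bm_props hV hn
  have hx : (sm z c).ofLp ⬝ᵥ (sm z c).ofLp = 1 := by
    have h1 : inner ℝ (sm z c) (sm z c) = 1 := by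
      rw [real_inner_self_eq_norm_sq, hn]; norm_num
    rw [EuclideanSpace.inner_eq_star_dotProduct] at h1
    simpa using h1
  have hv : (V (sm z c)).ofLp ⬝ᵥ (V (sm z c)).ofLp = 1 := by
    have h1 : inner ℝ (V (sm z c)) (V (sm z c)) = 1 := by
      rw [real_inner_self_eq_norm_sq, hV.unit _ hn]; norm_num
    rw [EuclideanSpace.inner_eq_star_dotProduct] at h1
    simpa using h1
  have hxv : (sm z c).ofLp ⬝ᵥ (V (sm z c)).ofLp = 0 := by
    have h1 := hV.tan _ hn
    rw [real_inner_comm, EuclideanSpace.inner_eq_star_dotProduct] at h1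
    simpa using h1
  exact JJ_homog _ _ _ z.ofLp hx hv hxv hB2 hB3 r hr.le

theorem sc_JJ_meas_Scx {N : ℕ} {V : E (N + 2) → E (N + 2)} (hV : UT V) (c : E (N + 2)) :
    Measurable fun z : E (N + 2) =>
      JJ (sm z c).ofLp (V (sm z c)).ofLp (Bm V (sm z c)) z.ofLp := by
  have h1 : Measurable (fun p : E (N + 2) × E (N + 2) =>
    JJ p.1.ofLp (V p.1).ofLp (Bm V p.1) p.2.ofLp) := (JJ_cont hV).measurable
  have h2 : Measurable (fun z : E (N + 2) => ((sm z c, z) : E (N + 2) × E (N + 2))) :=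
    (sc_sm_meas_Scx c).prodMk measurable_id
  have h3 := h1.comp h2
  simp only [Function.comp_def] at h3
  exact h3



theorem Sc {N : ℕ} (hN : Even N) (hN2 : 2 ≤ N) {V : E (N + 2) → E (N + 2)} (hV : UT V)
    {c : E (N + 2)} (hc : ‖c‖ = 1) :
    ENNReal.ofReal (2 * Real.pi) * sg (N + 1) univ ≤ ENNReal.ofReal (2 ^ N) *
      ∫⁻ f : sphere (0 : E (N + 2)) 1, ENNReal.ofReal (JJ (sm (f : E (N + 2)) c).ofLp
        (V (sm (f : E (N + 2)) c)).ofLp (Bm V (sm (f : E (N + 2)) c)) (f : E (N + 2)).ofLp) ∂(sg (N + 2)) := by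
  obtain ⟨ψ, hψ, hψ0, hψc, hψs, hκ0, hκt⟩ := sc_bump_Scx
  obtain ⟨κ, hκ⟩ : ∃ κ, κ = ∫⁻ r in Ioi (0 : ℝ), ENNReal.ofReal (ψ (r ^ 2) * r) := ⟨_, rfl⟩
  rw [← hκ] at hκ0 hκt
  obtain ⟨ι, hι1, hι2, hι3⟩ := D0 c hc
  have hmain := Spsi hN hN2 hV hc ψ hψ hψ0 hψc hψs ι hι1 hι3
  have hc' : ‖-c‖ = 1 := by rw [norm_neg, hc]
  obtain ⟨w, hw⟩ := hι2 (V (-c)) (by
    have := hV.tan (-c) hc'
    rw [inner_neg_left, neg_eq_zero] at this
    exact this)
  have hw1 : ‖w‖ = 1 := by rw [← ι.norm_map, hw, hV.unit _ hc']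
  obtain ⟨F, hF⟩ : ∃ F : E (N + 1) → ℝ, F = fun y =>
    (ψ (‖y‖ ^ 2) * (2 ^ N / (‖y‖ ^ 2) ^ (N - 1))) * |inner ℝ w y| ^ (N - 1) := ⟨_, rfl⟩
  obtain ⟨G, hG⟩ : ∃ G : E (N + 2) → ℝ, G = fun z =>
    (ψ (‖z‖ ^ 2) * (2 ^ N / (‖z‖ ^ 2) ^ N)) *
      JJ (sm z c).ofLp (V (sm z c)).ofLp (Bm V (sm z c)) z.ofLp := ⟨_, rfl⟩
  have hFe : (∫ y : E (N + 1), ψ (‖y‖ ^ 2) *
      (2 ^ N * |inner ℝ (ι y) (V (-c))| ^ (N - 1) / (‖y‖ ^ 2) ^ (N - 1))) = ∫ y, F y := by
    congr 1
    funext y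
    rw [← hw, ι.inner_map_map, real_inner_comm, hF]
    ring
  have hGe : (∫ z, ψ (‖z‖ ^ 2) * (‖xi V c z‖ / ‖z‖)) = ∫ z, G z := by
    congr 1
    funext z
    rw [hG]
    by_cases hz : z = 0
    · subst hz
      have hN0 : N ≠ 0 := by omega
      simp [hN0]
    · have hz' : ‖z‖ ≠ 0 := norm_ne_zero_iff.2 hz
      simp only []
      rw [norm_rel hV hc hz]
      field_simp
  rw [hFe, hGe] at hmain
  have hψm : Measurable ψ := hψ.continuous.measurable
  have hg1m : Measurable fun y : E (N + 1) => ENNReal.ofReal (|inner ℝ w y| ^ (N - 1)) := by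
    apply ENNReal.measurable_ofReal.comp
    exact (((continuous_const.inner continuous_id).abs).pow (N - 1)).measurable
  have hJm : Measurable fun z : E (N + 2) =>
      JJ (sm z c).ofLp (V (sm z c)).ofLp (Bm V (sm z c)) z.ofLp :=
    sc_JJ_meas_Scx hV c
  have hJm' : Measurable fun z : E (N + 2) => ENNReal.ofReal
      (JJ (sm z c).ofLp (V (sm z c)).ofLp (Bm V (sm z c)) z.ofLp) := by
    have h3 := ENNReal.measurable_ofReal.comp hJm
    simp only [Function.comp_def] at h3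
    exact h3
  have hρ1m : Measurable fun r : ℝ => ENNReal.ofReal (ψ (r ^ 2) * (2 ^ N / (r ^ 2) ^ (N - 1))) := by
    apply ENNReal.measurable_ofReal.comp
    exact (hψm.comp (measurable_id.pow_const 2)).mul
      (measurable_const.div ((measurable_id.pow_const 2).pow_const (N - 1)))
  have hρ2m : Measurable fun r : ℝ => ENNReal.ofReal (ψ (r ^ 2) * (2 ^ N / (r ^ 2) ^ N)) := by
    apply ENNReal.measurable_ofReal.comp
    exact (hψm.comp (measurable_id.pow_const 2)).mul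
      (measurable_const.div ((measurable_id.pow_const 2).pow_const N))
  have hp1 := polar (k := N + 1) (by omega) _ hρ1m _ hg1m (N - 1) (by
    intro r hr z
    rw [← ENNReal.ofReal_mul (by positivity), inner_smul_right, abs_mul, mul_pow, abs_of_pos hr])
  have hp2 := polar (k := N + 2) (by omega) _ hρ2m _ hJm' N (by
    intro r hr z
    rw [← ENNReal.ofReal_mul (by positivity), sc_JJ_hom_Scx hV hc r hr z])
  have hr1 : ∫⁻ r in Ioi (0 : ℝ), ENNReal.ofReal (ψ (r ^ 2) * (2 ^ N / (r ^ 2) ^ (N - 1))) *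
      ENNReal.ofReal (r ^ (N - 1 + (N + 1 - 1))) = ENNReal.ofReal (2 ^ N) * κ := by
    rw [hκ, ← lintegral_const_mul]
    · apply setLIntegral_congr_fun measurableSet_Ioi
      intro r hr
      have hr' : (0 : ℝ) < r := hr
      simp only []
      rw [← ENNReal.ofReal_mul (by have := hψ0 (r ^ 2); positivity),
        ← ENNReal.ofReal_mul (by positivity)]
      congr 1
      obtain ⟨M, rfl⟩ : ∃ M, N = M + 1 := ⟨N - 1, by omega⟩
      have h1 : M + 1 - 1 + (M + 1 + 1 - 1) = 2 * M + 1 := by omega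
      rw [h1]
      simp only [Nat.add_sub_cancel]
      rw [← pow_mul, pow_succ r (2 * M)]
      field_simp
    · exact ENNReal.measurable_ofReal.comp
        ((hψm.comp (measurable_id.pow_const 2)).mul measurable_id)
  have hr2 : ∫⁻ r in Ioi (0 : ℝ), ENNReal.ofReal (ψ (r ^ 2) * (2 ^ N / (r ^ 2) ^ N)) *
      ENNReal.ofReal (r ^ (N + (N + 2 - 1))) = ENNReal.ofReal (2 ^ N) * κ := by
    rw [hκ, ← lintegral_const_mul]
    · apply setLIntegral_congr_fun measurableSet_Ioi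
      intro r hr
      have hr' : (0 : ℝ) < r := hr
      simp only []
      rw [← ENNReal.ofReal_mul (by have := hψ0 (r ^ 2); positivity),
        ← ENNReal.ofReal_mul (by positivity)]
      congr 1
      have h1 : N + (N + 2 - 1) = 2 * N + 1 := by omega
      rw [h1, ← pow_mul, pow_succ r (2 * N)]
      field_simp
    · exact ENNReal.measurable_ofReal.comp
        ((hψm.comp (measurable_id.pow_const 2)).mul measurable_id)
  have hF0 : ∀ y, 0 ≤ F y := by
    intro y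
    rw [hF]
    have := hψ0 (‖y‖ ^ 2)
    positivity
  have hG0 : ∀ z, 0 ≤ G z := by
    intro z
    rw [hG]
    have h1 := hψ0 (‖z‖ ^ 2)
    have h2 := JJ_nonneg (sm z c).ofLp (V (sm z c)).ofLp (Bm V (sm z c)) z.ofLp
    positivity
  have hFm : Measurable F := by
    rw [hF]
    exact ((hψm.comp (measurable_norm.pow_const 2)).mul
      (measurable_const.div ((measurable_norm.pow_const 2).pow_const (N - 1)))).mul
      (((continuous_const.inner continuous_id).abs).pow (N - 1)).measurable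
  have hGm : Measurable G := by
    rw [hG]
    exact ((hψm.comp (measurable_norm.pow_const 2)).mul
      (measurable_const.div ((measurable_norm.pow_const 2).pow_const N))).mul hJm
  have hFl : ∫⁻ y, ENNReal.ofReal (F y) =
      (ENNReal.ofReal (2 ^ N) * κ) * (ENNReal.ofReal (2 / 2 ^ N) * sg (N + 1) univ) := by
    rw [← hr1, ← K0 hN hN2 w hw1, ← hp1]
    congr 1
    funext y
    rw [hF]
    simp only []
    rw [ENNReal.ofReal_mul (by have := hψ0 (‖y‖ ^ 2); positivity)]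
  have hGl : ∫⁻ z, ENNReal.ofReal (G z) = (ENNReal.ofReal (2 ^ N) * κ) *
      ∫⁻ f : sphere (0 : E (N + 2)) 1, ENNReal.ofReal (JJ (sm (f : E (N + 2)) c).ofLp
        (V (sm (f : E (N + 2)) c)).ofLp (Bm V (sm (f : E (N + 2)) c)) (f : E (N + 2)).ofLp)
        ∂(sg (N + 2)) := by
    rw [← hr2]
    refine Eq.trans ?_ hp2
    congr 1
    funext z
    rw [hG]
    simp only []
    rw [ENNReal.ofReal_mul (by have := hψ0 (‖z‖ ^ 2); positivity)]
  have hfin : ∫⁻ y, ENNReal.ofReal (F y) < ⊤ := by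
    rw [hFl]
    apply ENNReal.mul_lt_top
    · exact ENNReal.mul_lt_top ENNReal.ofReal_lt_top (lt_top_iff_ne_top.2 hκt)
    · exact ENNReal.mul_lt_top ENNReal.ofReal_lt_top (measure_lt_top _ _)
  have hfinal := sc_conv_Scx F G hFm hGm hF0 hG0 hfin hmain
  rw [hFl, hGl] at hfinal
  obtain ⟨J, hJ⟩ : ∃ J, J = ∫⁻ f : sphere (0 : E (N + 2)) 1, ENNReal.ofReal (JJ (sm (f : E (N + 2)) c).ofLp
        (V (sm (f : E (N + 2)) c)).ofLp (Bm V (sm (f : E (N + 2)) c)) (f : E (N + 2)).ofLp)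
        ∂(sg (N + 2)) := ⟨_, rfl⟩
  rw [← hJ] at hfinal ⊢
  have h2 : ENNReal.ofReal Real.pi * (ENNReal.ofReal (2 ^ N) * κ *
      (ENNReal.ofReal (2 / 2 ^ N) * sg (N + 1) univ)) =
      κ * (ENNReal.ofReal (2 * Real.pi) * sg (N + 1) univ) := by
    have h3 : ENNReal.ofReal (2 * Real.pi) =
        ENNReal.ofReal Real.pi * ENNReal.ofReal (2 ^ N) * ENNReal.ofReal (2 / 2 ^ N) := by
      rw [← ENNReal.ofReal_mul Real.pi_pos.le, ← ENNReal.ofReal_mul (by positivity)]
      congr 1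
      field_simp
    rw [h3]
    ring
  have h4 : ENNReal.ofReal (2 ^ N) * κ * J = κ * (ENNReal.ofReal (2 ^ N) * J) := by ring
  rw [h2, h4] at hfinal
  exact (ENNReal.mul_le_mul_iff_right hκ0 hκt).1 hfinal



end Pool.Agent.Helper82.OS
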