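import Mathlib
import Pool.Agent.Helper82.OS.Defs
import Pool.Agent.Helper82.OS.Ext
import Pool.Agent.Helper82.OS.JJ_homog
import Pool.Agent.Helper82.OS.Sc
import Pool.Agent.Helper82.OS.sm_props
set_option autoImplicit false
open Matrix MeasureTheory Set Metric Filter Topology
open scoped ENNReal ContDiff

namespace Pool.Agent.Helper82.OS
theorem I1 {D : ℕ} (z : E D) (hz : z ≠ 0) (d : ℝ) (hd : 0 ≤ d) (g : E D → ℝ≥0∞) (hg : Measurable g) :
    ∫⁻ c in sphere (0 : E D) 1, g (sm z c) ∂(Measure.hausdorffMeasure d)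
      = ∫⁻ c in sphere (0 : E D) 1, g c ∂(Measure.hausdorffMeasure d) := by
  obtain ⟨R, hR⟩ := sm_isom z hz
  have hmp : MeasurePreserving R (Measure.hausdorffMeasure d) (Measure.hausdorffMeasure d) :=
    R.toIsometryEquiv.measurePreserving_hausdorffMeasure d
  have hS : MeasurableSet (sphere (0 : E D) 1) := isClosed_sphere.measurableSet
  have hpre : R ⁻¹' (sphere (0 : E D) 1) = sphere (0 : E D) 1 := by
    ext y
    simp
  have h := hmp.setLIntegral_comp_preimage hS hg
  rw [hpre] at h
  rw [← h]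
  simp only [hR]

theorem Bm_cont_aux_I1x {D : ℕ} {V : E D → E D} (hV : UT V) : Continuous (Bm V) := by
  have hsm := hV.sm
  have hf : Continuous (fderiv ℝ V) := hsm.continuous_fderiv (by simp)
  have h1 : Continuous (fun x : E D => mat (fderiv ℝ V x)) := by
    refine continuous_matrix fun i j => ?_
    have h2 : Continuous (fun x : E D => (fderiv ℝ V x) (EuclideanSpace.single j 1)) :=
      hf.clm_apply continuous_const
    have h3 : Continuous (fun y : E D => y i) := by fun_prop
    exact h3.comp h2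
  have h4 : Continuous (fun x : E D => (1 - vecMulVec x.ofLp x.ofLp : Matrix (Fin D) (Fin D) ℝ)) := by
    refine continuous_const.sub ?_
    refine continuous_matrix fun i j => ?_
    simp only [vecMulVec_apply]
    fun_prop
  exact (h4.matrix_mul h1).matrix_mul h4

theorem dens_cont_aux_I1x {D : ℕ} {V : E D → E D} (hV : UT V) : Continuous (dens V) := by
  have h := Bm_cont_aux_I1x hV
  unfold dens
  exact Real.continuous_sqrt.comp
    ((continuous_const.add (h.matrix_mul h.matrix_transpose)).matrix_det)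

theorem main_lower {N : ℕ} (hN : Even N) (hN2 : 2 ≤ N) (hS : Star N) {V : E (N + 2) → E (N + 2)} (hV : UT V) :
    ENNReal.ofReal (2 * Real.pi) * sg (N + 1) univ *
      (Measure.hausdorffMeasure ((N + 1 : ℕ) : ℝ) : Measure (E (N + 2))) (sphere 0 1)
      ≤ ENNReal.ofReal (2 ^ N) * cN N *
        ∫⁻ x in sphere (0 : E (N + 2)) 1, ENNReal.ofReal (dens V x) ∂(Measure.hausdorffMeasure ((N + 1 : ℕ) : ℝ)) := by
  set μ : Measure (E (N + 2)) := Measure.hausdorffMeasure ((N + 1 : ℕ) : ℝ) with hμ
  have hfin : μ (sphere (0 : E (N + 2)) 1) ≠ ⊤ := B08_sphere_finite (N + 1)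
  have : IsFiniteMeasure (μ.restrict (sphere (0 : E (N + 2)) 1)) :=
    ⟨by rw [Measure.restrict_apply_univ]; exact lt_top_iff_ne_top.mpr hfin⟩
  have hSm : MeasurableSet (sphere (0 : E (N + 2)) 1) := isClosed_sphere.measurableSet
  have hf0 : ∀ f : sphere (0 : E (N + 2)) 1, (f : E (N + 2)) ≠ 0 := by
    intro f hf
    have := f.2
    rw [mem_sphere_zero_iff_norm, hf, norm_zero] at this
    exact zero_ne_one this
  let F : E (N + 2) × E (N + 2) → ℝ≥0∞ := fun p =>
    ENNReal.ofReal (JJ p.1.ofLp (V p.1).ofLp (Bm V p.1) p.2.ofLp)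
  have hFc : Continuous F := ENNReal.continuous_ofReal.comp (JJ_cont hV)
  have hFm : Measurable F := hFc.measurable
  -- the map (c,f) ↦ (sm f c, f)
  have hsmc : Continuous (fun q : E (N + 2) × sphere (0 : E (N + 2)) 1 =>
      sm (q.2 : E (N + 2)) q.1) := by
    have h1 : ContinuousOn (fun p : E (N + 2) × E (N + 2) => sm p.1 p.2) {p | p.1 ≠ 0} :=
      sm_contDiff.continuousOn
    have h2 : Continuous (fun q : E (N + 2) × sphere (0 : E (N + 2)) 1 =>
        ((q.2 : E (N + 2)), q.1)) := by fun_prop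
    have h3 : ∀ q : E (N + 2) × sphere (0 : E (N + 2)) 1,
        ((q.2 : E (N + 2)), q.1) ∈ {p : E (N + 2) × E (N + 2) | p.1 ≠ 0} := by
      intro q
      rw [Set.mem_ofPred_eq]
      exact hf0 q.2
    have h5 := ContinuousOn.comp_continuous h1 h2 h3
    exact h5
  have hGm : Measurable (fun q : E (N + 2) × sphere (0 : E (N + 2)) 1 =>
      F (sm (q.2 : E (N + 2)) q.1, (q.2 : E (N + 2)))) := by
    have h3 : Continuous (fun q : E (N + 2) × sphere (0 : E (N + 2)) 1 =>
        (q.2 : E (N + 2))) := continuous_subtype_val.comp continuous_snd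
    have h4 : Continuous (fun q : E (N + 2) × sphere (0 : E (N + 2)) 1 =>
        (sm (q.2 : E (N + 2)) q.1, (q.2 : E (N + 2)))) := hsmc.prodMk h3
    exact hFm.comp h4.measurable
  have hHm : Measurable (fun q : E (N + 2) × sphere (0 : E (N + 2)) 1 =>
      F (q.1, (q.2 : E (N + 2)))) := by
    have h3 : Continuous (fun q : E (N + 2) × sphere (0 : E (N + 2)) 1 =>
        (q.2 : E (N + 2))) := continuous_subtype_val.comp continuous_snd
    have h4 : Continuous (fun q : E (N + 2) × sphere (0 : E (N + 2)) 1 =>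
        (q.1, (q.2 : E (N + 2)))) := continuous_fst.prodMk h3
    exact hFm.comp h4.measurable
  calc ENNReal.ofReal (2 * Real.pi) * sg (N + 1) univ * μ (sphere 0 1)
      = ∫⁻ c in sphere (0 : E (N + 2)) 1, ENNReal.ofReal (2 * Real.pi) * sg (N + 1) univ ∂μ := by
        rw [setLIntegral_const]
    _ ≤ ∫⁻ c in sphere (0 : E (N + 2)) 1, ENNReal.ofReal (2 ^ N) *
          ∫⁻ f : sphere (0 : E (N + 2)) 1, F (sm (f : E (N + 2)) c, (f : E (N + 2))) ∂(sg (N + 2)) ∂μ := by
        refine setLIntegral_mono' hSm fun c hc => ?_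
        exact Sc hN hN2 hV (by simpa using hc)
    _ = ENNReal.ofReal (2 ^ N) * ∫⁻ c in sphere (0 : E (N + 2)) 1,
          ∫⁻ f : sphere (0 : E (N + 2)) 1, F (sm (f : E (N + 2)) c, (f : E (N + 2))) ∂(sg (N + 2)) ∂μ := by
        rw [lintegral_const_mul' _ _ ENNReal.ofReal_ne_top]
    _ = ENNReal.ofReal (2 ^ N) * ∫⁻ f : sphere (0 : E (N + 2)) 1, ∫⁻ c in sphere (0 : E (N + 2)) 1,
          F (sm (f : E (N + 2)) c, (f : E (N + 2))) ∂μ ∂(sg (N + 2)) := by
        congr 1
        exact lintegral_lintegral_swap hGm.aemeasurable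
    _ = ENNReal.ofReal (2 ^ N) * ∫⁻ f : sphere (0 : E (N + 2)) 1, ∫⁻ c in sphere (0 : E (N + 2)) 1,
          F (c, (f : E (N + 2))) ∂μ ∂(sg (N + 2)) := by
        congr 1
        refine lintegral_congr fun f => ?_
        exact I1 (f : E (N + 2)) (hf0 f) _ (by positivity)
          (fun x => F (x, (f : E (N + 2)))) (hFm.comp (by fun_prop))
    _ = ENNReal.ofReal (2 ^ N) * ∫⁻ c in sphere (0 : E (N + 2)) 1,
          ∫⁻ f : sphere (0 : E (N + 2)) 1, F (c, (f : E (N + 2))) ∂(sg (N + 2)) ∂μ := by
        congr 1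
        exact (lintegral_lintegral_swap hHm.aemeasurable).symm
    _ ≤ ENNReal.ofReal (2 ^ N) * ∫⁻ c in sphere (0 : E (N + 2)) 1,
          ENNReal.ofReal (dens V c) * cN N ∂μ := by
        gcongr 1
        refine setLIntegral_mono' hSm fun x hx => ?_
        have hx1 : ‖x‖ = 1 := by simpa using hx
        obtain ⟨h1, h2, h3⟩ := Bm_props hV hx1
        have ht := hV.tan x hx1
        have hu := hV.unit x hx1
        refine hS x.ofLp (V x).ofLp (Bm V x) ?_ ?_ ?_ h1 h2 h3
        · have h := real_inner_self_eq_norm_sq x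
          rw [hx1, EuclideanSpace.inner_eq_star_dotProduct] at h
          simpa using h
        · have h := real_inner_self_eq_norm_sq (V x)
          rw [hu, EuclideanSpace.inner_eq_star_dotProduct] at h
          simpa using h
        · rw [EuclideanSpace.inner_eq_star_dotProduct] at ht
          rw [dotProduct_comm]
          simpa using ht
    _ = ENNReal.ofReal (2 ^ N) * cN N * ∫⁻ x in sphere (0 : E (N + 2)) 1, ENNReal.ofReal (dens V x) ∂μ := by
        have hdm : Measurable (fun x : E (N + 2) => ENNReal.ofReal (dens V x)) :=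
          ENNReal.measurable_ofReal.comp (dens_cont_aux_I1x hV).measurable
        rw [lintegral_mul_const _ hdm]
        ring



end Pool.Agent.Helper82.OS
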