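import Mathlib
import Pool.Agent.Helper82.OS.Defs
import Pool.Agent.Helper82.OS.D0
import Pool.Agent.Helper82.OS.PPd
import Pool.Agent.Helper82.OS.polar
set_option autoImplicit false
open Matrix MeasureTheory Set Metric Filter Topology
open scoped ENNReal ContDiff

namespace Pool.Agent.Helper82.OS
theorem Pint_norm_Pintx {k : ℕ} (c : E (k + 1)) (hc : ‖c‖ = 1) (ι : E k →ₗᵢ[ℝ] E (k + 1))
    (h : ∀ y, inner ℝ c (ι y) = 0) (x : ℝ) (w : E k) :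
    inner ℝ c (x • c + ι w) = x ∧ ‖x • c + ι w‖ ^ 2 = x ^ 2 + ‖w‖ ^ 2 := by
  constructor
  · rw [inner_add_right, inner_smul_right, real_inner_self_eq_norm_sq, hc, h]
    ring
  · rw [@norm_add_sq_real, norm_smul, hc, inner_smul_left, h, ι.norm_map, Real.norm_eq_abs]
    simp

theorem Pint_red_Pintx {N : ℕ} (a v : E (N + 2)) (ha : ‖a‖ = 1) (hv : ‖v‖ = 1) (hav : inner ℝ a v = 0)
    (H : ℝ × ℝ × ℝ → ℝ≥0∞) (hH : Measurable H) :
    ∫⁻ z : E (N + 2), H (inner ℝ a z, inner ℝ v z, ‖z‖) =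
      ∫⁻ b : ℝ, ∫⁻ y : E N, ∫⁻ x : ℝ, H (x, b, Real.sqrt (x ^ 2 + (b ^ 2 + ‖y‖ ^ 2))) := by
  obtain ⟨ι, h1, h2, h3⟩ := D0 (k := N + 1) a ha
  obtain ⟨v', hv'⟩ := h2 v hav
  have hv'1 : ‖v'‖ = 1 := by rw [← ι.norm_map, hv', hv]
  have hF : Measurable (fun z : E (N + 2) => H (inner ℝ a z, inner ℝ v z, ‖z‖)) := by
    apply hH.comp
    fun_prop
  rw [← h3.lintegral_comp hF]
  have e1 : ∀ p : ℝ × E (N + 1), H (inner ℝ a (p.1 • a + ι p.2), inner ℝ v (p.1 • a + ι p.2), ‖p.1 • a + ι p.2‖) =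
      H (p.1, inner ℝ v' p.2, Real.sqrt (p.1 ^ 2 + ‖p.2‖ ^ 2)) := by
    intro p
    obtain ⟨q1, q2⟩ := Pint_norm_Pintx a ha ι h1 p.1 p.2
    have q3 : ‖p.1 • a + ι p.2‖ = Real.sqrt (p.1 ^ 2 + ‖p.2‖ ^ 2) := by
      rw [← q2, Real.sqrt_sq (norm_nonneg _)]
    have q4 : inner ℝ v (p.1 • a + ι p.2) = inner ℝ v' p.2 := by
      rw [inner_add_right, inner_smul_right, real_inner_comm, hav, mul_zero, zero_add, ← hv', ι.inner_map_map]
    rw [q1, q3, q4]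
  simp only [e1]
  have hG : Measurable (fun p : ℝ × E (N + 1) => H (p.1, inner ℝ v' p.2, Real.sqrt (p.1 ^ 2 + ‖p.2‖ ^ 2))) := by
    apply hH.comp
    fun_prop
  rw [lintegral_prod_symm _ hG.aemeasurable]
  obtain ⟨ι', g1, g2, g3⟩ := D0 (k := N) v' hv'1
  have hΦ : Measurable (fun w : E (N + 1) => ∫⁻ x : ℝ, H (x, inner ℝ v' w, Real.sqrt (x ^ 2 + ‖w‖ ^ 2))) :=
    hG.lintegral_prod_left'
  have step := g3.lintegral_comp hΦ
  rw [← step]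
  have e2 : ∀ p : ℝ × E N, (∫⁻ x : ℝ, H (x, inner ℝ v' (p.1 • v' + ι' p.2), Real.sqrt (x ^ 2 + ‖p.1 • v' + ι' p.2‖ ^ 2))) =
      ∫⁻ x : ℝ, H (x, p.1, Real.sqrt (x ^ 2 + (p.1 ^ 2 + ‖p.2‖ ^ 2))) := by
    intro p
    obtain ⟨q1, q2⟩ := Pint_norm_Pintx v' hv'1 ι' g1 p.1 p.2
    rw [q1, q2]
  simp only [e2]
  have hK : Measurable (fun q : (ℝ × E N) × ℝ => H (q.2, q.1.1, Real.sqrt (q.2 ^ 2 + (q.1.1 ^ 2 + ‖q.1.2‖ ^ 2)))) := by
    apply hH.comp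
    fun_prop
  have hΨ : Measurable (fun p : ℝ × E N => ∫⁻ x : ℝ, H (x, p.1, Real.sqrt (x ^ 2 + (p.1 ^ 2 + ‖p.2‖ ^ 2)))) :=
    hK.lintegral_prod_right'
  rw [lintegral_prod _ hΨ.aemeasurable]

theorem Pint_rpow_Pintx (x : ℝ) (hx : 0 < x) : x ^ (-(3/2) : ℝ) = (x * Real.sqrt x)⁻¹ := by
  rw [Real.rpow_neg hx.le, Real.sqrt_eq_rpow]
  congr 1
  have : (3/2 : ℝ) = 1 + 1/2 := by norm_num
  rw [this, Real.rpow_add hx, Real.rpow_one]

theorem Pint_x_Pintx (N : ℕ) (b q : ℝ) (hq : 0 < q) :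
    ∫⁻ x : ℝ, ENNReal.ofReal ((Real.sqrt (x^2+q)) ^ (-(3/2):ℝ) * Real.exp (-(Real.sqrt (x^2+q)))) *
      ENNReal.ofReal (fP N (x / Real.sqrt (x^2+q)) (b / Real.sqrt (x^2+q))) =
    ∫⁻ τ in Ioi (0:ℝ), ENNReal.ofReal (Real.sqrt 2 * τ ^ (-(3/2):ℝ) * (Real.sqrt (τ^2+b^2)/τ)^(N-1) *
      Real.exp (-((τ + q/τ)/2))) := by
  have hder : ∀ τ ∈ Ioi (0:ℝ), HasDerivWithinAt (fun τ : ℝ => (τ - q/τ)/2) ((1 + q/τ^2)/2) (Ioi 0) τ := by
    intro τ hτ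
    have hτ0 : τ ≠ 0 := ne_of_gt hτ
    have h1 : HasDerivAt (fun τ : ℝ => (τ - q/τ)/2) ((1 - q * (-(τ^2)⁻¹))/2) τ := by
      have h2 := (hasDerivAt_inv hτ0).const_mul q
      have h3 := ((hasDerivAt_id τ).sub h2).div_const 2
      exact h3
    have e : (1 + q/τ^2)/2 = (1 - q * (-(τ^2)⁻¹))/2 := by
      rw [div_eq_mul_inv q]; ring
    rw [e]
    exact h1.hasDerivWithinAt
  have hinj : InjOn (fun τ : ℝ => (τ - q/τ)/2) (Ioi 0) := by
    intro τ1 h1 τ2 h2 h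
    have h1' : (0 : ℝ) < τ1 := h1
    have h2' : (0 : ℝ) < τ2 := h2
    have h3 : (τ1 - q/τ1)/2 = (τ2 - q/τ2)/2 := h
    have h4 : (τ1 - τ2) * (τ1 * τ2 + q) = 0 := by
      field_simp at h3
      nlinarith
    have h5 : τ1 * τ2 + q ≠ 0 := by positivity
    have h6 := (mul_eq_zero.mp h4).resolve_right h5
    linarith
  have himg : (fun τ : ℝ => (τ - q/τ)/2) '' (Ioi 0) = univ := by
    rw [eq_univ_iff_forall]
    intro x
    have hs : 0 < x^2 + q := by positivity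
    have h1 : |x| < Real.sqrt (x^2+q) := by
      rw [← Real.sqrt_sq_eq_abs]
      exact Real.sqrt_lt_sqrt (sq_nonneg x) (by linarith)
    have h2 : 0 < x + Real.sqrt (x^2+q) := by
      have := neg_abs_le x
      linarith
    refine ⟨x + Real.sqrt (x^2+q), h2, ?_⟩
    show ((x + Real.sqrt (x^2+q)) - q/(x + Real.sqrt (x^2+q)))/2 = x
    have h3 := Real.sq_sqrt hs.le
    field_simp
    nlinarith
  have key := lintegral_image_eq_lintegral_abs_deriv_mul measurableSet_Ioi hder hinj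
    (fun x => ENNReal.ofReal ((Real.sqrt (x^2+q)) ^ (-(3/2):ℝ) * Real.exp (-(Real.sqrt (x^2+q)))) *
      ENNReal.ofReal (fP N (x / Real.sqrt (x^2+q)) (b / Real.sqrt (x^2+q))))
  rw [himg, setLIntegral_univ] at key
  rw [key]
  apply setLIntegral_congr_fun measurableSet_Ioi
  intro τ hτ
  have hτ0 : (0 : ℝ) < τ := hτ
  have hn : Real.sqrt (((τ - q/τ)/2)^2 + q) = (τ + q/τ)/2 := by
    have e : ((τ - q/τ)/2)^2 + q = ((τ + q/τ)/2)^2 := by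
      field_simp
      ring
    rw [e]
    exact Real.sqrt_sq (by positivity)
  obtain ⟨n, hndef⟩ : ∃ n, n = (τ + q/τ)/2 := ⟨_, rfl⟩
  have hn0 : 0 < n := by rw [hndef]; positivity
  show ENNReal.ofReal |(1 + q/τ^2)/2| * (ENNReal.ofReal ((Real.sqrt (((τ - q/τ)/2)^2+q)) ^ (-(3/2):ℝ) * Real.exp (-(Real.sqrt (((τ - q/τ)/2)^2+q)))) *
      ENNReal.ofReal (fP N (((τ - q/τ)/2) / Real.sqrt (((τ - q/τ)/2)^2+q)) (b / Real.sqrt (((τ - q/τ)/2)^2+q)))) = _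
  rw [hn, ← hndef]
  have e1 : |(1 + q/τ^2)/2| = n / τ := by
    rw [abs_of_pos (by positivity), hndef]
    field_simp
  have e2 : 1 + ((τ - q/τ)/2) / n = τ / n := by
    rw [eq_div_iff hn0.ne', add_mul, div_mul_cancel₀ _ hn0.ne', hndef]
    ring
  have e3 : fP N (((τ - q/τ)/2) / n) (b / n) = (Real.sqrt (τ^2+b^2)/τ)^(N-1) * Real.sqrt (2 * n / τ) := by
    unfold fP
    rw [e2]
    have e4 : Real.sqrt ((τ / n) ^ 2 + (b / n) ^ 2) / (τ / n) = Real.sqrt (τ^2+b^2)/τ := by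
      have e5 : (τ / n) ^ 2 + (b / n) ^ 2 = (τ^2+b^2) / n^2 := by ring
      rw [e5, Real.sqrt_div (by positivity), Real.sqrt_sq hn0.le]
      field_simp
    have e6 : 2 / (τ / n) = 2 * n / τ := by field_simp
    rw [e4, e6]
  rw [e1, e3, ← ENNReal.ofReal_mul (by positivity), ← ENNReal.ofReal_mul (by positivity)]
  congr 1
  show _ = Real.sqrt 2 * τ ^ (-(3/2):ℝ) * (Real.sqrt (τ^2+b^2)/τ)^(N-1) * Real.exp (-((τ + q/τ)/2))
  rw [← hndef]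
  rw [Pint_rpow_Pintx n hn0, Pint_rpow_Pintx τ hτ0, Real.sqrt_div (by positivity), Real.sqrt_mul (by norm_num)]
  have hsn : 0 < Real.sqrt n := Real.sqrt_pos.mpr hn0
  have hst : 0 < Real.sqrt τ := Real.sqrt_pos.mpr hτ0
  field_simp

theorem Pint_ofint_Pintx {α : Type*} [MeasurableSpace α] (μ : Measure α) (f : α → ℝ) (hf : 0 ≤ᵐ[μ] f) (c : ℝ)
    (hc : 0 < c) (h : ∫ x, f x ∂μ = c) : ∫⁻ x, ENNReal.ofReal (f x) ∂μ = ENNReal.ofReal c := by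
  have hi : Integrable f μ := by
    by_contra h'
    rw [integral_undef h'] at h
    linarith
  rw [← h, ofReal_integral_eq_lintegral_ofReal hi hf]

theorem Pint_gauss_Pintx (N : ℕ) (τ : ℝ) (hτ : 0 < τ) :
    ∫⁻ y : E N, ENNReal.ofReal (Real.exp (-(1/(2*τ)) * ‖y‖^2)) = ENNReal.ofReal ((2 * Real.pi * τ) ^ ((N:ℝ)/2)) := by
  apply Pint_ofint_Pintx
  · exact Filter.Eventually.of_forall (fun y => (Real.exp_pos _).le)
  · have := Real.pi_pos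
    positivity
  · rw [GaussianFourier.integral_rexp_neg_mul_sq_norm (V := E N) (b := 1/(2*τ)) (by positivity)]
    rw [finrank_euclideanSpace, Fintype.card_fin]
    congr 1
    field_simp

theorem Pint_scale_Pintx (F : ℝ → ℝ≥0∞) (τ : ℝ) (hτ : 0 < τ) :
    ∫⁻ b : ℝ, F b = ENNReal.ofReal τ * ∫⁻ s : ℝ, F (τ * s) := by
  have hder : ∀ s ∈ (univ : Set ℝ), HasDerivWithinAt (fun s : ℝ => τ * s) τ univ s := by
    intro s _
    have h := (hasDerivAt_id s).const_mul τ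
    rw [mul_one] at h
    exact h.hasDerivWithinAt
  have hinj : InjOn (fun s : ℝ => τ * s) univ := fun s _ t _ h => mul_left_cancel₀ hτ.ne' h
  have himg : (fun s : ℝ => τ * s) '' univ = univ := by
    rw [eq_univ_iff_forall]
    intro x
    exact ⟨x / τ, mem_univ _, by field_simp⟩
  have key := lintegral_image_eq_lintegral_abs_deriv_mul MeasurableSet.univ hder hinj F
  rw [himg, setLIntegral_univ, setLIntegral_univ, lintegral_const_mul' _ _ ENNReal.ofReal_ne_top, abs_of_pos hτ] at key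
  exact key

theorem Pint_gam_Pintx (N : ℕ) (s : ℝ) :
    ∫⁻ τ in Ioi (0:ℝ), ENNReal.ofReal (τ ^ (((N:ℝ)+1)/2 - 1) * Real.exp (-(((1+s^2)/2) * τ))) =
      ENNReal.ofReal ((1 / ((1+s^2)/2)) ^ (((N:ℝ)+1)/2) * Real.Gamma (((N:ℝ)+1)/2)) := by
  have ha : 0 < ((N:ℝ)+1)/2 := by positivity
  apply Pint_ofint_Pintx
  · rw [Filter.EventuallyLE, ae_restrict_iff' measurableSet_Ioi]
    exact Filter.Eventually.of_forall (fun τ hτ => by
      have : (0 : ℝ) < τ := hτ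
      show 0 ≤ τ ^ (((N:ℝ)+1)/2 - 1) * Real.exp (-(((1+s^2)/2) * τ))
      positivity)
  · have := Real.Gamma_pos_of_pos ha
    positivity
  · exact Real.integral_rpow_mul_exp_neg_mul_Ioi ha (by positivity)

theorem Pint_alg_Pintx (N : ℕ) (hN : 1 ≤ N) (s : ℝ) :
    (Real.sqrt (1 + s^2)) ^ (N-1) * (1 / ((1+s^2)/2)) ^ (((N:ℝ)+1)/2) = 2 ^ (((N:ℝ)+1)/2) * (1 + s^2)⁻¹ := by
  have h1 : 0 < 1 + s^2 := by positivity
  have e1 : (Real.sqrt (1 + s^2)) ^ (N-1) = (1+s^2) ^ (((N:ℝ)-1)/2) := by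
    rw [Real.sqrt_eq_rpow, ← Real.rpow_natCast, ← Real.rpow_mul h1.le]
    congr 1
    rw [Nat.cast_sub hN]
    push_cast
    ring
  have e2 : (1 / ((1+s^2)/2)) = 2 * (1+s^2)⁻¹ := by field_simp
  rw [e1, e2, Real.mul_rpow (by norm_num) (by positivity), ← Real.rpow_neg_one (1+s^2), ← Real.rpow_mul h1.le]
  rw [mul_left_comm, ← Real.rpow_add h1]
  congr 2
  ring

theorem Pint_total_Pintx (N : ℕ) (hN : 1 ≤ N) :
    ∫⁻ b : ℝ, ∫⁻ y : E N, ∫⁻ τ in Ioi (0:ℝ), ENNReal.ofReal (Real.sqrt 2 * τ ^ (-(3/2):ℝ) * (Real.sqrt (τ^2+b^2)/τ)^(N-1) *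
      Real.exp (-((τ + (b^2 + ‖y‖^2)/τ)/2))) =
    ENNReal.ofReal (Real.sqrt 2 * (2 * Real.pi) ^ ((N : ℝ) / 2) * Real.Gamma (((N : ℝ) + 1) / 2)
          * 2 ^ (((N : ℝ) + 1) / 2) * Real.pi) := by
  have hpi := Real.pi_pos
  -- swap
  have hmeas : Measurable (fun q : (ℝ × E N) × ℝ => ENNReal.ofReal (Real.sqrt 2 * q.2 ^ (-(3/2):ℝ) * (Real.sqrt (q.2^2+q.1.1^2)/q.2)^(N-1) *
      Real.exp (-((q.2 + (q.1.1^2 + ‖q.1.2‖^2)/q.2)/2)))) := by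
    apply ENNReal.measurable_ofReal.comp
    fun_prop
  have hpr : ∫⁻ b : ℝ, ∫⁻ y : E N, ∫⁻ τ in Ioi (0:ℝ), ENNReal.ofReal (Real.sqrt 2 * τ ^ (-(3/2):ℝ) * (Real.sqrt (τ^2+b^2)/τ)^(N-1) *
      Real.exp (-((τ + (b^2 + ‖y‖^2)/τ)/2))) = ∫⁻ p : ℝ × E N, (∫⁻ τ in Ioi (0:ℝ), ENNReal.ofReal (Real.sqrt 2 * τ ^ (-(3/2):ℝ) * (Real.sqrt (τ^2+p.1^2)/τ)^(N-1) *
      Real.exp (-((τ + (p.1^2 + ‖p.2‖^2)/τ)/2)))) ∂(volume.prod volume) := by
    rw [lintegral_prod _ (Measurable.lintegral_prod_right' hmeas).aemeasurable]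
  rw [hpr, lintegral_lintegral_swap hmeas.aemeasurable]
  have hinner : ∀ τ ∈ Ioi (0:ℝ), ∫⁻ p : ℝ × E N, ENNReal.ofReal (Real.sqrt 2 * τ ^ (-(3/2):ℝ) * (Real.sqrt (τ^2+p.1^2)/τ)^(N-1) *
      Real.exp (-((τ + (p.1^2 + ‖p.2‖^2)/τ)/2))) ∂(volume.prod volume) =
      ∫⁻ s : ℝ, ENNReal.ofReal ((Real.sqrt 2 * (2 * Real.pi) ^ ((N : ℝ) / 2) * (Real.sqrt (1 + s^2)) ^ (N-1)) *
        (τ ^ (((N:ℝ)+1)/2 - 1) * Real.exp (-(((1+s^2)/2) * τ)))) := by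
    intro τ hτ
    have hτ0 : (0 : ℝ) < τ := hτ
    have hA : Measurable (fun b : ℝ => ENNReal.ofReal (Real.sqrt 2 * τ ^ (-(3/2):ℝ) * (Real.sqrt (τ^2+b^2)/τ)^(N-1) * Real.exp (-((τ + b^2/τ)/2)))) := by
      apply ENNReal.measurable_ofReal.comp
      fun_prop
    have hB : Measurable (fun y : E N => ENNReal.ofReal (Real.exp (-(1/(2*τ)) * ‖y‖^2))) := by
      apply ENNReal.measurable_ofReal.comp
      fun_prop
    have e1 : (fun p : ℝ × E N => ENNReal.ofReal (Real.sqrt 2 * τ ^ (-(3/2):ℝ) * (Real.sqrt (τ^2+p.1^2)/τ)^(N-1) *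
      Real.exp (-((τ + (p.1^2 + ‖p.2‖^2)/τ)/2)))) = fun p : ℝ × E N =>
        ENNReal.ofReal (Real.sqrt 2 * τ ^ (-(3/2):ℝ) * (Real.sqrt (τ^2+p.1^2)/τ)^(N-1) * Real.exp (-((τ + p.1^2/τ)/2))) *
          ENNReal.ofReal (Real.exp (-(1/(2*τ)) * ‖p.2‖^2)) := by
      funext p
      rw [← ENNReal.ofReal_mul (by positivity)]
      congr 1
      rw [mul_assoc _ (Real.exp (-((τ + p.1^2/τ)/2))), ← Real.exp_add]
      congr 2
      field_simp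
      ring
    rw [e1, lintegral_prod_mul hA.aemeasurable hB.aemeasurable, Pint_gauss_Pintx N τ hτ0, Pint_scale_Pintx _ τ hτ0]
    rw [mul_right_comm, mul_comm, ← ENNReal.ofReal_mul hτ0.le, ← lintegral_mul_const' _ _ ENNReal.ofReal_ne_top]
    apply lintegral_congr
    intro s
    rw [← ENNReal.ofReal_mul (by positivity)]
    congr 1
    have e2 : Real.sqrt (τ^2+(τ*s)^2)/τ = Real.sqrt (1 + s^2) := by
      have e3 : τ^2+(τ*s)^2 = τ^2 * (1 + s^2) := by ring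
      rw [e3, Real.sqrt_mul (by positivity), Real.sqrt_sq hτ0.le]
      field_simp
    have e4 : -((τ + (τ*s)^2/τ)/2) = -(((1+s^2)/2) * τ) := by
      field_simp
    have e5 : τ ^ (((N:ℝ)+1)/2 - 1) = τ ^ (-(3/2):ℝ) * (τ * τ ^ ((N:ℝ)/2)) := by
      have e6 : τ * τ ^ ((N:ℝ)/2) = τ ^ (1 + (N:ℝ)/2) := by
        rw [Real.rpow_add hτ0, Real.rpow_one]
      rw [e6, ← Real.rpow_add hτ0]
      congr 1
      ring
    rw [e2, e4, e5, Real.mul_rpow (by positivity) hτ0.le]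
    ring
  rw [setLIntegral_congr_fun measurableSet_Ioi hinner]
  have hmeas2 : Measurable (fun q : ℝ × ℝ => ENNReal.ofReal ((Real.sqrt 2 * (2 * Real.pi) ^ ((N : ℝ) / 2) * (Real.sqrt (1 + q.2^2)) ^ (N-1)) *
        (q.1 ^ (((N:ℝ)+1)/2 - 1) * Real.exp (-(((1+q.2^2)/2) * q.1))))) := by
    apply ENNReal.measurable_ofReal.comp
    fun_prop
  rw [lintegral_lintegral_swap hmeas2.aemeasurable]
  have hs : ∀ s : ℝ, ∫⁻ τ in Ioi (0:ℝ), ENNReal.ofReal ((Real.sqrt 2 * (2 * Real.pi) ^ ((N : ℝ) / 2) * (Real.sqrt (1 + s^2)) ^ (N-1)) *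
        (τ ^ (((N:ℝ)+1)/2 - 1) * Real.exp (-(((1+s^2)/2) * τ)))) =
      ENNReal.ofReal ((Real.sqrt 2 * (2 * Real.pi) ^ ((N : ℝ) / 2) * Real.Gamma (((N : ℝ) + 1) / 2)
          * 2 ^ (((N : ℝ) + 1) / 2)) * (1 + s^2)⁻¹) := by
    intro s
    have hg := Real.Gamma_pos_of_pos (show 0 < ((N:ℝ)+1)/2 by positivity)
    have e1 : ∀ τ : ℝ, ENNReal.ofReal ((Real.sqrt 2 * (2 * Real.pi) ^ ((N : ℝ) / 2) * (Real.sqrt (1 + s^2)) ^ (N-1)) *
        (τ ^ (((N:ℝ)+1)/2 - 1) * Real.exp (-(((1+s^2)/2) * τ)))) =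
        ENNReal.ofReal (Real.sqrt 2 * (2 * Real.pi) ^ ((N : ℝ) / 2) * (Real.sqrt (1 + s^2)) ^ (N-1)) *
        ENNReal.ofReal (τ ^ (((N:ℝ)+1)/2 - 1) * Real.exp (-(((1+s^2)/2) * τ))) := by
      intro τ
      rw [ENNReal.ofReal_mul (by positivity)]
    simp only [e1]
    rw [lintegral_const_mul' _ _ ENNReal.ofReal_ne_top, Pint_gam_Pintx, ← ENNReal.ofReal_mul (by positivity)]
    congr 1
    have := Pint_alg_Pintx N hN s
    calc Real.sqrt 2 * (2 * Real.pi) ^ ((N : ℝ) / 2) * (Real.sqrt (1 + s^2)) ^ (N-1) *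
          ((1 / ((1+s^2)/2)) ^ (((N:ℝ)+1)/2) * Real.Gamma (((N:ℝ)+1)/2)) =
          Real.sqrt 2 * (2 * Real.pi) ^ ((N : ℝ) / 2) * Real.Gamma (((N:ℝ)+1)/2) *
          ((Real.sqrt (1 + s^2)) ^ (N-1) * (1 / ((1+s^2)/2)) ^ (((N:ℝ)+1)/2)) := by ring
      _ = _ := by rw [this]; ring
  simp only [hs]
  have hg := Real.Gamma_pos_of_pos (show 0 < ((N:ℝ)+1)/2 by positivity)
  apply Pint_ofint_Pintx
  · exact Filter.Eventually.of_forall (fun s => by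
      show 0 ≤ (Real.sqrt 2 * (2 * Real.pi) ^ ((N : ℝ) / 2) * Real.Gamma (((N : ℝ) + 1) / 2)
          * 2 ^ (((N : ℝ) + 1) / 2)) * (1 + s^2)⁻¹
      positivity)
  · positivity
  · rw [integral_const_mul, integral_univ_inv_one_add_sq]

theorem Pint {N : ℕ} (hN2 : 2 ≤ N) (a v : E (N + 2)) (ha : ‖a‖ = 1) (hv : ‖v‖ = 1) (hav : inner ℝ a v = 0) :
    ∫⁻ f : sphere (0 : E (N + 2)) 1,
      ENNReal.ofReal (fP N (inner ℝ a (f : E (N + 2))) (inner ℝ v (f : E (N + 2)))) ∂(sg (N + 2))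
      = ENNReal.ofReal (Real.sqrt 2 * (2 * Real.pi) ^ ((N : ℝ) / 2) * Real.Gamma (((N : ℝ) + 1) / 2)
          * 2 ^ (((N : ℝ) + 1) / 2) * Real.pi / Real.Gamma ((N : ℝ) + 1 / 2)) := by
  have hpi := Real.pi_pos
  have hG1 : 0 < Real.Gamma ((N : ℝ) + 1 / 2) := Real.Gamma_pos_of_pos (by positivity)
  obtain ⟨H, hHdef⟩ : ∃ H : ℝ × ℝ × ℝ → ℝ≥0∞, H = fun q => ENNReal.ofReal (q.2.2 ^ (-(3/2):ℝ) * Real.exp (-q.2.2)) *
    ENNReal.ofReal (fP N (q.1 / q.2.2) (q.2.1 / q.2.2)) := ⟨_, rfl⟩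
  have hH : Measurable H := by
    rw [hHdef]
    have m1 : Measurable (fun q : ℝ × ℝ × ℝ => ENNReal.ofReal (q.2.2 ^ (-(3/2):ℝ) * Real.exp (-q.2.2))) := by
      apply ENNReal.measurable_ofReal.comp
      fun_prop
    have m2 : Measurable (fun q : ℝ × ℝ × ℝ => ENNReal.ofReal (fP N (q.1 / q.2.2) (q.2.1 / q.2.2))) := by
      apply ENNReal.measurable_ofReal.comp
      unfold fP
      fun_prop
    exact m1.mul m2
  have hρ : Measurable (fun r : ℝ => ENNReal.ofReal (r ^ (-(3/2):ℝ) * Real.exp (-r))) := by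
    apply ENNReal.measurable_ofReal.comp
    fun_prop
  have hg : Measurable (fun z : E (N+2) => ENNReal.ofReal (fP N (inner ℝ a z / ‖z‖) (inner ℝ v z / ‖z‖))) := by
    apply ENNReal.measurable_ofReal.comp
    unfold fP
    fun_prop
  have hpol := polar (k := N+2) (by omega) (fun r : ℝ => ENNReal.ofReal (r ^ (-(3/2):ℝ) * Real.exp (-r))) hρ
    (fun z : E (N+2) => ENNReal.ofReal (fP N (inner ℝ a z / ‖z‖) (inner ℝ v z / ‖z‖))) hg 0 (by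
      intro r hr z
      rw [pow_zero, ENNReal.ofReal_one, one_mul, inner_smul_right, inner_smul_right, norm_smul,
        Real.norm_of_nonneg hr.le, mul_div_mul_left _ _ hr.ne', mul_div_mul_left _ _ hr.ne'])
  have hne : ∀ᵐ b : ℝ, b ≠ 0 := by
    rw [ae_iff]
    simp
  have hL : ∫⁻ z : E (N+2), ENNReal.ofReal (‖z‖ ^ (-(3/2):ℝ) * Real.exp (-‖z‖)) *
      ENNReal.ofReal (fP N (inner ℝ a z / ‖z‖) (inner ℝ v z / ‖z‖)) =
      ENNReal.ofReal (Real.sqrt 2 * (2 * Real.pi) ^ ((N : ℝ) / 2) * Real.Gamma (((N : ℝ) + 1) / 2)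
          * 2 ^ (((N : ℝ) + 1) / 2) * Real.pi) := by
    have e1 := Pint_red_Pintx a v ha hv hav H hH
    have e2 : (fun z : E (N+2) => H (inner ℝ a z, inner ℝ v z, ‖z‖)) = fun z : E (N+2) =>
        ENNReal.ofReal (‖z‖ ^ (-(3/2):ℝ) * Real.exp (-‖z‖)) *
      ENNReal.ofReal (fP N (inner ℝ a z / ‖z‖) (inner ℝ v z / ‖z‖)) := by
      rw [hHdef]
    rw [e2] at e1
    rw [e1, ← Pint_total_Pintx N (by omega)]
    apply lintegral_congr_ae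
    filter_upwards [hne] with b hb
    apply lintegral_congr
    intro y
    have hb2 : 0 < b ^ 2 := by positivity
    rw [hHdef]
    exact Pint_x_Pintx N b (b^2+‖y‖^2) (by positivity)
  have hR : ∫⁻ r in Ioi (0:ℝ), ENNReal.ofReal (r ^ (-(3/2):ℝ) * Real.exp (-r)) * ENNReal.ofReal (r ^ (0 + (N+2-1))) =
      ENNReal.ofReal (Real.Gamma ((N : ℝ) + 1 / 2)) := by
    have e1 : ∀ r ∈ Ioi (0:ℝ), ENNReal.ofReal (r ^ (-(3/2):ℝ) * Real.exp (-r)) * ENNReal.ofReal (r ^ (0 + (N+2-1))) =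
        ENNReal.ofReal (Real.exp (-r) * r ^ ((N:ℝ) + 1/2 - 1)) := by
      intro r hr
      have hr0 : (0:ℝ) < r := hr
      rw [← ENNReal.ofReal_mul (by positivity)]
      congr 1
      have e2 : r ^ (0 + (N+2-1)) = r ^ ((N:ℝ) + 1) := by
        rw [← Real.rpow_natCast]
        congr 1
        have : 0 + (N+2-1) = N + 1 := by omega
        rw [this]
        push_cast
        ring
      rw [e2]
      have e3 : r ^ ((N:ℝ) + 1/2 - 1) = r ^ (-(3/2):ℝ) * r ^ ((N:ℝ) + 1) := by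
        rw [← Real.rpow_add hr0]
        congr 1
        ring
      rw [e3]
      ring
    rw [setLIntegral_congr_fun measurableSet_Ioi e1]
    apply Pint_ofint_Pintx
    · rw [Filter.EventuallyLE, ae_restrict_iff' measurableSet_Ioi]
      exact Filter.Eventually.of_forall (fun r hr => by
        have : (0 : ℝ) < r := hr
        show 0 ≤ Real.exp (-r) * r ^ ((N:ℝ) + 1/2 - 1)
        positivity)
    · exact hG1
    · rw [Real.Gamma_eq_integral (by positivity)]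
  have hS : ∫⁻ f : sphere (0 : E (N + 2)) 1, ENNReal.ofReal (fP N (inner ℝ a (f : E (N+2)) / ‖(f : E (N+2))‖)
      (inner ℝ v (f : E (N+2)) / ‖(f : E (N+2))‖)) ∂(sg (N + 2)) = ∫⁻ f : sphere (0 : E (N + 2)) 1,
      ENNReal.ofReal (fP N (inner ℝ a (f : E (N + 2))) (inner ℝ v (f : E (N + 2)))) ∂(sg (N + 2)) := by
    apply lintegral_congr
    intro f
    have h1 : ‖(f : E (N+2))‖ = 1 := by
      have := f.2
      rwa [mem_sphere_zero_iff_norm] at this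
    rw [h1, div_one, div_one]
  rw [hR, hS] at hpol
  rw [ENNReal.ofReal_div_of_pos hG1, ENNReal.eq_div_iff (by
    rw [ne_eq, ENNReal.ofReal_eq_zero, not_le]; exact hG1) ENNReal.ofReal_ne_top, ← hpol]
  exact hL



end Pool.Agent.Helper82.OS
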