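import Mathlib
import Pool.Agent.Helper82.OS.Defs
import Pool.Agent.Helper82.OS.Defs2
set_option autoImplicit false
open Matrix MeasureTheory Set Metric Filter Topology
open scoped ENNReal ContDiff

namespace Pool.Agent.Helper82.OS
namespace Fr
variable {N : ℕ} (F : Fr N)

end Fr

theorem auxO_K_nonneg_R12x (N : ℕ) (t : ℝ) : 0 ≤ K N t := by
  unfold K
  positivity

theorem auxO_K_le_R12x (N : ℕ) (t : ℝ) : K N t ≤ (1 + t ^ 2)⁻¹ := by
  unfold K
  apply inv_anti₀ (by positivity)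
  exact le_self_pow₀ (by nlinarith [sq_nonneg t]) (by omega)

theorem auxO_K_meas_R12x (N : ℕ) : Measurable (K N) := by
  unfold K
  fun_prop

theorem auxO_pi_R12x : ∫⁻ t : ℝ, ENNReal.ofReal ((1 + t ^ 2)⁻¹) = ENNReal.ofReal Real.pi := by
  rw [← ofReal_integral_eq_lintegral_ofReal integrable_inv_one_add_sq
    (Filter.Eventually.of_forall fun t => by positivity)]
  rw [integral_univ_inv_one_add_sq]

theorem auxO_m0_lower_R12x (N : ℕ) : ENNReal.ofReal ((1 / 5) * (2 / 5) ^ N) ≤ m0 N := by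
  have h1 : ∫⁻ _ in Icc (1 : ℝ) 2, ENNReal.ofReal ((1 / 5) * (2 / 5) ^ N) =
      ENNReal.ofReal ((1 / 5) * (2 / 5) ^ N) := by
    rw [setLIntegral_const, Real.volume_Icc]
    norm_num
  rw [← h1]
  unfold m0
  calc ∫⁻ _ in Icc (1 : ℝ) 2, ENNReal.ofReal ((1 / 5) * (2 / 5) ^ N)
      ≤ ∫⁻ t in Icc (1 : ℝ) 2, ENNReal.ofReal (|t| ^ N * K N t) := by
        apply setLIntegral_mono' measurableSet_Icc
        intro t ht
        apply ENNReal.ofReal_le_ofReal
        have h2 : K N t = ((1 + t ^ 2) ^ N)⁻¹ * (1 + t ^ 2)⁻¹ := by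
          unfold K
          rw [pow_succ, mul_inv]
        rw [h2, abs_of_nonneg (by linarith [ht.1])]
        have h3 : (2 / 5 : ℝ) ≤ t / (1 + t ^ 2) := by
          rw [div_le_div_iff₀ (by norm_num) (by positivity)]
          nlinarith [ht.1, ht.2]
        have h4 : (1 / 5 : ℝ) ≤ (1 + t ^ 2)⁻¹ := by
          rw [one_div]
          apply inv_anti₀ (by positivity)
          nlinarith [ht.1, ht.2]
        have h5 : t ^ N * (((1 + t ^ 2) ^ N)⁻¹ * (1 + t ^ 2)⁻¹) =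
            (t / (1 + t ^ 2)) ^ N * (1 + t ^ 2)⁻¹ := by
          rw [div_pow]
          ring
        rw [h5, mul_comm (1 / 5 : ℝ)]
        gcongr
    _ ≤ ∫⁻ t : ℝ, ENNReal.ofReal (|t| ^ N * K N t) := setLIntegral_le_lintegral _ _

theorem auxO_main_R12x (N : ℕ) (f : ℝ → ℝ) (a b : ℝ) (ha : 0 ≤ a) (hb : 0 ≤ b)
    (h : ∀ t, f t ≤ a * (|t| ^ N * K N t) + b * (1 / 4) ^ N * (1 + t ^ 2)⁻¹) :
    ∫⁻ t, ENNReal.ofReal (f t) ≤ ENNReal.ofReal (a + 5 * b * Real.pi) * m0 N := by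
  have hm := auxO_m0_lower_R12x N
  have hpi := Real.pi_pos
  have hKm := auxO_K_meas_R12x N
  calc ∫⁻ t, ENNReal.ofReal (f t) ≤
      ∫⁻ t, (ENNReal.ofReal a * ENNReal.ofReal (|t| ^ N * K N t) +
        ENNReal.ofReal (b * (1 / 4) ^ N) * ENNReal.ofReal ((1 + t ^ 2)⁻¹)) := by
        apply lintegral_mono
        intro t
        refine (ENNReal.ofReal_le_ofReal (h t)).trans ?_
        have h1 : 0 ≤ |t| ^ N * K N t := mul_nonneg (by positivity) (auxO_K_nonneg_R12x N t)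
        rw [ENNReal.ofReal_add (mul_nonneg ha h1) (by positivity)]
        rw [ENNReal.ofReal_mul ha, ENNReal.ofReal_mul (by positivity : 0 ≤ b * (1 / 4) ^ N)]
    _ = ENNReal.ofReal a * m0 N + ENNReal.ofReal (b * (1 / 4) ^ N) * ENNReal.ofReal Real.pi := by
        rw [lintegral_add_left, lintegral_const_mul, lintegral_const_mul, auxO_pi_R12x]
        · rfl
        · fun_prop
        · fun_prop
        · fun_prop
    _ ≤ ENNReal.ofReal a * m0 N + ENNReal.ofReal (5 * b * Real.pi) * m0 N := by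
        refine add_le_add le_rfl ?_
        rw [← ENNReal.ofReal_mul (by positivity)]
        calc ENNReal.ofReal (b * (1 / 4) ^ N * Real.pi)
            ≤ ENNReal.ofReal (5 * b * Real.pi * ((1 / 5) * (2 / 5) ^ N)) := by
              apply ENNReal.ofReal_le_ofReal
              have h2 : ((1 : ℝ) / 4) ^ N ≤ (2 / 5) ^ N :=
                pow_le_pow_left₀ (by norm_num) (by norm_num) N
              have h3 : 5 * b * Real.pi * ((1 / 5) * (2 / 5) ^ N) =
                b * (2 / 5) ^ N * Real.pi := by ring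
              rw [h3]
              gcongr
          _ = ENNReal.ofReal (5 * b * Real.pi) * ENNReal.ofReal ((1 / 5) * (2 / 5) ^ N) :=
              ENNReal.ofReal_mul (by positivity)
          _ ≤ ENNReal.ofReal (5 * b * Real.pi) * m0 N := by gcongr
    _ = ENNReal.ofReal (a + 5 * b * Real.pi) * m0 N := by
        rw [← add_mul, ← ENNReal.ofReal_add ha (by positivity)]

theorem auxO_abs_le_R12x (t : ℝ) : |t| ≤ 1 + t ^ 2 := by
  rcases abs_cases t with ⟨h, _⟩ | ⟨h, _⟩ <;> rw [h] <;> nlinarith [sq_nonneg (t - 1), sq_nonneg (t + 1)]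

theorem auxO_fin_R12x (f : ℝ → ℝ) (h : ∀ t, f t ≤ (1 + t ^ 2)⁻¹) :
    ∫⁻ t, ENNReal.ofReal (f t) ≠ ⊤ := by
  refine ne_top_of_le_ne_top (b := ENNReal.ofReal Real.pi) ENNReal.ofReal_ne_top ?_
  rw [← auxO_pi_R12x]
  exact lintegral_mono fun t => ENNReal.ofReal_le_ofReal (h t)



theorem m0_pos (N : ℕ) : m0 N ≠ 0 ∧ m0 N ≠ ⊤ := by
  constructor
  · have h := auxO_m0_lower_R12x N
    intro h0
    rw [h0] at h
    have h1 := ENNReal.ofReal_eq_zero.1 (le_antisymm h bot_le)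
    have h2 : (0 : ℝ) < (1 / 5) * (2 / 5) ^ N := by positivity
    linarith
  · unfold m0
    apply auxO_fin_R12x
    intro t
    have h1 : |t| ^ N ≤ (1 + t ^ 2) ^ N := pow_le_pow_left₀ (abs_nonneg t) (auxO_abs_le_R12x t) N
    have h2 : K N t = ((1 + t ^ 2) ^ N)⁻¹ * (1 + t ^ 2)⁻¹ := by
      unfold K
      rw [pow_succ, mul_inv]
    rw [h2]
    calc |t| ^ N * (((1 + t ^ 2) ^ N)⁻¹ * (1 + t ^ 2)⁻¹)
        ≤ (1 + t ^ 2) ^ N * (((1 + t ^ 2) ^ N)⁻¹ * (1 + t ^ 2)⁻¹) := by gcongr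
      _ = (1 + t ^ 2)⁻¹ := by
          have : (1 + t ^ 2) ^ N ≠ 0 := by positivity
          rw [← mul_assoc, mul_inv_cancel₀ this, one_mul]
theorem A0_ge (N : ℕ) (hN : 1 ≤ N) (W : ℝ) (hW : W ^ 2 ≤ 1) : m0 N ≤ A0 N W := by
  unfold m0 A0
  apply lintegral_mono
  intro t
  apply ENNReal.ofReal_le_ofReal
  have h1 : |t| ≤ Real.sqrt (t ^ 2 + (1 - W ^ 2)) := by
    rw [← Real.sqrt_sq_eq_abs]
    apply Real.sqrt_le_sqrt
    linarith
  have h2 : |t| ^ N = |t| ^ (N - 1) * |t| := by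
    rw [← pow_succ]
    congr 1
    omega
  rw [h2]
  have := auxO_K_nonneg_R12x N t
  gcongr
theorem A0_lt (N : ℕ) (hN : 1 ≤ N) (W : ℝ) (hW : W ^ 2 ≤ 1) : A0 N W ≠ ⊤ := by
  unfold A0
  apply auxO_fin_R12x
  intro t
  have h1 : Real.sqrt (t ^ 2 + (1 - W ^ 2)) ≤ 1 + t ^ 2 := by
    rw [Real.sqrt_le_left (by positivity)]
    nlinarith [sq_nonneg W, sq_nonneg t, sq_nonneg (t ^ 2)]
  have h2 : |t| ^ (N - 1) ≤ (1 + t ^ 2) ^ (N - 1) :=
    pow_le_pow_left₀ (abs_nonneg t) (auxO_abs_le_R12x t) _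
  have h3 : K N t = ((1 + t ^ 2) ^ (N - 1) * (1 + t ^ 2))⁻¹ * (1 + t ^ 2)⁻¹ := by
    unfold K
    rw [← pow_succ, ← mul_inv, ← pow_succ]
    congr 2
    omega
  have h4 := auxO_K_nonneg_R12x N t
  calc |t| ^ (N - 1) * Real.sqrt (t ^ 2 + (1 - W ^ 2)) * K N t
      ≤ (1 + t ^ 2) ^ (N - 1) * (1 + t ^ 2) * K N t := by gcongr
    _ = (1 + t ^ 2)⁻¹ := by
        rw [h3, ← mul_assoc, mul_inv_cancel₀ (by positivity), one_mul]
theorem A0_meas (N : ℕ) : Measurable (A0 N) := by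
  unfold A0
  have hKm := auxO_K_meas_R12x N
  apply Measurable.lintegral_prod_right'
    (f := fun p : ℝ × ℝ => ENNReal.ofReal (|p.2| ^ (N - 1) *
      Real.sqrt (p.2 ^ 2 + (1 - p.1 ^ 2)) * K N p.2))
  fun_prop
/-- comparison of the one dimensional integrals, uniformly in large `N` -/
theorem R12 (c1 : ℝ) (hc1 : 0 < c1) : ∃ C : ℝ, 0 < C ∧ ∃ N0 : ℕ, ∀ N ≥ N0,
    (∫⁻ t : ℝ, ENNReal.ofReal (|t| ^ (N - 2) * K N t)) ≤ ENNReal.ofReal C * m0 N ∧
    (∫⁻ t : ℝ, ENNReal.ofReal (Real.sqrt ((t ^ 2 + c1 / ((N : ℝ) - 1)) ^ (N - 1)) *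
        Real.sqrt (t ^ 2 + 1 + c1 / ((N : ℝ) - 1)) * K N t)) ≤ ENNReal.ofReal C * m0 N := by
  have hpi := Real.pi_pos
  refine ⟨(32 + 9 * Real.exp (16 * c1)) + 5 * 25 * Real.pi, by positivity,
    ⌈32 * c1⌉₊ + 2, ?_⟩
  intro N hN
  have hN2 : 2 ≤ N := by omega
  have hNr : (32 * c1 : ℝ) + 2 ≤ N := by
    have h1 : ((⌈32 * c1⌉₊ + 2 : ℕ) : ℝ) ≤ N := by exact_mod_cast hN
    push_cast at h1
    have h2 := Nat.le_ceil (32 * c1)
    linarith
  have hexp : 0 < Real.exp (16 * c1) := Real.exp_pos _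
  have hKle : ∀ t, K N t ≤ (1 + t ^ 2)⁻¹ := auxO_K_le_R12x N
  have hK0 : ∀ t, 0 ≤ K N t := auxO_K_nonneg_R12x N
  constructor
  · apply auxO_main_R12x N _ _ _ (by positivity) (by norm_num)
    intro t
    rcases le_or_gt (1 / 32) (t ^ 2) with ht | ht
    · have h1 : |t| ^ (N - 2) ≤ 32 * |t| ^ N := by
        have h2 : |t| ^ N = |t| ^ (N - 2) * t ^ 2 := by
          rw [← sq_abs t, ← pow_add]
          congr 1
          omega
        rw [h2]
        have h3 : 0 ≤ |t| ^ (N - 2) := by positivity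
        nlinarith
      have h4 : 0 ≤ |t| ^ N * K N t := mul_nonneg (by positivity) (hK0 t)
      have h5 : |t| ^ (N - 2) * K N t ≤ 32 * (|t| ^ N * K N t) := by
        rw [← mul_assoc]
        exact mul_le_mul_of_nonneg_right h1 (hK0 t)
      have h6 : 0 ≤ 25 * (1 / 4) ^ N * (1 + t ^ 2)⁻¹ := by positivity
      nlinarith [mul_nonneg hexp.le h4]
    · have h1 : |t| ≤ 1 / 5 := by
        rw [← sq_abs] at ht
        nlinarith [abs_nonneg t]
      have h2 : |t| ^ (N - 2) ≤ 25 * (1 / 4) ^ N := by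
        calc |t| ^ (N - 2) ≤ (1 / 5) ^ (N - 2) := pow_le_pow_left₀ (abs_nonneg t) h1 _
          _ = 25 * (1 / 5) ^ N := by
              have : (1 / 5 : ℝ) ^ N = (1 / 5) ^ (N - 2) * (1 / 5) ^ 2 := by
                rw [← pow_add]
                congr 1
                omega
              rw [this]
              ring
          _ ≤ 25 * (1 / 4) ^ N := by gcongr <;> norm_num
      have h4 : 0 ≤ |t| ^ N * K N t := mul_nonneg (by positivity) (hK0 t)
      have h5 : |t| ^ (N - 2) * K N t ≤ 25 * (1 / 4) ^ N * (1 + t ^ 2)⁻¹ :=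
        mul_le_mul h2 (hKle t) (hK0 t) (by positivity)
      have h6 : 0 ≤ (32 + 9 * Real.exp (16 * c1)) * (|t| ^ N * K N t) := by positivity
      linarith
  · apply auxO_main_R12x N _ _ _ (by positivity) (by norm_num)
    intro t
    have hN1 : (0 : ℝ) < (N : ℝ) - 1 := by nlinarith
    set b1 : ℝ := c1 / ((N : ℝ) - 1) with hb1
    have hb0 : 0 < b1 := by positivity
    have hb32 : b1 ≤ 1 / 32 := by
      rw [hb1, div_le_div_iff₀ hN1 (by norm_num)]
      linarith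
    have hbc : b1 * ((N : ℝ) - 1) = c1 := by
      rw [hb1]
      field_simp
    rcases le_or_gt (1 / 32) (t ^ 2) with ht | ht
    · have ht0 : 0 < t ^ 2 := by linarith
      have h1 : t ^ 2 + b1 ≤ t ^ 2 * Real.exp (32 * b1) := by
        have h2 := Real.add_one_le_exp (32 * b1)
        nlinarith
      have h3 : (t ^ 2 + b1) ^ (N - 1) ≤ (|t| ^ (N - 1) * Real.exp (16 * c1)) ^ 2 := by
        calc (t ^ 2 + b1) ^ (N - 1) ≤ (t ^ 2 * Real.exp (32 * b1)) ^ (N - 1) := by gcongr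
          _ = (|t| ^ (N - 1) * Real.exp (16 * c1)) ^ 2 := by
              rw [mul_pow, mul_pow, ← sq_abs t, ← pow_mul, ← pow_mul, mul_comm 2 (N - 1),
                ← Real.exp_nat_mul, ← Real.exp_nat_mul]
              congr 2
              rw [← hbc]
              rw [Nat.cast_sub (by omega : 1 ≤ N)]
              push_cast
              ring
      have h4 : Real.sqrt ((t ^ 2 + b1) ^ (N - 1)) ≤ |t| ^ (N - 1) * Real.exp (16 * c1) := by
        apply Real.sqrt_le_iff.2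
        exact ⟨by positivity, h3⟩
      have h5 : Real.sqrt (t ^ 2 + 1 + b1) ≤ 9 * |t| := by
        apply Real.sqrt_le_iff.2
        refine ⟨by positivity, ?_⟩
        rw [mul_pow, sq_abs]
        nlinarith
      have h6 : Real.sqrt ((t ^ 2 + b1) ^ (N - 1)) * Real.sqrt (t ^ 2 + 1 + b1) * K N t ≤
          (|t| ^ (N - 1) * Real.exp (16 * c1)) * (9 * |t|) * K N t := by
        have := hK0 t
        gcongr
      have h7 : (|t| ^ (N - 1) * Real.exp (16 * c1)) * (9 * |t|) * K N t =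
          9 * Real.exp (16 * c1) * (|t| ^ N * K N t) := by
        have : |t| ^ N = |t| ^ (N - 1) * |t| := by
          rw [← pow_succ]
          congr 1
          omega
        rw [this]
        ring
      have h4' : 0 ≤ |t| ^ N * K N t := mul_nonneg (by positivity) (hK0 t)
      have h8 : 0 ≤ 25 * (1 / 4) ^ N * (1 + t ^ 2)⁻¹ := by positivity
      rw [h7] at h6
      nlinarith
    · have h1 : Real.sqrt ((t ^ 2 + b1) ^ (N - 1)) ≤ (1 / 4) ^ (N - 1) := by
        apply Real.sqrt_le_iff.2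
        refine ⟨by positivity, ?_⟩
        rw [← pow_mul, mul_comm (N - 1) 2, pow_mul]
        apply pow_le_pow_left₀ (by positivity)
        norm_num
        linarith
      have h2 : Real.sqrt (t ^ 2 + 1 + b1) ≤ 2 := by
        apply Real.sqrt_le_iff.2
        refine ⟨by norm_num, ?_⟩
        linarith
      have h3 : ((1 : ℝ) / 4) ^ (N - 1) = 4 * (1 / 4) ^ N := by
        have : (1 / 4 : ℝ) ^ N = (1 / 4) ^ (N - 1) * (1 / 4) := by
          rw [← pow_succ]
          congr 1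
          omega
        rw [this]
        ring
      have h4 : Real.sqrt ((t ^ 2 + b1) ^ (N - 1)) * Real.sqrt (t ^ 2 + 1 + b1) * K N t ≤
          (1 / 4) ^ (N - 1) * 2 * (1 + t ^ 2)⁻¹ := by
        have := hK0 t
        have := hKle t
        gcongr
      have h5 : (1 / 4 : ℝ) ^ (N - 1) * 2 * (1 + t ^ 2)⁻¹ = 8 * (1 / 4) ^ N * (1 + t ^ 2)⁻¹ := by
        rw [h3]
        ring
      have h4' : 0 ≤ |t| ^ N * K N t := mul_nonneg (by positivity) (hK0 t)
      have h6 : 0 ≤ (32 + 9 * Real.exp (16 * c1)) * (|t| ^ N * K N t) := by positivity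
      have h7 : 0 ≤ (1 / 4) ^ N * (1 + t ^ 2)⁻¹ := by positivity
      rw [h5] at h4
      nlinarith



end Pool.Agent.Helper82.OS
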