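import Mathlib
import Pool.Agent.Helper82.OS.Defs
set_option autoImplicit false
open Matrix MeasureTheory Set Metric Filter Topology
open scoped ENNReal ContDiff

namespace Pool.Agent.Helper82.OS
/-- the action of an isometry on the sphere -/
noncomputable def rotS_avgx {D : ℕ} (R : E D ≃ₗᵢ[ℝ] E D) (w : sphere (0 : E D) 1) :
    sphere (0 : E D) 1 :=
  ⟨R w, by rw [mem_sphere_zero_iff_norm, R.norm_map]; exact norm_eq_of_mem_sphere w⟩

theorem rotS_measurable_avgx {D : ℕ} (R : E D ≃ₗᵢ[ℝ] E D) : Measurable (rotS_avgx R) :=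
  (Continuous.subtype_mk (R.continuous.comp continuous_subtype_val) _).measurable

open scoped Pointwise in
theorem rotS_set_avgx {D : ℕ} (R : E D ≃ₗᵢ[ℝ] E D) (s : Set (sphere (0 : E D) 1)) :
    (Ioo (0 : ℝ) 1 • (Subtype.val '' (rotS_avgx R ⁻¹' s)) : Set (E D)) =
      R ⁻¹' (Ioo (0 : ℝ) 1 • (Subtype.val '' s) : Set (E D)) := by
  ext x
  simp only [Set.mem_smul, mem_image, mem_preimage]
  constructor
  · rintro ⟨t, ht, _, ⟨w, hw, rfl⟩, rfl⟩
    exact ⟨t, ht, _, ⟨rotS_avgx R w, hw, rfl⟩, (map_smul R t (w : E D)).symm⟩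
  · rintro ⟨t, ht, _, ⟨w, hw, rfl⟩, hx⟩
    refine ⟨t, ht, _, ⟨rotS_avgx R.symm w, ?_, rfl⟩, ?_⟩
    · have : rotS_avgx R (rotS_avgx R.symm w) = w := by
        apply Subtype.ext
        exact R.apply_symm_apply _
      rw [this]
      exact hw
    · show t • R.symm (w : E D) = x
      rw [← map_smul, hx, R.symm_apply_apply]

theorem rotS_mp_avgx {D : ℕ} (R : E D ≃ₗᵢ[ℝ] E D) : MeasurePreserving (rotS_avgx R) (sg D) (sg D) := by
  refine ⟨rotS_measurable_avgx R, ?_⟩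
  ext s hs
  rw [Measure.map_apply (rotS_measurable_avgx R) hs, Measure.toSphere_apply' _ hs,
    Measure.toSphere_apply' _ (rotS_measurable_avgx R hs), rotS_set_avgx]
  congr 1
  exact R.measurePreserving.measure_preimage_emb R.toMeasurableEquiv.measurableEmbedding _

/-- reflection exchanging two vectors of the same norm -/
noncomputable def refl_avgx {D : ℕ} (y y' : E D) : E D ≃ₗᵢ[ℝ] E D :=
  (Submodule.span ℝ {y - y'})ᗮ.reflection

theorem refl_apply_avgx {D : ℕ} (y y' : E D) (h : ‖y‖ = ‖y'‖) : refl_avgx y y' y = y' :=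
  Submodule.reflection_sub h

theorem refl_inner_avgx {D : ℕ} (y y' w : E D) (h : ‖y‖ = ‖y'‖) :
    inner ℝ (refl_avgx y y' w) y' = (inner ℝ w y : ℝ) := by
  have h1 := (refl_avgx y y').inner_map_map w y
  rw [refl_apply_avgx y y' h] at h1
  exact h1

theorem refl_fix_avgx {D : ℕ} (y y' e : E D) (h : inner ℝ y e = (0 : ℝ)) (h' : inner ℝ y' e = (0 : ℝ)) :
    refl_avgx y y' e = e := by
  apply Submodule.reflection_mem_subspace_eq_self
  rw [Submodule.mem_orthogonal_singleton_iff_inner_right, inner_sub_left, h, h', sub_zero]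

theorem refl_inner_fix_avgx {D : ℕ} (y y' e w : E D) (h : inner ℝ y e = (0 : ℝ))
    (h' : inner ℝ y' e = (0 : ℝ)) : inner ℝ (refl_avgx y y' w) e = (inner ℝ w e : ℝ) := by
  have h1 := (refl_avgx y y').inner_map_map w e
  rw [refl_fix_avgx y y' e h h'] at h1
  exact h1

theorem inner_meas_avgx {D : ℕ} (y : E D) :
    Measurable (fun w : sphere (0 : E D) 1 => (inner ℝ (w : E D) y : ℝ)) :=
  (continuous_subtype_val.inner continuous_const).measurable

theorem avg_sq_meas_avgx {D : ℕ} (y : E D) : Measurable (fun w : sphere (0 : E D) 1 =>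
    ENNReal.ofReal (inner ℝ (w : E D) y ^ 2)) :=
  ENNReal.measurable_ofReal.comp ((inner_meas_avgx y).pow_const 2)

theorem avg_sq_inv_avgx {D : ℕ} (y y' : E D) (h : ‖y‖ = ‖y'‖) :
    ∫⁻ w : sphere (0 : E D) 1, ENNReal.ofReal (inner ℝ (w : E D) y ^ 2) ∂(sg D) =
      ∫⁻ w : sphere (0 : E D) 1, ENNReal.ofReal (inner ℝ (w : E D) y' ^ 2) ∂(sg D) := by
  rw [← (rotS_mp_avgx (refl_avgx y y')).lintegral_comp (avg_sq_meas_avgx y')]
  refine lintegral_congr fun w => ?_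
  have h1 : inner ℝ ((rotS_avgx (refl_avgx y y') w : sphere (0 : E D) 1) : E D) y' =
      (inner ℝ (w : E D) y : ℝ) := refl_inner_avgx y y' w h
  rw [h1]

/-- quadratic average on the sphere -/
theorem avg_sq {k : ℕ} (y : E (k + 1)) :
    ∫⁻ w : sphere (0 : E (k + 1)) 1, ENNReal.ofReal (inner ℝ (w : E (k + 1)) y ^ 2) ∂(sg (k + 1))
      = ENNReal.ofReal (‖y‖ ^ 2 / ((k : ℝ) + 1)) * sg (k + 1) univ := by
  obtain ⟨Q, hQ⟩ : ∃ Q, Q = ∫⁻ w : sphere (0 : E (k + 1)) 1,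
    ENNReal.ofReal (inner ℝ (w : E (k + 1)) y ^ 2) ∂(sg (k + 1)) := ⟨_, rfl⟩
  rw [← hQ]
  let b := EuclideanSpace.basisFun (Fin (k + 1)) ℝ
  have h1 : ∀ i : Fin (k + 1), ∫⁻ w : sphere (0 : E (k + 1)) 1,
      ENNReal.ofReal (inner ℝ (w : E (k + 1)) (‖y‖ • b i) ^ 2) ∂(sg (k + 1)) = Q := by
    intro i
    rw [hQ]
    apply avg_sq_inv_avgx
    rw [norm_smul, norm_norm, b.norm_eq_one i, mul_one]
  have h2 : ((k + 1 : ℕ) : ℝ≥0∞) * Q = ENNReal.ofReal (‖y‖ ^ 2) * sg (k + 1) univ := by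
    calc ((k + 1 : ℕ) : ℝ≥0∞) * Q = ∑ i : Fin (k + 1), Q := by simp
      _ = ∑ i : Fin (k + 1), ∫⁻ w : sphere (0 : E (k + 1)) 1,
          ENNReal.ofReal (inner ℝ (w : E (k + 1)) (‖y‖ • b i) ^ 2) ∂(sg (k + 1)) :=
          Finset.sum_congr rfl fun i _ => (h1 i).symm
      _ = ∫⁻ w : sphere (0 : E (k + 1)) 1, ∑ i : Fin (k + 1),
          ENNReal.ofReal (inner ℝ (w : E (k + 1)) (‖y‖ • b i) ^ 2) ∂(sg (k + 1)) := by
          rw [lintegral_finsetSum]
          intro i _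
          exact avg_sq_meas_avgx _
      _ = ∫⁻ w : sphere (0 : E (k + 1)) 1, ENNReal.ofReal (‖y‖ ^ 2) ∂(sg (k + 1)) := by
          refine lintegral_congr fun w => ?_
          rw [← ENNReal.ofReal_sum_of_nonneg (fun i _ => sq_nonneg _)]
          congr 1
          have h3 : ∑ i, (inner ℝ (w : E (k + 1)) (b i) : ℝ) ^ 2 = 1 := by
            have h4 := b.sum_sq_norm_inner_left (w : E (k + 1))
            rw [norm_eq_of_mem_sphere w] at h4
            simpa using h4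
          have h5 : ∀ i, (inner ℝ (w : E (k + 1)) (‖y‖ • b i) : ℝ) ^ 2 =
              ‖y‖ ^ 2 * (inner ℝ (w : E (k + 1)) (b i) : ℝ) ^ 2 := by
            intro i
            rw [inner_smul_right, mul_pow]
          simp only [h5]
          rw [← Finset.mul_sum, h3, mul_one]
      _ = ENNReal.ofReal (‖y‖ ^ 2) * sg (k + 1) univ := by rw [lintegral_const]
  have h3 : ENNReal.ofReal (‖y‖ ^ 2) =
      ((k + 1 : ℕ) : ℝ≥0∞) * ENNReal.ofReal (‖y‖ ^ 2 / ((k : ℝ) + 1)) := by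
    rw [← ENNReal.ofReal_natCast, ← ENNReal.ofReal_mul (by positivity)]
    congr 1
    push_cast
    field_simp
  rw [h3, mul_assoc] at h2
  exact (ENNReal.mul_right_inj (by simp) (ENNReal.natCast_ne_top _)).1 h2

open scoped Pointwise in
theorem pole_null_aux_avgx {k : ℕ} (hk : 1 ≤ k) (e : E (k + 1)) (he : ‖e‖ = 1) :
    ∀ᵐ w : sphere (0 : E (k + 1)) 1 ∂(sg (k + 1)), 1 - inner ℝ (w : E (k + 1)) e ^ 2 ≠ 0 := by
  rw [ae_iff]
  have hms : MeasurableSet {w : sphere (0 : E (k + 1)) 1 |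
      ¬ (1 - inner ℝ (w : E (k + 1)) e ^ 2 ≠ (0 : ℝ))} := by
    have h1 : Measurable fun w : sphere (0 : E (k + 1)) 1 =>
        (1 - inner ℝ (w : E (k + 1)) e ^ 2 : ℝ) := ((inner_meas_avgx e).pow_const 2).const_sub 1
    have h2 := h1 (measurableSet_singleton (0 : ℝ))
    convert h2 using 1
    ext w
    simp
  rw [Measure.toSphere_apply' _ hms]
  have hsub : (Ioo (0 : ℝ) 1 • (Subtype.val '' {w : sphere (0 : E (k + 1)) 1 |
      ¬ (1 - inner ℝ (w : E (k + 1)) e ^ 2 ≠ (0 : ℝ))}) : Set (E (k + 1))) ⊆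
      (Submodule.span ℝ {e} : Set (E (k + 1))) := by
    rintro x ⟨t, ht, _, ⟨w, hw, rfl⟩, rfl⟩
    apply Submodule.smul_mem
    simp only [mem_setOf_eq, not_not] at hw
    have h1 : (w : E (k + 1)) = (inner ℝ (w : E (k + 1)) e : ℝ) • e := by
      rw [← sub_eq_zero, ← norm_eq_zero, ← sq_eq_zero_iff, norm_sub_sq_real, norm_smul,
        inner_smul_right, he, norm_eq_of_mem_sphere w, Real.norm_eq_abs, mul_one, sq_abs]
      linarith
    rw [h1]
    exact Submodule.smul_mem _ _ (Submodule.mem_span_singleton_self e)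
  have hne : Submodule.span ℝ {e} ≠ (⊤ : Submodule ℝ (E (k + 1))) := by
    intro h
    have he0 : e ≠ 0 := by
      intro h'
      rw [h', norm_zero] at he
      exact zero_ne_one he
    have h1 : Module.finrank ℝ (Submodule.span ℝ {e}) = 1 := finrank_span_singleton he0
    rw [h, finrank_top, finrank_euclideanSpace, Fintype.card_fin] at h1
    omega
  have h0 : (volume : Measure (E (k + 1))) (Submodule.span ℝ {e} : Set (E (k + 1))) = 0 :=
    Measure.addHaar_submodule _ _ hne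
  rw [measure_mono_null hsub h0, mul_zero]

theorem avg_cond_meas_avgx {D : ℕ} (e y : E D) (φ : ℝ → ℝ≥0∞) (hφ : Measurable φ) :
    Measurable (fun w : sphere (0 : E D) 1 => φ (inner ℝ (w : E D) e) *
        ENNReal.ofReal (inner ℝ (w : E D) y ^ 2 / (1 - inner ℝ (w : E D) e ^ 2))) := by
  apply (hφ.comp (inner_meas_avgx e)).mul
  apply ENNReal.measurable_ofReal.comp
  exact ((inner_meas_avgx y).pow_const 2).div (((inner_meas_avgx e).pow_const 2).const_sub 1)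

theorem avg_cond_inv_avgx {D : ℕ} (e y y' : E D) (φ : ℝ → ℝ≥0∞) (hφ : Measurable φ) (h : ‖y‖ = ‖y'‖)
    (hy : inner ℝ y e = (0 : ℝ)) (hy' : inner ℝ y' e = (0 : ℝ)) :
    ∫⁻ w : sphere (0 : E D) 1, φ (inner ℝ (w : E D) e) *
        ENNReal.ofReal (inner ℝ (w : E D) y ^ 2 / (1 - inner ℝ (w : E D) e ^ 2)) ∂(sg D) =
      ∫⁻ w : sphere (0 : E D) 1, φ (inner ℝ (w : E D) e) *
        ENNReal.ofReal (inner ℝ (w : E D) y' ^ 2 / (1 - inner ℝ (w : E D) e ^ 2)) ∂(sg D) := by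
  rw [← (rotS_mp_avgx (refl_avgx y y')).lintegral_comp (avg_cond_meas_avgx e y' φ hφ)]
  refine lintegral_congr fun w => ?_
  have h1 : inner ℝ ((rotS_avgx (refl_avgx y y') w : sphere (0 : E D) 1) : E D) y' =
      (inner ℝ (w : E D) y : ℝ) := refl_inner_avgx y y' w h
  have h2 : inner ℝ ((rotS_avgx (refl_avgx y y') w : sphere (0 : E D) 1) : E D) e =
      (inner ℝ (w : E D) e : ℝ) := refl_inner_fix_avgx y y' e w hy hy'
  rw [h1, h2]

/-- conditional average: for `y ⊥ e`, given `⟨w,e⟩` the quotient `⟨w,y⟩²/(1-⟨w,e⟩²)` averages to `|y|²/k` -/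
theorem avg_cond {k : ℕ} (hk : 1 ≤ k) (e y : E (k + 1)) (he : ‖e‖ = 1) (hy : inner ℝ y e = 0)
    (φ : ℝ → ℝ≥0∞) (hφ : Measurable φ) :
    ∫⁻ w : sphere (0 : E (k + 1)) 1, φ (inner ℝ (w : E (k + 1)) e) *
        ENNReal.ofReal (inner ℝ (w : E (k + 1)) y ^ 2 / (1 - inner ℝ (w : E (k + 1)) e ^ 2)) ∂(sg (k + 1))
      = ENNReal.ofReal (‖y‖ ^ 2 / k) * ∫⁻ w : sphere (0 : E (k + 1)) 1, φ (inner ℝ (w : E (k + 1)) e) ∂(sg (k + 1)) := by
  obtain ⟨Q, hQ⟩ : ∃ Q, Q = ∫⁻ w : sphere (0 : E (k + 1)) 1, φ (inner ℝ (w : E (k + 1)) e) *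
        ENNReal.ofReal (inner ℝ (w : E (k + 1)) y ^ 2 / (1 - inner ℝ (w : E (k + 1)) e ^ 2))
        ∂(sg (k + 1)) := ⟨_, rfl⟩
  rw [← hQ]
  have : Fact (Module.finrank ℝ (E (k + 1)) = k + 1) := ⟨by simp⟩
  have he0 : e ≠ 0 := by
    intro h
    rw [h, norm_zero] at he
    exact zero_ne_one he
  let b := OrthonormalBasis.fromOrthogonalSpanSingleton (𝕜 := ℝ) k he0
  have hbe : ∀ i, inner ℝ ((b i : (Submodule.span ℝ {e})ᗮ) : E (k + 1)) e = (0 : ℝ) := by
    intro i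
    rw [real_inner_comm]
    exact (Submodule.mem_orthogonal_singleton_iff_inner_right).1 (b i).2
  have h1 : ∀ i : Fin k, ∫⁻ w : sphere (0 : E (k + 1)) 1, φ (inner ℝ (w : E (k + 1)) e) *
        ENNReal.ofReal (inner ℝ (w : E (k + 1)) (‖y‖ • (b i : E (k + 1))) ^ 2 /
        (1 - inner ℝ (w : E (k + 1)) e ^ 2)) ∂(sg (k + 1)) = Q := by
    intro i
    rw [hQ]
    apply avg_cond_inv_avgx _ _ _ _ hφ
    · rw [norm_smul, norm_norm]
      have : ‖((b i : (Submodule.span ℝ {e})ᗮ) : E (k + 1))‖ = 1 := b.norm_eq_one i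
      rw [this, mul_one]
    · rw [inner_smul_left, hbe, mul_zero]
    · exact hy
  have hsum : ∀ w : sphere (0 : E (k + 1)) 1,
      ∑ i, (inner ℝ (w : E (k + 1)) ((b i : (Submodule.span ℝ {e})ᗮ) : E (k + 1)) : ℝ) ^ 2 =
        1 - inner ℝ (w : E (k + 1)) e ^ 2 := by
    intro w
    have hp : (w : E (k + 1)) - (inner ℝ (w : E (k + 1)) e : ℝ) • e ∈ (Submodule.span ℝ {e})ᗮ := by
      rw [Submodule.mem_orthogonal_singleton_iff_inner_right, inner_sub_right, inner_smul_right,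
        real_inner_self_eq_norm_sq, he, real_inner_comm]
      ring
    have h3 := b.sum_sq_norm_inner_left ⟨_, hp⟩
    have h4 : ‖(⟨(w : E (k + 1)) - (inner ℝ (w : E (k + 1)) e : ℝ) • e, hp⟩ :
        ((Submodule.span ℝ {e})ᗮ : Submodule ℝ (E (k + 1))))‖ ^ 2 =
        1 - inner ℝ (w : E (k + 1)) e ^ 2 := by
      rw [Submodule.coe_norm, norm_sub_sq_real, norm_smul, inner_smul_right, he,
        norm_eq_of_mem_sphere w, Real.norm_eq_abs, mul_one, sq_abs]
      ring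
    rw [h4] at h3
    rw [← h3]
    refine Finset.sum_congr rfl fun i _ => ?_
    rw [Submodule.coe_inner, inner_sub_left, inner_smul_left, real_inner_comm _ e, hbe]
    simp
  have h2 : ((k : ℕ) : ℝ≥0∞) * Q = ENNReal.ofReal (‖y‖ ^ 2) *
      ∫⁻ w : sphere (0 : E (k + 1)) 1, φ (inner ℝ (w : E (k + 1)) e) ∂(sg (k + 1)) := by
    calc ((k : ℕ) : ℝ≥0∞) * Q = ∑ i : Fin k, Q := by simp
      _ = ∑ i : Fin k, ∫⁻ w : sphere (0 : E (k + 1)) 1, φ (inner ℝ (w : E (k + 1)) e) *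
          ENNReal.ofReal (inner ℝ (w : E (k + 1)) (‖y‖ • (b i : E (k + 1))) ^ 2 /
          (1 - inner ℝ (w : E (k + 1)) e ^ 2)) ∂(sg (k + 1)) :=
          Finset.sum_congr rfl fun i _ => (h1 i).symm
      _ = ∫⁻ w : sphere (0 : E (k + 1)) 1, ∑ i : Fin k, φ (inner ℝ (w : E (k + 1)) e) *
          ENNReal.ofReal (inner ℝ (w : E (k + 1)) (‖y‖ • (b i : E (k + 1))) ^ 2 /
          (1 - inner ℝ (w : E (k + 1)) e ^ 2)) ∂(sg (k + 1)) := by
          rw [lintegral_finsetSum]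
          intro i _
          exact avg_cond_meas_avgx _ _ _ hφ
      _ = ∫⁻ w : sphere (0 : E (k + 1)) 1, ENNReal.ofReal (‖y‖ ^ 2) *
          φ (inner ℝ (w : E (k + 1)) e) ∂(sg (k + 1)) := by
          apply lintegral_congr_ae
          filter_upwards [pole_null_aux_avgx hk e he] with w hw
          have hle : 0 ≤ 1 - (inner ℝ (w : E (k + 1)) e : ℝ) ^ 2 := by
            rw [← hsum w]
            exact Finset.sum_nonneg fun i _ => sq_nonneg _
          rw [← Finset.mul_sum, ← ENNReal.ofReal_sum_of_nonneg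
            (fun i _ => div_nonneg (sq_nonneg _) hle), mul_comm]
          congr 2
          rw [← Finset.sum_div]
          have h5 : ∀ i, (inner ℝ (w : E (k + 1)) (‖y‖ • (b i : E (k + 1))) : ℝ) ^ 2 =
              ‖y‖ ^ 2 * (inner ℝ (w : E (k + 1)) (b i : E (k + 1)) : ℝ) ^ 2 := by
            intro i
            rw [inner_smul_right, mul_pow]
          simp only [h5]
          rw [← Finset.mul_sum, hsum w, mul_div_assoc, div_self hw, mul_one]
      _ = _ := by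
          rw [lintegral_const_mul]
          exact hφ.comp (inner_meas_avgx e)
  have hk0 : (0 : ℝ) < k := by exact_mod_cast hk
  have h3 : ENNReal.ofReal (‖y‖ ^ 2) =
      ((k : ℕ) : ℝ≥0∞) * ENNReal.ofReal (‖y‖ ^ 2 / k) := by
    rw [← ENNReal.ofReal_natCast, ← ENNReal.ofReal_mul (by positivity)]
    congr 1
    field_simp
  rw [h3, mul_assoc] at h2
  have hk1 : ((k : ℕ) : ℝ≥0∞) ≠ 0 := by
    simp only [ne_eq, Nat.cast_eq_zero]
    omega
  exact (ENNReal.mul_right_inj hk1 (ENNReal.natCast_ne_top _)).1 h2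
/-- the poles are a null set -/
theorem pole_null {k : ℕ} (hk : 1 ≤ k) (e : E (k + 1)) (he : ‖e‖ = 1) :
    ∀ᵐ w : sphere (0 : E (k + 1)) 1 ∂(sg (k + 1)), 1 - inner ℝ (w : E (k + 1)) e ^ 2 ≠ 0 :=
  pole_null_aux_avgx hk e he



end Pool.Agent.Helper82.OS
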