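import Mathlib
import Pool.Agent.Helper82.OS.Defs
import Pool.Agent.Helper82.OS.Defs2
set_option autoImplicit false
open Matrix MeasureTheory Set Metric Filter Topology
open scoped ENNReal ContDiff

namespace Pool.Agent.Helper82.OS
namespace Fr
variable {N : ℕ} (F : Fr N)

end Fr

theorem Fr.pars_trcx {N : ℕ} (F : Fr N) (w : E (N + 1)) :
    F.u2 w + inner ℝ w F.e ^ 2 = ‖w‖ ^ 2 := by
  let v : Option (Fin N) → E (N + 1) := fun o => o.elim F.e F.q
  have hv : Orthonormal ℝ v := by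
    rw [orthonormal_iff_ite]
    have hq := orthonormal_iff_ite.1 F.hq
    intro i j
    rcases i with _ | i <;> rcases j with _ | j
    · simp only [v, Option.elim, if_true]
      rw [real_inner_self_eq_norm_sq, F.he, one_pow]
    · simp only [v, Option.elim]
      rw [if_neg (by simp), real_inner_comm]
      exact F.hqe j
    · simp only [v, Option.elim]
      rw [if_neg (by simp)]
      exact F.hqe i
    · simp only [v, Option.elim]
      rw [hq i j]
      simp [Option.some_inj]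
  have hcard : Fintype.card (Option (Fin N)) = Module.finrank ℝ (E (N + 1)) := by
    simp
  let b := basisOfOrthonormalOfCardEqFinrank hv hcard
  have hb : ⇑b = v := coe_basisOfOrthonormalOfCardEqFinrank hv hcard
  let B := b.toOrthonormalBasis (by rw [hb]; exact hv)
  have hB : ⇑B = v := by
    rw [Module.Basis.coe_toOrthonormalBasis, hb]
  have h := B.sum_sq_norm_inner_left w
  rw [← h, Fintype.sum_option]
  simp only [hB, v, Option.elim, Real.norm_eq_abs, sq_abs, Fr.u2]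
  rw [add_comm]
theorem Fr.c_sq_trcx {N : ℕ} (F : Fr N) (j : Fin N) : F.c j ^ 2 = 1 - F.s j ^ 2 := by
  linarith [F.hcs j]
theorem Fr.trc {N : ℕ} (F : Fr N) (t : ℝ) (w : E (N + 1)) (hu : F.u2 w ≠ 0) :
    (F.Gm t w).trace = ((N : ℝ) - F.del) * t ^ 2 + (1 - F.eta w) * F.u2 w + F.Bq w - 2 * t * F.hh w := by
  have h1 : ∀ j, F.Gm t w j j = (1 - F.s j ^ 2) * t ^ 2 +
      F.s j ^ 2 * (inner ℝ w F.x ^ 2 + inner ℝ w (F.g j) ^ 2) +
      (2 * t * inner ℝ w F.x * (F.c j * F.s j * inner ℝ (F.q j) (F.g j)) -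
      2 * t * (F.c j * F.s j * inner ℝ (F.q j) F.x * inner ℝ w (F.g j))) +
      (inner ℝ w (F.q j) ^ 2 - F.s j ^ 2 * inner ℝ w (F.q j) ^ 2) := by
    intro j
    have e1 : inner ℝ (F.q j) (F.q j) = (1:ℝ) := by
      rw [real_inner_self_eq_norm_sq, F.hq.1 j, one_pow]
    have e2 : inner ℝ (F.g j) (F.g j) = (1:ℝ) := by
      rw [real_inner_self_eq_norm_sq, F.hg.1 j, one_pow]
    have e3 : inner ℝ F.x F.x = (1:ℝ) := by
      rw [real_inner_self_eq_norm_sq, F.hx, one_pow]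
    have e4 := F.hgx j
    have e5 : inner ℝ F.x (F.g j) = (0:ℝ) := by rw [real_inner_comm]; exact e4
    have e6 : (inner ℝ (F.g j) (F.q j) : ℝ) = inner ℝ (F.q j) (F.g j) := real_inner_comm _ _
    have e7 : (inner ℝ F.x (F.q j) : ℝ) = inner ℝ (F.q j) F.x := real_inner_comm _ _
    simp only [Fr.Gm, Fr.Mv, Fr.lv, Matrix.of_apply, inner_add_left, inner_add_right,
      inner_sub_left, inner_sub_right, real_inner_smul_left, real_inner_smul_right, e1, e2, e3, e4,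
      e5, e6, e7]
    have hc := F.c_sq_trcx j
    linear_combination (t ^ 2 + inner ℝ w (F.q j) ^ 2) * hc
  rw [Matrix.trace]
  simp only [Matrix.diag_apply, h1]
  rw [Finset.sum_add_distrib, Finset.sum_add_distrib, Finset.sum_add_distrib,
    Finset.sum_sub_distrib, Finset.sum_sub_distrib, ← Finset.sum_mul, ← Finset.mul_sum,
    ← Finset.mul_sum, F.hgam, Finset.sum_sub_distrib]
  have e8 : F.eta w * F.u2 w = ∑ j, F.s j ^ 2 * inner ℝ w (F.q j) ^ 2 := by
    rw [Fr.eta, div_mul_cancel₀ _ hu]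
  have e9 : (1 - F.eta w) * F.u2 w = F.u2 w - ∑ j, F.s j ^ 2 * inner ℝ w (F.q j) ^ 2 := by
    rw [sub_mul, one_mul, e8]
  rw [e9]
  simp only [Finset.sum_const, Finset.card_univ, Fintype.card_fin, nsmul_eq_mul, mul_one,
    Fr.del, Fr.u2, Fr.Bq, Fr.hh]
  ring
theorem Fr.u2_eq {N : ℕ} (F : Fr N) (w : E (N + 1)) (hw : ‖w‖ = 1) :
    F.u2 w = 1 - inner ℝ w F.e ^ 2 := by
  have := F.pars_trcx w
  rw [hw] at this
  linarith
theorem Fr.u2_pr {N : ℕ} (F : Fr N) (w : E (N + 1)) : F.u2 w = ‖F.pr w‖ ^ 2 := by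
  have h := F.pars_trcx w
  rw [Fr.pr, norm_sub_sq_real, real_inner_smul_right, norm_smul, F.he, Real.norm_eq_abs, mul_one,
    sq_abs]
  linarith
theorem Fr.s_le_trcx {N : ℕ} (F : Fr N) (j : Fin N) : F.s j ^ 2 ≤ 1 := by
  nlinarith [F.hcs j, sq_nonneg (F.c j)]
theorem Fr.u2_nonneg_trcx {N : ℕ} (F : Fr N) (w : E (N + 1)) : 0 ≤ F.u2 w :=
  Finset.sum_nonneg fun _ _ => sq_nonneg _
theorem Fr.eta_bd {N : ℕ} (F : Fr N) (w : E (N + 1)) : 0 ≤ F.eta w ∧ F.eta w ≤ 1 ∧ F.eta w ≤ F.del := by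
  refine ⟨?_, ?_, ?_⟩
  · exact div_nonneg (Finset.sum_nonneg fun j _ => by positivity) (F.u2_nonneg_trcx w)
  · refine div_le_one_of_le₀ ?_ (F.u2_nonneg_trcx w)
    refine Finset.sum_le_sum fun j _ => ?_
    have := F.s_le_trcx j
    nlinarith [sq_nonneg (inner ℝ w (F.q j) : ℝ)]
  · refine div_le_of_le_mul₀ (F.u2_nonneg_trcx w) (Finset.sum_nonneg fun _ _ => sq_nonneg _) ?_
    rw [Fr.del, Finset.sum_mul]
    refine Finset.sum_le_sum fun j _ => mul_le_mul_of_nonneg_left ?_ (sq_nonneg _)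
    exact Finset.single_le_sum (f := fun j => (inner ℝ w (F.q j) : ℝ) ^ 2)
      (fun _ _ => sq_nonneg _) (Finset.mem_univ j)
theorem Fr.del_bd {N : ℕ} (F : Fr N) : 0 ≤ F.del ∧ 2 * F.del ≤ N :=
  ⟨Finset.sum_nonneg fun _ _ => sq_nonneg _, F.hdel⟩



end Pool.Agent.Helper82.OS
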