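import Mathlib
import Pool.Agent.Helper82.OS.Defs
import Pool.Agent.Helper82.OS.Defs2
import Pool.Agent.Helper82.OS.Defs3
import Pool.Agent.Helper82.OS.trc
set_option autoImplicit false
open Matrix MeasureTheory Set Metric Filter Topology
open scoped ENNReal ContDiff

namespace Pool.Agent.Helper82.OS
namespace Fr
variable {N : ℕ} (F : Fr N)

end Fr

theorem Fr.be_le_bessel_be_lex {N : ℕ} (q : Fin N → E (N + 1)) (hq : Orthonormal ℝ q) (x : E (N + 1)) :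
    ∑ j, inner ℝ (q j) x ^ 2 ≤ ‖x‖ ^ 2 := by
  have h := hq.sum_inner_products_le x (s := Finset.univ)
  have h2 : ∑ j, inner ℝ (q j) x ^ 2 = ∑ j, ‖inner ℝ (q j) x‖ ^ 2 :=
    Finset.sum_congr rfl fun j _ => by rw [Real.norm_eq_abs, sq_abs]
  rw [h2]
  exact h

theorem Fr.be_le_hh_be_lex {N : ℕ} (F : Fr N) (w : E (N + 1)) : F.hh w ^ 2 ≤ F.Sg w := by
  have h1 : F.hh w = ∑ j, (F.c j * inner ℝ (F.q j) F.x) * (F.s j * inner ℝ w (F.g j)) := by
    unfold Fr.hh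
    exact Finset.sum_congr rfl fun j _ => by ring
  have h2 := Finset.sum_mul_sq_le_sq_mul_sq Finset.univ
    (fun j => F.c j * inner ℝ (F.q j) F.x) (fun j => F.s j * inner ℝ w (F.g j))
  have h3 : ∑ j, (F.c j * inner ℝ (F.q j) F.x) ^ 2 ≤ 1 := by
    have h4 := Fr.be_le_bessel_be_lex F.q F.hq F.x
    rw [F.hx, one_pow] at h4
    refine le_trans (Finset.sum_le_sum fun j _ => ?_) h4
    have h5 := F.hcs j
    have h6 : F.c j ^ 2 ≤ 1 := by nlinarith [sq_nonneg (F.s j)]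
    rw [mul_pow]
    exact mul_le_of_le_one_left (sq_nonneg _) h6
  have h4 : ∑ j, (F.s j * inner ℝ w (F.g j)) ^ 2 = F.Sg w := by
    unfold Fr.Sg
    exact Finset.sum_congr rfl fun j _ => by ring
  rw [h4] at h2
  have h5 : 0 ≤ F.Sg w := Finset.sum_nonneg fun j _ => by positivity
  rw [h1]
  calc _ ≤ _ := h2
    _ ≤ 1 * F.Sg w := by gcongr
    _ = _ := one_mul _

theorem Fr.be_le_Bq_be_lex {N : ℕ} (F : Fr N) (w : E (N + 1)) :
    F.Bq w = F.del * inner ℝ w F.x ^ 2 + F.Sg w := by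
  unfold Fr.Bq Fr.del Fr.Sg
  rw [Finset.sum_mul, ← Finset.sum_add_distrib]
  exact Finset.sum_congr rfl fun j _ => by ring

theorem Fr.be_le_real_be_lex (N a d X S k h al : ℝ) (hN : 120 ≤ N) (hd0 : 0 ≤ d) (hS : h ^ 2 ≤ S)
    (ha1 : 0.8318 ≤ al) (ha2 : 0.825 * N ≤ (N - 1) * al) :
    (d * X ^ 2 + S + 2 * (h - k) ^ 2 / al + 2 * k ^ 2) / (N - 1) / al ≤
      (1.22 * d * X ^ 2 + 7.1 * S + 8.3 * k ^ 2) / N := by
  have hal : 0 < al := by linarith
  have hN1 : 0 < N - 1 := by linarith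
  have hN0 : 0 < N := by linarith
  have hS0 : 0 ≤ S := le_trans (sq_nonneg _) hS
  have hdX : 0 ≤ d * X ^ 2 := by positivity
  have h1 : 2 * (h - k) ^ 2 / al ≤ 4.81 * (S + k ^ 2) := by
    rw [div_le_iff₀ hal]
    have h2 : 2 * (h - k) ^ 2 ≤ 4 * (S + k ^ 2) := by nlinarith [sq_nonneg (h + k)]
    have h3 : 0 ≤ S + k ^ 2 := by positivity
    nlinarith [mul_le_mul_of_nonneg_right ha1 h3]
  have h2 : d * X ^ 2 + S + 2 * (h - k) ^ 2 / al + 2 * k ^ 2 ≤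
      0.825 * (1.22 * d * X ^ 2 + 7.1 * S + 8.3 * k ^ 2) := by
    nlinarith [sq_nonneg k]
  have hT : 0 ≤ 1.22 * d * X ^ 2 + 7.1 * S + 8.3 * k ^ 2 := by positivity
  rw [div_div, div_le_div_iff₀ (by positivity) hN0]
  calc (d * X ^ 2 + S + 2 * (h - k) ^ 2 / al + 2 * k ^ 2) * N
      ≤ 0.825 * (1.22 * d * X ^ 2 + 7.1 * S + 8.3 * k ^ 2) * N := by gcongr
    _ = (1.22 * d * X ^ 2 + 7.1 * S + 8.3 * k ^ 2) * (0.825 * N) := by ring
    _ ≤ (1.22 * d * X ^ 2 + 7.1 * S + 8.3 * k ^ 2) * ((N - 1) * al) := by gcongr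

theorem Fr.k2_le_sum_be_lex {N : ℕ} (F : Fr N) (w : E (N + 1)) :
    (∑ j, F.lv w j * F.eps w j) ^ 2 ≤ F.u2 w * F.E2 (F.pr w) := by
  have h2 := Finset.sum_mul_sq_le_sq_mul_sq Finset.univ (fun j => F.lv w j) (fun j => F.eps w j)
  have h3 : ∑ j, F.lv w j ^ 2 ≤ F.u2 w := by
    unfold Fr.u2
    refine Finset.sum_le_sum fun j _ => ?_
    have h5 := F.hcs j
    have h6 : F.c j ^ 2 ≤ 1 := by nlinarith [sq_nonneg (F.s j)]
    unfold Fr.lv
    rw [mul_pow]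
    exact mul_le_of_le_one_left (sq_nonneg _) h6
  have h4 : ∑ j, F.eps w j ^ 2 = F.E2 (F.pr w) := by
    unfold Fr.E2 Fr.eps Fr.pr
    refine Finset.sum_congr rfl fun j _ => ?_
    rw [mul_pow]
    congr 2
    rw [inner_sub_left, inner_sub_left, real_inner_smul_left, real_inner_smul_left,
      real_inner_comm (F.g j) F.e, real_inner_comm F.x F.e]
    ring
  rw [h4] at h2
  have h5 : 0 ≤ F.E2 (F.pr w) := Finset.sum_nonneg fun j _ => by positivity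
  calc _ ≤ _ := h2
    _ ≤ _ := by gcongr

theorem Fr.k2_le_E2_be_lex {N : ℕ} (F : Fr N) (w : E (N + 1)) : F.E2 (F.pr w) ≤ ‖F.pr w‖ ^ 2 := by
  have hpe : inner ℝ (F.pr w) F.e = 0 := by
    unfold Fr.pr
    rw [inner_sub_left, real_inner_smul_left, real_inner_self_eq_norm_sq, F.he]
    ring
  obtain ⟨p, hp⟩ : ∃ p, p = F.pr w := ⟨_, rfl⟩
  rw [← hp] at hpe ⊢
  obtain ⟨v, hv⟩ : ∃ v : E (N + 1), v = inner ℝ p F.x • F.e - inner ℝ F.x F.e • p := ⟨_, rfl⟩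
  have h1 : F.E2 p ≤ ∑ j, inner ℝ (F.g j) v ^ 2 := by
    unfold Fr.E2
    refine Finset.sum_le_sum fun j _ => ?_
    have h5 := F.hcs j
    have h6 : F.s j ^ 2 ≤ 1 := by nlinarith [sq_nonneg (F.c j)]
    have h7 : inner ℝ (F.g j) v = inner ℝ p F.x * inner ℝ (F.g j) F.e -
        inner ℝ p (F.g j) * inner ℝ F.x F.e := by
      rw [hv, inner_sub_right, real_inner_smul_right, real_inner_smul_right,
        real_inner_comm p (F.g j)]
      ring
    rw [h7]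
    exact mul_le_of_le_one_left (sq_nonneg _) h6
  have h2 := Fr.be_le_bessel_be_lex F.g F.hg v
  have h3 : ‖v‖ ^ 2 = inner ℝ p F.x ^ 2 + inner ℝ F.x F.e ^ 2 * ‖p‖ ^ 2 := by
    rw [hv, ← real_inner_self_eq_norm_sq, inner_sub_left, inner_sub_right, inner_sub_right,
      real_inner_smul_left, real_inner_smul_left, real_inner_smul_left, real_inner_smul_left,
      real_inner_smul_right, real_inner_smul_right, real_inner_smul_right, real_inner_smul_right,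
      real_inner_self_eq_norm_sq, real_inner_self_eq_norm_sq, F.he, hpe,
      real_inner_comm p F.e, hpe]
    ring
  have h4 : inner ℝ p F.x = inner ℝ p (F.x - inner ℝ F.x F.e • F.e) := by
    rw [inner_sub_right, real_inner_smul_right, hpe]
    ring
  have h5 : ‖F.x - inner ℝ F.x F.e • F.e‖ ^ 2 = 1 - inner ℝ F.x F.e ^ 2 := by
    rw [← real_inner_self_eq_norm_sq, inner_sub_left, inner_sub_right, inner_sub_right,
      real_inner_smul_left, real_inner_smul_left, real_inner_smul_right, real_inner_smul_right,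
      real_inner_self_eq_norm_sq, real_inner_self_eq_norm_sq, F.he, F.hx,
      real_inner_comm F.x F.e]
    ring
  have h6 : inner ℝ p F.x ^ 2 ≤ ‖p‖ ^ 2 * (1 - inner ℝ F.x F.e ^ 2) := by
    rw [h4, ← h5, ← mul_pow, ← sq_abs]
    exact pow_le_pow_left₀ (abs_nonneg _) (abs_real_inner_le_norm _ _) 2
  calc F.E2 p ≤ _ := h1
    _ ≤ _ := h2
    _ = _ := h3
    _ ≤ ‖p‖ ^ 2 := by nlinarith

theorem Fr.be_le {N : ℕ} (hN : 120 ≤ N) (F : Fr N) (hd : F.del ≤ N / 6) (w : E (N + 1)) (hu : F.u2 w ≠ 0) :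
    0 < F.al w ∧ 0 ≤ F.be w ∧
    F.be w ≤ (1.22 * F.del * inner ℝ w F.x ^ 2 + 7.1 * F.Sg w + 8.3 * F.k2 w ^ 2) / N := by
  have hNr : (120 : ℝ) ≤ N := by exact_mod_cast hN
  have hN1 : (0 : ℝ) < (N : ℝ) - 1 := by linarith
  obtain ⟨he0, he1, he2⟩ := F.eta_bd w
  obtain ⟨hd0, -⟩ := F.del_bd
  have ha2 : 0.825 * (N : ℝ) ≤ ((N : ℝ) - 1) * F.al w := by
    have h1 : ((N : ℝ) - 1) * F.al w = (N : ℝ) - 1 - (F.del - F.eta w) := by
      unfold Fr.al
      field_simp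
    rw [h1]
    linarith
  have ha1 : 0.8318 ≤ F.al w := by
    have h1 : ((N : ℝ) - 1) * 0.8318 ≤ ((N : ℝ) - 1) * F.al w := by
      have h1 : ((N : ℝ) - 1) * F.al w = (N : ℝ) - 1 - (F.del - F.eta w) := by
        unfold Fr.al
        field_simp
      rw [h1]
      linarith
    exact le_of_mul_le_mul_left h1 hN1
  have hal : 0 < F.al w := by linarith
  have hhh := F.be_le_hh_be_lex w
  have hSg : 0 ≤ F.Sg w := Finset.sum_nonneg fun j _ => by positivity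
  have hBq := F.be_le_Bq_be_lex w
  have hbe : F.be w = (F.del * inner ℝ w F.x ^ 2 + F.Sg w + 2 * (F.hh w - F.k2 w) ^ 2 / F.al w +
      2 * F.k2 w ^ 2) / ((N : ℝ) - 1) / F.al w := by
    unfold Fr.be Fr.bb
    rw [hBq]
  refine ⟨hal, ?_, ?_⟩
  · rw [hbe]
    positivity
  · rw [hbe]
    exact Fr.be_le_real_be_lex N 0 F.del (inner ℝ w F.x) (F.Sg w) (F.k2 w) (F.hh w) (F.al w) hNr hd0 hhh
      ha1 ha2
theorem Fr.k2_le {N : ℕ} (F : Fr N) (w : E (N + 1)) (hu : F.u2 w ≠ 0) :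
    F.k2 w ^ 2 ≤ inner ℝ w F.e ^ 2 * (F.E2 (F.pr w) / F.u2 w) ∧ F.E2 (F.pr w) ≤ F.u2 w := by
  have hE := F.k2_le_E2_be_lex w
  have hu2 : 0 < F.u2 w := lt_of_le_of_ne (Finset.sum_nonneg fun j _ => sq_nonneg _) (Ne.symm hu)
  refine ⟨?_, by rw [F.u2_pr w]; exact hE⟩
  have h1 := F.k2_le_sum_be_lex w
  unfold Fr.k2
  rw [div_pow, mul_pow, mul_div_assoc]
  refine mul_le_mul_of_nonneg_left ?_ (sq_nonneg _)
  rw [div_le_div_iff₀ (by positivity) hu2]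
  calc (∑ j, F.lv w j * F.eps w j) ^ 2 * F.u2 w ≤ (F.u2 w * F.E2 (F.pr w)) * F.u2 w := by gcongr
    _ = F.E2 (F.pr w) * F.u2 w ^ 2 := by ring



end Pool.Agent.Helper82.OS
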