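import Mathlib
import Pool.Agent.Helper82.OS.Defs
import Pool.Agent.Helper82.OS.Defs2
import Pool.Agent.Helper82.OS.Defs3
import Pool.Agent.Helper82.OS.Defs4
import Pool.Agent.Helper82.OS.trc
import Pool.Agent.Helper82.OS.be_le
set_option autoImplicit false
open Matrix MeasureTheory Set Metric Filter Topology
open scoped ENNReal ContDiff

namespace Pool.Agent.Helper82.OS

theorem Fr.be_le3_real (N a d X S k h al : ℝ) (hN : 40 ≤ N) (hd0 : 0 ≤ d) (hS : h ^ 2 ≤ S)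
    (ha1 : 0.829 ≤ al) (ha2 : 0.808 * N ≤ (N - 1) * al) :
    (d * X ^ 2 + S + (1.5 * h ^ 2 + 3 * k ^ 2) / al) / (N - 1) / al ≤
      (1.24 * d * X ^ 2 + 3.48 * S + 4.49 * k ^ 2) / N := by
  have hal : 0 < al := by linarith
  have hN1 : 0 < N - 1 := by linarith
  have hN0 : 0 < N := by linarith
  have hS0 : 0 ≤ S := le_trans (sq_nonneg _) hS
  have hdX : 0 ≤ d * X ^ 2 := by positivity
  have h1 : (1.5 * h ^ 2 + 3 * k ^ 2) / al ≤ 1.81 * S + 3.62 * k ^ 2 := by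
    rw [div_le_iff₀ hal]
    have h3 : 0 ≤ 1.81 * S + 3.62 * k ^ 2 := by positivity
    nlinarith [mul_le_mul_of_nonneg_left ha1 h3, sq_nonneg k]
  have h2 : d * X ^ 2 + S + (1.5 * h ^ 2 + 3 * k ^ 2) / al ≤
      0.808 * (1.24 * d * X ^ 2 + 3.48 * S + 4.49 * k ^ 2) := by
    nlinarith [sq_nonneg k]
  have hT : 0 ≤ 1.24 * d * X ^ 2 + 3.48 * S + 4.49 * k ^ 2 := by positivity
  rw [div_div, div_le_div_iff₀ (by positivity) hN0]
  calc (d * X ^ 2 + S + (1.5 * h ^ 2 + 3 * k ^ 2) / al) * N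
      ≤ 0.808 * (1.24 * d * X ^ 2 + 3.48 * S + 4.49 * k ^ 2) * N := by gcongr
    _ = (1.24 * d * X ^ 2 + 3.48 * S + 4.49 * k ^ 2) * (0.808 * N) := by ring
    _ ≤ (1.24 * d * X ^ 2 + 3.48 * S + 4.49 * k ^ 2) * ((N - 1) * al) := by gcongr

theorem Fr.be_le3 {N : ℕ} (hN : 40 ≤ N) (F : Fr N) (hd : F.del ≤ N / 6) (w : E (N + 1)) (hu : F.u2 w ≠ 0) :
    0 < F.al w ∧ 0 ≤ F.be3 w ∧
    F.be3 w ≤ (1.24 * F.del * inner ℝ w F.x ^ 2 + 3.48 * F.Sg w + 4.49 * F.k2 w ^ 2) / N := by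
  have hNr : (40 : ℝ) ≤ N := by exact_mod_cast hN
  have hN1 : (0 : ℝ) < (N : ℝ) - 1 := by linarith
  obtain ⟨he0, he1, he2⟩ := F.eta_bd w
  obtain ⟨hd0, -⟩ := F.del_bd
  have ha2 : 0.808 * (N : ℝ) ≤ ((N : ℝ) - 1) * F.al w := by
    have h1 : ((N : ℝ) - 1) * F.al w = (N : ℝ) - 1 - (F.del - F.eta w) := by
      unfold Fr.al
      field_simp
    rw [h1]
    linarith
  have ha1 : 0.829 ≤ F.al w := by
    have h1 : ((N : ℝ) - 1) * 0.829 ≤ ((N : ℝ) - 1) * F.al w := by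
      have h1 : ((N : ℝ) - 1) * F.al w = (N : ℝ) - 1 - (F.del - F.eta w) := by
        unfold Fr.al
        field_simp
      rw [h1]
      linarith
    exact le_of_mul_le_mul_left h1 hN1
  have hal : 0 < F.al w := by linarith
  have hhh := F.be_le_hh_be_lex w
  have hSg : 0 ≤ F.Sg w := Finset.sum_nonneg fun j _ => by positivity
  have hBq := F.be_le_Bq_be_lex w
  have hbe : F.be3 w = (F.del * inner ℝ w F.x ^ 2 + F.Sg w + (1.5 * F.hh w ^ 2 + 3 * F.k2 w ^ 2) / F.al w) /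
      ((N : ℝ) - 1) / F.al w := by
    unfold Fr.be3 Fr.b3
    rw [hBq]
  refine ⟨hal, ?_, ?_⟩
  · rw [hbe]
    positivity
  · rw [hbe]
    exact Fr.be_le3_real N 0 F.del (inner ℝ w F.x) (F.Sg w) (F.k2 w) (F.hh w) (F.al w) hNr hd0 hhh
      ha1 ha2

end Pool.Agent.Helper82.OS
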