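import Mathlib
import Pool.Agent.Helper82.OS.Defs
import Pool.Agent.Helper82.OS.Defs2
import Pool.Agent.Helper82.OS.trc
set_option autoImplicit false
open Matrix MeasureTheory Set Metric Filter Topology
open scoped ENNReal ContDiff

namespace Pool.Agent.Helper82.OS
namespace Fr
variable {N : ℕ} (F : Fr N)

end Fr

lemma bessel {N D : ℕ} (v : Fin N → E D) (hv : Orthonormal ℝ v) (w : E D) :
    ∑ j, inner ℝ w (v j) ^ 2 ≤ ‖w‖ ^ 2 := by
  have := hv.sum_inner_products_le (s := Finset.univ) w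
  refine le_trans (le_of_eq ?_) this
  apply Finset.sum_congr rfl
  intro j _
  rw [Real.norm_eq_abs, sq_abs, real_inner_comm]

lemma inner_sq_le {D : ℕ} (a b : E D) (hb : ‖b‖ = 1) : inner ℝ a b ^ 2 ≤ ‖a‖ ^ 2 := by
  have h := abs_real_inner_le_norm a b
  rw [hb, mul_one] at h
  rw [← sq_abs]
  exact pow_le_pow_left₀ (abs_nonneg _) h 2

namespace Fr
variable {N : ℕ} (F : Fr N)

lemma s2_le (j : Fin N) : F.s j ^ 2 ≤ 1 := by
  have := F.hcs j; nlinarith [sq_nonneg (F.c j)]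

lemma c2_le (j : Fin N) : F.c j ^ 2 ≤ 1 := by
  have := F.hcs j; nlinarith [sq_nonneg (F.s j)]

/-- The sum in the bound. -/
noncomputable def Sp (w : E (N + 1)) : ℝ :=
  ∑ j, F.s j ^ 2 * (inner ℝ (F.pr w) F.x ^ 2 + inner ℝ (F.pr w) (F.g j) ^ 2)

lemma Sp_nonneg (w : E (N + 1)) : 0 ≤ F.Sp w := by
  unfold Sp; positivity

lemma gen_le (p : E (N + 1)) :
    ∑ j, F.s j ^ 2 * (inner ℝ p F.x ^ 2 + inner ℝ p (F.g j) ^ 2) ≤ (F.del + 1) * ‖p‖ ^ 2 := by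
  have h1 : ∀ j ∈ Finset.univ, F.s j ^ 2 * (inner ℝ p F.x ^ 2 + inner ℝ p (F.g j) ^ 2) ≤
      F.s j ^ 2 * ‖p‖ ^ 2 + inner ℝ p (F.g j) ^ 2 := by
    intro j _
    have a := inner_sq_le p F.x F.hx
    have b := F.s2_le j
    nlinarith [sq_nonneg (F.s j), sq_nonneg (inner ℝ p (F.g j)),
      mul_le_mul_of_nonneg_left a (sq_nonneg (F.s j)),
      mul_le_mul_of_nonneg_right b (sq_nonneg (inner ℝ p (F.g j)))]
  refine (Finset.sum_le_sum h1).trans ?_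
  rw [Finset.sum_add_distrib, ← Finset.sum_mul]
  have := bessel F.g F.hg p
  unfold del
  linarith

lemma eps_eq (w : E (N + 1)) (j : Fin N) :
    F.eps w j = F.s j * (inner ℝ (F.pr w) F.x * inner ℝ (F.g j) F.e -
      inner ℝ (F.pr w) (F.g j) * inner ℝ F.x F.e) := by
  unfold eps pr
  simp only [inner_sub_left, inner_smul_left, conj_trivial]
  rw [real_inner_comm (F.g j) F.e, real_inner_comm F.x F.e]
  ring

lemma eps_sq_le (w : E (N + 1)) :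
    ∑ j, F.eps w j ^ 2 ≤ 2 * F.Sp w := by
  unfold Sp
  rw [Finset.mul_sum]
  apply Finset.sum_le_sum
  intro j _
  rw [eps_eq]
  have h1 : inner ℝ (F.g j) F.e ^ 2 ≤ 1 := by
    have := inner_sq_le (F.g j) F.e F.he
    rw [F.hg.1 j] at this; simpa using this
  have h2 : inner ℝ F.x F.e ^ 2 ≤ 1 := by
    have := inner_sq_le F.x F.e F.he
    rw [F.hx] at this; simpa using this
  set a : ℝ := inner ℝ (F.pr w) F.x
  set b : ℝ := inner ℝ (F.pr w) (F.g j)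
  set u : ℝ := inner ℝ (F.g j) F.e
  set v : ℝ := inner ℝ F.x F.e
  have h3 : (a * u - b * v) ^ 2 ≤ 2 * (a ^ 2 + b ^ 2) := by
    have h4 : (a * u - b * v) ^ 2 ≤ 2 * ((a * u) ^ 2 + (b * v) ^ 2) := by
      nlinarith [sq_nonneg (a * u + b * v)]
    have h5 : (a * u) ^ 2 ≤ a ^ 2 := by
      rw [mul_pow]; nlinarith [sq_nonneg a]
    have h6 : (b * v) ^ 2 ≤ b ^ 2 := by
      rw [mul_pow]; nlinarith [sq_nonneg b]
    linarith
  rw [mul_pow]
  have := mul_le_mul_of_nonneg_left h3 (sq_nonneg (F.s j))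
  linarith

lemma lv_sq_le (w : E (N + 1)) : ∑ j, F.lv w j ^ 2 ≤ F.u2 w := by
  unfold u2
  apply Finset.sum_le_sum
  intro j _
  unfold lv
  rw [mul_pow]
  nlinarith [F.c2_le j, sq_nonneg (inner ℝ w (F.q j))]

lemma k2_sq_le (w : E (N + 1)) (hw : ‖w‖ = 1) (hu : F.u2 w ≠ 0) :
    F.k2 w ^ 2 ≤ 2 * (F.Sp w / F.u2 w) := by
  have hu0 : 0 < F.u2 w := lt_of_le_of_ne (by unfold u2; positivity) hu.symm
  have hW : inner ℝ w F.e ^ 2 ≤ 1 := by
    have := inner_sq_le w F.e F.he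
    rw [hw] at this; simpa using this
  have h1 : (∑ j, F.lv w j * F.eps w j) ^ 2 ≤ F.u2 w * (2 * F.Sp w) := by
    refine (Finset.sum_mul_sq_le_sq_mul_sq _ _ _).trans ?_
    exact mul_le_mul (F.lv_sq_le w) (F.eps_sq_le w) (by positivity) hu0.le
  unfold k2
  rw [div_pow, mul_pow]
  rw [div_le_iff₀ (by positivity)]
  have h2 : inner ℝ w F.e ^ 2 * (∑ j, F.lv w j * F.eps w j) ^ 2 ≤ 1 * (F.u2 w * (2 * F.Sp w)) :=
    mul_le_mul hW h1 (sq_nonneg _) zero_le_one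
  refine h2.trans (le_of_eq ?_)
  field_simp

end Fr

theorem Fr.bb_le {N : ℕ} (hN : 2 ≤ N) (F : Fr N) (w : E (N + 1)) (hw : ‖w‖ = 1) (hu : F.u2 w ≠ 0)
    (hal : 1 / 2 ≤ F.al w) : F.bb w ≤ F.bh w := by
  have hN' : (0 : ℝ) < (N : ℝ) - 1 := by
    have : (2 : ℝ) ≤ N := by exact_mod_cast hN
    linarith
  unfold Fr.bb Fr.bh
  apply div_le_div_of_nonneg_right _ hN'.le
  have h1 := F.k2_sq_le w hw hu
  unfold Fr.Sp at h1
  have h2 : 2 * (F.hh w - F.k2 w) ^ 2 / F.al w ≤ 4 * (F.hh w - F.k2 w) ^ 2 := by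
    rw [div_le_iff₀ (by linarith)]
    nlinarith [sq_nonneg (F.hh w - F.k2 w)]
  have h3 : 4 * (F.hh w - F.k2 w) ^ 2 ≤ 8 * F.hh w ^ 2 + 8 * F.k2 w ^ 2 := by
    nlinarith [sq_nonneg (F.hh w + F.k2 w)]
  linarith

theorem Fr.bh_bd {N : ℕ} (hN : 2 ≤ N) (F : Fr N) (w : E (N + 1)) (hw : ‖w‖ = 1) (hu : F.u2 w ≠ 0) :
    0 ≤ F.bh w ∧ F.bh w ≤ 30 * (F.del + 2) / ((N : ℝ) - 1) := by
  have hN' : (0 : ℝ) < (N : ℝ) - 1 := by
    have : (2 : ℝ) ≤ N := by exact_mod_cast hN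
    linarith
  have hu0 : 0 < F.u2 w := lt_of_le_of_ne (by unfold Fr.u2; positivity) hu.symm
  have hS0 := F.Sp_nonneg w
  have hB0 : 0 ≤ F.Bq w := by unfold Fr.Bq; positivity
  have hd := F.del_bd.1
  unfold Fr.bh
  change 0 ≤ (F.Bq w + 8 * F.hh w ^ 2 + 20 * (F.Sp w / F.u2 w)) / ((N : ℝ) - 1) ∧
    (F.Bq w + 8 * F.hh w ^ 2 + 20 * (F.Sp w / F.u2 w)) / ((N : ℝ) - 1) ≤ _
  refine ⟨by positivity, ?_⟩
  apply div_le_div_of_nonneg_right _ hN'.le
  have h1 : F.Bq w ≤ F.del + 1 := by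
    have := F.gen_le w
    rw [hw] at this
    unfold Fr.Bq
    linarith
  have h2 : F.Sp w / F.u2 w ≤ F.del + 1 := by
    rw [div_le_iff₀ hu0, F.u2_pr w]
    exact F.gen_le (F.pr w)
  have h3 : F.hh w ^ 2 ≤ 1 / 4 := by
    unfold Fr.hh
    refine (Finset.sum_mul_sq_le_sq_mul_sq _ _ _).trans ?_
    have a1 : ∑ j, (F.c j * F.s j * inner ℝ (F.q j) F.x) ^ 2 ≤ 1 / 4 := by
      have a2 : ∀ j ∈ Finset.univ, (F.c j * F.s j * inner ℝ (F.q j) F.x) ^ 2 ≤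
          1 / 4 * inner ℝ F.x (F.q j) ^ 2 := by
        intro j _
        rw [mul_pow, real_inner_comm]
        apply mul_le_mul_of_nonneg_right _ (sq_nonneg _)
        have := F.hcs j
        nlinarith [sq_nonneg (F.c j ^ 2 - F.s j ^ 2)]
      refine (Finset.sum_le_sum a2).trans ?_
      rw [← Finset.mul_sum]
      have := bessel F.q F.hq F.x
      rw [F.hx] at this
      linarith
    have a3 : ∑ j, inner ℝ w (F.g j) ^ 2 ≤ 1 := by
      have := bessel F.g F.hg w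
      rw [hw] at this; simpa using this
    calc _ ≤ (1 / 4 : ℝ) * 1 := mul_le_mul a1 a3 (by positivity) (by norm_num)
      _ = 1 / 4 := by norm_num
  linarith



end Pool.Agent.Helper82.OS
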