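import Mathlib
import Pool.Agent.Helper82.OS.Defs
import Pool.Agent.Helper82.OS.polar
set_option autoImplicit false
open Matrix MeasureTheory Set Metric Filter Topology
open scoped ENNReal ContDiff

namespace Pool.Agent.Helper82.OS
private theorem scale_all_gnomonicx (a : ℝ) (ha : 0 < a) (f : ℝ → ℝ≥0∞) (hf : Measurable f) :
    ∫⁻ t, f t = ENNReal.ofReal a * ∫⁻ t, f (a * t) := by
  have h1 : ∫⁻ t, f (a * t) = ∫⁻ t, f t ∂(Measure.map (fun t => a * t) volume) := by
    rw [lintegral_map hf (measurable_const_mul a)]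
  rw [h1, Real.map_volume_mul_left ha.ne', lintegral_smul_measure, smul_eq_mul, ← mul_assoc,
    ← ENNReal.ofReal_mul ha.le, abs_of_pos (inv_pos.2 ha), mul_inv_cancel₀ ha.ne',
    ENNReal.ofReal_one, one_mul]

private theorem scale_Ioi_gnomonicx (s : ℝ) (hs : 0 < s) (N : ℕ) (ρ : ℝ → ℝ≥0∞) (hρ : Measurable ρ) :
    ∫⁻ r in Ioi (0 : ℝ), (ENNReal.ofReal r * ρ (r * s)) * ENNReal.ofReal (r ^ (N + N)) =
      ENNReal.ofReal (((s ^ 2) ^ (N + 1))⁻¹) * ∫⁻ r in Ioi (0 : ℝ), ρ r * ENNReal.ofReal (r ^ (N + (N + 1))) := by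
  set f : ℝ → ℝ≥0∞ := (Ioi (0:ℝ)).indicator (fun r => ρ r * ENNReal.ofReal (r ^ (N + (N + 1)))) with hf
  have hfm : Measurable f := by
    apply Measurable.indicator _ measurableSet_Ioi
    exact hρ.mul (ENNReal.measurable_ofReal.comp (measurable_id.pow_const _))
  have h1 : ∫⁻ r in Ioi (0 : ℝ), ρ r * ENNReal.ofReal (r ^ (N + (N + 1))) = ∫⁻ r, f r := by
    rw [hf, lintegral_indicator measurableSet_Ioi]
  have hfm2 : Measurable (fun r => f (s * r)) := hfm.comp (measurable_const_mul s)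
  rw [h1, scale_all_gnomonicx s hs f hfm, ← mul_assoc, ← ENNReal.ofReal_mul (by positivity),
    ← lintegral_const_mul _ hfm2, ← lintegral_indicator measurableSet_Ioi]
  apply lintegral_congr
  intro r
  by_cases hr : r ∈ Ioi (0:ℝ)
  · have hr0 : 0 < r := hr
    have hsr : s * r ∈ Ioi (0:ℝ) := mul_pos hs hr0
    rw [indicator_of_mem hr, hf, indicator_of_mem hsr]
    rw [mul_comm (ENNReal.ofReal r), mul_assoc, ← ENNReal.ofReal_mul hr0.le, mul_left_comm,
      ← ENNReal.ofReal_mul (by positivity), mul_comm r s]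
    congr 2
    have hs0 : s ≠ 0 := hs.ne'
    field_simp
    ring
  · have hsr : s * r ∉ Ioi (0:ℝ) := by
      intro h
      exact hr ((pos_iff_pos_of_mul_pos h).1 hs)
    rw [indicator_of_notMem hr, hf, indicator_of_notMem hsr, mul_zero]

theorem gnomonic {N : ℕ} (v : E (N + 2)) (hv : ‖v‖ = 1) (ι : E (N + 1) →ₗᵢ[ℝ] E (N + 2))
    (hι : ∀ y, inner ℝ v (ι y) = 0)
    (hmp : MeasurePreserving (fun p : ℝ × E (N + 1) => p.1 • v + ι p.2) (volume.prod volume) volume)
    (g : E (N + 2) → ℝ≥0∞) (hg : Measurable g)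
    (hh : ∀ r : ℝ, 0 < r → ∀ z, g (r • z) = ENNReal.ofReal (r ^ N) * g z) :
    ∫⁻ f : sphere (0 : E (N + 2)) 1, g f ∂(sg (N + 2))
      = ∫⁻ w : sphere (0 : E (N + 1)) 1, (∫⁻ t : ℝ, g (t • v + ι (w : E (N + 1))) *
          ENNReal.ofReal (((1 + t ^ 2) ^ (N + 1))⁻¹)) ∂(sg (N + 1)) := by
  set ρ : ℝ → ℝ≥0∞ := (Iic (1:ℝ)).indicator (fun _ => 1) with hρdef
  have hρ : Measurable ρ := measurable_const.indicator measurableSet_Iic
  set I0 : ℝ≥0∞ := ∫⁻ r in Ioi (0 : ℝ), ρ r * ENNReal.ofReal (r ^ (N + (N + 1))) with hI0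
  have hI0top : I0 ≠ ⊤ := by
    have h1 : I0 ≤ ∫⁻ r in Ioi (0:ℝ), (Iic (1:ℝ)).indicator (fun _ => (1:ℝ≥0∞)) r := by
      rw [hI0]
      apply setLIntegral_mono (measurable_const.indicator measurableSet_Iic)
      intro r hr
      have hr0 : (0:ℝ) < r := hr
      by_cases h : r ∈ Iic (1:ℝ)
      · rw [hρdef, indicator_of_mem h, one_mul]
        have h1 : r ≤ 1 := h
        have h2 : r ^ (N + (N + 1)) ≤ 1 := pow_le_one₀ hr0.le h1
        exact ENNReal.ofReal_le_one.2 h2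
      · rw [hρdef, indicator_of_notMem h, zero_mul]
    have h2 : ∫⁻ r in Ioi (0:ℝ), (Iic (1:ℝ)).indicator (fun _ => (1:ℝ≥0∞)) r = 1 := by
      rw [lintegral_indicator measurableSet_Iic, Measure.restrict_restrict measurableSet_Iic]
      have : Iic (1:ℝ) ∩ Ioi 0 = Ioc 0 1 := by
        ext x
        simp [and_comm]
      rw [this, setLIntegral_const, Real.volume_Ioc]
      simp
    rw [h2] at h1
    exact ne_top_of_le_ne_top ENNReal.one_ne_top h1
  have hI00 : I0 ≠ 0 := by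
    intro h0
    have h1 : ∫⁻ _r in Ioc (1/2:ℝ) 1, ENNReal.ofReal ((1/2) ^ (N + (N + 1))) ≤ I0 := by
      have hsub : Ioc (1/2:ℝ) 1 ⊆ Ioi 0 := by
        intro r hr
        have := hr.1
        show (0:ℝ) < r
        linarith
      refine le_trans ?_ (lintegral_mono_set hsub)
      have hm : Measurable (fun r : ℝ => ρ r * ENNReal.ofReal (r ^ (N + (N + 1)))) :=
        hρ.mul (ENNReal.measurable_ofReal.comp (measurable_id.pow_const _))
      apply setLIntegral_mono hm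
      intro r hr
      have h2 : r ∈ Iic (1:ℝ) := hr.2
      rw [hρdef, indicator_of_mem h2, one_mul]
      apply ENNReal.ofReal_le_ofReal
      exact pow_le_pow_left₀ (by norm_num) hr.1.le _
    rw [h0, setLIntegral_const, Real.volume_Ioc] at h1
    have h3 : ENNReal.ofReal ((1/2:ℝ) ^ (N + (N + 1))) * ENNReal.ofReal (1 - 1/2) = 0 := le_antisymm h1 bot_le
    rw [mul_eq_zero, ENNReal.ofReal_eq_zero, ENNReal.ofReal_eq_zero] at h3
    have h4 : (0:ℝ) < (1/2) ^ (N + (N + 1)) := by positivity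
    rcases h3 with h3 | h3
    · linarith
    · norm_num at h3
  set H : E (N + 2) → ℝ≥0∞ := fun z => ρ ‖z‖ * g z with hH
  have hHm : Measurable H := (hρ.comp measurable_norm).mul hg
  have hpol := polar (k := N + 2) (by omega) ρ hρ g hg N hh
  have hexp : N + (N + 2 - 1) = N + (N + 1) := by omega
  rw [hexp] at hpol
  -- step 1, 2
  have hΦ : Measurable (fun p : ℝ × E (N + 1) => p.1 • v + ι p.2) := by
    apply Continuous.measurable
    have := ι.continuous
    fun_prop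
  have h12 : ∫⁻ z, H z = ∫⁻ y : E (N + 1), ∫⁻ t : ℝ, H (t • v + ι y) := by
    rw [← hmp.lintegral_comp hHm]
    have hHΦ : Measurable (fun p : ℝ × E (N + 1) => H (p.1 • v + ι p.2)) := hHm.comp hΦ
    rw [lintegral_prod_symm _ hHΦ.aemeasurable]
  -- step 3
  have hline : ∀ y : E (N + 1), Measurable (fun t : ℝ => H (t • v + ι y)) := by
    intro y
    apply hHm.comp
    apply Continuous.measurable
    fun_prop
  have h3 : ∫⁻ y : E (N + 1), ∫⁻ t : ℝ, H (t • v + ι y) =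
      ∫⁻ y : E (N + 1), ∫⁻ τ : ℝ, ENNReal.ofReal ‖y‖ * H ((‖y‖ * τ) • v + ι y) := by
    apply lintegral_congr_ae
    have h0 : ∀ᵐ y : E (N + 1), y ≠ 0 := by
      rw [ae_iff]
      simp
    filter_upwards [h0] with y hy
    have hy0 : 0 < ‖y‖ := norm_pos_iff.2 hy
    rw [scale_all_gnomonicx ‖y‖ hy0 _ (hline y), lintegral_const_mul]
    exact (hline y).comp (measurable_const_mul _)
  -- step 4
  have hKm : Measurable (fun p : E (N + 1) × ℝ => ENNReal.ofReal ‖p.1‖ * H ((‖p.1‖ * p.2) • v + ι p.1)) := by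
    apply Measurable.mul
    · exact ENNReal.measurable_ofReal.comp (measurable_norm.comp measurable_fst)
    · apply hHm.comp
      apply Continuous.measurable
      have := ι.continuous
      fun_prop
  have h4 : ∫⁻ y : E (N + 1), ∫⁻ τ : ℝ, ENNReal.ofReal ‖y‖ * H ((‖y‖ * τ) • v + ι y) =
      ∫⁻ τ : ℝ, ∫⁻ y : E (N + 1), ENNReal.ofReal ‖y‖ * H ((‖y‖ * τ) • v + ι y) :=
    lintegral_lintegral_swap hKm.aemeasurable
  -- step 5
  have hnorm : ∀ (y : E (N + 1)) (τ : ℝ), ‖(‖y‖ * τ) • v + ι y‖ = ‖y‖ * Real.sqrt (1 + τ ^ 2) := by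
    intro y τ
    have h1 : ‖(‖y‖ * τ) • v + ι y‖ ^ 2 = (‖y‖ * Real.sqrt (1 + τ ^ 2)) ^ 2 := by
      have hsq : Real.sqrt (1 + τ ^ 2) ^ 2 = 1 + τ ^ 2 := Real.sq_sqrt (by positivity)
      rw [norm_add_sq_real, inner_smul_left, hι y, norm_smul, hv, ι.norm_map,
        mul_pow ‖y‖ (Real.sqrt (1 + τ ^ 2)) 2, hsq]
      simp only [Real.norm_eq_abs, mul_zero, add_zero, mul_one, sq_abs]
      ring
    have h2 : 0 ≤ ‖y‖ * Real.sqrt (1 + τ ^ 2) := by positivity
    exact (sq_eq_sq₀ (norm_nonneg _) h2).1 h1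
  have h5 : ∀ τ : ℝ, ∫⁻ y : E (N + 1), ENNReal.ofReal ‖y‖ * H ((‖y‖ * τ) • v + ι y) =
      (ENNReal.ofReal (((1 + τ ^ 2) ^ (N + 1))⁻¹) * I0) *
        ∫⁻ w : sphere (0 : E (N + 1)) 1, g (τ • v + ι (w : E (N + 1))) ∂(sg (N + 1)) := by
    intro τ
    set s : ℝ := Real.sqrt (1 + τ ^ 2) with hs
    have hs0 : 0 < s := Real.sqrt_pos.2 (by positivity)
    have hs2 : s ^ 2 = 1 + τ ^ 2 := Real.sq_sqrt (by positivity)
    set ρτ : ℝ → ℝ≥0∞ := fun r => ENNReal.ofReal r * ρ (r * s) with hρτ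
    have hρτm : Measurable ρτ :=
      ENNReal.measurable_ofReal.mul (hρ.comp (measurable_mul_const s))
    set Gτ : E (N + 1) → ℝ≥0∞ := fun y => g ((‖y‖ * τ) • v + ι y) with hGτ
    have hGτm : Measurable Gτ := by
      apply hg.comp
      apply Continuous.measurable
      have := ι.continuous
      fun_prop
    have hGτh : ∀ r : ℝ, 0 < r → ∀ z, Gτ (r • z) = ENNReal.ofReal (r ^ N) * Gτ z := by
      intro r hr z
      have e1 : (‖r • z‖ * τ) • v + ι (r • z) = r • ((‖z‖ * τ) • v + ι z) := by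
        rw [norm_smul, Real.norm_eq_abs, abs_of_pos hr, map_smul, smul_add, smul_smul, mul_assoc]
      show g ((‖r • z‖ * τ) • v + ι (r • z)) = _
      rw [e1, hh r hr]
    have hp := polar (k := N + 1) (by omega) ρτ hρτm Gτ hGτm N hGτh
    have hexp2 : N + (N + 1 - 1) = N + N := by omega
    rw [hexp2] at hp
    have e2 : ∫⁻ y : E (N + 1), ENNReal.ofReal ‖y‖ * H ((‖y‖ * τ) • v + ι y) = ∫⁻ z, ρτ ‖z‖ * Gτ z := by
      apply lintegral_congr
      intro y
      simp only [hH, hρτ, hGτ]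
      rw [hnorm y τ, mul_assoc]
    rw [e2, hp]
    have e3 : ∫⁻ r in Ioi (0 : ℝ), ρτ r * ENNReal.ofReal (r ^ (N + N)) =
        ENNReal.ofReal (((1 + τ ^ 2) ^ (N + 1))⁻¹) * I0 := by
      have := scale_Ioi_gnomonicx s hs0 N ρ hρ
      rw [hs2] at this
      exact this
    rw [e3]
    congr 1
    apply lintegral_congr
    intro w
    have hw : ‖(w : E (N + 1))‖ = 1 := by
      have := w.2
      rwa [mem_sphere_zero_iff_norm] at this
    simp only [hGτ]
    rw [hw, one_mul]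
  -- conclude
  have hLm : Measurable (fun p : ℝ × sphere (0 : E (N + 1)) 1 => g (p.1 • v + ι (p.2 : E (N + 1))) *
          ENNReal.ofReal (((1 + p.1 ^ 2) ^ (N + 1))⁻¹)) := by
    apply Measurable.mul
    · apply hg.comp
      apply Continuous.measurable
      have := ι.continuous
      fun_prop
    · apply ENNReal.measurable_ofReal.comp
      fun_prop
  have hfin : ∫⁻ z, H z = I0 * ∫⁻ w : sphere (0 : E (N + 1)) 1, (∫⁻ t : ℝ, g (t • v + ι (w : E (N + 1))) *
          ENNReal.ofReal (((1 + t ^ 2) ^ (N + 1))⁻¹)) ∂(sg (N + 1)) := by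
    rw [h12, h3, h4]
    have e1 : ∀ τ : ℝ, ∫⁻ y : E (N + 1), ENNReal.ofReal ‖y‖ * H ((‖y‖ * τ) • v + ι y) =
        I0 * ∫⁻ w : sphere (0 : E (N + 1)) 1, g (τ • v + ι (w : E (N + 1))) *
          ENNReal.ofReal (((1 + τ ^ 2) ^ (N + 1))⁻¹) ∂(sg (N + 1)) := by
      intro τ
      rw [h5 τ, lintegral_mul_const]
      · ring
      · apply hg.comp
        apply Continuous.measurable
        have := ι.continuous
        fun_prop
    rw [lintegral_congr e1, lintegral_const_mul]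
    · congr 1
      exact lintegral_lintegral_swap (μ := (volume : Measure ℝ)) (ν := sg (N + 1)) hLm.aemeasurable
    · exact hLm.lintegral_prod_right'
  have h6 : I0 * ∫⁻ f : sphere (0 : E (N + 2)) 1, g f ∂(sg (N + 2)) =
      I0 * ∫⁻ w : sphere (0 : E (N + 1)) 1, (∫⁻ t : ℝ, g (t • v + ι (w : E (N + 1))) *
          ENNReal.ofReal (((1 + t ^ 2) ^ (N + 1))⁻¹)) ∂(sg (N + 1)) := by
    rw [← hfin]
    exact hpol.symm
  exact (ENNReal.mul_right_inj hI00 hI0top).1 h6



end Pool.Agent.Helper82.OS
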