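import Mathlib
import Pool.Agent.Helper82.OS.Defs
import Pool.Agent.Helper82.OS.Defs2
import Pool.Agent.Helper82.OS.D0
import Pool.Agent.Helper82.OS.gnomonic
set_option autoImplicit false
open Matrix MeasureTheory Set Metric Filter Topology
open scoped ENNReal ContDiff

namespace Pool.Agent.Helper82.OS
namespace Fr
variable {N : ℕ} (F : Fr N)

end Fr

open scoped Pointwise in
theorem sg_inv_cN_eqx {D : ℕ} (R : E D ≃ₗᵢ[ℝ] E D) (f : E D → ℝ≥0∞) (hf : Measurable f) :
    ∫⁻ w : sphere (0 : E D) 1, f (R w) ∂(sg D) = ∫⁻ w : sphere (0 : E D) 1, f w ∂(sg D) := by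
  let S : sphere (0 : E D) 1 → sphere (0 : E D) 1 := fun w => ⟨R w, by
    have := w.2
    rw [mem_sphere_zero_iff_norm] at this ⊢
    rw [R.norm_map]
    exact this⟩
  have hS : Measurable S := by
    apply Continuous.measurable
    exact (R.continuous.comp continuous_subtype_val).subtype_mk _
  have hmap : Measure.map S (sg D) = sg D := by
    refine Measure.ext fun s hs => ?_
    rw [Measure.map_apply hS hs, Measure.toSphere_apply' _ hs, Measure.toSphere_apply' _ (hS hs)]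
    congr 1
    have hset : (Ioo (0:ℝ) 1 • (Subtype.val '' (S ⁻¹' s) : Set (E D))) =
        R ⁻¹' (Ioo (0:ℝ) 1 • (Subtype.val '' s : Set (E D))) := by
      ext y
      constructor
      · rintro ⟨r, hr, z, ⟨w, hw, rfl⟩, rfl⟩
        refine ⟨r, hr, R w, ⟨S w, hw, rfl⟩, ?_⟩
        show r • R w = R (r • (w : E D))
        rw [map_smul]
      · rintro ⟨r, hr, z, ⟨w, hw, rfl⟩, hy⟩
        have hy' : r • (w : E D) = R y := hy
        have hw' : ‖(w : E D)‖ = 1 := mem_sphere_zero_iff_norm.1 w.2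
        refine ⟨r, hr, R.symm w, ⟨⟨R.symm w, ?_⟩, ?_, rfl⟩, ?_⟩
        · rw [mem_sphere_zero_iff_norm, R.symm.norm_map]
          exact hw'
        · show S ⟨R.symm w, _⟩ ∈ s
          have : S ⟨R.symm w, by rw [mem_sphere_zero_iff_norm, R.symm.norm_map]; exact hw'⟩ = w := by
            apply Subtype.ext
            exact R.apply_symm_apply _
          rw [this]
          exact hw
        · show r • R.symm (w : E D) = y
          rw [← map_smul, hy', R.symm_apply_apply]
    rw [hset]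
    exact R.measurePreserving.measure_preimage_emb R.toHomeomorph.measurableEmbedding _
  have h1 : ∫⁻ w : sphere (0 : E D) 1, f w ∂(Measure.map S (sg D)) =
      ∫⁻ w : sphere (0 : E D) 1, f (S w) ∂(sg D) :=
    lintegral_map (hf.comp measurable_subtype_coe) hS
  rw [hmap] at h1
  exact h1.symm

theorem A0_meas_cN_eqx (N : ℕ) : Measurable (A0 N) := by
  unfold A0 K
  apply Measurable.lintegral_prod_right'
    (f := fun p : ℝ × ℝ => ENNReal.ofReal (|p.2| ^ (N - 1) * Real.sqrt (p.2 ^ 2 + (1 - p.1 ^ 2)) *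
      ((1 + p.2 ^ 2) ^ (N + 1))⁻¹))
  fun_prop

theorem cN_eq {N : ℕ} (hN : 1 ≤ N) (e : E (N + 1)) (he : ‖e‖ = 1) :
    cN N = ∫⁻ w : sphere (0 : E (N + 1)) 1, A0 N (inner ℝ (w : E (N + 1)) e) ∂(sg (N + 1)) := by
  have hv : ‖(EuclideanSpace.single 0 1 : E (N + 2))‖ = 1 := by simp
  obtain ⟨ι, hι1, hι2, hmp⟩ := D0 (EuclideanSpace.single 0 1 : E (N + 2)) hv
  have hg0 : ∀ z : E (N + 2), 0 ≤ ‖z‖ ^ 2 - z 1 ^ 2 := by
    intro z
    have h := EuclideanSpace.norm_sq_eq z
    rw [h]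
    have := Finset.single_le_sum (f := fun i => ‖z i‖ ^ 2) (fun _ _ => sq_nonneg _)
      (Finset.mem_univ (1 : Fin (N + 2)))
    simp only [Real.norm_eq_abs, sq_abs] at this ⊢
    linarith
  have hgm : Measurable (fun z : E (N + 2) =>
      ENNReal.ofReal (|z 0| ^ (N - 1) * Real.sqrt (‖z‖ ^ 2 - z 1 ^ 2))) := by
    fun_prop
  have hgh : ∀ r : ℝ, 0 < r → ∀ z : E (N + 2),
      ENNReal.ofReal (|(r • z) 0| ^ (N - 1) * Real.sqrt (‖r • z‖ ^ 2 - (r • z) 1 ^ 2)) =
      ENNReal.ofReal (r ^ N) *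
        ENNReal.ofReal (|z 0| ^ (N - 1) * Real.sqrt (‖z‖ ^ 2 - z 1 ^ 2)) := by
    intro r hr z
    rw [← ENNReal.ofReal_mul (by positivity)]
    congr 1
    have e1 : ‖r • z‖ ^ 2 - (r • z) 1 ^ 2 = r ^ 2 * (‖z‖ ^ 2 - z 1 ^ 2) := by
      rw [norm_smul, Real.norm_eq_abs, mul_pow, sq_abs, PiLp.smul_apply, smul_eq_mul]
      ring
    have e2 : |(r • z) 0| = r * |z 0| := by
      rw [PiLp.smul_apply, smul_eq_mul, abs_mul, abs_of_pos hr]
    rw [e1, e2, Real.sqrt_mul (sq_nonneg r), Real.sqrt_sq hr.le, mul_pow]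
    obtain ⟨m, rfl⟩ := Nat.exists_eq_add_of_le' hN
    simp only [Nat.add_sub_cancel]
    ring
  have hgn := gnomonic (EuclideanSpace.single 0 1 : E (N + 2)) hv ι hι1 hmp _ hgm hgh
  have hcN : cN N = ∫⁻ f : sphere (0 : E (N + 2)) 1,
      ENNReal.ofReal (|(f : E (N + 2)) 0| ^ (N - 1) *
        Real.sqrt (‖(f : E (N + 2))‖ ^ 2 - (f : E (N + 2)) 1 ^ 2)) ∂(sg (N + 2)) := by
    unfold cN
    refine lintegral_congr fun f => ?_
    have : ‖(f : E (N + 2))‖ = 1 := mem_sphere_zero_iff_norm.1 f.2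
    rw [this, one_pow]
  have h10 : (inner ℝ (EuclideanSpace.single 0 1 : E (N + 2))
      (EuclideanSpace.single 1 1 : E (N + 2)) : ℝ) = 0 := by
    rw [EuclideanSpace.inner_single_left]
    simp
  obtain ⟨e1, he1⟩ := hι2 _ h10
  have he1n : ‖e1‖ = 1 := by
    rw [← ι.norm_map, he1]
    simp
  have key : cN N = ∫⁻ w : sphere (0 : E (N + 1)) 1,
      A0 N (inner ℝ (w : E (N + 1)) e1) ∂(sg (N + 1)) := by
    rw [hcN, hgn]
    refine lintegral_congr fun w => ?_
    unfold A0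
    refine lintegral_congr fun t => ?_
    have hwn : ‖(w : E (N + 1))‖ = 1 := mem_sphere_zero_iff_norm.1 w.2
    have c0 : (t • (EuclideanSpace.single 0 1 : E (N + 2)) + ι (w : E (N + 1))) 0 = t := by
      have h1 := hι1 (w : E (N + 1))
      rw [EuclideanSpace.inner_single_left] at h1
      simp at h1
      simp [h1]
    have c1 : (t • (EuclideanSpace.single 0 1 : E (N + 2)) + ι (w : E (N + 1))) 1 =
        inner ℝ (w : E (N + 1)) e1 := by
      have h1 : (inner ℝ (ι (w : E (N + 1))) (EuclideanSpace.single 1 1 : E (N + 2)) : ℝ) =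
          inner ℝ (w : E (N + 1)) e1 := by
        rw [← he1, ι.inner_map_map]
      rw [EuclideanSpace.inner_single_right] at h1
      rw [← h1]
      simp
    have c2 : ‖t • (EuclideanSpace.single 0 1 : E (N + 2)) + ι (w : E (N + 1))‖ ^ 2 =
        t ^ 2 + 1 := by
      rw [norm_add_sq_real, real_inner_smul_left, hι1, norm_smul, hv, ι.norm_map, hwn,
        Real.norm_eq_abs]
      simp
    rw [c0, c1, c2, ← ENNReal.ofReal_mul (by positivity)]
    congr 1
    rw [K]
    congr 3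
    ring
  rw [key]
  have hR : (Submodule.span ℝ {e1 - e})ᗮ.reflection e1 = e :=
    Submodule.reflection_sub (he1n.trans he.symm)
  have h2 := sg_inv_cN_eqx ((Submodule.span ℝ {e1 - e})ᗮ.reflection)
    (fun w => A0 N (inner ℝ w e)) ((A0_meas_cN_eqx N).comp (by fun_prop))
  rw [← h2]
  refine lintegral_congr fun w => ?_
  congr 1
  calc (inner ℝ (w : E (N + 1)) e1 : ℝ)
      = inner ℝ ((Submodule.span ℝ {e1 - e})ᗮ.reflection (w : E (N + 1)))
          ((Submodule.span ℝ {e1 - e})ᗮ.reflection e1) :=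
        (LinearIsometryEquiv.inner_map_map _ _ _).symm
    _ = _ := by rw [hR]



end Pool.Agent.Helper82.OS
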