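import Mathlib
import Pool.Agent.Helper82.OS.Defs
set_option autoImplicit false
open Matrix MeasureTheory Set Metric Filter Topology
open scoped ENNReal ContDiff

namespace Pool.Agent.Helper82.OS
theorem sgval {k : ℕ} (hk : 1 ≤ k) :
    sg k univ = ENNReal.ofReal (2 * Real.pi ^ ((k : ℝ) / 2) / Real.Gamma ((k : ℝ) / 2)) := by
  haveI : Nonempty (Fin k) := ⟨⟨0, hk⟩⟩
  have hk0 : (0 : ℝ) < (k : ℝ) / 2 := by
    have : (0 : ℝ) < k := by exact_mod_cast hk
    positivity
  have hG : 0 < Real.Gamma ((k : ℝ) / 2) := Real.Gamma_pos_of_pos hk0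
  have h1 : sg k univ = (k : ℝ≥0∞) * volume (ball (0 : E k) 1) := by
    have h := Measure.toSphere_apply_univ (volume : Measure (E k))
    rw [finrank_euclideanSpace_fin] at h
    exact h
  rw [h1, EuclideanSpace.volume_ball, Fintype.card_fin, ENNReal.ofReal_one, one_pow, one_mul,
    ← ENNReal.ofReal_natCast, ← ENNReal.ofReal_mul (Nat.cast_nonneg k)]
  congr 1
  rw [Real.Gamma_add_one hk0.ne', Real.sqrt_eq_rpow, ← Real.rpow_natCast, ← Real.rpow_mul Real.pi_pos.le]
  have e : (1 / 2 : ℝ) * (k : ℝ) = (k : ℝ) / 2 := by ring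
  rw [e]
  have hk1 : (k : ℝ) ≠ 0 := by
    intro h
    rw [h] at hk0
    simp at hk0
  field_simp



end Pool.Agent.Helper82.OS
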