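import Mathlib
import Pool.Agent.Helper82.OS.Defs
import Pool.Agent.Helper82.OS.D0
import Pool.Agent.Helper82.OS.K0
import Pool.Agent.Helper82.OS.polar
import Pool.Agent.Helper82.OS.sgval
set_option autoImplicit false
open Matrix MeasureTheory Set Metric Filter Topology
open scoped ENNReal ContDiff

namespace Pool.Agent.Helper82.OS
theorem cNval_Im_cNvalx (m : ℕ) :
    (∫⁻ r in Ioi (0 : ℝ), ENNReal.ofReal (Real.exp (-r ^ 2 / 2)) * ENNReal.ofReal (r ^ m)) =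
      ENNReal.ofReal (2 ^ (((m : ℝ) - 1) / 2) * Real.Gamma (((m : ℝ) + 1) / 2)) := by
  have hm : (-1 : ℝ) < (m : ℝ) := by
    have : (0 : ℝ) ≤ (m : ℝ) := Nat.cast_nonneg m
    linarith
  have h1 : ∫ x in Ioi (0 : ℝ), x ^ (m : ℝ) * Real.exp (-(1 / 2) * x ^ (2 : ℝ)) = _ :=
    integral_rpow_mul_exp_neg_mul_rpow (p := 2) (q := m) (b := 1 / 2) (by norm_num) hm (by norm_num)
  have h2 := integrableOn_rpow_mul_exp_neg_mul_sq (b := 1 / 2) (by norm_num) (s := m) hm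
  have e1 : (2 : ℝ) ^ (((m : ℝ) - 1) / 2) * Real.Gamma (((m : ℝ) + 1) / 2) =
      (1 / 2 : ℝ) ^ (-((m : ℝ) + 1) / 2) * (1 / 2) * Real.Gamma (((m : ℝ) + 1) / 2) := by
    congr 1
    have h3 : (1 / 2 : ℝ) = (2 : ℝ) ^ (-1 : ℝ) := by
      rw [Real.rpow_neg_one]; norm_num
    rw [h3, ← Real.rpow_mul (by norm_num), ← Real.rpow_add (by norm_num)]
    congr 1
    ring
  rw [e1, ← h1]
  have h4 : ∀ x : ℝ, x ^ (2 : ℝ) = x ^ 2 := fun x => Real.rpow_two x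
  simp only [h4]
  rw [ofReal_integral_eq_lintegral_ofReal h2 ?_]
  · refine setLIntegral_congr_fun measurableSet_Ioi fun x hx => ?_
    have hx' : (0 : ℝ) < x := hx
    show _ = ENNReal.ofReal _
    rw [← ENNReal.ofReal_mul (Real.exp_nonneg _), Real.rpow_natCast, mul_comm]
    congr 3
    ring
  · rw [Filter.EventuallyLE, ae_restrict_iff' measurableSet_Ioi]
    refine Filter.Eventually.of_forall fun x hx => ?_
    have hx' : (0 : ℝ) < x := hx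
    show (0 : ℝ) ≤ _
    positivity

theorem cNval_G_cNvalx : (∫⁻ s : ℝ, ENNReal.ofReal (Real.exp (-s ^ 2 / 2))) = ENNReal.ofReal (Real.sqrt (2 * Real.pi)) := by
  have h1 := integral_gaussian (1 / 2)
  have h2 := integrable_exp_neg_mul_sq (b := 1 / 2) (by norm_num)
  have e : Real.pi / (1 / 2) = 2 * Real.pi := by ring
  rw [e] at h1
  rw [← h1, ofReal_integral_eq_lintegral_ofReal h2 (Filter.Eventually.of_forall fun x => (Real.exp_nonneg _))]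
  refine lintegral_congr fun x => ?_
  congr 2
  ring

theorem cNval {N : ℕ} (hN : Even N) (hN2 : 2 ≤ N) :
    cN N = ENNReal.ofReal (2 * Real.pi ^ (((N : ℝ) + 1) / 2) * Real.Gamma ((N : ℝ) / 2) * Real.Gamma ((N : ℝ) + 1 / 2)
      / (Real.Gamma ((N : ℝ) + 1) * Real.Gamma (N : ℝ))) := by
  have hρ : Measurable (fun r : ℝ => ENNReal.ofReal (Real.exp (-r ^ 2 / 2))) := by fun_prop
  -- polar coordinates upstairs
  have hP1 := polar (k := N + 2) (by omega) (fun r : ℝ => ENNReal.ofReal (Real.exp (-r ^ 2 / 2))) hρ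
    (fun z : E (N + 2) => ENNReal.ofReal (|z 0| ^ (N - 1) * Real.sqrt (‖z‖ ^ 2 - (z 1) ^ 2)))
    (by fun_prop) N (by
      intro r hr z
      have h1 : ‖r • z‖ ^ 2 - ((r • z) 1) ^ 2 = r ^ 2 * (‖z‖ ^ 2 - (z 1) ^ 2) := by
        rw [norm_smul, Real.norm_eq_abs, mul_pow, sq_abs]
        show _ - (r * z 1) ^ 2 = _
        ring
      have h2 : |(r • z) 0| = r * |z 0| := by
        show |r * z 0| = _
        rw [abs_mul, abs_of_pos hr]
      rw [h1, h2, Real.sqrt_mul (by positivity), Real.sqrt_sq hr.le, ← ENNReal.ofReal_mul (by positivity)]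
      congr 1
      obtain ⟨M, rfl⟩ : ∃ M, N = M + 1 := ⟨N - 1, by omega⟩
      rw [Nat.add_sub_cancel, mul_pow]
      ring)
  have hcN : ∫⁻ f : sphere (0 : E (N + 2)) 1, ENNReal.ofReal
      (|(f : E (N + 2)) 0| ^ (N - 1) * Real.sqrt (‖(f : E (N + 2))‖ ^ 2 - ((f : E (N + 2)) 1) ^ 2)) ∂(sg (N + 2)) = cN N := by
    unfold cN
    refine lintegral_congr fun f => ?_
    have hf : ‖(f : E (N + 2))‖ = 1 := by simpa using f.2
    rw [hf, one_pow]
  rw [hcN] at hP1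
  -- decomposition
  obtain ⟨ι, hι1, hι2, hι3⟩ := D0 (k := N + 1) (EuclideanSpace.single 1 (1 : ℝ)) (by simp)
  obtain ⟨w, hw⟩ := hι2 (EuclideanSpace.single 0 (1 : ℝ)) (by
    rw [EuclideanSpace.inner_single_left]
    simp)
  have hw1 : ‖w‖ = 1 := by
    rw [← ι.norm_map w, hw]
    simp
  have hz : ∀ p : ℝ × E (N + 1), ENNReal.ofReal (Real.exp (-‖p.1 • (EuclideanSpace.single 1 (1 : ℝ) : E (N + 1 + 1)) + ι p.2‖ ^ 2 / 2)) *
      ENNReal.ofReal (|(p.1 • (EuclideanSpace.single 1 (1 : ℝ) : E (N + 1 + 1)) + ι p.2) 0| ^ (N - 1) *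
        Real.sqrt (‖p.1 • (EuclideanSpace.single 1 (1 : ℝ) : E (N + 1 + 1)) + ι p.2‖ ^ 2 -
          ((p.1 • (EuclideanSpace.single 1 (1 : ℝ) : E (N + 1 + 1)) + ι p.2) 1) ^ 2)) =
      ENNReal.ofReal (Real.exp (-p.1 ^ 2 / 2)) * (ENNReal.ofReal (Real.exp (-‖p.2‖ ^ 2 / 2)) *
        ENNReal.ofReal (|inner ℝ w p.2| ^ (N - 1) * ‖p.2‖)) := by
    rintro ⟨s, y⟩
    have h0 : ∀ (i : Fin (N + 1 + 1)) (z : E (N + 1 + 1)), z i = inner ℝ (EuclideanSpace.single i (1 : ℝ)) z := by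
      intro i z
      rw [EuclideanSpace.inner_single_left]
      simp
    have h1 : (s • (EuclideanSpace.single 1 (1 : ℝ) : E (N + 1 + 1)) + ι y) 1 = s := by
      rw [h0, inner_add_right, hι1, inner_smul_right, EuclideanSpace.inner_single_left]
      simp
    have h2 : (s • (EuclideanSpace.single 1 (1 : ℝ) : E (N + 1 + 1)) + ι y) 0 = inner ℝ w y := by
      rw [h0, inner_add_right, inner_smul_right, EuclideanSpace.inner_single_left, ← hw, ι.inner_map_map]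
      simp
    have h3 : ‖s • (EuclideanSpace.single 1 (1 : ℝ) : E (N + 1 + 1)) + ι y‖ ^ 2 = s ^ 2 + ‖y‖ ^ 2 := by
      rw [norm_add_sq_real, inner_smul_left, hι1, norm_smul, ι.norm_map]
      simp
    dsimp only
    have e4 : ENNReal.ofReal (Real.exp (-(s ^ 2 + ‖y‖ ^ 2) / 2)) =
        ENNReal.ofReal (Real.exp (-s ^ 2 / 2)) * ENNReal.ofReal (Real.exp (-‖y‖ ^ 2 / 2)) := by
      rw [← ENNReal.ofReal_mul (Real.exp_nonneg _), ← Real.exp_add]
      congr 2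
      ring
    rw [h1, h2, h3, add_sub_cancel_left, Real.sqrt_sq (norm_nonneg _), e4, mul_assoc]
  have hL : (∫⁻ z : E (N + 2), ENNReal.ofReal (Real.exp (-‖z‖ ^ 2 / 2)) *
      ENNReal.ofReal (|z 0| ^ (N - 1) * Real.sqrt (‖z‖ ^ 2 - (z 1) ^ 2))) =
      ENNReal.ofReal (Real.sqrt (2 * Real.pi)) * ∫⁻ y : E (N + 1), (ENNReal.ofReal (Real.exp (-‖y‖ ^ 2 / 2)) *
        ENNReal.ofReal (|inner ℝ w y| ^ (N - 1) * ‖y‖)) := by
    rw [← cNval_G_cNvalx, ← lintegral_prod_mul (by fun_prop) (by fun_prop)]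
    rw [← hι3.lintegral_comp (by fun_prop)]
    exact lintegral_congr hz
  -- polar coordinates downstairs
  have hP2 := polar (k := N + 1) (by omega) (fun r : ℝ => ENNReal.ofReal (Real.exp (-r ^ 2 / 2))) hρ
    (fun y : E (N + 1) => ENNReal.ofReal (|inner ℝ w y| ^ (N - 1) * ‖y‖))
    (by fun_prop) N (by
      intro r hr y
      rw [inner_smul_right, abs_mul, abs_of_pos hr, norm_smul, Real.norm_eq_abs, abs_of_pos hr,
        ← ENNReal.ofReal_mul (by positivity)]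
      congr 1
      obtain ⟨M, rfl⟩ : ∃ M, N = M + 1 := ⟨N - 1, by omega⟩
      rw [Nat.add_sub_cancel, mul_pow]
      ring)
  have hK : ∫⁻ f : sphere (0 : E (N + 1)) 1, ENNReal.ofReal
      (|inner ℝ w (f : E (N + 1))| ^ (N - 1) * ‖(f : E (N + 1))‖) ∂(sg (N + 1)) =
      ENNReal.ofReal (2 / 2 ^ N) * sg (N + 1) univ := by
    rw [← K0 hN hN2 w hw1]
    refine lintegral_congr fun f => ?_
    have hf : ‖(f : E (N + 1))‖ = 1 := by simpa using f.2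
    rw [hf, mul_one]
  rw [hK, sgval (by omega)] at hP2
  have hNadd1 : N + (N + 2 - 1) = 2 * N + 1 := by omega
  have hNadd2 : N + (N + 1 - 1) = 2 * N := by omega
  rw [hNadd1] at hP1
  rw [hNadd2] at hP2
  have hI1 := cNval_Im_cNvalx (2 * N + 1)
  have hI2 := cNval_Im_cNvalx (2 * N)
  rw [hI1, hL] at hP1
  rw [hI2] at hP2
  rw [hP2] at hP1
  clear hI1 hI2 hP2 hK hL hz hι1 hι2 hι3 hw hcN
  have c1 : (((2 * N + 1 : ℕ) : ℝ) - 1) / 2 = (N : ℝ) := by push_cast; ring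
  have c2 : (((2 * N + 1 : ℕ) : ℝ) + 1) / 2 = (N : ℝ) + 1 := by push_cast; ring
  have c3 : (((2 * N : ℕ) : ℝ) - 1) / 2 = (N : ℝ) - 1 / 2 := by push_cast; ring
  have c4 : (((2 * N : ℕ) : ℝ) + 1) / 2 = (N : ℝ) + 1 / 2 := by push_cast; ring
  have c5 : (((N + 1 : ℕ) : ℝ)) / 2 = ((N : ℝ) + 1) / 2 := by push_cast; ring
  rw [c1, c2, c3, c4, c5] at hP1
  have hNpos : (0 : ℝ) < (N : ℝ) := by
    have : 0 < N := by omega
    exact_mod_cast this
  have g1 : 0 < Real.Gamma ((N : ℝ) + 1) := Real.Gamma_pos_of_pos (by linarith)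
  have g2 : 0 < Real.Gamma ((N : ℝ) + 1 / 2) := Real.Gamma_pos_of_pos (by linarith)
  have g3 : 0 < Real.Gamma (((N : ℝ) + 1) / 2) := Real.Gamma_pos_of_pos (by linarith)
  have g4 : 0 < Real.Gamma ((N : ℝ) / 2) := Real.Gamma_pos_of_pos (by linarith)
  have g5 : 0 < Real.Gamma (N : ℝ) := Real.Gamma_pos_of_pos hNpos
  have t1 : 0 < (2 : ℝ) ^ (N : ℝ) := by positivity
  have hdup := Real.Gamma_mul_Gamma_add_half ((N : ℝ) / 2)
  have c6 : (N : ℝ) / 2 + 1 / 2 = ((N : ℝ) + 1) / 2 := by ring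
  have c7 : 2 * ((N : ℝ) / 2) = (N : ℝ) := by ring
  rw [c6, c7] at hdup
  have c8 : (2 : ℝ) ^ (1 - (N : ℝ)) = 2 / (2 : ℝ) ^ (N : ℝ) := by
    rw [Real.rpow_sub (by norm_num), Real.rpow_one]
  rw [c8] at hdup
  have c9 : Real.sqrt (2 * Real.pi) * (2 : ℝ) ^ ((N : ℝ) - 1 / 2) = Real.sqrt Real.pi * (2 : ℝ) ^ (N : ℝ) := by
    rw [Real.sqrt_mul (by norm_num), Real.rpow_sub (by norm_num), Real.sqrt_eq_rpow 2]
    have : (0 : ℝ) < (2 : ℝ) ^ (1 / 2 : ℝ) := by positivity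
    field_simp
  have key : (2 : ℝ) ^ (N : ℝ) * Real.Gamma ((N : ℝ) + 1) *
      (2 * Real.pi ^ (((N : ℝ) + 1) / 2) * Real.Gamma ((N : ℝ) / 2) * Real.Gamma ((N : ℝ) + 1 / 2)
      / (Real.Gamma ((N : ℝ) + 1) * Real.Gamma (N : ℝ))) =
      Real.sqrt (2 * Real.pi) * ((2 : ℝ) ^ ((N : ℝ) - 1 / 2) * Real.Gamma ((N : ℝ) + 1 / 2) *
        (2 / 2 ^ N * (2 * Real.pi ^ (((N : ℝ) + 1) / 2) / Real.Gamma (((N : ℝ) + 1) / 2)))) := by
    have e1 : Real.sqrt (2 * Real.pi) * ((2 : ℝ) ^ ((N : ℝ) - 1 / 2) * Real.Gamma ((N : ℝ) + 1 / 2) *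
        (2 / 2 ^ N * (2 * Real.pi ^ (((N : ℝ) + 1) / 2) / Real.Gamma (((N : ℝ) + 1) / 2)))) =
        (Real.sqrt (2 * Real.pi) * (2 : ℝ) ^ ((N : ℝ) - 1 / 2)) * Real.Gamma ((N : ℝ) + 1 / 2) *
        (2 / 2 ^ N * (2 * Real.pi ^ (((N : ℝ) + 1) / 2) / Real.Gamma (((N : ℝ) + 1) / 2))) := by ring
    rw [e1, c9, ← Real.rpow_natCast]
    have e2 : Real.Gamma ((N : ℝ) / 2) = Real.Gamma (N : ℝ) * (2 / (2 : ℝ) ^ (N : ℝ)) * Real.sqrt Real.pi /
        Real.Gamma (((N : ℝ) + 1) / 2) := by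
      rw [eq_div_iff g3.ne', hdup]
    rw [e2]
    field_simp
    try ring
  have hA0 : ENNReal.ofReal ((2 : ℝ) ^ (N : ℝ) * Real.Gamma ((N : ℝ) + 1)) ≠ 0 := by
    rw [Ne, ENNReal.ofReal_eq_zero, not_le]
    positivity
  rw [← ENNReal.mul_right_inj hA0 ENNReal.ofReal_ne_top, ← hP1,
    ← ENNReal.ofReal_mul (by positivity), ← ENNReal.ofReal_mul (by positivity),
    ← ENNReal.ofReal_mul (by positivity), ← ENNReal.ofReal_mul (by positivity), key]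



end Pool.Agent.Helper82.OS
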