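import Mathlib
import Pool.Agent.Helper82.OS.Defs
set_option autoImplicit false
open Matrix MeasureTheory Set Metric Filter Topology
open scoped ENNReal ContDiff

namespace Pool.Agent.Helper82.OS





theorem constid (N : ℕ) (hN2 : 2 ≤ N) :
    (2 : ℝ) ^ N * (2 * Real.pi ^ (((N : ℝ) + 1) / 2) * Real.Gamma ((N : ℝ) / 2) * Real.Gamma ((N : ℝ) + 1 / 2)
      / (Real.Gamma ((N : ℝ) + 1) * Real.Gamma (N : ℝ))) *
      (Real.sqrt 2 * (2 * Real.pi) ^ ((N : ℝ) / 2) * Real.Gamma (((N : ℝ) + 1) / 2)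
          * 2 ^ (((N : ℝ) + 1) / 2) * Real.pi / Real.Gamma ((N : ℝ) + 1 / 2))
    = 2 * Real.pi * (2 * Real.pi ^ (((N : ℝ) + 1) / 2) / Real.Gamma (((N : ℝ) + 1) / 2)) *
        (2 * Real.pi ^ (((N : ℝ) + 2) / 2) / Real.Gamma (((N : ℝ) + 2) / 2)) := by
  have hN0 : (0 : ℝ) < (N : ℝ) := by
    have : (2 : ℝ) ≤ (N : ℝ) := by exact_mod_cast hN2
    linarith
  have hpi := Real.pi_pos
  have e1 : Real.pi ^ (((N : ℝ) + 1) / 2) = Real.pi ^ ((N : ℝ) / 2) * Real.sqrt Real.pi := by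
    rw [Real.sqrt_eq_rpow, ← Real.rpow_add hpi]
    congr 1
    ring
  have e2 : Real.pi ^ (((N : ℝ) + 2) / 2) = Real.pi ^ ((N : ℝ) / 2) * Real.pi := by
    rw [show ((N : ℝ) + 2) / 2 = (N : ℝ) / 2 + 1 by ring, Real.rpow_add hpi, Real.rpow_one]
  have e3 : (2 * Real.pi) ^ ((N : ℝ) / 2) = 2 ^ ((N : ℝ) / 2) * Real.pi ^ ((N : ℝ) / 2) :=
    Real.mul_rpow (by norm_num) hpi.le
  have e4 : (2 : ℝ) ^ (((N : ℝ) + 1) / 2) = 2 ^ ((N : ℝ) / 2) * Real.sqrt 2 := by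
    rw [Real.sqrt_eq_rpow, ← Real.rpow_add (by norm_num : (0 : ℝ) < 2)]
    congr 1
    ring
  have e5 : (2 : ℝ) ^ N = 2 ^ ((N : ℝ) / 2) * 2 ^ ((N : ℝ) / 2) := by
    rw [← Real.rpow_add (by norm_num : (0 : ℝ) < 2), ← Real.rpow_natCast]
    congr 1
    ring
  have d1 := Real.Gamma_mul_Gamma_add_half ((N : ℝ) / 2)
  have d2 := Real.Gamma_mul_Gamma_add_half (((N : ℝ) + 1) / 2)
  rw [show (N : ℝ) / 2 + 1 / 2 = ((N : ℝ) + 1) / 2 by ring, show 2 * ((N : ℝ) / 2) = N by ring,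
    Real.rpow_sub (by norm_num : (0 : ℝ) < 2), Real.rpow_one, Real.rpow_natCast, e5] at d1
  rw [show ((N : ℝ) + 1) / 2 + 1 / 2 = ((N : ℝ) + 2) / 2 by ring,
    show 2 * (((N : ℝ) + 1) / 2) = (N : ℝ) + 1 by ring,
    show (1 : ℝ) - ((N : ℝ) + 1) = -(N : ℝ) by ring,
    Real.rpow_neg (by norm_num : (0 : ℝ) ≤ 2), Real.rpow_natCast, e5] at d2
  rw [e1, e2, e3, e4, e5]
  have hb : Real.Gamma (((N : ℝ) + 1) / 2) ≠ 0 := (Real.Gamma_pos_of_pos (by positivity)).ne'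
  have hc : Real.Gamma (((N : ℝ) + 2) / 2) ≠ 0 := (Real.Gamma_pos_of_pos (by positivity)).ne'
  have hg : Real.Gamma (N : ℝ) ≠ 0 := (Real.Gamma_pos_of_pos hN0).ne'
  have hg1 : Real.Gamma ((N : ℝ) + 1) ≠ 0 := (Real.Gamma_pos_of_pos (by positivity)).ne'
  have hh : Real.Gamma ((N : ℝ) + 1 / 2) ≠ 0 := (Real.Gamma_pos_of_pos (by positivity)).ne'
  have hx : (2 : ℝ) ^ ((N : ℝ) / 2) ≠ 0 := (Real.rpow_pos_of_pos (by norm_num) _).ne'
  have hr2 : Real.sqrt 2 * Real.sqrt 2 = 2 := Real.mul_self_sqrt (by norm_num)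
  have hrp : Real.sqrt Real.pi * Real.sqrt Real.pi = Real.pi := Real.mul_self_sqrt hpi.le
  have hrp0 : Real.sqrt Real.pi ≠ 0 := (Real.sqrt_pos.2 hpi).ne'
  generalize (2 : ℝ) ^ ((N : ℝ) / 2) = x at *
  generalize Real.pi ^ ((N : ℝ) / 2) = y at *
  generalize Real.Gamma ((N : ℝ) / 2) = a at *
  generalize Real.Gamma (((N : ℝ) + 1) / 2) = b at *
  generalize Real.Gamma (((N : ℝ) + 2) / 2) = c at *
  generalize Real.Gamma ((N : ℝ) + 1 / 2) = h at *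
  generalize Real.Gamma ((N : ℝ) + 1) = g1 at *
  generalize Real.Gamma (N : ℝ) = g at *
  generalize Real.sqrt 2 = r at *
  generalize Real.sqrt Real.pi = q at *
  have hL : x * x * (2 * (y * q) * a * h / (g1 * g)) * (r * (x * y) * b * (x * r) * Real.pi / h) =
      8 * (x * x) * (y * y) * (Real.pi * Real.pi) / g1 := by
    have : x * x * (2 * (y * q) * a * h / (g1 * g)) * (r * (x * y) * b * (x * r) * Real.pi / h) =
        2 * (x * x) * (x * x) * (y * y) * q * (r * r) * Real.pi * (a * b) / (g1 * g) := by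
      field_simp
    rw [this, d1, hr2]
    have : 2 * (x * x) * (x * x) * (y * y) * q * 2 * Real.pi * (g * (2 / (x * x)) * q) / (g1 * g) =
        8 * (x * x) * (y * y) * (Real.pi * (q * q)) / g1 := by
      field_simp
      ring
    rw [this, hrp]
  have hR : 2 * Real.pi * (2 * (y * q) / b) * (2 * (y * Real.pi) / c) =
      8 * (x * x) * (y * y) * (Real.pi * Real.pi) / g1 := by
    have : 2 * Real.pi * (2 * (y * q) / b) * (2 * (y * Real.pi) / c) =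
        8 * (Real.pi * Real.pi) * (y * y) * q / (b * c) := by
      field_simp
      ring
    rw [this, d2]
    field_simp
  rw [hL, hR]



end Pool.Agent.Helper82.OS
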