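import Mathlib
import Pool.Agent.Helper82.OS.Defs
import Pool.Agent.Helper82.OS.Defs2
import Pool.Agent.Helper82.OS.Defs3
import Pool.Agent.Helper82.OS.polar
import Pool.Agent.Helper82.OS.trc
set_option autoImplicit false
open Matrix MeasureTheory Set Metric Filter Topology
open scoped ENNReal ContDiff

namespace Pool.Agent.Helper82.OS
namespace Fr
variable {N : ℕ} (F : Fr N)

end Fr

theorem aux_rad_core_of_gx (N : ℕ) (b : ℝ) (hb : 0 < b) :
    ∫⁻ r in Ioi (0 : ℝ), ENNReal.ofReal (Real.exp (-(b * r ^ 2)) * r) *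
        ENNReal.ofReal (r ^ (N + (N + 1 - 1))) =
      ENNReal.ofReal (b ^ (-((N : ℝ) + 1)) * (1 / 2) * Real.Gamma ((N : ℝ) + 1)) := by
  have hq : (-1 : ℝ) < 2 * N + 1 := by
    have : (0 : ℝ) ≤ N := Nat.cast_nonneg N
    linarith
  have hint := integrableOn_rpow_mul_exp_neg_mul_rpow hq (two_pos) hb
  have hval := integral_rpow_mul_exp_neg_mul_rpow (p := 2) (q := 2 * N + 1) two_pos hq hb
  have e1 : -(2 * (N : ℝ) + 1 + 1) / 2 = -((N : ℝ) + 1) := by ring
  have e2 : (2 * (N : ℝ) + 1 + 1) / 2 = (N : ℝ) + 1 := by ring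
  rw [e1, e2] at hval
  rw [← hval, ofReal_integral_eq_lintegral_ofReal hint]
  · apply setLIntegral_congr_fun measurableSet_Ioi
    intro r hr
    have hr0 : (0 : ℝ) < r := hr
    beta_reduce
    rw [← ENNReal.ofReal_mul (by positivity)]
    congr 1
    have e3 : r ^ (2 * (N : ℝ) + 1) = r ^ (2 * N + 1) := by
      rw [← Real.rpow_natCast r (2 * N + 1)]
      congr 1
      push_cast
      ring
    have e4 : r ^ (2 : ℝ) = r ^ 2 := by
      rw [← Real.rpow_natCast r 2]
      norm_num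
    have e5 : N + (N + 1 - 1) = 2 * N := by omega
    rw [e3, e4, e5, pow_succ r (2 * N)]
    have e6 : -(b * r ^ 2) = -b * r ^ 2 := by ring
    rw [e6]
    ring
  · refine (ae_restrict_iff' measurableSet_Ioi).2 (ae_of_all _ fun r hr => ?_)
    have hr0 : (0 : ℝ) < r := hr
    show 0 ≤ r ^ (2 * (N : ℝ) + 1) * Real.exp (-b * r ^ (2 : ℝ))
    positivity

/-- the constant -/
noncomputable def c0_core_of_gx (N : ℕ) : ℝ := 2 ^ (N + 1) * (1 / 2) * Real.Gamma ((N : ℝ) + 1)

theorem c0_pos_core_of_gx (N : ℕ) : 0 < c0_core_of_gx N := by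
  unfold c0_core_of_gx
  have : 0 < Real.Gamma ((N : ℝ) + 1) := Real.Gamma_pos_of_pos (by positivity)
  positivity

theorem aux_rad2_core_of_gx (N : ℕ) (τ : ℝ) :
    ∫⁻ r in Ioi (0 : ℝ), ENNReal.ofReal (Real.exp (-((1 + τ ^ 2) / 2 * r ^ 2)) * r) *
        ENNReal.ofReal (r ^ (N + (N + 1 - 1))) = ENNReal.ofReal (c0_core_of_gx N * K N τ) := by
  rw [aux_rad_core_of_gx N ((1 + τ ^ 2) / 2) (by positivity)]
  congr 1
  have h1 : ((1 + τ ^ 2) / 2) ^ (-((N : ℝ) + 1)) = 2 ^ (N + 1) * K N τ := by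
    have e : (N : ℝ) + 1 = ((N + 1 : ℕ) : ℝ) := by push_cast; ring
    rw [e, Real.rpow_neg (by positivity), Real.rpow_natCast, div_pow, inv_div]
    unfold K
    rw [div_eq_mul_inv]
  rw [h1]
  unfold c0_core_of_gx
  ring

theorem aux_scale_core_of_gx (f : ℝ → ℝ≥0∞) (hf : Measurable f) (c : ℝ) (hc : 0 < c) :
    ∫⁻ t : ℝ, f t = ∫⁻ t : ℝ, f (c * t) * ENNReal.ofReal c := by
  have h := Real.smul_map_volume_mul_left hc.ne'
  rw [abs_of_pos hc] at h
  conv_lhs => rw [← h]
  rw [lintegral_smul_measure, lintegral_map hf (measurable_const_mul c),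
    lintegral_mul_const' _ _ ENNReal.ofReal_ne_top, smul_eq_mul, mul_comm]

theorem aux_id_core_of_gx {N : ℕ} (H : ℝ → E (N + 1) → ℝ) (hHm : Measurable (Function.uncurry H))
    (hH0 : ∀ t w, 0 ≤ H t w)
    (hhom : ∀ r : ℝ, 0 < r → ∀ t w, H (r * t) (r • w) = r ^ N * H t w) :
    ∫⁻ w : E (N + 1), (∫⁻ t : ℝ, ENNReal.ofReal (H t w * gt t * gw w)) =
      ENNReal.ofReal (c0_core_of_gx N) * ∫⁻ w : sphere (0 : E (N + 1)) 1,
        (∫⁻ t : ℝ, ENNReal.ofReal (H t w * K N t)) ∂(sg (N + 1)) := by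
  have hHt : ∀ w, Measurable fun t => H t w := fun w =>
    hHm.comp (measurable_id.prodMk measurable_const)
  have hgt : Measurable gt := by
    unfold gt
    fun_prop
  -- step 1
  have h1 : ∫⁻ w : E (N + 1), (∫⁻ t : ℝ, ENNReal.ofReal (H t w * gt t * gw w)) =
      ∫⁻ w : E (N + 1), (∫⁻ τ : ℝ, ENNReal.ofReal (Real.exp (-((1 + τ ^ 2) / 2 * ‖w‖ ^ 2)) * ‖w‖) *
        ENNReal.ofReal (H (‖w‖ * τ) w)) := by
    have hae : ∀ᵐ w : E (N + 1), w ≠ 0 := by
      have := measure_singleton (μ := (volume : Measure (E (N + 1)))) (0 : E (N + 1))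
      exact compl_mem_ae_iff.2 this
    apply lintegral_congr_ae
    filter_upwards [hae] with w hw
    have hwp : 0 < ‖w‖ := norm_pos_iff.2 hw
    rw [aux_scale_core_of_gx (fun t => ENNReal.ofReal (H t w * gt t * gw w))
      (((hHt w).mul hgt).mul_const _).ennreal_ofReal ‖w‖ hwp]
    apply lintegral_congr
    intro τ
    have hgt0 : 0 ≤ gt (‖w‖ * τ) := by unfold gt; positivity
    have hgw0 : 0 ≤ gw w := by unfold gw; positivity
    rw [← ENNReal.ofReal_mul (mul_nonneg (mul_nonneg (hH0 _ _) hgt0) hgw0),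
      ← ENNReal.ofReal_mul (by positivity)]
    congr 1
    have e : gt (‖w‖ * τ) * gw w = Real.exp (-((1 + τ ^ 2) / 2 * ‖w‖ ^ 2)) := by
      unfold gt gw
      rw [← Real.exp_add]
      congr 1
      ring
    calc H (‖w‖ * τ) w * gt (‖w‖ * τ) * gw w * ‖w‖ = (gt (‖w‖ * τ) * gw w) * ‖w‖ * H (‖w‖ * τ) w := by
          ring
      _ = _ := by rw [e]
  rw [h1]
  -- step 2
  have hmeas : Measurable (Function.uncurry fun (w : E (N + 1)) (τ : ℝ) =>
      ENNReal.ofReal (Real.exp (-((1 + τ ^ 2) / 2 * ‖w‖ ^ 2)) * ‖w‖) *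
        ENNReal.ofReal (H (‖w‖ * τ) w)) := by
    have m1 : Measurable fun p : E (N + 1) × ℝ => ENNReal.ofReal
        (Real.exp (-((1 + p.2 ^ 2) / 2 * ‖p.1‖ ^ 2)) * ‖p.1‖) := by
      apply Measurable.ennreal_ofReal
      have : Continuous fun p : E (N + 1) × ℝ =>
        Real.exp (-((1 + p.2 ^ 2) / 2 * ‖p.1‖ ^ 2)) * ‖p.1‖ := by fun_prop
      exact this.measurable
    have m2 : Measurable fun p : E (N + 1) × ℝ => ENNReal.ofReal (H (‖p.1‖ * p.2) p.1) := by
      apply Measurable.ennreal_ofReal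
      exact hHm.comp (((measurable_fst.norm).mul measurable_snd).prodMk measurable_fst)
    exact m1.mul m2
  rw [lintegral_lintegral_swap hmeas.aemeasurable]
  -- step 3
  have h3 : ∀ τ : ℝ, ∫⁻ w : E (N + 1),
      ENNReal.ofReal (Real.exp (-((1 + τ ^ 2) / 2 * ‖w‖ ^ 2)) * ‖w‖) *
        ENNReal.ofReal (H (‖w‖ * τ) w) =
      ENNReal.ofReal (c0_core_of_gx N * K N τ) * ∫⁻ f : sphere (0 : E (N + 1)) 1,
        ENNReal.ofReal (H τ f) ∂(sg (N + 1)) := by
    intro τ
    have hp := polar (k := N + 1) (by omega)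
      (fun r => ENNReal.ofReal (Real.exp (-((1 + τ ^ 2) / 2 * r ^ 2)) * r)) (by
        apply Measurable.ennreal_ofReal
        have : Continuous fun r : ℝ => Real.exp (-((1 + τ ^ 2) / 2 * r ^ 2)) * r := by fun_prop
        exact this.measurable)
      (fun w : E (N + 1) => ENNReal.ofReal (H (‖w‖ * τ) w)) (by
        apply Measurable.ennreal_ofReal
        exact hHm.comp ((measurable_norm.mul_const τ).prodMk measurable_id)) N (by
        intro r hr z
        beta_reduce
        rw [norm_smul, Real.norm_eq_abs, abs_of_pos hr, mul_assoc, hhom r hr,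
          ENNReal.ofReal_mul (by positivity)])
    beta_reduce at hp
    rw [hp, aux_rad2_core_of_gx N τ]
    congr 1
    apply lintegral_congr
    intro f
    have hf : ‖(f : E (N + 1))‖ = 1 := by
      have := f.2
      rw [mem_sphere_zero_iff_norm] at this
      exact this
    rw [hf, one_mul]
  have h4 : (∫⁻ τ : ℝ, ∫⁻ w : E (N + 1),
      ENNReal.ofReal (Real.exp (-((1 + τ ^ 2) / 2 * ‖w‖ ^ 2)) * ‖w‖) *
        ENNReal.ofReal (H (‖w‖ * τ) w)) =
      ∫⁻ τ : ℝ, ENNReal.ofReal (c0_core_of_gx N) * ∫⁻ f : sphere (0 : E (N + 1)) 1,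
        ENNReal.ofReal (H τ f * K N τ) ∂(sg (N + 1)) := by
    apply lintegral_congr
    intro τ
    rw [h3 τ, ENNReal.ofReal_mul (c0_pos_core_of_gx N).le, mul_assoc]
    congr 1
    have hK : 0 ≤ K N τ := by unfold K; positivity
    rw [mul_comm, ← lintegral_mul_const' _ _ ENNReal.ofReal_ne_top]
    apply lintegral_congr
    intro f
    rw [ENNReal.ofReal_mul (hH0 _ _)]
  rw [h4, lintegral_const_mul' _ _ ENNReal.ofReal_ne_top]
  congr 1
  have hK : Measurable (K N) := by
    have : Continuous (K N) := by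
      unfold K
      apply Continuous.inv₀
      · fun_prop
      · intro t
        positivity
    exact this.measurable
  apply lintegral_lintegral_swap
  apply Measurable.aemeasurable
  have m1 : Measurable fun p : ℝ × sphere (0 : E (N + 1)) 1 => H p.1 (p.2 : E (N + 1)) :=
    hHm.comp (measurable_fst.prodMk (measurable_subtype_coe.comp measurable_snd))
  have m2 : Measurable fun p : ℝ × sphere (0 : E (N + 1)) 1 => K N p.1 := hK.comp measurable_fst
  exact (m1.mul m2).ennreal_ofReal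

theorem aux_FF_hom_core_of_gx {N : ℕ} (F : Fr N) (r : ℝ) (hr : 0 < r) (t : ℝ) (w : E (N + 1)) :
    F.FF (r * t) (r • w) = r ^ N * F.FF t w := by
  have h1 : ∀ j, F.Mv (r * t) (r • w) j = r • F.Mv t w j := by
    intro j
    unfold Fr.Mv
    rw [inner_smul_left, inner_smul_left]
    simp only [conj_trivial, smul_add, smul_sub, smul_smul]
    congr 1
    · congr 1
      ring
    · congr 1
      · congr 1
        ring
      · congr 1
        ring
  have h2 : ∀ j, F.lv (r • w) j = r * F.lv w j := by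
    intro j
    unfold Fr.lv
    rw [inner_smul_left]
    simp only [conj_trivial]
    ring
  have h3 : F.Gm (r * t) (r • w) = (r ^ 2) • F.Gm t w := by
    ext i j
    unfold Fr.Gm
    rw [Matrix.smul_apply, Matrix.of_apply, Matrix.of_apply, h1, h1, h2, h2, inner_smul_left,
      inner_smul_right]
    simp only [conj_trivial, smul_eq_mul]
    ring
  unfold Fr.FF
  rw [h3, Matrix.det_smul, Fintype.card_fin, Real.sqrt_mul (by positivity)]
  congr 1
  have : (r ^ 2) ^ N = (r ^ N) ^ 2 := by ring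
  rw [this, Real.sqrt_sq (by positivity)]

theorem aux_FF_cont_core_of_gx {N : ℕ} (F : Fr N) :
    Continuous fun p : ℝ × E (N + 1) => F.FF p.1 p.2 := by
  unfold Fr.FF
  apply Continuous.sqrt
  apply Continuous.matrix_det
  unfold Fr.Gm
  apply continuous_matrix
  intro i j
  simp only [Matrix.of_apply]
  unfold Fr.Mv Fr.lv
  fun_prop



theorem core_of_g {N : ℕ} (hN : 1 ≤ N) (F : Fr N) (h : GCoreF F) :
    ∫⁻ w : sphere (0 : E (N + 1)) 1, (∫⁻ t : ℝ, ENNReal.ofReal (F.FF t w * K N t)) ∂(sg (N + 1))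
      ≤ ∫⁻ w : sphere (0 : E (N + 1)) 1, A0 N (inner ℝ (w : E (N + 1)) F.e) ∂(sg (N + 1)) := by
  have hL := aux_id_core_of_gx (fun t w => F.FF t w) (aux_FF_cont_core_of_gx F).measurable
    (fun t w => Real.sqrt_nonneg _) (fun r hr t w => aux_FF_hom_core_of_gx F r hr t w)
  have hu2c : Continuous fun w : E (N + 1) => F.u2 w := by
    unfold Fr.u2
    fun_prop
  have hR := aux_id_core_of_gx (fun t w => |t| ^ (N - 1) * Real.sqrt (t ^ 2 + F.u2 w)) (by
      have : Continuous fun p : ℝ × E (N + 1) => |p.1| ^ (N - 1) * Real.sqrt (p.1 ^ 2 + F.u2 p.2) := by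
        have h2 : Continuous fun p : ℝ × E (N + 1) => F.u2 p.2 := hu2c.comp continuous_snd
        fun_prop
      exact this.measurable)
    (fun t w => by positivity) (by
      intro r hr t w
      beta_reduce
      have h1 : F.u2 (r • w) = r ^ 2 * F.u2 w := by
        unfold Fr.u2
        rw [Finset.mul_sum]
        apply Finset.sum_congr rfl
        intro j _
        rw [inner_smul_left]
        simp only [conj_trivial]
        ring
      have h2 : (r * t) ^ 2 + r ^ 2 * F.u2 w = r ^ 2 * (t ^ 2 + F.u2 w) := by ring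
      rw [h1, h2, Real.sqrt_mul (by positivity), Real.sqrt_sq hr.le, abs_mul, abs_of_pos hr, mul_pow]
      obtain ⟨m, rfl⟩ : ∃ m, N = m + 1 := ⟨N - 1, by omega⟩
      rw [Nat.add_sub_cancel, pow_succ]
      ring)
  unfold GCoreF at h
  beta_reduce at hL hR
  rw [hL] at h
  have hpsi : ∀ w : E (N + 1), Psi N (F.u2 w) * ENNReal.ofReal (gw w) =
      ∫⁻ t : ℝ, ENNReal.ofReal (|t| ^ (N - 1) * Real.sqrt (t ^ 2 + F.u2 w) * gt t * gw w) := by
    intro w
    unfold Psi
    rw [← lintegral_mul_const' _ _ ENNReal.ofReal_ne_top]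
    apply lintegral_congr
    intro t
    have hgt0 : 0 ≤ gt t := by unfold gt; positivity
    rw [← ENNReal.ofReal_mul (by positivity)]
    congr 1
    ring
  have h' : ∫⁻ w : E (N + 1), Psi N (F.u2 w) * ENNReal.ofReal (gw w) =
      ∫⁻ w : E (N + 1), ∫⁻ t : ℝ, ENNReal.ofReal (|t| ^ (N - 1) * Real.sqrt (t ^ 2 + F.u2 w) *
        gt t * gw w) := lintegral_congr hpsi
  rw [h', hR] at h
  have hc : ENNReal.ofReal (c0_core_of_gx N) ≠ 0 := by
    rw [Ne, ENNReal.ofReal_eq_zero, not_le]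
    exact c0_pos_core_of_gx N
  have h2 := (ENNReal.mul_le_mul_iff_right hc ENNReal.ofReal_ne_top).1 h
  refine h2.trans (le_of_eq ?_)
  apply lintegral_congr
  intro w
  have hw : ‖(w : E (N + 1))‖ = 1 := by
    have := w.2
    rw [mem_sphere_zero_iff_norm] at this
    exact this
  have hu : F.u2 (w : E (N + 1)) = 1 - inner ℝ (w : E (N + 1)) F.e ^ 2 := by
    rw [Fr.u2_pr]
    unfold Fr.pr
    rw [norm_sub_sq_real, inner_smul_right, norm_smul, hw, F.he, mul_one, Real.norm_eq_abs, sq_abs]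
    ring
  unfold A0
  rw [hu]



end Pool.Agent.Helper82.OS
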