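import Mathlib
import Pool.Agent.Helper82.OS.core_of_g
import Pool.Agent.Helper82.OS.Defs
import Pool.Agent.Helper82.OS.Defs2
import Pool.Agent.Helper82.OS.Defs3
import Pool.Agent.Helper82.OS.polar
import Pool.Agent.Helper82.OS.trc
set_option autoImplicit false
open Matrix MeasureTheory Set Metric Filter Topology
open scoped ENNReal ContDiff

namespace Pool.Agent.Helper82.OS

theorem core_of_g2 {N : ℕ} (hN : 1 ≤ N) (F : Fr N) (κ : ℝ≥0∞) (h :
      ∫⁻ w : E (N + 1), (∫⁻ t : ℝ, ENNReal.ofReal (F.FF t w * gt t * gw w))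
        ≤ κ * ∫⁻ w : E (N + 1), Psi N (F.u2 w) * ENNReal.ofReal (gw w)) :
    ∫⁻ w : sphere (0 : E (N + 1)) 1, (∫⁻ t : ℝ, ENNReal.ofReal (F.FF t w * K N t)) ∂(sg (N + 1))
      ≤ κ * ∫⁻ w : sphere (0 : E (N + 1)) 1, A0 N (inner ℝ (w : E (N + 1)) F.e) ∂(sg (N + 1)) := by
  have hL := aux_id_core_of_gx (fun t w => F.FF t w) (aux_FF_cont_core_of_gx F).measurable
    (fun t w => Real.sqrt_nonneg _) (fun r hr t w => aux_FF_hom_core_of_gx F r hr t w)
  have hu2c : Continuous fun w : E (N + 1) => F.u2 w := by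
    unfold Fr.u2
    fun_prop
  have hR := aux_id_core_of_gx (fun t w => |t| ^ (N - 1) * Real.sqrt (t ^ 2 + F.u2 w)) (by
      have : Continuous fun p : ℝ × E (N + 1) => |p.1| ^ (N - 1) * Real.sqrt (p.1 ^ 2 + F.u2 p.2) := by
        have h2 : Continuous fun p : ℝ × E (N + 1) => F.u2 p.2 := hu2c.comp continuous_snd
        fun_prop
      exact this.measurable)
    (fun t w => by positivity) (by
      intro r hr t w
      beta_reduce
      have h1 : F.u2 (r • w) = r ^ 2 * F.u2 w := by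
        unfold Fr.u2
        rw [Finset.mul_sum]
        apply Finset.sum_congr rfl
        intro j _
        rw [inner_smul_left]
        simp only [conj_trivial]
        ring
      have h2 : (r * t) ^ 2 + r ^ 2 * F.u2 w = r ^ 2 * (t ^ 2 + F.u2 w) := by ring
      rw [h1, h2, Real.sqrt_mul (by positivity), Real.sqrt_sq hr.le, abs_mul, abs_of_pos hr, mul_pow]
      obtain ⟨m, rfl⟩ : ∃ m, N = m + 1 := ⟨N - 1, by omega⟩
      rw [Nat.add_sub_cancel, pow_succ]
      ring)
  beta_reduce at hL hR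
  rw [hL] at h
  have hpsi : ∀ w : E (N + 1), Psi N (F.u2 w) * ENNReal.ofReal (gw w) =
      ∫⁻ t : ℝ, ENNReal.ofReal (|t| ^ (N - 1) * Real.sqrt (t ^ 2 + F.u2 w) * gt t * gw w) := by
    intro w
    unfold Psi
    rw [← lintegral_mul_const' _ _ ENNReal.ofReal_ne_top]
    apply lintegral_congr
    intro t
    have hgt0 : 0 ≤ gt t := by unfold gt; positivity
    rw [← ENNReal.ofReal_mul (by positivity)]
    congr 1
    ring
  have h' : ∫⁻ w : E (N + 1), Psi N (F.u2 w) * ENNReal.ofReal (gw w) =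
      ∫⁻ w : E (N + 1), ∫⁻ t : ℝ, ENNReal.ofReal (|t| ^ (N - 1) * Real.sqrt (t ^ 2 + F.u2 w) *
        gt t * gw w) := lintegral_congr hpsi
  rw [h', hR, mul_left_comm] at h
  have hc : ENNReal.ofReal (c0_core_of_gx N) ≠ 0 := by
    rw [Ne, ENNReal.ofReal_eq_zero, not_le]
    exact c0_pos_core_of_gx N
  have h2 := (ENNReal.mul_le_mul_iff_right hc ENNReal.ofReal_ne_top).1 h
  refine h2.trans (le_of_eq ?_)
  congr 1
  apply lintegral_congr
  intro w
  have hw : ‖(w : E (N + 1))‖ = 1 := by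
    have := w.2
    rw [mem_sphere_zero_iff_norm] at this
    exact this
  have hu : F.u2 (w : E (N + 1)) = 1 - inner ℝ (w : E (N + 1)) F.e ^ 2 := by
    rw [Fr.u2_pr]
    unfold Fr.pr
    rw [norm_sub_sq_real, inner_smul_right, norm_smul, hw, F.he, mul_one, Real.norm_eq_abs, sq_abs]
    ring
  unfold A0
  rw [hu]




end Pool.Agent.Helper82.OS
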