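import Mathlib
import Pool.Agent.Helper82.OS.Defs
import Pool.Agent.Helper82.OS.PPd
set_option autoImplicit false
open Matrix MeasureTheory Set Metric Filter Topology
open scoped ENNReal ContDiff

namespace Pool.Agent.Helper82.OS
theorem dpa_inn_densPx {D : ℕ} (a b : E D) : inner ℝ a b = a.ofLp ⬝ᵥ b.ofLp := by
  rw [EuclideanSpace.inner_eq_star_dotProduct, dotProduct_comm]
  simp

theorem dpa_vv_densPx {D : ℕ} (u v w z : Fin D → ℝ) :
    vecMulVec u v * vecMulVec w z = (v ⬝ᵥ w) • vecMulVec u z := by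
  rw [vecMulVec_mul_vecMulVec]
  ext i j
  simp only [vecMulVec_apply, Pi.smul_apply, Matrix.smul_apply, smul_eq_mul]
  ring

theorem dpa_B_densPx {D : ℕ} (x p u : Fin D → ℝ) (τ : ℝ) (hx : x ⬝ᵥ x = 1) :
    (1 - vecMulVec x x) * (-(vecMulVec p u) - τ • (1 : Matrix (Fin D) (Fin D) ℝ)) *
      (1 - vecMulVec x x)
     = -(vecMulVec (p - (x ⬝ᵥ p) • x) (u - (u ⬝ᵥ x) • x)) - τ • (1 - vecMulVec x x) := by
  have hPP : vecMulVec x x * vecMulVec x x = vecMulVec x x := by rw [dpa_vv_densPx, hx, one_smul]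
  have hQP : vecMulVec p u * vecMulVec x x = (u ⬝ᵥ x) • vecMulVec p x := dpa_vv_densPx _ _ _ _
  have hPQ : vecMulVec x x * vecMulVec p u = (x ⬝ᵥ p) • vecMulVec x u := dpa_vv_densPx _ _ _ _
  have hPQP : vecMulVec x x * (vecMulVec p u * vecMulVec x x) =
      ((u ⬝ᵥ x) * (x ⬝ᵥ p)) • vecMulVec x x := by
    rw [hQP, Matrix.mul_smul, dpa_vv_densPx, smul_smul]
  have h1 : (1 - vecMulVec x x) * (-(vecMulVec p u) - τ • (1 : Matrix (Fin D) (Fin D) ℝ)) *
      (1 - vecMulVec x x) = -(vecMulVec p u) + vecMulVec p u * vecMulVec x x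
        + vecMulVec x x * vecMulVec p u - vecMulVec x x * (vecMulVec p u * vecMulVec x x)
        - τ • (1 - vecMulVec x x - vecMulVec x x + vecMulVec x x * vecMulVec x x) := by
    simp only [Matrix.mul_sub, Matrix.sub_mul, Matrix.mul_smul, Matrix.smul_mul, Matrix.neg_mul,
      Matrix.mul_neg, Matrix.mul_one, Matrix.one_mul, Matrix.mul_assoc]
    module
  rw [h1, hPQP, hQP, hPQ, hPP]
  ext i j
  simp only [vecMulVec_apply, Matrix.smul_apply, smul_eq_mul, Matrix.add_apply, Matrix.sub_apply,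
    Matrix.neg_apply, Pi.sub_apply, Pi.smul_apply]
  ring

theorem dpa_BB_densPx {D : ℕ} (x a' w : Fin D → ℝ) (τ : ℝ) (hx : x ⬝ᵥ x = 1) (ha : x ⬝ᵥ a' = 0)
    (hw : x ⬝ᵥ w = 0) :
    (-(vecMulVec a' w) - τ • (1 - vecMulVec x x)) * (-(vecMulVec a' w) - τ • (1 - vecMulVec x x))ᵀ
     = τ ^ 2 • (1 - vecMulVec x x) + τ • vecMulVec w a' + τ • vecMulVec a' w
       + (w ⬝ᵥ w) • vecMulVec a' a' := by
  have hT : (-(vecMulVec a' w) - τ • (1 - vecMulVec x x))ᵀ =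
      -(vecMulVec w a') - τ • (1 - vecMulVec x x) := by
    rw [transpose_sub, transpose_neg, transpose_smul, transpose_sub, transpose_vecMulVec,
      transpose_vecMulVec, transpose_one]
  have hPP : vecMulVec x x * vecMulVec x x = vecMulVec x x := by rw [dpa_vv_densPx, hx, one_smul]
  have hAP : vecMulVec a' w * vecMulVec x x = 0 := by
    rw [dpa_vv_densPx, dotProduct_comm, hw, zero_smul]
  have hPA : vecMulVec x x * vecMulVec w a' = 0 := by
    rw [dpa_vv_densPx, hw, zero_smul]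
  have hAA : vecMulVec a' w * vecMulVec w a' = (w ⬝ᵥ w) • vecMulVec a' a' := dpa_vv_densPx _ _ _ _
  rw [hT]
  have h1 : (-(vecMulVec a' w) - τ • (1 - vecMulVec x x)) *
      (-(vecMulVec w a') - τ • (1 - vecMulVec x x)) =
      vecMulVec a' w * vecMulVec w a' + τ • (vecMulVec a' w - vecMulVec a' w * vecMulVec x x)
      + τ • (vecMulVec w a' - vecMulVec x x * vecMulVec w a')
      + τ • τ • (1 - vecMulVec x x - vecMulVec x x + vecMulVec x x * vecMulVec x x) := by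
    simp only [Matrix.mul_sub, Matrix.sub_mul, Matrix.mul_smul, Matrix.smul_mul, Matrix.neg_mul,
      Matrix.mul_neg, Matrix.mul_one, Matrix.one_mul]
    module
  rw [h1, hAP, hPA, hAA, hPP]
  ext i j
  simp only [vecMulVec_apply, Matrix.smul_apply, smul_eq_mul, Matrix.add_apply, Matrix.sub_apply,
    Matrix.zero_apply]
  ring

theorem dpa_det_densPx {D : ℕ} (U : Matrix (Fin D) (Fin 3) ℝ) (W : Matrix (Fin 3) (Fin D) ℝ) (l : ℝ)
    (hl : l ≠ 0) :
    (l • (1 : Matrix (Fin D) (Fin D) ℝ) + U * W).det * l ^ 3 =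
      l ^ D * (l • (1 : Matrix (Fin 3) (Fin 3) ℝ) + W * U).det := by
  have h1 : l • (1 : Matrix (Fin D) (Fin D) ℝ) + U * W = l • (1 + (l⁻¹ • U) * W) := by
    rw [smul_add, Matrix.smul_mul, smul_smul, mul_inv_cancel₀ hl, one_smul]
  have h2 : l • (1 : Matrix (Fin 3) (Fin 3) ℝ) + W * U = l • (1 + W * (l⁻¹ • U)) := by
    rw [smul_add, Matrix.mul_smul, smul_smul, mul_inv_cancel₀ hl, one_smul]
  rw [h1, h2, Matrix.det_smul, Matrix.det_smul, Matrix.det_one_add_mul_comm]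
  simp only [Fintype.card_fin]
  ring

theorem dpa_det2_densPx {D : ℕ} (x a' w : Fin D → ℝ) (τ α om : ℝ) (hx : x ⬝ᵥ x = 1) (ha : x ⬝ᵥ a' = 0)
    (hw : x ⬝ᵥ w = 0) (haw : a' ⬝ᵥ w = -τ) (haa : a' ⬝ᵥ a' = α) (hww : w ⬝ᵥ w = om) :
    (1 + (τ ^ 2 • (1 - vecMulVec x x) + τ • vecMulVec w a' + τ • vecMulVec a' w
       + (w ⬝ᵥ w) • vecMulVec a' a')).det * (1 + τ ^ 2) ^ 3 = (1 + τ ^ 2) ^ D * (1 + om * α) := by
  have hl : (1 + τ ^ 2 : ℝ) ≠ 0 := by positivity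
  have h := dpa_det_densPx (Matrix.of fun i => ![x i, a' i, w i])
    (Matrix.of ![fun i => -τ ^ 2 * x i, fun i => τ * w i + om * a' i, fun i => τ * a' i])
    (1 + τ ^ 2) hl
  have e1 : (1 + τ ^ 2) • (1 : Matrix (Fin D) (Fin D) ℝ) + (Matrix.of fun i => ![x i, a' i, w i]) *
    (Matrix.of ![fun i => -τ ^ 2 * x i, fun i => τ * w i + om * a' i, fun i => τ * a' i])
     = 1 + (τ ^ 2 • (1 - vecMulVec x x) + τ • vecMulVec w a' + τ • vecMulVec a' w
       + (w ⬝ᵥ w) • vecMulVec a' a') := by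
    ext i j
    rw [hww]
    simp only [vecMulVec_apply, Matrix.smul_apply, smul_eq_mul, Matrix.add_apply, Matrix.sub_apply,
      Matrix.mul_apply, Fin.sum_univ_three, Matrix.of_apply, Matrix.cons_val_zero,
      Matrix.cons_val_one, Matrix.cons_val]
    ring
  have wx : w ⬝ᵥ x = 0 := by rw [dotProduct_comm]; exact hw
  have ax : a' ⬝ᵥ x = 0 := by rw [dotProduct_comm]; exact ha
  have wa : w ⬝ᵥ a' = -τ := by rw [dotProduct_comm]; exact haw
  have e2 : (Matrix.of ![fun i => -τ ^ 2 * x i, fun i => τ * w i + om * a' i, fun i => τ * a' i]) *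
      (Matrix.of fun i => ![x i, a' i, w i]) =
      (!![-τ ^ 2, 0, 0; 0, -τ ^ 2 + om * α, 0; 0, τ * α, -τ ^ 2] : Matrix (Fin 3) (Fin 3) ℝ) := by
    have q1 : ∀ y : Fin D → ℝ, ∑ i, -τ ^ 2 * x i * y i = -τ ^ 2 * (x ⬝ᵥ y) := by
      intro y
      rw [dotProduct, Finset.mul_sum]
      exact Finset.sum_congr rfl fun i _ => by ring
    have q2 : ∀ y : Fin D → ℝ, ∑ i, (τ * w i + om * a' i) * y i =
        τ * (w ⬝ᵥ y) + om * (a' ⬝ᵥ y) := by
      intro y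
      rw [dotProduct, dotProduct, Finset.mul_sum, Finset.mul_sum, ← Finset.sum_add_distrib]
      exact Finset.sum_congr rfl fun i _ => by ring
    have q3 : ∀ y : Fin D → ℝ, ∑ i, (τ * a' i) * y i = τ * (a' ⬝ᵥ y) := by
      intro y
      rw [dotProduct, Finset.mul_sum]
      exact Finset.sum_congr rfl fun i _ => by ring
    ext i j
    rw [Matrix.mul_apply]
    fin_cases i <;> fin_cases j
    · show ∑ i, -τ ^ 2 * x i * x i = -τ ^ 2
      rw [q1, hx, mul_one]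
    · show ∑ i, -τ ^ 2 * x i * a' i = 0
      rw [q1, ha, mul_zero]
    · show ∑ i, -τ ^ 2 * x i * w i = 0
      rw [q1, hw, mul_zero]
    · show ∑ i, (τ * w i + om * a' i) * x i = 0
      rw [q2, wx, ax]; ring
    · show ∑ i, (τ * w i + om * a' i) * a' i = -τ ^ 2 + om * α
      rw [q2, wa, haa]; ring
    · show ∑ i, (τ * w i + om * a' i) * w i = 0
      rw [q2, hww, haw]; ring
    · show ∑ i, (τ * a' i) * x i = 0
      rw [q3, ax]; ring
    · show ∑ i, (τ * a' i) * a' i = τ * α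
      rw [q3, haa]
    · show ∑ i, (τ * a' i) * w i = -τ ^ 2
      rw [q3, haw]; ring
  rw [e1, e2] at h
  rw [h, Matrix.det_fin_three]
  simp

theorem dpa_mat_densPx {D : ℕ} (a v x : E D) (hne : 1 + inner ℝ a x ≠ 0) :
    mat (fderiv ℝ (PP a v) x) = -(vecMulVec (x.ofLp + a.ofLp)
      ((1 + inner ℝ a x)⁻¹ • v.ofLp - (inner ℝ v x / (1 + inner ℝ a x) ^ 2) • a.ofLp)) -
      (inner ℝ v x / (1 + inner ℝ a x)) • (1 : Matrix (Fin D) (Fin D) ℝ) := by
  have hne' : 1 + inner ℝ x a ≠ 0 := by rw [real_inner_comm]; exact hne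
  have h1 : HasFDerivAt (fun y : E D => (inner ℝ v y : ℝ)) (innerSL ℝ v) x :=
    (innerSL ℝ v).hasFDerivAt
  have h2 : HasFDerivAt (fun y : E D => (1 + inner ℝ y a : ℝ)) (innerSL ℝ a) x := by
    have h := ((innerSL ℝ a).hasFDerivAt (x := x)).const_add (1 : ℝ)
    have he : (fun y : E D => (1 + inner ℝ y a : ℝ)) = fun y => 1 + (innerSL ℝ a) y := by
      funext y
      rw [innerSL_apply_apply, real_inner_comm]
    rw [he]; exact h
  have h3 : HasFDerivAt (fun y : E D => (1 + inner ℝ y a : ℝ)⁻¹)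
      (-((1 + inner ℝ x a : ℝ) ^ 2)⁻¹ • innerSL ℝ a) x :=
    (hasDerivAt_inv hne').comp_hasFDerivAt x h2
  have h4 := h1.mul h3
  have h5 := h4.smul ((hasFDerivAt_id x).add_const a)
  have h6 := h5.const_sub v
  have h7 : fderiv ℝ (PP a v) x = _ := h6.fderiv
  ext i j
  rw [h7]
  unfold mat
  rw [Matrix.of_apply]
  simp only [vecMulVec_apply, Matrix.smul_apply, smul_eq_mul, Matrix.sub_apply,
    Matrix.neg_apply, Pi.sub_apply, Pi.smul_apply, Pi.add_apply]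
  simp [innerSL_apply_apply, real_inner_comm]
  have hs : ∀ (z : E D), (inner ℝ z (EuclideanSpace.single j (1:ℝ)) : ℝ) = z.ofLp j := by
    intro z
    rw [dpa_inn_densPx]
    simp
  rw [hs, hs, Matrix.one_apply]
  split_ifs <;> field_simp <;> ring

theorem densP {N : ℕ} (hN : 1 ≤ N) (a v x : E (N + 2)) (ha : ‖a‖ = 1) (hv : ‖v‖ = 1) (hav : inner ℝ a v = 0)
    (hx : ‖x‖ = 1) (hxa : 1 + inner ℝ a x ≠ 0) :
    dens (PP a v) x = fP N (inner ℝ a x) (inner ℝ v x) := by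
  obtain ⟨s, hs⟩ : ∃ s : ℝ, s = inner ℝ a x := ⟨_, rfl⟩
  obtain ⟨t, ht⟩ : ∃ t : ℝ, t = inner ℝ v x := ⟨_, rfl⟩
  have hsge : -1 ≤ s := by
    have := abs_real_inner_le_norm a x
    rw [ha, hx, ← hs, mul_one] at this
    exact (abs_le.1 this).1
  have hmat := dpa_mat_densPx a v x hxa
  rw [← hs, ← ht] at hmat ⊢
  rw [← hs] at hxa
  have hs1 : 0 < 1 + s := lt_of_le_of_ne (by linarith) (Ne.symm hxa)
  -- dot products
  have xx : x.ofLp ⬝ᵥ x.ofLp = 1 := by rw [← dpa_inn_densPx, real_inner_self_eq_norm_sq, hx]; norm_num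
  have aa : a.ofLp ⬝ᵥ a.ofLp = 1 := by rw [← dpa_inn_densPx, real_inner_self_eq_norm_sq, ha]; norm_num
  have vv : v.ofLp ⬝ᵥ v.ofLp = 1 := by rw [← dpa_inn_densPx, real_inner_self_eq_norm_sq, hv]; norm_num
  have av : a.ofLp ⬝ᵥ v.ofLp = 0 := by rw [← dpa_inn_densPx, hav]
  have va : v.ofLp ⬝ᵥ a.ofLp = 0 := by rw [dotProduct_comm, av]
  have ax : a.ofLp ⬝ᵥ x.ofLp = s := by rw [← dpa_inn_densPx, hs]
  have xa : x.ofLp ⬝ᵥ a.ofLp = s := by rw [dotProduct_comm, ax]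
  have vx : v.ofLp ⬝ᵥ x.ofLp = t := by rw [← dpa_inn_densPx, ht]
  have xv : x.ofLp ⬝ᵥ v.ofLp = t := by rw [dotProduct_comm, vx]
  generalize a.ofLp = a0 at *
  generalize v.ofLp = v0 at *
  have hB : Bm (PP a v) x = -(vecMulVec (a0 - s • x.ofLp)
      ((1 + s)⁻¹ • v0 - (t / (1 + s) ^ 2) • a0 - (t / (1 + s) - t * s / (1 + s) ^ 2) • x.ofLp)) -
      (t / (1 + s)) • (1 - vecMulVec x.ofLp x.ofLp) := by
    unfold Bm
    rw [hmat, dpa_B_densPx _ _ _ _ xx]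
    have e1 : x.ofLp + a0 - (x.ofLp ⬝ᵥ (x.ofLp + a0)) • x.ofLp = a0 - s • x.ofLp := by
      rw [dotProduct_add, xx, xa]; module
    have e2 : (((1 + s)⁻¹ • v0 - (t / (1 + s) ^ 2) • a0) ⬝ᵥ x.ofLp) =
        t / (1 + s) - t * s / (1 + s) ^ 2 := by
      rw [sub_dotProduct, smul_dotProduct, smul_dotProduct, vx, ax, smul_eq_mul, smul_eq_mul]
      ring
    rw [e1, e2]
  obtain ⟨w, hw⟩ : ∃ w, w = (1 + s)⁻¹ • v0 - (t / (1 + s) ^ 2) • a0 -
    (t / (1 + s) - t * s / (1 + s) ^ 2) • x.ofLp := ⟨_, rfl⟩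
  obtain ⟨a', ha'⟩ : ∃ a', a' = a0 - s • x.ofLp := ⟨_, rfl⟩
  rw [← hw, ← ha'] at hB
  have p1 : x.ofLp ⬝ᵥ a' = 0 := by
    rw [ha', dotProduct_sub, dotProduct_smul, xa, xx]; simp
  have p2 : x.ofLp ⬝ᵥ w = 0 := by
    rw [hw, dotProduct_sub, dotProduct_sub, dotProduct_smul, dotProduct_smul, dotProduct_smul,
      xa, xx, xv]
    simp only [smul_eq_mul]
    field_simp
    ring
  have p3 : a' ⬝ᵥ w = -(t / (1 + s)) := by
    have q1 : a' ⬝ᵥ w = a0 ⬝ᵥ w := by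
      rw [ha', sub_dotProduct, smul_dotProduct, p2]; simp
    rw [q1, hw, dotProduct_sub, dotProduct_sub, dotProduct_smul, dotProduct_smul, dotProduct_smul,
      av, aa, ax]
    simp only [smul_eq_mul]
    field_simp
    ring
  have p4 : a' ⬝ᵥ a' = 1 - s ^ 2 := by
    have q1 : a' ⬝ᵥ a' = a0 ⬝ᵥ a' := by
      nth_rewrite 1 [ha']
      rw [sub_dotProduct, smul_dotProduct, p1]; simp
    rw [q1, ha', dotProduct_sub, dotProduct_smul, aa, ax]
    simp only [smul_eq_mul]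
    ring
  have p5 : w ⬝ᵥ w = 1 / (1 + s) ^ 2 := by
    have q0 : w ⬝ᵥ x.ofLp = 0 := by rw [dotProduct_comm]; exact p2
    have q1 : w ⬝ᵥ w = w ⬝ᵥ ((1 + s)⁻¹ • v0 - (t / (1 + s) ^ 2) • a0) := by
      nth_rewrite 2 [hw]
      rw [dotProduct_sub, dotProduct_smul, q0]; simp
    rw [q1, dotProduct_comm, sub_dotProduct, smul_dotProduct, smul_dotProduct]
    have q2 : v0 ⬝ᵥ w = (1 + s)⁻¹ - (t / (1 + s) - t * s / (1 + s) ^ 2) * t := by
      rw [hw, dotProduct_sub, dotProduct_sub, dotProduct_smul, dotProduct_smul, dotProduct_smul,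
        vv, va, vx]
      simp
    have q3 : a0 ⬝ᵥ w = - (t / (1 + s) ^ 2) - (t / (1 + s) - t * s / (1 + s) ^ 2) * s := by
      rw [hw, dotProduct_sub, dotProduct_sub, dotProduct_smul, dotProduct_smul, dotProduct_smul,
        av, aa, ax]
      simp
    rw [q2, q3]
    simp only [smul_eq_mul]
    field_simp
    ring
  have hdet := dpa_det2_densPx x.ofLp a' w (t / (1 + s)) (1 - s ^ 2) (1 / (1 + s) ^ 2) xx p1 p2 p3 p4 p5
  unfold dens
  rw [hB, dpa_BB_densPx _ _ _ _ xx p1 p2]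
  have hl : 0 < (1 + (t / (1 + s)) ^ 2) := by positivity
  have hfac : (1 + 1 / (1 + s) ^ 2 * (1 - s ^ 2)) = 2 / (1 + s) := by
    field_simp
    ring
  rw [hfac] at hdet
  have hdet2 : (1 + ((t / (1 + s)) ^ 2 • (1 - vecMulVec x.ofLp x.ofLp) +
      (t / (1 + s)) • vecMulVec w a' + (t / (1 + s)) • vecMulVec a' w
       + (w ⬝ᵥ w) • vecMulVec a' a')).det = (1 + (t / (1 + s)) ^ 2) ^ (N - 1) * (2 / (1 + s)) := by
    have h3 : (1 + (t / (1 + s)) ^ 2) ^ (N + 2) = (1 + (t / (1 + s)) ^ 2) ^ (N - 1) *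
        (1 + (t / (1 + s)) ^ 2) ^ 3 := by
      rw [← pow_add]; congr 1; omega
    rw [h3] at hdet
    have h4 : ((1 + (t / (1 + s)) ^ 2) ^ 3) ≠ 0 := by positivity
    apply mul_right_cancel₀ h4
    rw [hdet]; ring
  rw [hdet2]
  unfold fP
  rw [Real.sqrt_mul (by positivity)]
  congr 1
  have h5 : 1 + (t / (1 + s)) ^ 2 = ((1 + s) ^ 2 + t ^ 2) / (1 + s) ^ 2 := by
    field_simp
  have h6 : Real.sqrt (1 + (t / (1 + s)) ^ 2) = Real.sqrt ((1 + s) ^ 2 + t ^ 2) / (1 + s) := by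
    rw [h5, Real.sqrt_div (by positivity), Real.sqrt_sq hs1.le]
  rw [← h6, Real.sqrt_eq_iff_mul_self_eq (by positivity) (by positivity), ← mul_pow,
    Real.mul_self_sqrt hl.le]



end Pool.Agent.Helper82.OS
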