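import Mathlib
import Pool.Agent.Helper82.OS.Defs
import Pool.Agent.Helper82.OS.Defs2
set_option autoImplicit false
open Matrix MeasureTheory Set Metric Filter Topology
open scoped ENNReal ContDiff

namespace Pool.Agent.Helper82.OS
namespace Fr
variable {N : ℕ} (F : Fr N)

end Fr

theorem ext_aux_frame_existsx {N : ℕ} (β : Fin N → E (N + 1)) (hβ : ∀ i j, i ≠ j → inner ℝ (β i) (β j) = 0)
    (u : E (N + 1)) (hu : ‖u‖ = 1) (huβ : ∀ j, inner ℝ (β j) u = 0) :
    ∃ g : Fin N → E (N + 1), Orthonormal ℝ g ∧ (∀ j, inner ℝ (g j) u = 0) ∧ ∀ j, β j = ‖β j‖ • g j := by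
  classical
  let f : Option (Fin N) → E (N + 1) := fun o => o.elim u (fun j => (‖β j‖)⁻¹ • β j)
  let s : Set (Option (Fin N)) := {o | ∀ j, o = some j → β j ≠ 0}
  have huβ' : ∀ j, inner ℝ u (β j) = 0 := fun j => by rw [real_inner_comm]; exact huβ j
  have hf : Orthonormal ℝ (s.domRestrict f) := by
    constructor
    · rintro ⟨o, ho⟩
      cases o with
      | none => simpa [f, Set.domRestrict] using hu
      | some j =>
        have h0 : β j ≠ 0 := ho j rfl
        have h1 : ‖β j‖ ≠ 0 := norm_ne_zero_iff.mpr h0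
        simp [f, Set.domRestrict, norm_smul, h1]
    · rintro ⟨o, ho⟩ ⟨o', ho'⟩ hne
      have hne' : o ≠ o' := fun h => hne (Subtype.ext h)
      cases o with
      | none =>
        cases o' with
        | none => exact absurd rfl hne'
        | some k =>
          simp [f, Set.domRestrict, inner_smul_right, huβ']
      | some j =>
        cases o' with
        | none => simp [f, Set.domRestrict, inner_smul_left, huβ]
        | some k =>
          have hjk : j ≠ k := fun h => hne' (by rw [h])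
          simp [f, Set.domRestrict, inner_smul_left, inner_smul_right, hβ j k hjk]
  obtain ⟨b, hb⟩ := hf.exists_orthonormalBasis_extension_of_card_eq (by simp [E])
  have hn : b none = u := hb none (by simp [s])
  refine ⟨fun j => b (some j), b.orthonormal.comp some (Option.some_injective _), ?_, ?_⟩
  · intro j
    rw [← hn]
    exact b.orthonormal.2 (by simp)
  · intro j
    by_cases h0 : β j = 0
    · simp [h0]
    · have h1 : ‖β j‖ ≠ 0 := norm_ne_zero_iff.mpr h0
      have h2 : b (some j) = (‖β j‖)⁻¹ • β j := hb (some j) (by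
        intro k hk
        have : j = k := by simpa using hk
        rw [← this]; exact h0)
      simp only [h2, smul_smul, mul_inv_cancel₀ h1, one_smul]

theorem unit_aux_frame_existsx {N : ℕ} (α : Fin N → E (N + 1)) :
    ∃ e : E (N + 1), ‖e‖ = 1 ∧ ∀ j, inner ℝ (α j) e = 0 := by
  classical
  let S : Submodule ℝ (E (N + 1)) := Submodule.span ℝ (Set.range α)
  have h1 : Module.finrank ℝ S ≤ N := by
    have := finrank_range_le_card (R := ℝ) α
    simpa [Set.finrank, S] using this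
  have h2 := Submodule.finrank_add_finrank_orthogonal S
  have h3 : Module.finrank ℝ (E (N + 1)) = N + 1 := by simp [E]
  have h4 : 0 < Module.finrank ℝ Sᗮ := by omega
  have h5 : ∃ z : Sᗮ, z ≠ 0 := by
    have := Module.finrank_pos_iff_exists_ne_zero.mp h4
    exact this
  obtain ⟨z, hz⟩ := h5
  have hz0 : (z : E (N + 1)) ≠ 0 := fun h => hz (Subtype.ext h)
  have hz1 : ‖(z : E (N + 1))‖ ≠ 0 := norm_ne_zero_iff.mpr hz0
  refine ⟨(‖(z : E (N + 1))‖)⁻¹ • (z : E (N + 1)), ?_, ?_⟩
  · simp [norm_smul, hz1]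
  · intro j
    have : inner ℝ (α j) (z : E (N + 1)) = 0 :=
      Submodule.inner_right_of_mem_orthogonal (K := S) (Submodule.subset_span ⟨j, rfl⟩) z.2
    simp [inner_smul_right, this]

theorem inner_lin_frame_existsx {N m : ℕ} (O : Matrix (Fin N) (Fin N) ℝ) (a b : Fin N → E m) (j l : Fin N) :
    inner ℝ (∑ i, O j i • a i) (∑ i, O l i • b i)
      = (O * Matrix.of (fun i k => (inner ℝ (a i) (b k) : ℝ)) * Oᵀ) j l := by
  simp only [sum_inner, inner_sum, inner_smul_left, inner_smul_right, Matrix.mul_apply, Matrix.of_apply,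
    Matrix.transpose_apply, RCLike.conj_to_real]
  refine Finset.sum_congr rfl fun x _ => ?_
  ring

theorem trace_lin_frame_existsx {N m : ℕ} (O : Matrix (Fin N) (Fin N) ℝ) (hO : Oᵀ * O = 1) (a b : Fin N → E m) :
    ∑ j, inner ℝ (∑ i, O j i • a i) (∑ i, O j i • b i) = ∑ i, (inner ℝ (a i) (b i) : ℝ) := by
  have h : ∑ j, inner ℝ (∑ i, O j i • a i) (∑ i, O j i • b i)
      = (O * Matrix.of (fun i k => (inner ℝ (a i) (b k) : ℝ)) * Oᵀ).trace := by
    rw [Matrix.trace]
    exact Finset.sum_congr rfl fun j _ => inner_lin_frame_existsx O a b j j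
  rw [h, Matrix.trace_mul_comm, ← Matrix.mul_assoc, hO, Matrix.one_mul, Matrix.trace]
  rfl



/-- abstract simultaneous normal form.  `W` = the space of 2-forms is modelled by pairs: `β = v' ∧ a + x' ∧ b` -/
theorem frame_exists {N : ℕ} (hN : 1 ≤ N) (v x : E (N + 2)) (hv : ‖v‖ = 1) (hx : ‖x‖ = 1) (hxv : inner ℝ v x = 0)
    (a b : Fin N → E (N + 2))
    (ha : ∀ i, inner ℝ (a i) v = 0) (hb : ∀ i, inner ℝ (b i) v = 0 ∧ inner ℝ (b i) x = 0)
    (hon : ∀ i j, inner ℝ (a i) (a j) + inner ℝ (b i) (b j) = if i = j then (1 : ℝ) else 0)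
    (hgam : ∑ i, inner ℝ (a i) (b i) = 0) (hdel : 2 * ∑ i, ‖b i‖ ^ 2 ≤ N)
    (ι : E (N + 1) →ₗᵢ[ℝ] E (N + 2)) (hι : ∀ y, inner ℝ v (ι y) = 0) (hs : ∀ z, inner ℝ v z = 0 → ∃ y, ι y = z) :
    ∃ (O : Matrix (Fin N) (Fin N) ℝ) (F : Fr N), O * Oᵀ = 1 ∧ ι F.x = x ∧
      (∀ j, ∑ i, O j i • a i = F.c j • ι (F.q j)) ∧ (∀ j, ∑ i, O j i • b i = F.s j • ι (F.g j)) := by
  classical
  let P : Matrix (Fin N) (Fin N) ℝ := Matrix.of fun i j => (inner ℝ (a i) (a j) : ℝ)
  let R : Matrix (Fin N) (Fin N) ℝ := Matrix.of fun i j => (inner ℝ (b i) (b j) : ℝ)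
  have hPR : P + R = 1 := by
    ext i j
    simp only [P, R, Matrix.add_apply, Matrix.of_apply, hon i j, Matrix.one_apply]
  have hP : P.IsHermitian := by
    ext i j
    simp [P, Matrix.conjTranspose_apply, real_inner_comm]
  obtain ⟨O, d, hO1, hO2, hOP⟩ : ∃ (O : Matrix (Fin N) (Fin N) ℝ) (d : Fin N → ℝ), O * Oᵀ = 1 ∧ Oᵀ * O = 1 ∧
      O * P * Oᵀ = Matrix.diagonal d := by
    have hU := hP.eigenvectorUnitary.2
    rw [Matrix.mem_unitaryGroup_iff] at hU
    have hU' := hP.eigenvectorUnitary.2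
    rw [Matrix.mem_unitaryGroup_iff'] at hU'
    have hst : star (hP.eigenvectorUnitary : Matrix (Fin N) (Fin N) ℝ) = (hP.eigenvectorUnitary : Matrix (Fin N) (Fin N) ℝ)ᵀ := by
      rw [Matrix.star_eq_conjTranspose, Matrix.conjTranspose_eq_transpose_of_trivial]
    rw [hst] at hU hU'
    refine ⟨(hP.eigenvectorUnitary : Matrix (Fin N) (Fin N) ℝ)ᵀ, hP.eigenvalues, ?_, ?_, ?_⟩
    · rw [Matrix.transpose_transpose]; exact hU'
    · rw [Matrix.transpose_transpose]; exact hU
    · rw [Matrix.transpose_transpose]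
      have hsp := hP.spectral_theorem
      rw [Unitary.conjStarAlgAut_apply, hst] at hsp
      generalize (hP.eigenvectorUnitary : Matrix (Fin N) (Fin N) ℝ) = U at hsp hU hU' ⊢
      have hdd : (RCLike.ofReal ∘ hP.eigenvalues : Fin N → ℝ) = hP.eigenvalues := rfl
      rw [hdd] at hsp
      generalize hP.eigenvalues = dd at hsp ⊢
      rw [hsp]
      calc Uᵀ * (U * Matrix.diagonal dd * Uᵀ) * U
          = (Uᵀ * U) * Matrix.diagonal dd * (Uᵀ * U) := by
            simp only [Matrix.mul_assoc]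
        _ = Matrix.diagonal dd := by
            rw [hU', Matrix.one_mul, Matrix.mul_one]
  have hOR : O * R * Oᵀ = 1 - Matrix.diagonal d := by
    have : R = 1 - P := by rw [← hPR]; abel
    rw [this, Matrix.mul_sub, Matrix.sub_mul, hOP, Matrix.mul_one, hO1]
  -- preimages
  have hav : ∀ j, inner ℝ v (∑ i, O j i • a i) = 0 := by
    intro j
    rw [inner_sum]
    refine Finset.sum_eq_zero fun i _ => ?_
    rw [inner_smul_right, real_inner_comm, ha i, mul_zero]
  have hbv : ∀ j, inner ℝ v (∑ i, O j i • b i) = 0 := by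
    intro j
    rw [inner_sum]
    refine Finset.sum_eq_zero fun i _ => ?_
    rw [inner_smul_right, real_inner_comm, (hb i).1, mul_zero]
  choose α hα using fun j => hs _ (hav j)
  choose β hβ using fun j => hs _ (hbv j)
  obtain ⟨x0, hx0⟩ := hs x hxv
  have haa : ∀ j l, inner ℝ (α j) (α l) = (Matrix.diagonal d) j l := by
    intro j l
    rw [← ι.inner_map_map, hα, hα, inner_lin_frame_existsx, hOP]
  have hbb : ∀ j l, inner ℝ (β j) (β l) = (1 - Matrix.diagonal d) j l := by
    intro j l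
    rw [← ι.inner_map_map, hβ, hβ, inner_lin_frame_existsx, hOR]
  have hbx : ∀ j, inner ℝ (β j) x0 = 0 := by
    intro j
    rw [← ι.inner_map_map, hβ, hx0, sum_inner]
    refine Finset.sum_eq_zero fun i _ => ?_
    rw [inner_smul_left, (hb i).2, mul_zero]
  have hx0n : ‖x0‖ = 1 := by rw [← ι.norm_map, hx0, hx]
  obtain ⟨e, he, heα⟩ := unit_aux_frame_existsx α
  obtain ⟨q, hq, hqe, hqα⟩ := ext_aux_frame_existsx α (fun i j hij => by rw [haa, Matrix.diagonal_apply_ne _ hij]) e he heα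
  obtain ⟨g, hg, hgx, hgβ⟩ := ext_aux_frame_existsx β (fun i j hij => by
    rw [hbb, Matrix.sub_apply, Matrix.one_apply_ne hij, Matrix.diagonal_apply_ne _ hij, sub_zero]) x0 hx0n hbx
  have hcs : ∀ j, ‖α j‖ ^ 2 + ‖β j‖ ^ 2 = 1 := by
    intro j
    rw [← real_inner_self_eq_norm_sq, ← real_inner_self_eq_norm_sq, haa, hbb, Matrix.sub_apply,
      Matrix.one_apply_eq]
    ring
  have hG : ∑ j, ‖α j‖ * ‖β j‖ * inner ℝ (q j) (g j) = 0 := by
    have h1 : ∀ j, ‖α j‖ * ‖β j‖ * inner ℝ (q j) (g j) = inner ℝ (∑ i, O j i • a i) (∑ i, O j i • b i) := by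
      intro j
      rw [← hα, ← hβ, ι.inner_map_map]
      conv_rhs => rw [hqα j, hgβ j]
      rw [inner_smul_left, inner_smul_right]
      simp only [RCLike.conj_to_real]
      ring
    rw [Finset.sum_congr rfl fun j _ => h1 j, trace_lin_frame_existsx O hO2, hgam]
  have hD : 2 * ∑ j, ‖β j‖ ^ 2 ≤ N := by
    have h1 : ∑ j, ‖β j‖ ^ 2 = ∑ i, ‖b i‖ ^ 2 := by
      have h2 : ∀ j, ‖β j‖ ^ 2 = inner ℝ (∑ i, O j i • b i) (∑ i, O j i • b i) := by
        intro j
        rw [← hβ, ι.inner_map_map, real_inner_self_eq_norm_sq]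
      rw [Finset.sum_congr rfl fun j _ => h2 j, trace_lin_frame_existsx O hO2]
      exact Finset.sum_congr rfl fun i _ => real_inner_self_eq_norm_sq _
    rw [h1]; exact hdel
  refine ⟨O, ⟨x0, e, q, g, fun j => ‖α j‖, fun j => ‖β j‖, hx0n, he, hq, hg, hqe, hgx,
    fun j => norm_nonneg _, fun j => norm_nonneg _, hcs, hG, hD⟩, hO1, hx0, ?_, ?_⟩
  · intro j
    simp only
    rw [← map_smul, ← hqα j, hα]
  · intro j
    simp only
    rw [← map_smul, ← hgβ j, hβ]



end Pool.Agent.Helper82.OS
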