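import Mathlib
import Pool.Agent.Helper82.OS.Defs
import Pool.Agent.Helper82.OS.Defs2
import Pool.Agent.Helper82.OS.Defs3
import Pool.Agent.Helper82.OS.D0
import Pool.Agent.Helper82.OS.be_le
import Pool.Agent.Helper82.OS.trc
set_option autoImplicit false
open Matrix MeasureTheory Set Metric Filter Topology
open scoped ENNReal ContDiff

namespace Pool.Agent.Helper82.OS
namespace Fr
variable {N : ℕ} (F : Fr N)

end Fr

theorem aux_rot_gauss_k2x {N : ℕ} (hN : 0 < N) (h : ℝ → ℝ) (hm : Measurable h) (hh : ∀ r, 0 ≤ h r)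
    (z : E N) (hz : ‖z‖ = 1) :
    (N : ℝ≥0∞) * ∫⁻ y : E N, ENNReal.ofReal (h ‖y‖ * (inner ℝ y z ^ 2 / ‖y‖ ^ 2)) ≤
      ∫⁻ y : E N, ENNReal.ofReal (h ‖y‖) := by
  have i0 : Fin N := ⟨0, hN⟩
  have hv : Orthonormal ℝ (({i0} : Set (Fin N)).domRestrict (fun _ : Fin N => z)) := by
    constructor
    · intro i
      simpa using hz
    · intro i j hij
      exfalso
      apply hij
      have h1 := i.2
      have h2 := j.2
      simp only [Set.mem_singleton_iff] at h1 h2
      exact Subtype.ext (h1.trans h2.symm)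
  obtain ⟨b, hb⟩ := Orthonormal.exists_orthonormalBasis_extension_of_card_eq
    (𝕜 := ℝ) (E := E N) (ι := Fin N) (by simp) hv
  have hb0 : b i0 = z := hb i0 (by simp)
  have key : ∀ i, ∫⁻ y : E N, ENNReal.ofReal (h ‖y‖ * (inner ℝ y (b i) ^ 2 / ‖y‖ ^ 2)) =
      ∫⁻ y : E N, ENNReal.ofReal (h ‖y‖ * (inner ℝ y z ^ 2 / ‖y‖ ^ 2)) := by
    intro i
    let L : E N ≃ₗᵢ[ℝ] E N := b.equiv b (Equiv.swap i0 i)
    have hL : L z = b i := by
      rw [← hb0]
      simp [L]
    have hmeas : Measurable (fun y : E N =>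
        ENNReal.ofReal (h ‖y‖ * (inner ℝ y (b i) ^ 2 / ‖y‖ ^ 2))) := by
      apply Measurable.ennreal_ofReal
      apply Measurable.mul
      · exact hm.comp measurable_norm
      · apply Measurable.div
        · exact (continuous_id.inner continuous_const).measurable.pow_const 2
        · exact measurable_norm.pow_const 2
    rw [← (L.measurePreserving).lintegral_comp hmeas]
    congr 1
    funext y
    rw [L.norm_map, ← hL, L.inner_map_map]
  calc (N : ℝ≥0∞) * ∫⁻ y : E N, ENNReal.ofReal (h ‖y‖ * (inner ℝ y z ^ 2 / ‖y‖ ^ 2))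
      = ∑ i : Fin N, ∫⁻ y : E N, ENNReal.ofReal (h ‖y‖ * (inner ℝ y (b i) ^ 2 / ‖y‖ ^ 2)) := by
        simp [key]
    _ = ∫⁻ y : E N, ∑ i : Fin N, ENNReal.ofReal (h ‖y‖ * (inner ℝ y (b i) ^ 2 / ‖y‖ ^ 2)) := by
        rw [lintegral_finsetSum]
        intro i _
        apply Measurable.ennreal_ofReal
        apply Measurable.mul
        · exact hm.comp measurable_norm
        · apply Measurable.div
          · exact (continuous_id.inner continuous_const).measurable.pow_const 2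
          · exact measurable_norm.pow_const 2
    _ ≤ ∫⁻ y : E N, ENNReal.ofReal (h ‖y‖) := by
        apply lintegral_mono
        intro y
        show ∑ i : Fin N, ENNReal.ofReal (h ‖y‖ * (inner ℝ y (b i) ^ 2 / ‖y‖ ^ 2)) ≤
          ENNReal.ofReal (h ‖y‖)
        rw [← ENNReal.ofReal_sum_of_nonneg]
        · apply ENNReal.ofReal_le_ofReal
          rw [← Finset.mul_sum, ← Finset.sum_div, b.sum_sq_inner_left]
          have := hh ‖y‖
          rcases eq_or_ne (‖y‖ ^ 2) 0 with h0 | h0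
          · rw [h0]; simpa using this
          · rw [div_self h0]; simp
        · intro i _
          have := hh ‖y‖
          positivity

theorem aux_rot_le_gauss_k2x {N : ℕ} (hN : 0 < N) (h : ℝ → ℝ) (hm : Measurable h) (hh : ∀ r, 0 ≤ h r)
    (z : E N) (hz : ‖z‖ ≤ 1) :
    (N : ℝ≥0∞) * ∫⁻ y : E N, ENNReal.ofReal (h ‖y‖ * (inner ℝ y z ^ 2 / ‖y‖ ^ 2)) ≤
      ∫⁻ y : E N, ENNReal.ofReal (h ‖y‖) := by
  rcases eq_or_ne z 0 with h0 | h0
  · simp [h0]
  · have hz0 : 0 < ‖z‖ := norm_pos_iff.mpr h0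
    have hu : ‖(‖z‖⁻¹ • z)‖ = 1 := by
      rw [norm_smul, norm_inv, norm_norm, inv_mul_cancel₀ hz0.ne']
    refine le_trans ?_ (aux_rot_gauss_k2x hN h hm hh (‖z‖⁻¹ • z) hu)
    refine mul_le_mul_of_nonneg_left (lintegral_mono fun y => ENNReal.ofReal_le_ofReal ?_) (zero_le)
    have h3 : inner ℝ y z ^ 2 ≤ inner ℝ y (‖z‖⁻¹ • z) ^ 2 := by
      rw [inner_smul_right, mul_pow]
      have h1 : 1 ≤ (‖z‖⁻¹) ^ 2 := by
        have : 1 ≤ ‖z‖⁻¹ := (one_le_inv₀ hz0).mpr hz
        nlinarith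
      have h2 : 0 ≤ inner ℝ y z ^ 2 := sq_nonneg _
      nlinarith
    exact mul_le_mul_of_nonneg_left (div_le_div_of_nonneg_right h3 (sq_nonneg _)) (hh _)

theorem aux_gauss_gauss_k2x (x : ℝ) (hx : 0 ≤ x) (hx' : x ≤ 1 / 4) :
    ∫⁻ s : ℝ, ENNReal.ofReal (Real.exp (x * s ^ 2) * Real.exp (-(s ^ 2 / 2))) ≤
      ENNReal.ofReal (Real.sqrt (2 * Real.pi) * (1 + 2 * x)) := by
  have hb : (0 : ℝ) < 1 / 2 - x := by linarith
  have he : (fun s : ℝ => ENNReal.ofReal (Real.exp (x * s ^ 2) * Real.exp (-(s ^ 2 / 2)))) =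
      fun s : ℝ => ENNReal.ofReal (Real.exp (-(1 / 2 - x) * s ^ 2)) := by
    funext s
    rw [← Real.exp_add]
    congr 2
    ring
  rw [he, ← ofReal_integral_eq_lintegral_ofReal (integrable_exp_neg_mul_sq hb)
    (Filter.Eventually.of_forall fun s => (Real.exp_pos _).le), integral_gaussian]
  apply ENNReal.ofReal_le_ofReal
  have hpi := Real.pi_pos
  rw [Real.sqrt_le_left (by positivity), mul_pow, Real.sq_sqrt (by positivity),
    div_le_iff₀ hb]
  have h1 : 1 ≤ 2 * (1 + 2 * x) ^ 2 * (1 / 2 - x) := by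
    nlinarith [mul_nonneg hx hx, mul_nonneg hx (mul_nonneg hx (sub_nonneg.mpr hx')),
      mul_nonneg hx (sub_nonneg.mpr hx')]
  nlinarith

theorem aux_gauss0_gauss_k2x :
    ∫⁻ s : ℝ, ENNReal.ofReal (Real.exp (-(s ^ 2 / 2))) =
      ENNReal.ofReal (Real.sqrt (2 * Real.pi)) := by
  have hb : (0 : ℝ) < 1 / 2 := by norm_num
  have he : (fun s : ℝ => ENNReal.ofReal (Real.exp (-(s ^ 2 / 2)))) =
      fun s : ℝ => ENNReal.ofReal (Real.exp (-(1 / 2) * s ^ 2)) := by
    funext s
    congr 2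
    ring
  rw [he, ← ofReal_integral_eq_lintegral_ofReal (integrable_exp_neg_mul_sq hb)
    (Filter.Eventually.of_forall fun s => (Real.exp_pos _).le), integral_gaussian]
  congr 2
  ring

theorem meas_inner_r_gauss_k2x {D : ℕ} (v : E D) : Measurable (fun w : E D => inner ℝ w v) :=
  (continuous_id.inner continuous_const).measurable

theorem meas_u2_gauss_k2x {N : ℕ} (F : Fr N) : Measurable F.u2 := by
  unfold Fr.u2
  apply Finset.measurable_sum
  intro j _
  exact (meas_inner_r_gauss_k2x _).pow_const 2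

theorem meas_k2_gauss_k2x {N : ℕ} (F : Fr N) : Measurable F.k2 := by
  unfold Fr.k2
  apply Measurable.div
  · apply Measurable.mul (meas_inner_r_gauss_k2x _)
    apply Finset.measurable_sum
    intro j _
    apply Measurable.mul
    · unfold Fr.lv
      exact (meas_inner_r_gauss_k2x _).const_mul _
    · unfold Fr.eps
      exact (((meas_inner_r_gauss_k2x _).mul_const _).sub ((meas_inner_r_gauss_k2x _).mul_const _)).const_mul _
  · exact meas_u2_gauss_k2x F

/-- the vector `m_j` -/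
noncomputable def mj_gauss_k2x {N : ℕ} (F : Fr N) (j : Fin N) : E (N + 1) :=
  (inner ℝ (F.g j) F.e : ℝ) • F.x - (inner ℝ F.x F.e : ℝ) • F.g j

theorem mj_perp_gauss_k2x {N : ℕ} (F : Fr N) (j : Fin N) : inner ℝ F.e (mj_gauss_k2x F j) = 0 := by
  unfold mj_gauss_k2x
  rw [inner_sub_right, inner_smul_right, inner_smul_right, real_inner_comm F.e F.x,
    real_inner_comm F.e (F.g j)]
  ring

theorem mj_norm_gauss_k2x {N : ℕ} (F : Fr N) (j : Fin N) : ‖mj_gauss_k2x F j‖ ≤ 1 := by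
  have h1 : ‖mj_gauss_k2x F j‖ ^ 2 = inner ℝ (F.g j) F.e ^ 2 + inner ℝ F.x F.e ^ 2 := by
    unfold mj_gauss_k2x
    rw [@norm_sub_sq ℝ]
    simp only [norm_smul, inner_smul_left, inner_smul_right, mul_pow, F.hx, F.hg.1 j,
      real_inner_comm (F.g j) F.x, F.hgx j]
    simp
  have h2 : ‖F.e - ((inner ℝ (F.g j) F.e : ℝ) • F.g j + (inner ℝ F.x F.e : ℝ) • F.x)‖ ^ 2 =
      1 - (inner ℝ (F.g j) F.e ^ 2 + inner ℝ F.x F.e ^ 2) := by
    have hgg : inner ℝ (F.g j) (F.g j) = (1 : ℝ) := by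
      rw [real_inner_self_eq_norm_sq, F.hg.1 j]; norm_num
    have hxx : inner ℝ F.x F.x = (1 : ℝ) := by
      rw [real_inner_self_eq_norm_sq, F.hx]; norm_num
    have hee : inner ℝ F.e F.e = (1 : ℝ) := by
      rw [real_inner_self_eq_norm_sq, F.he]; norm_num
    have hxg : inner ℝ F.x (F.g j) = (0 : ℝ) := by
      rw [real_inner_comm]; exact F.hgx j
    rw [← real_inner_self_eq_norm_sq]
    simp only [inner_sub_left, inner_sub_right, inner_add_left, inner_add_right,
      inner_smul_left, inner_smul_right, hgg, hxx, hee, hxg, F.hgx j]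
    rw [real_inner_comm (F.g j) F.e, real_inner_comm F.x F.e]
    simp
    ring
  have h3 : 0 ≤ ‖F.e - ((inner ℝ (F.g j) F.e : ℝ) • F.g j + (inner ℝ F.x F.e : ℝ) • F.x)‖ ^ 2 :=
    sq_nonneg _
  have h4 : ‖mj_gauss_k2x F j‖ ^ 2 ≤ 1 := by linarith
  exact (sq_le_one_iff₀ (norm_nonneg _)).mp h4

theorem E2_eq_gauss_k2x {N : ℕ} (F : Fr N) (p : E (N + 1)) :
    F.E2 p = ∑ j, F.s j ^ 2 * inner ℝ p (mj_gauss_k2x F j) ^ 2 := by
  unfold Fr.E2 mj_gauss_k2x
  apply Finset.sum_congr rfl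
  intro j _
  rw [inner_sub_right, inner_smul_right, inner_smul_right]
  ring

theorem gauss_k2 {N : ℕ} (hN : 2 ≤ N) (F : Fr N) (c : ℝ) (hc0 : 0 ≤ c) (hc : c ≤ 1 / 4) (t : ℝ) :
    ∫⁻ w : E (N + 1), ENNReal.ofReal (Real.sqrt (t ^ 2 + F.u2 w) * Real.exp (c * F.k2 w ^ 2) * gw w)
      ≤ ENNReal.ofReal (1 + 2 * c * F.del / N) *
        ∫⁻ w : E (N + 1), ENNReal.ofReal (Real.sqrt (t ^ 2 + F.u2 w) * gw w) := by
  have hN0 : 0 < N := by omega
  have hNr : (0 : ℝ) < N := by exact_mod_cast hN0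
  obtain ⟨ι, hι1, hι2, hι3⟩ := D0 F.e F.he
  -- basic facts
  have hin : ∀ (s : ℝ) (y : E N), inner ℝ (s • F.e + ι y) F.e = s := by
    intro s y
    rw [inner_add_left, inner_smul_left, real_inner_self_eq_norm_sq, F.he,
      real_inner_comm (F.e) (ι y), hι1]
    simp
  have hpr : ∀ (s : ℝ) (y : E N), F.pr (s • F.e + ι y) = ι y := by
    intro s y
    unfold Fr.pr
    rw [hin]
    simp
  have hu2 : ∀ (s : ℝ) (y : E N), F.u2 (s • F.e + ι y) = ‖y‖ ^ 2 := by
    intro s y
    rw [Fr.u2_pr, hpr, ι.norm_map]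
  have hns : ∀ (s : ℝ) (y : E N), ‖s • F.e + ι y‖ ^ 2 = s ^ 2 + ‖y‖ ^ 2 := by
    intro s y
    rw [@norm_add_sq ℝ, inner_smul_left, hι1, norm_smul, F.he, ι.norm_map]
    simp
  have hgw : ∀ (s : ℝ) (y : E N), gw (s • F.e + ι y) =
      Real.exp (-(s ^ 2 / 2)) * Real.exp (-(‖y‖ ^ 2 / 2)) := by
    intro s y
    unfold gw
    rw [hns, ← Real.exp_add]
    congr 1
    ring
  set ρ : E N → ℝ := fun y => F.E2 (ι y) / ‖y‖ ^ 2 with hρ
  have hE2n : ∀ p, 0 ≤ F.E2 p := by
    intro p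
    unfold Fr.E2
    positivity
  have hρ0 : ∀ y, 0 ≤ ρ y := by
    intro y
    have := hE2n (ι y)
    simp only [hρ]
    positivity
  have hk2 : ∀ (s : ℝ) (y : E N), F.k2 (s • F.e + ι y) ^ 2 ≤ s ^ 2 * ρ y := by
    intro s y
    rcases eq_or_ne (F.u2 (s • F.e + ι y)) 0 with h0 | h0
    · unfold Fr.k2
      rw [h0]
      have := hρ0 y
      rw [div_zero, zero_pow two_ne_zero]
      positivity
    · have h1 := (Fr.k2_le F _ h0).1
      rw [hin, hpr, hu2] at h1
      exact h1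
  have hρ1 : ∀ y, ρ y ≤ 1 := by
    intro y
    rcases eq_or_ne y 0 with h0 | h0
    · simp [hρ, h0]
    · have hy : 0 < ‖y‖ := norm_pos_iff.mpr h0
      have h2 : F.u2 ((0 : ℝ) • F.e + ι y) ≠ 0 := by
        rw [hu2]
        positivity
      have h1 := (Fr.k2_le F _ h2).2
      rw [hpr, hu2] at h1
      simp only [hρ]
      rw [div_le_one (by positivity)]
      exact h1
  -- measurability
  have hmI : Measurable (fun y : E N => ι y) := ι.continuous.measurable
  have hmρ : Measurable ρ := by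
    simp only [hρ]
    apply Measurable.div
    · have : (fun y => F.E2 (ι y)) = fun y => ∑ j, F.s j ^ 2 * inner ℝ (ι y) (mj_gauss_k2x F j) ^ 2 := by
        funext y
        exact E2_eq_gauss_k2x F _
      rw [this]
      apply Finset.measurable_sum
      intro j _
      exact (((meas_inner_r_gauss_k2x (mj_gauss_k2x F j)).comp hmI).pow_const 2).const_mul _
    · exact measurable_norm.pow_const 2
  set h : ℝ → ℝ := fun r => Real.sqrt (t ^ 2 + r ^ 2) * Real.exp (-(r ^ 2 / 2)) with hh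
  have hhm : Measurable h := by
    have : Continuous h := by
      simp only [hh]
      fun_prop
    exact this.measurable
  have hh0 : ∀ r, 0 ≤ h r := by
    intro r
    simp only [hh]
    positivity
  -- the final H
  set H : ℝ≥0∞ := ∫⁻ y : E N, ENNReal.ofReal (h ‖y‖) with hH
  -- bound of the rho integral
  have hrho : ∫⁻ y : E N, ENNReal.ofReal (h ‖y‖ * ρ y) ≤ ENNReal.ofReal (F.del / N) * H := by
    have hz : ∀ j, ∃ z : E N, ι z = mj_gauss_k2x F j := fun j => hι2 _ (mj_perp_gauss_k2x F j)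
    choose z hz using hz
    have hzn : ∀ j, ‖z j‖ ≤ 1 := by
      intro j
      rw [← ι.norm_map, hz]
      exact mj_norm_gauss_k2x F j
    have he : ∀ y, ENNReal.ofReal (h ‖y‖ * ρ y) =
        ∑ j, ENNReal.ofReal (F.s j ^ 2) * ENNReal.ofReal (h ‖y‖ * (inner ℝ y (z j) ^ 2 / ‖y‖ ^ 2)) := by
      intro y
      have : h ‖y‖ * ρ y = ∑ j, F.s j ^ 2 * (h ‖y‖ * (inner ℝ y (z j) ^ 2 / ‖y‖ ^ 2)) := by
        simp only [hρ]
        rw [E2_eq_gauss_k2x, Finset.sum_div, Finset.mul_sum]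
        apply Finset.sum_congr rfl
        intro j _
        rw [← hz j, ι.inner_map_map]
        ring
      rw [this, ENNReal.ofReal_sum_of_nonneg]
      · apply Finset.sum_congr rfl
        intro j _
        rw [ENNReal.ofReal_mul (sq_nonneg _)]
      · intro j _
        have := hh0 ‖y‖
        positivity
    simp_rw [he]
    rw [lintegral_finsetSum]
    · have h1 : ∀ j, ∫⁻ y : E N, ENNReal.ofReal (F.s j ^ 2) *
          ENNReal.ofReal (h ‖y‖ * (inner ℝ y (z j) ^ 2 / ‖y‖ ^ 2)) ≤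
          ENNReal.ofReal (F.s j ^ 2 / N) * H := by
        intro j
        rw [lintegral_const_mul' _ _ ENNReal.ofReal_ne_top]
        have h2 := aux_rot_le_gauss_k2x hN0 h hhm hh0 (z j) (hzn j)
        rw [div_eq_mul_inv, ENNReal.ofReal_mul (sq_nonneg _), mul_assoc]
        gcongr
        rw [ENNReal.ofReal_inv_of_pos hNr, ENNReal.ofReal_natCast]
        rw [mul_comm, ← div_eq_mul_inv, ENNReal.le_div_iff_mul_le (Or.inl (by
          exact_mod_cast hN0.ne')) (Or.inl (ENNReal.natCast_ne_top N)), mul_comm]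
        exact h2
      refine le_trans (Finset.sum_le_sum fun j _ => h1 j) ?_
      rw [← Finset.sum_mul, ← ENNReal.ofReal_sum_of_nonneg]
      · unfold Fr.del
        rw [Finset.sum_div]
      · intro j _
        positivity
    · intro j _
      apply Measurable.const_mul
      apply Measurable.ennreal_ofReal
      apply Measurable.mul
      · exact hhm.comp measurable_norm
      · exact ((meas_inner_r_gauss_k2x _).pow_const 2).div (measurable_norm.pow_const 2)
  have hdel : 0 ≤ F.del := by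
    unfold Fr.del
    positivity
  have hm1 : Measurable (fun w : E (N + 1) =>
      ENNReal.ofReal (Real.sqrt (t ^ 2 + F.u2 w) * Real.exp (c * F.k2 w ^ 2) * gw w)) := by
    apply Measurable.ennreal_ofReal
    apply Measurable.mul
    · apply Measurable.mul
      · exact (measurable_const.add (meas_u2_gauss_k2x F)).sqrt
      · exact (((meas_k2_gauss_k2x F).pow_const 2).const_mul c).exp
    · unfold gw
      exact ((measurable_norm.pow_const 2).div_const 2).neg.exp
  have hm2 : Measurable (fun w : E (N + 1) =>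
      ENNReal.ofReal (Real.sqrt (t ^ 2 + F.u2 w) * gw w)) := by
    apply Measurable.ennreal_ofReal
    apply Measurable.mul
    · exact (measurable_const.add (meas_u2_gauss_k2x F)).sqrt
    · unfold gw
      exact ((measurable_norm.pow_const 2).div_const 2).neg.exp
  -- RHS
  have hR : ∫⁻ w : E (N + 1), ENNReal.ofReal (Real.sqrt (t ^ 2 + F.u2 w) * gw w) =
      ENNReal.ofReal (Real.sqrt (2 * Real.pi)) * H := by
    have hm2' : Measurable (fun p : ℝ × E N =>
        ENNReal.ofReal (Real.sqrt (t ^ 2 + F.u2 (p.1 • F.e + ι p.2)) * gw (p.1 • F.e + ι p.2))) :=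
      hm2.comp hι3.measurable
    rw [← hι3.lintegral_comp hm2, lintegral_prod_symm _ hm2'.aemeasurable]
    have h1 : ∀ y : E N, ∫⁻ s : ℝ, ENNReal.ofReal (Real.sqrt (t ^ 2 + F.u2 (s • F.e + ι y)) *
        gw (s • F.e + ι y)) = ENNReal.ofReal (Real.sqrt (2 * Real.pi)) * ENNReal.ofReal (h ‖y‖) := by
      intro y
      rw [← aux_gauss0_gauss_k2x, ← lintegral_mul_const' _ _ ENNReal.ofReal_ne_top]
      congr 1
      funext s
      rw [← ENNReal.ofReal_mul (Real.exp_pos _).le, hu2, hgw]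
      congr 1
      simp only [hh]
      ring
    simp_rw [h1]
    rw [lintegral_const_mul' _ _ ENNReal.ofReal_ne_top]
  rw [hR]
  have hm1' : Measurable (fun p : ℝ × E N =>
      ENNReal.ofReal (Real.sqrt (t ^ 2 + F.u2 (p.1 • F.e + ι p.2)) *
        Real.exp (c * F.k2 (p.1 • F.e + ι p.2) ^ 2) * gw (p.1 • F.e + ι p.2))) :=
    hm1.comp hι3.measurable
  rw [← hι3.lintegral_comp hm1, lintegral_prod_symm _ hm1'.aemeasurable]
  have hL : ∀ y : E N, ∫⁻ s : ℝ, ENNReal.ofReal (Real.sqrt (t ^ 2 + F.u2 (s • F.e + ι y)) *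
      Real.exp (c * F.k2 (s • F.e + ι y) ^ 2) * gw (s • F.e + ι y)) ≤
      ENNReal.ofReal (Real.sqrt (2 * Real.pi)) *
        (ENNReal.ofReal (h ‖y‖) + ENNReal.ofReal (2 * c) * ENNReal.ofReal (h ‖y‖ * ρ y)) := by
    intro y
    have hx0 : 0 ≤ c * ρ y := mul_nonneg hc0 (hρ0 y)
    have hx1 : c * ρ y ≤ 1 / 4 := by
      have := hρ1 y
      have := hρ0 y
      nlinarith
    have h1 : ∀ s : ℝ, ENNReal.ofReal (Real.sqrt (t ^ 2 + F.u2 (s • F.e + ι y)) *
        Real.exp (c * F.k2 (s • F.e + ι y) ^ 2) * gw (s • F.e + ι y)) ≤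
        ENNReal.ofReal (Real.exp (c * ρ y * s ^ 2) * Real.exp (-(s ^ 2 / 2))) *
          ENNReal.ofReal (h ‖y‖) := by
      intro s
      rw [← ENNReal.ofReal_mul (by positivity)]
      apply ENNReal.ofReal_le_ofReal
      rw [hu2, hgw]
      have h2 : Real.exp (c * F.k2 (s • F.e + ι y) ^ 2) ≤ Real.exp (c * ρ y * s ^ 2) := by
        apply Real.exp_le_exp.mpr
        have := mul_le_mul_of_nonneg_left (hk2 s y) hc0
        nlinarith
      simp only [hh]
      calc Real.sqrt (t ^ 2 + ‖y‖ ^ 2) * Real.exp (c * F.k2 (s • F.e + ι y) ^ 2) *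
            (Real.exp (-(s ^ 2 / 2)) * Real.exp (-(‖y‖ ^ 2 / 2)))
          ≤ Real.sqrt (t ^ 2 + ‖y‖ ^ 2) * Real.exp (c * ρ y * s ^ 2) *
            (Real.exp (-(s ^ 2 / 2)) * Real.exp (-(‖y‖ ^ 2 / 2))) := by
            gcongr
        _ = _ := by ring
    refine le_trans (lintegral_mono h1) ?_
    rw [lintegral_mul_const' _ _ ENNReal.ofReal_ne_top]
    refine le_trans (mul_le_mul_left (aux_gauss_gauss_k2x (c * ρ y) hx0 hx1) _) ?_
    have hhy := hh0 ‖y‖
    have hρy := hρ0 y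
    rw [← ENNReal.ofReal_mul (by positivity), ← ENNReal.ofReal_mul (by positivity),
      ← ENNReal.ofReal_add (by positivity) (by positivity),
      ← ENNReal.ofReal_mul (by positivity)]
    apply ENNReal.ofReal_le_ofReal
    apply le_of_eq
    ring
  refine le_trans (lintegral_mono hL) ?_
  have hmh : Measurable (fun y : E N => ENNReal.ofReal (h ‖y‖)) :=
    (hhm.comp measurable_norm).ennreal_ofReal
  rw [lintegral_const_mul' _ _ ENNReal.ofReal_ne_top,
    lintegral_add_left hmh,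
    lintegral_const_mul' _ _ ENNReal.ofReal_ne_top, mul_left_comm]
  gcongr
  calc H + ENNReal.ofReal (2 * c) * ∫⁻ y : E N, ENNReal.ofReal (h ‖y‖ * ρ y)
      ≤ H + ENNReal.ofReal (2 * c) * (ENNReal.ofReal (F.del / N) * H) := by gcongr
    _ = (1 + ENNReal.ofReal (2 * c * F.del / N)) * H := by
        rw [add_mul, one_mul, ← mul_assoc, ← ENNReal.ofReal_mul (by positivity)]
        congr 3
        ring
    _ = ENNReal.ofReal (1 + 2 * c * F.del / N) * H := by
        rw [ENNReal.ofReal_add zero_le_one (by positivity), ENNReal.ofReal_one]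



end Pool.Agent.Helper82.OS
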