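import Mathlib
import Pool.Agent.Helper82.OS.Defs
import Pool.Agent.Helper82.OS.Defs2
import Pool.Agent.Helper82.OS.Defs3
set_option autoImplicit false
open Matrix MeasureTheory Set Metric Filter Topology
open scoped ENNReal ContDiff

namespace Pool.Agent.Helper82.OS
namespace Fr
variable {N : ℕ} (F : Fr N)

end Fr

/-! auxiliary lemmas -/

theorem gt_iso_gauss_tiltx {D : ℕ} (R : E D ≃ₗᵢ[ℝ] E D) (F : E D → ℝ≥0∞) : ∫⁻ w, F (R w) = ∫⁻ w, F w :=
  (R.measurePreserving).lintegral_comp_emb R.toHomeomorph.measurableEmbedding F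

theorem gt_refl_gauss_tiltx {D : ℕ} (u v : E D) (h : ‖u‖ = ‖v‖) : ∃ R : E D ≃ₗᵢ[ℝ] E D, R u = v ∧ R v = u ∧
    ∀ x, inner ℝ u x = 0 → inner ℝ v x = 0 → R x = x := by
  refine ⟨(ℝ ∙ (u - v))ᗮ.reflection, Submodule.reflection_sub h, ?_, ?_⟩
  · have h1 := Submodule.reflection_sub h
    have h2 := congrArg ((ℝ ∙ (u - v))ᗮ.reflection) h1
    rw [Submodule.reflection_reflection] at h2
    exact h2.symm
  · intro x hu hv
    apply Submodule.reflection_mem_subspace_eq_self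
    rw [Submodule.mem_orthogonal_singleton_iff_inner_right]
    rw [inner_sub_left, hu, hv, sub_zero]

theorem gt_point_gauss_tiltx (t : ℝ) {ι : Type} (s : Finset ι) (μ y : ι → ℝ) (hμ : ∀ i ∈ s, 0 ≤ μ i) :
    Real.sqrt (t ^ 2 + ∑ i ∈ s, μ i * y i ^ 2) +
      ∑ i ∈ s, (1 / 2) * (y i ^ 2 / Real.sqrt (t ^ 2 + ∑ i ∈ s, y i ^ 2)) ≤
    Real.sqrt (t ^ 2 + ∑ i ∈ s, y i ^ 2) +
      ∑ i ∈ s, (μ i / 2) * (y i ^ 2 / Real.sqrt (t ^ 2 + ∑ i ∈ s, y i ^ 2)) := by
  set A := t ^ 2 + ∑ i ∈ s, y i ^ 2 with hA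
  have hys : 0 ≤ ∑ i ∈ s, y i ^ 2 := Finset.sum_nonneg (fun i _ => sq_nonneg _)
  have hms : 0 ≤ ∑ i ∈ s, μ i * y i ^ 2 :=
    Finset.sum_nonneg (fun i hi => mul_nonneg (hμ i hi) (sq_nonneg _))
  have hA0 : 0 ≤ A := by positivity
  rcases hA0.eq_or_lt with h0 | hpos
  · have ht : t ^ 2 = 0 := by nlinarith [sq_nonneg t]
    have hy0 : ∑ i ∈ s, y i ^ 2 = 0 := by nlinarith [sq_nonneg t]
    have hy1 : ∀ i ∈ s, y i ^ 2 = 0 := (Finset.sum_eq_zero_iff_of_nonneg (fun i _ => sq_nonneg _)).1 hy0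
    have e1 : ∑ i ∈ s, μ i * y i ^ 2 = 0 := Finset.sum_eq_zero (fun i hi => by rw [hy1 i hi, mul_zero])
    rw [e1, ht, ← h0]
    simp
  · set S := Real.sqrt A with hS
    have hSp : 0 < S := Real.sqrt_pos.2 hpos
    have hSS : S * S = A := Real.mul_self_sqrt hA0
    have e1 : ∑ i ∈ s, (1 / 2) * (y i ^ 2 / S) = (∑ i ∈ s, y i ^ 2) / (2 * S) := by
      rw [Finset.sum_div]
      apply Finset.sum_congr rfl
      intro i _
      field_simp
    have e2 : ∑ i ∈ s, (μ i / 2) * (y i ^ 2 / S) = (∑ i ∈ s, μ i * y i ^ 2) / (2 * S) := by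
      rw [Finset.sum_div]
      apply Finset.sum_congr rfl
      intro i _
      field_simp
    rw [e1, e2]
    set X := ∑ i ∈ s, μ i * y i ^ 2 with hX
    set Y := ∑ i ∈ s, y i ^ 2 with hY
    have hq : Real.sqrt (t ^ 2 + X) ≤ S + (X - Y) / (2 * S) := by
      have hn : 0 ≤ S + (X - Y) / (2 * S) := by
        have : S + (X - Y) / (2 * S) = (2 * (S * S) + (X - Y)) / (2 * S) := by field_simp
        rw [this, hSS]
        apply div_nonneg _ (by positivity)
        nlinarith [sq_nonneg t]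
      rw [Real.sqrt_le_left hn]
      have : (S + (X - Y) / (2 * S)) ^ 2 = S * S + (X - Y) + ((X - Y) / (2 * S)) ^ 2 := by
        field_simp
        ring
      rw [this, hSS, hA]
      nlinarith [sq_nonneg ((X - Y) / (2 * S))]
    have h3 : (X - Y) / (2 * S) = X / (2 * S) - Y / (2 * S) := sub_div _ _ _
    linarith

theorem gw_cont_gauss_tiltx {k : ℕ} : Continuous (fun w : E k => gw w) := by
  unfold gw
  fun_prop

theorem gw_nonneg_gauss_tiltx {k : ℕ} (w : E k) : 0 ≤ gw w := (Real.exp_pos _).le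

/-- the diagonal comparison -/
theorem gt_diag_gauss_tiltx {N : ℕ} (hN : 1 ≤ N) (v : OrthonormalBasis (Fin (N + 1)) ℝ (E (N + 1)))
    (μ : Fin (N + 1) → ℝ) (hμ : ∀ i, 0 ≤ μ i) (i0 : Fin (N + 1)) (h0 : μ i0 = 0) (B : ℝ) (hB : 0 ≤ B)
    (hs : ∑ i, μ i ≤ N + B) (t : ℝ) :
    ∫⁻ z : E (N + 1), ENNReal.ofReal (Real.sqrt (t ^ 2 + ∑ i, μ i * inner ℝ (v i) z ^ 2) * gw z) ≤
      ENNReal.ofReal (1 + B / (2 * N)) *
      ∫⁻ z : E (N + 1), ENNReal.ofReal (Real.sqrt (t ^ 2 + (‖z‖ ^ 2 - inner ℝ (v i0) z ^ 2)) * gw z) := by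
  classical
  set s : Finset (Fin (N + 1)) := Finset.univ.erase i0 with hsd
  have hNr : (1 : ℝ) ≤ N := by exact_mod_cast hN
  have hcard : s.card = N := by
    rw [hsd, Finset.card_erase_of_mem (Finset.mem_univ _), Finset.card_univ, Fintype.card_fin]
    rfl
  have hnorm : ∀ z : E (N + 1), ‖z‖ ^ 2 - inner ℝ (v i0) z ^ 2 = ∑ i ∈ s, inner ℝ (v i) z ^ 2 := by
    intro z
    have h1 : ‖z‖ ^ 2 = ∑ i, inner ℝ (v i) z ^ 2 := by
      rw [← v.sum_sq_norm_inner_right z]
      apply Finset.sum_congr rfl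
      intro i _
      rw [Real.norm_eq_abs, sq_abs]
    rw [h1, ← Finset.add_sum_erase _ _ (Finset.mem_univ i0)]
    ring
  have hmu : ∀ z : E (N + 1), ∑ i, μ i * inner ℝ (v i) z ^ 2 = ∑ i ∈ s, μ i * inner ℝ (v i) z ^ 2 := by
    intro z
    rw [← Finset.add_sum_erase _ _ (Finset.mem_univ i0), h0, zero_mul, zero_add]
  have hsum : ∑ i, μ i = ∑ i ∈ s, μ i := by
    rw [← Finset.add_sum_erase _ _ (Finset.mem_univ i0), h0, zero_add]
  set A : E (N + 1) → ℝ := fun z => t ^ 2 + (‖z‖ ^ 2 - inner ℝ (v i0) z ^ 2) with hA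
  set I : ℝ≥0∞ := ∫⁻ z : E (N + 1), ENNReal.ofReal (Real.sqrt (A z) * gw z) with hI
  set J : Fin (N + 1) → ℝ≥0∞ := fun i =>
    ∫⁻ z : E (N + 1), ENNReal.ofReal (inner ℝ (v i) z ^ 2 / Real.sqrt (A z) * gw z) with hJ
  set L : ℝ≥0∞ := ∫⁻ z : E (N + 1),
    ENNReal.ofReal (Real.sqrt (t ^ 2 + ∑ i, μ i * inner ℝ (v i) z ^ 2) * gw z) with hL
  have hAm : Measurable A := by
    apply Continuous.measurable
    rw [hA]
    fun_prop
  have hgm : Measurable (fun w : E (N + 1) => gw w) := gw_cont_gauss_tiltx.measurable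
  have hJm : ∀ i, Measurable (fun z : E (N + 1) =>
      ENNReal.ofReal (inner ℝ (v i) z ^ 2 / Real.sqrt (A z) * gw z)) := by
    intro i
    apply Measurable.ennreal_ofReal
    apply Measurable.mul _ hgm
    apply Measurable.div _ (Real.continuous_sqrt.measurable.comp hAm)
    apply Continuous.measurable
    fun_prop
  have hIm : Measurable (fun z : E (N + 1) => ENNReal.ofReal (Real.sqrt (A z) * gw z)) := by
    apply Measurable.ennreal_ofReal
    exact Measurable.mul (Real.continuous_sqrt.measurable.comp hAm) hgm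
  have hLm : Measurable (fun z : E (N + 1) =>
      ENNReal.ofReal (Real.sqrt (t ^ 2 + ∑ i, μ i * inner ℝ (v i) z ^ 2) * gw z)) := by
    apply Measurable.ennreal_ofReal
    apply Continuous.measurable
    apply Continuous.mul _ gw_cont_gauss_tiltx
    fun_prop
  -- the main pointwise inequality
  have hmain : L + ∑ i ∈ s, ENNReal.ofReal (1 / 2) * J i ≤ I + ∑ i ∈ s, ENNReal.ofReal (μ i / 2) * J i := by
    have e1 : L + ∑ i ∈ s, ENNReal.ofReal (1 / 2) * J i = ∫⁻ z : E (N + 1),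
        (ENNReal.ofReal (Real.sqrt (t ^ 2 + ∑ i, μ i * inner ℝ (v i) z ^ 2) * gw z) +
        ∑ i ∈ s, ENNReal.ofReal (1 / 2) *
          ENNReal.ofReal (inner ℝ (v i) z ^ 2 / Real.sqrt (A z) * gw z)) := by
      rw [lintegral_add_left hLm, lintegral_finsetSum]
      · congr 1
        apply Finset.sum_congr rfl
        intro i _
        rw [lintegral_const_mul _ (hJm i)]
      · intro i _
        exact (hJm i).const_mul _
    have e2 : I + ∑ i ∈ s, ENNReal.ofReal (μ i / 2) * J i = ∫⁻ z : E (N + 1),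
        (ENNReal.ofReal (Real.sqrt (A z) * gw z) +
        ∑ i ∈ s, ENNReal.ofReal (μ i / 2) *
          ENNReal.ofReal (inner ℝ (v i) z ^ 2 / Real.sqrt (A z) * gw z)) := by
      rw [lintegral_add_left hIm, lintegral_finsetSum]
      · congr 1
        apply Finset.sum_congr rfl
        intro i _
        rw [lintegral_const_mul _ (hJm i)]
      · intro i _
        exact (hJm i).const_mul _
    rw [e1, e2]
    apply lintegral_mono
    intro z
    have hp := gt_point_gauss_tiltx t s μ (fun i => inner ℝ (v i) z) (fun i _ => hμ i)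
    rw [← hmu z] at hp
    have hAz : A z = t ^ 2 + ∑ i ∈ s, inner ℝ (v i) z ^ 2 := by rw [hA]; simp only; rw [hnorm]
    rw [← hAz] at hp
    have hg := gw_nonneg_gauss_tiltx z
    have hpos1 : ∀ i, 0 ≤ inner ℝ (v i) z ^ 2 / Real.sqrt (A z) * gw z := fun i => by positivity
    have c1 : ∀ c : Fin (N + 1) → ℝ, (∀ i, 0 ≤ c i) → ∑ i ∈ s, ENNReal.ofReal (c i) *
          ENNReal.ofReal (inner ℝ (v i) z ^ 2 / Real.sqrt (A z) * gw z) =
        ENNReal.ofReal ((∑ i ∈ s, c i * (inner ℝ (v i) z ^ 2 / Real.sqrt (A z))) * gw z) := by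
      intro c hc
      rw [Finset.sum_mul, ENNReal.ofReal_sum_of_nonneg]
      · apply Finset.sum_congr rfl
        intro i _
        rw [← ENNReal.ofReal_mul (hc i), mul_assoc]
      · intro i _
        have := hc i
        positivity
    simp only
    rw [c1 (fun _ => 1 / 2) (fun _ => by norm_num), c1 (fun i => μ i / 2) (fun i => by
      have := hμ i
      positivity)]
    have hn1 : 0 ≤ ∑ i ∈ s, (1 / 2) * (inner ℝ (v i) z ^ 2 / Real.sqrt (A z)) :=
      Finset.sum_nonneg (fun i _ => by positivity)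
    have hn2 : 0 ≤ ∑ i ∈ s, (μ i / 2) * (inner ℝ (v i) z ^ 2 / Real.sqrt (A z)) :=
      Finset.sum_nonneg (fun i _ => by
        have := hμ i
        positivity)
    rw [← ENNReal.ofReal_add (by positivity) (by positivity),
      ← ENNReal.ofReal_add (by positivity) (by positivity)]
    apply ENNReal.ofReal_le_ofReal
    rw [← add_mul, ← add_mul]
    exact mul_le_mul_of_nonneg_right hp hg
  -- symmetry
  have hsymm : ∀ i ∈ s, ∀ j ∈ s, J i = J j := by
    intro i hi j hj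
    obtain ⟨R, hR1, hR2, hR3⟩ := gt_refl_gauss_tiltx (v i) (v j) (by rw [v.norm_eq_one, v.norm_eq_one])
    have hi0 : i ≠ i0 := (Finset.mem_erase.1 hi).1
    have hj0 : j ≠ i0 := (Finset.mem_erase.1 hj).1
    have hR4 : R (v i0) = v i0 := by
      apply hR3
      · rw [v.inner_eq_zero hi0]
      · rw [v.inner_eq_zero hj0]
    have h5 : ∀ z, inner ℝ (v j) (R z) = inner ℝ (v i) z := by
      intro z
      rw [← hR1, LinearIsometryEquiv.inner_map_map]
    have h6 : ∀ z, inner ℝ (v i0) (R z) = inner ℝ (v i0) z := by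
      intro z
      conv_lhs => rw [← hR4]
      rw [LinearIsometryEquiv.inner_map_map]
    have h7 : ∀ z, A (R z) = A z := by
      intro z
      rw [hA]
      simp only
      rw [h6, LinearIsometryEquiv.norm_map]
    have h8 : ∀ z, gw (R z) = gw z := by
      intro z
      unfold gw
      rw [LinearIsometryEquiv.norm_map]
    have h9 := gt_iso_gauss_tiltx R (fun z => ENNReal.ofReal (inner ℝ (v j) z ^ 2 / Real.sqrt (A z) * gw z))
    rw [hJ]
    simp only
    rw [← h9]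
    simp only [h5, h7, h8]
  obtain ⟨j0, hj0⟩ : s.Nonempty := by
    rw [← Finset.card_pos, hcard]
    omega
  have hJs : ∀ i ∈ s, J i = J j0 := fun i hi => hsymm i hi j0 hj0
  have hNJ : (N : ℝ≥0∞) * J j0 ≤ I := by
    have e1 : (N : ℝ≥0∞) * J j0 = ∑ i ∈ s, J i := by
      rw [Finset.sum_congr rfl hJs, Finset.sum_const, hcard, nsmul_eq_mul]
    rw [e1, hJ]
    simp only
    rw [← lintegral_finsetSum _ (fun i _ => hJm i)]
    apply lintegral_mono
    intro z
    simp only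
    rw [← ENNReal.ofReal_sum_of_nonneg]
    · apply ENNReal.ofReal_le_ofReal
      rw [← Finset.sum_mul, ← Finset.sum_div, ← hnorm]
      apply mul_le_mul_of_nonneg_right _ (gw_nonneg_gauss_tiltx z)
      have hle : ‖z‖ ^ 2 - inner ℝ (v i0) z ^ 2 ≤ A z := by
        rw [hA]
        nlinarith [sq_nonneg t]
      have hA0 : 0 ≤ A z := by
        have : 0 ≤ ‖z‖ ^ 2 - inner ℝ (v i0) z ^ 2 := by
          rw [hnorm]
          exact Finset.sum_nonneg (fun i _ => sq_nonneg _)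
        rw [hA]
        positivity
      calc (‖z‖ ^ 2 - inner ℝ (v i0) z ^ 2) / Real.sqrt (A z) ≤ A z / Real.sqrt (A z) := by gcongr
        _ = Real.sqrt (A z) := Real.div_sqrt
    · intro i _
      have := gw_nonneg_gauss_tiltx z
      positivity
  by_cases hItop : I = ⊤
  · rw [hItop, ENNReal.mul_top]
    · exact le_top
    · rw [Ne, ENNReal.ofReal_eq_zero, not_le]
      positivity
  · have hJtop : J j0 ≠ ⊤ := by
      intro h
      rw [h, ENNReal.mul_top (by exact_mod_cast (by omega : N ≠ 0))] at hNJ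
      exact hItop (top_le_iff.1 hNJ)
    have e1 : ∑ i ∈ s, ENNReal.ofReal (1 / 2) * J i = ENNReal.ofReal (N / 2) * J j0 := by
      rw [Finset.sum_congr rfl (fun i hi => by rw [hJs i hi]), Finset.sum_const, hcard, nsmul_eq_mul,
        ← mul_assoc]
      congr 1
      rw [← ENNReal.ofReal_natCast, ← ENNReal.ofReal_mul (by positivity)]
      congr 1
      ring
    have e2 : ∑ i ∈ s, ENNReal.ofReal (μ i / 2) * J i ≤ ENNReal.ofReal (B / 2) * J j0 +
        ENNReal.ofReal (N / 2) * J j0 := by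
      rw [Finset.sum_congr rfl (fun i hi => by rw [hJs i hi]), ← Finset.sum_mul, ← add_mul]
      apply mul_le_mul_left
      rw [← ENNReal.ofReal_sum_of_nonneg (fun i _ => by
        have := hμ i
        positivity), ← ENNReal.ofReal_add (by positivity) (by positivity)]
      apply ENNReal.ofReal_le_ofReal
      rw [← Finset.sum_div, ← hsum]
      linarith
    rw [e1] at hmain
    have h3 : L + ENNReal.ofReal (N / 2) * J j0 ≤
        (I + ENNReal.ofReal (B / 2) * J j0) + ENNReal.ofReal (N / 2) * J j0 := by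
      refine hmain.trans ?_
      rw [add_assoc]
      exact add_le_add le_rfl e2
    have hfin : ENNReal.ofReal (N / 2) * J j0 ≠ ⊤ := ENNReal.mul_ne_top ENNReal.ofReal_ne_top hJtop
    have h4 := (ENNReal.add_le_add_iff_right hfin).1 h3
    refine h4.trans ?_
    have h5 : ENNReal.ofReal (B / 2) * J j0 ≤ ENNReal.ofReal (B / (2 * N)) * I := by
      have e3 : ENNReal.ofReal (B / 2) * J j0 = ENNReal.ofReal (B / (2 * N)) * ((N : ℝ≥0∞) * J j0) := by
        rw [← mul_assoc]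
        congr 1
        rw [← ENNReal.ofReal_natCast, ← ENNReal.ofReal_mul (by positivity)]
        congr 1
        field_simp
      rw [e3]
      exact mul_le_mul_right hNJ _
    rw [ENNReal.ofReal_add (by norm_num) (by positivity), ENNReal.ofReal_one, add_mul, one_mul]
    exact add_le_add le_rfl h5


/-- diagonal operator -/
noncomputable def dgo_gauss_tiltx {n : ℕ} (b : OrthonormalBasis (Fin n) ℝ (E n)) (d : Fin n → ℝ) : E n →ₗ[ℝ] E n where
  toFun z := ∑ i, (d i * inner ℝ (b i) z) • b i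
  map_add' x y := by
    rw [← Finset.sum_add_distrib]
    apply Finset.sum_congr rfl
    intro i _
    rw [inner_add_right, mul_add, add_smul]
  map_smul' c x := by
    rw [RingHom.id_apply, Finset.smul_sum]
    apply Finset.sum_congr rfl
    intro i _
    rw [inner_smul_right, smul_smul]
    congr 1
    ring

theorem dgo_apply_gauss_tiltx {n : ℕ} (b : OrthonormalBasis (Fin n) ℝ (E n)) (d : Fin n → ℝ) (z : E n) :
    dgo_gauss_tiltx b d z = ∑ i, (d i * inner ℝ (b i) z) • b i := rfl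

theorem dgo_inner_gauss_tiltx {n : ℕ} (b : OrthonormalBasis (Fin n) ℝ (E n)) (d : Fin n → ℝ) (z : E n) (j : Fin n) :
    inner ℝ (b j) (dgo_gauss_tiltx b d z) = d j * inner ℝ (b j) z := by
  rw [dgo_apply_gauss_tiltx, inner_sum]
  rw [Finset.sum_eq_single j]
  · rw [inner_smul_right, real_inner_self_eq_norm_sq, b.norm_eq_one]
    ring
  · intro i _ hij
    rw [inner_smul_right, b.inner_eq_zero hij.symm, mul_zero]
  · intro h
    exact absurd (Finset.mem_univ j) h

theorem inner_eq_sum_gauss_tiltx {n : ℕ} (b : OrthonormalBasis (Fin n) ℝ (E n)) (x y : E n) :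
    inner ℝ x y = ∑ i, inner ℝ (b i) x * inner ℝ (b i) y := by
  rw [← b.sum_inner_mul_inner x y]
  apply Finset.sum_congr rfl
  intro i _
  rw [real_inner_comm (b i) x]

theorem dgo_symm_gauss_tiltx {n : ℕ} (b : OrthonormalBasis (Fin n) ℝ (E n)) (d : Fin n → ℝ) (x y : E n) :
    inner ℝ (dgo_gauss_tiltx b d x) y = inner ℝ x (dgo_gauss_tiltx b d y) := by
  rw [inner_eq_sum_gauss_tiltx b, inner_eq_sum_gauss_tiltx b x]
  apply Finset.sum_congr rfl
  intro i _
  rw [dgo_inner_gauss_tiltx, dgo_inner_gauss_tiltx]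
  ring

theorem dgo_det_gauss_tiltx {n : ℕ} (b : OrthonormalBasis (Fin n) ℝ (E n)) (d : Fin n → ℝ) :
    LinearMap.det (dgo_gauss_tiltx b d) = ∏ i, d i := by
  rw [← LinearMap.det_toMatrix b.toBasis, ← Matrix.det_diagonal]
  congr 1
  ext i j
  rw [LinearMap.toMatrix_apply, b.coe_toBasis, b.coe_toBasis_repr_apply, b.repr_apply_apply, dgo_inner_gauss_tiltx,
    Matrix.diagonal_apply]
  split_ifs with h
  · rw [h, real_inner_self_eq_norm_sq, b.norm_eq_one]
    ring
  · rw [b.inner_eq_zero h, mul_zero]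

theorem dgo_lint_gauss_tiltx {n : ℕ} (b : OrthonormalBasis (Fin n) ℝ (E n)) (d : Fin n → ℝ) (hd : ∀ i, 0 < d i)
    (G : E n → ℝ≥0∞) (hG : Measurable G) :
    ∫⁻ w, G w = ENNReal.ofReal (∏ i, d i) * ∫⁻ z, G (dgo_gauss_tiltx b d z) := by
  have hp : 0 < ∏ i, d i := Finset.prod_pos (fun i _ => hd i)
  have hdet : LinearMap.det (dgo_gauss_tiltx b d) ≠ 0 := by
    rw [dgo_det_gauss_tiltx]
    exact hp.ne'
  have h1 := Measure.map_linearMap_addHaar_eq_smul_addHaar (μ := (volume : Measure (E n))) hdet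
  have hm : Measurable (dgo_gauss_tiltx b d) := (dgo_gauss_tiltx b d).continuous_of_finiteDimensional.measurable
  have h2 : ∫⁻ z, G (dgo_gauss_tiltx b d z) = ∫⁻ w, G w ∂(Measure.map (dgo_gauss_tiltx b d) volume) := (lintegral_map hG hm).symm
  rw [h2, h1, lintegral_smul_measure, dgo_det_gauss_tiltx, smul_eq_mul, ← mul_assoc, ← ENNReal.ofReal_mul hp.le,
    abs_of_pos (inv_pos.2 hp), mul_inv_cancel₀ hp.ne', ENNReal.ofReal_one, one_mul]

/-- projection to `e^⊥` -/
noncomputable def pro_gauss_tiltx {n : ℕ} (e : E n) : E n →ₗ[ℝ] E n where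
  toFun z := z - inner ℝ e z • e
  map_add' x y := by
    rw [inner_add_right, add_smul]
    abel
  map_smul' c x := by
    rw [RingHom.id_apply, inner_smul_right, smul_sub, smul_smul]

theorem pro_apply_gauss_tiltx {n : ℕ} (e z : E n) : pro_gauss_tiltx e z = z - inner ℝ e z • e := rfl

theorem pro_symm_gauss_tiltx {n : ℕ} (e x y : E n) : inner ℝ (pro_gauss_tiltx e x) y = inner ℝ x (pro_gauss_tiltx e y) := by
  rw [pro_apply_gauss_tiltx, pro_apply_gauss_tiltx, inner_sub_left, inner_sub_right, inner_smul_left, inner_smul_right,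
    real_inner_comm e x]
  simp [mul_comm]

theorem pro_quad_gauss_tiltx {n : ℕ} (e z : E n) : inner ℝ (pro_gauss_tiltx e z) z = ‖z‖ ^ 2 - inner ℝ e z ^ 2 := by
  rw [pro_apply_gauss_tiltx, inner_sub_left, inner_smul_left, real_inner_self_eq_norm_sq]
  simp
  ring

/-- the spectral step -/
theorem gt_spec_gauss_tiltx {N : ℕ} (b : OrthonormalBasis (Fin (N + 1)) ℝ (E (N + 1))) (d : Fin (N + 1) → ℝ)
    (hd : ∀ i, 0 < d i) (hd1 : ∀ i, 1 ≤ d i ^ 2) (e : E (N + 1)) (he : ‖e‖ = 1) :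
    ∃ (v : OrthonormalBasis (Fin (N + 1)) ℝ (E (N + 1))) (μ : Fin (N + 1) → ℝ) (i0 : Fin (N + 1)),
      (∀ i, 0 ≤ μ i) ∧ μ i0 = 0 ∧ ∑ i, μ i ≤ N + ∑ i, (d i ^ 2 - 1) ∧
      ∀ z, ‖dgo_gauss_tiltx b d z‖ ^ 2 - inner ℝ e (dgo_gauss_tiltx b d z) ^ 2 = ∑ i, μ i * inner ℝ (v i) z ^ 2 := by
  set S : E (N + 1) →ₗ[ℝ] E (N + 1) := (dgo_gauss_tiltx b d) ∘ₗ (pro_gauss_tiltx e) ∘ₗ (dgo_gauss_tiltx b d) with hS
  have hSa : ∀ x, S x = dgo_gauss_tiltx b d (pro_gauss_tiltx e (dgo_gauss_tiltx b d x)) := fun x => rfl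
  have hsym : S.IsSymmetric := by
    intro x y
    rw [hSa, hSa, dgo_symm_gauss_tiltx, pro_symm_gauss_tiltx, dgo_symm_gauss_tiltx]
  have hq : ∀ z, inner ℝ (S z) z = ‖dgo_gauss_tiltx b d z‖ ^ 2 - inner ℝ e (dgo_gauss_tiltx b d z) ^ 2 := by
    intro z
    rw [hSa, dgo_symm_gauss_tiltx, pro_quad_gauss_tiltx]
  have hn : Module.finrank ℝ (E (N + 1)) = N + 1 := by simp
  set v := hsym.eigenvectorBasis hn with hv
  set μ := hsym.eigenvalues hn with hμ
  have hSv : ∀ i, S (v i) = μ i • v i := fun i => hsym.apply_eigenvectorBasis hn i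
  have hpos : ∀ z, 0 ≤ ‖dgo_gauss_tiltx b d z‖ ^ 2 - inner ℝ e (dgo_gauss_tiltx b d z) ^ 2 := by
    intro z
    have h1 := abs_real_inner_le_norm e (dgo_gauss_tiltx b d z)
    rw [he, one_mul] at h1
    have h2 := sq_le_sq' (by linarith [abs_nonneg (inner ℝ e (dgo_gauss_tiltx b d z)), norm_nonneg (dgo_gauss_tiltx b d z)]) h1
    rw [sq_abs] at h2
    linarith
  have hquad : ∀ z, inner ℝ (S z) z = ∑ i, μ i * inner ℝ (v i) z ^ 2 := by
    intro z
    rw [inner_eq_sum_gauss_tiltx v]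
    apply Finset.sum_congr rfl
    intro i _
    have h1 : inner ℝ (v i) (S z) = μ i * inner ℝ (v i) z := by
      rw [← hsym (v i) z, hSv, inner_smul_left]
      rfl
    rw [h1]
    ring
  have hμ0 : ∀ i, 0 ≤ μ i := by
    intro i
    have h1 : inner ℝ (S (v i)) (v i) = μ i := by
      rw [hSv, inner_smul_left, real_inner_self_eq_norm_sq, v.norm_eq_one]
      simp
    rw [← h1, hq]
    exact hpos _
  have htr : ∑ i, μ i = ∑ i, (d i ^ 2 * (1 - inner ℝ e (b i) ^ 2)) := by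
    have t1 := LinearMap.trace_eq_sum_inner S v
    have t2 := LinearMap.trace_eq_sum_inner S b
    have t3 : ∑ i, inner ℝ (v i) (S (v i)) = ∑ i, μ i := by
      apply Finset.sum_congr rfl
      intro i _
      rw [hSv, inner_smul_right, real_inner_self_eq_norm_sq, v.norm_eq_one]
      ring
    have t4 : ∑ i, inner ℝ (b i) (S (b i)) = ∑ i, (d i ^ 2 * (1 - inner ℝ e (b i) ^ 2)) := by
      apply Finset.sum_congr rfl
      intro i _
      rw [real_inner_comm, hq]
      have h1 : dgo_gauss_tiltx b d (b i) = d i • b i := by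
        rw [dgo_apply_gauss_tiltx, Finset.sum_eq_single i]
        · rw [real_inner_self_eq_norm_sq, b.norm_eq_one]
          congr 1
          ring
        · intro j _ hji
          rw [b.inner_eq_zero hji, mul_zero, zero_smul]
        · intro h
          exact absurd (Finset.mem_univ i) h
      rw [h1, norm_smul, b.norm_eq_one, inner_smul_right, Real.norm_eq_abs, mul_one, sq_abs]
      ring
    rw [← t3, ← t4, ← t1, ← t2]
  have hsumE : ∑ i, inner ℝ e (b i) ^ 2 = 1 := by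
    have h1 := b.sum_sq_norm_inner_left e
    rw [he] at h1
    rw [← one_pow (M := ℝ) 2, ← h1]
    apply Finset.sum_congr rfl
    intro i _
    rw [Real.norm_eq_abs, sq_abs]
  -- zero eigenvalue
  obtain ⟨i0, hi0⟩ : ∃ i0, μ i0 = 0 := by
    by_contra hcon
    push Not at hcon
    set z0 := dgo_gauss_tiltx b (fun i => (d i)⁻¹) e with hz0
    have h1 : dgo_gauss_tiltx b d z0 = e := by
      apply b.toBasis.ext_elem
      intro i
      rw [b.coe_toBasis_repr_apply, b.coe_toBasis_repr_apply, b.repr_apply_apply, b.repr_apply_apply,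
        dgo_inner_gauss_tiltx, hz0, dgo_inner_gauss_tiltx, ← mul_assoc, mul_inv_cancel₀ (hd i).ne', one_mul]
    have h2 : inner ℝ (S z0) z0 = 0 := by
      rw [hq, h1, he, real_inner_self_eq_norm_sq, he]
      norm_num
    rw [hquad] at h2
    have h3 := (Finset.sum_eq_zero_iff_of_nonneg (fun i _ => mul_nonneg (hμ0 i) (sq_nonneg _))).1 h2
    have h4 : ∀ i, inner ℝ (v i) z0 = 0 := by
      intro i
      have := h3 i (Finset.mem_univ i)
      rcases mul_eq_zero.1 this with h | h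
      · exact absurd h (hcon i)
      · exact pow_eq_zero_iff (two_ne_zero) |>.1 h
    have h5 : z0 = 0 := by
      apply v.toBasis.ext_elem
      intro i
      rw [v.coe_toBasis_repr_apply, v.coe_toBasis_repr_apply, v.repr_apply_apply, v.repr_apply_apply,
        h4 i, inner_zero_right]
    rw [h5, map_zero] at h1
    rw [← h1, norm_zero] at he
    exact zero_ne_one he
  refine ⟨v, μ, i0, hμ0, hi0, ?_, ?_⟩
  · rw [htr]
    have h1 : ∑ i : Fin (N + 1), (1 - inner ℝ e (b i) ^ 2) = (N : ℝ) := by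
      rw [Finset.sum_sub_distrib, hsumE]
      simp
    have h2 : ∑ i : Fin (N + 1), (d i ^ 2 * (1 - inner ℝ e (b i) ^ 2)) =
        ∑ i : Fin (N + 1), (1 - inner ℝ e (b i) ^ 2) +
        ∑ i : Fin (N + 1), (d i ^ 2 - 1) * (1 - inner ℝ e (b i) ^ 2) := by
      rw [← Finset.sum_add_distrib]
      apply Finset.sum_congr rfl
      intro i _
      ring
    rw [h2, h1]
    have h3 : ∑ i : Fin (N + 1), (d i ^ 2 - 1) * (1 - inner ℝ e (b i) ^ 2) ≤ ∑ i, (d i ^ 2 - 1) := by
      apply Finset.sum_le_sum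
      intro i _
      nlinarith [hd1 i, sq_nonneg (inner ℝ e (b i)), mul_nonneg (sub_nonneg.2 (hd1 i)) (sq_nonneg (inner ℝ e (b i)))]
    linarith
  · intro z
    rw [← hquad, hq]


theorem gauss_tilt {N : ℕ} (hN : 1 ≤ N) (b : OrthonormalBasis (Fin (N + 1)) ℝ (E (N + 1))) (a : Fin (N + 1) → ℝ)
    (ha0 : ∀ i, 0 ≤ a i) (ha : ∀ i, 2 * a i < 1) (e : E (N + 1)) (he : ‖e‖ = 1) (t : ℝ) :
    ∫⁻ w : E (N + 1), ENNReal.ofReal (Real.sqrt (t ^ 2 + (‖w‖ ^ 2 - inner ℝ w e ^ 2)) *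
        Real.exp (∑ i, a i * inner ℝ w (b i) ^ 2) * gw w)
      ≤ ENNReal.ofReal (Real.exp ((∑ i, a i / (1 - 2 * a i)) * (1 + 1 / N))) *
        ∫⁻ w : E (N + 1), ENNReal.ofReal (Real.sqrt (t ^ 2 + (‖w‖ ^ 2 - inner ℝ w e ^ 2)) * gw w) := by
  have hNr : (1 : ℝ) ≤ N := by exact_mod_cast hN
  have hpa : ∀ i, 0 < 1 - 2 * a i := fun i => by linarith [ha i]
  set x : Fin (N + 1) → ℝ := fun i => a i / (1 - 2 * a i) with hx
  have hx0 : ∀ i, 0 ≤ x i := fun i => div_nonneg (ha0 i) (hpa i).le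
  set d : Fin (N + 1) → ℝ := fun i => Real.sqrt (1 / (1 - 2 * a i)) with hd
  have hdpos : ∀ i, 0 < d i := fun i => Real.sqrt_pos.2 (by have := hpa i; positivity)
  have hd2 : ∀ i, d i ^ 2 = 1 / (1 - 2 * a i) := fun i => Real.sq_sqrt (by have := hpa i; positivity)
  have hd2x : ∀ i, d i ^ 2 = 1 + 2 * x i := by
    intro i
    rw [hd2, hx]
    have := (hpa i).ne'
    field_simp
    ring
  have hd1 : ∀ i, 1 ≤ d i ^ 2 := fun i => by rw [hd2x]; linarith [hx0 i]
  obtain ⟨v, μ, i0, hμ0, hi0, hsum, hquad⟩ := gt_spec_gauss_tiltx b d hdpos hd1 e he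
  have hGc : Continuous (fun w : E (N + 1) => Real.sqrt (t ^ 2 + (‖w‖ ^ 2 - inner ℝ w e ^ 2)) *
        Real.exp (∑ i, a i * inner ℝ w (b i) ^ 2) * gw w) := by
    apply Continuous.mul _ gw_cont_gauss_tiltx
    fun_prop
  rw [dgo_lint_gauss_tiltx b d hdpos _ hGc.measurable.ennreal_ofReal]
  have hint : ∀ z : E (N + 1), Real.sqrt (t ^ 2 + (‖dgo_gauss_tiltx b d z‖ ^ 2 - inner ℝ (dgo_gauss_tiltx b d z) e ^ 2)) *
        Real.exp (∑ i, a i * inner ℝ (dgo_gauss_tiltx b d z) (b i) ^ 2) * gw (dgo_gauss_tiltx b d z) =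
      Real.sqrt (t ^ 2 + ∑ i, μ i * inner ℝ (v i) z ^ 2) * gw z := by
    intro z
    rw [real_inner_comm e (dgo_gauss_tiltx b d z), hquad, mul_assoc]
    congr 1
    unfold gw
    rw [← Real.exp_add]
    congr 1
    have n1 : ‖dgo_gauss_tiltx b d z‖ ^ 2 = ∑ i, d i ^ 2 * inner ℝ (b i) z ^ 2 := by
      rw [← b.sum_sq_norm_inner_right (dgo_gauss_tiltx b d z)]
      apply Finset.sum_congr rfl
      intro i _
      rw [Real.norm_eq_abs, sq_abs, dgo_inner_gauss_tiltx]
      ring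
    have n2 : ‖z‖ ^ 2 = ∑ i, inner ℝ (b i) z ^ 2 := by
      rw [← b.sum_sq_norm_inner_right z]
      apply Finset.sum_congr rfl
      intro i _
      rw [Real.norm_eq_abs, sq_abs]
    rw [n1, n2, Finset.sum_div, Finset.sum_div, ← sub_eq_add_neg, ← Finset.sum_sub_distrib, ← Finset.sum_neg_distrib]
    apply Finset.sum_congr rfl
    intro i _
    rw [real_inner_comm (b i) (dgo_gauss_tiltx b d z), dgo_inner_gauss_tiltx, mul_pow, hd2]
    have hne := (hpa i).ne'
    generalize inner ℝ (b i) z = q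
    have hdiv : (1 - 2 * a i) / (1 - 2 * a i) = 1 := div_self hne
    have e9 : a i * (1 / (1 - 2 * a i) * q ^ 2) - 1 / (1 - 2 * a i) * q ^ 2 / 2 =
        -(((1 - 2 * a i) / (1 - 2 * a i)) * (q ^ 2 / 2)) := by ring
    rw [e9, hdiv]
    ring
  simp only [hint]
  have hB : 0 ≤ ∑ i, (d i ^ 2 - 1) := Finset.sum_nonneg (fun i _ => by linarith [hd1 i])
  have hmain := gt_diag_gauss_tiltx hN v μ hμ0 i0 hi0 _ hB hsum t
  -- rotate
  obtain ⟨R, hR1, hR2, hR3⟩ := gt_refl_gauss_tiltx (v i0) e (by rw [v.norm_eq_one, he])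
  have hrot : ∫⁻ z : E (N + 1), ENNReal.ofReal (Real.sqrt (t ^ 2 + (‖z‖ ^ 2 - inner ℝ (v i0) z ^ 2)) * gw z) =
      ∫⁻ w : E (N + 1), ENNReal.ofReal (Real.sqrt (t ^ 2 + (‖w‖ ^ 2 - inner ℝ w e ^ 2)) * gw w) := by
    rw [← gt_iso_gauss_tiltx R (fun w => ENNReal.ofReal (Real.sqrt (t ^ 2 + (‖w‖ ^ 2 - inner ℝ w e ^ 2)) * gw w))]
    apply lintegral_congr
    intro z
    have h1 : inner ℝ (R z) e = inner ℝ (v i0) z := by
      rw [← hR1, LinearIsometryEquiv.inner_map_map, real_inner_comm]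
    have h2 : gw (R z) = gw z := by
      unfold gw
      rw [LinearIsometryEquiv.norm_map]
    rw [h1, h2, LinearIsometryEquiv.norm_map]
  rw [hrot] at hmain
  refine (mul_le_mul_right hmain _).trans ?_
  rw [← mul_assoc]
  apply mul_le_mul_left
  rw [← ENNReal.ofReal_mul (Finset.prod_nonneg (fun i _ => (hdpos i).le))]
  apply ENNReal.ofReal_le_ofReal
  have hX : ∑ i, (d i ^ 2 - 1) = 2 * ∑ i, x i := by
    rw [Finset.mul_sum]
    apply Finset.sum_congr rfl
    intro i _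
    rw [hd2x]
    ring
  have hprod : ∏ i, d i ≤ Real.exp (∑ i, x i) := by
    rw [Real.exp_sum]
    apply Finset.prod_le_prod (fun i _ => (hdpos i).le)
    intro i _
    have h1 : d i ^ 2 ≤ Real.exp (x i) ^ 2 := by
      rw [hd2x, ← Real.exp_nat_mul]
      have := Real.add_one_le_exp (2 * x i)
      push_cast
      linarith
    exact (pow_le_pow_iff_left₀ (hdpos i).le (Real.exp_pos _).le two_ne_zero).1 h1
  have h2 : 1 + (∑ i, (d i ^ 2 - 1)) / (2 * N) ≤ Real.exp ((∑ i, x i) * (1 / N)) := by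
    have h3 := Real.add_one_le_exp ((∑ i, x i) * (1 / N))
    have h4 : (∑ i, (d i ^ 2 - 1)) / (2 * N) = (∑ i, x i) * (1 / N) := by
      rw [hX]
      field_simp
    rw [h4]
    linarith
  calc (∏ i, d i) * (1 + (∑ i, (d i ^ 2 - 1)) / (2 * N))
      ≤ Real.exp (∑ i, x i) * Real.exp ((∑ i, x i) * (1 / N)) :=
        mul_le_mul hprod h2 (by positivity) (Real.exp_pos _).le
    _ = Real.exp ((∑ i, x i) * (1 + 1 / N)) := by
        rw [← Real.exp_add]
        congr 1
        ring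



end Pool.Agent.Helper82.OS
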