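import Mathlib
import Pool.Agent.Helper82.OS.Defs
import Pool.Agent.Helper82.OS.Defs2
set_option autoImplicit false
open Matrix MeasureTheory Set Metric Filter Topology
open scoped ENNReal ContDiff

namespace Pool.Agent.Helper82.OS
namespace Fr
variable {N : ℕ} (F : Fr N)

end Fr

theorem Fr.quad_rayx {N : ℕ} (F : Fr N) (t : ℝ) (w : E (N + 1)) (n : Fin N → ℝ) :
    n ⬝ᵥ (F.Gm t w *ᵥ n) = ‖∑ j, n j • F.Mv t w j‖ ^ 2 + (∑ j, n j * F.lv w j) ^ 2 := by
  have h1 : ‖∑ j, n j • F.Mv t w j‖ ^ 2 =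
      ∑ i, ∑ j, n i * (inner ℝ (F.Mv t w i) (F.Mv t w j) * n j) := by
    rw [← real_inner_self_eq_norm_sq, sum_inner]
    refine Finset.sum_congr rfl fun i _ => ?_
    rw [inner_sum]
    refine Finset.sum_congr rfl fun j _ => ?_
    rw [real_inner_smul_left, real_inner_smul_right]
    ring
  have h2 : (∑ j, n j * F.lv w j) ^ 2 = ∑ i, ∑ j, n i * (F.lv w i * F.lv w j * n j) := by
    rw [sq, Finset.sum_mul_sum]
    refine Finset.sum_congr rfl fun i _ => Finset.sum_congr rfl fun j _ => ?_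
    ring
  rw [h1, h2, ← Finset.sum_add_distrib]
  simp only [dotProduct, mulVec]
  refine Finset.sum_congr rfl fun i _ => ?_
  rw [Finset.mul_sum, ← Finset.sum_add_distrib]
  refine Finset.sum_congr rfl fun j _ => ?_
  simp only [Fr.Gm, Matrix.of_apply]
  ring

theorem Fr.parseval_rayx {N : ℕ} (F : Fr N) (w : E (N + 1)) (hw : ‖w‖ = 1) :
    F.u2 w = 1 - inner ℝ w F.e ^ 2 := by
  classical
  obtain ⟨v, hv⟩ : ∃ v : Option (Fin N) → E (N + 1), v = fun o => o.elim F.e F.q := ⟨_, rfl⟩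
  have hvn : v none = F.e := by rw [hv]; rfl
  have hvs : ∀ i, v (some i) = F.q i := by intro i; rw [hv]; rfl
  have hq := orthonormal_iff_ite.1 F.hq
  have hon : Orthonormal ℝ v := by
    rw [orthonormal_iff_ite]
    rintro (_ | i) (_ | j)
    · rw [hvn, real_inner_self_eq_norm_sq, F.he]
      simp
    · rw [hvn, hvs, real_inner_comm, F.hqe]
      simp
    · rw [hvn, hvs, F.hqe]
      simp
    · rw [hvs, hvs, hq]
      simp
  have hcard : Fintype.card (Option (Fin N)) = Module.finrank ℝ (E (N + 1)) := by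
    rw [Fintype.card_option, Fintype.card_fin, finrank_euclideanSpace_fin]
  have hspan := hon.linearIndependent.span_eq_top_of_card_eq_finrank' hcard
  have hP := (OrthonormalBasis.mk hon hspan.ge).sum_sq_norm_inner_right w
  rw [Fintype.sum_option, OrthonormalBasis.coe_mk, hvn, hw] at hP
  have h1 : ∑ i : Fin N, ‖inner ℝ (v (some i)) w‖ ^ 2 = F.u2 w := by
    unfold Fr.u2
    refine Finset.sum_congr rfl fun i _ => ?_
    rw [hvs, Real.norm_eq_abs, sq_abs, real_inner_comm]
  rw [h1, Real.norm_eq_abs, sq_abs, real_inner_comm] at hP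
  linarith


theorem Fr.psd {N : ℕ} (F : Fr N) (t : ℝ) (w : E (N + 1)) : (F.Gm t w).PosSemidef := by
  refine Matrix.PosSemidef.of_dotProduct_mulVec_nonneg ?_ ?_
  · ext i j
    simp only [Matrix.conjTranspose_apply, Fr.Gm, Matrix.of_apply, star_trivial]
    rw [real_inner_comm]
    ring
  · intro n
    have h : star n = n := by
      funext i
      simp
    rw [h, Fr.quad_rayx]
    positivity
theorem Fr.ray {N : ℕ} (hN : 1 ≤ N) (F : Fr N) (t : ℝ) (w : E (N + 1)) (hw : ‖w‖ = 1) (hu : F.u2 w ≠ 0) :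
    ∃ n : Fin N → ℝ, n ⬝ᵥ n = 1 ∧
      (1 - F.eta w) * (t ^ 2 + F.u2 w) - 2 * t * F.k2 w ≤ n ⬝ᵥ (F.Gm t w *ᵥ n) := by
  have hpar := F.parseval_rayx w hw
  obtain ⟨W, hW⟩ : ∃ W, W = inner ℝ w F.e := ⟨_, rfl⟩
  have hu2nn : 0 ≤ F.u2 w := Finset.sum_nonneg fun j _ => sq_nonneg _
  have hupos : 0 < F.u2 w := lt_of_le_of_ne hu2nn (Ne.symm hu)
  obtain ⟨L2, hL2⟩ : ∃ L2, L2 = ∑ j, F.lv w j ^ 2 := ⟨_, rfl⟩
  have hL2nn : 0 ≤ L2 := by
    rw [hL2]
    exact Finset.sum_nonneg fun j _ => sq_nonneg _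
  have heta : (1 - F.eta w) * F.u2 w = L2 := by
    unfold Fr.eta
    rw [sub_mul, one_mul, div_mul_cancel₀ _ hu, hL2]
    unfold Fr.u2
    rw [← Finset.sum_sub_distrib]
    refine Finset.sum_congr rfl fun j _ => ?_
    have := F.hcs j
    unfold Fr.lv
    rw [mul_pow]
    have h2 : F.c j ^ 2 = 1 - F.s j ^ 2 := by linarith
    rw [h2]
    ring
  have hMw : ∀ j, inner ℝ (F.Mv t w j) w = t * F.lv w j := by
    intro j
    unfold Fr.Mv Fr.lv
    rw [inner_add_left, real_inner_smul_left, real_inner_smul_left, inner_sub_left,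
      real_inner_smul_left, real_inner_smul_left, real_inner_comm w (F.q j),
      real_inner_comm w (F.g j), real_inner_comm w F.x]
    ring
  have hMe : ∀ j, inner ℝ (F.Mv t w j) F.e = F.eps w j := by
    intro j
    unfold Fr.Mv Fr.eps
    rw [inner_add_left, real_inner_smul_left, real_inner_smul_left, inner_sub_left,
      real_inner_smul_left, real_inner_smul_left, F.hqe j]
    ring
  rcases hL2nn.eq_or_lt with h0 | hpos
  · -- degenerate case
    have hl : ∀ j, F.lv w j = 0 := by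
      intro j
      have h1 : ∑ j, F.lv w j ^ 2 = 0 := by rw [← hL2, ← h0]
      have h2 := (Finset.sum_eq_zero_iff_of_nonneg (fun j _ => sq_nonneg (F.lv w j))).1 h1 j
        (Finset.mem_univ j)
      exact pow_eq_zero_iff (two_ne_zero) |>.1 h2
    have hk2 : F.k2 w = 0 := by
      unfold Fr.k2
      have : ∑ j, F.lv w j * F.eps w j = 0 :=
        Finset.sum_eq_zero fun j _ => by rw [hl j, zero_mul]
      rw [this, mul_zero, zero_div]
    have heta0 : 1 - F.eta w = 0 := by
      rw [← h0] at heta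
      rcases mul_eq_zero.1 heta with h | h
      · exact h
      · exact absurd h hu
    refine ⟨Pi.single ⟨0, hN⟩ 1, by simp, ?_⟩
    rw [hk2, heta0, Fr.quad_rayx, mul_zero, zero_mul, sub_zero]
    positivity
  · obtain ⟨L, hL⟩ : ∃ L, L = Real.sqrt L2 := ⟨_, rfl⟩
    have hLpos : 0 < L := by rw [hL]; exact Real.sqrt_pos.2 hpos
    have hLsq : L ^ 2 = L2 := by rw [hL]; exact Real.sq_sqrt hL2nn
    obtain ⟨n, hn⟩ : ∃ n : Fin N → ℝ, n = fun j => F.lv w j / L := ⟨_, rfl⟩
    have hnj : ∀ j, n j = F.lv w j / L := fun j => by rw [hn]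
    have hnn : n ⬝ᵥ n = 1 := by
      simp only [dotProduct, hnj]
      have : ∀ j, F.lv w j / L * (F.lv w j / L) = F.lv w j ^ 2 / L ^ 2 := fun j => by ring
      simp only [this]
      rw [← Finset.sum_div, ← hL2, hLsq, div_self hpos.ne']
    have hnl : ∑ j, n j * F.lv w j = L := by
      have : ∀ j, n j * F.lv w j = F.lv w j ^ 2 / L := fun j => by rw [hnj]; ring
      simp only [this]
      rw [← Finset.sum_div, ← hL2, ← hLsq]
      field_simp
    refine ⟨n, hnn, ?_⟩
    rw [Fr.quad_rayx, hnl, hLsq]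
    obtain ⟨y, hy⟩ : ∃ y, y = ∑ j, n j • F.Mv t w j := ⟨_, rfl⟩
    rw [← hy]
    have hyw : inner ℝ y w = t * L := by
      rw [hy, sum_inner]
      have : ∀ j, inner ℝ (n j • F.Mv t w j) w = t * (n j * F.lv w j) := fun j => by
        rw [real_inner_smul_left, hMw]
        ring
      simp only [this]
      rw [← Finset.mul_sum, hnl]
    obtain ⟨E1, hE1⟩ : ∃ E1, E1 = ∑ j, n j * F.eps w j := ⟨_, rfl⟩
    have hye : inner ℝ y F.e = E1 := by
      rw [hy, sum_inner, hE1]
      refine Finset.sum_congr rfl fun j _ => ?_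
      rw [real_inner_smul_left, hMe]
    have hLE : L * E1 = ∑ j, F.lv w j * F.eps w j := by
      rw [hE1, Finset.mul_sum]
      refine Finset.sum_congr rfl fun j _ => ?_
      rw [hnj]
      field_simp
    have hp2 : ‖w - W • F.e‖ ^ 2 = F.u2 w := by
      rw [hpar, ← hW, ← real_inner_self_eq_norm_sq, inner_sub_left, inner_sub_right,
        inner_sub_right, real_inner_smul_left, real_inner_smul_right, real_inner_smul_right,
        real_inner_smul_left, real_inner_self_eq_norm_sq, real_inner_self_eq_norm_sq, hw, F.he,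
        real_inner_comm w F.e, ← hW]
      ring
    have hyp : inner ℝ y (w - W • F.e) = t * L - W * E1 := by
      rw [inner_sub_right, real_inner_smul_right, hyw, hye]
    have hcs : (t * L - W * E1) ^ 2 ≤ ‖y‖ ^ 2 * F.u2 w := by
      rw [← hyp, ← hp2, ← mul_pow]
      have h1 := abs_real_inner_le_norm y (w - W • F.e)
      rw [← sq_abs]
      exact pow_le_pow_left₀ (abs_nonneg _) h1 2
    have hk2 : F.k2 w * F.u2 w = W * (L * E1) := by
      unfold Fr.k2
      rw [div_mul_cancel₀ _ hu, hLE, hW]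
    have hfin : ((1 - F.eta w) * t ^ 2 - 2 * t * F.k2 w) * F.u2 w ≤ ‖y‖ ^ 2 * F.u2 w := by
      have e1 : ((1 - F.eta w) * t ^ 2 - 2 * t * F.k2 w) * F.u2 w =
          ((1 - F.eta w) * F.u2 w) * t ^ 2 - 2 * t * (F.k2 w * F.u2 w) := by ring
      rw [e1, heta, hk2, ← hLsq]
      nlinarith [sq_nonneg (W * E1)]
    have hfin2 := le_of_mul_le_mul_right hfin hupos
    nlinarith [heta]



end Pool.Agent.Helper82.OS
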