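import Mathlib
import Pool.Agent.Helper82.OS.Defs
import Pool.Agent.Helper82.OS.Defs2
import Pool.Agent.Helper82.OS.Defs3
import Pool.Agent.Helper82.OS.D0
import Pool.Agent.Helper82.OS.ray
import Pool.Agent.Helper82.OS.trc
set_option autoImplicit false
open Matrix MeasureTheory Set Metric Filter Topology
open scoped ENNReal ContDiff

namespace Pool.Agent.Helper82.OS
namespace Fr
variable {N : ℕ} (F : Fr N)

end Fr

theorem zz_amgm_gcrudex {N : ℕ} (hN : 1 ≤ N) (A : Matrix (Fin N) (Fin N) ℝ) (hA : A.PosSemidef) :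
    A.det ≤ (A.trace / N) ^ N ∧ 0 ≤ A.trace / N := by
  have hN0 : (0:ℝ) < N := by exact_mod_cast hN
  have hdet := hA.isHermitian.det_eq_prod_eigenvalues
  have htr := hA.isHermitian.trace_eq_sum_eigenvalues
  have hnn := hA.eigenvalues_nonneg
  generalize hA.isHermitian.eigenvalues = l at hdet htr hnn
  simp only [RCLike.ofReal_real_eq_id, id_eq] at hdet htr
  have htr0 : 0 ≤ A.trace / N := by
    rw [htr]
    exact div_nonneg (Finset.sum_nonneg fun i _ => hnn i) hN0.le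
  refine ⟨?_, htr0⟩
  have h := Real.geom_mean_le_arith_mean_weighted Finset.univ (fun _ : Fin N => (1:ℝ) / N) l
    (fun _ _ => by positivity) (by simp; field_simp) (fun i _ => hnn i)
  rw [Real.finsetProd_rpow _ _ (fun i _ => hnn i), ← hdet] at h
  have h2 : ∑ i : Fin N, (1:ℝ) / N * l i = A.trace / N := by
    rw [← Finset.mul_sum, ← htr]
    ring
  rw [h2] at h
  have hd0 : 0 ≤ A.det := by
    rw [hdet]
    exact Finset.prod_nonneg fun i _ => hnn i
  have h3 : (A.det ^ ((1:ℝ) / N)) ^ N = A.det := by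
    rw [← Real.rpow_natCast, ← Real.rpow_mul hd0]
    rw [one_div, inv_mul_cancel₀ hN0.ne', Real.rpow_one]
  rw [← h3]
  exact pow_le_pow_left₀ (Real.rpow_nonneg hd0 _) h N

theorem zz_bessel_gcrudex {N : ℕ} (q : Fin N → E (N + 1)) (hq : Orthonormal ℝ q) (w : E (N + 1)) :
    ∑ j, (inner ℝ w (q j)) ^ 2 ≤ ‖w‖ ^ 2 := by
  have h := hq.sum_inner_products_le (x := w) (s := Finset.univ)
  refine le_trans (le_of_eq ?_) h
  apply Finset.sum_congr rfl
  intro j _
  rw [real_inner_comm, Real.norm_eq_abs, sq_abs]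

theorem zz_diag_gcrudex {N : ℕ} (F : Fr N) (t : ℝ) (w : E (N + 1)) (j : Fin N) :
    inner ℝ (F.Mv t w j) (F.Mv t w j) =
      t ^ 2 * F.c j ^ 2 + 2 * t * inner ℝ w F.x * (F.c j * F.s j * inner ℝ (F.q j) (F.g j)) -
      2 * t * (F.c j * F.s j) * (inner ℝ w (F.g j) * inner ℝ (F.q j) F.x) +
      F.s j ^ 2 * (inner ℝ w F.x ^ 2 + inner ℝ w (F.g j) ^ 2) := by
  unfold Fr.Mv
  have h1 : inner ℝ (F.q j) (F.q j) = (1:ℝ) := by
    rw [real_inner_self_eq_norm_sq, F.hq.1 j]; norm_num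
  have h2 : inner ℝ (F.g j) (F.g j) = (1:ℝ) := by
    rw [real_inner_self_eq_norm_sq, F.hg.1 j]; norm_num
  have h3 : inner ℝ F.x F.x = (1:ℝ) := by
    rw [real_inner_self_eq_norm_sq, F.hx]; norm_num
  have h4 : inner ℝ (F.g j) F.x = (0:ℝ) := F.hgx j
  have h5 : inner ℝ F.x (F.g j) = (0:ℝ) := by rw [real_inner_comm]; exact h4
  have h6 : inner ℝ (F.g j) (F.q j) = (inner ℝ (F.q j) (F.g j) : ℝ) := real_inner_comm _ _
  have h7 : inner ℝ F.x (F.q j) = (inner ℝ (F.q j) F.x : ℝ) := real_inner_comm _ _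
  simp only [inner_add_left, inner_add_right, inner_sub_left, inner_sub_right,
    real_inner_smul_left, real_inner_smul_right, h1, h2, h3, h4, h5, h6, h7]
  ring

/-- one dimensional Gaussian -/
theorem zz_g1_gcrudex (b : ℝ) (hb : 0 < b) :
    ∫⁻ s : ℝ, ENNReal.ofReal (Real.exp (-b * s ^ 2)) = ENNReal.ofReal (Real.sqrt (Real.pi / b)) := by
  rw [← integral_gaussian b, ofReal_integral_eq_lintegral_ofReal (integrable_exp_neg_mul_sq hb)
    (Filter.Eventually.of_forall fun s => (Real.exp_pos _).le)]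

theorem zz_gm_gcrudex (m : ℕ) (b : ℝ) (hb : 0 < b) :
    ∫⁻ y : E (2 * m), ENNReal.ofReal (Real.exp (-b * ‖y‖ ^ 2)) =
      ENNReal.ofReal ((Real.pi / b) ^ m) := by
  have h1 : ∫ v : E (2 * m), Real.exp (-b * ‖v‖ ^ 2) = (Real.pi / b) ^ m := by
    rw [GaussianFourier.integral_rexp_neg_mul_sq_norm hb]
    rw [finrank_euclideanSpace_fin, ← Real.rpow_natCast]
    congr 1
    push_cast
    ring
  have hpos : 0 < (Real.pi / b) ^ m := by positivity
  have hint : Integrable (fun v : E (2 * m) => Real.exp (-b * ‖v‖ ^ 2)) := by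
    by_contra hcon
    rw [integral_undef hcon] at h1
    linarith
  rw [← h1, ofReal_integral_eq_lintegral_ofReal hint
    (Filter.Eventually.of_forall fun s => (Real.exp_pos _).le)]


theorem zz_trace_gcrudex {N : ℕ} (F : Fr N) (t : ℝ) (w : E (N + 1)) :
    (F.Gm t w).trace ≤ ((N : ℝ) - F.del + 1) * t ^ 2 + (F.del + 1) * inner ℝ w F.x ^ 2 +
      3 * (‖w‖ ^ 2 - inner ℝ w F.x ^ 2) := by
  have h0 : (F.Gm t w).trace = ∑ j, (inner ℝ (F.Mv t w j) (F.Mv t w j) + F.lv w j * F.lv w j) := by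
    simp [Matrix.trace, Fr.Gm]
  have hS1 : ∑ j, F.c j ^ 2 = (N : ℝ) - F.del := by
    have : ∑ j, (F.c j ^ 2 + F.s j ^ 2) = (N : ℝ) := by
      rw [Finset.sum_congr rfl (fun j _ => F.hcs j)]
      simp
    rw [Finset.sum_add_distrib] at this
    unfold Fr.del
    linarith
  have hb1 := zz_bessel_gcrudex F.q F.hq w
  have hb3 := zz_bessel_gcrudex F.q F.hq F.x
  rw [F.hx] at hb3
  have hb2 : ∑ j, (inner ℝ w (F.g j)) ^ 2 ≤ ‖w‖ ^ 2 - inner ℝ w F.x ^ 2 := by
    have h := zz_bessel_gcrudex F.g F.hg (w - (inner ℝ w F.x : ℝ) • F.x)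
    have e1 : ‖w - (inner ℝ w F.x : ℝ) • F.x‖ ^ 2 = ‖w‖ ^ 2 - inner ℝ w F.x ^ 2 := by
      rw [@norm_sub_sq_real, norm_smul, F.hx, real_inner_smul_right, Real.norm_eq_abs, mul_one,
        sq_abs]
      ring
    rw [e1] at h
    refine le_trans (le_of_eq ?_) h
    apply Finset.sum_congr rfl
    intro j _
    rw [inner_sub_left, real_inner_smul_left]
    have : inner ℝ F.x (F.g j) = (0:ℝ) := by rw [real_inner_comm]; exact F.hgx j
    rw [this, mul_zero, sub_zero]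
  have hlv : ∑ j, F.lv w j * F.lv w j ≤ ‖w‖ ^ 2 := by
    refine le_trans (Finset.sum_le_sum (fun j _ => ?_)) hb1
    unfold Fr.lv
    have h1 : F.c j ^ 2 ≤ 1 := by nlinarith [F.hcs j, sq_nonneg (F.s j)]
    have h2 : 0 ≤ (inner ℝ w (F.q j)) ^ 2 := sq_nonneg _
    nlinarith
  have hsg : ∑ j, F.s j ^ 2 * (inner ℝ w (F.g j)) ^ 2 ≤ ‖w‖ ^ 2 - inner ℝ w F.x ^ 2 := by
    refine le_trans (Finset.sum_le_sum (fun j _ => ?_)) hb2
    have h1 : F.s j ^ 2 ≤ 1 := by nlinarith [F.hcs j, sq_nonneg (F.c j)]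
    have h2 : 0 ≤ (inner ℝ w (F.g j)) ^ 2 := sq_nonneg _
    nlinarith
  have hcr : ∑ j, -(2 * t * (F.c j * F.s j) * (inner ℝ w (F.g j) * inner ℝ (F.q j) F.x)) ≤
      t ^ 2 + ∑ j, F.s j ^ 2 * (inner ℝ w (F.g j)) ^ 2 := by
    have h1 : ∑ j, -(2 * t * (F.c j * F.s j) * (inner ℝ w (F.g j) * inner ℝ (F.q j) F.x)) ≤
        ∑ j, (t ^ 2 * (inner ℝ F.x (F.q j)) ^ 2 + F.s j ^ 2 * (inner ℝ w (F.g j)) ^ 2) := by
      refine Finset.sum_le_sum (fun j _ => ?_)
      have h1 : F.c j ^ 2 ≤ 1 := by nlinarith [F.hcs j, sq_nonneg (F.s j)]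
      have h2 : inner ℝ F.x (F.q j) = (inner ℝ (F.q j) F.x : ℝ) := real_inner_comm _ _
      rw [h2]
      set P : ℝ := inner ℝ (F.q j) F.x
      set G : ℝ := inner ℝ w (F.g j)
      have h3 : 0 ≤ (t * P) ^ 2 * (1 - F.c j ^ 2) := mul_nonneg (sq_nonneg _) (by linarith)
      nlinarith [sq_nonneg (t * P * F.c j + F.s j * G)]
    rw [Finset.sum_add_distrib, ← Finset.mul_sum] at h1
    have h2 : t ^ 2 * ∑ j, (inner ℝ F.x (F.q j)) ^ 2 ≤ t ^ 2 * 1 :=
      mul_le_mul_of_nonneg_left (hb3.trans (by norm_num)) (sq_nonneg t)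
    linarith
  have hgam := F.hgam
  rw [h0, Finset.sum_add_distrib]
  have h1 : ∑ j, inner ℝ (F.Mv t w j) (F.Mv t w j) =
      t ^ 2 * ∑ j, F.c j ^ 2 + 2 * t * inner ℝ w F.x * ∑ j, (F.c j * F.s j * inner ℝ (F.q j) (F.g j)) +
      (∑ j, -(2 * t * (F.c j * F.s j) * (inner ℝ w (F.g j) * inner ℝ (F.q j) F.x))) +
      (F.del * inner ℝ w F.x ^ 2 + ∑ j, F.s j ^ 2 * (inner ℝ w (F.g j)) ^ 2) := by
    unfold Fr.del
    rw [Finset.mul_sum, Finset.mul_sum, Finset.sum_mul, ← Finset.sum_add_distrib,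
      ← Finset.sum_add_distrib, ← Finset.sum_add_distrib, ← Finset.sum_add_distrib]
    apply Finset.sum_congr rfl
    intro j _
    rw [zz_diag_gcrudex]
    ring
  rw [h1, hS1, hgam]
  nlinarith

theorem zz_FF_gcrudex {m : ℕ} (hm : 60 ≤ m) (F : Fr (2 * m)) (hd : ((2 * m : ℕ) : ℝ) / 6 ≤ F.del)
    (t : ℝ) (w : E (2 * m + 1)) :
    F.FF t w ≤ (101 / 120 * t ^ 2 + 61 / 120 * inner ℝ w F.x ^ 2 +
      3 / (2 * m) * (‖w‖ ^ 2 - inner ℝ w F.x ^ 2)) ^ m ∧
    0 ≤ 101 / 120 * t ^ 2 + 61 / 120 * inner ℝ w F.x ^ 2 +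
      3 / (2 * m) * (‖w‖ ^ 2 - inner ℝ w F.x ^ 2) := by
  have hm60 : (60 : ℝ) ≤ m := by exact_mod_cast hm
  have hm0 : (0 : ℝ) < 2 * m := by linarith
  have hN : 1 ≤ 2 * m := by omega
  obtain ⟨hd0, hd1⟩ := F.del_bd
  have hps := F.psd t w
  have h1 := zz_amgm_gcrudex hN (F.Gm t w) hps
  have h2 := zz_trace_gcrudex F t w
  push_cast at h1 h2 hd1 hd
  set q : ℝ := 101 / 120 * t ^ 2 + 61 / 120 * inner ℝ w F.x ^ 2 +
      3 / (2 * m) * (‖w‖ ^ 2 - inner ℝ w F.x ^ 2) with hq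
  have h3 : (F.Gm t w).trace / (2 * m) ≤ q := by
    rw [div_le_iff₀ hm0]
    have h4 : q * (2 * m) = (101 / 120 * (2 * m)) * t ^ 2 + (61 / 120 * (2 * m)) * inner ℝ w F.x ^ 2 +
        3 * (‖w‖ ^ 2 - inner ℝ w F.x ^ 2) := by
      rw [hq]
      field_simp
    rw [h4]
    have h5 : ((2 * m : ℝ) - F.del + 1) * t ^ 2 ≤ (101 / 120 * (2 * m)) * t ^ 2 :=
      mul_le_mul_of_nonneg_right (by linarith) (sq_nonneg t)
    have h6 : (F.del + 1) * inner ℝ w F.x ^ 2 ≤ (61 / 120 * (2 * m)) * inner ℝ w F.x ^ 2 :=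
      mul_le_mul_of_nonneg_right (by linarith) (sq_nonneg _)
    linarith
  have h5 : (F.Gm t w).det ≤ (q ^ m) ^ 2 := by
    calc (F.Gm t w).det ≤ ((F.Gm t w).trace / (2 * m)) ^ (2 * m) := by simpa using h1.1
      _ ≤ q ^ (2 * m) := pow_le_pow_left₀ (by simpa using h1.2) h3 _
      _ = (q ^ m) ^ 2 := by rw [← pow_mul, mul_comm]
  have hq0 : 0 ≤ q := (by simpa using h1.2 : (0:ℝ) ≤ (F.Gm t w).trace / (2 * m)).trans h3
  refine ⟨?_, hq0⟩
  unfold Fr.FF
  rw [Real.sqrt_le_iff]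
  exact ⟨by positivity, h5⟩

theorem zz_pow_gcrudex (m : ℕ) (z : ℝ) (hz : 0 ≤ z) :
    z ^ m ≤ (m.factorial : ℝ) * (17 / 10) ^ m * Real.exp (10 / 17 * z) := by
  have h := Real.pow_div_factorial_le_exp (10 / 17 * z) (by positivity) m
  have hf : (0:ℝ) < (m.factorial : ℝ) := by exact_mod_cast m.factorial_pos
  rw [div_le_iff₀ hf] at h
  have e : z ^ m = (17 / 10) ^ m * (10 / 17 * z) ^ m := by
    rw [← mul_pow]; congr 1; ring
  rw [e]
  calc (17 / 10 : ℝ) ^ m * (10 / 17 * z) ^ m ≤ (17 / 10 : ℝ) ^ m * (Real.exp (10 / 17 * z) * m.factorial) :=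
        mul_le_mul_of_nonneg_left h (by positivity)
    _ = _ := by ring

theorem zz_G_gcrudex (m : ℕ) (x : E (2 * m + 1)) (hx : ‖x‖ = 1) (b g : ℝ) (hb : 0 < b) (hg : 0 < g) :
    ∫⁻ w : E (2 * m + 1), ENNReal.ofReal (Real.exp (-(b * inner ℝ w x ^ 2 +
      g * (‖w‖ ^ 2 - inner ℝ w x ^ 2)))) =
      ENNReal.ofReal (Real.sqrt (Real.pi / b) * (Real.pi / g) ^ m) := by
  obtain ⟨ι, hι1, -, hmp⟩ := D0 (k := 2 * m) x hx
  have hmeas : Measurable (fun w : E (2 * m + 1) => ENNReal.ofReal (Real.exp (-(b * inner ℝ w x ^ 2 +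
      g * (‖w‖ ^ 2 - inner ℝ w x ^ 2))))) := by
    apply Measurable.ennreal_ofReal
    apply Continuous.measurable
    fun_prop
  rw [← hmp.lintegral_comp hmeas]
  have h3 : ∀ p : ℝ × E (2 * m), ENNReal.ofReal (Real.exp (-(b * inner ℝ (p.1 • x + ι p.2) x ^ 2 +
      g * (‖p.1 • x + ι p.2‖ ^ 2 - inner ℝ (p.1 • x + ι p.2) x ^ 2)))) =
      ENNReal.ofReal (Real.exp (-b * p.1 ^ 2)) *
        ENNReal.ofReal (Real.exp (-g * ‖p.2‖ ^ 2)) := by
    intro p
    have hin : inner ℝ (p.1 • x + ι p.2) x = p.1 := by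
      rw [real_inner_comm, inner_add_right, real_inner_smul_right, real_inner_self_eq_norm_sq, hx, hι1]
      ring
    have hno : ‖p.1 • x + ι p.2‖ ^ 2 = p.1 ^ 2 + ‖p.2‖ ^ 2 := by
      rw [@norm_add_sq_real, norm_smul, hx, ι.norm_map, real_inner_smul_left, hι1,
        Real.norm_eq_abs]
      simp
    rw [hin, hno, ← ENNReal.ofReal_mul (Real.exp_pos _).le, ← Real.exp_add]
    congr 2
    ring
  simp only [h3]
  rw [lintegral_prod_mul (f := fun s : ℝ => ENNReal.ofReal (Real.exp (-b * s ^ 2)))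
    (g := fun y : E (2 * m) => ENNReal.ofReal (Real.exp (-g * ‖y‖ ^ 2))), zz_g1_gcrudex _ hb,
    zz_gm_gcrudex _ _ hg, ENNReal.ofReal_mul (Real.sqrt_nonneg _)]
  · exact (Continuous.measurable (by fun_prop)).ennreal_ofReal.aemeasurable
  · exact (Continuous.measurable (by fun_prop)).ennreal_ofReal.aemeasurable

theorem zz_M_gcrudex (m : ℕ) :
    ∫⁻ t : ℝ, ENNReal.ofReal (t ^ (2 * m) * gt t) =
      ENNReal.ofReal (2 ^ m * Real.sqrt 2 * Real.Gamma ((m : ℝ) + 1 / 2)) := by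
  have hq : (-1 : ℝ) < ((2 * m : ℕ) : ℝ) := by
    have : (0:ℝ) ≤ ((2 * m : ℕ) : ℝ) := Nat.cast_nonneg _
    linarith
  have hint : Integrable (fun t : ℝ => t ^ (2 * m) * gt t) := by
    have h := integrable_rpow_mul_exp_neg_mul_sq (b := 1 / 2) (by norm_num) (s := ((2 * m : ℕ) : ℝ)) hq
    refine h.congr (Filter.Eventually.of_forall fun t => ?_)
    simp only [Real.rpow_natCast, gt]
    congr 2
    ring
  rw [← ofReal_integral_eq_lintegral_ofReal hint (Filter.Eventually.of_forall fun t => by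
    show 0 ≤ t ^ (2 * m) * gt t
    have : 0 ≤ t ^ (2 * m) := (even_two_mul m).pow_nonneg t
    unfold gt
    positivity)]
  congr 1
  have h1 : ∫ t : ℝ, t ^ (2 * m) * gt t =
      2 * ∫ t in Ioi (0:ℝ), t ^ (2 * m) * gt t := by
    rw [← integral_comp_abs (f := fun t => t ^ (2 * m) * gt t)]
    congr 1
    funext t
    simp only [gt, sq_abs, (even_two_mul m).pow_abs]
  have h2 : ∫ t in Ioi (0:ℝ), t ^ (2 * m) * gt t =
      (1 / 2) * (2 ^ m * Real.sqrt 2 * Real.Gamma ((m : ℝ) + 1 / 2)) := by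
    have h := integral_rpow_mul_exp_neg_mul_rpow (p := 2) (q := ((2 * m : ℕ) : ℝ)) (b := 1 / 2)
      (by norm_num) hq (by norm_num)
    have h3 : ∫ t in Ioi (0:ℝ), t ^ (2 * m) * gt t =
        ∫ x in Ioi (0:ℝ), x ^ ((2 * m : ℕ) : ℝ) * Real.exp (-(1 / 2) * x ^ (2:ℝ)) := by
      congr 1
      funext t
      rw [Real.rpow_natCast]
      unfold gt
      congr 2
      rw [Real.rpow_two]
      ring
    rw [h3, h]
    have e1 : ((1 / 2 : ℝ)) ^ (-((((2 * m : ℕ) : ℝ)) + 1) / 2) = 2 ^ m * Real.sqrt 2 := by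
      rw [one_div, Real.inv_rpow (by norm_num), ← Real.rpow_neg (by norm_num)]
      have e2 : -(-((((2 * m : ℕ) : ℝ)) + 1) / 2) = (m : ℝ) + 1 / 2 := by
        push_cast; ring
      rw [e2, Real.rpow_add (by norm_num), Real.rpow_natCast, Real.sqrt_eq_rpow]
    have e3 : ((((2 * m : ℕ) : ℝ)) + 1) / 2 = (m : ℝ) + 1 / 2 := by
      push_cast; ring
    rw [e1, e3]
    ring
  rw [h1, h2]
  ring

theorem zz_Gam_gcrudex (m : ℕ) (hm : 1 ≤ m) :
    Real.sqrt Real.pi * (m.factorial : ℝ) ≤ Real.Gamma ((m : ℝ) + 1 / 2) * (2 * m) := by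
  induction m, hm using Nat.le_induction with
  | base =>
    have h : Real.Gamma ((1 : ℕ) + 1 / 2 : ℝ) = 1 / 2 * Real.sqrt Real.pi := by
      have h1 := Real.Gamma_add_one (s := 1 / 2) (by norm_num)
      rw [Real.Gamma_one_half_eq] at h1
      rw [← h1]
      norm_num
    rw [h]
    norm_num
    linarith
  | succ n hn ih =>
    have hn0 : (0:ℝ) < n := by
      have : 0 < n := hn
      exact_mod_cast this
    have h1 : Real.Gamma (((n + 1 : ℕ) : ℝ) + 1 / 2) = ((n : ℝ) + 1 / 2) * Real.Gamma ((n : ℝ) + 1 / 2) := by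
      rw [← Real.Gamma_add_one (by positivity)]
      congr 1
      push_cast
      ring
    have hG : 0 < Real.Gamma ((n : ℝ) + 1 / 2) := Real.Gamma_pos_of_pos (by positivity)
    rw [h1, Nat.factorial_succ]
    push_cast
    have h2 : Real.sqrt Real.pi * (((n : ℝ) + 1) * (n.factorial : ℝ)) =
        ((n : ℝ) + 1) * (Real.sqrt Real.pi * (n.factorial : ℝ)) := by ring
    rw [h2]
    have h3 : ((n : ℝ) + 1) * (Real.sqrt Real.pi * (n.factorial : ℝ)) ≤
        ((n : ℝ) + 1) * (Real.Gamma ((n : ℝ) + 1 / 2) * (2 * n)) :=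
      mul_le_mul_of_nonneg_left ih (by positivity)
    nlinarith

theorem zz_num_gcrudex (m : ℕ) (hm : 60 ≤ m) : 236 * (m : ℝ) ≤ (20 / 17 : ℝ) ^ m := by
  induction m, hm using Nat.le_induction with
  | base => norm_num
  | succ n hn ih =>
    have hn0 : (60:ℝ) ≤ n := by exact_mod_cast hn
    rw [pow_succ]
    push_cast
    nlinarith

theorem zz_y_gcrudex (m : ℕ) (hm : 60 ≤ m) :
    (Real.pi / (1 / 2 - 15 / (17 * m))) ^ m ≤ 7.4 * (2 * Real.pi) ^ m := by
  have hm60 : (60 : ℝ) ≤ m := by exact_mod_cast hm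
  have hm0 : (0 : ℝ) < m := by linarith
  obtain ⟨y, hy⟩ : ∃ y : ℝ, y = 30 / (17 * m) := ⟨_, rfl⟩
  have hy0 : 0 < y := by rw [hy]; positivity
  have hy1 : y ≤ 1 / 34 := by
    rw [hy, div_le_div_iff₀ (by positivity) (by norm_num)]
    linarith
  have hmy : m * y = 30 / 17 := by
    rw [hy]; field_simp
  have h1y : 0 < 1 - y := by linarith
  have e1 : Real.pi / (1 / 2 - 15 / (17 * m)) = 2 * Real.pi * (1 / (1 - y)) := by
    have : (1 / 2 - 15 / (17 * m) : ℝ) = (1 - y) / 2 := by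
      rw [hy]; field_simp; ring
    rw [this]
    field_simp
  rw [e1, mul_pow]
  have h2 : (1 / (1 - y)) ^ m ≤ 7.4 := by
    have h3 : 1 / (1 - y) ≤ Real.exp (y / (1 - y)) := by
      have := Real.add_one_le_exp (y / (1 - y))
      have h4 : y / (1 - y) + 1 = 1 / (1 - y) := by field_simp; ring
      linarith
    have h5 : (1 / (1 - y)) ^ m ≤ Real.exp (m * (y / (1 - y))) := by
      rw [Real.exp_nat_mul]
      exact pow_le_pow_left₀ (by positivity) h3 m
    have h6 : m * (y / (1 - y)) ≤ 2 := by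
      rw [← mul_div_assoc, hmy, div_le_iff₀ h1y]
      linarith
    have h7 : Real.exp 2 ≤ 7.4 := by
      have h8 : Real.exp 2 = Real.exp 1 * Real.exp 1 := by rw [← Real.exp_add]; norm_num
      have h9 := Real.exp_one_lt_d9
      have h10 := Real.exp_pos 1
      rw [h8]
      nlinarith
    exact h5.trans ((Real.exp_le_exp.mpr h6).trans h7)
  have h0 : (0:ℝ) ≤ (2 * Real.pi) ^ m := by positivity
  nlinarith

theorem zz_final_gcrudex (m : ℕ) (hm : 60 ≤ m) :
    ((m.factorial : ℝ) * (17 / 10) ^ m * Real.sqrt (Real.pi / (1 / 204))) *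
      (Real.sqrt (Real.pi / (41 / 204)) * (Real.pi / (1 / 2 - 15 / (17 * m))) ^ m) ≤
    (2 ^ m * Real.sqrt 2 * Real.Gamma ((m : ℝ) + 1 / 2)) *
      (Real.sqrt (Real.pi / (1 / 2)) * (Real.pi / (1 / 2)) ^ m) := by
  have hm60 : (60 : ℝ) ≤ m := by exact_mod_cast hm
  have hm0 : (0 : ℝ) < m := by linarith
  have hpi := Real.pi_pos
  have hfac : (0:ℝ) < (m.factorial : ℝ) := by exact_mod_cast m.factorial_pos
  have h1 : Real.sqrt (Real.pi / (1 / 204)) * Real.sqrt (Real.pi / (41 / 204)) ≤ 31.875 * Real.pi := by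
    rw [← Real.sqrt_mul (by positivity), Real.sqrt_le_left (by positivity)]
    have : Real.pi / (1 / 204) * (Real.pi / (41 / 204)) = 41616 / 41 * Real.pi ^ 2 := by
      ring
    rw [this]
    nlinarith [sq_nonneg Real.pi]
  have h2 := zz_y_gcrudex m hm
  have h3 : Real.sqrt 2 * Real.sqrt (Real.pi / (1 / 2)) = 2 * Real.sqrt Real.pi := by
    rw [← Real.sqrt_mul (by norm_num)]
    have : 2 * (Real.pi / (1 / 2)) = 2 ^ 2 * Real.pi := by ring
    rw [this, Real.sqrt_mul (by norm_num), Real.sqrt_sq (by norm_num)]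
  have h4 := zz_Gam_gcrudex m (by omega)
  have h5 := zz_num_gcrudex m hm
  have hsp : Real.sqrt Real.pi * Real.sqrt Real.pi = Real.pi := Real.mul_self_sqrt hpi.le
  have e2 : Real.pi / (1 / 2) = 2 * Real.pi := by ring
  have e3 : (20 / 17 : ℝ) ^ m * (17 / 10) ^ m = 2 ^ m := by
    rw [← mul_pow]; norm_num
  have hA : 0 ≤ (Real.pi / (1 / 2 - 15 / (17 * (m : ℝ)))) ^ m := by
    have : (0:ℝ) < 1 / 2 - 15 / (17 * m) := by
      have : (15:ℝ) / (17 * m) ≤ 1 / 68 := by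
        rw [div_le_div_iff₀ (by positivity) (by norm_num)]; linarith
      linarith
    positivity
  -- left side
  have hL : ((m.factorial : ℝ) * (17 / 10) ^ m * Real.sqrt (Real.pi / (1 / 204))) *
      (Real.sqrt (Real.pi / (41 / 204)) * (Real.pi / (1 / 2 - 15 / (17 * m))) ^ m) ≤
      ((m.factorial : ℝ) * (17 / 10) ^ m) * ((31.875 * Real.pi) * (7.4 * (2 * Real.pi) ^ m)) := by
    calc ((m.factorial : ℝ) * (17 / 10) ^ m * Real.sqrt (Real.pi / (1 / 204))) *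
      (Real.sqrt (Real.pi / (41 / 204)) * (Real.pi / (1 / 2 - 15 / (17 * m))) ^ m) =
        ((m.factorial : ℝ) * (17 / 10) ^ m) *
          ((Real.sqrt (Real.pi / (1 / 204)) * Real.sqrt (Real.pi / (41 / 204))) *
          (Real.pi / (1 / 2 - 15 / (17 * m))) ^ m) := by ring
      _ ≤ _ := by
        apply mul_le_mul_of_nonneg_left _ (by positivity)
        exact mul_le_mul h1 h2 hA (by positivity)
  refine hL.trans ?_
  -- right side
  have hR : (2 ^ m * Real.sqrt 2 * Real.Gamma ((m : ℝ) + 1 / 2)) *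
      (Real.sqrt (Real.pi / (1 / 2)) * (Real.pi / (1 / 2)) ^ m) =
      2 ^ m * (2 * Real.sqrt Real.pi) * Real.Gamma ((m : ℝ) + 1 / 2) * (2 * Real.pi) ^ m := by
    rw [← h3, e2]; ring
  rw [hR]
  have hG : Real.sqrt Real.pi * (m.factorial : ℝ) / (2 * m) ≤ Real.Gamma ((m : ℝ) + 1 / 2) := by
    rw [div_le_iff₀ (by positivity)]; exact h4
  have hR2 : 2 ^ m * (2 * Real.sqrt Real.pi) * (Real.sqrt Real.pi * (m.factorial : ℝ) / (2 * m)) *
      (2 * Real.pi) ^ m ≤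
      2 ^ m * (2 * Real.sqrt Real.pi) * Real.Gamma ((m : ℝ) + 1 / 2) * (2 * Real.pi) ^ m := by
    apply mul_le_mul_of_nonneg_right _ (by positivity)
    exact mul_le_mul_of_nonneg_left hG (by positivity)
  refine le_trans ?_ hR2
  have e4 : 2 ^ m * (2 * Real.sqrt Real.pi) * (Real.sqrt Real.pi * (m.factorial : ℝ) / (2 * m)) *
      (2 * Real.pi) ^ m = ((m.factorial : ℝ) * (17 / 10) ^ m) * (((20 / 17) ^ m / m) * (Real.pi * (2 * Real.pi) ^ m)) := by
    rw [← e3]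
    field_simp
    rw [Real.sq_sqrt hpi.le]
  rw [e4]
  apply mul_le_mul_of_nonneg_left _ (by positivity)
  have h6 : 236 ≤ (20 / 17 : ℝ) ^ m / m := by
    rw [le_div_iff₀ hm0]; exact h5
  have h7 : 31.875 * Real.pi * (7.4 * (2 * Real.pi) ^ m) = 235.875 * (Real.pi * (2 * Real.pi) ^ m) := by
    ring
  rw [h7]
  exact mul_le_mul_of_nonneg_right (by linarith) (by positivity)

theorem gcrude {m : ℕ} (hm : 60 ≤ m) (F : Fr (2 * m)) (hd : ((2 * m : ℕ) : ℝ) / 6 ≤ F.del) : GCoreF F := by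
  have hm60 : (60 : ℝ) ≤ m := by exact_mod_cast hm
  have hm0 : (0 : ℝ) < m := by linarith
  have hgpos : (0:ℝ) < 1 / 2 - 15 / (17 * m) := by
    have : (15:ℝ) / (17 * m) ≤ 1 / 68 := by
      rw [div_le_div_iff₀ (by positivity) (by norm_num)]; linarith
    linarith
  unfold GCoreF
  -- pointwise bound of the integrand on the left
  have hpt : ∀ (w : E (2 * m + 1)) (t : ℝ), ENNReal.ofReal (F.FF t w * gt t * gw w) ≤
      ENNReal.ofReal ((m.factorial : ℝ) * (17 / 10) ^ m) *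
        ENNReal.ofReal (Real.exp (-(1 / 204) * t ^ 2)) *
        ENNReal.ofReal (Real.exp (-(41 / 204 * inner ℝ w F.x ^ 2 +
          (1 / 2 - 15 / (17 * m)) * (‖w‖ ^ 2 - inner ℝ w F.x ^ 2)))) := by
    intro w t
    rw [← ENNReal.ofReal_mul (by positivity), ← ENNReal.ofReal_mul (by positivity)]
    apply ENNReal.ofReal_le_ofReal
    obtain ⟨h1, h2⟩ := zz_FF_gcrudex hm F hd t w
    have h3 := h1.trans (zz_pow_gcrudex m _ h2)
    have hgt : 0 ≤ gt t := (Real.exp_pos _).le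
    have hgw : 0 ≤ gw w := (Real.exp_pos _).le
    refine (mul_le_mul_of_nonneg_right (mul_le_mul_of_nonneg_right h3 hgt) hgw).trans (le_of_eq ?_)
    unfold gt gw
    rw [mul_assoc ((m.factorial : ℝ) * (17 / 10) ^ m), mul_assoc ((m.factorial : ℝ) * (17 / 10) ^ m),
      mul_assoc ((m.factorial : ℝ) * (17 / 10) ^ m), ← Real.exp_add, ← Real.exp_add, ← Real.exp_add]
    congr 2
    field_simp
    ring
  have hL : ∫⁻ w : E (2 * m + 1), (∫⁻ t : ℝ, ENNReal.ofReal (F.FF t w * gt t * gw w)) ≤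
      ENNReal.ofReal (((m.factorial : ℝ) * (17 / 10) ^ m * Real.sqrt (Real.pi / (1 / 204))) *
      (Real.sqrt (Real.pi / (41 / 204)) * (Real.pi / (1 / 2 - 15 / (17 * m))) ^ m)) := by
    refine (lintegral_mono fun w => lintegral_mono fun t => hpt w t).trans (le_of_eq ?_)
    have h1 : ∀ w : E (2 * m + 1), ∫⁻ t : ℝ, ENNReal.ofReal ((m.factorial : ℝ) * (17 / 10) ^ m) *
        ENNReal.ofReal (Real.exp (-(1 / 204) * t ^ 2)) *
        ENNReal.ofReal (Real.exp (-(41 / 204 * inner ℝ w F.x ^ 2 +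
          (1 / 2 - 15 / (17 * m)) * (‖w‖ ^ 2 - inner ℝ w F.x ^ 2)))) =
        ENNReal.ofReal ((m.factorial : ℝ) * (17 / 10) ^ m * Real.sqrt (Real.pi / (1 / 204))) *
        ENNReal.ofReal (Real.exp (-(41 / 204 * inner ℝ w F.x ^ 2 +
          (1 / 2 - 15 / (17 * m)) * (‖w‖ ^ 2 - inner ℝ w F.x ^ 2)))) := by
      intro w
      rw [lintegral_mul_const _ (by
        apply Measurable.const_mul
        exact (Continuous.measurable (by fun_prop)).ennreal_ofReal), lintegral_const_mul _ (by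
        exact (Continuous.measurable (by fun_prop)).ennreal_ofReal), zz_g1_gcrudex _ (by norm_num),
        ← ENNReal.ofReal_mul (by positivity)]
    simp only [h1]
    rw [lintegral_const_mul _ (by
        exact (Continuous.measurable (by fun_prop)).ennreal_ofReal), zz_G_gcrudex m F.x F.hx _ _ (by norm_num) hgpos,
        ← ENNReal.ofReal_mul (by positivity)]
  refine hL.trans ((ENNReal.ofReal_le_ofReal (zz_final_gcrudex m hm)).trans ?_)
  have hPsi : ∀ w : E (2 * m + 1), ENNReal.ofReal (2 ^ m * Real.sqrt 2 * Real.Gamma ((m : ℝ) + 1 / 2)) ≤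
      Psi (2 * m) (F.u2 w) := by
    intro w
    rw [← zz_M_gcrudex m]
    unfold Psi
    apply lintegral_mono
    intro t
    apply ENNReal.ofReal_le_ofReal
    have hu : 0 ≤ F.u2 w := Finset.sum_nonneg fun j _ => sq_nonneg _
    have h1 : |t| ≤ Real.sqrt (t ^ 2 + F.u2 w) := by
      rw [← Real.sqrt_sq_eq_abs]
      exact Real.sqrt_le_sqrt (by linarith)
    have h2 : t ^ (2 * m) = |t| * |t| ^ (2 * m - 1) := by
      rw [← pow_succ', Nat.sub_add_cancel (by omega), (even_two_mul m).pow_abs]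
    have hgt : 0 ≤ gt t := (Real.exp_pos _).le
    rw [h2]
    exact mul_le_mul_of_nonneg_right (mul_le_mul_of_nonneg_right h1 (by positivity)) hgt
  have hgw : ∫⁻ w : E (2 * m + 1), ENNReal.ofReal (gw w) =
      ENNReal.ofReal (Real.sqrt (Real.pi / (1 / 2)) * (Real.pi / (1 / 2)) ^ m) := by
    rw [← zz_G_gcrudex m F.x F.hx (1 / 2) (1 / 2) (by norm_num) (by norm_num)]
    congr 1
    funext w
    unfold gw
    congr 2
    ring
  have hGpos : 0 < Real.Gamma ((m : ℝ) + 1 / 2) := Real.Gamma_pos_of_pos (by positivity)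
  calc ENNReal.ofReal ((2 ^ m * Real.sqrt 2 * Real.Gamma ((m : ℝ) + 1 / 2)) *
      (Real.sqrt (Real.pi / (1 / 2)) * (Real.pi / (1 / 2)) ^ m)) =
      ENNReal.ofReal (2 ^ m * Real.sqrt 2 * Real.Gamma ((m : ℝ) + 1 / 2)) *
        ∫⁻ w : E (2 * m + 1), ENNReal.ofReal (gw w) := by
        rw [hgw, ENNReal.ofReal_mul (by positivity)]
    _ = ∫⁻ w : E (2 * m + 1), ENNReal.ofReal (2 ^ m * Real.sqrt 2 * Real.Gamma ((m : ℝ) + 1 / 2)) *
        ENNReal.ofReal (gw w) := by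
        rw [lintegral_const_mul]
        unfold gw
        exact (Continuous.measurable (by fun_prop)).ennreal_ofReal
    _ ≤ _ := lintegral_mono fun w => mul_le_mul_left (hPsi w) _



end Pool.Agent.Helper82.OS
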