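import Mathlib
import Pool.Agent.Helper82.OS.gcrude
import Pool.Agent.Helper82.OS.Defs
import Pool.Agent.Helper82.OS.Defs2
import Pool.Agent.Helper82.OS.Defs3
import Pool.Agent.Helper82.OS.D0
import Pool.Agent.Helper82.OS.ray
import Pool.Agent.Helper82.OS.trc
set_option autoImplicit false
open Matrix MeasureTheory Set Metric Filter Topology
open scoped ENNReal ContDiff

namespace Pool.Agent.Helper82.OS

theorem zz_final2 (m : ℕ) (hm : 60 ≤ m) :
    ((m.factorial : ℝ) * (17 / 10) ^ m * Real.sqrt (Real.pi / (1 / 204))) *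
      (Real.sqrt (Real.pi / (41 / 204)) * (Real.pi / (1 / 2 - 15 / (17 * m))) ^ m) ≤
    0.9995 * ((2 ^ m * Real.sqrt 2 * Real.Gamma ((m : ℝ) + 1 / 2)) *
      (Real.sqrt (Real.pi / (1 / 2)) * (Real.pi / (1 / 2)) ^ m)) := by
  have hm60 : (60 : ℝ) ≤ m := by exact_mod_cast hm
  have hm0 : (0 : ℝ) < m := by linarith
  have hpi := Real.pi_pos
  have hfac : (0:ℝ) < (m.factorial : ℝ) := by exact_mod_cast m.factorial_pos
  have h1 : Real.sqrt (Real.pi / (1 / 204)) * Real.sqrt (Real.pi / (41 / 204)) ≤ 31.875 * Real.pi := by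
    rw [← Real.sqrt_mul (by positivity), Real.sqrt_le_left (by positivity)]
    have : Real.pi / (1 / 204) * (Real.pi / (41 / 204)) = 41616 / 41 * Real.pi ^ 2 := by
      ring
    rw [this]
    nlinarith [sq_nonneg Real.pi]
  have h2 := zz_y_gcrudex m hm
  have h3 : Real.sqrt 2 * Real.sqrt (Real.pi / (1 / 2)) = 2 * Real.sqrt Real.pi := by
    rw [← Real.sqrt_mul (by norm_num)]
    have : 2 * (Real.pi / (1 / 2)) = 2 ^ 2 * Real.pi := by ring
    rw [this, Real.sqrt_mul (by norm_num), Real.sqrt_sq (by norm_num)]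
  have h4 := zz_Gam_gcrudex m (by omega)
  have h5 := zz_num_gcrudex m hm
  have hsp : Real.sqrt Real.pi * Real.sqrt Real.pi = Real.pi := Real.mul_self_sqrt hpi.le
  have e2 : Real.pi / (1 / 2) = 2 * Real.pi := by ring
  have e3 : (20 / 17 : ℝ) ^ m * (17 / 10) ^ m = 2 ^ m := by
    rw [← mul_pow]; norm_num
  have hA : 0 ≤ (Real.pi / (1 / 2 - 15 / (17 * (m : ℝ)))) ^ m := by
    have : (0:ℝ) < 1 / 2 - 15 / (17 * m) := by
      have : (15:ℝ) / (17 * m) ≤ 1 / 68 := by
        rw [div_le_div_iff₀ (by positivity) (by norm_num)]; linarith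
      linarith
    positivity
  -- left side
  have hL : ((m.factorial : ℝ) * (17 / 10) ^ m * Real.sqrt (Real.pi / (1 / 204))) *
      (Real.sqrt (Real.pi / (41 / 204)) * (Real.pi / (1 / 2 - 15 / (17 * m))) ^ m) ≤
      ((m.factorial : ℝ) * (17 / 10) ^ m) * ((31.875 * Real.pi) * (7.4 * (2 * Real.pi) ^ m)) := by
    calc ((m.factorial : ℝ) * (17 / 10) ^ m * Real.sqrt (Real.pi / (1 / 204))) *
      (Real.sqrt (Real.pi / (41 / 204)) * (Real.pi / (1 / 2 - 15 / (17 * m))) ^ m) =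
        ((m.factorial : ℝ) * (17 / 10) ^ m) *
          ((Real.sqrt (Real.pi / (1 / 204)) * Real.sqrt (Real.pi / (41 / 204))) *
          (Real.pi / (1 / 2 - 15 / (17 * m))) ^ m) := by ring
      _ ≤ _ := by
        apply mul_le_mul_of_nonneg_left _ (by positivity)
        exact mul_le_mul h1 h2 hA (by positivity)
  refine hL.trans ?_
  -- right side
  have hR : (2 ^ m * Real.sqrt 2 * Real.Gamma ((m : ℝ) + 1 / 2)) *
      (Real.sqrt (Real.pi / (1 / 2)) * (Real.pi / (1 / 2)) ^ m) =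
      2 ^ m * (2 * Real.sqrt Real.pi) * Real.Gamma ((m : ℝ) + 1 / 2) * (2 * Real.pi) ^ m := by
    rw [← h3, e2]; ring
  rw [hR]
  have hG : Real.sqrt Real.pi * (m.factorial : ℝ) / (2 * m) ≤ Real.Gamma ((m : ℝ) + 1 / 2) := by
    rw [div_le_iff₀ (by positivity)]; exact h4
  have hR2 : 2 ^ m * (2 * Real.sqrt Real.pi) * (Real.sqrt Real.pi * (m.factorial : ℝ) / (2 * m)) *
      (2 * Real.pi) ^ m ≤
      2 ^ m * (2 * Real.sqrt Real.pi) * Real.Gamma ((m : ℝ) + 1 / 2) * (2 * Real.pi) ^ m := by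
    apply mul_le_mul_of_nonneg_right _ (by positivity)
    exact mul_le_mul_of_nonneg_left hG (by positivity)
  refine le_trans ?_ (mul_le_mul_of_nonneg_left hR2 (by norm_num : (0:ℝ) ≤ 0.9995))
  have e4 : 2 ^ m * (2 * Real.sqrt Real.pi) * (Real.sqrt Real.pi * (m.factorial : ℝ) / (2 * m)) *
      (2 * Real.pi) ^ m = ((m.factorial : ℝ) * (17 / 10) ^ m) * (((20 / 17) ^ m / m) * (Real.pi * (2 * Real.pi) ^ m)) := by
    rw [← e3]
    field_simp
    rw [Real.sq_sqrt hpi.le]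
  rw [e4, mul_left_comm (0.9995 : ℝ)]
  apply mul_le_mul_of_nonneg_left _ (by positivity)
  have h6 : 236 ≤ (20 / 17 : ℝ) ^ m / m := by
    rw [le_div_iff₀ hm0]; exact h5
  have h7 : 31.875 * Real.pi * (7.4 * (2 * Real.pi) ^ m) = 235.875 * (Real.pi * (2 * Real.pi) ^ m) := by
    ring
  rw [h7, ← mul_assoc (0.9995 : ℝ)]
  exact mul_le_mul_of_nonneg_right (by linarith) (by positivity)


theorem gcrude2 {m : ℕ} (hm : 60 ≤ m) (F : Fr (2 * m)) (hd : ((2 * m : ℕ) : ℝ) / 6 ≤ F.del) :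
    ∫⁻ w : E (2 * m + 1), (∫⁻ t : ℝ, ENNReal.ofReal (F.FF t w * gt t * gw w))
      ≤ ENNReal.ofReal 0.9995 *
        ∫⁻ w : E (2 * m + 1), Psi (2 * m) (F.u2 w) * ENNReal.ofReal (gw w) := by
  have hm60 : (60 : ℝ) ≤ m := by exact_mod_cast hm
  have hm0 : (0 : ℝ) < m := by linarith
  have hgpos : (0:ℝ) < 1 / 2 - 15 / (17 * m) := by
    have : (15:ℝ) / (17 * m) ≤ 1 / 68 := by
      rw [div_le_div_iff₀ (by positivity) (by norm_num)]; linarith
    linarith
  -- pointwise bound of the integrand on the left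
  have hpt : ∀ (w : E (2 * m + 1)) (t : ℝ), ENNReal.ofReal (F.FF t w * gt t * gw w) ≤
      ENNReal.ofReal ((m.factorial : ℝ) * (17 / 10) ^ m) *
        ENNReal.ofReal (Real.exp (-(1 / 204) * t ^ 2)) *
        ENNReal.ofReal (Real.exp (-(41 / 204 * inner ℝ w F.x ^ 2 +
          (1 / 2 - 15 / (17 * m)) * (‖w‖ ^ 2 - inner ℝ w F.x ^ 2)))) := by
    intro w t
    rw [← ENNReal.ofReal_mul (by positivity), ← ENNReal.ofReal_mul (by positivity)]
    apply ENNReal.ofReal_le_ofReal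
    obtain ⟨h1, h2⟩ := zz_FF_gcrudex hm F hd t w
    have h3 := h1.trans (zz_pow_gcrudex m _ h2)
    have hgt : 0 ≤ gt t := (Real.exp_pos _).le
    have hgw : 0 ≤ gw w := (Real.exp_pos _).le
    refine (mul_le_mul_of_nonneg_right (mul_le_mul_of_nonneg_right h3 hgt) hgw).trans (le_of_eq ?_)
    unfold gt gw
    rw [mul_assoc ((m.factorial : ℝ) * (17 / 10) ^ m), mul_assoc ((m.factorial : ℝ) * (17 / 10) ^ m),
      mul_assoc ((m.factorial : ℝ) * (17 / 10) ^ m), ← Real.exp_add, ← Real.exp_add, ← Real.exp_add]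
    congr 2
    field_simp
    ring
  have hL : ∫⁻ w : E (2 * m + 1), (∫⁻ t : ℝ, ENNReal.ofReal (F.FF t w * gt t * gw w)) ≤
      ENNReal.ofReal (((m.factorial : ℝ) * (17 / 10) ^ m * Real.sqrt (Real.pi / (1 / 204))) *
      (Real.sqrt (Real.pi / (41 / 204)) * (Real.pi / (1 / 2 - 15 / (17 * m))) ^ m)) := by
    refine (lintegral_mono fun w => lintegral_mono fun t => hpt w t).trans (le_of_eq ?_)
    have h1 : ∀ w : E (2 * m + 1), ∫⁻ t : ℝ, ENNReal.ofReal ((m.factorial : ℝ) * (17 / 10) ^ m) *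
        ENNReal.ofReal (Real.exp (-(1 / 204) * t ^ 2)) *
        ENNReal.ofReal (Real.exp (-(41 / 204 * inner ℝ w F.x ^ 2 +
          (1 / 2 - 15 / (17 * m)) * (‖w‖ ^ 2 - inner ℝ w F.x ^ 2)))) =
        ENNReal.ofReal ((m.factorial : ℝ) * (17 / 10) ^ m * Real.sqrt (Real.pi / (1 / 204))) *
        ENNReal.ofReal (Real.exp (-(41 / 204 * inner ℝ w F.x ^ 2 +
          (1 / 2 - 15 / (17 * m)) * (‖w‖ ^ 2 - inner ℝ w F.x ^ 2)))) := by
      intro w
      rw [lintegral_mul_const _ (by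
        apply Measurable.const_mul
        exact (Continuous.measurable (by fun_prop)).ennreal_ofReal), lintegral_const_mul _ (by
        exact (Continuous.measurable (by fun_prop)).ennreal_ofReal), zz_g1_gcrudex _ (by norm_num),
        ← ENNReal.ofReal_mul (by positivity)]
    simp only [h1]
    rw [lintegral_const_mul _ (by
        exact (Continuous.measurable (by fun_prop)).ennreal_ofReal), zz_G_gcrudex m F.x F.hx _ _ (by norm_num) hgpos,
        ← ENNReal.ofReal_mul (by positivity)]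
  refine hL.trans ((ENNReal.ofReal_le_ofReal (zz_final2 m hm)).trans ?_)
  have hPsi : ∀ w : E (2 * m + 1), ENNReal.ofReal (2 ^ m * Real.sqrt 2 * Real.Gamma ((m : ℝ) + 1 / 2)) ≤
      Psi (2 * m) (F.u2 w) := by
    intro w
    rw [← zz_M_gcrudex m]
    unfold Psi
    apply lintegral_mono
    intro t
    apply ENNReal.ofReal_le_ofReal
    have hu : 0 ≤ F.u2 w := Finset.sum_nonneg fun j _ => sq_nonneg _
    have h1 : |t| ≤ Real.sqrt (t ^ 2 + F.u2 w) := by
      rw [← Real.sqrt_sq_eq_abs]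
      exact Real.sqrt_le_sqrt (by linarith)
    have h2 : t ^ (2 * m) = |t| * |t| ^ (2 * m - 1) := by
      rw [← pow_succ', Nat.sub_add_cancel (by omega), (even_two_mul m).pow_abs]
    have hgt : 0 ≤ gt t := (Real.exp_pos _).le
    rw [h2]
    exact mul_le_mul_of_nonneg_right (mul_le_mul_of_nonneg_right h1 (by positivity)) hgt
  have hgw : ∫⁻ w : E (2 * m + 1), ENNReal.ofReal (gw w) =
      ENNReal.ofReal (Real.sqrt (Real.pi / (1 / 2)) * (Real.pi / (1 / 2)) ^ m) := by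
    rw [← zz_G_gcrudex m F.x F.hx (1 / 2) (1 / 2) (by norm_num) (by norm_num)]
    congr 1
    funext w
    unfold gw
    congr 2
    ring
  have hGpos : 0 < Real.Gamma ((m : ℝ) + 1 / 2) := Real.Gamma_pos_of_pos (by positivity)
  rw [ENNReal.ofReal_mul (by norm_num : (0:ℝ) ≤ 0.9995)]
  refine mul_le_mul_right ?_ _
  calc ENNReal.ofReal ((2 ^ m * Real.sqrt 2 * Real.Gamma ((m : ℝ) + 1 / 2)) *
      (Real.sqrt (Real.pi / (1 / 2)) * (Real.pi / (1 / 2)) ^ m)) =
      ENNReal.ofReal (2 ^ m * Real.sqrt 2 * Real.Gamma ((m : ℝ) + 1 / 2)) *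
        ∫⁻ w : E (2 * m + 1), ENNReal.ofReal (gw w) := by
        rw [hgw, ENNReal.ofReal_mul (by positivity)]
    _ = ∫⁻ w : E (2 * m + 1), ENNReal.ofReal (2 ^ m * Real.sqrt 2 * Real.Gamma ((m : ℝ) + 1 / 2)) *
        ENNReal.ofReal (gw w) := by
        rw [lintegral_const_mul]
        unfold gw
        exact (Continuous.measurable (by fun_prop)).ennreal_ofReal
    _ ≤ _ := lintegral_mono fun w => mul_le_mul_left (hPsi w) _




end Pool.Agent.Helper82.OS
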