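import Mathlib
import Pool.Agent.Helper82.OS.Defs
import Pool.Agent.Helper82.OS.Defs2
import Pool.Agent.Helper82.OS.Defs3
import Pool.Agent.Helper82.OS.D0
import Pool.Agent.Helper82.OS.ray
import Pool.Agent.Helper82.OS.trc
set_option autoImplicit false
open Matrix MeasureTheory Set Metric Filter Topology
open scoped ENNReal ContDiff

namespace Pool.Agent.Helper82.OS
namespace Fr
variable {N : ℕ} (F : Fr N)

end Fr

theorem zz_amgm_glargex {N : ℕ} (hN : 1 ≤ N) (A : Matrix (Fin N) (Fin N) ℝ) (hA : A.PosSemidef) :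
    A.det ≤ (A.trace / N) ^ N ∧ 0 ≤ A.trace / N := by
  have hN0 : (0:ℝ) < N := by exact_mod_cast hN
  have hdet := hA.isHermitian.det_eq_prod_eigenvalues
  have htr := hA.isHermitian.trace_eq_sum_eigenvalues
  have hnn := hA.eigenvalues_nonneg
  generalize hA.isHermitian.eigenvalues = l at hdet htr hnn
  simp only [RCLike.ofReal_real_eq_id, id_eq] at hdet htr
  have htr0 : 0 ≤ A.trace / N := by
    rw [htr]
    exact div_nonneg (Finset.sum_nonneg fun i _ => hnn i) hN0.le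
  refine ⟨?_, htr0⟩
  have h := Real.geom_mean_le_arith_mean_weighted Finset.univ (fun _ : Fin N => (1:ℝ) / N) l
    (fun _ _ => by positivity) (by simp; field_simp) (fun i _ => hnn i)
  rw [Real.finsetProd_rpow _ _ (fun i _ => hnn i), ← hdet] at h
  have h2 : ∑ i : Fin N, (1:ℝ) / N * l i = A.trace / N := by
    rw [← Finset.mul_sum, ← htr]
    ring
  rw [h2] at h
  have hd0 : 0 ≤ A.det := by
    rw [hdet]
    exact Finset.prod_nonneg fun i _ => hnn i
  have h3 : (A.det ^ ((1:ℝ) / N)) ^ N = A.det := by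
    rw [← Real.rpow_natCast, ← Real.rpow_mul hd0]
    rw [one_div, inv_mul_cancel₀ hN0.ne', Real.rpow_one]
  rw [← h3]
  exact pow_le_pow_left₀ (Real.rpow_nonneg hd0 _) h N

theorem zz_bessel_glargex {N : ℕ} (q : Fin N → E (N + 1)) (hq : Orthonormal ℝ q) (w : E (N + 1)) :
    ∑ j, (inner ℝ w (q j)) ^ 2 ≤ ‖w‖ ^ 2 := by
  have h := hq.sum_inner_products_le (x := w) (s := Finset.univ)
  refine le_trans (le_of_eq ?_) h
  apply Finset.sum_congr rfl
  intro j _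
  rw [real_inner_comm, Real.norm_eq_abs, sq_abs]

theorem zz_diag_glargex {N : ℕ} (F : Fr N) (t : ℝ) (w : E (N + 1)) (j : Fin N) :
    inner ℝ (F.Mv t w j) (F.Mv t w j) =
      t ^ 2 * F.c j ^ 2 + 2 * t * inner ℝ w F.x * (F.c j * F.s j * inner ℝ (F.q j) (F.g j)) -
      2 * t * (F.c j * F.s j) * (inner ℝ w (F.g j) * inner ℝ (F.q j) F.x) +
      F.s j ^ 2 * (inner ℝ w F.x ^ 2 + inner ℝ w (F.g j) ^ 2) := by
  unfold Fr.Mv
  have h1 : inner ℝ (F.q j) (F.q j) = (1:ℝ) := by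
    rw [real_inner_self_eq_norm_sq, F.hq.1 j]; norm_num
  have h2 : inner ℝ (F.g j) (F.g j) = (1:ℝ) := by
    rw [real_inner_self_eq_norm_sq, F.hg.1 j]; norm_num
  have h3 : inner ℝ F.x F.x = (1:ℝ) := by
    rw [real_inner_self_eq_norm_sq, F.hx]; norm_num
  have h4 : inner ℝ (F.g j) F.x = (0:ℝ) := F.hgx j
  have h5 : inner ℝ F.x (F.g j) = (0:ℝ) := by rw [real_inner_comm]; exact h4
  have h6 : inner ℝ (F.g j) (F.q j) = (inner ℝ (F.q j) (F.g j) : ℝ) := real_inner_comm _ _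
  have h7 : inner ℝ F.x (F.q j) = (inner ℝ (F.q j) F.x : ℝ) := real_inner_comm _ _
  simp only [inner_add_left, inner_add_right, inner_sub_left, inner_sub_right,
    real_inner_smul_left, real_inner_smul_right, h1, h2, h3, h4, h5, h6, h7]
  ring

/-- one dimensional Gaussian -/
theorem zz_g1_glargex (b : ℝ) (hb : 0 < b) :
    ∫⁻ s : ℝ, ENNReal.ofReal (Real.exp (-b * s ^ 2)) = ENNReal.ofReal (Real.sqrt (Real.pi / b)) := by
  rw [← integral_gaussian b, ofReal_integral_eq_lintegral_ofReal (integrable_exp_neg_mul_sq hb)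
    (Filter.Eventually.of_forall fun s => (Real.exp_pos _).le)]

theorem zz_gm_glargex (m : ℕ) (b : ℝ) (hb : 0 < b) :
    ∫⁻ y : E (2 * m), ENNReal.ofReal (Real.exp (-b * ‖y‖ ^ 2)) =
      ENNReal.ofReal ((Real.pi / b) ^ m) := by
  have h1 : ∫ v : E (2 * m), Real.exp (-b * ‖v‖ ^ 2) = (Real.pi / b) ^ m := by
    rw [GaussianFourier.integral_rexp_neg_mul_sq_norm hb]
    rw [finrank_euclideanSpace_fin, ← Real.rpow_natCast]
    congr 1
    push_cast
    ring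
  have hpos : 0 < (Real.pi / b) ^ m := by positivity
  have hint : Integrable (fun v : E (2 * m) => Real.exp (-b * ‖v‖ ^ 2)) := by
    by_contra hcon
    rw [integral_undef hcon] at h1
    linarith
  rw [← h1, ofReal_integral_eq_lintegral_ofReal hint
    (Filter.Eventually.of_forall fun s => (Real.exp_pos _).le)]


theorem yy_trace_glargex {N : ℕ} (F : Fr N) (t : ℝ) (w : E (N + 1)) :
    (F.Gm t w).trace ≤ ((N : ℝ) - F.del + 1) * t ^ 2 + (F.del + 1) * inner ℝ w F.x ^ 2 +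
      (‖w‖ ^ 2 - inner ℝ w F.x ^ 2) + 2 * ∑ j, F.s j ^ 2 * (inner ℝ w (F.g j)) ^ 2 := by
  have h0 : (F.Gm t w).trace = ∑ j, (inner ℝ (F.Mv t w j) (F.Mv t w j) + F.lv w j * F.lv w j) := by
    simp [Matrix.trace, Fr.Gm]
  have hS1 : ∑ j, F.c j ^ 2 = (N : ℝ) - F.del := by
    have : ∑ j, (F.c j ^ 2 + F.s j ^ 2) = (N : ℝ) := by
      rw [Finset.sum_congr rfl (fun j _ => F.hcs j)]
      simp
    rw [Finset.sum_add_distrib] at this
    unfold Fr.del
    linarith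
  have hb1 := zz_bessel_glargex F.q F.hq w
  have hb3 := zz_bessel_glargex F.q F.hq F.x
  rw [F.hx] at hb3
  have hb2 : ∑ j, (inner ℝ w (F.g j)) ^ 2 ≤ ‖w‖ ^ 2 - inner ℝ w F.x ^ 2 := by
    have h := zz_bessel_glargex F.g F.hg (w - (inner ℝ w F.x : ℝ) • F.x)
    have e1 : ‖w - (inner ℝ w F.x : ℝ) • F.x‖ ^ 2 = ‖w‖ ^ 2 - inner ℝ w F.x ^ 2 := by
      rw [@norm_sub_sq_real, norm_smul, F.hx, real_inner_smul_right, Real.norm_eq_abs, mul_one,
        sq_abs]
      ring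
    rw [e1] at h
    refine le_trans (le_of_eq ?_) h
    apply Finset.sum_congr rfl
    intro j _
    rw [inner_sub_left, real_inner_smul_left]
    have : inner ℝ F.x (F.g j) = (0:ℝ) := by rw [real_inner_comm]; exact F.hgx j
    rw [this, mul_zero, sub_zero]
  have hlv : ∑ j, F.lv w j * F.lv w j ≤ ‖w‖ ^ 2 := by
    refine le_trans (Finset.sum_le_sum (fun j _ => ?_)) hb1
    unfold Fr.lv
    have h1 : F.c j ^ 2 ≤ 1 := by nlinarith [F.hcs j, sq_nonneg (F.s j)]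
    have h2 : 0 ≤ (inner ℝ w (F.q j)) ^ 2 := sq_nonneg _
    nlinarith
  have hsg : ∑ j, F.s j ^ 2 * (inner ℝ w (F.g j)) ^ 2 ≤ ‖w‖ ^ 2 - inner ℝ w F.x ^ 2 := by
    refine le_trans (Finset.sum_le_sum (fun j _ => ?_)) hb2
    have h1 : F.s j ^ 2 ≤ 1 := by nlinarith [F.hcs j, sq_nonneg (F.c j)]
    have h2 : 0 ≤ (inner ℝ w (F.g j)) ^ 2 := sq_nonneg _
    nlinarith
  have hcr : ∑ j, -(2 * t * (F.c j * F.s j) * (inner ℝ w (F.g j) * inner ℝ (F.q j) F.x)) ≤
      t ^ 2 + ∑ j, F.s j ^ 2 * (inner ℝ w (F.g j)) ^ 2 := by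
    have h1 : ∑ j, -(2 * t * (F.c j * F.s j) * (inner ℝ w (F.g j) * inner ℝ (F.q j) F.x)) ≤
        ∑ j, (t ^ 2 * (inner ℝ F.x (F.q j)) ^ 2 + F.s j ^ 2 * (inner ℝ w (F.g j)) ^ 2) := by
      refine Finset.sum_le_sum (fun j _ => ?_)
      have h1 : F.c j ^ 2 ≤ 1 := by nlinarith [F.hcs j, sq_nonneg (F.s j)]
      have h2 : inner ℝ F.x (F.q j) = (inner ℝ (F.q j) F.x : ℝ) := real_inner_comm _ _
      rw [h2]
      set P : ℝ := inner ℝ (F.q j) F.x
      set G : ℝ := inner ℝ w (F.g j)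
      have h3 : 0 ≤ (t * P) ^ 2 * (1 - F.c j ^ 2) := mul_nonneg (sq_nonneg _) (by linarith)
      nlinarith [sq_nonneg (t * P * F.c j + F.s j * G)]
    rw [Finset.sum_add_distrib, ← Finset.mul_sum] at h1
    have h2 : t ^ 2 * ∑ j, (inner ℝ F.x (F.q j)) ^ 2 ≤ t ^ 2 * 1 :=
      mul_le_mul_of_nonneg_left (hb3.trans (by norm_num)) (sq_nonneg t)
    linarith
  have hgam := F.hgam
  rw [h0, Finset.sum_add_distrib]
  have h1 : ∑ j, inner ℝ (F.Mv t w j) (F.Mv t w j) =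
      t ^ 2 * ∑ j, F.c j ^ 2 + 2 * t * inner ℝ w F.x * ∑ j, (F.c j * F.s j * inner ℝ (F.q j) (F.g j)) +
      (∑ j, -(2 * t * (F.c j * F.s j) * (inner ℝ w (F.g j) * inner ℝ (F.q j) F.x))) +
      (F.del * inner ℝ w F.x ^ 2 + ∑ j, F.s j ^ 2 * (inner ℝ w (F.g j)) ^ 2) := by
    unfold Fr.del
    rw [Finset.mul_sum, Finset.mul_sum, Finset.sum_mul, ← Finset.sum_add_distrib,
      ← Finset.sum_add_distrib, ← Finset.sum_add_distrib, ← Finset.sum_add_distrib]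
    apply Finset.sum_congr rfl
    intro j _
    rw [zz_diag_glargex]
    ring
  rw [h1, hS1, hgam]
  nlinarith

theorem zz_G_glargex (m : ℕ) (x : E (2 * m + 1)) (hx : ‖x‖ = 1) (b g : ℝ) (hb : 0 < b) (hg : 0 < g) :
    ∫⁻ w : E (2 * m + 1), ENNReal.ofReal (Real.exp (-(b * inner ℝ w x ^ 2 +
      g * (‖w‖ ^ 2 - inner ℝ w x ^ 2)))) =
      ENNReal.ofReal (Real.sqrt (Real.pi / b) * (Real.pi / g) ^ m) := by
  obtain ⟨ι, hι1, -, hmp⟩ := D0 (k := 2 * m) x hx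
  have hmeas : Measurable (fun w : E (2 * m + 1) => ENNReal.ofReal (Real.exp (-(b * inner ℝ w x ^ 2 +
      g * (‖w‖ ^ 2 - inner ℝ w x ^ 2))))) := by
    apply Measurable.ennreal_ofReal
    apply Continuous.measurable
    fun_prop
  rw [← hmp.lintegral_comp hmeas]
  have h3 : ∀ p : ℝ × E (2 * m), ENNReal.ofReal (Real.exp (-(b * inner ℝ (p.1 • x + ι p.2) x ^ 2 +
      g * (‖p.1 • x + ι p.2‖ ^ 2 - inner ℝ (p.1 • x + ι p.2) x ^ 2)))) =
      ENNReal.ofReal (Real.exp (-b * p.1 ^ 2)) *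
        ENNReal.ofReal (Real.exp (-g * ‖p.2‖ ^ 2)) := by
    intro p
    have hin : inner ℝ (p.1 • x + ι p.2) x = p.1 := by
      rw [real_inner_comm, inner_add_right, real_inner_smul_right, real_inner_self_eq_norm_sq, hx, hι1]
      ring
    have hno : ‖p.1 • x + ι p.2‖ ^ 2 = p.1 ^ 2 + ‖p.2‖ ^ 2 := by
      rw [@norm_add_sq_real, norm_smul, hx, ι.norm_map, real_inner_smul_left, hι1,
        Real.norm_eq_abs]
      simp
    rw [hin, hno, ← ENNReal.ofReal_mul (Real.exp_pos _).le, ← Real.exp_add]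
    congr 2
    ring
  simp only [h3]
  rw [lintegral_prod_mul (f := fun s : ℝ => ENNReal.ofReal (Real.exp (-b * s ^ 2)))
    (g := fun y : E (2 * m) => ENNReal.ofReal (Real.exp (-g * ‖y‖ ^ 2))), zz_g1_glargex _ hb,
    zz_gm_glargex _ _ hg, ENNReal.ofReal_mul (Real.sqrt_nonneg _)]
  · exact (Continuous.measurable (by fun_prop)).ennreal_ofReal.aemeasurable
  · exact (Continuous.measurable (by fun_prop)).ennreal_ofReal.aemeasurable

theorem zz_M_glargex (m : ℕ) :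
    ∫⁻ t : ℝ, ENNReal.ofReal (t ^ (2 * m) * gt t) =
      ENNReal.ofReal (2 ^ m * Real.sqrt 2 * Real.Gamma ((m : ℝ) + 1 / 2)) := by
  have hq : (-1 : ℝ) < ((2 * m : ℕ) : ℝ) := by
    have : (0:ℝ) ≤ ((2 * m : ℕ) : ℝ) := Nat.cast_nonneg _
    linarith
  have hint : Integrable (fun t : ℝ => t ^ (2 * m) * gt t) := by
    have h := integrable_rpow_mul_exp_neg_mul_sq (b := 1 / 2) (by norm_num) (s := ((2 * m : ℕ) : ℝ)) hq
    refine h.congr (Filter.Eventually.of_forall fun t => ?_)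
    simp only [Real.rpow_natCast, gt]
    congr 2
    ring
  rw [← ofReal_integral_eq_lintegral_ofReal hint (Filter.Eventually.of_forall fun t => by
    show 0 ≤ t ^ (2 * m) * gt t
    have : 0 ≤ t ^ (2 * m) := (even_two_mul m).pow_nonneg t
    unfold gt
    positivity)]
  congr 1
  have h1 : ∫ t : ℝ, t ^ (2 * m) * gt t =
      2 * ∫ t in Ioi (0:ℝ), t ^ (2 * m) * gt t := by
    rw [← integral_comp_abs (f := fun t => t ^ (2 * m) * gt t)]
    congr 1
    funext t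
    simp only [gt, sq_abs, (even_two_mul m).pow_abs]
  have h2 : ∫ t in Ioi (0:ℝ), t ^ (2 * m) * gt t =
      (1 / 2) * (2 ^ m * Real.sqrt 2 * Real.Gamma ((m : ℝ) + 1 / 2)) := by
    have h := integral_rpow_mul_exp_neg_mul_rpow (p := 2) (q := ((2 * m : ℕ) : ℝ)) (b := 1 / 2)
      (by norm_num) hq (by norm_num)
    have h3 : ∫ t in Ioi (0:ℝ), t ^ (2 * m) * gt t =
        ∫ x in Ioi (0:ℝ), x ^ ((2 * m : ℕ) : ℝ) * Real.exp (-(1 / 2) * x ^ (2:ℝ)) := by
      congr 1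
      funext t
      rw [Real.rpow_natCast]
      unfold gt
      congr 2
      rw [Real.rpow_two]
      ring
    rw [h3, h]
    have e1 : ((1 / 2 : ℝ)) ^ (-((((2 * m : ℕ) : ℝ)) + 1) / 2) = 2 ^ m * Real.sqrt 2 := by
      rw [one_div, Real.inv_rpow (by norm_num), ← Real.rpow_neg (by norm_num)]
      have e2 : -(-((((2 * m : ℕ) : ℝ)) + 1) / 2) = (m : ℝ) + 1 / 2 := by
        push_cast; ring
      rw [e2, Real.rpow_add (by norm_num), Real.rpow_natCast, Real.sqrt_eq_rpow]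
    have e3 : ((((2 * m : ℕ) : ℝ)) + 1) / 2 = (m : ℝ) + 1 / 2 := by
      push_cast; ring
    rw [e1, e3]
    ring
  rw [h1, h2]
  ring



theorem yy_polar_glargex (k : ℕ) :
    ∫⁻ p : ℝ × ℝ, ENNReal.ofReal ((p.1 ^ 2 + p.2 ^ 2) ^ k * Real.exp (-((p.1 ^ 2 + p.2 ^ 2) / 2))) =
      ENNReal.ofReal (2 * Real.pi * 2 ^ k * (k.factorial : ℝ)) := by
  have hk0 : (0:ℝ) ≤ (k:ℝ) := Nat.cast_nonneg k
  have hI := Complex.integral_rpow_mul_exp_neg_mul_rpow (p := 2) (q := 2 * (k:ℝ)) (b := 1/2)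
    (by norm_num) (by linarith) (by norm_num)
  have hval : (2 * Real.pi / 2) * (1 / 2 : ℝ) ^ (-(2 * (k:ℝ) + 2) / 2) * Real.Gamma ((2 * (k:ℝ) + 2) / 2) =
      2 * Real.pi * 2 ^ k * (k.factorial : ℝ) := by
    have e1 : (2 * (k:ℝ) + 2) / 2 = (k:ℝ) + 1 := by ring
    have e2 : -(2 * (k:ℝ) + 2) / 2 = -((k + 1 : ℕ) : ℝ) := by push_cast; ring
    rw [e1, e2, Real.Gamma_nat_eq_factorial, Real.rpow_neg (by norm_num), Real.rpow_natCast]
    rw [one_div, inv_pow, inv_inv, pow_succ]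
    ring
  rw [hval] at hI
  have hpos : 0 < 2 * Real.pi * 2 ^ k * (k.factorial : ℝ) := by positivity
  have hint : Integrable (fun x : ℂ => ‖x‖ ^ (2 * (k:ℝ)) * Real.exp (-(1/2) * ‖x‖ ^ (2:ℝ))) := by
    by_contra hcon
    rw [integral_undef hcon] at hI
    linarith
  have h3 := ofReal_integral_eq_lintegral_ofReal hint
    (Filter.Eventually.of_forall fun x => by positivity)
  rw [hI] at h3
  rw [h3]
  have hmeas : Measurable (fun p : ℝ × ℝ => ENNReal.ofReal ((p.1 ^ 2 + p.2 ^ 2) ^ k *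
      Real.exp (-((p.1 ^ 2 + p.2 ^ 2) / 2)))) :=
    (Continuous.measurable (by fun_prop)).ennreal_ofReal
  rw [← Complex.volume_preserving_equiv_real_prod.lintegral_comp hmeas]
  congr 1
  funext z
  have hz : ‖z‖ ^ 2 = z.re ^ 2 + z.im ^ 2 := by
    rw [Complex.sq_norm, Complex.normSq_apply]; ring
  have e3 : ‖z‖ ^ (2 * (k:ℝ)) = (z.re ^ 2 + z.im ^ 2) ^ k := by
    rw [← hz, ← pow_mul, ← Real.rpow_natCast]
    push_cast
    rfl
  have e4 : ‖z‖ ^ (2:ℝ) = z.re ^ 2 + z.im ^ 2 := by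
    rw [Real.rpow_two, hz]
  rw [e3, e4]
  simp only [Complex.measurableEquivRealProd_apply]
  congr 3
  ring

theorem yy_sum_glargex (m : ℕ) (a y : ℝ) (ha : 0 < a) (hy : 0 ≤ y) :
    ∑ k ∈ Finset.range (m + 1), a ^ k * y ^ (m - k) * (m.choose k : ℝ) *
      (2 * Real.pi * 2 ^ k * (k.factorial : ℝ)) ≤
      2 * Real.pi * (m.factorial : ℝ) * (2 * a) ^ m * Real.exp (y / (2 * a)) := by
  have hz : 0 ≤ y / (2 * a) := by positivity
  have h1 := Real.sum_le_exp_of_nonneg hz (m + 1)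
  rw [← Finset.sum_range_reflect] at h1
  have h2 : ∑ k ∈ Finset.range (m + 1), a ^ k * y ^ (m - k) * (m.choose k : ℝ) *
      (2 * Real.pi * 2 ^ k * (k.factorial : ℝ)) =
      2 * Real.pi * (m.factorial : ℝ) * (2 * a) ^ m *
      ∑ j ∈ Finset.range (m + 1), (y / (2 * a)) ^ (m + 1 - 1 - j) / ((m + 1 - 1 - j).factorial : ℝ) := by
    rw [Finset.mul_sum]
    refine Finset.sum_congr rfl fun k hk => ?_
    have hk' : k ≤ m := by
      have := Finset.mem_range.mp hk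
      omega
    have e1 : m + 1 - 1 - k = m - k := by omega
    rw [e1]
    have e2 : (m.choose k : ℝ) * (k.factorial : ℝ) * ((m - k).factorial : ℝ) = (m.factorial : ℝ) := by
      exact_mod_cast Nat.choose_mul_factorial_mul_factorial hk'
    have e3 : (2 * a) ^ m = (2 * a) ^ k * (2 * a) ^ (m - k) := by
      rw [← pow_add]; congr 1; omega
    rw [← e2, e3, div_pow]
    have hf : ((m - k).factorial : ℝ) ≠ 0 := by positivity
    have h2a : (2 * a) ^ (m - k) ≠ 0 := by positivity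
    field_simp
    ring
  rw [h2]
  exact mul_le_mul_of_nonneg_left h1 (by positivity)

theorem yy_bin_glargex (m : ℕ) (a y : ℝ) (ha : 0 < a) (hy : 0 ≤ y) :
    ∫⁻ p : ℝ × ℝ, ENNReal.ofReal ((a * (p.1 ^ 2 + p.2 ^ 2) + y) ^ m *
        Real.exp (-((p.1 ^ 2 + p.2 ^ 2) / 2))) ≤
      ENNReal.ofReal (2 * Real.pi * (m.factorial : ℝ) * (2 * a) ^ m * Real.exp (y / (2 * a))) := by
  have h1 : ∀ p : ℝ × ℝ, ENNReal.ofReal ((a * (p.1 ^ 2 + p.2 ^ 2) + y) ^ m *
        Real.exp (-((p.1 ^ 2 + p.2 ^ 2) / 2))) =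
    ∑ k ∈ Finset.range (m + 1), ENNReal.ofReal (a ^ k * y ^ (m - k) * (m.choose k : ℝ)) *
      ENNReal.ofReal ((p.1 ^ 2 + p.2 ^ 2) ^ k * Real.exp (-((p.1 ^ 2 + p.2 ^ 2) / 2))) := by
    intro p
    rw [add_pow, Finset.sum_mul, ENNReal.ofReal_sum_of_nonneg (fun k _ => by positivity)]
    refine Finset.sum_congr rfl fun k _ => ?_
    rw [← ENNReal.ofReal_mul (by positivity)]
    congr 1
    rw [mul_pow]; ring
  simp only [h1]
  rw [lintegral_finsetSum _ (fun k _ => by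
    apply Measurable.const_mul
    exact (Continuous.measurable (by fun_prop)).ennreal_ofReal)]
  have h2 : ∀ k ∈ Finset.range (m + 1), ∫⁻ p : ℝ × ℝ, ENNReal.ofReal (a ^ k * y ^ (m - k) * (m.choose k : ℝ)) *
      ENNReal.ofReal ((p.1 ^ 2 + p.2 ^ 2) ^ k * Real.exp (-((p.1 ^ 2 + p.2 ^ 2) / 2))) =
      ENNReal.ofReal (a ^ k * y ^ (m - k) * (m.choose k : ℝ) * (2 * Real.pi * 2 ^ k * (k.factorial : ℝ))) := by
    intro k _
    rw [lintegral_const_mul _ ((Continuous.measurable (by fun_prop)).ennreal_ofReal), yy_polar_glargex,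
      ← ENNReal.ofReal_mul (by positivity)]
  rw [Finset.sum_congr rfl h2, ← ENNReal.ofReal_sum_of_nonneg (fun k _ => by positivity)]
  exact ENNReal.ofReal_le_ofReal (yy_sum_glargex m a y ha hy)

theorem yy_prod_glargex {N : ℕ} (γ : Fin N → ℝ) (hγ : ∀ j, 0 < γ j) :
    ∫⁻ v : Fin N → ℝ, ENNReal.ofReal (Real.exp (-∑ j, γ j * v j ^ 2)) =
      ENNReal.ofReal (∏ j, Real.sqrt (Real.pi / γ j)) := by
  have h1 : ∀ v : Fin N → ℝ, Real.exp (-∑ j, γ j * v j ^ 2) = ∏ j, Real.exp (-γ j * v j ^ 2) := by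
    intro v
    rw [← Real.exp_sum, ← Finset.sum_neg_distrib]
    congr 1
    exact Finset.sum_congr rfl fun j _ => by ring
  simp only [h1]
  rw [← ofReal_integral_eq_lintegral_ofReal, integral_fintype_prod_volume_eq_prod
    (fun (j : Fin N) (s : ℝ) => Real.exp (-γ j * s ^ 2))]
  · congr 1
    exact Finset.prod_congr rfl fun j _ => integral_gaussian (γ j)
  · exact Integrable.fintype_prod (f := fun (j : Fin N) (s : ℝ) => Real.exp (-γ j * s ^ 2))
      (fun j => integrable_exp_neg_mul_sq (hγ j))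
  · exact Filter.Eventually.of_forall fun v => Finset.prod_nonneg fun j _ => (Real.exp_pos _).le

theorem yy_coord_glargex {N : ℕ} (x : E (N + 1)) (g : Fin N → E (N + 1)) (hx : ‖x‖ = 1) (hg : Orthonormal ℝ g)
    (hgx : ∀ j, inner ℝ (g j) x = (0:ℝ)) :
    ∃ φ : E (N + 1) → ℝ × (Fin N → ℝ), MeasurePreserving φ volume volume ∧
      ∀ w, (φ w).1 = inner ℝ w x ∧ (∀ j, (φ w).2 j = inner ℝ w (g j)) ∧
        ‖w‖ ^ 2 = inner ℝ w x ^ 2 + ∑ j, inner ℝ w (g j) ^ 2 := by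
  have hu : Orthonormal ℝ (Fin.cons x g : Fin (N + 1) → E (N + 1)) := by
    refine ⟨?_, ?_⟩
    · intro i
      refine Fin.cases ?_ (fun j => ?_) i
      · simpa using hx
      · simpa using hg.1 j
    · intro i j hij
      revert hij
      refine Fin.cases ?_ (fun i => ?_) i
      · refine Fin.cases ?_ (fun j => ?_) j
        · intro h; exact absurd rfl h
        · intro _
          simp only [Fin.cons_zero, Fin.cons_succ]
          rw [real_inner_comm]; exact hgx j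
      · refine Fin.cases ?_ (fun j => ?_) j
        · intro _
          simp only [Fin.cons_zero, Fin.cons_succ]
          exact hgx i
        · intro h
          simp only [Fin.cons_succ]
          exact hg.2 (fun h' => h (by rw [h']))
  have hsp : ⊤ ≤ Submodule.span ℝ (Set.range (Fin.cons x g : Fin (N + 1) → E (N + 1))) := by
    rw [hu.linearIndependent.span_eq_top_of_card_eq_finrank (by simp)]
  let b := OrthonormalBasis.mk hu hsp
  have hb : ⇑b = (Fin.cons x g : Fin (N + 1) → E (N + 1)) := OrthonormalBasis.coe_mk hu hsp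
  refine ⟨fun w => MeasurableEquiv.piFinSuccAbove (fun _ => ℝ) 0 (WithLp.ofLp (b.repr w)), ?_, ?_⟩
  · exact (volume_preserving_piFinSuccAbove (fun _ => ℝ) 0).comp
      ((PiLp.volume_preserving_ofLp (Fin (N + 1))).comp b.measurePreserving_repr)
  · intro w
    have h0 : b 0 = x := by rw [hb]; rfl
    have hs : ∀ j : Fin N, b j.succ = g j := by intro j; rw [hb]; rfl
    refine ⟨?_, ?_, ?_⟩
    · show b.repr w 0 = _
      rw [OrthonormalBasis.repr_apply_apply, h0, real_inner_comm]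
    · intro j
      show b.repr w ((0 : Fin (N + 1)).succAbove j) = _
      rw [Fin.zero_succAbove, OrthonormalBasis.repr_apply_apply, hs, real_inner_comm]
    · have h := b.sum_sq_norm_inner_left w
      rw [Fin.sum_univ_succ, h0] at h
      simp only [hs, Real.norm_eq_abs, sq_abs] at h
      rw [← h]


theorem yy_FF_glargex {m : ℕ} (hm : 24 ≤ m) (F : Fr (2 * m))
    (t : ℝ) (w : E (2 * m + 1))
    (hw : ‖w‖ ^ 2 = inner ℝ w F.x ^ 2 + ∑ j, inner ℝ w (F.g j) ^ 2) :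
    F.FF t w ≤ ((2 * m - F.del + 1) / (2 * m) * (inner ℝ w F.x ^ 2 + t ^ 2) +
      1 / (2 * m) * ∑ j, (1 + 2 * F.s j ^ 2) * inner ℝ w (F.g j) ^ 2) ^ m ∧
    0 ≤ (2 * m - F.del + 1) / (2 * m) * (inner ℝ w F.x ^ 2 + t ^ 2) +
      1 / (2 * m) * ∑ j, (1 + 2 * F.s j ^ 2) * inner ℝ w (F.g j) ^ 2 := by
  have hm60 : (24 : ℝ) ≤ m := by exact_mod_cast hm
  have hm0 : (0 : ℝ) < 2 * m := by linarith
  have hN : 1 ≤ 2 * m := by omega
  obtain ⟨hd0, hd1⟩ := F.del_bd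
  have hps := F.psd t w
  have h1 := zz_amgm_glargex hN (F.Gm t w) hps
  have h2 := yy_trace_glargex F t w
  push_cast at h1 h2 hd1
  set q : ℝ := (2 * m - F.del + 1) / (2 * m) * (inner ℝ w F.x ^ 2 + t ^ 2) +
      1 / (2 * m) * ∑ j, (1 + 2 * F.s j ^ 2) * inner ℝ w (F.g j) ^ 2 with hq
  have h3 : (F.Gm t w).trace / (2 * m) ≤ q := by
    rw [div_le_iff₀ hm0]
    have h4 : q * (2 * m) = (2 * m - F.del + 1) * (inner ℝ w F.x ^ 2 + t ^ 2) +
        ∑ j, (1 + 2 * F.s j ^ 2) * inner ℝ w (F.g j) ^ 2 := by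
      rw [hq]
      field_simp
    have h5 : ∑ j, (1 + 2 * F.s j ^ 2) * inner ℝ w (F.g j) ^ 2 =
        ∑ j, inner ℝ w (F.g j) ^ 2 + 2 * ∑ j, F.s j ^ 2 * (inner ℝ w (F.g j)) ^ 2 := by
      rw [Finset.mul_sum, ← Finset.sum_add_distrib]
      exact Finset.sum_congr rfl fun j _ => by ring
    rw [h4, h5]
    have h6 : (F.del + 1) * inner ℝ w F.x ^ 2 ≤ (2 * m - F.del + 1) * inner ℝ w F.x ^ 2 :=
      mul_le_mul_of_nonneg_right (by linarith) (sq_nonneg _)
    linarith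
  have h5 : (F.Gm t w).det ≤ (q ^ m) ^ 2 := by
    calc (F.Gm t w).det ≤ ((F.Gm t w).trace / (2 * m)) ^ (2 * m) := by simpa using h1.1
      _ ≤ q ^ (2 * m) := pow_le_pow_left₀ (by simpa using h1.2) h3 _
      _ = (q ^ m) ^ 2 := by rw [← pow_mul, mul_comm]
  have hq0 : 0 ≤ q := (by simpa using h1.2 : (0:ℝ) ≤ (F.Gm t w).trace / (2 * m)).trans h3
  refine ⟨?_, hq0⟩
  unfold Fr.FF
  rw [Real.sqrt_le_iff]
  exact ⟨by positivity, h5⟩

theorem yy_Gam_glargex (m : ℕ) (hm : 1 ≤ m) :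
    Real.pi * (m.factorial : ℝ) ^ 2 ≤ Real.Gamma ((m : ℝ) + 1 / 2) ^ 2 * (4 * m) := by
  induction m, hm using Nat.le_induction with
  | base =>
    have h : Real.Gamma ((1 : ℕ) + 1 / 2 : ℝ) = 1 / 2 * Real.sqrt Real.pi := by
      have h1 := Real.Gamma_add_one (s := 1 / 2) (by norm_num)
      rw [Real.Gamma_one_half_eq] at h1
      rw [← h1]
      norm_num
    rw [h, mul_pow, Real.sq_sqrt Real.pi_pos.le]
    norm_num
    linarith
  | succ n hn ih =>
    have hn0 : (0:ℝ) < n := by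
      have : 0 < n := hn
      exact_mod_cast this
    have h1 : Real.Gamma (((n + 1 : ℕ) : ℝ) + 1 / 2) = ((n : ℝ) + 1 / 2) * Real.Gamma ((n : ℝ) + 1 / 2) := by
      rw [← Real.Gamma_add_one (by positivity)]
      congr 1
      push_cast
      ring
    rw [h1, Nat.factorial_succ]
    push_cast
    set A := Real.Gamma ((n : ℝ) + 1 / 2) ^ 2 with hA
    have hA0 : 0 ≤ A := sq_nonneg _
    have h2 : Real.pi * (((n : ℝ) + 1) * (n.factorial : ℝ)) ^ 2 =
        ((n : ℝ) + 1) ^ 2 * (Real.pi * (n.factorial : ℝ) ^ 2) := by ring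
    rw [h2]
    have h3 : ((n : ℝ) + 1) ^ 2 * (Real.pi * (n.factorial : ℝ) ^ 2) ≤
        ((n : ℝ) + 1) ^ 2 * (A * (4 * n)) :=
      mul_le_mul_of_nonneg_left ih (by positivity)
    refine h3.trans ?_
    have h4 : (((n : ℝ) + 1 / 2) * Real.Gamma ((n : ℝ) + 1 / 2)) ^ 2 * (4 * ((n : ℝ) + 1)) =
        ((n : ℝ) + 1 / 2) ^ 2 * (A * (4 * ((n : ℝ) + 1))) := by rw [hA]; ring
    rw [h4]
    have h5 : ((n : ℝ) + 1 / 2) ^ 2 * (A * (4 * ((n : ℝ) + 1))) - ((n : ℝ) + 1) ^ 2 * (A * (4 * n)) =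
        A * ((n : ℝ) + 1) := by ring
    have h6 : 0 ≤ A * ((n : ℝ) + 1) := by positivity
    linarith

theorem yy_gam_glargex {m : ℕ} (hm : 24 ≤ m) (s : Fin (2 * m) → ℝ) (hs : ∀ j, s j ^ 2 ≤ 1) (δ : ℝ)
    (hδ : δ = ∑ j, s j ^ 2) (h2 : 2 * δ ≤ 2 * m) :
    ∏ j, Real.sqrt (Real.pi / (1 / 2 - (1 + 2 * s j ^ 2) / (2 * (2 * m - δ + 1)))) ≤
      (2 * Real.pi) ^ m * Real.exp ((m + δ) / (2 * m - δ - 2)) := by
  have hm60 : (24 : ℝ) ≤ m := by exact_mod_cast hm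
  have hD : 0 < 2 * (m:ℝ) - δ - 2 := by linarith
  have h1 : ∀ j, Real.sqrt (Real.pi / (1 / 2 - (1 + 2 * s j ^ 2) / (2 * (2 * m - δ + 1)))) ≤
      Real.sqrt (2 * Real.pi) * Real.exp ((1 + 2 * s j ^ 2) / (2 * (2 * m - δ - 2))) := by
    intro j
    have hsj := hs j
    have hs0 := sq_nonneg (s j)
    have hD1 : 0 < 2 * (m:ℝ) - δ + 1 := by linarith
    have hD2 : 0 < 2 * (m:ℝ) - δ - 2 * s j ^ 2 := by linarith
    have e1 : Real.pi / (1 / 2 - (1 + 2 * s j ^ 2) / (2 * (2 * m - δ + 1))) =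
        2 * Real.pi * ((2 * m - δ + 1) / (2 * m - δ - 2 * s j ^ 2)) := by
      have : (1 / 2 - (1 + 2 * s j ^ 2) / (2 * (2 * m - δ + 1))) =
          (2 * m - δ - 2 * s j ^ 2) / (2 * (2 * m - δ + 1)) := by
        field_simp
        ring
      rw [this]
      field_simp
    rw [e1, Real.sqrt_mul (by positivity)]
    apply mul_le_mul_of_nonneg_left _ (Real.sqrt_nonneg _)
    rw [Real.sqrt_le_left (Real.exp_pos _).le, ← Real.exp_nat_mul]
    have h3 := Real.add_one_le_exp (((2:ℕ):ℝ) * ((1 + 2 * s j ^ 2) / (2 * (2 * m - δ - 2))))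
    refine le_trans ?_ h3
    have e2 : (2 * (m:ℝ) - δ + 1) / (2 * m - δ - 2 * s j ^ 2) =
        (1 + 2 * s j ^ 2) / (2 * m - δ - 2 * s j ^ 2) + 1 := by
      field_simp
      ring
    have e3 : ((2:ℕ):ℝ) * ((1 + 2 * s j ^ 2) / (2 * (2 * m - δ - 2))) =
        (1 + 2 * s j ^ 2) / (2 * m - δ - 2) := by
      push_cast
      field_simp
    rw [e2, e3]
    have h4 : (1 + 2 * s j ^ 2) / (2 * m - δ - 2 * s j ^ 2) ≤ (1 + 2 * s j ^ 2) / (2 * m - δ - 2) :=
      div_le_div_of_nonneg_left (by positivity) hD (by linarith)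
    linarith
  refine (Finset.prod_le_prod (fun j _ => Real.sqrt_nonneg _) (fun j _ => h1 j)).trans (le_of_eq ?_)
  rw [Finset.prod_mul_distrib, Finset.prod_const, Finset.card_univ, Fintype.card_fin, pow_mul,
    Real.sq_sqrt (by positivity), ← Real.exp_sum]
  congr 2
  rw [← Finset.sum_div, Finset.sum_add_distrib, ← Finset.mul_sum, ← hδ]
  simp only [Finset.sum_const, Finset.card_univ, Fintype.card_fin, nsmul_eq_mul, mul_one]
  push_cast
  field_simp

theorem yy_num_glargex (m : ℕ) (hm : 24 ≤ m) (δ : ℝ) (h1 : (m:ℝ) / 3 ≤ δ) (h2 : δ ≤ m) :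
    2 * Real.sqrt m * Real.exp ((1 - δ) / 2 + (m + δ) / (2 * m - δ - 2)) ≤ 0.95 := by
  have hm60 : (24 : ℝ) ≤ m := by exact_mod_cast hm
  have hD : 0 < 2 * (m:ℝ) - δ - 2 := by linarith
  have h3 : (1 - δ) / 2 + (m + δ) / (2 * m - δ - 2) ≤ 1.3422 - m / 6 := by
    have h4 : (m + δ) / (2 * m - δ - 2) ≤ 0.8422 - m / 6 + δ / 2 := by
      rw [div_le_iff₀ hD]
      obtain ⟨e, he⟩ : ∃ e : ℝ, e = δ - m / 3 := ⟨_, rfl⟩
      have hδ : δ = m / 3 + e := by rw [he]; ring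
      have he0 : 0 ≤ e := by rw [he]; linarith
      have he1 : e ≤ 2 * m / 3 := by rw [he]; linarith
      subst hδ
      have h6 : 0 ≤ e * (5 * m / 6 - 2.8422 - e / 2) := mul_nonneg he0 (by linarith)
      nlinarith
    linarith
  have h5 : Real.exp ((1 - δ) / 2 + (m + δ) / (2 * m - δ - 2)) ≤ Real.exp (1.3422 - m / 6) :=
    Real.exp_le_exp.mpr h3
  have h6 : Real.exp (1.3422 - m / 6) * Real.exp (m / 6 - 1.3422) = 1 := by
    rw [← Real.exp_add]; norm_num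
  have h7 : 12 * (1 + ((m:ℝ) - 24) / 6) ≤ Real.exp (m / 6 - 1.3422) := by
    have e1 : (m:ℝ) / 6 - 1.3422 = 1 + 1 + 0.6578 + (m - 24) / 6 := by ring
    rw [e1, Real.exp_add, Real.exp_add, Real.exp_add]
    have h8 := Real.exp_one_gt_d9
    have h9 := Real.add_one_le_exp (0.6578 : ℝ)
    have h10 := Real.add_one_le_exp (((m:ℝ) - 24) / 6)
    have h11 : 0 ≤ ((m:ℝ) - 24) / 6 := by linarith
    have h12 : (7.38 : ℝ) ≤ Real.exp 1 * Real.exp 1 := by nlinarith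
    have h13 : (12 : ℝ) ≤ Real.exp 1 * Real.exp 1 * Real.exp 0.6578 := by nlinarith [Real.exp_pos 0.6578]
    calc 12 * (1 + ((m:ℝ) - 24) / 6) ≤ (Real.exp 1 * Real.exp 1 * Real.exp 0.6578) * (1 + ((m:ℝ) - 24) / 6) :=
          mul_le_mul_of_nonneg_right h13 (by linarith)
      _ ≤ _ := mul_le_mul_of_nonneg_left (by linarith) (by positivity)
  have h14 : 2 * Real.sqrt m ≤ (m + 24.01) / 4.9 := by
    have h15 := Real.sq_sqrt (show (0:ℝ) ≤ m by linarith)
    rw [le_div_iff₀ (by norm_num)]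
    nlinarith [sq_nonneg (Real.sqrt m - 4.9)]
  have h16 : 2 * Real.sqrt m ≤ 0.95 * Real.exp (m / 6 - 1.3422) := by
    refine h14.trans ?_
    rw [div_le_iff₀ (by norm_num)]
    nlinarith
  have hs0 : 0 ≤ 2 * Real.sqrt m := by positivity
  calc 2 * Real.sqrt m * Real.exp ((1 - δ) / 2 + (m + δ) / (2 * m - δ - 2)) ≤
        (0.95 * Real.exp (m / 6 - 1.3422)) * Real.exp (1.3422 - m / 6) :=
        mul_le_mul h16 h5 (Real.exp_pos _).le (by positivity)
    _ = 0.95 * (Real.exp (1.3422 - m / 6) * Real.exp (m / 6 - 1.3422)) := by ring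
    _ = 0.95 := by rw [h6, mul_one]

theorem yy_final_glargex (m : ℕ) (hm : 24 ≤ m) (δ P : ℝ) (h1 : (m:ℝ) / 3 ≤ δ) (h2 : δ ≤ m)
    (hP0 : 0 ≤ P) (hP : P ≤ (2 * Real.pi) ^ m * Real.exp ((m + δ) / (2 * m - δ - 2))) :
    (2 * Real.pi * (m.factorial : ℝ) * (2 * ((2 * m - δ + 1) / (2 * m))) ^ m) * P ≤
    0.95 * ((2 ^ m * Real.sqrt 2 * Real.Gamma ((m : ℝ) + 1 / 2)) *
      (Real.sqrt (Real.pi / (1 / 2)) * (Real.pi / (1 / 2)) ^ m)) := by
  have hm60 : (24 : ℝ) ≤ m := by exact_mod_cast hm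
  have hm0 : (0:ℝ) < m := by linarith
  have hpi := Real.pi_pos
  have hfac : (0:ℝ) < (m.factorial : ℝ) := by exact_mod_cast m.factorial_pos
  have hα : (2 * ((2 * m - δ + 1) / (2 * m))) ^ m ≤ 2 ^ m * Real.exp ((1 - δ) / 2) := by
    rw [mul_pow]
    apply mul_le_mul_of_nonneg_left _ (by positivity)
    have h3 := Real.add_one_le_exp ((1 - δ) / (2 * m))
    have h4 : (2 * (m:ℝ) - δ + 1) / (2 * m) = (1 - δ) / (2 * m) + 1 := by
      field_simp; ring
    have h5 : 0 ≤ (2 * (m:ℝ) - δ + 1) / (2 * m) := div_nonneg (by linarith) (by linarith)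
    calc ((2 * (m:ℝ) - δ + 1) / (2 * m)) ^ m ≤ (Real.exp ((1 - δ) / (2 * m))) ^ m :=
          pow_le_pow_left₀ h5 (by rw [h4]; exact h3) m
      _ = Real.exp ((1 - δ) / 2) := by
        rw [← Real.exp_nat_mul]; congr 1; field_simp
  have h3 : Real.sqrt 2 * Real.sqrt (Real.pi / (1 / 2)) = 2 * Real.sqrt Real.pi := by
    rw [← Real.sqrt_mul (by norm_num)]
    have : 2 * (Real.pi / (1 / 2)) = 2 ^ 2 * Real.pi := by ring
    rw [this, Real.sqrt_mul (by norm_num), Real.sqrt_sq (by norm_num)]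
  have e2 : Real.pi / (1 / 2) = 2 * Real.pi := by ring
  have hG0 : 0 < Real.Gamma ((m : ℝ) + 1 / 2) := Real.Gamma_pos_of_pos (by positivity)
  have hG : Real.sqrt Real.pi * (m.factorial : ℝ) ≤ Real.Gamma ((m : ℝ) + 1 / 2) * (2 * Real.sqrt m) := by
    have h4 := yy_Gam_glargex m (by omega)
    apply le_of_sq_le_sq ?_ (by positivity)
    rw [mul_pow, mul_pow, mul_pow, Real.sq_sqrt hpi.le, Real.sq_sqrt hm0.le]
    linarith
  have hnum := yy_num_glargex m hm δ h1 h2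
  rw [Real.exp_add] at hnum
  set X1 := Real.exp ((1 - δ) / 2) with hX1
  set X2 := Real.exp ((m + δ) / (2 * m - δ - 2)) with hX2
  have hX10 : 0 < X1 := Real.exp_pos _
  have hX20 : 0 < X2 := Real.exp_pos _
  have hL : (2 * Real.pi * (m.factorial : ℝ) * (2 * ((2 * m - δ + 1) / (2 * m))) ^ m) * P ≤
      (2 * Real.pi * (m.factorial : ℝ) * (2 ^ m * X1)) * ((2 * Real.pi) ^ m * X2) :=
    mul_le_mul (mul_le_mul_of_nonneg_left hα (by positivity)) hP hP0 (by positivity)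
  refine hL.trans ?_
  have hR : 0.95 * ((2 ^ m * Real.sqrt 2 * Real.Gamma ((m : ℝ) + 1 / 2)) *
      (Real.sqrt (Real.pi / (1 / 2)) * (Real.pi / (1 / 2)) ^ m)) =
      0.95 * (2 ^ m * (2 * Real.sqrt Real.pi) * Real.Gamma ((m : ℝ) + 1 / 2) * (2 * Real.pi) ^ m) := by
    rw [← h3, e2]; ring
  rw [hR]
  have hsm : 0 < Real.sqrt m := Real.sqrt_pos.mpr hm0
  have hsp : Real.sqrt Real.pi * Real.sqrt Real.pi = Real.pi := Real.mul_self_sqrt hpi.le
  have hG2 : Real.sqrt Real.pi * (m.factorial : ℝ) / (2 * Real.sqrt m) ≤ Real.Gamma ((m : ℝ) + 1 / 2) := by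
    rw [div_le_iff₀ (by positivity)]; exact hG
  have hR2 : 0.95 * (2 ^ m * (2 * Real.sqrt Real.pi) *
      (Real.sqrt Real.pi * (m.factorial : ℝ) / (2 * Real.sqrt m)) * (2 * Real.pi) ^ m) ≤
      0.95 * (2 ^ m * (2 * Real.sqrt Real.pi) * Real.Gamma ((m : ℝ) + 1 / 2) * (2 * Real.pi) ^ m) := by
    apply mul_le_mul_of_nonneg_left _ (by norm_num)
    apply mul_le_mul_of_nonneg_right _ (by positivity)
    exact mul_le_mul_of_nonneg_left hG2 (by positivity)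
  refine le_trans ?_ hR2
  have e4 : 0.95 * (2 ^ m * (2 * Real.sqrt Real.pi) *
      (Real.sqrt Real.pi * (m.factorial : ℝ) / (2 * Real.sqrt m)) * (2 * Real.pi) ^ m) =
      (2 * Real.pi * (m.factorial : ℝ) * 2 ^ m * (2 * Real.pi) ^ m) * (0.95 / (2 * Real.sqrt m)) := by
    have : 0.95 * (2 ^ m * (2 * Real.sqrt Real.pi) *
      (Real.sqrt Real.pi * (m.factorial : ℝ) / (2 * Real.sqrt m)) * (2 * Real.pi) ^ m) =
      (2 * (Real.sqrt Real.pi * Real.sqrt Real.pi) * (m.factorial : ℝ) * 2 ^ m * (2 * Real.pi) ^ m) *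
        (0.95 / (2 * Real.sqrt m)) := by ring
    rw [this, hsp]
  have e5 : (2 * Real.pi * (m.factorial : ℝ) * (2 ^ m * X1)) * ((2 * Real.pi) ^ m * X2) =
      (2 * Real.pi * (m.factorial : ℝ) * 2 ^ m * (2 * Real.pi) ^ m) * (X1 * X2) := by ring
  rw [e4, e5]
  apply mul_le_mul_of_nonneg_left _ (by positivity)
  rw [le_div_iff₀ (by positivity)]
  linarith

theorem glarge {m : ℕ} (hm : 24 ≤ m) (F : Fr (2 * m)) (hd : ((2 * m : ℕ) : ℝ) / 6 ≤ F.del) :
    ∫⁻ w : E (2 * m + 1), (∫⁻ t : ℝ, ENNReal.ofReal (F.FF t w * gt t * gw w))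
      ≤ ENNReal.ofReal 0.95 *
        ∫⁻ w : E (2 * m + 1), Psi (2 * m) (F.u2 w) * ENNReal.ofReal (gw w) := by
  have hm60 : (24 : ℝ) ≤ m := by exact_mod_cast hm
  have hm0 : (0 : ℝ) < m := by linarith
  obtain ⟨hd0, hd1⟩ := F.del_bd
  push_cast at hd hd1
  have hδ1 : (m:ℝ) / 3 ≤ F.del := by linarith
  have hδ2 : F.del ≤ m := by linarith
  have hs1 : ∀ j, F.s j ^ 2 ≤ 1 := fun j => by nlinarith [F.hcs j, sq_nonneg (F.c j)]
  have hN1 : 0 < 2 * (m:ℝ) - F.del + 1 := by linarith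
  set α : ℝ := (2 * m - F.del + 1) / (2 * m) with hα
  have hα0 : 0 < α := div_pos hN1 (by linarith)
  obtain ⟨φ, hφ, hφ2⟩ := yy_coord_glargex F.x F.g F.hx F.hg F.hgx
  set yv : (Fin (2 * m) → ℝ) → ℝ := fun v => 1 / (2 * m) * ∑ j, (1 + 2 * F.s j ^ 2) * v j ^ 2 with hyv
  have hyv0 : ∀ v, 0 ≤ yv v := fun v => by
    rw [hyv]; positivity
  have hyc : Continuous yv := by rw [hyv]; fun_prop
  set K : (ℝ × (Fin (2 * m) → ℝ)) → ℝ → ℝ≥0∞ := fun p t =>
    ENNReal.ofReal ((α * (p.1 ^ 2 + t ^ 2) + yv p.2) ^ m * Real.exp (-((p.1 ^ 2 + t ^ 2) / 2))) *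
      ENNReal.ofReal (Real.exp (-((∑ j, p.2 j ^ 2) / 2))) with hK
  have hKm : Measurable (Function.uncurry K) := by
    have hc1 : Continuous (fun a : (ℝ × (Fin (2 * m) → ℝ)) × ℝ => yv a.1.2) :=
      hyc.comp (by fun_prop)
    have hA : Measurable (fun a : (ℝ × (Fin (2 * m) → ℝ)) × ℝ =>
      ENNReal.ofReal ((α * (a.1.1 ^ 2 + a.2 ^ 2) + yv a.1.2) ^ m * Real.exp (-((a.1.1 ^ 2 + a.2 ^ 2) / 2)))) := by
      apply Measurable.ennreal_ofReal
      apply Continuous.measurable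
      fun_prop
    have hB : Measurable (fun a : (ℝ × (Fin (2 * m) → ℝ)) × ℝ =>
      ENNReal.ofReal (Real.exp (-((∑ j, a.1.2 j ^ 2) / 2)))) := by
      apply Measurable.ennreal_ofReal
      apply Continuous.measurable
      fun_prop
    exact hA.mul hB
  have hGm : Measurable (fun p => ∫⁻ t : ℝ, K p t) := hKm.lintegral_prod_right'
  have hpt : ∀ (w : E (2 * m + 1)) (t : ℝ), ENNReal.ofReal (F.FF t w * gt t * gw w) ≤ K (φ w) t := by
    intro w t
    obtain ⟨ha, hb, hc⟩ := hφ2 w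
    obtain ⟨h1, h2⟩ := yy_FF_glargex hm F t w hc
    have hyw : yv (φ w).2 = 1 / (2 * m) * ∑ j, (1 + 2 * F.s j ^ 2) * inner ℝ w (F.g j) ^ 2 := by
      simp only [hyv, hb]
    simp only [hK, hyw, ha, hb]
    rw [← ENNReal.ofReal_mul (by positivity)]
    apply ENNReal.ofReal_le_ofReal
    have hgt : 0 ≤ gt t := (Real.exp_pos _).le
    have hgw : 0 ≤ gw w := (Real.exp_pos _).le
    refine (mul_le_mul_of_nonneg_right (mul_le_mul_of_nonneg_right h1 hgt) hgw).trans (le_of_eq ?_)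
    unfold gt gw
    rw [mul_assoc, mul_assoc, ← Real.exp_add, ← Real.exp_add, hc]
    congr 2
    ring
  have hL : ∫⁻ w : E (2 * m + 1), (∫⁻ t : ℝ, ENNReal.ofReal (F.FF t w * gt t * gw w)) ≤
      ENNReal.ofReal ((2 * Real.pi * (m.factorial : ℝ) * (2 * α) ^ m) *
        ∏ j, Real.sqrt (Real.pi / (1 / 2 - (1 + 2 * F.s j ^ 2) / (2 * (2 * m - F.del + 1))))) := by
    refine (lintegral_mono fun w => lintegral_mono fun t => hpt w t).trans ?_
    rw [hφ.lintegral_comp hGm]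
    rw [Measure.volume_eq_prod, lintegral_prod_symm _ hGm.aemeasurable]
    have h1 : ∀ v : Fin (2 * m) → ℝ, ∫⁻ X : ℝ, ∫⁻ t : ℝ, K (X, v) t ≤
        ENNReal.ofReal (2 * Real.pi * (m.factorial : ℝ) * (2 * α) ^ m) *
        ENNReal.ofReal (Real.exp (-∑ j, (1 / 2 - (1 + 2 * F.s j ^ 2) / (2 * (2 * m - F.del + 1))) * v j ^ 2)) := by
      intro v
      have hm1 : Measurable (fun q : ℝ × ℝ => ENNReal.ofReal ((α * (q.1 ^ 2 + q.2 ^ 2) + yv v) ^ m *
          Real.exp (-((q.1 ^ 2 + q.2 ^ 2) / 2)))) :=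
        (Continuous.measurable (by fun_prop)).ennreal_ofReal
      have h2 : ∫⁻ X : ℝ, ∫⁻ t : ℝ, K (X, v) t = ∫⁻ q : ℝ × ℝ, ENNReal.ofReal ((α * (q.1 ^ 2 + q.2 ^ 2) + yv v) ^ m *
          Real.exp (-((q.1 ^ 2 + q.2 ^ 2) / 2))) * ENNReal.ofReal (Real.exp (-((∑ j, v j ^ 2) / 2))) := by
        rw [Measure.volume_eq_prod, lintegral_prod _ (hm1.mul_const _).aemeasurable]
      rw [h2, lintegral_mul_const _ hm1]
      refine (mul_le_mul_left (yy_bin_glargex m α (yv v) hα0 (hyv0 v)) _).trans (le_of_eq ?_)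
      rw [← ENNReal.ofReal_mul (by positivity), ← ENNReal.ofReal_mul (by positivity)]
      congr 1
      rw [mul_assoc, ← Real.exp_add]
      congr 2
      rw [hyv, hα]
      simp only
      have e1 : ∀ j, (1 / 2 - (1 + 2 * F.s j ^ 2) / (2 * (2 * (m:ℝ) - F.del + 1))) * v j ^ 2 =
          v j ^ 2 / 2 - (1 / (2 * (2 * (m:ℝ) - F.del + 1))) * ((1 + 2 * F.s j ^ 2) * v j ^ 2) := by
        intro j
        field_simp
      simp only [e1]
      rw [Finset.sum_sub_distrib, ← Finset.mul_sum, ← Finset.sum_div]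
      field_simp
      ring
    refine (lintegral_mono h1).trans (le_of_eq ?_)
    rw [lintegral_const_mul _ ((Continuous.measurable (by fun_prop)).ennreal_ofReal), yy_prod_glargex,
      ← ENNReal.ofReal_mul (by positivity)]
    intro j
    have h3 : (1 + 2 * F.s j ^ 2) / (2 * (2 * (m:ℝ) - F.del + 1)) < 1 / 2 := by
      rw [div_lt_div_iff₀ (by positivity) (by norm_num)]
      have := hs1 j
      linarith
    linarith
  have hfin := yy_final_glargex m hm F.del _ hδ1 hδ2 (Finset.prod_nonneg fun j _ => Real.sqrt_nonneg _)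
    (yy_gam_glargex hm F.s hs1 F.del rfl (by linarith))
  refine hL.trans ((ENNReal.ofReal_le_ofReal hfin).trans ?_)
  rw [ENNReal.ofReal_mul (by norm_num)]
  apply mul_le_mul_right
  have hPsi : ∀ w : E (2 * m + 1), ENNReal.ofReal (2 ^ m * Real.sqrt 2 * Real.Gamma ((m : ℝ) + 1 / 2)) ≤
      Psi (2 * m) (F.u2 w) := by
    intro w
    rw [← zz_M_glargex m]
    unfold Psi
    apply lintegral_mono
    intro t
    apply ENNReal.ofReal_le_ofReal
    have hu : 0 ≤ F.u2 w := Finset.sum_nonneg fun j _ => sq_nonneg _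
    have h1 : |t| ≤ Real.sqrt (t ^ 2 + F.u2 w) := by
      rw [← Real.sqrt_sq_eq_abs]
      exact Real.sqrt_le_sqrt (by linarith)
    have h2 : t ^ (2 * m) = |t| * |t| ^ (2 * m - 1) := by
      rw [← pow_succ', Nat.sub_add_cancel (by omega), (even_two_mul m).pow_abs]
    have hgt : 0 ≤ gt t := (Real.exp_pos _).le
    rw [h2]
    exact mul_le_mul_of_nonneg_right (mul_le_mul_of_nonneg_right h1 (by positivity)) hgt
  have hgw : ∫⁻ w : E (2 * m + 1), ENNReal.ofReal (gw w) =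
      ENNReal.ofReal (Real.sqrt (Real.pi / (1 / 2)) * (Real.pi / (1 / 2)) ^ m) := by
    rw [← zz_G_glargex m F.x F.hx (1 / 2) (1 / 2) (by norm_num) (by norm_num)]
    congr 1
    funext w
    unfold gw
    congr 2
    ring
  have hGpos : 0 < Real.Gamma ((m : ℝ) + 1 / 2) := Real.Gamma_pos_of_pos (by positivity)
  calc ENNReal.ofReal ((2 ^ m * Real.sqrt 2 * Real.Gamma ((m : ℝ) + 1 / 2)) *
      (Real.sqrt (Real.pi / (1 / 2)) * (Real.pi / (1 / 2)) ^ m)) =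
      ENNReal.ofReal (2 ^ m * Real.sqrt 2 * Real.Gamma ((m : ℝ) + 1 / 2)) *
        ∫⁻ w : E (2 * m + 1), ENNReal.ofReal (gw w) := by
        rw [hgw, ENNReal.ofReal_mul (by positivity)]
    _ = ∫⁻ w : E (2 * m + 1), ENNReal.ofReal (2 ^ m * Real.sqrt 2 * Real.Gamma ((m : ℝ) + 1 / 2)) *
        ENNReal.ofReal (gw w) := by
        rw [lintegral_const_mul]
        unfold gw
        exact (Continuous.measurable (by fun_prop)).ennreal_ofReal
    _ ≤ _ := lintegral_mono fun w => mul_le_mul_left (hPsi w) _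



end Pool.Agent.Helper82.OS
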