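import Mathlib
import Pool.Agent.Helper82.OS.Defs
import Pool.Agent.Helper82.OS.Defs2
import Pool.Agent.Helper82.OS.Defs3
set_option autoImplicit false
open Matrix MeasureTheory Set Metric Filter Topology
open scoped ENNReal ContDiff

namespace Pool.Agent.Helper82.OS
namespace Fr
variable {N : ℕ} (F : Fr N)

end Fr

noncomputable def st1H_stein1x (u : ℝ) (j : ℕ) (s : ℝ) : ℝ := Real.sqrt (s + u) * Real.sqrt s * s ^ j
noncomputable def st1g_stein1x (t : ℝ) : ℝ := Real.exp (-(t ^ 2 / 2))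
noncomputable def st1P_stein1x (u b : ℝ) (j : ℕ) : ℝ := ∫ t : ℝ, st1H_stein1x u j (t ^ 2 + b) * st1g_stein1x t

theorem st1_int0_stein1x (k : ℕ) : Integrable (fun t : ℝ => (1 + t ^ 2) ^ k * st1g_stein1x t) := by
  have h1 : Integrable (fun t : ℝ => (4 ^ k * (k.factorial : ℝ) * Real.exp (1 / 4)) * Real.exp (-(1/4) * t ^ 2)) :=
    (integrable_exp_neg_mul_sq (by norm_num : (0:ℝ) < 1/4)).const_mul _
  refine h1.mono' ?_ ?_
  · apply Continuous.aestronglyMeasurable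
    unfold st1g_stein1x
    fun_prop
  · refine Filter.Eventually.of_forall fun t => ?_
    have h2 := Real.pow_div_factorial_le_exp ((1 + t ^ 2) / 4) (by positivity) k
    have h3 : (0:ℝ) < k.factorial := by positivity
    rw [div_le_iff₀ h3] at h2
    have h4 : (1 + t ^ 2) ^ k = 4 ^ k * ((1 + t ^ 2) / 4) ^ k := by
      rw [← mul_pow]; congr 1; ring
    rw [Real.norm_of_nonneg (by unfold st1g_stein1x; positivity)]
    rw [h4]
    unfold st1g_stein1x
    have h5 : Real.exp ((1 + t ^ 2) / 4) * Real.exp (-(t ^ 2 / 2)) = Real.exp (1 / 4) * Real.exp (-(1/4) * t ^ 2) := by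
      rw [← Real.exp_add, ← Real.exp_add]; congr 1; ring
    calc 4 ^ k * ((1 + t ^ 2) / 4) ^ k * Real.exp (-(t ^ 2 / 2))
        ≤ 4 ^ k * (Real.exp ((1 + t ^ 2) / 4) * k.factorial) * Real.exp (-(t ^ 2 / 2)) := by
          gcongr
      _ = 4 ^ k * k.factorial * (Real.exp ((1 + t ^ 2) / 4) * Real.exp (-(t ^ 2 / 2))) := by ring
      _ = _ := by rw [h5]; ring

theorem st1H_nonneg_stein1x (u : ℝ) (j : ℕ) (s : ℝ) (hs : 0 ≤ s) : 0 ≤ st1H_stein1x u j s := by
  unfold st1H_stein1x; positivity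

theorem st1H_succ_stein1x (u : ℝ) (j : ℕ) (s : ℝ) : st1H_stein1x u (j + 1) s = s * st1H_stein1x u j s := by
  unfold st1H_stein1x; ring

theorem st1H_le_stein1x (u b : ℝ) (hu : 0 ≤ u) (hb : 0 ≤ b) (j : ℕ) (t : ℝ) :
    st1H_stein1x u j (t ^ 2 + b) ≤ (b + u + 1) ^ (j + 1) * (1 + t ^ 2) ^ (j + 1) := by
  unfold st1H_stein1x
  have hA : t ^ 2 + b + u ≤ (b + u + 1) * (1 + t ^ 2) := by nlinarith [sq_nonneg t, mul_nonneg hb (sq_nonneg t), mul_nonneg hu (sq_nonneg t)]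
  have hB : t ^ 2 + b ≤ (b + u + 1) * (1 + t ^ 2) := by linarith
  rw [← mul_pow, pow_succ ((b + u + 1) * (1 + t ^ 2)) j]
  have hX : 0 ≤ (b + u + 1) * (1 + t ^ 2) := by positivity
  have h1 : Real.sqrt (t ^ 2 + b + u) * Real.sqrt (t ^ 2 + b) ≤ (b + u + 1) * (1 + t ^ 2) := by
    calc Real.sqrt (t ^ 2 + b + u) * Real.sqrt (t ^ 2 + b)
        ≤ Real.sqrt ((b + u + 1) * (1 + t ^ 2)) * Real.sqrt ((b + u + 1) * (1 + t ^ 2)) := by gcongr
      _ = _ := Real.mul_self_sqrt hX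
  calc Real.sqrt (t ^ 2 + b + u) * Real.sqrt (t ^ 2 + b) * (t ^ 2 + b) ^ j
      ≤ ((b + u + 1) * (1 + t ^ 2)) * ((b + u + 1) * (1 + t ^ 2)) ^ j := by gcongr
    _ = _ := by ring

theorem st1_intH_stein1x (u b : ℝ) (hu : 0 ≤ u) (hb : 0 ≤ b) (j : ℕ) :
    Integrable (fun t : ℝ => st1H_stein1x u j (t ^ 2 + b) * st1g_stein1x t) := by
  refine ((st1_int0_stein1x (j + 1)).const_mul ((b + u + 1) ^ (j + 1))).mono' ?_ ?_
  · apply Continuous.aestronglyMeasurable
    unfold st1g_stein1x st1H_stein1x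
    fun_prop
  · refine Filter.Eventually.of_forall fun t => ?_
    have h0 := st1H_nonneg_stein1x u j (t ^ 2 + b) (by positivity)
    have hg : 0 ≤ st1g_stein1x t := by unfold st1g_stein1x; positivity
    rw [Real.norm_of_nonneg (by positivity), ← mul_assoc]
    exact mul_le_mul_of_nonneg_right (st1H_le_stein1x u b hu hb j t) hg

/-- derivative of `t * H(t^2+b) * g`. -/
noncomputable def st1D_stein1x (u b : ℝ) (j : ℕ) (t : ℝ) : ℝ :=
  (st1H_stein1x u j (t ^ 2 + b) + t * ((2 * t / (2 * Real.sqrt (t ^ 2 + b + u)) * Real.sqrt (t ^ 2 + b)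
      + Real.sqrt (t ^ 2 + b + u) * (2 * t / (2 * Real.sqrt (t ^ 2 + b)))) * (t ^ 2 + b) ^ j
      + Real.sqrt (t ^ 2 + b + u) * Real.sqrt (t ^ 2 + b) * (j * (t ^ 2 + b) ^ (j - 1) * (2 * t)))) * st1g_stein1x t
    + t * st1H_stein1x u j (t ^ 2 + b) * (st1g_stein1x t * (-t))

theorem st1_hasDeriv_stein1x (u b : ℝ) (hu : 0 ≤ u) (hb : 0 < b) (j : ℕ) (t : ℝ) :
    HasDerivAt (fun t : ℝ => t * st1H_stein1x u j (t ^ 2 + b) * st1g_stein1x t) (st1D_stein1x u b j t) t := by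
  have hs : HasDerivAt (fun t : ℝ => t ^ 2 + b) (2 * t) t := by
    simpa using (hasDerivAt_pow 2 t).add_const b
  have hs2 : HasDerivAt (fun t : ℝ => t ^ 2 + b + u) (2 * t) t := hs.add_const u
  have h1 : HasDerivAt (fun t : ℝ => Real.sqrt (t ^ 2 + b)) (2 * t / (2 * Real.sqrt (t ^ 2 + b))) t :=
    hs.sqrt (by positivity)
  have h2 : HasDerivAt (fun t : ℝ => Real.sqrt (t ^ 2 + b + u)) (2 * t / (2 * Real.sqrt (t ^ 2 + b + u))) t :=
    hs2.sqrt (by positivity)
  have h3 : HasDerivAt (fun t : ℝ => (t ^ 2 + b) ^ j) (j * (t ^ 2 + b) ^ (j - 1) * (2 * t)) t := hs.pow j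
  have h4 := (h2.mul h1).mul h3
  have h5 : HasDerivAt st1g_stein1x (st1g_stein1x t * (-t)) t := by
    unfold st1g_stein1x
    have : HasDerivAt (fun t : ℝ => -(t ^ 2 / 2)) (-t) t := by
      have := ((hasDerivAt_pow 2 t).div_const 2).neg
      refine this.congr_deriv ?_
      norm_num
      try ring
    exact this.exp
  have h6 := ((hasDerivAt_id t).mul h4).mul h5
  refine h6.congr_deriv ?_
  simp only [st1D_stein1x, st1H_stein1x, id, Pi.mul_apply]
  ring

theorem st1D_eq_stein1x (u b : ℝ) (hu : 0 ≤ u) (hb : 0 < b) (j : ℕ) (t : ℝ) :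
    st1D_stein1x u b (j+1) t = ((2 * j + 4 + b) * st1H_stein1x u (j+1) (t ^ 2 + b) - (2 * j + 3) * b * st1H_stein1x u j (t ^ 2 + b)
      - st1H_stein1x u (j + 2) (t ^ 2 + b)) * st1g_stein1x t
      + (t ^ 2 * Real.sqrt (t ^ 2 + b) / Real.sqrt (t ^ 2 + b + u) * (t ^ 2 + b) ^ (j + 1)) * st1g_stein1x t := by
  have hs : 0 < t ^ 2 + b := by positivity
  have hsu : 0 < t ^ 2 + b + u := by positivity
  obtain ⟨x, hx0, hx⟩ : ∃ x : ℝ, 0 < x ∧ Real.sqrt (t ^ 2 + b) = x := ⟨_, Real.sqrt_pos.2 hs, rfl⟩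
  obtain ⟨y, hy0, hy⟩ : ∃ y : ℝ, 0 < y ∧ Real.sqrt (t ^ 2 + b + u) = y := ⟨_, Real.sqrt_pos.2 hsu, rfl⟩
  have hxx : t ^ 2 + b = x ^ 2 := by rw [← hx, Real.sq_sqrt hs.le]
  unfold st1D_stein1x st1H_stein1x
  rw [hx, hy]
  have ht : t ^ 2 = x ^ 2 - b := by linarith
  have hsub : t * (2 * t / (2 * x)) = (x ^ 2 - b) / x := by
    field_simp
    linarith
  have e2 : t * ((2 * t / (2 * y) * x + y * (2 * t / (2 * x))) * (t ^ 2 + b) ^ (j + 1) +
          y * x * (((j + 1 : ℕ) : ℝ) * (t ^ 2 + b) ^ (j + 1 - 1) * (2 * t)))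
        = t ^ 2 * x / y * (t ^ 2 + b) ^ (j + 1) + y * (t * (2 * t / (2 * x))) * (t ^ 2 + b) ^ (j + 1)
          + 2 * (j + 1) * t ^ 2 * (y * x) * (t ^ 2 + b) ^ j := by
    push_cast
    field_simp
  rw [e2, hsub, hxx, ht]
  field_simp
  rw [ht]
  ring

theorem st1D_eq0_stein1x (u b : ℝ) (hu : 0 ≤ u) (hb : 0 < b) (t : ℝ) :
    st1D_stein1x u b 0 t = ((1 + b) * st1H_stein1x u 0 (t ^ 2 + b) - st1H_stein1x u 1 (t ^ 2 + b)) * st1g_stein1x t
      + (t ^ 2 * Real.sqrt (t ^ 2 + b) / Real.sqrt (t ^ 2 + b + u)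
        + t ^ 2 * Real.sqrt (t ^ 2 + b + u) / Real.sqrt (t ^ 2 + b)) * st1g_stein1x t := by
  have hs : 0 < t ^ 2 + b := by positivity
  have hsu : 0 < t ^ 2 + b + u := by positivity
  obtain ⟨x, hx0, hx⟩ : ∃ x : ℝ, 0 < x ∧ Real.sqrt (t ^ 2 + b) = x := ⟨_, Real.sqrt_pos.2 hs, rfl⟩
  obtain ⟨y, hy0, hy⟩ : ∃ y : ℝ, 0 < y ∧ Real.sqrt (t ^ 2 + b + u) = y := ⟨_, Real.sqrt_pos.2 hsu, rfl⟩
  unfold st1D_stein1x st1H_stein1x
  rw [hx, hy]
  simp only [pow_zero, pow_one, mul_one, Nat.cast_zero, zero_mul, mul_zero, add_zero]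
  field_simp
  ring

theorem st1_sqrt_div_le_stein1x (u b : ℝ) (hu : 0 ≤ u) (hb : 0 < b) (t : ℝ) :
    Real.sqrt (t ^ 2 + b) / Real.sqrt (t ^ 2 + b + u) ≤ 1 := by
  have hs : 0 < t ^ 2 + b := by positivity
  have hsu : 0 < t ^ 2 + b + u := by positivity
  rw [div_le_one (Real.sqrt_pos.2 hsu)]
  exact Real.sqrt_le_sqrt (by linarith)

theorem st1_int1_stein1x (u b : ℝ) (hu : 0 ≤ u) (hb : 0 < b) (j : ℕ) :
    Integrable (fun t : ℝ => (t ^ 2 * Real.sqrt (t ^ 2 + b) / Real.sqrt (t ^ 2 + b + u) * (t ^ 2 + b) ^ j) * st1g_stein1x t) := by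
  have hpos : ∀ t : ℝ, Real.sqrt (t ^ 2 + b + u) ≠ 0 := fun t => (Real.sqrt_pos.2 (by positivity)).ne'
  refine ((st1_int0_stein1x (j + 1)).const_mul ((b + 1) ^ j)).mono' ?_ ?_
  · apply Continuous.aestronglyMeasurable
    unfold st1g_stein1x
    fun_prop (disch := exact hpos _)
  · refine Filter.Eventually.of_forall fun t => ?_
    have hg : 0 ≤ st1g_stein1x t := by unfold st1g_stein1x; positivity
    have h0 : 0 ≤ (t ^ 2 * Real.sqrt (t ^ 2 + b) / Real.sqrt (t ^ 2 + b + u) * (t ^ 2 + b) ^ j) := by positivity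
    rw [Real.norm_of_nonneg (by positivity), ← mul_assoc]
    refine mul_le_mul_of_nonneg_right ?_ hg
    have h1 := st1_sqrt_div_le_stein1x u b hu hb t
    have h2 : t ^ 2 + b ≤ (b + 1) * (1 + t ^ 2) := by nlinarith [sq_nonneg t, mul_nonneg hb.le (sq_nonneg t)]
    calc t ^ 2 * Real.sqrt (t ^ 2 + b) / Real.sqrt (t ^ 2 + b + u) * (t ^ 2 + b) ^ j
        = t ^ 2 * (Real.sqrt (t ^ 2 + b) / Real.sqrt (t ^ 2 + b + u)) * (t ^ 2 + b) ^ j := by ring
      _ ≤ (1 + t ^ 2) * 1 * ((b + 1) * (1 + t ^ 2)) ^ j := by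
          gcongr
          linarith
      _ = _ := by rw [mul_pow]; ring

theorem st1_int2_stein1x (u b : ℝ) (hu : 0 ≤ u) (hb : 0 < b) :
    Integrable (fun t : ℝ => (t ^ 2 * Real.sqrt (t ^ 2 + b + u) / Real.sqrt (t ^ 2 + b)) * st1g_stein1x t) := by
  have hpos : ∀ t : ℝ, Real.sqrt (t ^ 2 + b) ≠ 0 := fun t => (Real.sqrt_pos.2 (by positivity)).ne'
  refine (st1_intH_stein1x u b hu hb.le 0).mono' ?_ ?_
  · apply Continuous.aestronglyMeasurable
    unfold st1g_stein1x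
    fun_prop (disch := exact hpos _)
  · refine Filter.Eventually.of_forall fun t => ?_
    have hg : 0 ≤ st1g_stein1x t := by unfold st1g_stein1x; positivity
    have h0 : 0 ≤ (t ^ 2 * Real.sqrt (t ^ 2 + b + u) / Real.sqrt (t ^ 2 + b)) := by positivity
    rw [Real.norm_of_nonneg (by positivity)]
    refine mul_le_mul_of_nonneg_right ?_ hg
    unfold st1H_stein1x
    have hx0 : 0 < Real.sqrt (t ^ 2 + b) := Real.sqrt_pos.2 (by positivity)
    rw [div_le_iff₀ hx0]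
    have h3 : Real.sqrt (t ^ 2 + b) * Real.sqrt (t ^ 2 + b) = t ^ 2 + b := Real.mul_self_sqrt (by positivity)
    calc t ^ 2 * Real.sqrt (t ^ 2 + b + u) ≤ (t ^ 2 + b) * Real.sqrt (t ^ 2 + b + u) := by
          gcongr; linarith
      _ = (Real.sqrt (t ^ 2 + b) * Real.sqrt (t ^ 2 + b)) * Real.sqrt (t ^ 2 + b + u) := by rw [h3]
      _ = _ := by ring

theorem st1_intt_stein1x (u b : ℝ) (hu : 0 ≤ u) (hb : 0 < b) (j : ℕ) :
    Integrable (fun t : ℝ => t * st1H_stein1x u j (t ^ 2 + b) * st1g_stein1x t) := by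
  refine ((st1_intH_stein1x u b hu hb.le j).add (st1_intH_stein1x u b hu hb.le (j + 1))).mono' ?_ ?_
  · apply Continuous.aestronglyMeasurable
    unfold st1g_stein1x st1H_stein1x
    fun_prop
  · refine Filter.Eventually.of_forall fun t => ?_
    have hg : 0 ≤ st1g_stein1x t := by unfold st1g_stein1x; positivity
    have h0 := st1H_nonneg_stein1x u j (t ^ 2 + b) (by positivity)
    simp only [Pi.add_apply]
    rw [st1H_succ_stein1x, norm_mul, norm_mul, Real.norm_of_nonneg hg, Real.norm_of_nonneg h0, Real.norm_eq_abs]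
    have h4 : |t| ≤ 1 + (t ^ 2 + b) := by
      rw [abs_le]; constructor <;> nlinarith [sq_nonneg (t - 1), sq_nonneg (t + 1)]
    calc |t| * st1H_stein1x u j (t ^ 2 + b) * st1g_stein1x t ≤ (1 + (t ^ 2 + b)) * st1H_stein1x u j (t ^ 2 + b) * st1g_stein1x t := by gcongr
      _ = _ := by ring

/-- Stein -/
theorem st1_stein_stein1x (u b : ℝ) (hu : 0 ≤ u) (hb : 0 < b) (j : ℕ) :
    (2 * j + 4 + b) * st1P_stein1x u b (j+1) - (2 * j + 3) * b * st1P_stein1x u b j ≤ st1P_stein1x u b (j + 2) := by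
  have hH := fun k => st1_intH_stein1x u b hu hb.le k
  have hE := st1_int1_stein1x u b hu hb (j + 1)
  have hc : Integrable (fun t : ℝ => (2 * j + 4 + b) * (st1H_stein1x u (j+1) (t ^ 2 + b) * st1g_stein1x t)
      - (2 * j + 3) * b * (st1H_stein1x u j (t ^ 2 + b) * st1g_stein1x t) - st1H_stein1x u (j + 2) (t ^ 2 + b) * st1g_stein1x t) :=
    (((hH (j+1)).const_mul _).sub ((hH j).const_mul _)).sub (hH (j+2))
  have hDeq : st1D_stein1x u b (j+1) = fun t : ℝ => ((2 * j + 4 + b) * (st1H_stein1x u (j+1) (t ^ 2 + b) * st1g_stein1x t)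
      - (2 * j + 3) * b * (st1H_stein1x u j (t ^ 2 + b) * st1g_stein1x t) - st1H_stein1x u (j + 2) (t ^ 2 + b) * st1g_stein1x t)
      + (t ^ 2 * Real.sqrt (t ^ 2 + b) / Real.sqrt (t ^ 2 + b + u) * (t ^ 2 + b) ^ (j + 1)) * st1g_stein1x t := by
    funext t
    rw [st1D_eq_stein1x u b hu hb]
    ring
  have hD : Integrable (st1D_stein1x u b (j+1)) := by
    rw [hDeq]
    exact hc.add hE
  have h0 : ∫ t, st1D_stein1x u b (j+1) t = 0 :=
    integral_eq_zero_of_hasDerivAt_of_integrable (fun t => st1_hasDeriv_stein1x u b hu hb (j+1) t) hD (st1_intt_stein1x u b hu hb (j+1))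
  have h1 : ∫ t, ((2 * j + 4 + b) * (st1H_stein1x u (j+1) (t ^ 2 + b) * st1g_stein1x t)
      - (2 * j + 3) * b * (st1H_stein1x u j (t ^ 2 + b) * st1g_stein1x t) - st1H_stein1x u (j + 2) (t ^ 2 + b) * st1g_stein1x t) ≤ ∫ t, st1D_stein1x u b (j+1) t := by
    refine integral_mono hc hD fun t => ?_
    rw [hDeq]
    have hg : 0 ≤ st1g_stein1x t := by unfold st1g_stein1x; positivity
    have : 0 ≤ (t ^ 2 * Real.sqrt (t ^ 2 + b) / Real.sqrt (t ^ 2 + b + u) * (t ^ 2 + b) ^ (j + 1)) * st1g_stein1x t := by positivity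
    simp only
    linarith
  have hab : Integrable (fun t : ℝ => (2 * j + 4 + b) * (st1H_stein1x u (j+1) (t ^ 2 + b) * st1g_stein1x t)
      - (2 * j + 3) * b * (st1H_stein1x u j (t ^ 2 + b) * st1g_stein1x t)) := ((hH (j+1)).const_mul _).sub ((hH j).const_mul _)
  rw [h0, integral_sub hab (hH (j+2)),
    integral_sub ((hH (j+1)).const_mul _) ((hH j).const_mul _), integral_const_mul, integral_const_mul] at h1
  unfold st1P_stein1x
  linarith

theorem st1_stein0_stein1x (u b : ℝ) (hu : 0 ≤ u) (hb : 0 < b) :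
    (1 + b) * st1P_stein1x u b 0 ≤ st1P_stein1x u b 1 := by
  have hH := fun k => st1_intH_stein1x u b hu hb.le k
  have hE := st1_int1_stein1x u b hu hb 0
  have hE2 := st1_int2_stein1x u b hu hb
  have hc : Integrable (fun t : ℝ => (1 + b) * (st1H_stein1x u 0 (t ^ 2 + b) * st1g_stein1x t) - st1H_stein1x u 1 (t ^ 2 + b) * st1g_stein1x t) :=
    ((hH 0).const_mul _).sub (hH 1)
  have hDeq : st1D_stein1x u b 0 = fun t : ℝ => ((1 + b) * (st1H_stein1x u 0 (t ^ 2 + b) * st1g_stein1x t) - st1H_stein1x u 1 (t ^ 2 + b) * st1g_stein1x t)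
      + ((t ^ 2 * Real.sqrt (t ^ 2 + b) / Real.sqrt (t ^ 2 + b + u) * (t ^ 2 + b) ^ 0) * st1g_stein1x t
      + (t ^ 2 * Real.sqrt (t ^ 2 + b + u) / Real.sqrt (t ^ 2 + b)) * st1g_stein1x t) := by
    funext t
    rw [st1D_eq0_stein1x u b hu hb]
    ring
  have hD : Integrable (st1D_stein1x u b 0) := by
    rw [hDeq]
    exact hc.add (hE.add hE2)
  have h0 : ∫ t, st1D_stein1x u b 0 t = 0 :=
    integral_eq_zero_of_hasDerivAt_of_integrable (fun t => st1_hasDeriv_stein1x u b hu hb 0 t) hD (st1_intt_stein1x u b hu hb 0)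
  have h1 : ∫ t, ((1 + b) * (st1H_stein1x u 0 (t ^ 2 + b) * st1g_stein1x t) - st1H_stein1x u 1 (t ^ 2 + b) * st1g_stein1x t) ≤ ∫ t, st1D_stein1x u b 0 t := by
    refine integral_mono hc hD fun t => ?_
    rw [hDeq]
    have hg : 0 ≤ st1g_stein1x t := by unfold st1g_stein1x; positivity
    have : 0 ≤ (t ^ 2 * Real.sqrt (t ^ 2 + b) / Real.sqrt (t ^ 2 + b + u) * (t ^ 2 + b) ^ 0) * st1g_stein1x t := by positivity
    have : 0 ≤ (t ^ 2 * Real.sqrt (t ^ 2 + b + u) / Real.sqrt (t ^ 2 + b)) * st1g_stein1x t := by positivity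
    simp only
    linarith
  rw [h0, integral_sub ((hH 0).const_mul _) (hH 1), integral_const_mul] at h1
  unfold st1P_stein1x
  linarith

theorem st1P_nonneg_stein1x (u b : ℝ) (hb : 0 ≤ b) (j : ℕ) : 0 ≤ st1P_stein1x u b j := by
  refine integral_nonneg fun t => ?_
  have hg : 0 ≤ st1g_stein1x t := by unfold st1g_stein1x; positivity
  have h0 := st1H_nonneg_stein1x u j (t ^ 2 + b) (by positivity)
  exact mul_nonneg h0 hg

theorem st1P_b_stein1x (u b : ℝ) (hu : 0 ≤ u) (hb : 0 ≤ b) (j : ℕ) : b * st1P_stein1x u b j ≤ st1P_stein1x u b (j + 1) := by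
  unfold st1P_stein1x
  rw [← integral_const_mul]
  refine integral_mono ((st1_intH_stein1x u b hu hb j).const_mul _) (st1_intH_stein1x u b hu hb (j+1)) fun t => ?_
  have hg : 0 ≤ st1g_stein1x t := by unfold st1g_stein1x; positivity
  have h0 := st1H_nonneg_stein1x u j (t ^ 2 + b) (by positivity)
  simp only
  rw [st1H_succ_stein1x, mul_assoc]
  refine mul_le_mul_of_nonneg_right ?_ (mul_nonneg h0 hg)
  nlinarith [sq_nonneg t]

/-- C_j: `b (2j+3) P_j ≤ (j+1+b) P_{j+1}` -/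
theorem st1_C_stein1x (u b : ℝ) (hu : 0 ≤ u) (hb : 0 < b) (j : ℕ) :
    b * (2 * j + 3) * st1P_stein1x u b j ≤ (j + 1 + b) * st1P_stein1x u b (j + 1) := by
  induction j with
  | zero =>
    have h := st1_stein0_stein1x u b hu hb
    have h0 := st1P_nonneg_stein1x u b hb.le 0
    have h2 : (1 + b) * ((1 + b) * st1P_stein1x u b 0) ≤ (1 + b) * st1P_stein1x u b 1 :=
      mul_le_mul_of_nonneg_left h (by linarith)
    have h3 : 3 * b * st1P_stein1x u b 0 ≤ (1 + b) * ((1 + b) * st1P_stein1x u b 0) := by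
      rw [← mul_assoc]
      refine mul_le_mul_of_nonneg_right ?_ h0
      nlinarith [sq_nonneg (2 * b - 1)]
    simp only [Nat.cast_zero, zero_add, mul_zero]
    linarith
  | succ j ih =>
    have h := st1_stein_stein1x u b hu hb j
    have h0 := st1P_nonneg_stein1x u b hb.le (j + 1)
    have h2 := st1P_b_stein1x u b hu hb.le (j + 1)
    have h1 : (j + 3) * st1P_stein1x u b (j + 1) ≤ st1P_stein1x u b (j + 2) := by
      have : (2 * j + 3) * b * st1P_stein1x u b j = b * (2 * j + 3) * st1P_stein1x u b j := by ring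
      nlinarith
    push_cast
    rcases le_total b (j + 3) with hbj | hbj
    · have h3 : b * (2 * (j + 1) + 3) * st1P_stein1x u b (j + 1) ≤ (j + 1 + 1 + b) * ((j + 3) * st1P_stein1x u b (j + 1)) := by
        rw [← mul_assoc]
        refine mul_le_mul_of_nonneg_right ?_ h0
        nlinarith
      refine h3.trans (mul_le_mul_of_nonneg_left h1 (by positivity))
    · have h3 : b * (2 * (j + 1) + 3) * st1P_stein1x u b (j + 1) ≤ (j + 1 + 1 + b) * (b * st1P_stein1x u b (j + 1)) := by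
        rw [← mul_assoc]
        refine mul_le_mul_of_nonneg_right ?_ h0
        nlinarith
      refine h3.trans (mul_le_mul_of_nonneg_left h2 (by positivity))

theorem st1_key_stein1x (u b : ℝ) (hu : 0 ≤ u) (hb : 0 < b) (j : ℕ) :
    (j + 3) * st1P_stein1x u b (j + 1) ≤ st1P_stein1x u b (j + 2) := by
  have h := st1_stein_stein1x u b hu hb j
  have ih := st1_C_stein1x u b hu hb j
  have : (2 * j + 3) * b * st1P_stein1x u b j = b * (2 * j + 3) * st1P_stein1x u b j := by ring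
  nlinarith

/-- pointwise step; `j+2 = m-1` -/
theorem st1_pt_stein1x (u : ℝ) (hu : 0 ≤ u) (j : ℕ) (s x : ℝ) (hs : 0 ≤ s) (hx : 0 < x) (hsx : s ≤ x) :
    st1H_stein1x u (j + 2) x ≤ st1H_stein1x u (j + 2) s + (x - s) * ((j + 3) * st1H_stein1x u (j + 1) x) := by
  unfold st1H_stein1x
  have hA : Real.sqrt (x + u) * (s / x) ≤ Real.sqrt (s + u) * (Real.sqrt s / Real.sqrt x) := by
    have hx' : 0 < Real.sqrt x := Real.sqrt_pos.2 hx
    have h1 : s / x = (Real.sqrt s / Real.sqrt x) * (Real.sqrt s / Real.sqrt x) := by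
      rw [div_mul_div_comm, Real.mul_self_sqrt hs, Real.mul_self_sqrt hx.le]
    rw [h1, ← mul_assoc]
    refine mul_le_mul_of_nonneg_right ?_ (by positivity)
    rw [← mul_div_assoc, div_le_iff₀ hx', ← Real.sqrt_mul (by positivity), ← Real.sqrt_mul (by positivity)]
    refine Real.sqrt_le_sqrt ?_
    nlinarith
  have hpow : x ^ (j + 3) - s ^ (j + 3) ≤ (x - s) * ((j + 3) * x ^ (j + 2)) := by
    have h := abs_pow_sub_pow_le x s (j + 3)
    rw [abs_of_nonneg (sub_nonneg.2 (pow_le_pow_left₀ hs hsx _)), abs_of_nonneg (sub_nonneg.2 hsx),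
      abs_of_nonneg hs, abs_of_pos hx, max_eq_left hsx] at h
    push_cast at h
    have e : j + 3 - 1 = j + 2 := by omega
    try rw [e] at h
    linarith
  have hx' : 0 < Real.sqrt x := Real.sqrt_pos.2 hx
  have hxx : Real.sqrt x * Real.sqrt x = x := Real.mul_self_sqrt hx.le
  have hB : Real.sqrt (x + u) * Real.sqrt x * (s / x) ≤ Real.sqrt (s + u) * Real.sqrt s := by
    calc Real.sqrt (x + u) * Real.sqrt x * (s / x) = (Real.sqrt (x + u) * (s / x)) * Real.sqrt x := by ring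
      _ ≤ (Real.sqrt (s + u) * (Real.sqrt s / Real.sqrt x)) * Real.sqrt x := mul_le_mul_of_nonneg_right hA hx'.le
      _ = _ := by field_simp
  have hC : Real.sqrt (x + u) * Real.sqrt x * (s / x) * s ^ (j + 2) ≤ Real.sqrt (s + u) * Real.sqrt s * s ^ (j + 2) :=
    mul_le_mul_of_nonneg_right hB (by positivity)
  have hQ : 0 ≤ Real.sqrt (x + u) * Real.sqrt x / x := by positivity
  have hD : Real.sqrt (x + u) * Real.sqrt x / x * (x ^ (j + 3) - s ^ (j + 3)) ≤
      Real.sqrt (x + u) * Real.sqrt x / x * ((x - s) * ((j + 3) * x ^ (j + 2))) := mul_le_mul_of_nonneg_left hpow hQ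
  have e1 : Real.sqrt (x + u) * Real.sqrt x / x * (x ^ (j + 3) - s ^ (j + 3)) =
      Real.sqrt (x + u) * Real.sqrt x * x ^ (j + 2) - Real.sqrt (x + u) * Real.sqrt x * (s / x) * s ^ (j + 2) := by
    field_simp
    ring
  have e2 : Real.sqrt (x + u) * Real.sqrt x / x * ((x - s) * ((j + 3) * x ^ (j + 2))) =
      (x - s) * ((j + 3) * (Real.sqrt (x + u) * Real.sqrt x * x ^ (j + 1))) := by
    field_simp
    ring
  rw [e1, e2] at hD
  linarith

theorem st1_step_stein1x (u b h : ℝ) (hu : 0 ≤ u) (hb : 0 ≤ b) (hh : 0 < h) (j : ℕ) :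
    (1 - h) * st1P_stein1x u (b + h) (j + 2) ≤ st1P_stein1x u b (j + 2) := by
  have hk := st1_key_stein1x u (b + h) hu (by linarith) j
  have h1 : st1P_stein1x u (b + h) (j + 2) ≤ st1P_stein1x u b (j + 2) + h * ((j + 3) * st1P_stein1x u (b + h) (j + 1)) := by
    unfold st1P_stein1x
    rw [← integral_const_mul, ← integral_const_mul, ← integral_add (st1_intH_stein1x u b hu hb _)
      (((st1_intH_stein1x u (b + h) hu (by linarith) _).const_mul _).const_mul _)]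
    refine integral_mono (st1_intH_stein1x u (b + h) hu (by linarith) _) ((st1_intH_stein1x u b hu hb _).add
      (((st1_intH_stein1x u (b + h) hu (by linarith) _).const_mul _).const_mul _)) fun t => ?_
    have hg : 0 ≤ st1g_stein1x t := by unfold st1g_stein1x; positivity
    have := st1_pt_stein1x u hu j (t ^ 2 + b) (t ^ 2 + (b + h)) (by positivity) (by positivity) (by linarith)
    have h2 := mul_le_mul_of_nonneg_right this hg
    calc _ ≤ _ := h2
      _ = _ := by ring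
  have h2 : h * ((j + 3) * st1P_stein1x u (b + h) (j + 1)) ≤ h * st1P_stein1x u (b + h) (j + 2) := mul_le_mul_of_nonneg_left hk hh.le
  linarith

theorem st1_iter_stein1x (u b : ℝ) (hu : 0 ≤ u) (hb : 0 < b) (j n : ℕ) (hn : b < n) (k : ℕ) :
    (1 - b / n) ^ k * st1P_stein1x u (k * (b / n)) (j + 2) ≤ st1P_stein1x u 0 (j + 2) := by
  have hn0 : (0:ℝ) < n := hb.trans hn
  have hbn : 0 < b / n := by positivity
  have hbn1 : b / n < 1 := by rwa [div_lt_one hn0]
  induction k with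
  | zero => simp
  | succ k ih =>
    refine le_trans ?_ ih
    have := st1_step_stein1x u (k * (b / n)) (b / n) hu (by positivity) hbn j
    have e : ((k + 1 : ℕ) : ℝ) * (b / n) = k * (b / n) + b / n := by push_cast; ring
    rw [e, pow_succ, mul_assoc]
    exact mul_le_mul_of_nonneg_left this (pow_nonneg (by linarith) _)

theorem st1_main_stein1x (u b : ℝ) (hu : 0 ≤ u) (hb : 0 ≤ b) (j : ℕ) :
    st1P_stein1x u b (j + 2) ≤ Real.exp b * st1P_stein1x u 0 (j + 2) := by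
  rcases hb.eq_or_lt with rfl | hb
  · simp
  have ht : Tendsto (fun n : ℕ => (1 - b / n) ^ n * st1P_stein1x u b (j + 2)) atTop (𝓝 (Real.exp (-b) * st1P_stein1x u b (j + 2))) := by
    have := Real.tendsto_one_add_div_pow_exp (-b)
    refine Tendsto.mul_const _ ?_
    refine this.congr fun n => ?_
    rw [neg_div]; ring
  have hle : Real.exp (-b) * st1P_stein1x u b (j + 2) ≤ st1P_stein1x u 0 (j + 2) := by
    refine le_of_tendsto ht ?_
    obtain ⟨N, hN⟩ := exists_nat_gt b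
    filter_upwards [eventually_ge_atTop N] with n hn
    have hbn : b < n := hN.trans_le (by exact_mod_cast hn)
    have hn0 : (n:ℝ) ≠ 0 := (hb.trans hbn).ne'
    have := st1_iter_stein1x u b hu hb j n hbn n
    have e : (n:ℝ) * (b / n) = b := by field_simp
    rwa [e] at this
  calc st1P_stein1x u b (j + 2) = Real.exp b * (Real.exp (-b) * st1P_stein1x u b (j + 2)) := by
        rw [← mul_assoc, ← Real.exp_add]; simp
    _ ≤ _ := mul_le_mul_of_nonneg_left hle (Real.exp_pos _).le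

theorem stein1 {m : ℕ} (hm : 3 ≤ m) (u b : ℝ) (hu : 0 ≤ u) (hb : 0 ≤ b) :
    ∫⁻ t : ℝ, ENNReal.ofReal (Real.sqrt (t ^ 2 + u + b) * Real.sqrt ((t ^ 2 + b) ^ (2 * m - 1)) * gt t)
      ≤ ENNReal.ofReal (Real.exp b) * Psi (2 * m) u := by
  obtain ⟨j, rfl⟩ : ∃ j, m = j + 3 := ⟨m - 3, by omega⟩
  have hkey := st1_main_stein1x u b hu hb j
  have hconv : ∀ c : ℝ, 0 ≤ c → ∫⁻ t : ℝ, ENNReal.ofReal (st1H_stein1x u (j + 2) (t ^ 2 + c) * st1g_stein1x t) = ENNReal.ofReal (st1P_stein1x u c (j + 2)) := by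
    intro c hc
    unfold st1P_stein1x
    rw [ofReal_integral_eq_lintegral_ofReal (st1_intH_stein1x u c hu hc (j + 2))]
    refine Filter.Eventually.of_forall fun t => ?_
    have hg : 0 ≤ st1g_stein1x t := by unfold st1g_stein1x; positivity
    exact mul_nonneg (st1H_nonneg_stein1x u (j + 2) (t ^ 2 + c) (by positivity)) hg
  have e0 : ∀ t : ℝ, Real.sqrt (t ^ 2 + u + b) * Real.sqrt ((t ^ 2 + b) ^ (2 * (j + 3) - 1)) * gt t
      = st1H_stein1x u (j + 2) (t ^ 2 + b) * st1g_stein1x t := by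
    intro t
    unfold st1H_stein1x gt st1g_stein1x
    have h1 : 2 * (j + 3) - 1 = 2 * (j + 2) + 1 := by omega
    have h2 : Real.sqrt ((t ^ 2 + b) ^ (2 * (j + 2) + 1)) = (t ^ 2 + b) ^ (j + 2) * Real.sqrt (t ^ 2 + b) := by
      rw [pow_succ, pow_mul', Real.sqrt_mul (by positivity), Real.sqrt_sq (by positivity)]
    rw [h1, h2, show t ^ 2 + u + b = t ^ 2 + b + u by ring]
    ring
  have e1 : ∀ t : ℝ, Real.sqrt (t ^ 2 + u) * |t| ^ (2 * (j + 3) - 1) * gt t
      = st1H_stein1x u (j + 2) (t ^ 2 + 0) * st1g_stein1x t := by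
    intro t
    unfold st1H_stein1x gt st1g_stein1x
    have h1 : 2 * (j + 3) - 1 = 2 * (j + 2) + 1 := by omega
    have h3 : |t| ^ (2 * (j + 2) + 1) = (t ^ 2) ^ (j + 2) * |t| := by
      rw [pow_succ |t|, pow_mul, sq_abs]
    rw [h1, add_zero, h3, Real.sqrt_sq_eq_abs]
    ring
  unfold Psi
  simp_rw [e0, e1]
  rw [hconv b hb, hconv 0 le_rfl, ← ENNReal.ofReal_mul (Real.exp_pos _).le]
  exact ENNReal.ofReal_le_ofReal hkey



end Pool.Agent.Helper82.OS
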