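import Mathlib
import Pool.Agent.Helper82.OS.Defs
import Pool.Agent.Helper82.OS.Defs2
import Pool.Agent.Helper82.OS.Defs3
import Pool.Agent.Helper82.OS.amgm
import Pool.Agent.Helper82.OS.ray
import Pool.Agent.Helper82.OS.trc
set_option autoImplicit false
open Matrix MeasureTheory Set Metric Filter Topology
open scoped ENNReal ContDiff

namespace Pool.Agent.Helper82.OS
namespace Fr
variable {N : ℕ} (F : Fr N)

end Fr

theorem Fr.ray2_quad_sym2x {N : ℕ} (F : Fr N) (t : ℝ) (w : E (N + 1)) (n : Fin N → ℝ) :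
    n ⬝ᵥ (F.Gm t w *ᵥ n) = ‖∑ j, n j • F.Mv t w j‖ ^ 2 + (∑ j, n j * F.lv w j) ^ 2 := by
  rw [← real_inner_self_eq_norm_sq, sum_inner]
  simp only [inner_sum, real_inner_smul_left, real_inner_smul_right]
  simp only [dotProduct, Matrix.mulVec, Fr.Gm, Matrix.of_apply]
  rw [sq, Finset.sum_mul_sum, ← Finset.sum_add_distrib]
  refine Finset.sum_congr rfl fun i _ => ?_
  rw [Finset.mul_sum, ← Finset.sum_add_distrib]
  refine Finset.sum_congr rfl fun j _ => ?_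
  ring

theorem Fr.ray2_mv_sym2x {N : ℕ} (F : Fr N) (t : ℝ) (w : E (N + 1)) (j : Fin N) :
    inner ℝ (F.Mv t w j) (F.pr w) = t * F.lv w j - inner ℝ w F.e * F.eps w j := by
  unfold Fr.Mv Fr.pr Fr.lv Fr.eps
  simp only [inner_sub_right, inner_add_left, real_inner_smul_left, real_inner_smul_right,
    inner_sub_left, F.hqe j]
  rw [real_inner_comm w (F.q j), real_inner_comm w (F.g j), real_inner_comm w F.x]
  ring

theorem Fr.ray2_L_sym2x {N : ℕ} (F : Fr N) (w : E (N + 1)) (hu : F.u2 w ≠ 0) :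
    ∑ j, F.lv w j ^ 2 = F.u2 w * (1 - F.eta w) := by
  have h1 : F.u2 w * F.eta w = ∑ j, F.s j ^ 2 * inner ℝ w (F.q j) ^ 2 := by
    unfold Fr.eta
    rw [mul_div_cancel₀ _ hu]
  have h2 : F.u2 w * (1 - F.eta w) = F.u2 w - F.u2 w * F.eta w := by ring
  rw [h2, h1]
  unfold Fr.u2 Fr.lv
  rw [← Finset.sum_sub_distrib]
  refine Finset.sum_congr rfl fun j _ => ?_
  have h3 := F.hcs j
  have h4 : F.c j ^ 2 = 1 - F.s j ^ 2 := by linarith
  rw [mul_pow, h4]
  ring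

theorem Fr.u2_nonneg_sym2x {N : ℕ} (F : Fr N) (w : E (N + 1)) : 0 ≤ F.u2 w :=
  Finset.sum_nonneg fun _ _ => sq_nonneg _

/-- Rayleigh lower bound for all w (no normalisation of w) -/
theorem Fr.ray2 {N : ℕ} (hN : 1 ≤ N) (F : Fr N) (t : ℝ) (w : E (N + 1)) (hu : F.u2 w ≠ 0) :
    ∃ n : Fin N → ℝ, n ⬝ᵥ n = 1 ∧
      (1 - F.eta w) * (t ^ 2 + F.u2 w) - 2 * t * F.k2 w ≤ n ⬝ᵥ (F.Gm t w *ᵥ n) := by
  have hu0 : 0 < F.u2 w := lt_of_le_of_ne (F.u2_nonneg_sym2x w) (Ne.symm hu)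
  have hL := F.ray2_L_sym2x w hu
  set L := ∑ j, F.lv w j ^ 2 with hLdef
  have hL0 : 0 ≤ L := Finset.sum_nonneg fun _ _ => sq_nonneg _
  have heta : 1 - F.eta w = L / F.u2 w := by
    rw [hL]
    field_simp
  rcases hL0.eq_or_lt with h0 | hpos
  · -- all `lv` vanish
    have hlv : ∀ j, F.lv w j = 0 := by
      intro j
      have h1 : ∀ j ∈ Finset.univ, F.lv w j ^ 2 = 0 :=
        (Finset.sum_eq_zero_iff_of_nonneg (fun _ _ => sq_nonneg _)).1 h0.symm
      exact pow_eq_zero_iff (two_ne_zero) |>.1 (h1 j (Finset.mem_univ j))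
    have hk : F.k2 w = 0 := by
      unfold Fr.k2
      have : ∑ j, F.lv w j * F.eps w j = 0 :=
        Finset.sum_eq_zero fun j _ => by rw [hlv j, zero_mul]
      rw [this]
      simp
    refine ⟨Pi.single ⟨0, by omega⟩ 1, by simp, ?_⟩
    rw [heta, ← h0, hk]
    have h2 := F.ray2_quad_sym2x t w (Pi.single ⟨0, by omega⟩ 1)
    rw [h2]
    have : (0:ℝ) / F.u2 w * (t ^ 2 + F.u2 w) - 2 * t * 0 = 0 := by simp
    rw [this]
    positivity
  · set r := Real.sqrt L with hr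
    have hr0 : 0 < r := Real.sqrt_pos.2 hpos
    have hr2 : r ^ 2 = L := Real.sq_sqrt hL0
    refine ⟨fun j => F.lv w j / r, ?_, ?_⟩
    · simp only [dotProduct]
      have h1 : ∀ j, F.lv w j / r * (F.lv w j / r) = F.lv w j ^ 2 / r ^ 2 := by
        intro j
        field_simp
      simp_rw [h1]
      rw [← Finset.sum_div, hr2, ← hLdef, div_self hpos.ne']
    · rw [F.ray2_quad_sym2x]
      set S := ∑ j, F.lv w j * F.eps w j with hS
      have h1 : ∑ j, F.lv w j / r * F.lv w j = r := by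
        have : ∀ j, F.lv w j / r * F.lv w j = F.lv w j ^ 2 / r := fun j => by ring
        simp_rw [this]
        rw [← Finset.sum_div, ← hLdef, ← hr2]
        field_simp
      rw [h1, hr2]
      set y := ∑ j, (F.lv w j / r) • F.Mv t w j with hy
      have h2 : inner ℝ y (F.pr w) = (t * L - inner ℝ w F.e * S) / r := by
        rw [hy, sum_inner]
        simp_rw [real_inner_smul_left, F.ray2_mv_sym2x]
        rw [hLdef, hS, Finset.mul_sum, Finset.mul_sum, ← Finset.sum_sub_distrib, Finset.sum_div]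
        refine Finset.sum_congr rfl fun j _ => ?_
        ring
      have h3 : inner ℝ y (F.pr w) ^ 2 ≤ ‖y‖ ^ 2 * F.u2 w := by
        rw [F.u2_pr, ← mul_pow, ← sq_abs]
        exact pow_le_pow_left₀ (abs_nonneg _) (abs_real_inner_le_norm _ _) 2
      rw [h2, div_pow, hr2] at h3
      have h4 : t ^ 2 * L - 2 * t * (inner ℝ w F.e * S) ≤ (t * L - inner ℝ w F.e * S) ^ 2 / L := by
        rw [le_div_iff₀ hpos]
        nlinarith [sq_nonneg (inner ℝ w F.e * S)]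
      have h5 : t ^ 2 * L - 2 * t * (inner ℝ w F.e * S) ≤ ‖y‖ ^ 2 * F.u2 w := h4.trans h3
      have h6 : (1 - F.eta w) * (t ^ 2 + F.u2 w) - 2 * t * F.k2 w =
          (t ^ 2 * L - 2 * t * (inner ℝ w F.e * S)) / F.u2 w + L := by
        rw [heta]
        unfold Fr.k2
        rw [← hS]
        field_simp
        ring
      rw [h6]
      have h7 : (t ^ 2 * L - 2 * t * (inner ℝ w F.e * S)) / F.u2 w ≤ ‖y‖ ^ 2 := by
        rw [div_le_iff₀ hu0]
        exact h5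
      linarith

theorem Fr.sym2_exp_sym2x (N : ℕ) (Y x : ℝ) (hY : 0 ≤ Y) (h : (N : ℝ) * Y ≤ N + x) :
    Real.sqrt (Y ^ N) ≤ Real.exp (x / 2) := by
  have h1 : Y ≤ Real.exp (Y - 1) := by
    have := Real.add_one_le_exp (Y - 1)
    linarith
  have h2 : Y ^ N ≤ Real.exp x := by
    calc Y ^ N ≤ (Real.exp (Y - 1)) ^ N := pow_le_pow_left₀ hY h1 N
      _ = Real.exp (N * (Y - 1)) := by rw [← Real.exp_nat_mul]
      _ ≤ Real.exp x := Real.exp_le_exp.2 (by linarith)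
  calc Real.sqrt (Y ^ N) ≤ Real.sqrt (Real.exp x) := Real.sqrt_le_sqrt h2
    _ = Real.exp (x / 2) := by rw [Real.exp_half]

theorem Fr.sym2_one_sym2x {N : ℕ} (hN : 2 ≤ N) (F : Fr N) (t : ℝ) (w : E (N + 1)) (hu : F.u2 w ≠ 0)
    (ht : t ≠ 0) (hal : 0 < F.al w) (hal1 : F.al w ≤ 1) (hb : 0 ≤ F.bb w) :
    F.FF t w ≤ Real.sqrt ((t ^ 2 + F.u2 w + F.bb w) * (F.al w * t ^ 2 + F.bb w) ^ (N - 1)) *
      Real.exp ((- ((2 * (F.hh w - F.k2 w) ^ 2 / F.al w + 2 * F.k2 w ^ 2) /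
        (F.al w * t ^ 2 + F.bb w)) - F.eta w -
        2 * (t * ((F.hh w - F.k2 w) / (F.al w * t ^ 2 + F.bb w) +
          F.k2 w / (t ^ 2 + F.u2 w + F.bb w)))) / 2) := by
  have hN1 : (0:ℝ) < (N:ℝ) - 1 := by
    have : (2:ℝ) ≤ N := by exact_mod_cast hN
    linarith
  have hN0 : (0:ℝ) < N := by linarith
  have hu0 : 0 < F.u2 w := lt_of_le_of_ne (F.u2_nonneg_sym2x w) (Ne.symm hu)
  have ht2 : 0 < t ^ 2 := by positivity
  obtain ⟨he0, he1, hed⟩ := F.eta_bd w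
  obtain ⟨n, hn, hray⟩ := F.ray2 (by omega) t w hu
  set κ := F.hh w - F.k2 w with hκ
  set α := F.al w with hα
  set b := F.bb w with hbd
  set u := F.u2 w with hud
  set η := F.eta w with hη
  set k := F.k2 w with hk
  have ha : 0 < α * t ^ 2 + b := by positivity
  have hag : α * t ^ 2 + b ≤ t ^ 2 + u + b := by nlinarith
  have hg0 : 0 < t ^ 2 + u + b := by positivity
  obtain ⟨h1, h2⟩ := amgm (by omega) (F.Gm t w) (F.psd t w) n hn
    ((1 - η) * (t ^ 2 + u) - 2 * t * k) (α * t ^ 2 + b) (t ^ 2 + u + b) hray ha hag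
  set Y := ((((F.Gm t w).trace - ((1 - η) * (t ^ 2 + u) - 2 * t * k)) / (α * t ^ 2 + b) +
    ((1 - η) * (t ^ 2 + u) - 2 * t * k) / (t ^ 2 + u + b)) / N) with hY
  have htr := F.trc t w hu
  have hNb : ((N:ℝ) - 1) * b = F.Bq w + 2 * κ ^ 2 / α + 2 * k ^ 2 := by
    rw [hbd]
    unfold Fr.bb
    rw [mul_div_cancel₀ _ hN1.ne']
  have hNα : ((N:ℝ) - 1) * α = (N:ℝ) - 1 - (F.del - η) := by
    rw [hα]
    unfold Fr.al
    rw [mul_sub, mul_div_cancel₀ _ hN1.ne', mul_one]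
  have hNY : (N:ℝ) * Y ≤ N + (- ((2 * κ ^ 2 / α + 2 * k ^ 2) / (α * t ^ 2 + b)) - η -
        2 * (t * (κ / (α * t ^ 2 + b) + k / (t ^ 2 + u + b)))) := by
    have e1 : (N:ℝ) * Y = ((F.Gm t w).trace - ((1 - η) * (t ^ 2 + u) - 2 * t * k)) /
        (α * t ^ 2 + b) + ((1 - η) * (t ^ 2 + u) - 2 * t * k) / (t ^ 2 + u + b) := by
      rw [hY]
      field_simp
    have e2 : (F.Gm t w).trace - ((1 - η) * (t ^ 2 + u) - 2 * t * k) =
        ((N:ℝ) - 1) * (α * t ^ 2 + b) - (2 * κ ^ 2 / α + 2 * k ^ 2) - 2 * t * κ := by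
      rw [htr]
      have e3 : ((N:ℝ) - 1) * (α * t ^ 2 + b) = ((N:ℝ) - 1 - (F.del - η)) * t ^ 2 +
          (F.Bq w + 2 * κ ^ 2 / α + 2 * k ^ 2) := by
        rw [← hNα, ← hNb]
        ring
      rw [e3, hκ]
      ring
    have e4 : (((N:ℝ) - 1) * (α * t ^ 2 + b) - (2 * κ ^ 2 / α + 2 * k ^ 2) - 2 * t * κ) /
        (α * t ^ 2 + b) = ((N:ℝ) - 1) - (2 * κ ^ 2 / α + 2 * k ^ 2) / (α * t ^ 2 + b) -
          2 * t * (κ / (α * t ^ 2 + b)) := by
      rw [sub_div, sub_div, mul_div_cancel_right₀ _ ha.ne']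
      ring
    have e5 : ((1 - η) * (t ^ 2 + u) - 2 * t * k) / (t ^ 2 + u + b) ≤
        (1 - η) - 2 * t * (k / (t ^ 2 + u + b)) := by
      rw [sub_div, mul_div_assoc (2 * t)]
      have : (1 - η) * (t ^ 2 + u) / (t ^ 2 + u + b) ≤ 1 - η := by
        rw [div_le_iff₀ hg0]
        nlinarith
      linarith
    rw [e1, e2, e4]
    linarith
  unfold Fr.FF
  calc Real.sqrt (F.Gm t w).det
      ≤ Real.sqrt ((t ^ 2 + u + b) * (α * t ^ 2 + b) ^ (N - 1) * Y ^ N) := Real.sqrt_le_sqrt h1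
    _ = Real.sqrt ((t ^ 2 + u + b) * (α * t ^ 2 + b) ^ (N - 1)) * Real.sqrt (Y ^ N) := by
        rw [Real.sqrt_mul (by positivity)]
    _ ≤ _ := mul_le_mul_of_nonneg_left (Fr.sym2_exp_sym2x N Y _ h2 hNY) (Real.sqrt_nonneg _)

theorem Fr.sym2 {N : ℕ} (hN : 2 ≤ N) (F : Fr N) (t : ℝ) (w : E (N + 1)) (hu : F.u2 w ≠ 0)
    (ht : t ≠ 0) (hal : 0 < F.al w) :
    0 ≤ F.be w ∧ (F.FF t w + F.FF (-t) w) / 2 ≤
      Real.exp (-F.del / 2) * Real.sqrt (t ^ 2 + F.u2 w + F.be w) * Real.sqrt ((t ^ 2 + F.be w) ^ (N - 1)) := by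
  have hN1 : (0:ℝ) < (N:ℝ) - 1 := by
    have : (2:ℝ) ≤ N := by exact_mod_cast hN
    linarith
  have hu0 : 0 < F.u2 w := lt_of_le_of_ne (F.u2_nonneg_sym2x w) (Ne.symm hu)
  have ht2 : 0 < t ^ 2 := by positivity
  obtain ⟨he0, he1, hed⟩ := F.eta_bd w
  have hBq : 0 ≤ F.Bq w := Finset.sum_nonneg fun _ _ => by positivity
  have hb : 0 ≤ F.bb w := by
    unfold Fr.bb
    have := hal
    positivity
  have hal1 : F.al w ≤ 1 := by
    unfold Fr.al
    have : 0 ≤ (F.del - F.eta w) / ((N:ℝ) - 1) := div_nonneg (by linarith) hN1.le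
    linarith
  have hbe : 0 ≤ F.be w := div_nonneg hb hal.le
  refine ⟨hbe, ?_⟩
  have p1 := F.sym2_one_sym2x hN t w hu ht hal hal1 hb
  have p2 := F.sym2_one_sym2x hN (-t) w hu (neg_ne_zero.2 ht) hal hal1 hb
  rw [neg_sq] at p2
  set κ := F.hh w - F.k2 w with hκ
  set α := F.al w with hα
  set b := F.bb w with hbd
  set u := F.u2 w with hud
  set η := F.eta w with hη
  set k := F.k2 w with hk
  set a := α * t ^ 2 + b with ha'
  set g := t ^ 2 + u + b with hg'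
  have ha : 0 < a := by positivity
  have hg : 0 < g := by positivity
  have hag : a ≤ g := by rw [ha', hg']; nlinarith
  set Dd := (2 * κ ^ 2 / α + 2 * k ^ 2) / a with hD
  set z := t * (κ / a + k / g) with hz
  have hz2 : z ^ 2 ≤ Dd := by
    have q1 : z ^ 2 ≤ 2 * (t * (κ / a)) ^ 2 + 2 * (t * (k / g)) ^ 2 := by
      rw [hz]
      nlinarith [sq_nonneg (t * (κ / a) - t * (k / g))]
    have q2 : (t * (κ / a)) ^ 2 ≤ κ ^ 2 / α / a := by
      rw [div_div, mul_pow, div_pow, ← mul_div_assoc, div_le_div_iff₀ (by positivity) (by positivity)]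
      have : α * t ^ 2 ≤ a := by rw [ha']; linarith
      have h3 : 0 ≤ κ ^ 2 * a := by positivity
      nlinarith
    have q3 : (t * (k / g)) ^ 2 ≤ k ^ 2 / a := by
      rw [mul_pow, div_pow, ← mul_div_assoc, div_le_div_iff₀ (by positivity) ha]
      have h4 : t ^ 2 ≤ g := by rw [hg']; linarith
      have h5 : t ^ 2 * a ≤ g ^ 2 := by nlinarith
      have h6 : 0 ≤ k ^ 2 := sq_nonneg _
      nlinarith
    have q4 : Dd = 2 * (κ ^ 2 / α / a) + 2 * (k ^ 2 / a) := by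
      rw [hD]
      ring
    rw [q4]
    linarith
  have hch : (Real.exp ((-Dd - η - 2 * z) / 2) + Real.exp ((-Dd - η - 2 * (-t * (κ / a + k / g))) / 2)) / 2
      ≤ Real.exp (-(η / 2)) := by
    have r1 : (-Dd - η - 2 * z) / 2 = (-(Dd / 2) - η / 2) + (-z) := by ring
    have r2 : (-Dd - η - 2 * (-t * (κ / a + k / g))) / 2 = (-(Dd / 2) - η / 2) + z := by
      rw [hz]; ring
    rw [r1, r2, Real.exp_add, Real.exp_add]
    have r3 : (Real.exp (-(Dd / 2) - η / 2) * Real.exp (-z) +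
        Real.exp (-(Dd / 2) - η / 2) * Real.exp z) / 2 =
        Real.exp (-(Dd / 2) - η / 2) * Real.cosh z := by
      rw [Real.cosh_eq]; ring
    rw [r3]
    calc Real.exp (-(Dd / 2) - η / 2) * Real.cosh z
        ≤ Real.exp (-(Dd / 2) - η / 2) * Real.exp (z ^ 2 / 2) :=
          mul_le_mul_of_nonneg_left (Real.cosh_le_exp_half_sq z) (Real.exp_pos _).le
      _ = Real.exp (-(Dd / 2) - η / 2 + z ^ 2 / 2) := by rw [Real.exp_add]
      _ ≤ Real.exp (-(η / 2)) := Real.exp_le_exp.2 (by linarith)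
  have havg : (F.FF t w + F.FF (-t) w) / 2 ≤ Real.sqrt (g * a ^ (N - 1)) * Real.exp (-(η / 2)) := by
    calc (F.FF t w + F.FF (-t) w) / 2 ≤
        (Real.sqrt (g * a ^ (N - 1)) * Real.exp ((-Dd - η - 2 * z) / 2) +
          Real.sqrt (g * a ^ (N - 1)) * Real.exp ((-Dd - η - 2 * (-t * (κ / a + k / g))) / 2)) / 2 := by
          linarith
      _ = Real.sqrt (g * a ^ (N - 1)) * ((Real.exp ((-Dd - η - 2 * z) / 2) +
          Real.exp ((-Dd - η - 2 * (-t * (κ / a + k / g))) / 2)) / 2) := by ring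
      _ ≤ _ := mul_le_mul_of_nonneg_left hch (Real.sqrt_nonneg _)
  refine havg.trans ?_
  have hbeb : F.be w = b / α := rfl
  have haα : a = α * (t ^ 2 + F.be w) := by
    rw [hbeb, ha']
    field_simp
  have hgle : g ≤ t ^ 2 + u + F.be w := by
    rw [hbeb, hg']
    have : b ≤ b / α := by
      rw [le_div_iff₀ hal]
      nlinarith
    linarith
  have hαe : Real.sqrt (α ^ (N - 1)) ≤ Real.exp (-(F.del - η) / 2) := by
    have s1 : α ≤ Real.exp (-((F.del - η) / ((N:ℝ) - 1))) := by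
      have := Real.add_one_le_exp (-((F.del - η) / ((N:ℝ) - 1)))
      have s2 : α = 1 - (F.del - η) / ((N:ℝ) - 1) := rfl
      linarith
    have s3 : α ^ (N - 1) ≤ Real.exp (-(F.del - η)) := by
      calc α ^ (N - 1) ≤ (Real.exp (-((F.del - η) / ((N:ℝ) - 1)))) ^ (N - 1) :=
            pow_le_pow_left₀ hal.le s1 _
        _ = Real.exp (((N - 1 : ℕ) : ℝ) * (-((F.del - η) / ((N:ℝ) - 1)))) := by
            rw [← Real.exp_nat_mul]
        _ = Real.exp (-(F.del - η)) := by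
            congr 1
            rw [Nat.cast_sub (by omega), Nat.cast_one]
            field_simp
    calc Real.sqrt (α ^ (N - 1)) ≤ Real.sqrt (Real.exp (-(F.del - η))) := Real.sqrt_le_sqrt s3
      _ = _ := by rw [Real.exp_half]
  have hfin : Real.sqrt (g * a ^ (N - 1)) ≤ Real.sqrt (t ^ 2 + u + F.be w) *
      (Real.exp (-(F.del - η) / 2) * Real.sqrt ((t ^ 2 + F.be w) ^ (N - 1))) := by
    rw [Real.sqrt_mul hg.le, haα, mul_pow, Real.sqrt_mul (by positivity)]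
    have s4 : 0 ≤ Real.sqrt ((t ^ 2 + F.be w) ^ (N - 1)) := Real.sqrt_nonneg _
    refine mul_le_mul (Real.sqrt_le_sqrt hgle) (mul_le_mul_of_nonneg_right hαe s4)
      (by positivity) (Real.sqrt_nonneg _)
  calc Real.sqrt (g * a ^ (N - 1)) * Real.exp (-(η / 2)) ≤
      (Real.sqrt (t ^ 2 + u + F.be w) *
      (Real.exp (-(F.del - η) / 2) * Real.sqrt ((t ^ 2 + F.be w) ^ (N - 1)))) *
        Real.exp (-(η / 2)) := mul_le_mul_of_nonneg_right hfin (Real.exp_pos _).le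
    _ = (Real.exp (-(F.del - η) / 2) * Real.exp (-(η / 2))) * Real.sqrt (t ^ 2 + u + F.be w) *
        Real.sqrt ((t ^ 2 + F.be w) ^ (N - 1)) := by ring
    _ = _ := by
        rw [← Real.exp_add]
        congr 3
        ring



end Pool.Agent.Helper82.OS
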