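import Mathlib
import Pool.Agent.Helper82.OS.Defs
import Pool.Agent.Helper82.OS.Defs2
import Pool.Agent.Helper82.OS.Defs3
import Pool.Agent.Helper82.OS.be_le
import Pool.Agent.Helper82.OS.gauss_k2
import Pool.Agent.Helper82.OS.gauss_tilt
import Pool.Agent.Helper82.OS.stein1
import Pool.Agent.Helper82.OS.sym2
import Pool.Agent.Helper82.OS.trc
set_option autoImplicit false
open Matrix MeasureTheory Set Metric Filter Topology
open scoped ENNReal ContDiff

namespace Pool.Agent.Helper82.OS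
namespace Fr
variable {N : ℕ} (F : Fr N)

end Fr

theorem u2_eq_aux_gsmallx {N : ℕ} (F : Fr N) (w : E (N + 1)) :
    F.u2 w = ‖w‖ ^ 2 - inner ℝ w F.e ^ 2 := by
  rw [F.u2_pr w, Fr.pr, norm_sub_sq_real, real_inner_smul_right, norm_smul, F.he]
  simp only [Real.norm_eq_abs, mul_one, sq_abs]
  ring

theorem ae_u2_aux_gsmallx {N : ℕ} (hN : 1 ≤ N) (F : Fr N) : ∀ᵐ w : E (N + 1), F.u2 w ≠ 0 := by
  have hne : Submodule.span ℝ {F.e} ≠ (⊤ : Submodule ℝ (E (N + 1))) := by
    intro h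
    have h1 : Module.finrank ℝ (Submodule.span ℝ {F.e}) ≤ 1 := by
      have := finrank_span_le_card (R := ℝ) ({F.e} : Set (E (N + 1)))
      simpa using this
    rw [h, finrank_top, finrank_euclideanSpace_fin] at h1
    omega
  have h0 := Measure.addHaar_submodule (volume : Measure (E (N + 1))) _ hne
  rw [ae_iff]
  refine measure_mono_null ?_ h0
  intro w hw
  simp only [not_not, ne_eq] at hw
  have hw' : F.u2 w = 0 := by simpa using hw
  rw [F.u2_pr w] at hw'
  have h2 : F.pr w = 0 := by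
    have : ‖F.pr w‖ = 0 := by
      exact pow_eq_zero_iff (two_ne_zero) |>.1 hw'
    simpa using this
  have h3 : w = inner ℝ w F.e • F.e := by
    have := h2
    rw [Fr.pr, sub_eq_zero] at this
    exact this
  rw [h3]
  exact Submodule.smul_mem _ _ (Submodule.mem_span_singleton_self _)

theorem FF_nonneg_aux_gsmallx {N : ℕ} (F : Fr N) (t : ℝ) (w : E (N + 1)) : 0 ≤ F.FF t w := Real.sqrt_nonneg _

theorem gt_pos_aux_gsmallx (t : ℝ) : 0 < gt t := Real.exp_pos _
theorem gt_neg_aux_gsmallx (t : ℝ) : gt (-t) = gt t := by simp [gt]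
theorem gw_pos_aux_gsmallx {k : ℕ} (w : E k) : 0 < gw w := Real.exp_pos _

theorem inner_aux_gsmallx {m : ℕ} (hm : 3 ≤ m) (F : Fr (2 * m)) (w : E (2 * m + 1)) (hu : F.u2 w ≠ 0)
    (hal : 0 < F.al w) (hbe : 0 ≤ F.be w) :
    ∫⁻ t : ℝ, ENNReal.ofReal (F.FF t w * gt t * gw w) ≤
      ENNReal.ofReal (Real.exp (-F.del / 2)) * (ENNReal.ofReal (Real.exp (F.be w)) *
        Psi (2 * m) (F.u2 w)) * ENNReal.ofReal (gw w) := by
  have h1 : ∀ t : ℝ, ENNReal.ofReal (F.FF t w * gt t * gw w) =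
      ENNReal.ofReal (F.FF t w * gt t) * ENNReal.ofReal (gw w) := fun t =>
    ENNReal.ofReal_mul (mul_nonneg (FF_nonneg_aux_gsmallx F t w) (gt_pos_aux_gsmallx t).le)
  simp_rw [h1]
  rw [lintegral_mul_const' _ _ ENNReal.ofReal_ne_top]
  gcongr
  have hu0 : 0 ≤ F.u2 w := by rw [F.u2_pr w]; positivity
  set h : ℝ → ℝ≥0∞ := fun t => ENNReal.ofReal (F.FF t w * gt t) with hh
  set S : ℝ → ℝ≥0∞ := fun t => ENNReal.ofReal (Real.sqrt (t ^ 2 + F.u2 w + F.be w) *
    Real.sqrt ((t ^ 2 + F.be w) ^ (2 * m - 1)) * gt t) with hS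
  have hneg : ∫⁻ t, h (-t) = ∫⁻ t, h t :=
    lintegral_neg_eq_self (μ := (volume : Measure ℝ)) h
  have h2 : 2 * ∫⁻ t, h t ≤ 2 * (ENNReal.ofReal (Real.exp (-F.del / 2)) * ∫⁻ t, S t) := by
    calc 2 * ∫⁻ t, h t = (∫⁻ t, h t) + (∫⁻ t, h (-t)) := by rw [hneg, two_mul]
      _ ≤ ∫⁻ t, (h t + h (-t)) := le_lintegral_add _ _
      _ ≤ ∫⁻ t, (2 * ENNReal.ofReal (Real.exp (-F.del / 2))) * S t := by
          refine lintegral_mono_ae ?_
          have hne : ∀ᵐ t : ℝ, t ≠ 0 := by
            rw [ae_iff]; simp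
          filter_upwards [hne] with t ht
          have hs := (F.sym2 (by omega) t w hu ht hal).2
          simp only [hh, hS, gt_neg_aux_gsmallx]
          rw [← ENNReal.ofReal_add (mul_nonneg (FF_nonneg_aux_gsmallx F _ w) (gt_pos_aux_gsmallx t).le)
            (mul_nonneg (FF_nonneg_aux_gsmallx F _ w) (gt_pos_aux_gsmallx t).le)]
          have e2 : (2 : ℝ≥0∞) * ENNReal.ofReal (Real.exp (-F.del / 2)) =
              ENNReal.ofReal (2 * Real.exp (-F.del / 2)) := by
            rw [ENNReal.ofReal_mul (by norm_num)]; simp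
          rw [e2, ← ENNReal.ofReal_mul (by positivity)]
          apply ENNReal.ofReal_le_ofReal
          have hg := (gt_pos_aux_gsmallx t).le
          nlinarith [mul_le_mul_of_nonneg_right hs hg]
      _ = 2 * (ENNReal.ofReal (Real.exp (-F.del / 2)) * ∫⁻ t, S t) := by
          rw [lintegral_const_mul' _ _ (ENNReal.mul_ne_top (by simp) ENNReal.ofReal_ne_top), mul_assoc]
  have h3 : ∫⁻ t, h t ≤ ENNReal.ofReal (Real.exp (-F.del / 2)) * ∫⁻ t, S t :=
    (ENNReal.mul_le_mul_iff_right (by simp) (by simp)).1 h2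
  refine h3.trans ?_
  gcongr
  exact stein1 hm _ _ hu0 hbe

theorem swap_aux_gsmallx {N k : ℕ} (u kk : E k → ℝ) (hu : Measurable u) (hk : Measurable kk)
    (hk0 : ∀ w, 0 ≤ kk w) :
    ∫⁻ w : E k, Psi N (u w) * ENNReal.ofReal (kk w) =
      ∫⁻ t : ℝ, ENNReal.ofReal (|t| ^ (N - 1) * gt t) *
        ∫⁻ w : E k, ENNReal.ofReal (Real.sqrt (t ^ 2 + u w) * kk w) := by
  have h1 : ∀ w : E k, Psi N (u w) * ENNReal.ofReal (kk w) =
      ∫⁻ t : ℝ, ENNReal.ofReal (|t| ^ (N - 1) * gt t) *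
        ENNReal.ofReal (Real.sqrt (t ^ 2 + u w) * kk w) := by
    intro w
    rw [Psi, ← lintegral_mul_const' _ _ ENNReal.ofReal_ne_top]
    refine lintegral_congr fun t => ?_
    have hg := (gt_pos_aux_gsmallx t).le
    rw [← ENNReal.ofReal_mul (by positivity), ← ENNReal.ofReal_mul (by positivity)]
    congr 1
    ring
  simp_rw [h1]
  rw [lintegral_lintegral_swap]
  · refine lintegral_congr fun t => ?_
    rw [lintegral_const_mul' _ _ ENNReal.ofReal_ne_top]
  · have hgt : Measurable gt := by unfold gt; fun_prop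
    have : Measurable (Function.uncurry fun (w : E k) (t : ℝ) =>
        ENNReal.ofReal (|t| ^ (N - 1) * gt t) * ENNReal.ofReal (Real.sqrt (t ^ 2 + u w) * kk w)) := by
      unfold Function.uncurry
      fun_prop
    exact this.aemeasurable

theorem dom_aux_gsmallx {N k : ℕ} (u h : E k → ℝ) (hu : Measurable u) (hh : Measurable h)
    (hh0 : ∀ w, 0 ≤ h w) (C : ℝ)
    (H : ∀ t : ℝ, ∫⁻ w : E k, ENNReal.ofReal (Real.sqrt (t ^ 2 + u w) * h w * gw w) ≤
      ENNReal.ofReal C * ∫⁻ w : E k, ENNReal.ofReal (Real.sqrt (t ^ 2 + u w) * gw w)) :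
    ∫⁻ w : E k, Psi N (u w) * ENNReal.ofReal (h w * gw w) ≤
      ENNReal.ofReal C * ∫⁻ w : E k, Psi N (u w) * ENNReal.ofReal (gw w) := by
  have hgw : Measurable (gw : E k → ℝ) := by unfold gw; fun_prop
  rw [swap_aux_gsmallx u (fun w => h w * gw w) hu (hh.mul hgw) (fun w => mul_nonneg (hh0 w) (gw_pos_aux_gsmallx w).le),
    swap_aux_gsmallx u (fun w => gw w) hu hgw (fun w => (gw_pos_aux_gsmallx w).le),
    ← lintegral_const_mul' _ _ ENNReal.ofReal_ne_top]
  refine lintegral_mono fun t => ?_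
  calc ENNReal.ofReal (|t| ^ (N - 1) * gt t) *
        ∫⁻ w : E k, ENNReal.ofReal (Real.sqrt (t ^ 2 + u w) * (h w * gw w))
      ≤ ENNReal.ofReal (|t| ^ (N - 1) * gt t) * (ENNReal.ofReal C *
          ∫⁻ w : E k, ENNReal.ofReal (Real.sqrt (t ^ 2 + u w) * gw w)) := by
        gcongr
        have := H t
        simpa only [mul_assoc] using this
    _ = _ := by ring

theorem coefs_aux_gsmallx {m : ℕ} (hm : 60 ≤ m) (F : Fr (2 * m)) (hd : F.del ≤ ((2 * m : ℕ) : ℝ) / 6) :
    ∃ (b : OrthonormalBasis (Fin (2 * m + 1)) ℝ (E (2 * m + 1))) (a : Fin (2 * m + 1) → ℝ),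
      (∀ i, 0 ≤ a i) ∧ (∀ i, 2 * a i < 1) ∧
      (∀ w : E (2 * m + 1), ∑ i, a i * inner ℝ w (b i) ^ 2 =
        2 * ((1.22 * F.del * inner ℝ w F.x ^ 2 + 7.1 * F.Sg w) / ((2 * m : ℕ) : ℝ))) ∧
      (∑ i, a i / (1 - 2 * a i)) * (1 + 1 / ((2 * m : ℕ) : ℝ)) ≤ 0.27 * F.del := by
  have hNR : (120 : ℝ) ≤ ((2 * m : ℕ) : ℝ) := by
    have : 120 ≤ 2 * m := by omega
    exact_mod_cast this
  set N : ℝ := ((2 * m : ℕ) : ℝ) with hN
  have hN0 : 0 < N := by linarith
  have hd0 : 0 ≤ F.del := (F.del_bd).1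
  -- orthonormal basis
  set v : Fin (2 * m + 1) → E (2 * m + 1) := Fin.cons F.x F.g with hv
  have hon : Orthonormal ℝ v := by
    constructor
    · intro i
      refine Fin.cases ?_ (fun j => ?_) i
      · simpa [hv] using F.hx
      · simpa [hv] using F.hg.1 j
    · intro i j hij
      revert hij
      refine Fin.cases ?_ (fun i' => ?_) i <;> refine Fin.cases ?_ (fun j' => ?_) j
      · intro h; exact absurd rfl h
      · intro _
        simp only [hv, Fin.cons_zero, Fin.cons_succ]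
        rw [real_inner_comm]
        exact F.hgx j'
      · intro _
        simp only [hv, Fin.cons_zero, Fin.cons_succ]
        exact F.hgx i'
      · intro h
        simp only [hv, Fin.cons_succ]
        exact F.hg.2 (fun e => h (by rw [e]))
  have hcard : Fintype.card (Fin (2 * m + 1)) = Module.finrank ℝ (E (2 * m + 1)) := by
    simp [finrank_euclideanSpace_fin]
  have hsp : ⊤ ≤ Submodule.span ℝ (Set.range v) := by
    rw [← coe_basisOfOrthonormalOfCardEqFinrank hon hcard]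
    exact (basisOfOrthonormalOfCardEqFinrank hon hcard).span_eq.ge
  set b : OrthonormalBasis (Fin (2 * m + 1)) ℝ (E (2 * m + 1)) := OrthonormalBasis.mk hon hsp with hb
  have hb' : ∀ i, b i = v i := fun i => by rw [hb, OrthonormalBasis.coe_mk]
  set a : Fin (2 * m + 1) → ℝ := Fin.cons (2.44 * F.del / N) (fun j => 14.2 * F.s j ^ 2 / N) with ha
  have hs1 : ∀ j, F.s j ^ 2 ≤ 1 := fun j => by nlinarith [F.hcs j, sq_nonneg (F.c j)]
  have hs0 : ∀ j, 0 ≤ F.s j ^ 2 := fun j => sq_nonneg _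
  have hdN : F.del / N ≤ 1 / 6 := by
    rw [div_le_iff₀ hN0]; linarith
  refine ⟨b, a, ?_, ?_, ?_, ?_⟩
  · intro i
    refine Fin.cases ?_ (fun j => ?_) i
    · simp only [ha, Fin.cons_zero]; positivity
    · simp only [ha, Fin.cons_succ]; positivity
  · intro i
    refine Fin.cases ?_ (fun j => ?_) i
    · simp only [ha, Fin.cons_zero]
      have : 2.44 * F.del / N = 2.44 * (F.del / N) := by ring
      rw [this]; nlinarith
    · simp only [ha, Fin.cons_succ]
      have h1 : 14.2 * F.s j ^ 2 / N ≤ 14.2 / 120 := by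
        rw [div_le_div_iff₀ hN0 (by norm_num)]
        nlinarith [hs1 j, hs0 j]
      linarith
  · intro w
    rw [Fin.sum_univ_succ]
    simp only [hb', ha, hv, Fin.cons_zero, Fin.cons_succ, Fr.Sg]
    have : ∑ i : Fin (2 * m), 14.2 * F.s i ^ 2 / N * inner ℝ w (F.g i) ^ 2 =
        14.2 / N * ∑ j, F.s j ^ 2 * inner ℝ w (F.g j) ^ 2 := by
      rw [Finset.mul_sum]
      refine Finset.sum_congr rfl fun j _ => ?_
      ring
    rw [this]
    field_simp
    ring
  · rw [Fin.sum_univ_succ]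
    simp only [ha, Fin.cons_zero, Fin.cons_succ]
    have h1 : 2.44 * F.del / N / (1 - 2 * (2.44 * F.del / N)) ≤ 13.08 * (F.del / N) := by
      have hpos : 0 < 1 - 2 * (2.44 * F.del / N) := by
        have : 2.44 * F.del / N = 2.44 * (F.del / N) := by ring
        rw [this]; nlinarith
      rw [div_le_iff₀ hpos]
      have e : 2.44 * F.del / N = 2.44 * (F.del / N) := by ring
      rw [e]
      have hq : 0 ≤ F.del / N := by positivity
      nlinarith [mul_nonneg hq (sub_nonneg.2 hdN)]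
    have h2 : ∑ j : Fin (2 * m), 14.2 * F.s j ^ 2 / N / (1 - 2 * (14.2 * F.s j ^ 2 / N)) ≤
        18.61 * (F.del / N) := by
      have : 18.61 * (F.del / N) = ∑ j : Fin (2 * m), 18.61 * (F.s j ^ 2 / N) := by
        rw [Fr.del, Finset.sum_div, Finset.mul_sum]
      rw [this]
      refine Finset.sum_le_sum fun j _ => ?_
      have hq : 0 ≤ F.s j ^ 2 / N := by positivity
      have hq1 : F.s j ^ 2 / N ≤ 1 / 120 := by
        rw [div_le_div_iff₀ hN0 (by norm_num)]
        nlinarith [hs1 j, hs0 j]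
      have e : 14.2 * F.s j ^ 2 / N = 14.2 * (F.s j ^ 2 / N) := by ring
      rw [e]
      rw [div_le_iff₀ (by nlinarith)]
      nlinarith [mul_nonneg hq (sub_nonneg.2 hq1)]
    have h3 : 2.44 * F.del / N / (1 - 2 * (2.44 * F.del / N)) +
        ∑ j : Fin (2 * m), 14.2 * F.s j ^ 2 / N / (1 - 2 * (14.2 * F.s j ^ 2 / N)) ≤ 31.69 * (F.del / N) := by
      linarith
    have h4 : (1 : ℝ) + 1 / N ≤ 121 / 120 := by
      have : 1 / N ≤ 1 / 120 := one_div_le_one_div_of_le (by norm_num) hNR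
      linarith
    have h5 : F.del / N ≤ F.del / 120 := div_le_div_of_nonneg_left hd0 (by norm_num) hNR
    calc _ ≤ 31.69 * (F.del / N) * (121 / 120) := by
          apply mul_le_mul h3 h4 (by positivity) (by positivity)
      _ ≤ 31.69 * (F.del / 120) * (121 / 120) := by gcongr
      _ ≤ 0.27 * F.del := by nlinarith

theorem gsmall {m : ℕ} (hm : 60 ≤ m) (F : Fr (2 * m)) (hd : F.del ≤ ((2 * m : ℕ) : ℝ) / 6) : GCoreF F := by
  have hNR : (120 : ℝ) ≤ ((2 * m : ℕ) : ℝ) := by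
    have : 120 ≤ 2 * m := by omega
    exact_mod_cast this
  have hN0 : (0 : ℝ) < ((2 * m : ℕ) : ℝ) := by linarith
  have hd0 : 0 ≤ F.del := (F.del_bd).1
  obtain ⟨b, a, ha0, ha1, hsum, hcoef⟩ := coefs_aux_gsmallx hm F hd
  set β1 : E (2 * m + 1) → ℝ := fun w =>
    (1.22 * F.del * inner ℝ w F.x ^ 2 + 7.1 * F.Sg w) / ((2 * m : ℕ) : ℝ) with hβ1
  set β2 : E (2 * m + 1) → ℝ := fun w => 8.3 * F.k2 w ^ 2 / ((2 * m : ℕ) : ℝ) with hβ2
  set c : ℝ := 16.6 / ((2 * m : ℕ) : ℝ) with hc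
  have hc0 : 0 ≤ c := by positivity
  have hc4 : c ≤ 1 / 4 := by
    rw [hc, div_le_iff₀ hN0]; linarith
  -- measurability
  have mu2 : Measurable F.u2 := by
    unfold Fr.u2
    fun_prop
  have mk2 : Measurable F.k2 := by
    unfold Fr.k2
    refine Measurable.div ?_ mu2
    unfold Fr.lv Fr.eps
    fun_prop
  have mSg : Measurable F.Sg := by
    unfold Fr.Sg
    fun_prop
  have mgw : Measurable (gw : E (2 * m + 1) → ℝ) := by unfold gw; fun_prop
  have mβ1 : Measurable β1 := by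
    simp only [hβ1]
    fun_prop
  have mβ2 : Measurable β2 := by
    simp only [hβ2]
    fun_prop
  set I : ℝ≥0∞ := ∫⁻ w : E (2 * m + 1), Psi (2 * m) (F.u2 w) * ENNReal.ofReal (gw w) with hI
  have I1 : ∫⁻ w : E (2 * m + 1), Psi (2 * m) (F.u2 w) *
      ENNReal.ofReal (Real.exp (2 * β1 w) * gw w) ≤ ENNReal.ofReal (Real.exp (0.27 * F.del)) * I := by
    refine dom_aux_gsmallx F.u2 (fun w => Real.exp (2 * β1 w)) mu2 (by fun_prop) (fun w => (Real.exp_pos _).le) _ ?_
    intro t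
    have h := gauss_tilt (N := 2 * m) (by omega) b a ha0 ha1 F.e F.he t
    have e1 : ∀ w : E (2 * m + 1), ‖w‖ ^ 2 - inner ℝ w F.e ^ 2 = F.u2 w := fun w => (u2_eq_aux_gsmallx F w).symm
    simp only [e1, hsum] at h
    refine h.trans ?_
    gcongr
  have I2 : ∫⁻ w : E (2 * m + 1), Psi (2 * m) (F.u2 w) *
      ENNReal.ofReal (Real.exp (2 * β2 w) * gw w) ≤ ENNReal.ofReal (Real.exp (0.27 * F.del)) * I := by
    refine dom_aux_gsmallx F.u2 (fun w => Real.exp (2 * β2 w)) mu2 (by fun_prop) (fun w => (Real.exp_pos _).le) _ ?_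
    intro t
    have h := gauss_k2 (N := 2 * m) (by omega) F c hc0 hc4 t
    have e2 : ∀ w : E (2 * m + 1), 2 * β2 w = c * F.k2 w ^ 2 := fun w => by
      simp only [hβ2, hc]; ring
    simp only [e2]
    refine h.trans ?_
    gcongr
    have h1 : 2 * c * F.del / ((2 * m : ℕ) : ℝ) ≤ 0.27 * F.del := by
      have hc' : c ≤ 16.6 / 120 := by
        rw [hc]; exact div_le_div_of_nonneg_left (by norm_num) (by norm_num) hNR
      rw [div_le_iff₀ hN0]
      nlinarith [mul_nonneg hd0 (sub_nonneg.2 hNR), mul_nonneg hd0 (sub_nonneg.2 hc')]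
    have h2 := Real.add_one_le_exp (0.27 * F.del)
    linarith
  have step : ∀ᵐ w : E (2 * m + 1), (∫⁻ t : ℝ, ENNReal.ofReal (F.FF t w * gt t * gw w)) ≤
      ENNReal.ofReal (Real.exp (-F.del / 2)) *
        (Psi (2 * m) (F.u2 w) * ENNReal.ofReal (1 / 2 * (Real.exp (2 * β1 w) * gw w)) +
         Psi (2 * m) (F.u2 w) * ENNReal.ofReal (1 / 2 * (Real.exp (2 * β2 w) * gw w))) := by
    filter_upwards [ae_u2_aux_gsmallx (by omega) F] with w hu
    obtain ⟨hal, hbe, hble⟩ := F.be_le (N := 2 * m) (by omega) hd w hu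
    refine (inner_aux_gsmallx (by omega) F w hu hal hbe).trans ?_
    have hb12 : F.be w ≤ β1 w + β2 w := by
      refine hble.trans (le_of_eq ?_)
      simp only [hβ1, hβ2]
      ring
    have hexp : Real.exp (F.be w) ≤ 1 / 2 * Real.exp (2 * β1 w) + 1 / 2 * Real.exp (2 * β2 w) := by
      have h1 : Real.exp (F.be w) ≤ Real.exp (β1 w) * Real.exp (β2 w) := by
        rw [← Real.exp_add]; exact Real.exp_le_exp.2 hb12
      have h2 : Real.exp (2 * β1 w) = Real.exp (β1 w) ^ 2 := by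
        rw [← Real.exp_nat_mul]; norm_num
      have h3 : Real.exp (2 * β2 w) = Real.exp (β2 w) ^ 2 := by
        rw [← Real.exp_nat_mul]; norm_num
      rw [h2, h3]
      nlinarith [sq_nonneg (Real.exp (β1 w) - Real.exp (β2 w))]
    have hg := (gw_pos_aux_gsmallx w).le
    rw [← mul_add, ← ENNReal.ofReal_add (by positivity) (by positivity), mul_assoc]
    gcongr ENNReal.ofReal (Real.exp (-F.del / 2)) * ?_
    rw [mul_comm (ENNReal.ofReal (Real.exp (F.be w))) _, mul_assoc]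
    gcongr Psi (2 * m) (F.u2 w) * ?_
    rw [← ENNReal.ofReal_mul (Real.exp_pos _).le]
    apply ENNReal.ofReal_le_ofReal
    nlinarith [mul_le_mul_of_nonneg_right hexp hg]
  unfold GCoreF
  refine (lintegral_mono_ae step).trans ?_
  rw [lintegral_const_mul' _ _ ENNReal.ofReal_ne_top]
  have mPsi : Measurable (fun w : E (2 * m + 1) => Psi (2 * m) (F.u2 w)) := by
    have hgt : Measurable gt := by unfold gt; fun_prop
    have h1 : Measurable (fun u : ℝ => Psi (2 * m) u) := by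
      unfold Psi
      refine Measurable.lintegral_prod_right' (f := fun p : ℝ × ℝ =>
        ENNReal.ofReal (Real.sqrt (p.2 ^ 2 + p.1) * |p.2| ^ (2 * m - 1) * gt p.2)) ?_
      fun_prop
    exact h1.comp mu2
  rw [lintegral_add_left]
  · have half : ∀ β : E (2 * m + 1) → ℝ,
        ∫⁻ w : E (2 * m + 1), Psi (2 * m) (F.u2 w) * ENNReal.ofReal (1 / 2 * (Real.exp (2 * β w) * gw w)) =
        ENNReal.ofReal (1 / 2) * ∫⁻ w : E (2 * m + 1), Psi (2 * m) (F.u2 w) *
          ENNReal.ofReal (Real.exp (2 * β w) * gw w) := by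
      intro β
      rw [← lintegral_const_mul' _ _ ENNReal.ofReal_ne_top]
      refine lintegral_congr fun w => ?_
      rw [ENNReal.ofReal_mul (by norm_num : (0 : ℝ) ≤ 1 / 2)]
      ring
    rw [half β1, half β2]
    calc ENNReal.ofReal (Real.exp (-F.del / 2)) * (ENNReal.ofReal (1 / 2) * (∫⁻ w : E (2 * m + 1),
            Psi (2 * m) (F.u2 w) * ENNReal.ofReal (Real.exp (2 * β1 w) * gw w)) +
          ENNReal.ofReal (1 / 2) * (∫⁻ w : E (2 * m + 1),
            Psi (2 * m) (F.u2 w) * ENNReal.ofReal (Real.exp (2 * β2 w) * gw w)))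
        ≤ ENNReal.ofReal (Real.exp (-F.del / 2)) *
          (ENNReal.ofReal (1 / 2) * (ENNReal.ofReal (Real.exp (0.27 * F.del)) * I) +
           ENNReal.ofReal (1 / 2) * (ENNReal.ofReal (Real.exp (0.27 * F.del)) * I)) := by
          gcongr
      _ = (ENNReal.ofReal (Real.exp (-F.del / 2)) * (ENNReal.ofReal (1 / 2) + ENNReal.ofReal (1 / 2)) *
            ENNReal.ofReal (Real.exp (0.27 * F.del))) * I := by ring
      _ ≤ 1 * I := by
          gcongr
          rw [← ENNReal.ofReal_add (by norm_num) (by norm_num), ← ENNReal.ofReal_mul (by positivity),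
            ← ENNReal.ofReal_mul (by positivity)]
          rw [← ENNReal.ofReal_one]
          apply ENNReal.ofReal_le_ofReal
          have : Real.exp (-F.del / 2) * (1 / 2 + 1 / 2) * Real.exp (0.27 * F.del) =
              Real.exp (-F.del / 2 + 0.27 * F.del) := by rw [Real.exp_add]; ring
          rw [this]
          rw [Real.exp_le_one_iff]
          nlinarith
      _ = I := one_mul _
  · exact mPsi.mul (by fun_prop)



end Pool.Agent.Helper82.OS
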