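import Mathlib
import Pool.Agent.Helper82.OS.Defs
import Pool.Agent.Helper82.OS.Defs2
import Pool.Agent.Helper82.OS.Defs3
import Pool.Agent.Helper82.OS.gsmall
import Pool.Agent.Helper82.OS.be_le
import Pool.Agent.Helper82.OS.gauss_k2
import Pool.Agent.Helper82.OS.gauss_tilt
import Pool.Agent.Helper82.OS.stein1
import Pool.Agent.Helper82.OS.sym2
import Pool.Agent.Helper82.OS.trc
set_option autoImplicit false
open Matrix MeasureTheory Set Metric Filter Topology
open scoped ENNReal ContDiff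

namespace Pool.Agent.Helper82.OS

theorem gsmall2 {m : ℕ} (hm : 60 ≤ m) (F : Fr (2 * m)) (hd : F.del ≤ ((2 * m : ℕ) : ℝ) / 6) :
    ∫⁻ w : E (2 * m + 1), (∫⁻ t : ℝ, ENNReal.ofReal (F.FF t w * gt t * gw w))
      ≤ ENNReal.ofReal (Real.exp (-(F.del / 5))) *
        ∫⁻ w : E (2 * m + 1), Psi (2 * m) (F.u2 w) * ENNReal.ofReal (gw w) := by
  have hNR : (120 : ℝ) ≤ ((2 * m : ℕ) : ℝ) := by
    have : 120 ≤ 2 * m := by omega
    exact_mod_cast this
  have hN0 : (0 : ℝ) < ((2 * m : ℕ) : ℝ) := by linarith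
  have hd0 : 0 ≤ F.del := (F.del_bd).1
  obtain ⟨b, a, ha0, ha1, hsum, hcoef⟩ := coefs_aux_gsmallx hm F hd
  set β1 : E (2 * m + 1) → ℝ := fun w =>
    (1.22 * F.del * inner ℝ w F.x ^ 2 + 7.1 * F.Sg w) / ((2 * m : ℕ) : ℝ) with hβ1
  set β2 : E (2 * m + 1) → ℝ := fun w => 8.3 * F.k2 w ^ 2 / ((2 * m : ℕ) : ℝ) with hβ2
  set c : ℝ := 16.6 / ((2 * m : ℕ) : ℝ) with hc
  have hc0 : 0 ≤ c := by positivity
  have hc4 : c ≤ 1 / 4 := by
    rw [hc, div_le_iff₀ hN0]; linarith
  -- measurability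
  have mu2 : Measurable F.u2 := by
    unfold Fr.u2
    fun_prop
  have mk2 : Measurable F.k2 := by
    unfold Fr.k2
    refine Measurable.div ?_ mu2
    unfold Fr.lv Fr.eps
    fun_prop
  have mSg : Measurable F.Sg := by
    unfold Fr.Sg
    fun_prop
  have mgw : Measurable (gw : E (2 * m + 1) → ℝ) := by unfold gw; fun_prop
  have mβ1 : Measurable β1 := by
    simp only [hβ1]
    fun_prop
  have mβ2 : Measurable β2 := by
    simp only [hβ2]
    fun_prop
  set I : ℝ≥0∞ := ∫⁻ w : E (2 * m + 1), Psi (2 * m) (F.u2 w) * ENNReal.ofReal (gw w) with hI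
  have I1 : ∫⁻ w : E (2 * m + 1), Psi (2 * m) (F.u2 w) *
      ENNReal.ofReal (Real.exp (2 * β1 w) * gw w) ≤ ENNReal.ofReal (Real.exp (0.27 * F.del)) * I := by
    refine dom_aux_gsmallx F.u2 (fun w => Real.exp (2 * β1 w)) mu2 (by fun_prop) (fun w => (Real.exp_pos _).le) _ ?_
    intro t
    have h := gauss_tilt (N := 2 * m) (by omega) b a ha0 ha1 F.e F.he t
    have e1 : ∀ w : E (2 * m + 1), ‖w‖ ^ 2 - inner ℝ w F.e ^ 2 = F.u2 w := fun w => (u2_eq_aux_gsmallx F w).symm
    simp only [e1, hsum] at h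
    refine h.trans ?_
    gcongr
  have I2 : ∫⁻ w : E (2 * m + 1), Psi (2 * m) (F.u2 w) *
      ENNReal.ofReal (Real.exp (2 * β2 w) * gw w) ≤ ENNReal.ofReal (Real.exp (0.27 * F.del)) * I := by
    refine dom_aux_gsmallx F.u2 (fun w => Real.exp (2 * β2 w)) mu2 (by fun_prop) (fun w => (Real.exp_pos _).le) _ ?_
    intro t
    have h := gauss_k2 (N := 2 * m) (by omega) F c hc0 hc4 t
    have e2 : ∀ w : E (2 * m + 1), 2 * β2 w = c * F.k2 w ^ 2 := fun w => by
      simp only [hβ2, hc]; ring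
    simp only [e2]
    refine h.trans ?_
    gcongr
    have h1 : 2 * c * F.del / ((2 * m : ℕ) : ℝ) ≤ 0.27 * F.del := by
      have hc' : c ≤ 16.6 / 120 := by
        rw [hc]; exact div_le_div_of_nonneg_left (by norm_num) (by norm_num) hNR
      rw [div_le_iff₀ hN0]
      nlinarith [mul_nonneg hd0 (sub_nonneg.2 hNR), mul_nonneg hd0 (sub_nonneg.2 hc')]
    have h2 := Real.add_one_le_exp (0.27 * F.del)
    linarith
  have step : ∀ᵐ w : E (2 * m + 1), (∫⁻ t : ℝ, ENNReal.ofReal (F.FF t w * gt t * gw w)) ≤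
      ENNReal.ofReal (Real.exp (-F.del / 2)) *
        (Psi (2 * m) (F.u2 w) * ENNReal.ofReal (1 / 2 * (Real.exp (2 * β1 w) * gw w)) +
         Psi (2 * m) (F.u2 w) * ENNReal.ofReal (1 / 2 * (Real.exp (2 * β2 w) * gw w))) := by
    filter_upwards [ae_u2_aux_gsmallx (by omega) F] with w hu
    obtain ⟨hal, hbe, hble⟩ := F.be_le (N := 2 * m) (by omega) hd w hu
    refine (inner_aux_gsmallx (by omega) F w hu hal hbe).trans ?_
    have hb12 : F.be w ≤ β1 w + β2 w := by
      refine hble.trans (le_of_eq ?_)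
      simp only [hβ1, hβ2]
      ring
    have hexp : Real.exp (F.be w) ≤ 1 / 2 * Real.exp (2 * β1 w) + 1 / 2 * Real.exp (2 * β2 w) := by
      have h1 : Real.exp (F.be w) ≤ Real.exp (β1 w) * Real.exp (β2 w) := by
        rw [← Real.exp_add]; exact Real.exp_le_exp.2 hb12
      have h2 : Real.exp (2 * β1 w) = Real.exp (β1 w) ^ 2 := by
        rw [← Real.exp_nat_mul]; norm_num
      have h3 : Real.exp (2 * β2 w) = Real.exp (β2 w) ^ 2 := by
        rw [← Real.exp_nat_mul]; norm_num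
      rw [h2, h3]
      nlinarith [sq_nonneg (Real.exp (β1 w) - Real.exp (β2 w))]
    have hg := (gw_pos_aux_gsmallx w).le
    rw [← mul_add, ← ENNReal.ofReal_add (by positivity) (by positivity), mul_assoc]
    gcongr ENNReal.ofReal (Real.exp (-F.del / 2)) * ?_
    rw [mul_comm (ENNReal.ofReal (Real.exp (F.be w))) _, mul_assoc]
    gcongr Psi (2 * m) (F.u2 w) * ?_
    rw [← ENNReal.ofReal_mul (Real.exp_pos _).le]
    apply ENNReal.ofReal_le_ofReal
    nlinarith [mul_le_mul_of_nonneg_right hexp hg]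
  refine (lintegral_mono_ae step).trans ?_
  rw [lintegral_const_mul' _ _ ENNReal.ofReal_ne_top]
  have mPsi : Measurable (fun w : E (2 * m + 1) => Psi (2 * m) (F.u2 w)) := by
    have hgt : Measurable gt := by unfold gt; fun_prop
    have h1 : Measurable (fun u : ℝ => Psi (2 * m) u) := by
      unfold Psi
      refine Measurable.lintegral_prod_right' (f := fun p : ℝ × ℝ =>
        ENNReal.ofReal (Real.sqrt (p.2 ^ 2 + p.1) * |p.2| ^ (2 * m - 1) * gt p.2)) ?_
      fun_prop
    exact h1.comp mu2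
  rw [lintegral_add_left]
  · have half : ∀ β : E (2 * m + 1) → ℝ,
        ∫⁻ w : E (2 * m + 1), Psi (2 * m) (F.u2 w) * ENNReal.ofReal (1 / 2 * (Real.exp (2 * β w) * gw w)) =
        ENNReal.ofReal (1 / 2) * ∫⁻ w : E (2 * m + 1), Psi (2 * m) (F.u2 w) *
          ENNReal.ofReal (Real.exp (2 * β w) * gw w) := by
      intro β
      rw [← lintegral_const_mul' _ _ ENNReal.ofReal_ne_top]
      refine lintegral_congr fun w => ?_
      rw [ENNReal.ofReal_mul (by norm_num : (0 : ℝ) ≤ 1 / 2)]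
      ring
    rw [half β1, half β2]
    calc ENNReal.ofReal (Real.exp (-F.del / 2)) * (ENNReal.ofReal (1 / 2) * (∫⁻ w : E (2 * m + 1),
            Psi (2 * m) (F.u2 w) * ENNReal.ofReal (Real.exp (2 * β1 w) * gw w)) +
          ENNReal.ofReal (1 / 2) * (∫⁻ w : E (2 * m + 1),
            Psi (2 * m) (F.u2 w) * ENNReal.ofReal (Real.exp (2 * β2 w) * gw w)))
        ≤ ENNReal.ofReal (Real.exp (-F.del / 2)) *
          (ENNReal.ofReal (1 / 2) * (ENNReal.ofReal (Real.exp (0.27 * F.del)) * I) +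
           ENNReal.ofReal (1 / 2) * (ENNReal.ofReal (Real.exp (0.27 * F.del)) * I)) := by
          gcongr
      _ = (ENNReal.ofReal (Real.exp (-F.del / 2)) * (ENNReal.ofReal (1 / 2) + ENNReal.ofReal (1 / 2)) *
            ENNReal.ofReal (Real.exp (0.27 * F.del))) * I := by ring
      _ ≤ ENNReal.ofReal (Real.exp (-(F.del / 5))) * I := by
          gcongr
          rw [← ENNReal.ofReal_add (by norm_num) (by norm_num), ← ENNReal.ofReal_mul (by positivity),
            ← ENNReal.ofReal_mul (by positivity)]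
          apply ENNReal.ofReal_le_ofReal
          have : Real.exp (-F.del / 2) * (1 / 2 + 1 / 2) * Real.exp (0.27 * F.del) =
              Real.exp (-F.del / 2 + 0.27 * F.del) := by rw [Real.exp_add]; ring
          rw [this]
          apply Real.exp_le_exp.2
          nlinarith
  · exact mPsi.mul (by fun_prop)




end Pool.Agent.Helper82.OS
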