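import Mathlib
import Pool.Agent.Helper82.OS.Defs
import Pool.Agent.Helper82.OS.Defs2
import Pool.Agent.Helper82.OS.Defs3
import Pool.Agent.Helper82.OS.Defs4
import Pool.Agent.Helper82.OS.amgm
import Pool.Agent.Helper82.OS.ray
import Pool.Agent.Helper82.OS.trc
import Pool.Agent.Helper82.OS.sym2
set_option autoImplicit false
open Matrix MeasureTheory Set Metric Filter Topology
open scoped ENNReal ContDiff

namespace Pool.Agent.Helper82.OS

theorem Fr.sym3_one {N : ℕ} (hN : 2 ≤ N) (F : Fr N) (t : ℝ) (w : E (N + 1)) (hu : F.u2 w ≠ 0)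
    (ht : t ≠ 0) (hal : 0 < F.al w) (hal1 : F.al w ≤ 1) (hb : 0 ≤ F.b3 w) :
    F.FF t w ≤ Real.sqrt ((t ^ 2 + F.u2 w + F.b3 w) * (F.al w * t ^ 2 + F.b3 w) ^ (N - 1)) *
      Real.exp ((- (((1.5 * F.hh w ^ 2 + 3 * F.k2 w ^ 2) / F.al w) /
        (F.al w * t ^ 2 + F.b3 w)) - F.eta w -
        2 * (t * ((F.hh w - F.k2 w) / (F.al w * t ^ 2 + F.b3 w) +
          F.k2 w / (t ^ 2 + F.u2 w + F.b3 w)))) / 2) := by
  have hN1 : (0:ℝ) < (N:ℝ) - 1 := by
    have : (2:ℝ) ≤ N := by exact_mod_cast hN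
    linarith
  have hN0 : (0:ℝ) < N := by linarith
  have hu0 : 0 < F.u2 w := lt_of_le_of_ne (F.u2_nonneg_sym2x w) (Ne.symm hu)
  have ht2 : 0 < t ^ 2 := by positivity
  obtain ⟨he0, he1, hed⟩ := F.eta_bd w
  obtain ⟨n, hn, hray⟩ := F.ray2 (by omega) t w hu
  set κ := F.hh w - F.k2 w with hκ
  set α := F.al w with hα
  set b := F.b3 w with hbd
  set u := F.u2 w with hud
  set η := F.eta w with hη
  set k := F.k2 w with hk
  have ha : 0 < α * t ^ 2 + b := by positivity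
  have hag : α * t ^ 2 + b ≤ t ^ 2 + u + b := by nlinarith
  have hg0 : 0 < t ^ 2 + u + b := by positivity
  obtain ⟨h1, h2⟩ := amgm (by omega) (F.Gm t w) (F.psd t w) n hn
    ((1 - η) * (t ^ 2 + u) - 2 * t * k) (α * t ^ 2 + b) (t ^ 2 + u + b) hray ha hag
  set Y := ((((F.Gm t w).trace - ((1 - η) * (t ^ 2 + u) - 2 * t * k)) / (α * t ^ 2 + b) +
    ((1 - η) * (t ^ 2 + u) - 2 * t * k) / (t ^ 2 + u + b)) / N) with hY
  have htr := F.trc t w hu
  have hNb : ((N:ℝ) - 1) * b = F.Bq w + (1.5 * F.hh w ^ 2 + 3 * k ^ 2) / α := by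
    rw [hbd]
    unfold Fr.b3
    rw [mul_div_cancel₀ _ hN1.ne']
  have hNα : ((N:ℝ) - 1) * α = (N:ℝ) - 1 - (F.del - η) := by
    rw [hα]
    unfold Fr.al
    rw [mul_sub, mul_div_cancel₀ _ hN1.ne', mul_one]
  have hNY : (N:ℝ) * Y ≤ N + (- (((1.5 * F.hh w ^ 2 + 3 * k ^ 2) / α) / (α * t ^ 2 + b)) - η -
        2 * (t * (κ / (α * t ^ 2 + b) + k / (t ^ 2 + u + b)))) := by
    have e1 : (N:ℝ) * Y = ((F.Gm t w).trace - ((1 - η) * (t ^ 2 + u) - 2 * t * k)) /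
        (α * t ^ 2 + b) + ((1 - η) * (t ^ 2 + u) - 2 * t * k) / (t ^ 2 + u + b) := by
      rw [hY]
      field_simp
    have e2 : (F.Gm t w).trace - ((1 - η) * (t ^ 2 + u) - 2 * t * k) =
        ((N:ℝ) - 1) * (α * t ^ 2 + b) - ((1.5 * F.hh w ^ 2 + 3 * k ^ 2) / α) - 2 * t * κ := by
      rw [htr]
      have e3 : ((N:ℝ) - 1) * (α * t ^ 2 + b) = ((N:ℝ) - 1 - (F.del - η)) * t ^ 2 +
          (F.Bq w + (1.5 * F.hh w ^ 2 + 3 * k ^ 2) / α) := by
        rw [← hNα, ← hNb]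
        ring
      rw [e3, hκ]
      ring
    have e4 : (((N:ℝ) - 1) * (α * t ^ 2 + b) - ((1.5 * F.hh w ^ 2 + 3 * k ^ 2) / α) - 2 * t * κ) /
        (α * t ^ 2 + b) = ((N:ℝ) - 1) - ((1.5 * F.hh w ^ 2 + 3 * k ^ 2) / α) / (α * t ^ 2 + b) -
          2 * t * (κ / (α * t ^ 2 + b)) := by
      rw [sub_div, sub_div, mul_div_cancel_right₀ _ ha.ne']
      ring
    have e5 : ((1 - η) * (t ^ 2 + u) - 2 * t * k) / (t ^ 2 + u + b) ≤
        (1 - η) - 2 * t * (k / (t ^ 2 + u + b)) := by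
      rw [sub_div, mul_div_assoc (2 * t)]
      have : (1 - η) * (t ^ 2 + u) / (t ^ 2 + u + b) ≤ 1 - η := by
        rw [div_le_iff₀ hg0]
        nlinarith
      linarith
    rw [e1, e2, e4]
    linarith
  unfold Fr.FF
  calc Real.sqrt (F.Gm t w).det
      ≤ Real.sqrt ((t ^ 2 + u + b) * (α * t ^ 2 + b) ^ (N - 1) * Y ^ N) := Real.sqrt_le_sqrt h1
    _ = Real.sqrt ((t ^ 2 + u + b) * (α * t ^ 2 + b) ^ (N - 1)) * Real.sqrt (Y ^ N) := by
        rw [Real.sqrt_mul (by positivity)]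
    _ ≤ _ := mul_le_mul_of_nonneg_left (Fr.sym2_exp_sym2x N Y _ h2 hNY) (Real.sqrt_nonneg _)

theorem Fr.sym3 {N : ℕ} (hN : 2 ≤ N) (F : Fr N) (t : ℝ) (w : E (N + 1)) (hu : F.u2 w ≠ 0)
    (ht : t ≠ 0) (hal : 0 < F.al w) :
    0 ≤ F.be3 w ∧ (F.FF t w + F.FF (-t) w) / 2 ≤
      Real.exp (-F.del / 2) * Real.sqrt (t ^ 2 + F.u2 w + F.be3 w) * Real.sqrt ((t ^ 2 + F.be3 w) ^ (N - 1)) := by
  have hN1 : (0:ℝ) < (N:ℝ) - 1 := by
    have : (2:ℝ) ≤ N := by exact_mod_cast hN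
    linarith
  have hu0 : 0 < F.u2 w := lt_of_le_of_ne (F.u2_nonneg_sym2x w) (Ne.symm hu)
  have ht2 : 0 < t ^ 2 := by positivity
  obtain ⟨he0, he1, hed⟩ := F.eta_bd w
  have hBq : 0 ≤ F.Bq w := Finset.sum_nonneg fun _ _ => by positivity
  have hb : 0 ≤ F.b3 w := by
    unfold Fr.b3
    have := hal
    positivity
  have hal1 : F.al w ≤ 1 := by
    unfold Fr.al
    have : 0 ≤ (F.del - F.eta w) / ((N:ℝ) - 1) := div_nonneg (by linarith) hN1.le
    linarith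
  have hbe : 0 ≤ F.be3 w := div_nonneg hb hal.le
  refine ⟨hbe, ?_⟩
  have p1 := F.sym3_one hN t w hu ht hal hal1 hb
  have p2 := F.sym3_one hN (-t) w hu (neg_ne_zero.2 ht) hal hal1 hb
  rw [neg_sq] at p2
  set κ := F.hh w - F.k2 w with hκ
  set α := F.al w with hα
  set b := F.b3 w with hbd
  set u := F.u2 w with hud
  set η := F.eta w with hη
  set k := F.k2 w with hk
  set a := α * t ^ 2 + b with ha'
  set g := t ^ 2 + u + b with hg'
  have ha : 0 < a := by positivity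
  have hg : 0 < g := by positivity
  have hag : a ≤ g := by rw [ha', hg']; nlinarith
  set Dd := ((1.5 * F.hh w ^ 2 + 3 * k ^ 2) / α) / a with hD
  set z := t * (κ / a + k / g) with hz
  have hz2 : z ^ 2 ≤ Dd := by
    have hga : 1 / g ≤ 1 / a := one_div_le_one_div_of_le ha hag
    have hg1 : 0 < 1 / g := by positivity
    have ha1 : 0 < 1 / a := by positivity
    have hd0 : 0 ≤ 1 / a - 1 / g := by linarith
    have hd1 : (1 / a - 1 / g) ^ 2 ≤ (1 / a) ^ 2 := by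
      apply pow_le_pow_left₀ hd0; linarith
    have e0 : z = t * F.hh w * (1 / a) - t * k * (1 / a - 1 / g) := by
      rw [hz, hκ]; ring
    have q1 : z ^ 2 ≤ 1.5 * (t * F.hh w * (1 / a)) ^ 2 + 3 * (t * k * (1 / a - 1 / g)) ^ 2 := by
      rw [e0]
      nlinarith [sq_nonneg (t * F.hh w * (1 / a) + 2 * (t * k * (1 / a - 1 / g)))]
    have q2 : (t * k * (1 / a - 1 / g)) ^ 2 ≤ (t * k) ^ 2 * (1 / a) ^ 2 := by
      rw [mul_pow (t * k)]
      exact mul_le_mul_of_nonneg_left hd1 (sq_nonneg _)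
    have q3 : t ^ 2 ≤ a / α := by
      rw [le_div_iff₀ hal, ha']
      nlinarith
    have q4 : Dd = (1.5 * F.hh w ^ 2 + 3 * k ^ 2) * (a / α) * (1 / a) ^ 2 := by
      rw [hD]
      field_simp
    have q5 : 1.5 * (t * F.hh w * (1 / a)) ^ 2 + 3 * ((t * k) ^ 2 * (1 / a) ^ 2) =
        (1.5 * F.hh w ^ 2 + 3 * k ^ 2) * t ^ 2 * (1 / a) ^ 2 := by ring
    have q6 : (1.5 * F.hh w ^ 2 + 3 * k ^ 2) * t ^ 2 * (1 / a) ^ 2 ≤
        (1.5 * F.hh w ^ 2 + 3 * k ^ 2) * (a / α) * (1 / a) ^ 2 := by gcongr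
    rw [q4]
    linarith
  have hch : (Real.exp ((-Dd - η - 2 * z) / 2) + Real.exp ((-Dd - η - 2 * (-t * (κ / a + k / g))) / 2)) / 2
      ≤ Real.exp (-(η / 2)) := by
    have r1 : (-Dd - η - 2 * z) / 2 = (-(Dd / 2) - η / 2) + (-z) := by ring
    have r2 : (-Dd - η - 2 * (-t * (κ / a + k / g))) / 2 = (-(Dd / 2) - η / 2) + z := by
      rw [hz]; ring
    rw [r1, r2, Real.exp_add, Real.exp_add]
    have r3 : (Real.exp (-(Dd / 2) - η / 2) * Real.exp (-z) +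
        Real.exp (-(Dd / 2) - η / 2) * Real.exp z) / 2 =
        Real.exp (-(Dd / 2) - η / 2) * Real.cosh z := by
      rw [Real.cosh_eq]; ring
    rw [r3]
    calc Real.exp (-(Dd / 2) - η / 2) * Real.cosh z
        ≤ Real.exp (-(Dd / 2) - η / 2) * Real.exp (z ^ 2 / 2) :=
          mul_le_mul_of_nonneg_left (Real.cosh_le_exp_half_sq z) (Real.exp_pos _).le
      _ = Real.exp (-(Dd / 2) - η / 2 + z ^ 2 / 2) := by rw [Real.exp_add]
      _ ≤ Real.exp (-(η / 2)) := Real.exp_le_exp.2 (by linarith)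
  have havg : (F.FF t w + F.FF (-t) w) / 2 ≤ Real.sqrt (g * a ^ (N - 1)) * Real.exp (-(η / 2)) := by
    calc (F.FF t w + F.FF (-t) w) / 2 ≤
        (Real.sqrt (g * a ^ (N - 1)) * Real.exp ((-Dd - η - 2 * z) / 2) +
          Real.sqrt (g * a ^ (N - 1)) * Real.exp ((-Dd - η - 2 * (-t * (κ / a + k / g))) / 2)) / 2 := by
          linarith
      _ = Real.sqrt (g * a ^ (N - 1)) * ((Real.exp ((-Dd - η - 2 * z) / 2) +
          Real.exp ((-Dd - η - 2 * (-t * (κ / a + k / g))) / 2)) / 2) := by ring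
      _ ≤ _ := mul_le_mul_of_nonneg_left hch (Real.sqrt_nonneg _)
  refine havg.trans ?_
  have hbeb : F.be3 w = b / α := rfl
  have haα : a = α * (t ^ 2 + F.be3 w) := by
    rw [hbeb, ha']
    field_simp
  have hgle : g ≤ t ^ 2 + u + F.be3 w := by
    rw [hbeb, hg']
    have : b ≤ b / α := by
      rw [le_div_iff₀ hal]
      nlinarith
    linarith
  have hαe : Real.sqrt (α ^ (N - 1)) ≤ Real.exp (-(F.del - η) / 2) := by
    have s1 : α ≤ Real.exp (-((F.del - η) / ((N:ℝ) - 1))) := by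
      have := Real.add_one_le_exp (-((F.del - η) / ((N:ℝ) - 1)))
      have s2 : α = 1 - (F.del - η) / ((N:ℝ) - 1) := rfl
      linarith
    have s3 : α ^ (N - 1) ≤ Real.exp (-(F.del - η)) := by
      calc α ^ (N - 1) ≤ (Real.exp (-((F.del - η) / ((N:ℝ) - 1)))) ^ (N - 1) :=
            pow_le_pow_left₀ hal.le s1 _
        _ = Real.exp (((N - 1 : ℕ) : ℝ) * (-((F.del - η) / ((N:ℝ) - 1)))) := by
            rw [← Real.exp_nat_mul]
        _ = Real.exp (-(F.del - η)) := by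
            congr 1
            rw [Nat.cast_sub (by omega), Nat.cast_one]
            field_simp
    calc Real.sqrt (α ^ (N - 1)) ≤ Real.sqrt (Real.exp (-(F.del - η))) := Real.sqrt_le_sqrt s3
      _ = _ := by rw [Real.exp_half]
  have hfin : Real.sqrt (g * a ^ (N - 1)) ≤ Real.sqrt (t ^ 2 + u + F.be3 w) *
      (Real.exp (-(F.del - η) / 2) * Real.sqrt ((t ^ 2 + F.be3 w) ^ (N - 1))) := by
    rw [Real.sqrt_mul hg.le, haα, mul_pow, Real.sqrt_mul (by positivity)]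
    have s4 : 0 ≤ Real.sqrt ((t ^ 2 + F.be3 w) ^ (N - 1)) := Real.sqrt_nonneg _
    refine mul_le_mul (Real.sqrt_le_sqrt hgle) (mul_le_mul_of_nonneg_right hαe s4)
      (by positivity) (Real.sqrt_nonneg _)
  calc Real.sqrt (g * a ^ (N - 1)) * Real.exp (-(η / 2)) ≤
      (Real.sqrt (t ^ 2 + u + F.be3 w) *
      (Real.exp (-(F.del - η) / 2) * Real.sqrt ((t ^ 2 + F.be3 w) ^ (N - 1)))) *
        Real.exp (-(η / 2)) := mul_le_mul_of_nonneg_right hfin (Real.exp_pos _).le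
    _ = (Real.exp (-(F.del - η) / 2) * Real.exp (-(η / 2))) * Real.sqrt (t ^ 2 + u + F.be3 w) *
        Real.sqrt ((t ^ 2 + F.be3 w) ^ (N - 1)) := by ring
    _ = _ := by
        rw [← Real.exp_add]
        congr 3
        ring




end Pool.Agent.Helper82.OS
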