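import Mathlib
import Pool.Agent.Helper82.OS.Defs
import Pool.Agent.Helper82.OS.Defs2
import Pool.Agent.Helper82.OS.Defs3
import Pool.Agent.Helper82.OS.Defs4
import Pool.Agent.Helper82.OS.gsmall
import Pool.Agent.Helper82.OS.be_le3
import Pool.Agent.Helper82.OS.sym3
import Pool.Agent.Helper82.OS.gauss_k2
import Pool.Agent.Helper82.OS.gauss_tilt
import Pool.Agent.Helper82.OS.stein1
import Pool.Agent.Helper82.OS.trc
set_option autoImplicit false
open Matrix MeasureTheory Set Metric Filter Topology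
open scoped ENNReal ContDiff

namespace Pool.Agent.Helper82.OS

theorem inner_aux3 {m : ℕ} (hm : 3 ≤ m) (F : Fr (2 * m)) (w : E (2 * m + 1)) (hu : F.u2 w ≠ 0)
    (hal : 0 < F.al w) (hbe : 0 ≤ F.be3 w) :
    ∫⁻ t : ℝ, ENNReal.ofReal (F.FF t w * gt t * gw w) ≤
      ENNReal.ofReal (Real.exp (-F.del / 2)) * (ENNReal.ofReal (Real.exp (F.be3 w)) *
        Psi (2 * m) (F.u2 w)) * ENNReal.ofReal (gw w) := by
  have h1 : ∀ t : ℝ, ENNReal.ofReal (F.FF t w * gt t * gw w) =
      ENNReal.ofReal (F.FF t w * gt t) * ENNReal.ofReal (gw w) := fun t =>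
    ENNReal.ofReal_mul (mul_nonneg (FF_nonneg_aux_gsmallx F t w) (gt_pos_aux_gsmallx t).le)
  simp_rw [h1]
  rw [lintegral_mul_const' _ _ ENNReal.ofReal_ne_top]
  gcongr
  have hu0 : 0 ≤ F.u2 w := by rw [F.u2_pr w]; positivity
  set h : ℝ → ℝ≥0∞ := fun t => ENNReal.ofReal (F.FF t w * gt t) with hh
  set S : ℝ → ℝ≥0∞ := fun t => ENNReal.ofReal (Real.sqrt (t ^ 2 + F.u2 w + F.be3 w) *
    Real.sqrt ((t ^ 2 + F.be3 w) ^ (2 * m - 1)) * gt t) with hS
  have hneg : ∫⁻ t, h (-t) = ∫⁻ t, h t :=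
    lintegral_neg_eq_self (μ := (volume : Measure ℝ)) h
  have h2 : 2 * ∫⁻ t, h t ≤ 2 * (ENNReal.ofReal (Real.exp (-F.del / 2)) * ∫⁻ t, S t) := by
    calc 2 * ∫⁻ t, h t = (∫⁻ t, h t) + (∫⁻ t, h (-t)) := by rw [hneg, two_mul]
      _ ≤ ∫⁻ t, (h t + h (-t)) := le_lintegral_add _ _
      _ ≤ ∫⁻ t, (2 * ENNReal.ofReal (Real.exp (-F.del / 2))) * S t := by
          refine lintegral_mono_ae ?_
          have hne : ∀ᵐ t : ℝ, t ≠ 0 := by
            rw [ae_iff]; simp
          filter_upwards [hne] with t ht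
          have hs := (F.sym3 (by omega) t w hu ht hal).2
          simp only [hh, hS, gt_neg_aux_gsmallx]
          rw [← ENNReal.ofReal_add (mul_nonneg (FF_nonneg_aux_gsmallx F _ w) (gt_pos_aux_gsmallx t).le)
            (mul_nonneg (FF_nonneg_aux_gsmallx F _ w) (gt_pos_aux_gsmallx t).le)]
          have e2 : (2 : ℝ≥0∞) * ENNReal.ofReal (Real.exp (-F.del / 2)) =
              ENNReal.ofReal (2 * Real.exp (-F.del / 2)) := by
            rw [ENNReal.ofReal_mul (by norm_num)]; simp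
          rw [e2, ← ENNReal.ofReal_mul (by positivity)]
          apply ENNReal.ofReal_le_ofReal
          have hg := (gt_pos_aux_gsmallx t).le
          nlinarith [mul_le_mul_of_nonneg_right hs hg]
      _ = 2 * (ENNReal.ofReal (Real.exp (-F.del / 2)) * ∫⁻ t, S t) := by
          rw [lintegral_const_mul' _ _ (ENNReal.mul_ne_top (by simp) ENNReal.ofReal_ne_top), mul_assoc]
  have h3 : ∫⁻ t, h t ≤ ENNReal.ofReal (Real.exp (-F.del / 2)) * ∫⁻ t, S t :=
    (ENNReal.mul_le_mul_iff_right (by simp) (by simp)).1 h2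
  refine h3.trans ?_
  gcongr
  exact stein1 hm _ _ hu0 hbe

theorem coefs_aux3 {m : ℕ} (hm : 20 ≤ m) (F : Fr (2 * m)) (hd : F.del ≤ ((2 * m : ℕ) : ℝ) / 6) :
    ∃ (b : OrthonormalBasis (Fin (2 * m + 1)) ℝ (E (2 * m + 1))) (a : Fin (2 * m + 1) → ℝ),
      (∀ i, 0 ≤ a i) ∧ (∀ i, 2 * a i < 1) ∧
      (∀ w : E (2 * m + 1), ∑ i, a i * inner ℝ w (b i) ^ 2 =
        2 * ((1.24 * F.del * inner ℝ w F.x ^ 2 + 3.48 * F.Sg w) / ((2 * m : ℕ) : ℝ))) ∧
      (∑ i, a i / (1 - 2 * a i)) * (1 + 1 / ((2 * m : ℕ) : ℝ)) ≤ 0.645 * F.del := by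
  have hNR : (40 : ℝ) ≤ ((2 * m : ℕ) : ℝ) := by
    have : 40 ≤ 2 * m := by omega
    exact_mod_cast this
  set N : ℝ := ((2 * m : ℕ) : ℝ) with hN
  have hN0 : 0 < N := by linarith
  have hd0 : 0 ≤ F.del := (F.del_bd).1
  -- orthonormal basis
  set v : Fin (2 * m + 1) → E (2 * m + 1) := Fin.cons F.x F.g with hv
  have hon : Orthonormal ℝ v := by
    constructor
    · intro i
      refine Fin.cases ?_ (fun j => ?_) i
      · simpa [hv] using F.hx
      · simpa [hv] using F.hg.1 j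
    · intro i j hij
      revert hij
      refine Fin.cases ?_ (fun i' => ?_) i <;> refine Fin.cases ?_ (fun j' => ?_) j
      · intro h; exact absurd rfl h
      · intro _
        simp only [hv, Fin.cons_zero, Fin.cons_succ]
        rw [real_inner_comm]
        exact F.hgx j'
      · intro _
        simp only [hv, Fin.cons_zero, Fin.cons_succ]
        exact F.hgx i'
      · intro h
        simp only [hv, Fin.cons_succ]
        exact F.hg.2 (fun e => h (by rw [e]))
  have hcard : Fintype.card (Fin (2 * m + 1)) = Module.finrank ℝ (E (2 * m + 1)) := by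
    simp [finrank_euclideanSpace_fin]
  have hsp : ⊤ ≤ Submodule.span ℝ (Set.range v) := by
    rw [← coe_basisOfOrthonormalOfCardEqFinrank hon hcard]
    exact (basisOfOrthonormalOfCardEqFinrank hon hcard).span_eq.ge
  set b : OrthonormalBasis (Fin (2 * m + 1)) ℝ (E (2 * m + 1)) := OrthonormalBasis.mk hon hsp with hb
  have hb' : ∀ i, b i = v i := fun i => by rw [hb, OrthonormalBasis.coe_mk]
  set a : Fin (2 * m + 1) → ℝ := Fin.cons (2.48 * F.del / N) (fun j => 6.96 * F.s j ^ 2 / N) with ha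
  have hs1 : ∀ j, F.s j ^ 2 ≤ 1 := fun j => by nlinarith [F.hcs j, sq_nonneg (F.c j)]
  have hs0 : ∀ j, 0 ≤ F.s j ^ 2 := fun j => sq_nonneg _
  have hdN : F.del / N ≤ 1 / 6 := by
    rw [div_le_iff₀ hN0]; linarith
  refine ⟨b, a, ?_, ?_, ?_, ?_⟩
  · intro i
    refine Fin.cases ?_ (fun j => ?_) i
    · simp only [ha, Fin.cons_zero]; positivity
    · simp only [ha, Fin.cons_succ]; positivity
  · intro i
    refine Fin.cases ?_ (fun j => ?_) i
    · simp only [ha, Fin.cons_zero]
      have : 2.48 * F.del / N = 2.48 * (F.del / N) := by ring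
      rw [this]; nlinarith
    · simp only [ha, Fin.cons_succ]
      have h1 : 6.96 * F.s j ^ 2 / N ≤ 6.96 / 40 := by
        rw [div_le_div_iff₀ hN0 (by norm_num)]
        nlinarith [hs1 j, hs0 j]
      linarith
  · intro w
    rw [Fin.sum_univ_succ]
    simp only [hb', ha, hv, Fin.cons_zero, Fin.cons_succ, Fr.Sg]
    have : ∑ i : Fin (2 * m), 6.96 * F.s i ^ 2 / N * inner ℝ w (F.g i) ^ 2 =
        6.96 / N * ∑ j, F.s j ^ 2 * inner ℝ w (F.g j) ^ 2 := by
      rw [Finset.mul_sum]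
      refine Finset.sum_congr rfl fun j _ => ?_
      ring
    rw [this]
    field_simp
    ring
  · rw [Fin.sum_univ_succ]
    simp only [ha, Fin.cons_zero, Fin.cons_succ]
    have h1 : 2.48 * F.del / N / (1 - 2 * (2.48 * F.del / N)) ≤ 14.31 * (F.del / N) := by
      have hpos : 0 < 1 - 2 * (2.48 * F.del / N) := by
        have : 2.48 * F.del / N = 2.48 * (F.del / N) := by ring
        rw [this]; nlinarith
      rw [div_le_iff₀ hpos]
      have e : 2.48 * F.del / N = 2.48 * (F.del / N) := by ring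
      rw [e]
      have hq : 0 ≤ F.del / N := by positivity
      nlinarith [mul_nonneg hq (sub_nonneg.2 hdN)]
    have h2 : ∑ j : Fin (2 * m), 6.96 * F.s j ^ 2 / N / (1 - 2 * (6.96 * F.s j ^ 2 / N)) ≤
        10.68 * (F.del / N) := by
      have : 10.68 * (F.del / N) = ∑ j : Fin (2 * m), 10.68 * (F.s j ^ 2 / N) := by
        rw [Fr.del, Finset.sum_div, Finset.mul_sum]
      rw [this]
      refine Finset.sum_le_sum fun j _ => ?_
      have hq : 0 ≤ F.s j ^ 2 / N := by positivity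
      have hq1 : F.s j ^ 2 / N ≤ 1 / 40 := by
        rw [div_le_div_iff₀ hN0 (by norm_num)]
        nlinarith [hs1 j, hs0 j]
      have e : 6.96 * F.s j ^ 2 / N = 6.96 * (F.s j ^ 2 / N) := by ring
      rw [e]
      rw [div_le_iff₀ (by nlinarith)]
      nlinarith [mul_nonneg hq (sub_nonneg.2 hq1)]
    have h3 : 2.48 * F.del / N / (1 - 2 * (2.48 * F.del / N)) +
        ∑ j : Fin (2 * m), 6.96 * F.s j ^ 2 / N / (1 - 2 * (6.96 * F.s j ^ 2 / N)) ≤ 24.99 * (F.del / N) := by
      linarith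
    have h4 : (1 : ℝ) + 1 / N ≤ 41 / 40 := by
      have : 1 / N ≤ 1 / 40 := one_div_le_one_div_of_le (by norm_num) hNR
      linarith
    have h5 : F.del / N ≤ F.del / 40 := div_le_div_of_nonneg_left hd0 (by norm_num) hNR
    calc _ ≤ 24.99 * (F.del / N) * (41 / 40) := by
          apply mul_le_mul h3 h4 (by positivity) (by positivity)
      _ ≤ 24.99 * (F.del / 40) * (41 / 40) := by gcongr
      _ ≤ 0.645 * F.del := by nlinarith

theorem gsmall3 {m : ℕ} (hm : 20 ≤ m) (F : Fr (2 * m)) (hd : F.del ≤ ((2 * m : ℕ) : ℝ) / 6) :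
    ∫⁻ w : E (2 * m + 1), (∫⁻ t : ℝ, ENNReal.ofReal (F.FF t w * gt t * gw w))
      ≤ ENNReal.ofReal (Real.exp (-(F.del / 10))) *
        ∫⁻ w : E (2 * m + 1), Psi (2 * m) (F.u2 w) * ENNReal.ofReal (gw w) := by
  have hNR : (40 : ℝ) ≤ ((2 * m : ℕ) : ℝ) := by
    have : 40 ≤ 2 * m := by omega
    exact_mod_cast this
  have hN0 : (0 : ℝ) < ((2 * m : ℕ) : ℝ) := by linarith
  have hd0 : 0 ≤ F.del := (F.del_bd).1
  obtain ⟨b, a, ha0, ha1, hsum, hcoef⟩ := coefs_aux3 hm F hd
  set β1 : E (2 * m + 1) → ℝ := fun w =>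
    (1.24 * F.del * inner ℝ w F.x ^ 2 + 3.48 * F.Sg w) / ((2 * m : ℕ) : ℝ) with hβ1
  set β2 : E (2 * m + 1) → ℝ := fun w => 4.49 * F.k2 w ^ 2 / ((2 * m : ℕ) : ℝ) with hβ2
  set c : ℝ := 8.98 / ((2 * m : ℕ) : ℝ) with hc
  have hc0 : 0 ≤ c := by positivity
  have hc4 : c ≤ 1 / 4 := by
    rw [hc, div_le_iff₀ hN0]; linarith
  -- measurability
  have mu2 : Measurable F.u2 := by
    unfold Fr.u2
    fun_prop
  have mk2 : Measurable F.k2 := by
    unfold Fr.k2
    refine Measurable.div ?_ mu2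
    unfold Fr.lv Fr.eps
    fun_prop
  have mSg : Measurable F.Sg := by
    unfold Fr.Sg
    fun_prop
  have mgw : Measurable (gw : E (2 * m + 1) → ℝ) := by unfold gw; fun_prop
  have mβ1 : Measurable β1 := by
    simp only [hβ1]
    fun_prop
  have mβ2 : Measurable β2 := by
    simp only [hβ2]
    fun_prop
  set I : ℝ≥0∞ := ∫⁻ w : E (2 * m + 1), Psi (2 * m) (F.u2 w) * ENNReal.ofReal (gw w) with hI
  have I1 : ∫⁻ w : E (2 * m + 1), Psi (2 * m) (F.u2 w) *
      ENNReal.ofReal (Real.exp (2 * β1 w) * gw w) ≤ ENNReal.ofReal (Real.exp (0.645 * F.del)) * I := by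
    refine dom_aux_gsmallx F.u2 (fun w => Real.exp (2 * β1 w)) mu2 (by fun_prop) (fun w => (Real.exp_pos _).le) _ ?_
    intro t
    have h := gauss_tilt (N := 2 * m) (by omega) b a ha0 ha1 F.e F.he t
    have e1 : ∀ w : E (2 * m + 1), ‖w‖ ^ 2 - inner ℝ w F.e ^ 2 = F.u2 w := fun w => (u2_eq_aux_gsmallx F w).symm
    simp only [e1, hsum] at h
    refine h.trans ?_
    gcongr
  have I2 : ∫⁻ w : E (2 * m + 1), Psi (2 * m) (F.u2 w) *
      ENNReal.ofReal (Real.exp (2 * β2 w) * gw w) ≤ ENNReal.ofReal (Real.exp (0.012 * F.del)) * I := by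
    refine dom_aux_gsmallx F.u2 (fun w => Real.exp (2 * β2 w)) mu2 (by fun_prop) (fun w => (Real.exp_pos _).le) _ ?_
    intro t
    have h := gauss_k2 (N := 2 * m) (by omega) F c hc0 hc4 t
    have e2 : ∀ w : E (2 * m + 1), 2 * β2 w = c * F.k2 w ^ 2 := fun w => by
      simp only [hβ2, hc]; ring
    simp only [e2]
    refine h.trans ?_
    gcongr
    have h1 : 2 * c * F.del / ((2 * m : ℕ) : ℝ) ≤ 0.012 * F.del := by
      have hc' : c ≤ 8.98 / 40 := by
        rw [hc]; exact div_le_div_of_nonneg_left (by norm_num) (by norm_num) hNR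
      rw [div_le_iff₀ hN0]
      nlinarith [mul_nonneg hd0 (sub_nonneg.2 hNR), mul_nonneg hd0 (sub_nonneg.2 hc')]
    have h2 := Real.add_one_le_exp (0.012 * F.del)
    linarith
  set ra : ℝ := Real.exp (-(0.155 * F.del)) with hra
  set rb : ℝ := Real.exp (0.155 * F.del) with hrb
  have hra0 : 0 < ra := Real.exp_pos _
  have hrb0 : 0 < rb := Real.exp_pos _
  have hrab : ra * rb = 1 := by
    rw [hra, hrb, ← Real.exp_add]; simp
  set L1 : ℝ := 1 / 2 * ra ^ 2 with hL1
  set L2 : ℝ := 1 / 2 * rb ^ 2 with hL2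
  have hL10 : 0 < L1 := by positivity
  have hL20 : 0 < L2 := by positivity
  have step : ∀ᵐ w : E (2 * m + 1), (∫⁻ t : ℝ, ENNReal.ofReal (F.FF t w * gt t * gw w)) ≤
      ENNReal.ofReal (Real.exp (-F.del / 2)) *
        (Psi (2 * m) (F.u2 w) * ENNReal.ofReal (L1 * (Real.exp (2 * β1 w) * gw w)) +
         Psi (2 * m) (F.u2 w) * ENNReal.ofReal (L2 * (Real.exp (2 * β2 w) * gw w))) := by
    filter_upwards [ae_u2_aux_gsmallx (by omega) F] with w hu
    obtain ⟨hal, hbe, hble⟩ := F.be_le3 (N := 2 * m) (by omega) hd w hu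
    refine (inner_aux3 (by omega) F w hu hal hbe).trans ?_
    have hb12 : F.be3 w ≤ β1 w + β2 w := by
      refine hble.trans (le_of_eq ?_)
      simp only [hβ1, hβ2]
      ring
    have hexp : Real.exp (F.be3 w) ≤ L1 * Real.exp (2 * β1 w) + L2 * Real.exp (2 * β2 w) := by
      have h1 : Real.exp (F.be3 w) ≤ Real.exp (β1 w) * Real.exp (β2 w) := by
        rw [← Real.exp_add]; exact Real.exp_le_exp.2 hb12
      have h2 : Real.exp (2 * β1 w) = Real.exp (β1 w) ^ 2 := by
        rw [← Real.exp_nat_mul]; norm_num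
      have h3 : Real.exp (2 * β2 w) = Real.exp (β2 w) ^ 2 := by
        rw [← Real.exp_nat_mul]; norm_num
      rw [h2, h3]
      have h4 : 0 ≤ (ra * Real.exp (β1 w) - rb * Real.exp (β2 w)) ^ 2 := sq_nonneg _
      have h5 : (ra * Real.exp (β1 w) - rb * Real.exp (β2 w)) ^ 2 =
          2 * (L1 * Real.exp (β1 w) ^ 2 + L2 * Real.exp (β2 w) ^ 2) -
          2 * (ra * rb) * (Real.exp (β1 w) * Real.exp (β2 w)) := by
        rw [hL1, hL2]; ring
      rw [h5, hrab] at h4
      linarith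
    have hg := (gw_pos_aux_gsmallx w).le
    rw [← mul_add, ← ENNReal.ofReal_add (by positivity) (by positivity), mul_assoc]
    gcongr ENNReal.ofReal (Real.exp (-F.del / 2)) * ?_
    rw [mul_comm (ENNReal.ofReal (Real.exp (F.be3 w))) _, mul_assoc]
    gcongr Psi (2 * m) (F.u2 w) * ?_
    rw [← ENNReal.ofReal_mul (Real.exp_pos _).le]
    apply ENNReal.ofReal_le_ofReal
    nlinarith [mul_le_mul_of_nonneg_right hexp hg]
  refine (lintegral_mono_ae step).trans ?_
  rw [lintegral_const_mul' _ _ ENNReal.ofReal_ne_top]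
  have mPsi : Measurable (fun w : E (2 * m + 1) => Psi (2 * m) (F.u2 w)) := by
    have hgt : Measurable gt := by unfold gt; fun_prop
    have h1 : Measurable (fun u : ℝ => Psi (2 * m) u) := by
      unfold Psi
      refine Measurable.lintegral_prod_right' (f := fun p : ℝ × ℝ =>
        ENNReal.ofReal (Real.sqrt (p.2 ^ 2 + p.1) * |p.2| ^ (2 * m - 1) * gt p.2)) ?_
      fun_prop
    exact h1.comp mu2
  rw [lintegral_add_left]
  · have half : ∀ (L : ℝ), 0 < L → ∀ β : E (2 * m + 1) → ℝ,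
        ∫⁻ w : E (2 * m + 1), Psi (2 * m) (F.u2 w) * ENNReal.ofReal (L * (Real.exp (2 * β w) * gw w)) =
        ENNReal.ofReal L * ∫⁻ w : E (2 * m + 1), Psi (2 * m) (F.u2 w) *
          ENNReal.ofReal (Real.exp (2 * β w) * gw w) := by
      intro L hL β
      rw [← lintegral_const_mul' _ _ ENNReal.ofReal_ne_top]
      refine lintegral_congr fun w => ?_
      rw [ENNReal.ofReal_mul hL.le]
      ring
    rw [half L1 hL10 β1, half L2 hL20 β2]
    calc ENNReal.ofReal (Real.exp (-F.del / 2)) * (ENNReal.ofReal L1 * (∫⁻ w : E (2 * m + 1),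
            Psi (2 * m) (F.u2 w) * ENNReal.ofReal (Real.exp (2 * β1 w) * gw w)) +
          ENNReal.ofReal L2 * (∫⁻ w : E (2 * m + 1),
            Psi (2 * m) (F.u2 w) * ENNReal.ofReal (Real.exp (2 * β2 w) * gw w)))
        ≤ ENNReal.ofReal (Real.exp (-F.del / 2)) *
          (ENNReal.ofReal L1 * (ENNReal.ofReal (Real.exp (0.645 * F.del)) * I) +
           ENNReal.ofReal L2 * (ENNReal.ofReal (Real.exp (0.012 * F.del)) * I)) := by
          gcongr
      _ = (ENNReal.ofReal (Real.exp (-F.del / 2)) * (ENNReal.ofReal L1 * ENNReal.ofReal (Real.exp (0.645 * F.del)) +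
            ENNReal.ofReal L2 * ENNReal.ofReal (Real.exp (0.012 * F.del)))) * I := by ring
      _ ≤ ENNReal.ofReal (Real.exp (-(F.del / 10))) * I := by
          gcongr
          rw [← ENNReal.ofReal_mul hL10.le, ← ENNReal.ofReal_mul hL20.le,
            ← ENNReal.ofReal_add (by positivity) (by positivity), ← ENNReal.ofReal_mul (by positivity)]
          apply ENNReal.ofReal_le_ofReal
          have e1 : Real.exp (-F.del / 2) * (L1 * Real.exp (0.645 * F.del)) ≤
              1 / 2 * Real.exp (-(F.del / 10)) := by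
            have : Real.exp (-F.del / 2) * (L1 * Real.exp (0.645 * F.del)) =
                1 / 2 * Real.exp (-F.del / 2 + (-(0.155 * F.del) + (-(0.155 * F.del) + 0.645 * F.del))) := by
              rw [Real.exp_add, Real.exp_add, Real.exp_add, hL1, hra]; ring
            rw [this]
            apply mul_le_mul_of_nonneg_left _ (by norm_num)
            apply Real.exp_le_exp.2
            linarith
          have e2 : Real.exp (-F.del / 2) * (L2 * Real.exp (0.012 * F.del)) ≤
              1 / 2 * Real.exp (-(F.del / 10)) := by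
            have : Real.exp (-F.del / 2) * (L2 * Real.exp (0.012 * F.del)) =
                1 / 2 * Real.exp (-F.del / 2 + (0.155 * F.del + (0.155 * F.del + 0.012 * F.del))) := by
              rw [Real.exp_add, Real.exp_add, Real.exp_add, hL2, hrb]; ring
            rw [this]
            apply mul_le_mul_of_nonneg_left _ (by norm_num)
            apply Real.exp_le_exp.2
            linarith
          rw [mul_add]
          linarith
  · exact mPsi.mul (by fun_prop)





end Pool.Agent.Helper82.OS
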