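import Mathlib
import Pool.Agent.Helper82.OS.Defs
import Pool.Agent.Helper82.OS.Ext
set_option autoImplicit false
open Matrix MeasureTheory Set Metric Filter Topology
open scoped ENNReal ContDiff

namespace Pool.Agent.Helper82.OS
open scoped Pointwise in
theorem haus_sg_set_haus_sgx {k : ℕ} (A : Set (E (k + 1))) (hA : MeasurableSet A) :
    sg (k + 1) univ * (Measure.hausdorffMeasure (k : ℝ) : Measure (E (k + 1))) (A ∩ sphere 0 1) =
      (Measure.hausdorffMeasure (k : ℝ) : Measure (E (k + 1))) (sphere 0 1) *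
        sg (k + 1) ((fun f : sphere (0 : E (k + 1)) 1 => (f : E (k + 1))) ⁻¹' A) := by
  obtain ⟨W, hWd⟩ : ∃ W : Set (E (k + 1)), W = {z | z ≠ 0 ∧ ‖z‖⁻¹ • z ∈ A} := ⟨_, rfl⟩
  have hmem : ∀ z, z ∈ W ↔ z ≠ 0 ∧ ‖z‖⁻¹ • z ∈ A := fun z => by rw [hWd]; rfl
  have hW : MeasurableSet W := by
    have h1 : Measurable (fun z : E (k + 1) => ‖z‖⁻¹ • z) := measurable_norm.inv.smul measurable_id
    have h2 : W = {0}ᶜ ∩ (fun z : E (k + 1) => ‖z‖⁻¹ • z) ⁻¹' A := by
      ext z
      rw [hmem]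
      rfl
    rw [h2]
    exact (measurableSet_singleton 0).compl.inter (h1 hA)
  have hcone : ∀ (r : ℝ) (z : E (k + 1)), 0 < r → (r • z ∈ W ↔ z ∈ W) := by
    intro r z hr
    rw [hmem, hmem]
    have h1 : ‖r • z‖⁻¹ • (r • z) = ‖z‖⁻¹ • z := by
      rw [norm_smul, Real.norm_of_nonneg hr.le, smul_smul, mul_inv, mul_comm r⁻¹, mul_assoc,
        inv_mul_cancel₀ hr.ne', mul_one]
    rw [h1]
    simp [hr.ne']
  have hWS : W ∩ sphere 0 1 = A ∩ sphere 0 1 := by
    ext z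
    constructor
    · rintro ⟨hz, hzS⟩
      have h1 : ‖z‖ = 1 := mem_sphere_zero_iff_norm.1 hzS
      have h2 := ((hmem z).1 hz).2
      rw [h1, inv_one, one_smul] at h2
      exact ⟨h2, hzS⟩
    · rintro ⟨hz, hzS⟩
      have h1 : ‖z‖ = 1 := mem_sphere_zero_iff_norm.1 hzS
      refine ⟨(hmem z).2 ⟨?_, ?_⟩, hzS⟩
      · rintro rfl
        rw [norm_zero] at h1
        exact zero_ne_one h1
      · rw [h1, inv_one, one_smul]
        exact hz
  have hx0 : ‖(EuclideanSpace.single (0 : Fin (k + 1)) (1 : ℝ) : E (k + 1))‖ = 1 := by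
    rw [EuclideanSpace.norm_single, norm_one]
  have hfin : (Measure.hausdorffMeasure (k : ℝ) : Measure (E (k + 1))) (sphere 0 1) < ⊤ :=
    lt_top_iff_ne_top.2 (B08_sphere_finite k)
  have hcr := cone_ratio (F := E (k + 1)) (n := k) finrank_euclideanSpace_fin (k : ℝ)
    (sphere 0 1) (by ext x; exact mem_sphere_zero_iff_norm) hfin W hW hcone _ hx0
  rw [hWS] at hcr
  have hset : Ioo (0 : ℝ) 1 • ((fun f : sphere (0 : E (k + 1)) 1 => (f : E (k + 1))) ''
      ((fun f : sphere (0 : E (k + 1)) 1 => (f : E (k + 1))) ⁻¹' A)) = W ∩ ball 0 1 := by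
    ext z
    rw [Set.mem_smul]
    constructor
    · rintro ⟨r, hr, _, ⟨f, hf, rfl⟩, rfl⟩
      have hfn : ‖(f : E (k + 1))‖ = 1 := mem_sphere_zero_iff_norm.1 f.2
      refine ⟨?_, ?_⟩
      · rw [hcone r _ hr.1]
        refine (hmem _).2 ⟨?_, ?_⟩
        · intro h0
          have h0' : (f : E (k + 1)) = 0 := h0
          rw [h0', norm_zero] at hfn
          exact zero_ne_one hfn
        · change ‖(f : E (k + 1))‖⁻¹ • (f : E (k + 1)) ∈ A
          rw [hfn, inv_one, one_smul]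
          exact hf
      · change r • (f : E (k + 1)) ∈ ball (0 : E (k + 1)) 1
        rw [mem_ball_zero_iff, norm_smul, Real.norm_of_nonneg hr.1.le, hfn, mul_one]
        exact hr.2
    · rintro ⟨hz, hzb⟩
      obtain ⟨hz0, hzA⟩ := (hmem z).1 hz
      have hzn : 0 < ‖z‖ := norm_pos_iff.2 hz0
      refine ⟨‖z‖, ⟨hzn, mem_ball_zero_iff.1 hzb⟩, ‖z‖⁻¹ • z,
        ⟨⟨‖z‖⁻¹ • z, ?_⟩, hzA, rfl⟩, ?_⟩
      · rw [mem_sphere_zero_iff_norm, norm_smul, norm_inv, norm_norm, inv_mul_cancel₀ hzn.ne']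
      · rw [smul_smul, mul_inv_cancel₀ hzn.ne', one_smul]
  have hmp : MeasurableSet ((fun f : sphere (0 : E (k + 1)) 1 => (f : E (k + 1))) ⁻¹' A) :=
    measurable_subtype_coe hA
  have hs1 : sg (k + 1) ((fun f : sphere (0 : E (k + 1)) 1 => (f : E (k + 1))) ⁻¹' A) =
      Module.finrank ℝ (E (k + 1)) * volume (W ∩ ball 0 1) := by
    rw [← hset]
    exact Measure.toSphere_apply' _ hmp
  have hs2 : sg (k + 1) univ = Module.finrank ℝ (E (k + 1)) * volume (ball (0 : E (k + 1)) 1) :=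
    Measure.toSphere_apply_univ _
  rw [hs1, hs2, mul_assoc, mul_comm (volume (ball (0 : E (k + 1)) 1)), hcr]
  ring

theorem haus_sg {k : ℕ} (g : E (k + 1) → ℝ≥0∞) (hg : Measurable g) :
    (∫⁻ x in sphere (0 : E (k + 1)) 1, g x ∂(Measure.hausdorffMeasure (k : ℝ))) * sg (k + 1) univ
      = (Measure.hausdorffMeasure (k : ℝ) : Measure (E (k + 1))) (sphere 0 1) *
        ∫⁻ f : sphere (0 : E (k + 1)) 1, g f ∂(sg (k + 1)) := by
  have hm : sg (k + 1) univ •
      ((Measure.hausdorffMeasure (k : ℝ) : Measure (E (k + 1))).restrict (sphere 0 1)) =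
      (Measure.hausdorffMeasure (k : ℝ) : Measure (E (k + 1))) (sphere 0 1) •
        (sg (k + 1)).map (fun f : sphere (0 : E (k + 1)) 1 => (f : E (k + 1))) := by
    ext A hA
    rw [Measure.smul_apply, Measure.smul_apply, Measure.restrict_apply hA,
      Measure.map_apply measurable_subtype_coe hA, smul_eq_mul, smul_eq_mul]
    exact haus_sg_set_haus_sgx A hA
  have h1 := congrArg (fun ν : Measure (E (k + 1)) => ∫⁻ x, g x ∂ν) hm
  beta_reduce at h1
  rw [lintegral_smul_measure, lintegral_smul_measure, lintegral_map hg measurable_subtype_coe,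
    smul_eq_mul, smul_eq_mul] at h1
  rw [mul_comm]
  exact h1



end Pool.Agent.Helper82.OS
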