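import Mathlib
import Pool.Agent.Helper82.OS.Defs
import Pool.Agent.Helper82.OS.PPd
import Pool.Agent.Helper82.OS.Pint
import Pool.Agent.Helper82.OS.cNval
import Pool.Agent.Helper82.OS.constid
import Pool.Agent.Helper82.OS.densP
import Pool.Agent.Helper82.OS.haus_sg
import Pool.Agent.Helper82.OS.sgval
set_option autoImplicit false
open Matrix MeasureTheory Set Metric Filter Topology
open scoped ENNReal ContDiff

namespace Pool.Agent.Helper82.OS
theorem mu_inner_main_upperx {D : ℕ} (a x : E D) (ha : ‖a‖ = 1) (hx : ‖x‖ = 1) (h : 1 + inner ℝ a x = 0) :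
    x = -a := by
  have h1 : ‖x + a‖ ^ 2 = 0 := by
    rw [← real_inner_self_eq_norm_sq, inner_add_left, inner_add_right, inner_add_right,
      real_inner_self_eq_norm_sq, real_inner_self_eq_norm_sq, real_inner_comm a x, ha, hx]
    linarith
  have h2 : x + a = 0 := by
    rw [← norm_eq_zero]
    exact pow_eq_zero_iff (two_ne_zero) |>.1 h1
  exact eq_neg_of_add_eq_zero_left h2

theorem mu_meas0_main_upperx (N : ℕ) : Measurable (fun p : ℝ × ℝ => fP N p.1 p.2) := by
  have h1 : Measurable (fun p : ℝ × ℝ => 1 + p.1) := measurable_const.add measurable_fst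
  have h2 : Measurable (fun p : ℝ × ℝ => Real.sqrt ((1 + p.1) ^ 2 + p.2 ^ 2)) :=
    ((h1.pow_const 2).add (measurable_snd.pow_const 2)).sqrt
  have h3 : Measurable (fun p : ℝ × ℝ => Real.sqrt (2 / (1 + p.1))) :=
    (measurable_const.div h1).sqrt
  exact ((h2.div h1).pow_const (N - 1)).mul h3

theorem mu_inner_meas_main_upperx {D : ℕ} (a : E D) : Measurable fun x : E D => (inner ℝ a x : ℝ) :=
  (innerSL ℝ a).continuous.measurable

theorem mu_meas_main_upperx {N : ℕ} (a v : E (N + 2)) :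
    Measurable fun x : E (N + 2) => ENNReal.ofReal (fP N (inner ℝ a x) (inner ℝ v x)) := by
  have h3 : Measurable fun x : E (N + 2) => ((inner ℝ a x : ℝ), (inner ℝ v x : ℝ)) :=
    (mu_inner_meas_main_upperx a).prodMk (mu_inner_meas_main_upperx v)
  have h4 := (mu_meas0_main_upperx N).comp h3
  have h5 : ((fun p : ℝ × ℝ => fP N p.1 p.2) ∘ fun x : E (N + 2) => ((inner ℝ a x : ℝ), (inner ℝ v x : ℝ))) =
    fun x : E (N + 2) => fP N (inner ℝ a x) (inner ℝ v x) := rfl
  rw [h5] at h4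
  exact ENNReal.measurable_ofReal.comp h4

theorem main_upper {N : ℕ} (hN : Even N) (hN2 : 2 ≤ N) (a v : E (N + 2)) (ha : ‖a‖ = 1) (hv : ‖v‖ = 1)
    (hav : inner ℝ a v = 0) :
    ENNReal.ofReal (2 ^ N) * cN N *
        ∫⁻ x in sphere (0 : E (N + 2)) 1, ENNReal.ofReal (dens (PP a v) x) ∂(Measure.hausdorffMeasure ((N + 1 : ℕ) : ℝ))
      = ENNReal.ofReal (2 * Real.pi) * sg (N + 1) univ *
      (Measure.hausdorffMeasure ((N + 1 : ℕ) : ℝ) : Measure (E (N + 2))) (sphere 0 1) := by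
  have hpos : (0 : ℝ) < ((N + 1 : ℕ) : ℝ) := by positivity
  have hna : NullSingletonClass (Measure.hausdorffMeasure ((N + 1 : ℕ) : ℝ) : Measure (E (N + 2))) :=
    Measure.nullSingletonClass_hausdorff _ hpos
  have h1 : ∫⁻ x in sphere (0 : E (N + 2)) 1, ENNReal.ofReal (dens (PP a v) x)
      ∂(Measure.hausdorffMeasure ((N + 1 : ℕ) : ℝ)) =
      ∫⁻ x in sphere (0 : E (N + 2)) 1, ENNReal.ofReal (fP N (inner ℝ a x) (inner ℝ v x))
        ∂(Measure.hausdorffMeasure ((N + 1 : ℕ) : ℝ)) := by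
    refine lintegral_congr_ae ((ae_restrict_iff' isClosed_sphere.measurableSet).2 ?_)
    have h2 : ({-a} : Set (E (N + 2)))ᶜ ∈
        ae (Measure.hausdorffMeasure ((N + 1 : ℕ) : ℝ) : Measure (E (N + 2))) :=
      compl_mem_ae_iff.2 (measure_singleton _)
    filter_upwards [h2] with x hx hxs
    have hx1 : ‖x‖ = 1 := mem_sphere_zero_iff_norm.1 hxs
    rw [densP (by omega) a v x ha hv hav hx1 (fun h0 => hx (mu_inner_main_upperx a x ha hx1 h0))]
  rw [h1]
  have h3 := haus_sg (k := N + 1) _ (mu_meas_main_upperx a v)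
  have h4 := Pint hN2 a v ha hv hav
  have hN0 : (0 : ℝ) < N := by
    have : 0 < N := by omega
    exact_mod_cast this
  have hS := sgval (k := N + 2) (by omega)
  have hS1 := sgval (k := N + 1) (by omega)
  have hg1 : 0 < Real.Gamma ((N : ℝ) / 2) := Real.Gamma_pos_of_pos (by positivity)
  have hg2 : 0 < Real.Gamma ((N : ℝ) + 1 / 2) := Real.Gamma_pos_of_pos (by positivity)
  have hg3 : 0 < Real.Gamma ((N : ℝ) + 1) := Real.Gamma_pos_of_pos (by positivity)
  have hg4 : 0 < Real.Gamma (N : ℝ) := Real.Gamma_pos_of_pos (by positivity)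
  have hg5 : 0 < Real.Gamma (((N : ℝ) + 1) / 2) := Real.Gamma_pos_of_pos (by positivity)
  have hg6 : 0 < Real.Gamma (((N : ℝ) + 2) / 2) := Real.Gamma_pos_of_pos (by positivity)
  have hpi := Real.pi_pos
  push_cast at hS hS1
  have hcN := cNval hN hN2
  have hconst := constid N hN2
  have hS0 : sg (N + 2) univ ≠ 0 := by
    rw [hS, Ne, ENNReal.ofReal_eq_zero, not_le]
    positivity
  have hST : sg (N + 2) univ ≠ ⊤ := by
    rw [hS]
    exact ENNReal.ofReal_ne_top
  refine (ENNReal.mul_left_inj hS0 hST).1 ?_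
  have h5 : (∫⁻ x in sphere (0 : E (N + 2)) 1, ENNReal.ofReal (fP N (inner ℝ a x) (inner ℝ v x))
        ∂(Measure.hausdorffMeasure ((N + 1 : ℕ) : ℝ))) * sg (N + 2) univ =
      (Measure.hausdorffMeasure ((N + 1 : ℕ) : ℝ) : Measure (E (N + 2))) (sphere 0 1) *
      ENNReal.ofReal (Real.sqrt 2 * (2 * Real.pi) ^ ((N : ℝ) / 2) * Real.Gamma (((N : ℝ) + 1) / 2)
          * 2 ^ (((N : ℝ) + 1) / 2) * Real.pi / Real.Gamma ((N : ℝ) + 1 / 2)) := by
    rw [← h4]
    exact h3
  rw [mul_assoc, h5, hcN, hS1, hS]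
  generalize (Measure.hausdorffMeasure ((N + 1 : ℕ) : ℝ) : Measure (E (N + 2))) (sphere 0 1) = Z
  have h6 : ∀ a b c : ℝ, 0 ≤ a → 0 ≤ b → ∀ Z : ℝ≥0∞,
      ENNReal.ofReal a * ENNReal.ofReal b * (Z * ENNReal.ofReal c) =
        Z * ENNReal.ofReal (a * b * c) := by
    intro a b c ha hb Z
    rw [ENNReal.ofReal_mul (by positivity), ENNReal.ofReal_mul ha]
    ring
  have h7 : ∀ a b c : ℝ, 0 ≤ a → 0 ≤ b → ∀ Z : ℝ≥0∞,
      ENNReal.ofReal a * ENNReal.ofReal b * Z * ENNReal.ofReal c =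
        Z * ENNReal.ofReal (a * b * c) := by
    intro a b c ha hb Z
    rw [ENNReal.ofReal_mul (by positivity), ENNReal.ofReal_mul ha]
    ring
  rw [h6 _ _ _ (by positivity) (by positivity), h7 _ _ _ (by positivity) (by positivity), hconst]



end Pool.Agent.Helper82.OS
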