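import Mathlib
import Pool.Agent.Helper82.OS.Defs
import Pool.Agent.Helper82.OS.Defs2
set_option autoImplicit false
open Matrix MeasureTheory Set Metric Filter Topology
open scoped ENNReal ContDiff

namespace Pool.Agent.Helper82.OS
namespace Fr
variable {N : ℕ} (F : Fr N)

end Fr

theorem pb_det_plane_basisx {N : ℕ} (X : Matrix (Fin 2) (Fin (N + 2)) ℝ) (P : Matrix (Fin N) (Fin (N + 2)) ℝ)
    (hX : X * Xᵀ = 1) (hPX : P * Xᵀ = 0) (B T : Matrix (Fin (N + 2)) (Fin (N + 2)) ℝ)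
    (hB : X * B = 0) (hT : X * T = 0) (hP : P * (1 + B * Bᵀ) * Pᵀ = 1) :
    0 ≤ (1 + B * Bᵀ).det ∧
    (T * Tᵀ + Xᵀ * X).det = (1 + B * Bᵀ).det * (P * T * (P * T)ᵀ).det := by
  have hXP : X * Pᵀ = 0 := by
    have := congrArg Matrix.transpose hPX
    rwa [transpose_mul, transpose_transpose, transpose_zero] at this
  let e : Fin (N + 2) ≃ Fin 2 ⊕ Fin N :=
    Fintype.equivOfCardEq (by simp [add_comm])
  let R : Matrix (Fin 2 ⊕ Fin N) (Fin (N + 2)) ℝ := fromRows X P
  let R' : Matrix (Fin (N + 2)) (Fin (N + 2)) ℝ := R.submatrix e id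
  have key : ∀ W : Matrix (Fin (N + 2)) (Fin (N + 2)) ℝ, X * W = X → W * Xᵀ = Xᵀ →
      (P * W * Pᵀ).det = R'.det ^ 2 * W.det := by
    intro W hW1 hW2
    have h1 : (R * W * Rᵀ).submatrix e e = R' * W * R'ᵀ := by
      rfl
    have h2 : R * W * Rᵀ = fromBlocks 1 0 0 (P * W * Pᵀ) := by
      show fromRows X P * W * (fromRows X P)ᵀ = _
      rw [transpose_fromRows, fromRows_mul, fromRows_mul_fromCols, hW1, hX, hXP, Matrix.mul_assoc P W Xᵀ,
        hW2, hPX]
    have h3 : (R * W * Rᵀ).det = (P * W * Pᵀ).det := by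
      rw [h2, det_fromBlocks_zero₂₁, det_one, one_mul]
    rw [← h3, ← det_submatrix_equiv_self e, h1, det_mul, det_mul, det_transpose]
    ring
  have hB' : Bᵀ * Xᵀ = 0 := by
    rw [← transpose_mul, hB, transpose_zero]
  have hT' : Tᵀ * Xᵀ = 0 := by
    rw [← transpose_mul, hT, transpose_zero]
  have k1 := key (1 + B * Bᵀ) (by
    rw [Matrix.mul_add, Matrix.mul_one, ← Matrix.mul_assoc, hB, Matrix.zero_mul, add_zero]) (by
    rw [Matrix.add_mul, Matrix.one_mul, Matrix.mul_assoc, hB', Matrix.mul_zero, add_zero])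
  have k2 := key (T * Tᵀ + Xᵀ * X) (by
    rw [Matrix.mul_add, ← Matrix.mul_assoc, hT, Matrix.zero_mul, zero_add, ← Matrix.mul_assoc, hX,
      Matrix.one_mul]) (by
    rw [Matrix.add_mul, Matrix.mul_assoc, hT', Matrix.mul_zero, zero_add, Matrix.mul_assoc, hX,
      Matrix.mul_one])
  rw [hP, det_one] at k1
  have h4 : P * (T * Tᵀ + Xᵀ * X) * Pᵀ = P * T * (P * T)ᵀ := by
    rw [Matrix.mul_add, Matrix.add_mul, ← Matrix.mul_assoc P Xᵀ X, hPX, Matrix.zero_mul,
      Matrix.zero_mul, add_zero, transpose_mul]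
    simp only [Matrix.mul_assoc]
  rw [h4] at k2
  have hr : R'.det ^ 2 ≠ 0 := by
    intro h
    rw [h, zero_mul] at k1
    exact one_ne_zero k1
  constructor
  · by_contra hneg
    push Not at hneg
    have : R'.det ^ 2 * (1 + B * Bᵀ).det ≤ 0 :=
      mul_nonpos_of_nonneg_of_nonpos (sq_nonneg _) hneg.le
    linarith
  · rw [k2]
    calc (T * Tᵀ + Xᵀ * X).det = 1 * (T * Tᵀ + Xᵀ * X).det := by ring
      _ = (R'.det ^ 2 * (1 + B * Bᵀ).det) * (T * Tᵀ + Xᵀ * X).det := by rw [← k1]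
      _ = _ := by ring

theorem pb_exists_plane_basisx {N : ℕ} (X : Matrix (Fin 2) (Fin (N + 2)) ℝ) (hX : X * Xᵀ = 1)
    (B : Matrix (Fin (N + 2)) (Fin (N + 2)) ℝ) :
    ∃ P : Matrix (Fin N) (Fin (N + 2)) ℝ, P * Xᵀ = 0 ∧ P * (1 + B * Bᵀ) * Pᵀ = 1 := by
  obtain ⟨Q, hQ, hQX⟩ : ∃ Q : Matrix (Fin N) (Fin (N + 2)) ℝ, Q * Qᵀ = 1 ∧ Q * Xᵀ = 0 := by
    let w : Fin 2 ⊕ Fin N → E (N + 2) := Sum.elim (fun i => WithLp.toLp 2 (X i)) (fun _ => 0)
    have hw : Orthonormal ℝ ((Set.range (Sum.inl : Fin 2 → Fin 2 ⊕ Fin N)).domRestrict w) := by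
      rw [orthonormal_iff_ite]
      rintro ⟨_, i, rfl⟩ ⟨_, j, rfl⟩
      have h1 := congrFun (congrFun hX j) i
      rw [Matrix.mul_apply', Matrix.one_apply] at h1
      show inner ℝ (WithLp.toLp 2 (X i) : E (N + 2)) (WithLp.toLp 2 (X j)) = _
      rw [EuclideanSpace.inner_eq_star_dotProduct]
      simp only [star_trivial]
      have h2 : (X j ⬝ᵥ X i : ℝ) = if j = i then 1 else 0 := h1
      rw [h2]
      simp only [Subtype.mk.injEq, Sum.inl.injEq]
      by_cases hij : i = j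
      · simp [hij]
      · simp [hij, Ne.symm hij]
    obtain ⟨b, hb⟩ := hw.exists_orthonormalBasis_extension_of_card_eq (by simp [add_comm])
    refine ⟨Matrix.of fun i => (b (Sum.inr i)).ofLp, ?_, ?_⟩
    · ext i j
      have h1 := orthonormal_iff_ite.mp b.orthonormal (Sum.inr j) (Sum.inr i)
      rw [EuclideanSpace.inner_eq_star_dotProduct] at h1
      simp only [star_trivial] at h1
      rw [Matrix.mul_apply', Matrix.one_apply]
      show ((b (Sum.inr i)).ofLp ⬝ᵥ (b (Sum.inr j)).ofLp : ℝ) = _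
      rw [h1]
      by_cases hij : i = j
      · simp [hij]
      · simp [hij, Ne.symm hij]
    · ext i j
      have h1 := orthonormal_iff_ite.mp b.orthonormal (Sum.inl j) (Sum.inr i)
      rw [EuclideanSpace.inner_eq_star_dotProduct, hb (Sum.inl j) ⟨j, rfl⟩] at h1
      simp only [star_trivial] at h1
      rw [Matrix.mul_apply', Matrix.zero_apply]
      show ((b (Sum.inr i)).ofLp ⬝ᵥ (X j) : ℝ) = _
      have h2 : ((b (Sum.inr i)).ofLp ⬝ᵥ (X j) : ℝ) = if (Sum.inl j : Fin 2 ⊕ Fin N) = Sum.inr i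
        then 1 else 0 := h1
      rw [h2]
      simp
  have hM : (Q * (1 + B * Bᵀ) * Qᵀ) = 1 + (Q * B) * (Q * B)ᴴ := by
    rw [conjTranspose_eq_transpose_of_trivial, Matrix.mul_add, Matrix.add_mul, Matrix.mul_one, hQ,
      transpose_mul]
    simp only [Matrix.mul_assoc]
  have hpd : (Q * (1 + B * Bᵀ) * Qᵀ).PosDef := by
    rw [hM]
    exact Matrix.PosDef.one.add_posSemidef (posSemidef_self_mul_conjTranspose _)
  obtain ⟨C, hC⟩ : ∃ C : Matrix (Fin N) (Fin N) ℝ, Q * (1 + B * Bᵀ) * Qᵀ = Cᵀ * C := by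
    open scoped MatrixOrder in
    obtain ⟨C, hC⟩ := CStarAlgebra.nonneg_iff_eq_star_mul_self.mp hpd.posSemidef.nonneg
    refine ⟨C, ?_⟩
    rw [hC, star_eq_conjTranspose, conjTranspose_eq_transpose_of_trivial]
  have hdet : IsUnit C.det := by
    have h1 := hpd.det_pos
    rw [hC, det_mul, det_transpose] at h1
    rw [isUnit_iff_ne_zero]
    intro h
    rw [h, mul_zero] at h1
    exact lt_irrefl _ h1
  have hdetT : IsUnit Cᵀ.det := by rwa [det_transpose]
  refine ⟨(Cᵀ)⁻¹ * Q, ?_, ?_⟩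
  · rw [Matrix.mul_assoc, hQX, Matrix.mul_zero]
  · calc (Cᵀ)⁻¹ * Q * (1 + B * Bᵀ) * ((Cᵀ)⁻¹ * Q)ᵀ
        = (Cᵀ)⁻¹ * (Q * (1 + B * Bᵀ) * Qᵀ) * ((Cᵀ)⁻¹)ᵀ := by
          rw [transpose_mul]
          simp only [Matrix.mul_assoc]
      _ = 1 := by
          rw [hC, ← Matrix.mul_assoc, nonsing_inv_mul _ hdetT, Matrix.one_mul,
            transpose_nonsing_inv, transpose_transpose, mul_nonsing_inv _ hdet]

theorem pb_rot_plane_basisx {N : ℕ} {V : Type*} [NormedAddCommGroup V] [InnerProductSpace ℝ V] (x v : V)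
    (p y : Fin N → V) (hx : inner ℝ x x = (1 : ℝ)) (hv : inner ℝ v v = (1 : ℝ))
    (hxv : inner ℝ x v = (0 : ℝ)) (hpx : ∀ i, inner ℝ (p i) x = (0 : ℝ))
    (hpv : ∀ i, inner ℝ (p i) v = (0 : ℝ)) (hyx : ∀ i, inner ℝ (y i) x = (0 : ℝ))
    (hg : ∀ i j, inner ℝ (p i) (p j) + inner ℝ (y i) (y j) = if i = j then (1 : ℝ) else 0) :
    ∃ (v' x' : V) (a b : Fin N → V), ‖v'‖ = 1 ∧ ‖x'‖ = 1 ∧ inner ℝ v' x' = 0 ∧
      (∀ i, inner ℝ (a i) v' = 0) ∧ (∀ i, inner ℝ (b i) v' = 0 ∧ inner ℝ (b i) x' = 0) ∧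
      (∀ i j, inner ℝ (a i) (a j) + inner ℝ (b i) (b j) = if i = j then (1 : ℝ) else 0) ∧
      (∑ i, inner ℝ (a i) (b i) = 0) ∧ (2 * ∑ i, ‖b i‖ ^ 2 ≤ N) ∧
      ∀ (f : V) (i : Fin N), inner ℝ f x • y i - inner ℝ f (y i) • x - inner ℝ f v • p i +
          inner ℝ f (p i) • v =
        inner ℝ f v' • a i - inner ℝ f (a i) • v' + (inner ℝ f x' • b i - inner ℝ f (b i) • x') := by
  have hvx : inner ℝ v x = (0 : ℝ) := by rw [real_inner_comm]; exact hxv
  let κ : Fin N → ℝ := fun i => inner ℝ (y i) v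
  let z : Fin N → V := fun i => y i - κ i • v
  have hyz : ∀ i, y i = z i + κ i • v := fun i => by
    show y i = y i - κ i • v + κ i • v
    abel
  have hzv : ∀ i, inner ℝ (z i) v = (0 : ℝ) := by
    intro i
    show inner ℝ (y i - κ i • v) v = (0 : ℝ)
    rw [inner_sub_left, real_inner_smul_left, hv]
    show inner ℝ (y i) v - inner ℝ (y i) v * 1 = (0 : ℝ)
    ring
  have hzx : ∀ i, inner ℝ (z i) x = (0 : ℝ) := by
    intro i
    show inner ℝ (y i - κ i • v) x = (0 : ℝ)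
    rw [inner_sub_left, real_inner_smul_left, hvx, hyx]
    ring
  clear_value z
  clear_value κ
  have hvz : ∀ i, inner ℝ v (z i) = (0 : ℝ) := fun i => by rw [real_inner_comm]; exact hzv i
  have hxz : ∀ i, inner ℝ x (z i) = (0 : ℝ) := fun i => by rw [real_inner_comm]; exact hzx i
  have hvp : ∀ i, inner ℝ v (p i) = (0 : ℝ) := fun i => by rw [real_inner_comm]; exact hpv i
  have hxp : ∀ i, inner ℝ x (p i) = (0 : ℝ) := fun i => by rw [real_inner_comm]; exact hpx i
  have hg' : ∀ i j, inner ℝ (p i) (p j) + (inner ℝ (z i) (z j) + κ i * κ j) =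
      if i = j then (1 : ℝ) else 0 := by
    intro i j
    rw [← hg i j, hyz i, hyz j]
    simp only [inner_add_left, inner_add_right, real_inner_smul_left, real_inner_smul_right, hv,
      hzv, hvz]
    ring
  obtain ⟨c, s, ρ, hcs, hρ, e1, e2⟩ : ∃ c s ρ : ℝ, c ^ 2 + s ^ 2 = 1 ∧ 0 ≤ ρ ∧
      ρ * (c ^ 2 - s ^ 2) = -((∑ i, inner ℝ (z i) (z i)) - ∑ i, inner ℝ (p i) (p i)) ∧
      ρ * (2 * s * c) = -(2 * ∑ i, inner ℝ (z i) (p i)) := by
    let ζ : ℂ := ⟨-((∑ i, inner ℝ (z i) (z i)) - ∑ i, inner ℝ (p i) (p i)),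
      -(2 * ∑ i, inner ℝ (z i) (p i))⟩
    refine ⟨Real.cos (ζ.arg / 2), Real.sin (ζ.arg / 2), ‖ζ‖, Real.cos_sq_add_sin_sq _,
      norm_nonneg _, ?_, ?_⟩
    · have h1 := Complex.norm_mul_cos_arg ζ
      have h2 : Real.cos ζ.arg = Real.cos (ζ.arg / 2) ^ 2 - Real.sin (ζ.arg / 2) ^ 2 := by
        rw [← Real.cos_two_mul']
        congr 1
        ring
      rw [← h2, h1]
    · have h1 := Complex.norm_mul_sin_arg ζ
      have h2 : Real.sin ζ.arg = 2 * Real.sin (ζ.arg / 2) * Real.cos (ζ.arg / 2) := by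
        rw [← Real.sin_two_mul]
        congr 1
        ring
      rw [← h2, h1]
  refine ⟨c • v + s • x, -s • v + c • x,
    fun i => s • z i - c • p i - κ i • (-s • v + c • x), fun i => c • z i + s • p i,
    ?_, ?_, ?_, ?_, ?_, ?_, ?_, ?_, ?_⟩
  · rw [← sq_eq_sq₀ (norm_nonneg _) zero_le_one, ← real_inner_self_eq_norm_sq]
    simp only [inner_add_left, inner_add_right, real_inner_smul_left, real_inner_smul_right, hv,
      hx, hxv, hvx]
    linear_combination hcs
  · rw [← sq_eq_sq₀ (norm_nonneg _) zero_le_one, ← real_inner_self_eq_norm_sq]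
    simp only [inner_add_left, inner_add_right, real_inner_smul_left, real_inner_smul_right, hv,
      hx, hxv, hvx]
    linear_combination hcs
  · simp only [inner_add_left, inner_add_right, real_inner_smul_left, real_inner_smul_right, hv,
      hx, hxv, hvx]
    ring
  · intro i
    simp only [inner_add_left, inner_add_right, inner_sub_left, real_inner_smul_left,
      real_inner_smul_right, hv, hx, hxv, hvx, hzv, hzx, hpv, hpx]
    ring
  · intro i
    constructor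
    · simp only [inner_add_left, inner_add_right, real_inner_smul_left,
        real_inner_smul_right, hzv, hzx, hpv, hpx]
      ring
    · simp only [inner_add_left, inner_add_right, real_inner_smul_left,
        real_inner_smul_right, hzv, hzx, hpv, hpx]
      ring
  · intro i j
    rw [← hg' i j]
    simp only [inner_add_left, inner_add_right, inner_sub_left, inner_sub_right,
      real_inner_smul_left, real_inner_smul_right, hv, hx, hxv, hvx, hzv, hzx, hpv, hpx, hvz, hxz,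
      hvp, hxp]
    linear_combination (inner ℝ (p i) (p j) + inner ℝ (z i) (z j) + κ i * κ j) * hcs
  · have h1 : ∀ i, inner ℝ (s • z i - c • p i - κ i • (-s • v + c • x)) (c • z i + s • p i) =
        s * c * (inner ℝ (z i) (z i) - inner ℝ (p i) (p i)) + (s ^ 2 - c ^ 2) *
          inner ℝ (z i) (p i) := by
      intro i
      simp only [inner_add_left, inner_add_right, inner_sub_left, inner_sub_right,
        real_inner_smul_left, real_inner_smul_right, hv, hx, hxv, hvx, hzv, hzx, hpv, hpx, hvz,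
        hxz, hvp, hxp, real_inner_comm (z i) (p i)]
      ring
    rw [Finset.sum_congr rfl fun i _ => h1 i, Finset.sum_add_distrib, ← Finset.mul_sum,
      ← Finset.mul_sum, Finset.sum_sub_distrib]
    linear_combination (s * c) * e1 + ((s ^ 2 - c ^ 2) / 2) * e2
  · have h1 : ∀ i, ‖c • z i + s • p i‖ ^ 2 = c ^ 2 * inner ℝ (z i) (z i) +
        s ^ 2 * inner ℝ (p i) (p i) + (2 * s * c) * inner ℝ (z i) (p i) := by
      intro i
      rw [← real_inner_self_eq_norm_sq]
      simp only [inner_add_left, inner_add_right, real_inner_smul_left,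
        real_inner_smul_right, real_inner_comm (z i) (p i)]
      ring
    rw [Finset.sum_congr rfl fun i _ => h1 i, Finset.sum_add_distrib, Finset.sum_add_distrib,
      ← Finset.mul_sum, ← Finset.mul_sum, ← Finset.mul_sum]
    have h2 : (∑ i, inner ℝ (p i) (p i)) + (∑ i, inner ℝ (z i) (z i)) + ∑ i, κ i * κ i =
        (N : ℝ) := by
      have : ∀ i ∈ (Finset.univ : Finset (Fin N)), inner ℝ (p i) (p i) + (inner ℝ (z i) (z i) +
          κ i * κ i) = (1 : ℝ) := fun i _ => by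
        rw [hg' i i, if_pos rfl]
      have h3 := Finset.sum_congr rfl this
      rw [Finset.sum_add_distrib, Finset.sum_add_distrib, Finset.sum_const, Finset.card_univ,
        Fintype.card_fin, nsmul_eq_mul, mul_one] at h3
      linarith
    have h3 : 0 ≤ ∑ i, κ i * κ i := Finset.sum_nonneg fun i _ => mul_self_nonneg _
    have h4 : 0 ≤ ρ * ((c ^ 2 - s ^ 2) ^ 2 + (2 * s * c) ^ 2) := by positivity
    have h5 : 2 * (c ^ 2 * (∑ i, inner ℝ (z i) (z i)) + s ^ 2 * (∑ i, inner ℝ (p i) (p i)) +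
        2 * s * c * ∑ i, inner ℝ (z i) (p i)) =
        ((∑ i, inner ℝ (p i) (p i)) + (∑ i, inner ℝ (z i) (z i))) -
        ρ * ((c ^ 2 - s ^ 2) ^ 2 + (2 * s * c) ^ 2) := by
      linear_combination (c ^ 2 - s ^ 2) * e1 + (2 * s * c) * e2 +
        ((∑ i, inner ℝ (p i) (p i)) + (∑ i, inner ℝ (z i) (z i))) * hcs
    rw [h5]
    linarith
  · intro f i
    have h1 : inner ℝ f (c • v + s • x) • (s • z i - c • p i - κ i • (-s • v + c • x)) -
        inner ℝ f (s • z i - c • p i - κ i • (-s • v + c • x)) • (c • v + s • x) +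
        (inner ℝ f (-s • v + c • x) • (c • z i + s • p i) -
          inner ℝ f (c • z i + s • p i) • (-s • v + c • x)) =
        (c ^ 2 + s ^ 2) • (inner ℝ f x • y i - inner ℝ f (y i) • x - inner ℝ f v • p i +
          inner ℝ f (p i) • v) := by
      rw [hyz i]
      simp only [inner_add_right, inner_sub_right, real_inner_smul_right]
      module
    rw [hcs, one_smul] at h1
    exact h1.symm

/-- rotation in the plane span(x,v) maximising the v-part: normalised orthonormal basis of the plane of 2-forms -/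
theorem plane_basis {N : ℕ} (hN : 1 ≤ N) (x v : Fin (N + 2) → ℝ) (B : Matrix (Fin (N + 2)) (Fin (N + 2)) ℝ)
    (hx : x ⬝ᵥ x = 1) (hv : v ⬝ᵥ v = 1) (hxv : x ⬝ᵥ v = 0) (h0 : B *ᵥ x = 0) (h1 : x ᵥ* B = 0) (h2 : v ᵥ* B = 0) :
    ∃ (v' x' : E (N + 2)) (a b : Fin N → E (N + 2)), ‖v'‖ = 1 ∧ ‖x'‖ = 1 ∧ inner ℝ v' x' = 0 ∧
      (∀ i, inner ℝ (a i) v' = 0) ∧ (∀ i, inner ℝ (b i) v' = 0 ∧ inner ℝ (b i) x' = 0) ∧
      (∀ i j, inner ℝ (a i) (a j) + inner ℝ (b i) (b j) = if i = j then (1 : ℝ) else 0) ∧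
      (∑ i, inner ℝ (a i) (b i) = 0) ∧ (2 * ∑ i, ‖b i‖ ^ 2 ≤ N) ∧
      ∀ f : E (N + 2), JJ x v B f.ofLp = Real.sqrt (1 + B * Bᵀ).det *
        Real.sqrt (Matrix.of fun i j : Fin N =>
          (inner ℝ (inner ℝ f v' • a i - inner ℝ f (a i) • v' + (inner ℝ f x' • b i - inner ℝ f (b i) • x'))
            (inner ℝ f v' • a j - inner ℝ f (a j) • v' + (inner ℝ f x' • b j - inner ℝ f (b j) • x')))).det := by
  have hin : ∀ u w : Fin (N + 2) → ℝ,
      inner ℝ (WithLp.toLp 2 u : E (N + 2)) (WithLp.toLp 2 w) = u ⬝ᵥ w := by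
    intro u w
    rw [EuclideanSpace.inner_eq_star_dotProduct]
    simp only [star_trivial]
    exact dotProduct_comm _ _
  let X : Matrix (Fin 2) (Fin (N + 2)) ℝ := Matrix.of ![x, v]
  have hvx : v ⬝ᵥ x = 0 := by rw [dotProduct_comm]; exact hxv
  have hX : X * Xᵀ = 1 := by
    ext i j
    rw [Matrix.mul_apply']
    fin_cases i <;> fin_cases j
    · show x ⬝ᵥ x = _
      rw [hx]; rfl
    · show x ⬝ᵥ v = _
      rw [hxv]; rfl
    · show v ⬝ᵥ x = _
      rw [hvx]; rfl
    · show v ⬝ᵥ v = _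
      rw [hv]; rfl
  have hXB : X * B = 0 := by
    ext i j
    rw [Matrix.mul_apply']
    fin_cases i
    · exact congrFun h1 j
    · exact congrFun h2 j
  have hXX : Xᵀ * X = vecMulVec x x + vecMulVec v v := by
    ext i j
    rw [Matrix.mul_apply, Fin.sum_univ_two]
    rfl
  obtain ⟨P, hPX, hP⟩ := pb_exists_plane_basisx X hX B
  have hPx : ∀ i, P i ⬝ᵥ x = 0 := fun i => by
    have := congrFun (congrFun hPX i) 0
    rw [Matrix.mul_apply'] at this
    exact this
  have hPv : ∀ i, P i ⬝ᵥ v = 0 := fun i => by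
    have := congrFun (congrFun hPX i) 1
    rw [Matrix.mul_apply'] at this
    exact this
  have hXT : ∀ f, X * TT x v B f = 0 := by
    intro f
    have hXPi : X * (1 - vecMulVec x x - vecMulVec v v) = 0 := by
      rw [sub_sub, ← hXX, Matrix.mul_sub, Matrix.mul_one, ← Matrix.mul_assoc, hX, Matrix.one_mul,
        sub_self]
    have hXf : X * vecMulVec (B *ᵥ f) x = 0 := by
      rw [mul_vecMulVec, mulVec_mulVec, hXB, zero_mulVec, zero_vecMulVec]
    unfold TT
    rw [Matrix.mul_add, Matrix.mul_sub, Matrix.mul_smul, hXB, smul_zero, hXf, ← Matrix.mul_assoc,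
      hXPi, Matrix.zero_mul]
    simp
  let p : Fin N → E (N + 2) := fun i => WithLp.toLp 2 (P i)
  let y : Fin N → E (N + 2) := fun i => WithLp.toLp 2 (P i ᵥ* B)
  obtain ⟨v', x', a, b, c1, c2, c3, c4, c5, c6, c7, c8, c9⟩ := pb_rot_plane_basisx (V := E (N + 2))
    (WithLp.toLp 2 x) (WithLp.toLp 2 v) p y (by rw [hin]; exact hx) (by rw [hin]; exact hv)
    (by rw [hin]; exact hxv) (fun i => by rw [hin]; exact hPx i) (fun i => by rw [hin]; exact hPv i)
    (fun i => by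
      rw [hin, ← dotProduct_mulVec, h0, dotProduct_zero])
    (fun i j => by
      rw [hin, hin]
      have h3 := congrFun (congrFun hP i) j
      rw [Matrix.mul_add, Matrix.add_mul, Matrix.mul_one, Matrix.add_apply, Matrix.mul_apply',
        ← Matrix.mul_assoc, Matrix.mul_assoc, ← transpose_mul, Matrix.mul_apply',
        Matrix.one_apply] at h3
      exact h3)
  refine ⟨v', x', a, b, c1, c2, c3, c4, c5, c6, c7, c8, ?_⟩
  intro f
  obtain ⟨d1, d2⟩ := pb_det_plane_basisx X P hX hPX B (TT x v B f.ofLp) hXB (hXT _) hP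
  unfold JJ
  rw [add_assoc, ← hXX, d2, Real.sqrt_mul d1]
  congr 3
  ext i j
  rw [Matrix.mul_apply', Matrix.of_apply, ← c9 f i, ← c9 f j]
  have hrow : ∀ i, WithLp.toLp 2 ((P * TT x v B f.ofLp) i) =
      inner ℝ f (WithLp.toLp 2 x) • y i - inner ℝ f (y i) • (WithLp.toLp 2 x : E (N + 2)) -
        inner ℝ f (WithLp.toLp 2 v) • p i + inner ℝ f (p i) • (WithLp.toLp 2 v : E (N + 2)) := by
    intro i
    have hf : f = WithLp.toLp 2 f.ofLp := rfl
    have e0 : (P * TT x v B f.ofLp) i = P i ᵥ* TT x v B f.ofLp := rfl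
    have e1 : P i ᵥ* (1 - vecMulVec x x - vecMulVec v v) = P i := by
      rw [vecMul_sub, vecMul_sub, vecMul_one, vecMul_vecMulVec, vecMul_vecMulVec, hPx, hPv]
      simp
    have e2 : P i ᵥ* TT x v B f.ofLp = (x ⬝ᵥ f.ofLp) • (P i ᵥ* B) -
        ((P i ᵥ* B) ⬝ᵥ f.ofLp) • x - (v ⬝ᵥ f.ofLp) • P i + (P i ⬝ᵥ f.ofLp) • v := by
      unfold TT
      rw [vecMul_add, vecMul_sub, vecMul_smul, vecMul_vecMulVec, ← vecMul_vecMul, e1, vecMul_sub,
        vecMul_smul, vecMul_one, vecMul_vecMulVec, dotProduct_mulVec]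
      module
    rw [e0, e2]
    rw [hf, hin, hin, hin, hin]
    simp only [dotProduct_comm f.ofLp]
    rfl
  rw [← hrow i, ← hrow j, hin]
  rfl



end Pool.Agent.Helper82.OS
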