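import Mathlib
import Pool.Agent.Helper82.OS.Defs
import Pool.Agent.Helper82.OS.Defs2
import Pool.Agent.Helper82.OS.D0
import Pool.Agent.Helper82.OS.frame_exists
import Pool.Agent.Helper82.OS.plane_basis
set_option autoImplicit false
open Matrix MeasureTheory Set Metric Filter Topology
open scoped ENNReal ContDiff

namespace Pool.Agent.Helper82.OS
namespace Fr
variable {N : ℕ} (F : Fr N)

end Fr

/-- normal form: the integrand of (*) in terms of the frame data -/
theorem normal_form {N : ℕ} (hN : 1 ≤ N) (x v : Fin (N + 2) → ℝ) (B : Matrix (Fin (N + 2)) (Fin (N + 2)) ℝ)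
    (hx : x ⬝ᵥ x = 1) (hv : v ⬝ᵥ v = 1) (hxv : x ⬝ᵥ v = 0) (h0 : B *ᵥ x = 0) (h1 : x ᵥ* B = 0) (h2 : v ᵥ* B = 0) :
    ∃ (v' : E (N + 2)) (ι : E (N + 1) →ₗᵢ[ℝ] E (N + 2)) (F : Fr N),
      ‖v'‖ = 1 ∧ (∀ y, inner ℝ v' (ι y) = 0) ∧
      MeasurePreserving (fun p : ℝ × E (N + 1) => p.1 • v' + ι p.2) (volume.prod volume) volume ∧
      ∀ (t : ℝ) (w : E (N + 1)), JJ x v B (t • v' + ι w).ofLp
        = Real.sqrt (1 + B * Bᵀ).det * F.FF t w := by
  obtain ⟨v', x', a, b, hv', hx', hvx', ha, hb, hon, hgam, hdel, hJ⟩ :=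
    plane_basis hN x v B hx hv hxv h0 h1 h2
  obtain ⟨ι, hι, hs, hmp⟩ := D0 v' hv'
  obtain ⟨O, F, hO, hFx, hOa, hOb⟩ :=
    frame_exists hN v' x' hv' hx' hvx' a b ha hb hon hgam hdel ι hι hs
  refine ⟨v', ι, F, hv', hι, hmp, ?_⟩
  intro t w
  rw [hJ (t • v' + ι w)]
  congr 1
  unfold Fr.FF
  congr 1
  set f := t • v' + ι w with hf
  set W : Fin N → E (N + 2) := fun i => inner ℝ f v' • a i - inner ℝ f (a i) • v' +
    (inner ℝ f x' • b i - inner ℝ f (b i) • x') with hW
  have hfv : inner ℝ f v' = t := by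
    rw [hf, inner_add_left, real_inner_smul_left, real_inner_self_eq_norm_sq, hv',
      real_inner_comm, hι]
    ring
  have hfι : ∀ y, inner ℝ f (ι y) = inner ℝ w y := by
    intro y
    rw [hf, inner_add_left, real_inner_smul_left, hι, ι.inner_map_map]
    ring
  have hsum : ∀ j, ∑ i, O j i • W i = ι (F.Mv t w j) - F.lv w j • v' := by
    intro j
    have e1 : ∑ i, O j i • W i = inner ℝ f v' • (∑ i, O j i • a i)
        - inner ℝ f (∑ i, O j i • a i) • v' +
        (inner ℝ f x' • (∑ i, O j i • b i) - inner ℝ f (∑ i, O j i • b i) • x') := by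
      simp only [hW, smul_add, smul_sub, Finset.sum_add_distrib, Finset.sum_sub_distrib,
        inner_sum, real_inner_smul_right, Finset.smul_sum, Finset.sum_smul, smul_smul]
      congr 1
      · congr 1
        exact Finset.sum_congr rfl (fun i _ => by rw [mul_comm])
      · congr 1
        exact Finset.sum_congr rfl (fun i _ => by rw [mul_comm])
    rw [e1, hOa, hOb, hfv, real_inner_smul_right, real_inner_smul_right, hfι, hfι, ← hFx, hfι]
    unfold Fr.Mv Fr.lv
    simp only [map_add, map_smul, map_sub, smul_sub, smul_smul]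
    rw [mul_comm (inner ℝ w F.x) (F.s j)]
    abel
  have hG : O * (Matrix.of fun i j : Fin N => inner ℝ (W i) (W j)) * Oᵀ = F.Gm t w := by
    ext i j
    have h3 : F.Gm t w i j = inner ℝ (∑ k, O i k • W k) (∑ l, O j l • W l) := by
      rw [hsum, hsum]
      unfold Fr.Gm
      simp only [Matrix.of_apply, inner_sub_left, inner_sub_right, real_inner_smul_left,
        real_inner_smul_right, ι.inner_map_map, hι]
      rw [real_inner_comm v' (ι (F.Mv t w i)), hι, real_inner_self_eq_norm_sq, hv']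
      ring
    rw [h3, sum_inner, Matrix.mul_apply]
    simp only [Matrix.mul_apply, Matrix.of_apply, Matrix.transpose_apply, inner_sum,
      real_inner_smul_left, real_inner_smul_right, Finset.sum_mul]
    rw [Finset.sum_comm]
    refine Finset.sum_congr rfl (fun k _ => Finset.sum_congr rfl (fun l _ => ?_))
    ring
  have hdet : O.det * O.det = 1 := by
    have := congrArg Matrix.det hO
    rwa [Matrix.det_mul, Matrix.det_transpose, Matrix.det_one] at this
  rw [← hG, Matrix.det_mul, Matrix.det_mul, Matrix.det_transpose]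
  linear_combination (-(Matrix.of fun i j : Fin N => inner ℝ (W i) (W j)).det) * hdet



end Pool.Agent.Helper82.OS
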