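import Mathlib
import Pool.Agent.Helper82.OS.Defs
set_option autoImplicit false
open Matrix MeasureTheory Set Metric Filter Topology
open scoped ENNReal ContDiff

namespace Pool.Agent.Helper82.OS





theorem umb_span_umbx {N : ℕ} (x v : Fin (N + 2) → ℝ) (B : Matrix (Fin (N + 2)) (Fin (N + 2)) ℝ)
    (hx : x ⬝ᵥ x = 1) (hv : v ⬝ᵥ v = 1) (hxv : x ⬝ᵥ v = 0)
    (P : Matrix (Fin N) (Fin (N + 2)) ℝ) (hPx : ∀ i, P i ⬝ᵥ x = 0) (hPv : ∀ i, P i ⬝ᵥ v = 0)
    (hP : P * (1 + B * Bᵀ) * Pᵀ = 1) :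
    Submodule.span ℝ (Set.range
      (Fin.cons x (Fin.cons v (fun i => P i)) : Fin (N + 2) → (Fin (N + 2) → ℝ))) = ⊤ := by
  have hli : LinearIndependent ℝ
      (Fin.cons x (Fin.cons v (fun i => P i)) : Fin (N + 2) → (Fin (N + 2) → ℝ)) := by
    rw [Fintype.linearIndependent_iff]
    intro g hg
    rw [Fin.sum_univ_succ, Fin.sum_univ_succ] at hg
    have hg' : g 0 • x + (g (Fin.succ 0) • v + ∑ j : Fin N, g j.succ.succ • P j) = 0 := hg
    have s1 : ∀ u : Fin (N + 2) → ℝ, (∑ j : Fin N, g j.succ.succ • P j) ⬝ᵥ u =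
        ∑ j : Fin N, g j.succ.succ * (P j ⬝ᵥ u) := by
      intro u
      rw [sum_dotProduct]
      refine Finset.sum_congr rfl fun j _ => ?_
      rw [smul_dotProduct, smul_eq_mul]
    have e1 : g 0 = 0 := by
      have h1 := congrArg (fun w => w ⬝ᵥ x) hg'
      simp only [add_dotProduct, smul_dotProduct, zero_dotProduct, s1, hPx, hx, smul_eq_mul, mul_one,
        mul_zero, Finset.sum_const_zero, add_zero] at h1
      rw [dotProduct_comm v x, hxv, mul_zero, add_zero] at h1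
      exact h1
    have e2 : g (Fin.succ 0) = 0 := by
      have h1 := congrArg (fun w => w ⬝ᵥ v) hg'
      simp only [add_dotProduct, smul_dotProduct, zero_dotProduct, s1, hPv, hv, hxv, smul_eq_mul,
        mul_one, mul_zero, Finset.sum_const_zero, add_zero, zero_add] at h1
      exact h1
    have e3 : (fun j : Fin N => g j.succ.succ) ᵥ* P = 0 := by
      rw [e1, e2, zero_smul, zero_smul, zero_add, zero_add] at hg'
      ext k
      have h1 := congrFun hg' k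
      rw [Finset.sum_apply] at h1
      exact h1
    have e4 : (fun j : Fin N => g j.succ.succ) = 0 := by
      have h1 : (fun j : Fin N => g j.succ.succ) ᵥ* (P * (1 + B * Bᵀ) * Pᵀ) = 0 := by
        rw [Matrix.mul_assoc, ← Matrix.vecMul_vecMul, e3, Matrix.zero_vecMul]
      rw [hP, Matrix.vecMul_one] at h1
      exact h1
    intro i
    refine Fin.cases e1 (fun i => ?_) i
    refine Fin.cases e2 (fun i => ?_) i
    exact congrFun e4 i
  exact hli.span_eq_top_of_card_eq_finrank' (by rw [Fintype.card_fin, Module.finrank_fin_fun])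

theorem umb {N : ℕ} (hN : 1 ≤ N) (x v : Fin (N + 2) → ℝ) (B : Matrix (Fin (N + 2)) (Fin (N + 2)) ℝ)
    (hx : x ⬝ᵥ x = 1) (hv : v ⬝ᵥ v = 1) (hxv : x ⬝ᵥ v = 0) (h1 : x ᵥ* B = 0) (h2 : v ᵥ* B = 0)
    (P : Matrix (Fin N) (Fin (N + 2)) ℝ) (hPx : ∀ i, P i ⬝ᵥ x = 0) (hPv : ∀ i, P i ⬝ᵥ v = 0)
    (hP : P * (1 + B * Bᵀ) * Pᵀ = 1) (α β : ℝ) (hαβ : α ^ 2 + β ^ 2 = 1)
    (h : ∀ i, ∀ z : Fin (N + 2) → ℝ, x ⬝ᵥ z = 0 → v ⬝ᵥ z = 0 →
      α * ((P i ᵥ* B) ⬝ᵥ z) = -β * (P i ⬝ᵥ z)) :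
    ∃ lam : ℝ, ∀ y : Fin (N + 2) → ℝ, x ⬝ᵥ y = 0 → v ⬝ᵥ y = 0 → B *ᵥ y = lam • y := by
  have hα : α ≠ 0 := by
    intro h0
    have hβ : β ≠ 0 := by
      intro hb
      rw [h0, hb] at hαβ
      norm_num at hαβ
    let i : Fin N := ⟨0, hN⟩
    have e1 := h i (P i) (by rw [dotProduct_comm]; exact hPx i) (by rw [dotProduct_comm]; exact hPv i)
    rw [h0, zero_mul] at e1
    have e2 : P i ⬝ᵥ P i = 0 := by
      have h3 : -β * (P i ⬝ᵥ P i) = 0 := e1.symm
      rcases mul_eq_zero.1 h3 with h4 | h4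
      · exact absurd (neg_eq_zero.1 h4) hβ
      · exact h4
    have e3 : P i = 0 := dotProduct_self_eq_zero.1 e2
    have e4 : (P * (1 + B * Bᵀ) * Pᵀ : Matrix (Fin N) (Fin N) ℝ) i i = (1 : Matrix (Fin N) (Fin N) ℝ) i i := by rw [hP]
    rw [Matrix.mul_apply, Matrix.one_apply_eq] at e4
    have e5 : ∀ j, (P * (1 + B * Bᵀ) : Matrix (Fin N) (Fin (N + 2)) ℝ) i j * Pᵀ j i = 0 := by
      intro j
      have h5 : Pᵀ j i = 0 := by
        show P i j = 0
        rw [e3]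
        rfl
      rw [h5, mul_zero]
    rw [Finset.sum_eq_zero fun j _ => e5 j] at e4
    exact zero_ne_one e4
  refine ⟨-β / α, fun y hy1 hy2 => ?_⟩
  have hspan := umb_span_umbx x v B hx hv hxv P hPx hPv hP
  set z : Fin (N + 2) → ℝ := B *ᵥ y - (-β / α) • y with hz
  have z1 : x ⬝ᵥ z = 0 := by
    rw [hz, dotProduct_sub, dotProduct_mulVec, h1, zero_dotProduct, dotProduct_smul, hy1, smul_zero,
      sub_zero]
  have z2 : v ⬝ᵥ z = 0 := by
    rw [hz, dotProduct_sub, dotProduct_mulVec, h2, zero_dotProduct, dotProduct_smul, hy2, smul_zero,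
      sub_zero]
  have z3 : ∀ i, P i ⬝ᵥ z = 0 := by
    intro i
    rw [hz, dotProduct_sub, dotProduct_mulVec, dotProduct_smul, smul_eq_mul]
    have e1 := h i y hy1 hy2
    have e2 : (P i ᵥ* B) ⬝ᵥ y = (-β / α) * (P i ⬝ᵥ y) := by
      field_simp
      linarith
    rw [e2, sub_self]
  have z4 : ∀ u ∈ Submodule.span ℝ (Set.range
      (Fin.cons x (Fin.cons v (fun i => P i)) : Fin (N + 2) → (Fin (N + 2) → ℝ))), u ⬝ᵥ z = 0 := by
    intro u hu
    induction hu using Submodule.span_induction with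
    | mem w hw =>
      obtain ⟨k, rfl⟩ := hw
      refine Fin.cases ?_ (fun k => ?_) k
      · exact z1
      · refine Fin.cases ?_ (fun k => ?_) k
        · exact z2
        · exact z3 k
    | zero => exact zero_dotProduct _
    | add a b _ _ ha hb => rw [add_dotProduct, ha, hb, add_zero]
    | smul c a _ ha => rw [smul_dotProduct, ha, smul_zero]
  have z5 : z ⬝ᵥ z = 0 := z4 z (by rw [hspan]; exact Submodule.mem_top)
  have z6 : z = 0 := dotProduct_self_eq_zero.1 z5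
  rw [hz] at z6
  exact sub_eq_zero.1 z6



end Pool.Agent.Helper82.OS
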