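import Mathlib
import Pool.Agent.Helper82.OS.Defs
import Pool.Agent.Helper82.OS.plane_basis
import Pool.Agent.Helper82.OS.umb
set_option autoImplicit false
open Matrix MeasureTheory Set Metric Filter Topology
open scoped ENNReal ContDiff

namespace Pool.Agent.Helper82.OS

theorem pb_rot2 {N : ℕ} {V : Type*} [NormedAddCommGroup V] [InnerProductSpace ℝ V] (x v : V)
    (p y : Fin N → V) (hx : inner ℝ x x = (1 : ℝ)) (hv : inner ℝ v v = (1 : ℝ))
    (hxv : inner ℝ x v = (0 : ℝ)) (hpx : ∀ i, inner ℝ (p i) x = (0 : ℝ))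
    (hpv : ∀ i, inner ℝ (p i) v = (0 : ℝ)) (hyx : ∀ i, inner ℝ (y i) x = (0 : ℝ))
    (hg : ∀ i j, inner ℝ (p i) (p j) + inner ℝ (y i) (y j) = if i = j then (1 : ℝ) else 0) :
    ∃ (v' x' : V) (a b : Fin N → V), ‖v'‖ = 1 ∧ ‖x'‖ = 1 ∧ inner ℝ v' x' = 0 ∧
      (∀ i, inner ℝ (a i) v' = 0) ∧ (∀ i, inner ℝ (b i) v' = 0 ∧ inner ℝ (b i) x' = 0) ∧
      (∀ i j, inner ℝ (a i) (a j) + inner ℝ (b i) (b j) = if i = j then (1 : ℝ) else 0) ∧
      (∑ i, inner ℝ (a i) (b i) = 0) ∧ (2 * ∑ i, ‖b i‖ ^ 2 ≤ N) ∧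
      (∃ α β : ℝ, α ^ 2 + β ^ 2 = 1 ∧ ∀ i, b i = 0 → ∀ z : V, inner ℝ z x = (0 : ℝ) →
        inner ℝ z v = (0 : ℝ) → α * inner ℝ z (y i) = -β * inner ℝ z (p i)) ∧
      ∀ (f : V) (i : Fin N), inner ℝ f x • y i - inner ℝ f (y i) • x - inner ℝ f v • p i +
          inner ℝ f (p i) • v =
        inner ℝ f v' • a i - inner ℝ f (a i) • v' + (inner ℝ f x' • b i - inner ℝ f (b i) • x') := by
  have hvx : inner ℝ v x = (0 : ℝ) := by rw [real_inner_comm]; exact hxv
  let κ : Fin N → ℝ := fun i => inner ℝ (y i) v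
  let z : Fin N → V := fun i => y i - κ i • v
  have hyz : ∀ i, y i = z i + κ i • v := fun i => by
    show y i = y i - κ i • v + κ i • v
    abel
  have hzv : ∀ i, inner ℝ (z i) v = (0 : ℝ) := by
    intro i
    show inner ℝ (y i - κ i • v) v = (0 : ℝ)
    rw [inner_sub_left, real_inner_smul_left, hv]
    show inner ℝ (y i) v - inner ℝ (y i) v * 1 = (0 : ℝ)
    ring
  have hzx : ∀ i, inner ℝ (z i) x = (0 : ℝ) := by
    intro i
    show inner ℝ (y i - κ i • v) x = (0 : ℝ)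
    rw [inner_sub_left, real_inner_smul_left, hvx, hyx]
    ring
  clear_value z
  clear_value κ
  have hvz : ∀ i, inner ℝ v (z i) = (0 : ℝ) := fun i => by rw [real_inner_comm]; exact hzv i
  have hxz : ∀ i, inner ℝ x (z i) = (0 : ℝ) := fun i => by rw [real_inner_comm]; exact hzx i
  have hvp : ∀ i, inner ℝ v (p i) = (0 : ℝ) := fun i => by rw [real_inner_comm]; exact hpv i
  have hxp : ∀ i, inner ℝ x (p i) = (0 : ℝ) := fun i => by rw [real_inner_comm]; exact hpx i
  have hg' : ∀ i j, inner ℝ (p i) (p j) + (inner ℝ (z i) (z j) + κ i * κ j) =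
      if i = j then (1 : ℝ) else 0 := by
    intro i j
    rw [← hg i j, hyz i, hyz j]
    simp only [inner_add_left, inner_add_right, real_inner_smul_left, real_inner_smul_right, hv,
      hzv, hvz]
    ring
  obtain ⟨c, s, ρ, hcs, hρ, e1, e2⟩ : ∃ c s ρ : ℝ, c ^ 2 + s ^ 2 = 1 ∧ 0 ≤ ρ ∧
      ρ * (c ^ 2 - s ^ 2) = -((∑ i, inner ℝ (z i) (z i)) - ∑ i, inner ℝ (p i) (p i)) ∧
      ρ * (2 * s * c) = -(2 * ∑ i, inner ℝ (z i) (p i)) := by
    let ζ : ℂ := ⟨-((∑ i, inner ℝ (z i) (z i)) - ∑ i, inner ℝ (p i) (p i)),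
      -(2 * ∑ i, inner ℝ (z i) (p i))⟩
    refine ⟨Real.cos (ζ.arg / 2), Real.sin (ζ.arg / 2), ‖ζ‖, Real.cos_sq_add_sin_sq _,
      norm_nonneg _, ?_, ?_⟩
    · have h1 := Complex.norm_mul_cos_arg ζ
      have h2 : Real.cos ζ.arg = Real.cos (ζ.arg / 2) ^ 2 - Real.sin (ζ.arg / 2) ^ 2 := by
        rw [← Real.cos_two_mul']
        congr 1
        ring
      rw [← h2, h1]
    · have h1 := Complex.norm_mul_sin_arg ζ
      have h2 : Real.sin ζ.arg = 2 * Real.sin (ζ.arg / 2) * Real.cos (ζ.arg / 2) := by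
        rw [← Real.sin_two_mul]
        congr 1
        ring
      rw [← h2, h1]
  refine ⟨c • v + s • x, -s • v + c • x,
    fun i => s • z i - c • p i - κ i • (-s • v + c • x), fun i => c • z i + s • p i,
    ?_, ?_, ?_, ?_, ?_, ?_, ?_, ?_, ⟨c, s, hcs, ?_⟩, ?_⟩
  · rw [← sq_eq_sq₀ (norm_nonneg _) zero_le_one, ← real_inner_self_eq_norm_sq]
    simp only [inner_add_left, inner_add_right, real_inner_smul_left, real_inner_smul_right, hv,
      hx, hxv, hvx]
    linear_combination hcs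
  · rw [← sq_eq_sq₀ (norm_nonneg _) zero_le_one, ← real_inner_self_eq_norm_sq]
    simp only [inner_add_left, inner_add_right, real_inner_smul_left, real_inner_smul_right, hv,
      hx, hxv, hvx]
    linear_combination hcs
  · simp only [inner_add_left, inner_add_right, real_inner_smul_left, real_inner_smul_right, hv,
      hx, hxv, hvx]
    ring
  · intro i
    simp only [inner_add_left, inner_add_right, inner_sub_left, real_inner_smul_left,
      real_inner_smul_right, hv, hx, hxv, hvx, hzv, hzx, hpv, hpx]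
    ring
  · intro i
    constructor
    · simp only [inner_add_left, inner_add_right, real_inner_smul_left,
        real_inner_smul_right, hzv, hzx, hpv, hpx]
      ring
    · simp only [inner_add_left, inner_add_right, real_inner_smul_left,
        real_inner_smul_right, hzv, hzx, hpv, hpx]
      ring
  · intro i j
    rw [← hg' i j]
    simp only [inner_add_left, inner_add_right, inner_sub_left, inner_sub_right,
      real_inner_smul_left, real_inner_smul_right, hv, hx, hxv, hvx, hzv, hzx, hpv, hpx, hvz, hxz,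
      hvp, hxp]
    linear_combination (inner ℝ (p i) (p j) + inner ℝ (z i) (z j) + κ i * κ j) * hcs
  · have h1 : ∀ i, inner ℝ (s • z i - c • p i - κ i • (-s • v + c • x)) (c • z i + s • p i) =
        s * c * (inner ℝ (z i) (z i) - inner ℝ (p i) (p i)) + (s ^ 2 - c ^ 2) *
          inner ℝ (z i) (p i) := by
      intro i
      simp only [inner_add_left, inner_add_right, inner_sub_left, inner_sub_right,
        real_inner_smul_left, real_inner_smul_right, hv, hx, hxv, hvx, hzv, hzx, hpv, hpx, hvz,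
        hxz, hvp, hxp, real_inner_comm (z i) (p i)]
      ring
    rw [Finset.sum_congr rfl fun i _ => h1 i, Finset.sum_add_distrib, ← Finset.mul_sum,
      ← Finset.mul_sum, Finset.sum_sub_distrib]
    linear_combination (s * c) * e1 + ((s ^ 2 - c ^ 2) / 2) * e2
  · have h1 : ∀ i, ‖c • z i + s • p i‖ ^ 2 = c ^ 2 * inner ℝ (z i) (z i) +
        s ^ 2 * inner ℝ (p i) (p i) + (2 * s * c) * inner ℝ (z i) (p i) := by
      intro i
      rw [← real_inner_self_eq_norm_sq]
      simp only [inner_add_left, inner_add_right, real_inner_smul_left,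
        real_inner_smul_right, real_inner_comm (z i) (p i)]
      ring
    rw [Finset.sum_congr rfl fun i _ => h1 i, Finset.sum_add_distrib, Finset.sum_add_distrib,
      ← Finset.mul_sum, ← Finset.mul_sum, ← Finset.mul_sum]
    have h2 : (∑ i, inner ℝ (p i) (p i)) + (∑ i, inner ℝ (z i) (z i)) + ∑ i, κ i * κ i =
        (N : ℝ) := by
      have : ∀ i ∈ (Finset.univ : Finset (Fin N)), inner ℝ (p i) (p i) + (inner ℝ (z i) (z i) +
          κ i * κ i) = (1 : ℝ) := fun i _ => by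
        rw [hg' i i, if_pos rfl]
      have h3 := Finset.sum_congr rfl this
      rw [Finset.sum_add_distrib, Finset.sum_add_distrib, Finset.sum_const, Finset.card_univ,
        Fintype.card_fin, nsmul_eq_mul, mul_one] at h3
      linarith
    have h3 : 0 ≤ ∑ i, κ i * κ i := Finset.sum_nonneg fun i _ => mul_self_nonneg _
    have h4 : 0 ≤ ρ * ((c ^ 2 - s ^ 2) ^ 2 + (2 * s * c) ^ 2) := by positivity
    have h5 : 2 * (c ^ 2 * (∑ i, inner ℝ (z i) (z i)) + s ^ 2 * (∑ i, inner ℝ (p i) (p i)) +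
        2 * s * c * ∑ i, inner ℝ (z i) (p i)) =
        ((∑ i, inner ℝ (p i) (p i)) + (∑ i, inner ℝ (z i) (z i))) -
        ρ * ((c ^ 2 - s ^ 2) ^ 2 + (2 * s * c) ^ 2) := by
      linear_combination (c ^ 2 - s ^ 2) * e1 + (2 * s * c) * e2 +
        ((∑ i, inner ℝ (p i) (p i)) + (∑ i, inner ℝ (z i) (z i))) * hcs
    rw [h5]
    linarith
  · intro i hb w hwx hwv
    have hb' : c • z i + s • p i = 0 := hb
    have h6 : inner ℝ w (c • z i + s • p i) = (0 : ℝ) := by rw [hb', inner_zero_right]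
    rw [inner_add_right, real_inner_smul_right, real_inner_smul_right] at h6
    rw [hyz i, inner_add_right, real_inner_smul_right, hwv]
    linear_combination h6
  · intro f i
    have h1 : inner ℝ f (c • v + s • x) • (s • z i - c • p i - κ i • (-s • v + c • x)) -
        inner ℝ f (s • z i - c • p i - κ i • (-s • v + c • x)) • (c • v + s • x) +
        (inner ℝ f (-s • v + c • x) • (c • z i + s • p i) -
          inner ℝ f (c • z i + s • p i) • (-s • v + c • x)) =
        (c ^ 2 + s ^ 2) • (inner ℝ f x • y i - inner ℝ f (y i) • x - inner ℝ f v • p i +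
          inner ℝ f (p i) • v) := by
      rw [hyz i]
      simp only [inner_add_right, inner_sub_right, real_inner_smul_right]
      module
    rw [hcs, one_smul] at h1
    exact h1.symm


theorem plane_basis2 {N : ℕ} (hN : 1 ≤ N) (x v : Fin (N + 2) → ℝ) (B : Matrix (Fin (N + 2)) (Fin (N + 2)) ℝ)
    (hx : x ⬝ᵥ x = 1) (hv : v ⬝ᵥ v = 1) (hxv : x ⬝ᵥ v = 0) (h0 : B *ᵥ x = 0) (h1 : x ᵥ* B = 0) (h2 : v ᵥ* B = 0) :
    ∃ (v' x' : E (N + 2)) (a b : Fin N → E (N + 2)), ‖v'‖ = 1 ∧ ‖x'‖ = 1 ∧ inner ℝ v' x' = 0 ∧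
      (∀ i, inner ℝ (a i) v' = 0) ∧ (∀ i, inner ℝ (b i) v' = 0 ∧ inner ℝ (b i) x' = 0) ∧
      (∀ i j, inner ℝ (a i) (a j) + inner ℝ (b i) (b j) = if i = j then (1 : ℝ) else 0) ∧
      (∑ i, inner ℝ (a i) (b i) = 0) ∧ (2 * ∑ i, ‖b i‖ ^ 2 ≤ N) ∧
      ((∀ i, b i = 0) → ∃ lam : ℝ, ∀ y, x ⬝ᵥ y = 0 → v ⬝ᵥ y = 0 → B *ᵥ y = lam • y) ∧
      ∀ f : E (N + 2), JJ x v B f.ofLp = Real.sqrt (1 + B * Bᵀ).det *
        Real.sqrt (Matrix.of fun i j : Fin N =>
          (inner ℝ (inner ℝ f v' • a i - inner ℝ f (a i) • v' + (inner ℝ f x' • b i - inner ℝ f (b i) • x'))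
            (inner ℝ f v' • a j - inner ℝ f (a j) • v' + (inner ℝ f x' • b j - inner ℝ f (b j) • x')))).det := by
  have hin : ∀ u w : Fin (N + 2) → ℝ,
      inner ℝ (WithLp.toLp 2 u : E (N + 2)) (WithLp.toLp 2 w) = u ⬝ᵥ w := by
    intro u w
    rw [EuclideanSpace.inner_eq_star_dotProduct]
    simp only [star_trivial]
    exact dotProduct_comm _ _
  let X : Matrix (Fin 2) (Fin (N + 2)) ℝ := Matrix.of ![x, v]
  have hvx : v ⬝ᵥ x = 0 := by rw [dotProduct_comm]; exact hxv
  have hX : X * Xᵀ = 1 := by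
    ext i j
    rw [Matrix.mul_apply']
    fin_cases i <;> fin_cases j
    · show x ⬝ᵥ x = _
      rw [hx]; rfl
    · show x ⬝ᵥ v = _
      rw [hxv]; rfl
    · show v ⬝ᵥ x = _
      rw [hvx]; rfl
    · show v ⬝ᵥ v = _
      rw [hv]; rfl
  have hXB : X * B = 0 := by
    ext i j
    rw [Matrix.mul_apply']
    fin_cases i
    · exact congrFun h1 j
    · exact congrFun h2 j
  have hXX : Xᵀ * X = vecMulVec x x + vecMulVec v v := by
    ext i j
    rw [Matrix.mul_apply, Fin.sum_univ_two]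
    rfl
  obtain ⟨P, hPX, hP⟩ := pb_exists_plane_basisx X hX B
  have hPx : ∀ i, P i ⬝ᵥ x = 0 := fun i => by
    have := congrFun (congrFun hPX i) 0
    rw [Matrix.mul_apply'] at this
    exact this
  have hPv : ∀ i, P i ⬝ᵥ v = 0 := fun i => by
    have := congrFun (congrFun hPX i) 1
    rw [Matrix.mul_apply'] at this
    exact this
  have hXT : ∀ f, X * TT x v B f = 0 := by
    intro f
    have hXPi : X * (1 - vecMulVec x x - vecMulVec v v) = 0 := by
      rw [sub_sub, ← hXX, Matrix.mul_sub, Matrix.mul_one, ← Matrix.mul_assoc, hX, Matrix.one_mul,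
        sub_self]
    have hXf : X * vecMulVec (B *ᵥ f) x = 0 := by
      rw [mul_vecMulVec, mulVec_mulVec, hXB, zero_mulVec, zero_vecMulVec]
    unfold TT
    rw [Matrix.mul_add, Matrix.mul_sub, Matrix.mul_smul, hXB, smul_zero, hXf, ← Matrix.mul_assoc,
      hXPi, Matrix.zero_mul]
    simp
  let p : Fin N → E (N + 2) := fun i => WithLp.toLp 2 (P i)
  let y : Fin N → E (N + 2) := fun i => WithLp.toLp 2 (P i ᵥ* B)
  obtain ⟨v', x', a, b, c1, c2, c3, c4, c5, c6, c7, c8, ⟨α, β, hαβ, c10⟩, c9⟩ := pb_rot2 (V := E (N + 2))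
    (WithLp.toLp 2 x) (WithLp.toLp 2 v) p y (by rw [hin]; exact hx) (by rw [hin]; exact hv)
    (by rw [hin]; exact hxv) (fun i => by rw [hin]; exact hPx i) (fun i => by rw [hin]; exact hPv i)
    (fun i => by
      rw [hin, ← dotProduct_mulVec, h0, dotProduct_zero])
    (fun i j => by
      rw [hin, hin]
      have h3 := congrFun (congrFun hP i) j
      rw [Matrix.mul_add, Matrix.add_mul, Matrix.mul_one, Matrix.add_apply, Matrix.mul_apply',
        ← Matrix.mul_assoc, Matrix.mul_assoc, ← transpose_mul, Matrix.mul_apply',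
        Matrix.one_apply] at h3
      exact h3)
  refine ⟨v', x', a, b, c1, c2, c3, c4, c5, c6, c7, c8, ?_, ?_⟩
  · intro hb
    refine umb hN x v B hx hv hxv h1 h2 P hPx hPv hP α β hαβ ?_
    intro i z hxz hvz
    have := c10 i (hb i) (WithLp.toLp 2 z) (by rw [hin, dotProduct_comm]; exact hxz)
      (by rw [hin, dotProduct_comm]; exact hvz)
    rw [hin, hin, dotProduct_comm z, dotProduct_comm z] at this
    exact this
  intro f
  obtain ⟨d1, d2⟩ := pb_det_plane_basisx X P hX hPX B (TT x v B f.ofLp) hXB (hXT _) hP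
  unfold JJ
  rw [add_assoc, ← hXX, d2, Real.sqrt_mul d1]
  congr 3
  ext i j
  rw [Matrix.mul_apply', Matrix.of_apply, ← c9 f i, ← c9 f j]
  have hrow : ∀ i, WithLp.toLp 2 ((P * TT x v B f.ofLp) i) =
      inner ℝ f (WithLp.toLp 2 x) • y i - inner ℝ f (y i) • (WithLp.toLp 2 x : E (N + 2)) -
        inner ℝ f (WithLp.toLp 2 v) • p i + inner ℝ f (p i) • (WithLp.toLp 2 v : E (N + 2)) := by
    intro i
    have hf : f = WithLp.toLp 2 f.ofLp := rfl
    have e0 : (P * TT x v B f.ofLp) i = P i ᵥ* TT x v B f.ofLp := rfl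
    have e1 : P i ᵥ* (1 - vecMulVec x x - vecMulVec v v) = P i := by
      rw [vecMul_sub, vecMul_sub, vecMul_one, vecMul_vecMulVec, vecMul_vecMulVec, hPx, hPv]
      simp
    have e2 : P i ᵥ* TT x v B f.ofLp = (x ⬝ᵥ f.ofLp) • (P i ᵥ* B) -
        ((P i ᵥ* B) ⬝ᵥ f.ofLp) • x - (v ⬝ᵥ f.ofLp) • P i + (P i ⬝ᵥ f.ofLp) • v := by
      unfold TT
      rw [vecMul_add, vecMul_sub, vecMul_smul, vecMul_vecMulVec, ← vecMul_vecMul, e1, vecMul_sub,
        vecMul_smul, vecMul_one, vecMul_vecMulVec, dotProduct_mulVec]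
      module
    rw [e0, e2]
    rw [hf, hin, hin, hin, hin]
    simp only [dotProduct_comm f.ofLp]
    rfl
  rw [← hrow i, ← hrow j, hin]
  rfl




end Pool.Agent.Helper82.OS
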