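import Mathlib
import Pool.Agent.Helper82.OS.Defs
import Pool.Agent.Helper82.OS.Defs2
import Pool.Agent.Helper82.OS.JJ_homog
import Pool.Agent.Helper82.OS.cN_eq
import Pool.Agent.Helper82.OS.gnomonic
import Pool.Agent.Helper82.OS.normal_form
set_option autoImplicit false
open Matrix MeasureTheory Set Metric Filter Topology
open scoped ENNReal ContDiff

namespace Pool.Agent.Helper82.OS
namespace Fr
variable {N : ℕ} (F : Fr N)

end Fr

theorem star_of_core_cont_star_of_corex {N : ℕ} (x v : Fin (N + 2) → ℝ) (B : Matrix (Fin (N + 2)) (Fin (N + 2)) ℝ) :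
    Continuous fun f : E (N + 2) => JJ x v B f.ofLp := by
  unfold JJ
  have hof : Continuous fun f : E (N + 2) => f.ofLp := PiLp.continuous_ofLp _ _
  have hT : Continuous fun f : E (N + 2) => TT x v B f.ofLp := by
    unfold TT
    have hd1 : Continuous fun f : E (N + 2) => x ⬝ᵥ f.ofLp := Continuous.dotProduct continuous_const hof
    have hd2 : Continuous fun f : E (N + 2) => v ⬝ᵥ f.ofLp := Continuous.dotProduct continuous_const hof
    have hm : Continuous fun f : E (N + 2) => B *ᵥ f.ofLp := Continuous.matrix_mulVec continuous_const hof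
    have h1 : Continuous fun f : E (N + 2) => vecMulVec (B *ᵥ f.ofLp) x :=
      Continuous.matrix_vecMulVec hm continuous_const
    have h2 : Continuous fun f : E (N + 2) => vecMulVec f.ofLp v :=
      Continuous.matrix_vecMulVec hof continuous_const
    exact ((hd1.smul continuous_const).sub h1).add
      (Continuous.matrix_mul continuous_const (h2.sub (hd2.smul continuous_const)))
  have hTT : Continuous fun f : E (N + 2) => TT x v B f.ofLp * (TT x v B f.ofLp)ᵀ :=
    Continuous.matrix_mul hT (Continuous.matrix_transpose hT)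
  exact ((hTT.add continuous_const).add continuous_const).matrix_det.sqrt

theorem star_of_core {N : ℕ} (hN : 1 ≤ N) (hC : Core N) : Star N := by
  intro x v B hx hv hxv h0 h1 h2
  obtain ⟨v', ι, F, hv', hι, hmp, hJ⟩ := normal_form hN x v B hx hv hxv h0 h1 h2
  have hg : Measurable fun f : E (N + 2) => ENNReal.ofReal (JJ x v B f.ofLp) :=
    (star_of_core_cont_star_of_corex x v B).measurable.ennreal_ofReal
  have hh : ∀ r : ℝ, 0 < r → ∀ z : E (N + 2), ENNReal.ofReal (JJ x v B (r • z).ofLp) =
      ENNReal.ofReal (r ^ N) * ENNReal.ofReal (JJ x v B z.ofLp) := by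
    intro r hr z
    rw [WithLp.ofLp_smul, JJ_homog x v B z.ofLp hx hv hxv h1 h2 r hr.le,
      ENNReal.ofReal_mul (by positivity)]
  rw [gnomonic v' hv' ι hι hmp _ hg hh]
  have hs0 : 0 ≤ Real.sqrt (1 + B * Bᵀ).det := Real.sqrt_nonneg _
  have e1 : ∀ w : sphere (0 : E (N + 1)) 1,
      (∫⁻ t : ℝ, ENNReal.ofReal (JJ x v B (t • v' + ι (w : E (N + 1))).ofLp) *
        ENNReal.ofReal (((1 + t ^ 2) ^ (N + 1))⁻¹)) =
      ENNReal.ofReal (Real.sqrt (1 + B * Bᵀ).det) *
        ∫⁻ t : ℝ, ENNReal.ofReal (F.FF t w * K N t) := by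
    intro w
    rw [← lintegral_const_mul' _ _ ENNReal.ofReal_ne_top]
    apply lintegral_congr
    intro t
    have hK : 0 ≤ ((1 + t ^ 2) ^ (N + 1))⁻¹ := by positivity
    have hF : 0 ≤ F.FF t w := Real.sqrt_nonneg _
    rw [hJ, ENNReal.ofReal_mul hs0, mul_assoc, ← ENNReal.ofReal_mul hF]
    rfl
  rw [lintegral_congr e1, lintegral_const_mul' _ _ ENNReal.ofReal_ne_top, cN_eq hN F.e F.he]
  exact mul_le_mul_right (hC F) _



end Pool.Agent.Helper82.OS
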