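import Mathlib
import Pool.Agent.Helper82.OS.Defs
set_option autoImplicit false
open Matrix MeasureTheory Set Metric Filter Topology
open scoped ENNReal ContDiff

namespace Pool.Agent.Helper82.OS
theorem h396_mat_voldensx {D : ℕ} (L : E D →L[ℝ] E D) : mat L =
    LinearMap.toMatrix (EuclideanSpace.basisFun (Fin D) ℝ).toBasis
      (EuclideanSpace.basisFun (Fin D) ℝ).toBasis L.toLinearMap := by
  ext i j
  rw [LinearMap.toMatrix_apply]
  simp [mat, OrthonormalBasis.coe_toBasis, EuclideanSpace.basisFun_apply,
    OrthonormalBasis.coe_toBasis_repr_apply, EuclideanSpace.basisFun_repr]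

theorem h396_det_voldensx {D : ℕ} (L : E D →L[ℝ] E D) : LinearMap.det L.toLinearMap = (mat L).det := by
  rw [h396_mat_voldensx, LinearMap.det_toMatrix]

theorem h396_mul_voldensx {D : ℕ} (L M : E D →L[ℝ] E D) : mat (L * M) = mat L * mat M := by
  rw [h396_mat_voldensx, h396_mat_voldensx, h396_mat_voldensx, ← LinearMap.toMatrix_mul]
  rfl

theorem h396_one_voldensx {D : ℕ} : mat (1 : E D →L[ℝ] E D) = 1 := by
  rw [h396_mat_voldensx]
  exact LinearMap.toMatrix_one _

theorem h396_add_voldensx {D : ℕ} (L M : E D →L[ℝ] E D) : mat (L + M) = mat L + mat M := by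
  ext i j
  simp [mat]

theorem h396_adj_voldensx {D : ℕ} (L : E D →L[ℝ] E D) : mat (ContinuousLinearMap.adjoint L) = (mat L)ᵀ := by
  ext i j
  rw [Matrix.transpose_apply]
  simp only [mat, Matrix.of_apply]
  have h1 := ContinuousLinearMap.adjoint_inner_right L (EuclideanSpace.single i (1:ℝ))
    (EuclideanSpace.single j (1:ℝ))
  rw [EuclideanSpace.inner_single_left, EuclideanSpace.inner_single_right] at h1
  simpa using h1

theorem h396_P_voldensx {D : ℕ} (x : E D) :
    mat (ContinuousLinearMap.id ℝ (E D) - (innerSL ℝ x).smulRight x) =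
      1 - vecMulVec x.ofLp x.ofLp := by
  ext i j
  simp only [mat, Matrix.of_apply, Matrix.sub_apply, Matrix.vecMulVec_apply]
  simp only [ContinuousLinearMap.sub_apply, ContinuousLinearMap.id_apply,
    ContinuousLinearMap.smulRight_apply, innerSL_apply_apply, EuclideanSpace.inner_single_right,
    PiLp.sub_apply, PiLp.smul_apply, smul_eq_mul]
  rw [Matrix.one_apply]
  simp [EuclideanSpace.single_apply, mul_comm]

theorem voldens {D : ℕ} (W : E D → E D) (x : E D) :
    Real.sqrt (LinearMap.det
          (((1 : E D →L[ℝ] E D)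
            + ContinuousLinearMap.adjoint
                ((ContinuousLinearMap.id ℝ (E D)
                    - (innerSL ℝ x).smulRight x) * fderiv ℝ W x
                  * (ContinuousLinearMap.id ℝ (E D)
                    - (innerSL ℝ x).smulRight x))
              * ((ContinuousLinearMap.id ℝ (E D)
                    - (innerSL ℝ x).smulRight x) * fderiv ℝ W x
                  * (ContinuousLinearMap.id ℝ (E D)
                    - (innerSL ℝ x).smulRight x))).toLinearMap)) = dens W x := by
  rw [h396_det_voldensx, h396_add_voldensx, h396_one_voldensx, h396_mul_voldensx, h396_adj_voldensx, h396_mul_voldensx, h396_mul_voldensx, h396_P_voldensx,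
    ← Matrix.det_one_add_mul_comm]
  rfl



end Pool.Agent.Helper82.OS
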