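import Mathlib
import Pool.Agent.Helper82.OS.Defs
import Pool.Agent.Helper82.OS.Ext
import Pool.Agent.Helper82.OS.I1
import Pool.Agent.Helper82.OS.PPd
import Pool.Agent.Helper82.OS.cNval
import Pool.Agent.Helper82.OS.main_upper
import Pool.Agent.Helper82.OS.voldens
set_option autoImplicit false
open Matrix MeasureTheory Set Metric Filter Topology
open scoped ENNReal ContDiff

namespace Pool.Agent.Helper82.OS
theorem vol_le_mat_cont_vol_lex {D : ℕ} (V : E D → E D) (hV : ContDiff ℝ ∞ V) :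
    Continuous (fun x => mat (fderiv ℝ V x)) := by
  have hc : Continuous (fderiv ℝ V) := hV.continuous_fderiv (by simp)
  apply continuous_matrix
  intro i j
  have h1 : Continuous (fun x => fderiv ℝ V x (EuclideanSpace.single j 1)) :=
    hc.clm_apply continuous_const
  exact (EuclideanSpace.proj (𝕜 := ℝ) i).continuous.comp h1

theorem vol_le_dens_cont_vol_lex {D : ℕ} (V : E D → E D) (hV : ContDiff ℝ ∞ V) :
    Continuous (dens V) := by
  have h1 : Continuous (fun x : E D => (1 - vecMulVec x.ofLp x.ofLp : Matrix (Fin D) (Fin D) ℝ)) := by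
    refine continuous_const.sub ?_
    apply continuous_matrix
    intro i j
    have h2 : ∀ k : Fin D, Continuous (fun x : E D => x.ofLp k) :=
      fun k => (EuclideanSpace.proj (𝕜 := ℝ) k).continuous
    exact (h2 i).mul (h2 j)
  have h3 : Continuous (Bm V) := by
    unfold Bm
    exact (h1.matrix_mul (vol_le_mat_cont_vol_lex V hV)).matrix_mul h1
  unfold dens
  exact Real.continuous_sqrt.comp (continuous_const.add (h3.matrix_mul h3.matrix_transpose)).matrix_det

theorem vol_le_aux_vol_lex {α : Type*} [MeasurableSpace α] (μ : Measure α) (f : α → ℝ) (hf : ∀ x, 0 ≤ f x) :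
    ∫ x, f x ∂μ ≤ (∫⁻ x, ENNReal.ofReal (f x) ∂μ).toReal := by
  by_cases h : AEStronglyMeasurable f μ
  · rw [integral_eq_lintegral_of_nonneg_ae (Filter.Eventually.of_forall hf) h]
  · rw [integral_non_aestronglyMeasurable h]
    exact ENNReal.toReal_nonneg

theorem vol_le_cN_vol_lex {N : ℕ} (hN : Even N) (hN2 : 2 ≤ N) :
    ENNReal.ofReal (2 ^ N) * cN N ≠ 0 ∧ ENNReal.ofReal (2 ^ N) * cN N ≠ ⊤ := by
  have hN0 : (0 : ℝ) < N := by
    have : 0 < N := by omega
    exact_mod_cast this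
  rw [cNval hN hN2, ← ENNReal.ofReal_mul (by positivity)]
  refine ⟨?_, ENNReal.ofReal_ne_top⟩
  have g1 : 0 < Real.Gamma ((N : ℝ) / 2) := Real.Gamma_pos_of_pos (by positivity)
  have g2 : 0 < Real.Gamma ((N : ℝ) + 1 / 2) := Real.Gamma_pos_of_pos (by positivity)
  have g3 : 0 < Real.Gamma ((N : ℝ) + 1) := Real.Gamma_pos_of_pos (by positivity)
  have g4 : 0 < Real.Gamma (N : ℝ) := Real.Gamma_pos_of_pos hN0
  have hpi := Real.pi_pos
  rw [ne_eq, ENNReal.ofReal_eq_zero, not_le]
  positivity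

theorem vol_le {m : ℕ} (hm : 1 ≤ m) (hS : Star (2 * m))
    (vol : (EuclideanSpace ℝ (Fin (2 * m + 2)) → EuclideanSpace ℝ (Fin (2 * m + 2))) → ℝ)
    (hvol : ∀ W : EuclideanSpace ℝ (Fin (2 * m + 2)) → EuclideanSpace ℝ (Fin (2 * m + 2)),
      vol W = ∫ x in Metric.sphere (0 : EuclideanSpace ℝ (Fin (2 * m + 2))) 1,
        Real.sqrt (LinearMap.det
          (((1 : EuclideanSpace ℝ (Fin (2 * m + 2)) →L[ℝ] EuclideanSpace ℝ (Fin (2 * m + 2)))
            + ContinuousLinearMap.adjoint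
                ((ContinuousLinearMap.id ℝ (EuclideanSpace ℝ (Fin (2 * m + 2)))
                    - (innerSL ℝ x).smulRight x) * fderiv ℝ W x
                  * (ContinuousLinearMap.id ℝ (EuclideanSpace ℝ (Fin (2 * m + 2)))
                    - (innerSL ℝ x).smulRight x))
              * ((ContinuousLinearMap.id ℝ (EuclideanSpace ℝ (Fin (2 * m + 2)))
                    - (innerSL ℝ x).smulRight x) * fderiv ℝ W x
                  * (ContinuousLinearMap.id ℝ (EuclideanSpace ℝ (Fin (2 * m + 2)))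
                    - (innerSL ℝ x).smulRight x))).toLinearMap))
        ∂(MeasureTheory.Measure.hausdorffMeasure ((2 * m + 1 : ℕ) : ℝ)))
    (a v : EuclideanSpace ℝ (Fin (2 * m + 2))) (ha : ‖a‖ = 1) (hv : ‖v‖ = 1) (hav : inner ℝ a v = 0)
    (V : EuclideanSpace ℝ (Fin (2 * m + 2)) → EuclideanSpace ℝ (Fin (2 * m + 2)))
    (hV : ContDiff ℝ (⊤ : ℕ∞) V)
    (ht : ∀ x ∈ Metric.sphere (0 : EuclideanSpace ℝ (Fin (2 * m + 2))) 1, inner ℝ x (V x) = 0 ∧ ‖V x‖ = 1) :
    vol (fun y => v - (inner ℝ v y / (1 + inner ℝ y a)) • (y + a)) ≤ vol V := by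
  have hN : Even (2 * m) := even_two_mul m
  have hN2 : 2 ≤ 2 * m := by omega
  have hUT : UT V := by
    refine ⟨hV, ?_, ?_⟩
    · intro x hx
      exact (ht x (mem_sphere_zero_iff_norm.2 hx)).1
    · intro x hx
      exact (ht x (mem_sphere_zero_iff_norm.2 hx)).2
  have hvd : ∀ W : E (2 * m + 2) → E (2 * m + 2), vol W =
      ∫ x in Metric.sphere (0 : E (2 * m + 2)) 1, dens W x
        ∂(MeasureTheory.Measure.hausdorffMeasure ((2 * m + 1 : ℕ) : ℝ)) := by
    intro W
    rw [hvol W]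
    refine integral_congr_ae (Filter.Eventually.of_forall (fun x => ?_))
    exact voldens W x
  have hnn : ∀ (W : E (2 * m + 2) → E (2 * m + 2)) (x : E (2 * m + 2)), 0 ≤ dens W x :=
    fun W x => Real.sqrt_nonneg _
  have hlow := main_lower hN hN2 hS hUT
  rw [← main_upper hN hN2 a v ha hv hav] at hlow
  obtain ⟨k0, k1⟩ := vol_le_cN_vol_lex hN hN2
  have hle : ∫⁻ x in sphere (0 : E (2 * m + 2)) 1, ENNReal.ofReal (dens (PP a v) x)
        ∂(Measure.hausdorffMeasure ((2 * m + 1 : ℕ) : ℝ)) ≤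
      ∫⁻ x in sphere (0 : E (2 * m + 2)) 1, ENNReal.ofReal (dens V x)
        ∂(Measure.hausdorffMeasure ((2 * m + 1 : ℕ) : ℝ)) :=
    (ENNReal.mul_le_mul_iff_right k0 k1).1 hlow
  have hcont := vol_le_dens_cont_vol_lex V hV
  obtain ⟨C, hC⟩ := (isCompact_sphere (0 : E (2 * m + 2)) 1).exists_bound_of_continuousOn
    hcont.continuousOn
  have hfin := B08_sphere_finite (2 * m + 1)
  have hint : IntegrableOn (dens V) (sphere (0 : E (2 * m + 2)) 1)
      (Measure.hausdorffMeasure ((2 * m + 1 : ℕ) : ℝ)) := by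
    refine Measure.integrableOn_of_bounded (M := C) hfin
      hcont.measurable.aestronglyMeasurable ?_
    exact (ae_restrict_mem isClosed_sphere.measurableSet).mono (fun x hx => hC x hx)
  have heq : ∫ x in Metric.sphere (0 : E (2 * m + 2)) 1, dens V x
        ∂(MeasureTheory.Measure.hausdorffMeasure ((2 * m + 1 : ℕ) : ℝ)) =
      (∫⁻ x in sphere (0 : E (2 * m + 2)) 1, ENNReal.ofReal (dens V x)
        ∂(Measure.hausdorffMeasure ((2 * m + 1 : ℕ) : ℝ))).toReal :=
    integral_eq_lintegral_of_nonneg_ae (Filter.Eventually.of_forall (hnn V))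
      hcont.measurable.aestronglyMeasurable
  have htop : ∫⁻ x in sphere (0 : E (2 * m + 2)) 1, ENNReal.ofReal (dens V x)
        ∂(Measure.hausdorffMeasure ((2 * m + 1 : ℕ) : ℝ)) ≠ ⊤ := by
    have h1 := ofReal_integral_eq_lintegral_ofReal hint (Filter.Eventually.of_forall (hnn V))
    rw [← h1]
    exact ENNReal.ofReal_ne_top
  have hP : vol (fun y => v - (inner ℝ v y / (1 + inner ℝ y a)) • (y + a)) =
      ∫ x in Metric.sphere (0 : E (2 * m + 2)) 1, dens (PP a v) x
        ∂(MeasureTheory.Measure.hausdorffMeasure ((2 * m + 1 : ℕ) : ℝ)) := hvd (PP a v)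
  rw [hP, hvd V, heq]
  exact (vol_le_aux_vol_lex _ _ (hnn (PP a v))).trans (ENNReal.toReal_mono htop hle)




end Pool.Agent.Helper82.OS
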