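import Mathlib
import Pool.Agent.Helper82.OS.Defs
import Pool.Agent.Helper82.OS.Defs2
import Pool.Agent.Helper82.OS.Defs3
import Pool.Agent.Helper82.OS.JJ_homog
import Pool.Agent.Helper82.OS.cN_eq
import Pool.Agent.Helper82.OS.gnomonic
import Pool.Agent.Helper82.OS.star_of_core
import Pool.Agent.Helper82.OS.vol_le
import Pool.Agent.Helper82.OS.normal_form2
import Pool.Agent.Helper82.OS.gsmall3
import Pool.Agent.Helper82.OS.glarge
import Pool.Agent.Helper82.OS.core_of_g2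
set_option autoImplicit false
open Matrix MeasureTheory Set Metric Filter Topology
open scoped ENNReal ContDiff

namespace Pool.Agent.Helper82.OS

/-- the gnomonic core inequality with a constant `κ ≤ 1`, and `κ < 1` unless `δ = 0` -/
theorem core24_kappa {m : ℕ} (hm : 24 ≤ m) (F : Fr (2 * m)) :
    ∃ κ : ℝ≥0∞, κ ≤ 1 ∧ (κ = 1 → F.del = 0) ∧
      ∫⁻ w : sphere (0 : E (2 * m + 1)) 1, (∫⁻ t : ℝ, ENNReal.ofReal (F.FF t w * K (2 * m) t)) ∂(sg (2 * m + 1))
      ≤ κ * ∫⁻ w : sphere (0 : E (2 * m + 1)) 1, A0 (2 * m) (inner ℝ (w : E (2 * m + 1)) F.e) ∂(sg (2 * m + 1)) := by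
  rcases le_total F.del (((2 * m : ℕ) : ℝ) / 6) with h | h
  · refine ⟨ENNReal.ofReal (Real.exp (-(F.del / 10))), ?_, ?_,
      core_of_g2 (by omega) F _ (gsmall3 (by omega) F h)⟩
    · rw [ENNReal.ofReal_le_one, Real.exp_le_one_iff]
      have := F.del_bd.1
      linarith
    · intro h1
      rw [ENNReal.ofReal_eq_one, Real.exp_eq_one_iff] at h1
      linarith
  · refine ⟨ENNReal.ofReal 0.95, ?_, ?_, core_of_g2 (by omega) F _ (glarge hm F h)⟩
    · rw [ENNReal.ofReal_le_one]; norm_num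
    · intro h1
      rw [ENNReal.ofReal_eq_one] at h1
      norm_num at h1

theorem star24 {m : ℕ} (hm : 24 ≤ m) : Star (2 * m) := by
  refine star_of_core (by omega) (fun F => ?_)
  obtain ⟨κ, hκ1, -, h⟩ := core24_kappa hm F
  exact h.trans ((mul_le_mul_left hκ1 _).trans (one_mul _).le)

/-- equality in the pointwise inequality forces the umbilic case -/
theorem star24_eq {m : ℕ} (hm : 24 ≤ m) (x v : Fin (2 * m + 2) → ℝ)
    (B : Matrix (Fin (2 * m + 2)) (Fin (2 * m + 2)) ℝ)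
    (hx : x ⬝ᵥ x = 1) (hv : v ⬝ᵥ v = 1) (hxv : x ⬝ᵥ v = 0) (h0 : B *ᵥ x = 0) (h1 : x ᵥ* B = 0)
    (h2 : v ᵥ* B = 0)
    (heq : ∫⁻ f : sphere (0 : E (2 * m + 2)) 1, ENNReal.ofReal (JJ x v B (f : E (2 * m + 2)).ofLp) ∂(sg (2 * m + 2))
      = ENNReal.ofReal (Real.sqrt (1 + B * Bᵀ).det) * cN (2 * m)) :
    ∃ lam : ℝ, ∀ k, x ⬝ᵥ k = 0 → v ⬝ᵥ k = 0 → B *ᵥ k = lam • k := by
  obtain ⟨v', ι, F, hv', hι, hmp, hum, hJ⟩ := normal_form2 (by omega : 1 ≤ 2 * m) x v B hx hv hxv h0 h1 h2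
  obtain ⟨κ, hκ1, hκ, hcore⟩ := core24_kappa hm F
  refine hum (hκ ?_)
  have hg : Measurable fun f : E (2 * m + 2) => ENNReal.ofReal (JJ x v B f.ofLp) :=
    (star_of_core_cont_star_of_corex x v B).measurable.ennreal_ofReal
  have hh : ∀ r : ℝ, 0 < r → ∀ z : E (2 * m + 2), ENNReal.ofReal (JJ x v B (r • z).ofLp) =
      ENNReal.ofReal (r ^ (2 * m)) * ENNReal.ofReal (JJ x v B z.ofLp) := by
    intro r hr z
    rw [WithLp.ofLp_smul, JJ_homog x v B z.ofLp hx hv hxv h1 h2 r hr.le,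
      ENNReal.ofReal_mul (by positivity)]
  rw [gnomonic v' hv' ι hι hmp _ hg hh] at heq
  have hs0 : 0 ≤ Real.sqrt (1 + B * Bᵀ).det := Real.sqrt_nonneg _
  have e1 : ∀ w : sphere (0 : E (2 * m + 1)) 1,
      (∫⁻ t : ℝ, ENNReal.ofReal (JJ x v B (t • v' + ι (w : E (2 * m + 1))).ofLp) *
        ENNReal.ofReal (((1 + t ^ 2) ^ (2 * m + 1))⁻¹)) =
      ENNReal.ofReal (Real.sqrt (1 + B * Bᵀ).det) *
        ∫⁻ t : ℝ, ENNReal.ofReal (F.FF t w * K (2 * m) t) := by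
    intro w
    rw [← lintegral_const_mul' _ _ ENNReal.ofReal_ne_top]
    apply lintegral_congr
    intro t
    have hK : 0 ≤ ((1 + t ^ 2) ^ (2 * m + 1))⁻¹ := by positivity
    have hF : 0 ≤ F.FF t w := Real.sqrt_nonneg _
    rw [hJ, ENNReal.ofReal_mul hs0, mul_assoc, ← ENNReal.ofReal_mul hF]
    rfl
  rw [lintegral_congr e1, lintegral_const_mul' _ _ ENNReal.ofReal_ne_top, cN_eq (by omega : 1 ≤ 2 * m) F.e F.he] at heq
  have hdet : 0 < Real.sqrt (1 + B * Bᵀ).det := by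
    apply Real.sqrt_pos.2
    have hpd : (1 + B * Bᵀ).PosDef := by
      have h3 : (B * Bᵀ).PosSemidef := by
        have := Matrix.posSemidef_self_mul_conjTranspose B
        simpa using this
      exact Matrix.PosDef.one.add_posSemidef h3
    exact hpd.det_pos
  have hne : ENNReal.ofReal (Real.sqrt (1 + B * Bᵀ).det) ≠ 0 := by
    rw [Ne, ENNReal.ofReal_eq_zero, not_le]; exact hdet
  have heq2 := (ENNReal.mul_right_inj hne ENNReal.ofReal_ne_top).1 heq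
  set I := ∫⁻ w : sphere (0 : E (2 * m + 1)) 1, A0 (2 * m) (inner ℝ (w : E (2 * m + 1)) F.e) ∂(sg (2 * m + 1)) with hI
  have hcN := vol_le_cN_vol_lex (N := 2 * m) (even_two_mul m) (by omega)
  rw [cN_eq (by omega : 1 ≤ 2 * m) F.e F.he, ← hI] at hcN
  have hI0 : I ≠ 0 := by
    intro h
    apply hcN.1
    rw [h, mul_zero]
  have hIt : I ≠ ⊤ := by
    intro h
    apply hcN.2
    rw [h, ENNReal.mul_top]
    rw [Ne, ENNReal.ofReal_eq_zero, not_le]
    positivity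
  rw [heq2] at hcore
  refine le_antisymm hκ1 ((ENNReal.mul_le_mul_iff_right hI0 hIt).1 ?_)
  rwa [mul_one, mul_comm I κ]

end Pool.Agent.Helper82.OS
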