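import Mathlib
import Pool.Agent.Helper82.OS.Defs
import Pool.Agent.Helper82.OS.Defs2
import Pool.Agent.Helper82.OS.core_of_g
import Pool.Agent.Helper82.OS.gcrude
import Pool.Agent.Helper82.OS.gsmall
import Pool.Agent.Helper82.OS.star_of_core
set_option autoImplicit false
open Matrix MeasureTheory Set Metric Filter Topology
open scoped ENNReal ContDiff

namespace Pool.Agent.Helper82.OS
namespace Fr
variable {N : ℕ} (F : Fr N)

end Fr

theorem star60 {m : ℕ} (hm : 60 ≤ m) : Star (2 * m) := by
  refine star_of_core (by omega) (fun F => core_of_g (by omega) F ?_)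
  rcases le_total F.del (((2 * m : ℕ) : ℝ) / 6) with h | h
  · exact gsmall hm F h
  · exact gcrude hm F h



end Pool.Agent.Helper82.OS
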