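import Mathlib
import Pool.Agent.Helper82.OS.Defs
import Pool.Agent.Helper82.OS.Defs2
import Pool.Agent.Helper82.OS.amgm
import Pool.Agent.Helper82.OS.ray
import Pool.Agent.Helper82.OS.trc
set_option autoImplicit false
open Matrix MeasureTheory Set Metric Filter Topology
open scoped ENNReal ContDiff

namespace Pool.Agent.Helper82.OS
namespace Fr
variable {N : ℕ} (F : Fr N)

end Fr

theorem sy_R1_symx (N : ℕ) (hN : 1 ≤ N) (det g a Y D z : ℝ) (hg : 0 ≤ g) (ha : 0 ≤ a)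
    (h : det ≤ g * a ^ (N - 1) * Y ^ N) (hY0 : 0 ≤ Y) (hY : Y ≤ 1 + (-D - 2 * z) / N) :
    Real.sqrt det ≤ Real.sqrt g * Real.sqrt (a ^ (N - 1)) * Real.exp (-D / 2 - z) := by
  have hN0 : (N : ℝ) ≠ 0 := by
    have : (0 : ℝ) < N := by exact_mod_cast hN
    exact this.ne'
  have h1 : Y ≤ Real.exp ((-D - 2 * z) / N) := by
    have := Real.add_one_le_exp ((-D - 2 * z) / N)
    linarith
  have h2 : Y ^ N ≤ Real.exp (-D / 2 - z) ^ 2 := by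
    calc Y ^ N ≤ Real.exp ((-D - 2 * z) / N) ^ N := pow_le_pow_left₀ hY0 h1 N
      _ = Real.exp (-D - 2 * z) := by
        rw [← Real.exp_nat_mul]
        congr 1
        field_simp
      _ = Real.exp (-D / 2 - z) ^ 2 := by
        rw [← Real.exp_nat_mul]
        congr 1
        push_cast
        ring
  have h3 : 0 ≤ g * a ^ (N - 1) := mul_nonneg hg (pow_nonneg ha _)
  have h4 : det ≤ g * a ^ (N - 1) * Real.exp (-D / 2 - z) ^ 2 :=
    h.trans (mul_le_mul_of_nonneg_left h2 h3)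
  refine (Real.sqrt_le_sqrt h4).trans (le_of_eq ?_)
  rw [Real.sqrt_mul h3, Real.sqrt_mul hg, Real.sqrt_sq (Real.exp_pos _).le]

theorem sy_R2_symx (D z : ℝ) (h : z ^ 2 ≤ D) : (Real.exp (-D / 2 - z) + Real.exp (-D / 2 + z)) / 2 ≤ 1 := by
  have h1 := Real.cosh_le_exp_half_sq z
  have h2 : (Real.exp (-D / 2 - z) + Real.exp (-D / 2 + z)) / 2 = Real.exp (-D / 2) * Real.cosh z := by
    rw [Real.cosh_eq, sub_eq_add_neg, Real.exp_add, Real.exp_add]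
    ring
  rw [h2]
  calc Real.exp (-D / 2) * Real.cosh z ≤ Real.exp (-D / 2) * Real.exp (z ^ 2 / 2) :=
        mul_le_mul_of_nonneg_left h1 (Real.exp_pos _).le
    _ = Real.exp (-D / 2 + z ^ 2 / 2) := (Real.exp_add _ _).symm
    _ ≤ 1 := by
      rw [Real.exp_le_one_iff]
      linarith

theorem sy_R3_symx (α t a g κ k : ℝ) (hα : 0 < α) (ha : 0 < a) (h1 : α * t ^ 2 ≤ a) (h2 : t ^ 2 ≤ g)
    (h3 : a ≤ g) : (t * (κ / a + k / g)) ^ 2 ≤ (2 * κ ^ 2 / α + 2 * k ^ 2) / a := by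
  have hg : 0 < g := ha.trans_le h3
  have e1 : (t * (κ / a + k / g)) ^ 2 ≤ 2 * (t ^ 2 * κ ^ 2 / a ^ 2) + 2 * (t ^ 2 * k ^ 2 / g ^ 2) := by
    have e : 2 * (t ^ 2 * κ ^ 2 / a ^ 2) + 2 * (t ^ 2 * k ^ 2 / g ^ 2) - (t * (κ / a + k / g)) ^ 2 =
      (t * (κ / a - k / g)) ^ 2 := by
      ring
    nlinarith [sq_nonneg (t * (κ / a - k / g))]
  have e2 : t ^ 2 * κ ^ 2 / a ^ 2 ≤ κ ^ 2 / α / a := by
    rw [div_div, div_le_div_iff₀ (by positivity) (by positivity)]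
    have : κ ^ 2 * a * (α * t ^ 2) ≤ κ ^ 2 * a * a := mul_le_mul_of_nonneg_left h1 (by positivity)
    nlinarith
  have e3 : t ^ 2 * k ^ 2 / g ^ 2 ≤ k ^ 2 / a := by
    rw [div_le_div_iff₀ (by positivity) (by positivity)]
    have h5 : t ^ 2 * a ≤ g * g := mul_le_mul h2 h3 ha.le hg.le
    have h6 : k ^ 2 * (t ^ 2 * a) ≤ k ^ 2 * (g * g) := mul_le_mul_of_nonneg_left h5 (sq_nonneg _)
    nlinarith
  have e4 : (2 * κ ^ 2 / α + 2 * k ^ 2) / a = 2 * (κ ^ 2 / α / a) + 2 * (k ^ 2 / a) := by ring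
  rw [e4]
  linarith

theorem sy_R4_symx (N T a b α t t' Bq κ k η u g D : ℝ) (hN : 1 < N) (ha : 0 < a) (hg : 0 < g)
    (hge : g = t ^ 2 + u + b) (hb : 0 ≤ b) (hu : 0 ≤ u) (hη : 0 ≤ η)
    (hae : a = α * t ^ 2 + b) (hD : D = (2 * κ ^ 2 / α + 2 * k ^ 2) / a)
    (hbe : b = (Bq + 2 * κ ^ 2 / α + 2 * k ^ 2) / (N - 1))
    (hT : T - ((1 - η) * (t ^ 2 + u) - 2 * t' * k) = (N - 1) * (α * t ^ 2) + Bq - 2 * t' * κ) :
    ((T - ((1 - η) * (t ^ 2 + u) - 2 * t' * k)) / a + ((1 - η) * (t ^ 2 + u) - 2 * t' * k) / g) / N ≤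
      1 + (-D - 2 * (t' * (κ / a + k / g))) / N := by
  have hN1 : N - 1 ≠ 0 := by linarith
  have hN0 : (0 : ℝ) < N := by linarith
  have hbe2 : (N - 1) * b = Bq + 2 * κ ^ 2 / α + 2 * k ^ 2 := by
    rw [hbe]
    field_simp
  have e1 : (T - ((1 - η) * (t ^ 2 + u) - 2 * t' * k)) / a = (N - 1) - D - 2 * (t' * (κ / a)) := by
    rw [hT, hD]
    have e : (N - 1) * (α * t ^ 2) + Bq - 2 * t' * κ =
        (N - 1) * a - (2 * κ ^ 2 / α + 2 * k ^ 2) - 2 * t' * κ := by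
      rw [hae]
      linear_combination -hbe2
    rw [e]
    field_simp
  have e2 : ((1 - η) * (t ^ 2 + u) - 2 * t' * k) / g ≤ 1 - 2 * (t' * (k / g)) := by
    rw [div_le_iff₀ hg]
    have e : (1 - 2 * (t' * (k / g))) * g = g - 2 * t' * k := by
      field_simp
    rw [e, hge]
    nlinarith [mul_nonneg hη (add_nonneg (sq_nonneg t) hu)]
  rw [e1, div_le_iff₀ hN0]
  have e3 : (1 + (-D - 2 * (t' * (κ / a + k / g))) / N) * N = N - D - 2 * (t' * (κ / a + k / g)) := by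
    field_simp
    ring
  rw [e3]
  linarith

theorem Fr.sym {N : ℕ} (hN : 2 ≤ N) (F : Fr N) (t : ℝ) (w : E (N + 1)) (hw : ‖w‖ = 1) (hu : F.u2 w ≠ 0)
    (ht : t ≠ 0) (hal : 0 < F.al w) :
    0 ≤ F.bb w ∧ (F.FF t w + F.FF (-t) w) / 2 ≤
      Real.sqrt (t ^ 2 + F.u2 w + F.bb w) * Real.sqrt ((F.al w * t ^ 2 + F.bb w) ^ (N - 1)) := by
  have hN1 : (1 : ℝ) < N := by exact_mod_cast hN
  have hN0 : (0 : ℝ) < (N : ℝ) - 1 := by linarith
  have hBq : 0 ≤ F.Bq w := by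
    unfold Fr.Bq
    positivity
  have hu2 : 0 ≤ F.u2 w := by
    unfold Fr.u2
    positivity
  obtain ⟨hη0, hη1, hηd⟩ := F.eta_bd w
  have hb : 0 ≤ F.bb w := by
    unfold Fr.bb
    positivity
  refine ⟨hb, ?_⟩
  obtain ⟨α, hα⟩ : ∃ α, α = F.al w := ⟨_, rfl⟩
  obtain ⟨b, hbe⟩ : ∃ b, b = F.bb w := ⟨_, rfl⟩
  obtain ⟨κ, hκ⟩ : ∃ κ, κ = F.hh w - F.k2 w := ⟨_, rfl⟩
  obtain ⟨k, hk⟩ : ∃ k, k = F.k2 w := ⟨_, rfl⟩
  rw [← hα] at hal
  rw [← hbe] at hb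
  rw [← hα, ← hbe]
  have hα1 : α ≤ 1 := by
    rw [hα]
    unfold Fr.al
    have : 0 ≤ (F.del - F.eta w) / ((N : ℝ) - 1) := div_nonneg (by linarith) hN0.le
    linarith
  have ht2 : 0 < t ^ 2 := by positivity
  obtain ⟨a, hae⟩ : ∃ a, a = α * t ^ 2 + b := ⟨_, rfl⟩
  obtain ⟨g, hge⟩ : ∃ g, g = t ^ 2 + F.u2 w + b := ⟨_, rfl⟩
  have ha : 0 < a := by
    rw [hae]
    positivity
  have hag : a ≤ g := by
    rw [hae, hge]
    nlinarith
  have hg : 0 < g := ha.trans_le hag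
  obtain ⟨D, hD⟩ : ∃ D, D = (2 * κ ^ 2 / α + 2 * k ^ 2) / a := ⟨_, rfl⟩
  rw [← hae, ← hge]
  have hbe3 : b = (F.Bq w + 2 * κ ^ 2 / α + 2 * k ^ 2) / ((N : ℝ) - 1) := by
    rw [hbe, hκ, hk, hα]
    rfl
  have hαe : ((N : ℝ) - 1) * α = (N : ℝ) - 1 - (F.del - F.eta w) := by
    rw [hα]
    unfold Fr.al
    field_simp
  have side : ∀ t' : ℝ, t' ^ 2 = t ^ 2 →
      F.FF t' w ≤ Real.sqrt g * Real.sqrt (a ^ (N - 1)) * Real.exp (-D / 2 - (t' * (κ / a + k / g))) := by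
    intro t' ht'
    obtain ⟨n, hn, hr⟩ := F.ray (by omega) t' w hw hu
    obtain ⟨h1, h2⟩ := amgm (by omega) (F.Gm t' w) (F.psd t' w) n hn _ a g hr ha hag
    have h3 := F.trc t' w hu
    rw [ht', ← hk] at h1 h2
    unfold Fr.FF
    refine sy_R1_symx N (by omega) _ g a _ D _ hg.le ha.le h1 h2 ?_
    refine sy_R4_symx (N : ℝ) _ a b α t t' (F.Bq w) κ k (F.eta w) (F.u2 w) g D hN1 ha hg hge hb hu2 hη0 hae hD hbe3 ?_
    rw [h3, ht', hκ, hk]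
    linear_combination (-t ^ 2) * hαe
  have s1 := side t rfl
  have s2 := side (-t) (by ring)
  have hz := sy_R3_symx α t a g κ k hal ha (by rw [hae]; linarith) (by rw [hge]; linarith) hag
  rw [← hD] at hz
  have h5 := sy_R2_symx D _ hz
  have e1 : -D / 2 - (-t * (κ / a + k / g)) = -D / 2 + t * (κ / a + k / g) := by ring
  rw [e1] at s2
  have hp : 0 ≤ Real.sqrt g * Real.sqrt (a ^ (N - 1)) := by positivity
  have h6 := mul_le_mul_of_nonneg_left h5 hp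
  rw [mul_one] at h6
  refine le_trans ?_ h6
  linarith



end Pool.Agent.Helper82.OS
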